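import Pool.Agent.CEL.Stmts

/-!
# CEL, module ASM: final assembly
-/

set_option autoImplicit false
open Topology Filter MeasureTheory Matrix Metric
open scoped ENNReal

namespace Pool.Agent.CEL

namespace ASM_

variable {n N : ℕ}

/-- Averages of equal functions. -/
theorem avg_congr (u u' : E n → (Fin N → ℝ)) (x₀ : E n) (s : ℝ)
    (heq : ∀ x ∈ ball x₀ s, u' x = u x) (x : E n) (hx : x ∈ ball x₀ s) (z : Fin N → ℝ)
    (S : Set (E n)) (hS : MeasurableSet S)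
    (h : Tendsto (fun r : ℝ => (volume (ball x r))⁻¹ * ∫⁻ y in ball x r ∩ S, ‖u' y - z‖ₑ)
      (𝓝[>] 0) (𝓝 0)) :
    Tendsto (fun r : ℝ => (volume (ball x r))⁻¹ * ∫⁻ y in ball x r ∩ S, ‖u y - z‖ₑ)
      (𝓝[>] 0) (𝓝 0) := by
  have hd : 0 < s - dist x x₀ := sub_pos.2 (mem_ball.1 hx)
  refine h.congr' ?_
  filter_upwards [nhdsWithin_le_nhds (Iio_mem_nhds hd)] with r hr
  congr 1
  refine setLIntegral_congr_fun (measurableSet_ball.inter hS) fun y hy => ?_
  have h1 : dist y x < r := mem_ball.1 hy.1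
  have h2 : r < s - dist x x₀ := hr
  have h3 : y ∈ ball x₀ s := by
    rw [mem_ball]
    calc dist y x₀ ≤ dist y x + dist x x₀ := dist_triangle _ _ _
      _ < s := by linarith
  change ‖u' y - z‖ₑ = ‖u y - z‖ₑ
  rw [heq y h3]

end ASM_

open ASM_ in
theorem asm_proof (h1 : Stmt_NIC) (h2 : Stmt_CNC) (h3 : Stmt_FIN) (h4 : Stmt_LOC) : Stmt_ASM := by
  intro n N K A hA Ω hΩ u hu hui μ g hfin hμΩ hg hgn hweak
  rcases n with _ | m
  · -- a point
    refine measure_mono_null ?_ (measure_empty (μ := μ))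
    rintro x ⟨-, hx, -⟩
    refine hx ⟨u x, ?_⟩
    have h0 : (fun r : ℝ => (volume (ball x r))⁻¹ * ∫⁻ y in ball x r, ‖u y - u x‖ₑ) =
        fun _ => 0 := by
      funext r
      have h5 : ∀ y : E 0, ‖u y - u x‖ₑ = 0 := by
        intro y
        rw [Subsingleton.elim y x, sub_self, enorm_zero]
      simp only [h5, lintegral_zero, mul_zero]
    rw [h0]
    exact tendsto_const_nhds
  · obtain ⟨ℓ, hℓ⟩ := h1 (m + 1) N K A hA
    refine measure_null_of_locally_null _ fun x₀ hx₀ => ?_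
    obtain ⟨s, Ru, u', μ', g', hs, hP, huu, hμ, hgg⟩ :=
      h4 (m + 1) N K A Ω hΩ u hu hui μ g hfin hμΩ hg hgn hweak x₀ hx₀.1
    refine ⟨_, inter_mem_nhdsWithin _ (ball_mem_nhds x₀ hs), ?_⟩
    have h5 := h2 m N K ℓ A hℓ Ru u' μ' g' hP
    have h6 : ∀ᵐ x ∂(μ'.restrict (ball x₀ s)), g' x ≠ 0 →
      ∃ (ν : E (m + 1)) (a b : Fin N → ℝ), ‖ν‖ = 1 ∧ HalfLim u' x ν a ∧ HalfLim u' x (-ν) b :=
      ae_restrict_of_ae h5
    rw [hμ] at h6
    have h7 : ∀ᵐ x ∂(μ.restrict (ball x₀ s)), ‖g x‖ = 1 := ae_restrict_of_ae hgn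
    have h8 : ∀ᵐ x ∂(μ.restrict (ball x₀ s)),
      ∃ (ν : E (m + 1)) (a b : Fin N → ℝ), ‖ν‖ = 1 ∧ HalfLim u' x ν a ∧ HalfLim u' x (-ν) b := by
      filter_upwards [h6, h7, hgg] with x hx1 hx2 hx3
      refine hx1 ?_
      rw [hx3]
      intro h0
      rw [h0, norm_zero] at hx2
      exact zero_ne_one hx2
    rw [ae_restrict_iff' measurableSet_ball] at h8
    refine measure_mono_null ?_ h8
    rintro x ⟨⟨-, hx1, hx2⟩, hx3⟩ hx4
    obtain ⟨ν, a, b, hν, ha, hb⟩ := hx4 hx3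
    rcases h3 m N u' x ν a b hP.meas_u hν ha hb with ⟨z, hz⟩ | ⟨a', b', ν', hab, hν', ha', hb'⟩
    · refine hx1 ⟨z, ?_⟩
      have h9 := avg_congr u u' x₀ s huu x hx3 z Set.univ MeasurableSet.univ
        (by simpa only [Set.inter_univ] using hz)
      simpa only [Set.inter_univ] using h9
    · have hm : Measurable fun y : E (m + 1) => inner ℝ (y - x) ν' := by fun_prop
      refine hx2 ⟨a', b', ν', hab, hν', ?_, ?_⟩
      · exact avg_congr u u' x₀ s huu x hx3 a' {y | 0 < inner ℝ (y - x) ν'}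
          (measurableSet_lt measurable_const hm) ha'
      · exact avg_congr u u' x₀ s huu x hx3 b' {y | inner ℝ (y - x) ν' < 0}
          (measurableSet_lt hm measurable_const) hb'

end Pool.Agent.CEL
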