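import Pool.Agent.CEL.Stmts

/-!
# CEL, module BES: Lebesgue points
-/

set_option autoImplicit false
open Topology Filter MeasureTheory Matrix Metric
open scoped ENNReal

namespace Pool.Agent.CEL

theorem bes_proof : Stmt_BES := by
  intro n K μ _ g hg hg1
  have hint : Integrable g μ :=
    (integrable_const (1 : ℝ)).mono' hg.aestronglyMeasurable (Eventually.of_forall hg1)
  filter_upwards [(Besicovitch.vitaliFamily μ).ae_tendsto_lintegral_enorm_sub_div
    hint.locallyIntegrable] with x hx ε hε
  have h1 := hx.comp (Besicovitch.tendsto_filterAt μ x)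
  have h2 := h1.eventually_lt_const (show (0 : ℝ≥0∞) < ENNReal.ofReal ε from
    ENNReal.ofReal_pos.2 hε)
  filter_upwards [h2] with r hr
  simp only [Function.comp] at hr
  by_cases h0 : μ (closedBall x r) = 0
  · rw [Measure.restrict_eq_zero.2 h0]
    simp
  · exact ((ENNReal.div_le_iff h0 (measure_ne_top _ _)).1 hr.le)

end Pool.Agent.CEL
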