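import Pool.Agent.CEL.Stmts

/-!
# CEL, module BSA: distance functions of finite families
-/

set_option autoImplicit false
open Topology Filter MeasureTheory Matrix Metric
open scoped ENNReal

namespace Pool.Agent.CEL

theorem bsa_proof : Stmt_BSA := by
  intro n I D hD
  have hpos : ∀ y, 0 < D y := by
    intro y
    obtain ⟨q, hq, h⟩ := hD.ex y
    rw [h]
    have := hD.pos q hq
    positivity
  have hle : ∀ x y, D x - D y ≤ ‖x - y‖ := by
    intro x y
    obtain ⟨q, hq, h⟩ := hD.ex y
    have h1 := hD.le q hq x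
    have h2 : ‖x - q.1‖ ≤ ‖x - y‖ + ‖y - q.1‖ := by
      have h3 : x - q.1 = (x - y) + (y - q.1) := by abel
      rw [h3]
      exact norm_add_le _ _
    rw [h]
    linarith
  have hlip : ∀ x y, |D x - D y| ≤ ‖x - y‖ := by
    intro x y
    rw [abs_le]
    refine ⟨?_, hle x y⟩
    have := hle y x
    rw [norm_sub_rev y x] at this
    linarith
  refine ⟨hpos, hlip, ?_, ?_⟩
  · have h1 : LipschitzWith 1 D := by
      refine LipschitzWith.of_dist_le_mul fun x y => ?_
      rw [Real.dist_eq, dist_eq_norm, NNReal.coe_one, one_mul]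
      exact hlip x y
    exact h1.continuous
  · obtain ⟨q0, hq0, -⟩ := hD.ex 0
    obtain ⟨q, hq, hmin⟩ := I.exists_min_image (fun q => q.2) ⟨q0, hq0⟩
    refine ⟨q.2, hD.pos q hq, fun y => ?_⟩
    obtain ⟨q', hq', h⟩ := hD.ex y
    rw [h]
    have h1 := hmin q' hq'
    have h2 := norm_nonneg (y - q'.1)
    change q.2 ≤ q'.2 at h1
    linarith

end Pool.Agent.CEL
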