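import Pool.Agent.CEL.Stmts

/-!
# CEL: BSJ, the square root of `J` is a seminorm
-/

set_option autoImplicit false
open Topology Filter MeasureTheory Matrix Metric
open scoped ENNReal

namespace Pool.Agent.CEL

theorem bsj_proof : Stmt_BSJ := by
  intro m S f g hf hg
  have hQ : Measurable (fun q : E m × ℝ => S.Q q) := S.Q.continuous.measurable
  have hF : Measurable (fun p => ∫⁻ t, f (S.Q (p, t))) :=
    Measurable.lintegral_prod_right' (f := fun q : E m × ℝ => f (S.Q q)) (hf.comp hQ)
  have hG : Measurable (fun p => ∫⁻ t, g (S.Q (p, t))) :=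
    Measurable.lintegral_prod_right' (f := fun q : E m × ℝ => g (S.Q q)) (hg.comp hQ)
  have hsq : ∀ x : ℝ≥0∞, x ^ (2 : ℝ) = x ^ 2 := fun x => by
    rw [← ENNReal.rpow_natCast]; norm_num
  refine ⟨?_, ?_, ?_⟩
  · have h1 := ENNReal.lintegral_Lp_add_le (μ := (volume : Measure (E m))) (p := 2)
      hF.aemeasurable hG.aemeasurable (by norm_num)
    simp only [hsq] at h1
    have h2 : ∀ p, (∫⁻ t, (f (S.Q (p, t)) + g (S.Q (p, t)))) =
        (∫⁻ t, f (S.Q (p, t))) + ∫⁻ t, g (S.Q (p, t)) := by
      intro p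
      exact lintegral_add_left (hf.comp (hQ.comp measurable_prodMk_left)) _
    unfold J
    simp only [h2]
    exact h1
  · intro c
    unfold J
    have h2 : ∀ p, (∫⁻ t, c * f (S.Q (p, t))) = c * ∫⁻ t, f (S.Q (p, t)) := by
      intro p
      exact lintegral_const_mul _ (hf.comp (hQ.comp measurable_prodMk_left))
    simp only [h2, mul_pow]
    exact lintegral_const_mul _ (hF.pow_const 2)
  · intro h
    exact lintegral_mono fun p => pow_le_pow_left' (lintegral_mono fun t => h _) 2

end Pool.Agent.CEL
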