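import Pool.Agent.CEL.Stmts

/-!
# CEL, module BSM : measurability of the measure of balls with variable radius
-/

set_option autoImplicit false

namespace Pool.Agent.CEL
open MeasureTheory Metric

theorem bsm_proof : Stmt_BSM := by
  intro n ν _ δ hδ
  constructor
  · have h1 : MeasurableSet {z : E n × E n | dist z.2 z.1 < δ z.1} :=
      (isOpen_lt (continuous_snd.dist continuous_fst) (hδ.comp continuous_fst)).measurableSet
    exact measurable_measure_prodMk_left h1
  · have h1 : MeasurableSet {z : E n × E n | dist z.2 z.1 ≤ δ z.1} :=
      (isClosed_le (continuous_snd.dist continuous_fst) (hδ.comp continuous_fst)).measurableSet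
    exact measurable_measure_prodMk_left h1

end Pool.Agent.CEL
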