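import Pool.Agent.CEL.Stmts

set_option autoImplicit false
open Topology Filter MeasureTheory Matrix Metric
open scoped ENNReal

namespace Pool.Agent.CEL
namespace BSS_

variable {m : ℕ} (S : Slice m)

lemma meas_comp (f : E (m + 1) → ℝ≥0∞) (hf : Measurable f) :
    Measurable (fun q : E m × ℝ => f (S.Q q)) :=
  hf.comp S.Q.continuous.measurable

lemma part1 (f : E (m + 1) → ℝ≥0∞) (hf : Measurable f) :
    Measurable (fun p => ∫⁻ t, f (S.Q (p, t))) :=
  (meas_comp S f hf).lintegral_prod_right'

lemma part2 (f : E (m + 1) → ℝ≥0∞) (hf : Measurable f) :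
    ∫⁻ p, ∫⁻ t, f (S.Q (p, t)) = ∫⁻ z, f z := by
  rw [← S.mp.lintegral_comp hf, Measure.volume_eq_prod,
    lintegral_prod _ (meas_comp S f hf).aemeasurable]

lemma part3 (f : E (m + 1) → ℝ≥0∞) (hf : Measurable f) (ψ : E m → ℝ≥0∞) (hψ : Measurable ψ) :
    ∫⁻ p, (∫⁻ t, f (S.Q (p, t))) * ψ p = ∫⁻ z, f z * ψ (S.Q.symm z).1 := by
  have hm : Measurable (fun z : E (m + 1) => ψ (S.Q.symm z).1) :=
    hψ.comp (measurable_fst.comp S.Q.symm.continuous.measurable)
  rw [← part2 S (fun z => f z * ψ (S.Q.symm z).1) (hf.mul hm)]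
  apply lintegral_congr
  intro p
  simp only [ContinuousLinearEquiv.symm_apply_apply]
  rw [lintegral_mul_const]
  exact (meas_comp S f hf).comp measurable_prodMk_left

lemma part4 (ψ : E m → ℝ≥0∞) (hψ : Measurable ψ) (z : E (m + 1)) (r : ℝ) :
    ∫⁻ y in ball z r, ψ (S.Q.symm y).1 ≤
      ENNReal.ofReal (2 * r) * ∫⁻ q in ball (S.Q.symm z).1 (2 * r), ψ q := by
  have h3 := part3 S ((ball z r).indicator 1) (measurable_one.indicator measurableSet_ball) ψ hψ
  have e1 : ∫⁻ y in ball z r, ψ (S.Q.symm y).1 =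
      ∫⁻ y, (ball z r).indicator 1 y * ψ (S.Q.symm y).1 := by
    rw [← lintegral_indicator measurableSet_ball]
    apply lintegral_congr
    intro y
    by_cases hy : y ∈ ball z r
    · simp [Set.indicator_of_mem hy]
    · simp [Set.indicator_of_notMem hy]
  have hsub : ∀ (p : E m) (t : ℝ), S.Q (p, t) ∈ ball z r →
      p ∈ ball (S.Q.symm z).1 (2 * r) ∧ t ∈ ball (S.Q.symm z).2 r := by
    intro p t h
    rw [mem_ball_iff_norm] at h
    have h1 := S.lip1 (S.Q (p, t) - z)
    have h2 := S.lip2 (S.Q (p, t) - z)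
    rw [map_sub, ContinuousLinearEquiv.symm_apply_apply] at h1 h2
    simp only [Prod.fst_sub, Prod.snd_sub] at h1 h2
    constructor
    · rw [mem_ball_iff_norm]
      linarith
    · rw [mem_ball_iff_norm, Real.norm_eq_abs]
      linarith
  rw [e1, ← h3, ← lintegral_indicator measurableSet_ball, ← lintegral_const_mul]
  · apply lintegral_mono
    intro p
    simp only []
    by_cases hp : p ∈ ball (S.Q.symm z).1 (2 * r)
    · rw [Set.indicator_of_mem hp]
      gcongr
      calc ∫⁻ t, (ball z r).indicator 1 (S.Q (p, t))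
          ≤ ∫⁻ t, (ball (S.Q.symm z).2 r).indicator 1 t := by
            apply lintegral_mono
            intro t
            simp only []
            by_cases ht : S.Q (p, t) ∈ ball z r
            · rw [Set.indicator_of_mem ht, Set.indicator_of_mem (hsub p t ht).2]
              simp
            · rw [Set.indicator_of_notMem ht]
              exact zero_le
        _ = ENNReal.ofReal (2 * r) := by
            rw [lintegral_indicator_one measurableSet_ball, Real.volume_ball]
    · have h0 : ∀ t, (ball z r).indicator (1 : E (m + 1) → ℝ≥0∞) (S.Q (p, t)) = 0 := by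
        intro t
        apply Set.indicator_of_notMem
        intro ht
        exact hp (hsub p t ht).1
      simp only [h0, lintegral_zero, zero_mul]
      exact zero_le
  · exact hψ.indicator measurableSet_ball

end BSS_

theorem bss_proof : Stmt_BSS := by
  intro m S f hf
  exact ⟨BSS_.part1 S f hf, BSS_.part2 S f hf, fun ψ hψ =>
    ⟨BSS_.part3 S f hf ψ hψ, fun z r _ => BSS_.part4 S ψ hψ z r⟩⟩

end Pool.Agent.CEL
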