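import Pool.Agent.CEL.Stmts

/-!
# CEL, BSV: volume of balls
-/

set_option autoImplicit false
open Topology Filter MeasureTheory Matrix Metric
open scoped ENNReal

namespace Pool.Agent.CEL

theorem bsv_proof : Stmt_BSV := by
  intro n
  have hrank : Module.finrank ℝ (E n) = n := by simp
  refine ⟨volume (ball (0 : E n) 1), (measure_ball_pos volume _ one_pos).ne', measure_ball_lt_top.ne,
    ?_⟩
  intro x r hr
  constructor
  · rw [Measure.addHaar_ball_of_pos volume x hr, hrank]
  · rw [Measure.addHaar_closedBall volume x hr.le, hrank]

end Pool.Agent.CEL
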