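import Pool.Agent.CEL.Stmts

/-!
# CEL: CHR, finitely many characteristic directions
-/

set_option autoImplicit false
open Topology Filter MeasureTheory Matrix Metric
open scoped ENNReal

namespace Pool.Agent.CEL

namespace CHR_

open MvPolynomial

variable {n : ℕ}

/-- multi-indices of degree `ℓ`. -/
abbrev TT (n ℓ : ℕ) := {β : Fin n → ℕ // ∑ i, β i = ℓ}

theorem finTT (n ℓ : ℕ) : Finite (TT n ℓ) := by
  have : ∀ β : TT n ℓ, ∀ i, β.1 i < ℓ + 1 := by
    intro β i
    have h1 : β.1 i ≤ ∑ i, β.1 i := Finset.single_le_sum (fun _ _ => Nat.zero_le _) (Finset.mem_univ i)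
    rw [β.2] at h1
    omega
  refine Finite.of_injective (β := Fin n → Fin (ℓ + 1)) (fun β i => ⟨β.1 i, this β i⟩) ?_
  intro β γ h
  apply Subtype.ext
  funext i
  have := congrFun h i
  simpa using this

theorem eval_hom {ℓ : ℕ} [Fintype (TT n ℓ)] (p : MvPolynomial (Fin n) ℝ) (hp : p.IsHomogeneous ℓ)
    (ξ : Fin n → ℝ) : eval ξ p =
      ∑ γ : TT n ℓ, coeff (Finsupp.equivFunOnFinite.symm γ.1) p * ∏ i, ξ i ^ γ.1 i := by
  rw [eval_eq']
  symm
  apply Finset.sum_bij_ne_zero (fun γ _ _ => Finsupp.equivFunOnFinite.symm γ.1)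
  · intro γ _ h
    rw [mem_support_iff]
    exact left_ne_zero_of_mul h
  · intro γ _ _ γ' _ _ h
    exact Subtype.ext (Finsupp.equivFunOnFinite.symm.injective h)
  · intro m hm h
    rw [mem_support_iff] at hm
    have h1 : m.degree = ℓ := by
      have h2 := hp hm
      rw [Finsupp.degree_eq_weight_one]
      exact h2
    refine ⟨⟨m, ?_⟩, Finset.mem_univ _, ?_, ?_⟩
    · rw [← h1, Finsupp.degree_eq_sum]
    · have e : Finsupp.equivFunOnFinite.symm (⇑m) = m := by ext; rfl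
      simp only [e]
      exact h
    · ext; rfl
  · intro γ _ _
    rfl

theorem eval_id {N K : ℕ} (A : Op n N K) (β : Fin n → ℕ)
    (L : Matrix (Fin N) (Fin K) (MvPolynomial (Fin n) ℝ))
    (hL : L * (∑ j, (MvPolynomial.X j : MvPolynomial (Fin n) ℝ) • (A j).map MvPolynomial.C) =
        (∏ i, (MvPolynomial.X i : MvPolynomial (Fin n) ℝ) ^ β i) •
          (1 : Matrix (Fin N) (Fin N) (MvPolynomial (Fin n) ℝ)))
    (ξ : E n) (v : Fin N → ℝ) (w : Fin K → ℝ) (h : sym A ξ *ᵥ v = w) (i : Fin N) :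
    eval ξ (∑ k, L i k * C (w k)) = (∏ j, ξ j ^ β j) * v i := by
  have h1 : ∀ i', ∑ k, eval ξ (L i k) * sym A ξ k i' =
      (∏ j, ξ j ^ β j) * (1 : Matrix (Fin N) (Fin N) ℝ) i i' := by
    intro i'
    have h2 : ∑ k, L i k * (∑ j, (MvPolynomial.X j : MvPolynomial (Fin n) ℝ) •
        (A j).map MvPolynomial.C : Matrix (Fin K) (Fin N) (MvPolynomial (Fin n) ℝ)) k i' =
        ((∏ i, (MvPolynomial.X i : MvPolynomial (Fin n) ℝ) ^ β i) •
          (1 : Matrix (Fin N) (Fin N) (MvPolynomial (Fin n) ℝ))) i i' :=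
      congrFun (congrFun hL i) i'
    have h3 := congrArg (eval (ξ : Fin n → ℝ)) h2
    rw [map_sum, Matrix.smul_apply, smul_eq_mul, map_mul, map_prod, Matrix.one_apply] at h3
    rw [Matrix.one_apply]
    have h4 : ∀ k, eval (ξ : Fin n → ℝ) (L i k * (∑ j, (MvPolynomial.X j : MvPolynomial (Fin n) ℝ) •
        (A j).map MvPolynomial.C : Matrix (Fin K) (Fin N) (MvPolynomial (Fin n) ℝ)) k i') =
        eval (ξ : Fin n → ℝ) (L i k) * sym A ξ k i' := by
      intro k
      rw [map_mul, Matrix.sum_apply, map_sum, sym, Matrix.sum_apply]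
      congr 1
      refine Finset.sum_congr rfl fun j _ => ?_
      rw [Matrix.smul_apply, Matrix.smul_apply, Matrix.map_apply, smul_eq_mul, smul_eq_mul, map_mul,
        eval_X, eval_C]
    rw [Finset.sum_congr rfl fun k _ => h4 k] at h3
    rw [h3]
    congr 1
    · refine Finset.prod_congr rfl fun j _ => ?_
      rw [map_pow, eval_X]
    · split_ifs <;> simp
  rw [map_sum, ← h]
  calc ∑ k, eval (ξ : Fin n → ℝ) (L i k * C ((sym A ξ *ᵥ v) k))
      = ∑ k, ∑ i', (eval (ξ : Fin n → ℝ) (L i k) * sym A ξ k i') * v i' := by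
        refine Finset.sum_congr rfl fun k _ => ?_
        rw [map_mul, eval_C, Matrix.mulVec, dotProduct, Finset.mul_sum]
        refine Finset.sum_congr rfl fun i' _ => by ring
    _ = ∑ i', ((∏ j, ξ j ^ β j) * (1 : Matrix (Fin N) (Fin N) ℝ) i i') * v i' := by
        rw [Finset.sum_comm]
        refine Finset.sum_congr rfl fun i' _ => ?_
        rw [← Finset.sum_mul, h1]
    _ = _ := by
        rw [Finset.sum_eq_single i]
        · rw [Matrix.one_apply_eq, mul_one]
        · intro b _ hb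
          rw [Matrix.one_apply_ne hb.symm]; ring
        · intro h; exact absurd (Finset.mem_univ i) h

end CHR_

open CHR_ MvPolynomial in
theorem chr_proof : Stmt_CHR := by
  intro n N K ℓ A hA w hw
  classical
  have := finTT n ℓ
  let _ : Fintype (TT n ℓ) := Fintype.ofFinite _
  obtain ⟨hℓ, hA⟩ := hA
  choose L hLh hL using hA
  -- the matrices
  let M : Fin n → Fin N → Matrix (TT n ℓ) (TT n ℓ) ℝ := fun k i β γ =>
    coeff (Finsupp.equivFunOnFinite.symm γ.1) (X k * ∑ j, L β.1 β.2 i j * C (w j))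
  have hhom : ∀ (k : Fin n) (i : Fin N) (β : TT n ℓ),
      (X k * ∑ j, L β.1 β.2 i j * C (w j) : MvPolynomial (Fin n) ℝ).IsHomogeneous ℓ := by
    intro k i β
    have h1 : (∑ j, L β.1 β.2 i j * C (w j) : MvPolynomial (Fin n) ℝ).IsHomogeneous (ℓ - 1) := by
      apply IsHomogeneous.sum
      intro j _
      have := (hLh β.1 β.2 i j).mul (isHomogeneous_C (Fin n) (w j))
      rwa [add_zero] at this
    have h2 := (isHomogeneous_X ℝ k).mul h1
    have : 1 + (ℓ - 1) = ℓ := by omega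
    rwa [this] at h2
  have heig : ∀ ξ : E n, ξ ≠ 0 → ∀ v : Fin N → ℝ, sym A ξ *ᵥ v = w → ∀ k i,
      Module.End.HasEigenvalue (Matrix.toLin' (M k i)) (ξ k * v i) := by
    intro ξ hξ v hv k i
    apply Module.End.hasEigenvalue_of_hasEigenvector (x := fun γ : TT n ℓ => ∏ j, ξ j ^ γ.1 j)
    refine ⟨?_, ?_⟩
    · rw [Module.End.mem_eigenspace_iff]
      funext β
      rw [Matrix.toLin'_apply, Matrix.mulVec, dotProduct, ← eval_hom _ (hhom k i β) ξ, map_mul,
        eval_X, eval_id A β.1 _ (hL β.1 β.2) ξ v w hv i, Pi.smul_apply, smul_eq_mul]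
      ring
    · intro h0
      apply hξ
      ext j
      have hs : ∑ i, (Pi.single j ℓ : Fin n → ℕ) i = ℓ := by
        rw [Finset.sum_pi_single']
        simp
      have := congrFun h0 ⟨Pi.single j ℓ, hs⟩
      simp only [Pi.zero_apply] at this
      rw [Finset.prod_eq_single j] at this
      · rw [Pi.single_eq_same] at this
        exact pow_eq_zero_iff (by omega) |>.1 this
      · intro b _ hb
        rw [Pi.single_eq_of_ne hb, pow_zero]
      · intro h; exact absurd (Finset.mem_univ j) h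
  let Sol : Set (E n × (Fin N → ℝ)) := {q | q.1 ≠ 0 ∧ sym A q.1 *ᵥ q.2 = w}
  let g : E n × (Fin N → ℝ) → (Fin n → Fin N → ℝ) := fun q k i => q.1 k * q.2 i
  have hfin : (g '' Sol).Finite := by
    have h1 : (Set.pi Set.univ fun k : Fin n => Set.pi Set.univ fun i : Fin N =>
        {μ : ℝ | Module.End.HasEigenvalue (Matrix.toLin' (M k i)) μ}).Finite :=
      Set.Finite.pi fun k => Set.Finite.pi fun i => Module.End.finite_hasEigenvalue _
    refine h1.subset ?_
    rintro _ ⟨q, hq, rfl⟩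
    rw [Set.mem_univ_pi]
    intro k
    rw [Set.mem_univ_pi]
    intro i
    exact heig q.1 hq.1 q.2 hq.2 k i
  have hch : ∀ m : Fin n → Fin N → ℝ, ∃ q : E n × (Fin N → ℝ), m ∈ g '' Sol → q ∈ Sol ∧ g q = m := by
    intro m
    by_cases hm : m ∈ g '' Sol
    · obtain ⟨q, hq, hqm⟩ := hm
      exact ⟨q, fun _ => ⟨hq, hqm⟩⟩
    · exact ⟨(0, 0), fun h => absurd h hm⟩
  choose h hh using hch
  refine ⟨hfin.toFinset.image (fun m => (h m).1), ?_, ?_⟩
  · intro ζ hζ
    rw [Finset.mem_image] at hζ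
    obtain ⟨m, hm, rfl⟩ := hζ
    rw [Set.Finite.mem_toFinset] at hm
    exact (hh m hm).1.1
  · intro ξ hξ v hv
    have hm : g (ξ, v) ∈ g '' Sol := ⟨(ξ, v), ⟨hξ, hv⟩, rfl⟩
    obtain ⟨hs, hg⟩ := hh _ hm
    refine ⟨(h (g (ξ, v))).1, Finset.mem_image.2 ⟨_, hfin.mem_toFinset.2 hm, rfl⟩, ?_⟩
    have hv0 : ∃ i, v i ≠ 0 := by
      by_contra hcon
      push Not at hcon
      have : v = 0 := funext hcon
      rw [this, Matrix.mulVec_zero] at hv
      exact hw hv.symm
    obtain ⟨i, hi⟩ := hv0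
    refine ⟨(h (g (ξ, v))).2 i / v i, ?_⟩
    ext k
    have h1 : (h (g (ξ, v))).1 k * (h (g (ξ, v))).2 i = ξ k * v i := congrFun (congrFun hg k) i
    rw [PiLp.smul_apply, smul_eq_mul, div_mul_eq_mul_div, eq_div_iff hi, ← h1]
    ring

end Pool.Agent.CEL
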