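import Pool.Agent.CEL.Stmts

/-!
# CEL: module CNC, half-space limits almost everywhere (MP_12ff24_an)
-/

set_option autoImplicit false
open Topology Filter MeasureTheory Matrix Metric
open scoped ENNReal

namespace Pool.Agent.CEL

theorem cnc_proof (hOUT : Stmt_OUT) (hLIB : Stmt_LIB) (hLIC : Stmt_LIC) (hPRE : Stmt_PRE)
    (hSUP : Stmt_SUP) (hCPZ : Stmt_CPZ) (hHAF : Stmt_HAF) (hGOD : Stmt_GOD) (hEXD : Stmt_EXD) :
    Stmt_CNC := by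
  intro m N K ℓ A hA Ru u μ g hpair
  have := hpair.fin
  filter_upwards [hOUT m N K ℓ A hA Ru u μ g hpair, hPRE m μ] with x h1 h2 hx
  obtain ⟨hP1, hP2, hP3⟩ := h1 hx
  have hL := hLIB m N K ℓ A hA Ru u μ g hpair x hx hP1 hP2
  have hT := hLIC m N K A Ru u μ g hpair x hx hP1 hP3 hL
  have hinv := h2 ⟨hP1, hT⟩
  obtain ⟨s, hs, hgood⟩ := hGOD (m + 1) N K ℓ A hA (g x) hx
  obtain ⟨ν, hν, hz⟩ := hSUP m μ x hT hinv ⟨s, hs, fun d hd hne => by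
    obtain ⟨ρ, hρ, hCP⟩ := hP2 d hd (hgood d hd hne)
    exact hCPZ m μ x d ρ hd hρ hCP⟩
  have key : ∀ ν' : E (m + 1), ‖ν'‖ = 1 →
      (∀ z : E (m + 1), 0 < inner ℝ z ν' → inner ℝ z ν ≠ 0) → ∃ a, HalfLim u x ν' a := by
    intro ν' hν' hne
    obtain ⟨d, hd, hdν, hdn⟩ := hEXD m s hs ν' hν'
    obtain ⟨ρ, hρ, hCP⟩ := hP2 d hd (hgood d hd hdn)
    exact hHAF m N K ℓ A hA Ru u μ g hpair x ν' hν' hP1
      (fun ψ hψ h => hz ψ hψ fun z hz' => hne z (h z hz')) d ρ hd hdν hρ hCP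
  obtain ⟨a, ha⟩ := key ν hν fun z h => h.ne'
  obtain ⟨b, hb⟩ := key (-ν) (by rw [norm_neg, hν]) fun z h => by
    rw [inner_neg_right] at h
    intro h0
    rw [h0] at h
    simp at h
  exact ⟨ν, a, b, hν, ha, hb⟩

end Pool.Agent.CEL
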