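import Pool.Agent.CEL.Stmts

/-!
# CEL, module CPA: comparison of the averages at different scales
-/

set_option autoImplicit false
open Topology Filter MeasureTheory Matrix Metric
open scoped ENNReal

namespace Pool.Agent.CEL

namespace CPA_

variable {m : ℕ}

/-- the kernel integral -/
noncomputable def ki (D : E (m + 1) → ℝ) (c : ℝ) (g : E (m + 1) → ℝ≥0∞) (z : E (m + 1)) : ℝ≥0∞ :=
  ∫⁻ y, {y | dist z y < c * D y}.indicator
    (fun y => (ENNReal.ofReal ((c * D y) ^ (m + 1)))⁻¹ * g y) y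

theorem meas_Av (hM : Stmt_BSM) (D : E (m + 1) → ℝ) (hD : Continuous D)
    (ν : Measure (E (m + 1))) [IsFiniteMeasure ν] (c : ℝ) : Measurable (Av D ν c) := by
  unfold Av
  have h1 := (hM (m + 1) ν (fun y => c * D y) (continuous_const.mul hD)).1
  have h2 : Measurable (fun y => ENNReal.ofReal ((c * D y) ^ (m + 1))) :=
    ((continuous_const.mul hD).pow _).measurable.ennreal_ofReal
  exact h1.div h2

theorem tonelli (D : E (m + 1) → ℝ) (hD : Continuous D)
    (ν : Measure (E (m + 1))) [IsFiniteMeasure ν] (c : ℝ) (g : E (m + 1) → ℝ≥0∞)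
    (hg : Measurable g) :
    ∫⁻ y, Av D ν c y * g y = ∫⁻ z, ki D c g z ∂ν := by
  unfold ki
  have hh : Measurable (fun y => (ENNReal.ofReal ((c * D y) ^ (m + 1)))⁻¹ * g y) :=
    (((continuous_const.mul hD).pow _).measurable.ennreal_ofReal.inv).mul hg
  have hU : MeasurableSet {q : E (m + 1) × E (m + 1) | dist q.2 q.1 < c * D q.1} := by
    apply IsOpen.measurableSet
    apply isOpen_lt
    · exact continuous_snd.dist continuous_fst
    · exact continuous_const.mul (hD.comp continuous_fst)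
  have hmeas : Measurable (Function.uncurry (fun y z : E (m + 1) =>
      {y | dist z y < c * D y}.indicator
        (fun y => (ENNReal.ofReal ((c * D y) ^ (m + 1)))⁻¹ * g y) y)) := by
    have h1 : (Function.uncurry (fun y z : E (m + 1) =>
      {y | dist z y < c * D y}.indicator
        (fun y => (ENNReal.ofReal ((c * D y) ^ (m + 1)))⁻¹ * g y) y)) =
      {q : E (m + 1) × E (m + 1) | dist q.2 q.1 < c * D q.1}.indicator
        (fun q => (ENNReal.ofReal ((c * D q.1) ^ (m + 1)))⁻¹ * g q.1) := by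
      funext q
      rfl
    rw [h1]
    exact (hh.comp measurable_fst).indicator hU
  rw [← lintegral_lintegral_swap hmeas.aemeasurable]
  refine lintegral_congr fun y => ?_
  have h2 : ∀ z : E (m + 1), {y | dist z y < c * D y}.indicator
        (fun y => (ENNReal.ofReal ((c * D y) ^ (m + 1)))⁻¹ * g y) y =
      (ball y (c * D y)).indicator
        (fun _ => (ENNReal.ofReal ((c * D y) ^ (m + 1)))⁻¹ * g y) z := by
    intro z
    rfl
  rw [lintegral_congr h2, lintegral_indicator_const measurableSet_ball]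
  unfold Av
  rw [ENNReal.div_eq_inv_mul]
  ring

theorem int_le_MX {v : ℝ≥0∞} (hv0 : v ≠ 0) (hvt : v ≠ ⊤)
    (hv : ∀ (x : E m) (r : ℝ), 0 < r → volume (ball x r) = ENNReal.ofReal (r ^ m) * v)
    (ψ : E m → ℝ≥0∞) (p : E m) (r : ℝ) (hr : 0 < r) :
    ∫⁻ q in ball p r, ψ q ≤ ENNReal.ofReal (r ^ m) * v * MX ψ p := by
  have h1 : (volume (ball p r))⁻¹ * ∫⁻ q in ball p r, ψ q ≤ MX ψ p := by
    unfold MX
    exact le_iSup₂ (f := fun (r : ℝ) (_ : 0 < r) => (volume (ball p r))⁻¹ *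
      ∫⁻ q in ball p r, ψ q) r hr
  rw [hv p r hr] at h1
  have h2 : ENNReal.ofReal (r ^ m) * v ≠ 0 :=
    mul_ne_zero (by rw [Ne, ENNReal.ofReal_eq_zero, not_le]; positivity) hv0
  have h3 : ENNReal.ofReal (r ^ m) * v ≠ ⊤ := ENNReal.mul_ne_top ENNReal.ofReal_ne_top hvt
  calc ∫⁻ q in ball p r, ψ q
      = (ENNReal.ofReal (r ^ m) * v) * ((ENNReal.ofReal (r ^ m) * v)⁻¹ *
          ∫⁻ q in ball p r, ψ q) := by
        rw [← mul_assoc, ENNReal.mul_inv_cancel h2 h3, one_mul]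
    _ ≤ ENNReal.ofReal (r ^ m) * v * MX ψ p := by gcongr

theorem proj_lip (S : Slice m) (z z' : E (m + 1)) :
    dist (S.Q.symm z).1 (S.Q.symm z').1 ≤ 2 * dist z z' := by
  rw [dist_eq_norm, dist_eq_norm]
  have h := S.lip1 (z - z')
  rw [map_sub] at h
  exact h

theorem proj_cont (S : Slice m) : Continuous (fun z : E (m + 1) => (S.Q.symm z).1) :=
  continuous_fst.comp S.Q.symm.continuous

theorem alg (m : ℕ) (ρ : ℝ) (hρ : 0 < ρ) :
    ((4 / 5 * ρ) ^ (m + 1))⁻¹ * (2 * (4 / 3 * ρ)) * (14 / 3 * ρ) ^ m =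
      (5 / 4) ^ (m + 1) * (8 / 3) * (14 / 3) ^ m := by
  have h1 : (4 / 5 * ρ) ^ (m + 1) ≠ 0 := by positivity
  have h2 : (5 / 4 : ℝ) ^ (m + 1) * (4 / 5 * ρ) ^ (m + 1) = ρ ^ (m + 1) := by
    rw [← mul_pow]; congr 1; ring
  rw [mul_assoc, inv_mul_eq_iff_eq_mul₀ h1]
  calc 2 * (4 / 3 * ρ) * (14 / 3 * ρ) ^ m = (8 / 3) * (14 / 3) ^ m * ρ ^ (m + 1) := by
        rw [mul_pow, pow_succ]; ring
    _ = (8 / 3) * (14 / 3) ^ m * ((5 / 4 : ℝ) ^ (m + 1) * (4 / 5 * ρ) ^ (m + 1)) := by rw [h2]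
    _ = _ := by ring

/-- the upper bound of the kernel integral -/
theorem upper (hB : Stmt_BSS) {v : ℝ≥0∞} (hv0 : v ≠ 0) (hvt : v ≠ ⊤)
    (hv : ∀ (x : E m) (r : ℝ), 0 < r → volume (ball x r) = ENNReal.ofReal (r ^ m) * v)
    (S : Slice m) (D : E (m + 1) → ℝ) (hpos : ∀ y, 0 < D y)
    (hlip : ∀ x y, |D x - D y| ≤ ‖x - y‖) (b : ℝ) (hb : 0 < b) (hb4 : b ≤ 1 / 4)
    (ψ : E m → ℝ≥0∞) (hψ : Measurable ψ) (z z' : E (m + 1)) (hz : dist z z' ≤ b * D z) :
    ki D b (fun y => ψ (S.Q.symm y).1) z ≤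
      ENNReal.ofReal ((5 / 4) ^ (m + 1) * (8 / 3) * (14 / 3) ^ m) * v *
        MX ψ (S.Q.symm z').1 := by
  set ρ := b * D z with hρ
  have hρ0 : 0 < ρ := mul_pos hb (hpos z)
  unfold ki
  have s1 : ∫⁻ y, {y | dist z y < b * D y}.indicator
      (fun y => (ENNReal.ofReal ((b * D y) ^ (m + 1)))⁻¹ * ψ (S.Q.symm y).1) y ≤
      ∫⁻ y in ball z (4 / 3 * ρ), (ENNReal.ofReal ((4 / 5 * ρ) ^ (m + 1)))⁻¹ *
        ψ (S.Q.symm y).1 := by
    rw [← lintegral_indicator measurableSet_ball]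
    refine lintegral_mono fun y => ?_
    by_cases hy : dist z y < b * D y
    · have h1 : y ∈ {y | dist z y < b * D y} := hy
      have hd := hlip z y
      rw [← dist_eq_norm] at hd
      have hd' := abs_le.1 hd
      have hDy := hpos y
      have hDz := hpos z
      have h4 : b * D y ≤ D y / 4 := by nlinarith
      have h5 : 4 / 5 * D z ≤ D y := by linarith [hd'.2]
      have h6 : D y ≤ 4 / 3 * D z := by linarith [hd'.1]
      have h7 : 4 / 5 * ρ ≤ b * D y := by rw [hρ]; nlinarith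
      have h8 : b * D y ≤ 4 / 3 * ρ := by rw [hρ]; nlinarith
      have h2 : y ∈ ball z (4 / 3 * ρ) := by
        rw [mem_ball, dist_comm]
        exact lt_of_lt_of_le hy h8
      rw [Set.indicator_of_mem h1, Set.indicator_of_mem h2]
      refine mul_le_mul_left ?_ _
      apply ENNReal.inv_le_inv.2
      apply ENNReal.ofReal_le_ofReal
      exact pow_le_pow_left₀ (by positivity) h7 _
    · have h1 : y ∉ {y | dist z y < b * D y} := hy
      rw [Set.indicator_of_notMem h1]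
      exact bot_le
  have hψP : Measurable (fun y : E (m + 1) => ψ (S.Q.symm y).1) :=
    hψ.comp (proj_cont S).measurable
  rw [lintegral_const_mul _ hψP] at s1
  refine s1.trans ?_
  have s2 := ((hB m S (fun _ => 0) measurable_const).2.2 ψ hψ).2 z (4 / 3 * ρ) (by positivity)
  have s3 : ∫⁻ q in ball (S.Q.symm z).1 (2 * (4 / 3 * ρ)), ψ q ≤
      ∫⁻ q in ball (S.Q.symm z').1 (14 / 3 * ρ), ψ q := by
    apply lintegral_mono_set
    apply ball_subset_ball'
    have h9 := proj_lip S z z'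
    linarith
  have s4 := int_le_MX hv0 hvt hv ψ (S.Q.symm z').1 (14 / 3 * ρ) (by positivity)
  calc (ENNReal.ofReal ((4 / 5 * ρ) ^ (m + 1)))⁻¹ *
        ∫⁻ y in ball z (4 / 3 * ρ), ψ (S.Q.symm y).1
      ≤ (ENNReal.ofReal ((4 / 5 * ρ) ^ (m + 1)))⁻¹ * (ENNReal.ofReal (2 * (4 / 3 * ρ)) *
          (ENNReal.ofReal ((14 / 3 * ρ) ^ m) * v * MX ψ (S.Q.symm z').1)) := by
        gcongr
        exact s2.trans (by gcongr; exact s3.trans s4)
    _ = ((ENNReal.ofReal ((4 / 5 * ρ) ^ (m + 1)))⁻¹ * ENNReal.ofReal (2 * (4 / 3 * ρ)) *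
          ENNReal.ofReal ((14 / 3 * ρ) ^ m)) * v * MX ψ (S.Q.symm z').1 := by ring
    _ = ENNReal.ofReal ((5 / 4) ^ (m + 1) * (8 / 3) * (14 / 3) ^ m) * v *
          MX ψ (S.Q.symm z').1 := by
        rw [← ENNReal.ofReal_inv_of_pos (by positivity), ← ENNReal.ofReal_mul (by positivity),
          ← ENNReal.ofReal_mul (by positivity)]
        rw [alg m ρ hρ0]

/-- the lower bound of the kernel integral -/
theorem lower (S : Slice m) {v' : ℝ≥0∞} (hv0 : v' ≠ 0) (hvt : v' ≠ ⊤)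
    (hv : ∀ (x : E (m + 1)) (r : ℝ), 0 < r →
      volume (ball x r) = ENNReal.ofReal (r ^ (m + 1)) * v')
    (D : E (m + 1) → ℝ) (hpos : ∀ y, 0 < D y)
    (hlip : ∀ x y, |D x - D y| ≤ ‖x - y‖) (hcont : Continuous D) (a : ℝ) (ha : 0 < a)
    (ha4 : a ≤ 1 / 4)
    (Ψ : E (m + 1) → ℝ≥0∞) (hΨ : Measurable Ψ) (z : E (m + 1)) (X k : ℝ≥0∞)
    (hX : ∀ q, dist z q ≤ a * D z → X ≤ k * Ψ q) :
    X ≤ k * ENNReal.ofReal ((9 / 4) ^ (m + 1)) * v'⁻¹ * ki D a Ψ z := by
  set ρ := a * D z with hρ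
  have hρ0 : 0 < ρ := mul_pos ha (hpos z)
  have s1 : ∫⁻ q in ball z (ρ / 2), Ψ q ≤ ENNReal.ofReal ((9 / 8 * ρ) ^ (m + 1)) *
      ki D a Ψ z := by
    unfold ki
    have hh : Measurable (fun y => (ENNReal.ofReal ((a * D y) ^ (m + 1)))⁻¹ * Ψ y) :=
      (((continuous_const.mul hcont).pow _).measurable.ennreal_ofReal.inv).mul hΨ
    have hU : MeasurableSet {y | dist z y < a * D y} := by
      apply IsOpen.measurableSet
      exact isOpen_lt (continuous_const.dist continuous_id) (continuous_const.mul hcont)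
    rw [← lintegral_const_mul _ (hh.indicator hU), ← lintegral_indicator measurableSet_ball]
    refine lintegral_mono fun y => ?_
    by_cases hy : y ∈ ball z (ρ / 2)
    · rw [Set.indicator_of_mem hy]
      rw [mem_ball, dist_comm] at hy
      have hd := hlip z y
      rw [← dist_eq_norm] at hd
      have hd' := abs_le.1 hd
      have hDy := hpos y
      have hDz := hpos z
      have h4 : ρ ≤ D z / 4 := by rw [hρ]; nlinarith
      have h5 : D z / 2 ≤ D y := by linarith [hd'.2]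
      have h6 : D y ≤ 9 / 8 * D z := by linarith [hd'.1]
      have h7 : a * D y ≤ 9 / 8 * ρ := by rw [hρ]; nlinarith
      have h8 : ρ / 2 ≤ a * D y := by rw [hρ]; nlinarith
      have h1 : y ∈ {y | dist z y < a * D y} := lt_of_lt_of_le hy h8
      have h9 : 0 < a * D y := mul_pos ha hDy
      rw [Set.indicator_of_mem h1, ← mul_assoc]
      have h10 : 1 ≤ ENNReal.ofReal ((9 / 8 * ρ) ^ (m + 1)) *
          (ENNReal.ofReal ((a * D y) ^ (m + 1)))⁻¹ := by
        rw [← ENNReal.ofReal_inv_of_pos (by positivity), ← ENNReal.ofReal_mul (by positivity),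
          ENNReal.one_le_ofReal, ← div_eq_mul_inv, one_le_div (by positivity)]
        exact pow_le_pow_left₀ h9.le h7 _
      calc Ψ y = 1 * Ψ y := (one_mul _).symm
        _ ≤ _ := mul_le_mul_left h10 _
    · rw [Set.indicator_of_notMem hy]
      exact bot_le
  have s2 : ENNReal.ofReal ((ρ / 2) ^ (m + 1)) * v' * X ≤ k * ∫⁻ q in ball z (ρ / 2), Ψ q := by
    rw [← hv z (ρ / 2) (by positivity), ← lintegral_const_mul k hΨ, mul_comm,
      ← setLIntegral_const]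
    refine setLIntegral_mono (hΨ.const_mul k) fun q hq => hX q ?_
    rw [mem_ball, dist_comm] at hq
    linarith
  have s3 : ENNReal.ofReal ((ρ / 2) ^ (m + 1)) * v' * X ≤
      ENNReal.ofReal ((ρ / 2) ^ (m + 1)) * v' *
        (k * ENNReal.ofReal ((9 / 4) ^ (m + 1)) * v'⁻¹ * ki D a Ψ z) := by
    refine s2.trans ?_
    calc k * ∫⁻ q in ball z (ρ / 2), Ψ q
        ≤ k * (ENNReal.ofReal ((9 / 8 * ρ) ^ (m + 1)) * ki D a Ψ z) := by gcongr
      _ = k * (ENNReal.ofReal ((ρ / 2) ^ (m + 1)) * ENNReal.ofReal ((9 / 4) ^ (m + 1)) *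
            ki D a Ψ z) := by
          rw [← ENNReal.ofReal_mul (by positivity), ← mul_pow]
          congr 4
          ring
      _ = (v' * v'⁻¹) * (k * (ENNReal.ofReal ((ρ / 2) ^ (m + 1)) *
            ENNReal.ofReal ((9 / 4) ^ (m + 1)) * ki D a Ψ z)) := by
          rw [ENNReal.mul_inv_cancel hv0 hvt, one_mul]
      _ = _ := by ring
  have h0 : ENNReal.ofReal ((ρ / 2) ^ (m + 1)) * v' ≠ 0 :=
    mul_ne_zero (by rw [Ne, ENNReal.ofReal_eq_zero, not_le]; positivity) hv0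
  have ht : ENNReal.ofReal ((ρ / 2) ^ (m + 1)) * v' ≠ ⊤ :=
    ENNReal.mul_ne_top ENNReal.ofReal_ne_top hvt
  exact (ENNReal.mul_le_mul_iff_right h0 ht).1 s3

end CPA_

open CPA_ in
theorem cpa_proof (h1 : Stmt_HLM) (h2 : Stmt_DUA) (h3 : Stmt_BSS) (h4 : Stmt_BSA)
    (h5 : Stmt_BSM) (h6 : Stmt_BSV) : Stmt_CPA := by
  intro m
  obtain ⟨CD, hCD, hDUA⟩ := h2 m
  obtain ⟨CH, hCH, hHLM⟩ := h1 m
  obtain ⟨v, hv0, hvt, hv⟩ := h6 m
  obtain ⟨v', hv0', hvt', hv'⟩ := h6 (m + 1)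
  set B : ℝ≥0∞ := ENNReal.ofReal ((5 / 4) ^ (m + 1) * (8 / 3) * (14 / 3) ^ m) * v *
    ENNReal.ofReal ((9 / 4) ^ (m + 1)) * v'⁻¹ with hBdef
  have hBt : B ≠ ⊤ := by
    rw [hBdef]
    exact ENNReal.mul_ne_top (ENNReal.mul_ne_top (ENNReal.mul_ne_top ENNReal.ofReal_ne_top hvt)
      ENNReal.ofReal_ne_top) (ENNReal.inv_ne_top.2 hv0')
  refine ⟨CD * B ^ 2, ENNReal.mul_ne_top hCD (ENNReal.pow_ne_top hBt), ?_⟩
  intro S I D hI ν _ a b ha hab hb4
  obtain ⟨hpos, hlip, hcont, -⟩ := h4 (m + 1) I D hI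
  apply hDUA S (Av D ν b) (Av D ν a) B (meas_Av h5 D hcont ν b) (meas_Av h5 D hcont ν a) hBt
  intro ψ hψ
  obtain ⟨-, hMX, -⟩ := hHLM ψ hψ
  have hb : 0 < b := lt_of_lt_of_le ha hab
  have e1 := ((h3 m S (Av D ν b) (meas_Av h5 D hcont ν b)).2.2 ψ hψ).1
  have e2 := ((h3 m S (Av D ν a) (meas_Av h5 D hcont ν a)).2.2 (MX ψ) hMX).1
  have hψP : Measurable (fun y : E (m + 1) => ψ (S.Q.symm y).1) :=
    hψ.comp (proj_cont S).measurable
  have hMP : Measurable (fun y : E (m + 1) => MX ψ (S.Q.symm y).1) :=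
    hMX.comp (proj_cont S).measurable
  rw [e1, e2, tonelli D hcont ν b _ hψP, tonelli D hcont ν a _ hMP,
    ← lintegral_const_mul' B _ hBt]
  refine lintegral_mono fun z => ?_
  refine lower S hv0' hvt' (fun x r hr => (hv' x r hr).1) D hpos hlip hcont a ha
    (hab.trans hb4) _ hMP z _ _ ?_
  intro q hq
  refine upper h3 hv0 hvt (fun x r hr => (hv x r hr).1) S D hpos hlip b hb hb4 ψ hψ z q ?_
  exact hq.trans (mul_le_mul_of_nonneg_right hab (hpos z).le)

end Pool.Agent.CEL
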