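import Pool.Agent.CEL.Stmts

/-!
# CEL: module CPB (comparison 2)
-/

set_option autoImplicit false
open Topology Filter MeasureTheory Matrix Metric
open scoped ENNReal

namespace Pool.Agent.CEL

namespace CPB_

/-- The kernel. -/
noncomputable def K (n : ℕ) (f g : E n → ℝ) (y z : E n) : ℝ≥0∞ :=
  (ball y (f y)).indicator (fun _ => (ENNReal.ofReal (g y ^ n))⁻¹) z

theorem K_meas {n : ℕ} {f g : E n → ℝ} (hf : Continuous f) (hg : Continuous g) :
    Measurable (fun p : E n × E n => K n f g p.1 p.2) := by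
  have h1 : MeasurableSet {p : E n × E n | dist p.2 p.1 < f p.1} :=
    (isOpen_lt (by fun_prop) (by fun_prop)).measurableSet
  have h2 : (fun p : E n × E n => K n f g p.1 p.2) =
      {p : E n × E n | dist p.2 p.1 < f p.1}.indicator
        (fun p => (ENNReal.ofReal (g p.1 ^ n))⁻¹) := by
    ext p
    simp only [K, Set.indicator, mem_ball, Set.mem_ofPred_eq]
  rw [h2]
  refine Measurable.indicator ?_ h1
  exact (ENNReal.continuous_ofReal.comp ((hg.comp continuous_fst).pow n)).measurable.inv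

theorem K_meas' {n : ℕ} {f g : E n → ℝ} (hf : Continuous f) (hg : Continuous g) :
    Measurable (fun p : E n × E n => K n f g p.2 p.1) := by
  have h := (K_meas hf hg).comp (measurable_snd.prodMk measurable_fst : Measurable
    (fun p : E n × E n => (p.2, p.1)))
  simpa only [Function.comp_def] using h

theorem K_meas_r {n : ℕ} {f g : E n → ℝ} (hf : Continuous f) (hg : Continuous g) (q : E n) :
    Measurable (fun y => K n f g y q) := by
  have h := K_meas' hf hg
  exact Measurable.of_uncurry_left (f := fun z y => K n f g y z) h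

theorem K_lint {n : ℕ} {f g : E n → ℝ} (ν : Measure (E n)) (y : E n) :
    ∫⁻ z, K n f g y z ∂ν = (ENNReal.ofReal (g y ^ n))⁻¹ * ν (ball y (f y)) := by
  unfold K
  rw [lintegral_indicator_const isOpen_ball.measurableSet]

theorem cake1 (c : ℝ≥0∞) :
    ∫⁻ s in Set.Ioi (0 : ℝ), {s : ℝ | ENNReal.ofReal s < c}.indicator (fun _ => (1 : ℝ≥0∞)) s
      = c := by
  have hm : MeasurableSet {s : ℝ | ENNReal.ofReal s < c} :=
    (isOpen_lt ENNReal.continuous_ofReal continuous_const).measurableSet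
  rw [lintegral_indicator_const hm, one_mul, Measure.restrict_apply hm]
  by_cases hc : c = ⊤
  · subst hc
    have : {s : ℝ | ENNReal.ofReal s < ⊤} ∩ Set.Ioi 0 = Set.Ioi 0 := by
      ext s
      simp
    rw [this, Real.volume_Ioi]
  · have : {s : ℝ | ENNReal.ofReal s < c} ∩ Set.Ioi 0 = Set.Ioo 0 c.toReal := by
      ext s
      simp only [Set.mem_inter_iff, Set.mem_ofPred_eq, Set.mem_Ioi, Set.mem_Ioo]
      constructor
      · rintro ⟨h1, h2⟩
        exact ⟨h2, (ENNReal.ofReal_lt_iff_lt_toReal h2.le hc).1 h1⟩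
      · rintro ⟨h1, h2⟩
        exact ⟨(ENNReal.ofReal_lt_iff_lt_toReal h1.le hc).2 h2, h1⟩
    rw [this, Real.volume_Ioo, sub_zero, ENNReal.ofReal_toReal hc]

theorem cake {α : Type*} [MeasurableSpace α] (μ : Measure α) [SFinite μ] {f g : α → ℝ≥0∞}
    (hf : Measurable f) (hg : Measurable g) :
    ∫⁻ x, f x * g x ∂μ =
      ∫⁻ s in Set.Ioi (0 : ℝ), ∫⁻ x in {x | ENNReal.ofReal s < g x}, f x ∂μ := by
  have hm : MeasurableSet {p : α × ℝ | ENNReal.ofReal p.2 < g p.1} :=
    measurableSet_lt (ENNReal.measurable_ofReal.comp measurable_snd) (hg.comp measurable_fst)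
  have hF : Measurable (fun p : α × ℝ =>
      f p.1 * {s : ℝ | ENNReal.ofReal s < g p.1}.indicator (fun _ => (1 : ℝ≥0∞)) p.2) := by
    refine (hf.comp measurable_fst).mul ?_
    have : (fun p : α × ℝ => {s : ℝ | ENNReal.ofReal s < g p.1}.indicator
        (fun _ => (1 : ℝ≥0∞)) p.2) =
        {p : α × ℝ | ENNReal.ofReal p.2 < g p.1}.indicator (fun _ => (1 : ℝ≥0∞)) := by
      ext p
      simp only [Set.indicator, Set.mem_ofPred_eq]
    rw [this]
    exact measurable_const.indicator hm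
  calc ∫⁻ x, f x * g x ∂μ
      = ∫⁻ x, (∫⁻ s in Set.Ioi (0 : ℝ),
          f x * {s : ℝ | ENNReal.ofReal s < g x}.indicator (fun _ => (1 : ℝ≥0∞)) s) ∂μ := by
        refine lintegral_congr fun x => ?_
        have hmx : MeasurableSet {s : ℝ | ENNReal.ofReal s < g x} :=
          (isOpen_lt ENNReal.continuous_ofReal continuous_const).measurableSet
        rw [lintegral_const_mul _ (measurable_const.indicator hmx), cake1]
    _ = ∫⁻ s in Set.Ioi (0 : ℝ), (∫⁻ x,
          f x * {s : ℝ | ENNReal.ofReal s < g x}.indicator (fun _ => (1 : ℝ≥0∞)) s ∂μ) := by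
        rw [lintegral_lintegral_swap hF.aemeasurable]
    _ = _ := by
        refine lintegral_congr fun s => ?_
        have hms : MeasurableSet {x | ENNReal.ofReal s < g x} :=
          measurableSet_lt measurable_const hg
        rw [← lintegral_indicator hms]
        refine lintegral_congr fun x => ?_
        by_cases hx : ENNReal.ofReal s < g x
        · simp [Set.indicator, hx]
        · simp [Set.indicator, hx]

theorem ratio {n : ℕ} {α β c : ℝ} (hα : 0 < α) (hβ : 0 < β) (hc : 0 < c) (v : ℝ≥0∞) :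
    (ENNReal.ofReal ((α * c) ^ n))⁻¹ * (ENNReal.ofReal ((β * c) ^ n) * v) =
      ENNReal.ofReal ((β / α) ^ n) * v := by
  rw [← mul_assoc, ← ENNReal.ofReal_inv_of_pos (by positivity), ← ENNReal.ofReal_mul (by positivity)]
  congr 2
  rw [← inv_pow, ← mul_pow]
  congr 1
  field_simp

/-- Lower bound for the kernel integral. -/
theorem low {n : ℕ} {v : ℝ≥0∞}
    (hv : ∀ (x : E n) (r : ℝ), 0 < r → volume (ball x r) = ENNReal.ofReal (r ^ n) * v)
    {f : E n → ℝ} (hf : ∀ x y, |f x - f y| ≤ 1 / 100 * ‖x - y‖) {z : E n} (hz : 0 < f z)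
    {A : Set (E n)} (hA : ball z (f z / 2) ⊆ A) :
    v ≤ 3 ^ n * ∫⁻ y in A, K n f f y z := by
  have h1 : ∫⁻ y in ball z (f z / 2), (ENNReal.ofReal ((3 / 2 * f z) ^ n))⁻¹ ≤
      ∫⁻ y in A, K n f f y z := by
    refine le_trans ?_ (lintegral_mono_set hA)
    refine setLIntegral_mono' isOpen_ball.measurableSet fun y hy => ?_
    have hy' : ‖y - z‖ < f z / 2 := by simpa [mem_ball, dist_eq_norm] using hy
    have h2 := abs_le.1 (hf y z)
    have hfy : f z / 2 < f y := by nlinarith [h2.1]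
    have hfy2 : f y ≤ 3 / 2 * f z := by nlinarith [h2.2]
    have hmem : z ∈ ball y (f y) := by
      rw [mem_ball, dist_comm, dist_eq_norm]
      linarith
    unfold K
    rw [Set.indicator_of_mem hmem]
    refine ENNReal.inv_le_inv.2 (ENNReal.ofReal_le_ofReal ?_)
    exact pow_le_pow_left₀ (by linarith) hfy2 n
  rw [lintegral_const, Measure.restrict_apply MeasurableSet.univ, Set.univ_inter,
    hv z _ (by linarith), show f z / 2 = 1 / 2 * f z by ring,
    ratio (by norm_num) (by norm_num) hz] at h1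
  calc v = 3 ^ n * (ENNReal.ofReal ((1 / 2 / (3 / 2)) ^ n) * v) := by
        rw [← mul_assoc]
        have : (3 : ℝ≥0∞) ^ n * ENNReal.ofReal ((1 / 2 / (3 / 2)) ^ n) = 1 := by
          have h3 : (3 : ℝ≥0∞) = ENNReal.ofReal 3 := by simp
          rw [h3, ← ENNReal.ofReal_pow (by norm_num), ← ENNReal.ofReal_mul (by positivity),
            ← mul_pow]
          norm_num
        rw [this, one_mul]
    _ ≤ _ := by gcongr

/-- The distance to the complement, cut off at `R`. -/
theorem exE {n : ℕ} (O : Set (E n)) {R : ℝ} (hR : 0 < R) : ∃ e : E n → ℝ,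
    (∀ y, 0 ≤ e y) ∧ (∀ y, e y ≤ R) ∧ (∀ x y, |e x - e y| ≤ ‖x - y‖) ∧
      (∀ y, 0 < e y → y ∈ O) ∧ ∀ y r, r ≤ R → closedBall y r ⊆ O → r ≤ e y := by
  by_cases hO : (Oᶜ).Nonempty
  · refine ⟨fun y => min (infDist y Oᶜ) R, fun y => le_min infDist_nonneg hR.le,
      fun y => min_le_right _ _, ?_, ?_, ?_⟩
    · intro x y
      have h1 := abs_min_sub_min_le_max (infDist x Oᶜ) R (infDist y Oᶜ) R
      refine h1.trans ?_
      rw [sub_self, abs_zero]
      refine max_le ?_ (norm_nonneg _)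
      rw [← dist_eq_norm, abs_le]
      have h2 := infDist_le_infDist_add_dist (s := Oᶜ) (x := x) (y := y)
      have h3 := infDist_le_infDist_add_dist (s := Oᶜ) (x := y) (y := x)
      rw [dist_comm y x] at h3
      constructor <;> linarith
    · intro y hy
      by_contra hy'
      have : infDist y Oᶜ = 0 := infDist_zero_of_mem hy'
      have h2 := lt_of_lt_of_le hy (min_le_left _ _)
      linarith
    · intro y r hr hs
      refine le_min ?_ hr
      rw [le_infDist hO]
      intro x hx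
      by_contra hlt
      exact hx (hs (by rw [mem_closedBall, dist_comm]; exact (not_le.1 hlt).le))
  · have hO' : O = Set.univ := by
      have := Set.not_nonempty_iff_eq_empty.1 hO
      exact Set.compl_empty_iff.1 this
    refine ⟨fun _ => R, fun _ => hR.le, fun _ => le_refl _, ?_, ?_, fun _ _ h _ => h⟩
    · intro x y
      simp
    · intro y _
      rw [hO']
      trivial

theorem G_meas {n : ℕ} {f g : E n → ℝ} (hf : Continuous f) (hg : Continuous g)
    (ν : Measure (E n)) [SFinite ν] : Measurable (fun y => ∫⁻ z, K n f g y z ∂ν) :=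
  Measurable.lintegral_prod_right' (K_meas hf hg)

theorem G_meas' {n : ℕ} {f g : E n → ℝ} (hf : Continuous f) (hg : Continuous g)
    (ν : Measure (E n)) [SFinite ν] : Measurable (fun z => ∫⁻ y, K n f g y z ∂ν) :=
  Measurable.lintegral_prod_right' (K_meas' hf hg)

/-- Tonelli for the kernel. -/
theorem ton {n : ℕ} {f g : E n → ℝ} (hf : Continuous f) (hg : Continuous g)
    (ν μ : Measure (E n)) [SFinite ν] [SFinite μ] {h : E n → ℝ≥0∞} (hh : Measurable h) :
    ∫⁻ y, (∫⁻ z, K n f g y z ∂ν) * h y ∂μ = ∫⁻ z, (∫⁻ y, K n f g y z * h y ∂μ) ∂ν := by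
  have h1 : ∀ y, (∫⁻ z, K n f g y z ∂ν) * h y = ∫⁻ z, K n f g y z * h y ∂ν := fun y =>
    (lintegral_mul_const _ ((K_meas hf hg).of_uncurry_left (x := y))).symm
  simp_rw [h1]
  rw [lintegral_lintegral_swap]
  exact ((K_meas hf hg).mul (hh.comp measurable_fst)).aemeasurable

/-- Upper bound for the kernel integral. -/
theorem up {n : ℕ} {v : ℝ≥0∞}
    (hv : ∀ (x : E n) (r : ℝ), 0 < r → volume (ball x r) = ENNReal.ofReal (r ^ n) * v)
    {d : E n → ℝ} (hd : ∀ x y, |d x - d y| ≤ 1 / 100 * ‖x - y‖) {O : Set (E n)}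
    (hdO : ∀ y, 0 < d y → y ∈ O) (q : E n) :
    ∫⁻ y, K n (fun y => 6 * d y) d y q ≤ O.indicator (fun _ => 14 ^ n * v) q := by
  by_cases hq : 0 < d q
  · rw [Set.indicator_of_mem (hdO q hq)]
    have h1 : ∀ y, K n (fun y => 6 * d y) d y q ≤
        (ball q (7 * d q)).indicator (fun _ => (ENNReal.ofReal ((1 / 2 * d q) ^ n))⁻¹) y := by
      intro y
      by_cases hy : q ∈ ball y (6 * d y)
      · have hy' : ‖q - y‖ < 6 * d y := by simpa [mem_ball, dist_eq_norm] using hy
        have h2 := abs_le.1 (hd q y)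
        have hdy : 0 < d y := by nlinarith [norm_nonneg (q - y)]
        have hmem : y ∈ ball q (7 * d q) := by
          rw [mem_ball, dist_comm, dist_eq_norm]
          nlinarith [h2.1]
        unfold K
        rw [Set.indicator_of_mem hy, Set.indicator_of_mem hmem]
        refine ENNReal.inv_le_inv.2 (ENNReal.ofReal_le_ofReal ?_)
        refine pow_le_pow_left₀ (by linarith) ?_ n
        nlinarith [h2.2]
      · unfold K
        rw [Set.indicator_of_notMem hy]
        exact zero_le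
    refine (lintegral_mono h1).trans ?_
    rw [lintegral_indicator_const isOpen_ball.measurableSet, hv q _ (by linarith),
      ratio (by norm_num) (by norm_num) hq]
    refine mul_le_mul_left ?_ v
    rw [show (7 : ℝ) / (1 / 2) = 14 by norm_num, ENNReal.ofReal_pow (by norm_num)]
    simp
  · have h1 : ∀ y, K n (fun y => 6 * d y) d y q = 0 := by
      intro y
      unfold K
      rw [Set.indicator_of_notMem]
      intro hy
      have hy' : ‖q - y‖ < 6 * d y := by simpa [mem_ball, dist_eq_norm] using hy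
      have h2 := abs_le.1 (hd q y)
      exact hq (by nlinarith [h2.1, norm_nonneg (q - y)])
    simp_rw [h1]
    rw [lintegral_zero]
    exact zero_le

theorem claim {n : ℕ} {v : ℝ≥0∞} (hv0 : v ≠ 0) (hvt : v ≠ ⊤)
    (hv : ∀ (x : E n) (r : ℝ), 0 < r → volume (ball x r) = ENNReal.ofReal (r ^ n) * v)
    {I : Finset (E n × ℝ)} {D : E n → ℝ} (hD : IsD I D) (hDl : ∀ x y, |D x - D y| ≤ ‖x - y‖)
    (hDc : Continuous D) (hD0 : ∀ y, 0 < D y)
    {ν τ : Measure (E n)} [IsFiniteMeasure ν] [IsFiniteMeasure τ] {R η a : ℝ} (hR : 0 < R)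
    (ha : 0 < a) (ha1 : a ≤ 1 / 100)
    (h : ∀ q ∈ I, ∀ r, q.2 ≤ r → r < R → τ (ball q.1 r) ≤ ENNReal.ofReal η * ν (ball q.1 r))
    {O S : Set (E n)} (hO : MeasurableSet O)
    (hS : ∀ z ∈ S, D z ≤ R / 200 ∧ closedBall z (200 * D z) ⊆ O) :
    v * τ S ≤ 3 ^ n * (ENNReal.ofReal η * 3 ^ n) * (14 ^ n *
      ∫⁻ q in O, ∫⁻ z, K n (fun y => a * D y) (fun y => a * D y) q z ∂ν) := by
  obtain ⟨e, e0, eR, el, eO, ec⟩ := exE O hR
  obtain ⟨d, hd⟩ : ∃ d : E n → ℝ, d = fun y => e y / 100 := ⟨_, rfl⟩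
  have hdy : ∀ y, d y = e y / 100 := fun y => by rw [hd]
  have dl : ∀ x y, |d x - d y| ≤ 1 / 100 * ‖x - y‖ := by
    intro x y
    rw [hdy, hdy, ← sub_div, abs_div, abs_of_pos (by norm_num : (0 : ℝ) < 100)]
    have := el x y
    linarith
  have econt : Continuous e := by
    have : LipschitzWith 1 e := LipschitzWith.of_dist_le_mul fun x y => by
      rw [Real.dist_eq, dist_eq_norm]
      simpa using el x y
    exact this.continuous
  have dc : Continuous d := by
    rw [hd]
    exact econt.div_const _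
  have dR : ∀ y, d y ≤ R / 100 := fun y => by
    rw [hdy]
    have := eR y
    linarith
  obtain ⟨S', hS'⟩ : ∃ S' : Set (E n), S' = {z | D z ≤ R / 200 ∧ 200 * D z ≤ e z} := ⟨_, rfl⟩
  have hSS' : S ⊆ S' := by
    intro z hz
    rw [hS']
    have h1 := hS z hz
    exact ⟨h1.1, ec z _ (by linarith [h1.1]) h1.2⟩
  have hS'm : MeasurableSet S' := by
    rw [hS']
    exact ((isClosed_le hDc continuous_const).inter
      (isClosed_le (continuous_const.mul hDc) econt)).measurableSet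
  have hSd : ∀ z ∈ S', 2 * D z ≤ d z := by
    intro z hz
    rw [hS'] at hz
    rw [hdy]
    have := hz.2
    linarith
  have hac : Continuous (fun y => a * D y) := continuous_const.mul hDc
  have hal : ∀ x y, |a * D x - a * D y| ≤ 1 / 100 * ‖x - y‖ := by
    intro x y
    rw [← mul_sub, abs_mul, abs_of_pos ha]
    exact mul_le_mul ha1 (hDl x y) (abs_nonneg _) (by norm_num)
  obtain ⟨G, hG⟩ : ∃ G : E n → ℝ≥0∞,
      G = fun q => ∫⁻ z, K n (fun y => a * D y) (fun y => a * D y) q z ∂ν := ⟨_, rfl⟩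
  have hGm : Measurable G := by
    rw [hG]
    exact G_meas hac hac ν
  -- Step A
  have sA : v * τ S' ≤ 3 ^ n * ∫⁻ y, ∫⁻ z in S', K n d d y z ∂τ := by
    rw [lintegral_lintegral_swap (K_meas dc dc).aemeasurable,
      ← lintegral_const_mul _ (G_meas' dc dc volume), ← setLIntegral_const]
    refine setLIntegral_mono' hS'm fun z hz => ?_
    have h1 : 0 < d z := by
      have := hSd z hz
      have := hD0 z
      linarith
    have h2 := low hv (f := d) dl h1 (Set.subset_univ _)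
    rwa [Measure.restrict_univ] at h2
  -- Step B
  have sB : ∀ y, v * ∫⁻ z in S', K n d d y z ∂τ ≤
      (ENNReal.ofReal η * 3 ^ n) * ∫⁻ q, K n (fun y => 6 * d y) d y q * G q := by
    intro y
    rw [K_lint, Measure.restrict_apply isOpen_ball.measurableSet]
    by_cases hne : (ball y (d y) ∩ S').Nonempty
    · obtain ⟨z, hz1, hz2⟩ := hne
      have hz1' : ‖z - y‖ < d y := by simpa [mem_ball, dist_eq_norm] using hz1
      have hdy0 : 0 < d y := lt_of_le_of_lt (norm_nonneg _) hz1'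
      have hdz := abs_le.1 (dl z y)
      have hDz : D z ≤ 0.505 * d y := by
        have := hSd z hz2
        nlinarith [hdz.2]
      obtain ⟨q, hq, hqD⟩ := hD.ex z
      have hq2 := hD.pos q hq
      have hqz : ‖z - q.1‖ ≤ 0.505 * d y := by linarith
      have e1 : ball y (d y) ∩ S' ⊆ ball q.1 (3 * d y) := by
        intro x hx
        have hx' : ‖x - y‖ < d y := by simpa [mem_ball, dist_eq_norm] using hx.1
        rw [mem_ball, dist_eq_norm]
        have h3 : ‖x - q.1‖ ≤ ‖x - y‖ + ‖z - y‖ + ‖z - q.1‖ := by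
          calc ‖x - q.1‖ = ‖(x - y) - (z - y) + (z - q.1)‖ := by congr 1; abel
            _ ≤ ‖(x - y) - (z - y)‖ + ‖z - q.1‖ := norm_add_le _ _
            _ ≤ _ := by linarith [norm_sub_le (x - y) (z - y)]
        linarith
      have e2 : ball q.1 (3 * d y) ⊆ ball y (5 * d y) := by
        intro x hx
        have hx' : ‖x - q.1‖ < 3 * d y := by simpa [mem_ball, dist_eq_norm] using hx
        rw [mem_ball, dist_eq_norm]
        have h3 : ‖x - y‖ ≤ ‖x - q.1‖ + ‖z - q.1‖ + ‖z - y‖ := by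
          calc ‖x - y‖ = ‖(x - q.1) - (z - q.1) + (z - y)‖ := by congr 1; abel
            _ ≤ ‖(x - q.1) - (z - q.1)‖ + ‖z - y‖ := norm_add_le _ _
            _ ≤ _ := by linarith [norm_sub_le (x - q.1) (z - q.1)]
        linarith
      have e3 : v * ν (ball y (5 * d y)) ≤ 3 ^ n * ∫⁻ q in ball y (6 * d y), G q := by
        rw [hG]
        rw [lintegral_lintegral_swap (K_meas hac hac).aemeasurable,
          ← lintegral_const_mul _ (G_meas' hac hac _), ← setLIntegral_const]
        refine le_trans ?_ (setLIntegral_le_lintegral (ball y (5 * d y)) _)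
        refine setLIntegral_mono' isOpen_ball.measurableSet fun x hx => ?_
        have hx' : ‖x - y‖ < 5 * d y := by simpa [mem_ball, dist_eq_norm] using hx
        have hDx := abs_le.1 (hDl x z)
        have hxz : ‖x - z‖ ≤ ‖x - y‖ + ‖z - y‖ := by
          calc ‖x - z‖ = ‖(x - y) - (z - y)‖ := by congr 1; abel
            _ ≤ _ := norm_sub_le _ _
        have hDx7 : D x ≤ 7 * d y := by
          have := hDx.2
          linarith
        refine low hv (f := fun y => a * D y) hal (mul_pos ha (hD0 x)) ?_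
        intro w hw
        have hw' : ‖w - x‖ < a * D x / 2 := by simpa [mem_ball, dist_eq_norm] using hw
        rw [mem_ball, dist_eq_norm]
        have h4 : a * D x ≤ 1 / 100 * (7 * d y) :=
          mul_le_mul ha1 hDx7 (hD0 x).le (by norm_num)
        have h5 : ‖w - y‖ ≤ ‖w - x‖ + ‖x - y‖ := by
          calc ‖w - y‖ = ‖(w - x) + (x - y)‖ := by congr 1; abel
            _ ≤ _ := norm_add_le _ _
        linarith
      have e4 : v * τ (ball y (d y) ∩ S') ≤
          (ENNReal.ofReal η * 3 ^ n) * ∫⁻ q in ball y (6 * d y), G q := by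
        calc v * τ (ball y (d y) ∩ S') ≤ v * τ (ball q.1 (3 * d y)) := by gcongr
          _ ≤ v * (ENNReal.ofReal η * ν (ball q.1 (3 * d y))) := by
            gcongr
            refine h q hq _ (by linarith [norm_nonneg (z - q.1)]) ?_
            have := dR y
            linarith
          _ ≤ v * (ENNReal.ofReal η * ν (ball y (5 * d y))) := by gcongr
          _ = ENNReal.ofReal η * (v * ν (ball y (5 * d y))) := by ring
          _ ≤ ENNReal.ofReal η * (3 ^ n * ∫⁻ q in ball y (6 * d y), G q) := by gcongr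
          _ = _ := by ring
      have e5 : ∫⁻ q, K n (fun y => 6 * d y) d y q * G q =
          (ENNReal.ofReal (d y ^ n))⁻¹ * ∫⁻ q in ball y (6 * d y), G q := by
        rw [← lintegral_const_mul _ hGm, ← lintegral_indicator isOpen_ball.measurableSet]
        refine lintegral_congr fun q => ?_
        unfold K
        by_cases hqq : q ∈ ball y (6 * d y)
        · rw [Set.indicator_of_mem hqq, Set.indicator_of_mem hqq]
        · rw [Set.indicator_of_notMem hqq, Set.indicator_of_notMem hqq, zero_mul]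
      rw [e5]
      calc v * ((ENNReal.ofReal (d y ^ n))⁻¹ * τ (ball y (d y) ∩ S'))
          = (ENNReal.ofReal (d y ^ n))⁻¹ * (v * τ (ball y (d y) ∩ S')) := by ring
        _ ≤ (ENNReal.ofReal (d y ^ n))⁻¹ *
            ((ENNReal.ofReal η * 3 ^ n) * ∫⁻ q in ball y (6 * d y), G q) := by gcongr
        _ = _ := by ring
    · rw [Set.not_nonempty_iff_eq_empty.1 hne, measure_empty, mul_zero, mul_zero]
      exact zero_le
  have hKm : Measurable (fun p : E n × E n => K n (fun y => 6 * d y) d p.1 p.2 * G p.2) :=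
    (K_meas (continuous_const.mul dc) dc).mul (hGm.comp measurable_snd)
  have sC : v * (v * τ S') ≤ v * (3 ^ n * (ENNReal.ofReal η * 3 ^ n) * (14 ^ n * ∫⁻ q in O, G q)) := by
    calc v * (v * τ S') ≤ v * (3 ^ n * ∫⁻ y, ∫⁻ z in S', K n d d y z ∂τ) := by gcongr
      _ = 3 ^ n * (v * ∫⁻ y, ∫⁻ z in S', K n d d y z ∂τ) := by ring
      _ = 3 ^ n * ∫⁻ y, v * ∫⁻ z in S', K n d d y z ∂τ := by
        rw [lintegral_const_mul _ (G_meas dc dc _)]
      _ ≤ 3 ^ n * ∫⁻ y, (ENNReal.ofReal η * 3 ^ n) *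
          ∫⁻ q, K n (fun y => 6 * d y) d y q * G q := by
        exact mul_le_mul_right (lintegral_mono sB) _
      _ = 3 ^ n * ((ENNReal.ofReal η * 3 ^ n) *
          ∫⁻ y, ∫⁻ q, K n (fun y => 6 * d y) d y q * G q) := by
        rw [lintegral_const_mul _ (Measurable.lintegral_prod_right' hKm)]
      _ = 3 ^ n * ((ENNReal.ofReal η * 3 ^ n) *
          ∫⁻ q, (∫⁻ y, K n (fun y => 6 * d y) d y q) * G q) := by
        rw [lintegral_lintegral_swap hKm.aemeasurable]
        congr 2
        refine lintegral_congr fun q => ?_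
        exact lintegral_mul_const (G q) (K_meas_r (continuous_const.mul dc) dc q)
      _ ≤ 3 ^ n * ((ENNReal.ofReal η * 3 ^ n) *
          ∫⁻ q, O.indicator (fun _ => 14 ^ n * v) q * G q) := by
        gcongr with q
        exact up hv dl (fun y hy => eO y (by rw [hdy] at hy; linarith)) q
      _ = 3 ^ n * ((ENNReal.ofReal η * 3 ^ n) * (14 ^ n * v * ∫⁻ q in O, G q)) := by
        rw [← lintegral_const_mul _ hGm, ← lintegral_indicator hO]
        congr 3
        ext q
        by_cases hq : q ∈ O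
        · rw [Set.indicator_of_mem hq, Set.indicator_of_mem hq]
        · rw [Set.indicator_of_notMem hq, Set.indicator_of_notMem hq, zero_mul]
      _ = _ := by ring
  have sD := (ENNReal.mul_le_mul_iff_right hv0 hvt).1 sC
  rw [hG] at sD
  refine le_trans ?_ sD
  gcongr

theorem Av_eq {m : ℕ} (D : E (m + 1) → ℝ) (ν : Measure (E (m + 1))) (s : ℝ) :
    Av D ν s = fun y => ∫⁻ z, K (m + 1) (fun y => s * D y) (fun y => s * D y) y z ∂ν := by
  ext y
  rw [K_lint]
  unfold Av
  rw [div_eq_mul_inv, mul_comm]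

theorem psi_bd {m : ℕ} {v' : ℝ≥0∞} (hv0 : v' ≠ 0) (hvt : v' ≠ ⊤)
    (hv' : ∀ (x : E m) (r : ℝ), 0 < r → volume (ball x r) = ENNReal.ofReal (r ^ m) * v')
    (h3 : Stmt_BSS) (S : Slice m) {D : E (m + 1) → ℝ} (hDl : ∀ x y, |D x - D y| ≤ ‖x - y‖)
    (hD0 : ∀ y, 0 < D y) {a b : ℝ} (ha : 0 < a) (hab : a ≤ b) (hb : b ≤ 1 / 100)
    {ψ : E m → ℝ≥0∞} (hψ : Measurable ψ) {z z' : E (m + 1)} (hz : ‖z' - z‖ ≤ 200 * D z) :
    ∫⁻ y, K (m + 1) (fun y => b * D y) (fun y => b * D y) y z * ψ (S.Q.symm y).1 ≤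
      (ENNReal.ofReal (8 * (802 / a) ^ m) * v') * MX ψ (S.Q.symm z').1 := by
  have hb0 : 0 < b := lt_of_lt_of_le ha hab
  have hc := hD0 z
  have hPm : Measurable (fun y : E (m + 1) => ψ (S.Q.symm y).1) :=
    hψ.comp (S.Q.symm.continuous.fst).measurable
  have s1 : ∀ y, K (m + 1) (fun y => b * D y) (fun y => b * D y) y z * ψ (S.Q.symm y).1 ≤
      (ball z (2 * b * D z)).indicator (fun y =>
        (ENNReal.ofReal ((b * D z / 2) ^ (m + 1)))⁻¹ * ψ (S.Q.symm y).1) y := by
    intro y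
    by_cases hy : z ∈ ball y (b * D y)
    · have hy' : ‖z - y‖ < b * D y := by simpa [mem_ball, dist_eq_norm] using hy
      have h2 := abs_le.1 (hDl z y)
      have hy0 := hD0 y
      have h3 : b * D y ≤ 1 / 100 * D y := mul_le_mul_of_nonneg_right hb hy0.le
      have h4 : D y ≤ 2 * D z := by linarith [h2.1]
      have h5 : D z / 2 ≤ D y := by linarith [h2.2]
      have h6 : b * D y ≤ b * (2 * D z) := mul_le_mul_of_nonneg_left h4 hb0.le
      have h7 : b * (D z / 2) ≤ b * D y := mul_le_mul_of_nonneg_left h5 hb0.le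
      have hmem : y ∈ ball z (2 * b * D z) := by
        rw [mem_ball, dist_comm, dist_eq_norm]
        linarith
      unfold K
      rw [Set.indicator_of_mem hy, Set.indicator_of_mem hmem]
      refine mul_le_mul_left ?_ _
      refine ENNReal.inv_le_inv.2 (ENNReal.ofReal_le_ofReal ?_)
      refine pow_le_pow_left₀ (by positivity) ?_ _
      linarith
    · unfold K
      rw [Set.indicator_of_notMem hy, zero_mul]
      exact zero_le
  have s2 : ∫⁻ y in ball z (2 * b * D z), ψ (S.Q.symm y).1 ≤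
      ENNReal.ofReal (2 * (2 * b * D z)) *
        ∫⁻ q in ball (S.Q.symm z).1 (2 * (2 * b * D z)), ψ q :=
    ((h3 m S (fun _ => 0) measurable_const).2.2 ψ hψ).2 z _ (by positivity)
  have s3 : ball (S.Q.symm z).1 (2 * (2 * b * D z)) ⊆ ball (S.Q.symm z').1 (401 * D z) := by
    intro x hx
    have hx' : ‖x - (S.Q.symm z).1‖ < 2 * (2 * b * D z) := by
      simpa [mem_ball, dist_eq_norm] using hx
    have h4 : ‖(S.Q.symm z' ).1 - (S.Q.symm z).1‖ ≤ 2 * (200 * D z) := by
      have h5 := S.lip1 (z' - z)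
      rw [map_sub, Prod.fst_sub] at h5
      linarith
    have h6 : ‖x - (S.Q.symm z').1‖ ≤
        ‖x - (S.Q.symm z).1‖ + ‖(S.Q.symm z').1 - (S.Q.symm z).1‖ := by
      calc ‖x - (S.Q.symm z').1‖
          = ‖(x - (S.Q.symm z).1) - ((S.Q.symm z').1 - (S.Q.symm z).1)‖ := by congr 1; abel
        _ ≤ _ := norm_sub_le _ _
    have h7 : b * D z ≤ 1 / 100 * D z := mul_le_mul_of_nonneg_right hb hc.le
    rw [mem_ball, dist_eq_norm]
    linarith
  have hvol := hv' (S.Q.symm z').1 (401 * D z) (by positivity)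
  have hvol0 : volume (ball (S.Q.symm z').1 (401 * D z)) ≠ 0 := by
    rw [hvol]
    refine mul_ne_zero ?_ hv0
    rw [Ne, ENNReal.ofReal_eq_zero, not_le]
    positivity
  have hvolt : volume (ball (S.Q.symm z').1 (401 * D z)) ≠ ⊤ := by
    rw [hvol]
    exact ENNReal.mul_ne_top ENNReal.ofReal_ne_top hvt
  have s4 : ∫⁻ q in ball (S.Q.symm z').1 (401 * D z), ψ q ≤
      (ENNReal.ofReal ((401 * D z) ^ m) * v') * MX ψ (S.Q.symm z').1 := by
    rw [← hvol]
    have h8 : (volume (ball (S.Q.symm z').1 (401 * D z)))⁻¹ *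
        ∫⁻ q in ball (S.Q.symm z').1 (401 * D z), ψ q ≤ MX ψ (S.Q.symm z').1 := by
      unfold MX
      exact le_iSup₂ (f := fun (r : ℝ) (_ : 0 < r) =>
        (volume (ball (S.Q.symm z').1 r))⁻¹ * ∫⁻ q in ball (S.Q.symm z').1 r, ψ q)
        (401 * D z) (by positivity)
    calc ∫⁻ q in ball (S.Q.symm z').1 (401 * D z), ψ q
        = volume (ball (S.Q.symm z').1 (401 * D z)) *
          ((volume (ball (S.Q.symm z').1 (401 * D z)))⁻¹ *
            ∫⁻ q in ball (S.Q.symm z').1 (401 * D z), ψ q) := by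
          rw [← mul_assoc, ENNReal.mul_inv_cancel hvol0 hvolt, one_mul]
      _ ≤ _ := by gcongr
  have s5 : (ENNReal.ofReal ((b * D z / 2) ^ (m + 1)))⁻¹ *
      (ENNReal.ofReal (2 * (2 * b * D z)) * (ENNReal.ofReal ((401 * D z) ^ m) * v')) ≤
      ENNReal.ofReal (8 * (802 / a) ^ m) * v' := by
    rw [← ENNReal.ofReal_inv_of_pos (by positivity), ← mul_assoc, ← mul_assoc,
      ← ENNReal.ofReal_mul (by positivity), ← ENNReal.ofReal_mul (by positivity)]
    refine mul_le_mul_left (ENNReal.ofReal_le_ofReal ?_) _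
    have h9 : ((b * D z / 2) ^ (m + 1))⁻¹ * (2 * (2 * b * D z)) * (401 * D z) ^ m =
        8 * (802 / b) ^ m := by
      have e1 : (401 * D z) ^ m = (802 / b) ^ m * (b * D z / 2) ^ m := by
        rw [← mul_pow]
        congr 1
        field_simp
        norm_num
      rw [e1, pow_succ]
      have e2 : (b * D z / 2) ^ m ≠ 0 := by positivity
      have hb' : b ≠ 0 := hb0.ne'
      have hc' : D z ≠ 0 := hc.ne'
      field_simp
      norm_num
    rw [h9]
    have h10 : 802 / b ≤ 802 / a := div_le_div_of_nonneg_left (by norm_num) ha hab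
    have h11 : (802 / b) ^ m ≤ (802 / a) ^ m := pow_le_pow_left₀ (by positivity) h10 m
    linarith
  calc ∫⁻ y, K (m + 1) (fun y => b * D y) (fun y => b * D y) y z * ψ (S.Q.symm y).1
      ≤ ∫⁻ y, (ball z (2 * b * D z)).indicator (fun y =>
        (ENNReal.ofReal ((b * D z / 2) ^ (m + 1)))⁻¹ * ψ (S.Q.symm y).1) y := lintegral_mono s1
    _ = (ENNReal.ofReal ((b * D z / 2) ^ (m + 1)))⁻¹ *
        ∫⁻ y in ball z (2 * b * D z), ψ (S.Q.symm y).1 := by
      rw [lintegral_indicator isOpen_ball.measurableSet, lintegral_const_mul _ hPm]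
    _ ≤ (ENNReal.ofReal ((b * D z / 2) ^ (m + 1)))⁻¹ *
        (ENNReal.ofReal (2 * (2 * b * D z)) *
          ((ENNReal.ofReal ((401 * D z) ^ m) * v') * MX ψ (S.Q.symm z').1)) := by
      gcongr
      refine s2.trans ?_
      gcongr
      exact (lintegral_mono_set s3).trans s4
    _ = ((ENNReal.ofReal ((b * D z / 2) ^ (m + 1)))⁻¹ *
      (ENNReal.ofReal (2 * (2 * b * D z)) * (ENNReal.ofReal ((401 * D z) ^ m) * v'))) *
        MX ψ (S.Q.symm z').1 := by ring
    _ ≤ _ := by gcongr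

end CPB_

open CPB_ in
/-- Module CPB. -/
theorem cpb_proof (h1 : Stmt_HLM) (h2 : Stmt_DUA) (h3 : Stmt_BSS) (h4 : Stmt_BSA)
    (_h5 : Stmt_BSM) (h6 : Stmt_BSV) : Stmt_CPB := by
  intro m a ha
  obtain ⟨v, hv0, hvt, hv⟩ := h6 (m + 1)
  obtain ⟨v', hv0', hvt', hv'⟩ := h6 m
  obtain ⟨CH, hCH, hHL⟩ := h1 m
  obtain ⟨CD, hCD, hDU⟩ := h2 m
  obtain ⟨Cb, hCb⟩ : ∃ Cb : ℝ≥0∞, Cb = ENNReal.ofReal (8 * (802 / a) ^ m) * v' := ⟨_, rfl⟩
  have hCbt : Cb ≠ ⊤ := by
    rw [hCb]
    exact ENNReal.mul_ne_top ENNReal.ofReal_ne_top hvt'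
  have hCb0 : Cb ≠ 0 := by
    rw [hCb]
    refine mul_ne_zero ?_ hv0'
    rw [Ne, ENNReal.ofReal_eq_zero, not_le]
    positivity
  obtain ⟨Cm, hCm⟩ : ∃ Cm : ℝ≥0∞, Cm = 3 ^ (m + 1) * 3 ^ (m + 1) * 14 ^ (m + 1) / v := ⟨_, rfl⟩
  have hCmt : Cm ≠ ⊤ := by
    rw [hCm]
    refine ENNReal.div_ne_top ?_ hv0
    refine ENNReal.mul_ne_top (ENNReal.mul_ne_top ?_ ?_) ?_ <;>
      exact ENNReal.pow_ne_top (by norm_num)
  refine ⟨CD * (Cb * Cm) ^ 2, ENNReal.mul_ne_top hCD
    (ENNReal.pow_ne_top (ENNReal.mul_ne_top hCbt hCmt)), ?_⟩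
  intro S I D hD ν τ _ _ R η hR hη h b hab hb
  obtain ⟨hD0, hDl, hDc, -⟩ := h4 _ I D hD
  have hbc : Continuous (fun y => b * D y) := continuous_const.mul hDc
  have hac : Continuous (fun y => a * D y) := continuous_const.mul hDc
  have hFm : Measurable (Av D (τ.restrict {y | D y ≤ R / 200}) b) := by
    rw [Av_eq]
    exact G_meas hbc hbc _
  have hGm : Measurable (Av D ν a) := by
    rw [Av_eq]
    exact G_meas hac hac _
  have hNm : MeasurableSet {y | D y ≤ R / 200} := (isClosed_le hDc continuous_const).measurableSet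
  have key := hDU S (Av D (τ.restrict {y | D y ≤ R / 200}) b) (Av D ν a)
    (Cb * Cm * ENNReal.ofReal η) hFm hGm
    (ENNReal.mul_ne_top (ENNReal.mul_ne_top hCbt hCmt) ENNReal.ofReal_ne_top) ?_
  · refine key.trans (le_of_eq ?_)
    ring
  intro ψ hψ
  have hM := (hHL ψ hψ).2.1
  have hPM : Measurable (fun y : E (m + 1) => MX ψ (S.Q.symm y).1) :=
    hM.comp (S.Q.symm.continuous.fst).measurable
  have hPψ : Measurable (fun y : E (m + 1) => ψ (S.Q.symm y).1) :=
    hψ.comp (S.Q.symm.continuous.fst).measurable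
  rw [((h3 m S _ hFm).2.2 ψ hψ).1, ((h3 m S _ hGm).2.2 (MX ψ) hM).1]
  obtain ⟨Ψ, hΨ⟩ : ∃ Ψ : E (m + 1) → ℝ≥0∞, Ψ = fun z =>
      Cb⁻¹ * ∫⁻ y, K (m + 1) (fun y => b * D y) (fun y => b * D y) y z * ψ (S.Q.symm y).1 :=
    ⟨_, rfl⟩
  have hIm : Measurable (fun z =>
      ∫⁻ y, K (m + 1) (fun y => b * D y) (fun y => b * D y) y z * ψ (S.Q.symm y).1) :=
    Measurable.lintegral_prod_right'
      (f := fun p : E (m + 1) × E (m + 1) =>
        K (m + 1) (fun y => b * D y) (fun y => b * D y) p.2 p.1 * ψ (S.Q.symm p.2).1)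
      ((K_meas' hbc hbc).mul (hPψ.comp measurable_snd))
  have hΨm : Measurable Ψ := by
    rw [hΨ]
    exact hIm.const_mul _
  have t1 : ∫⁻ z, Av D (τ.restrict {y | D y ≤ R / 200}) b z * ψ (S.Q.symm z).1 =
      Cb * ∫⁻ s in Set.Ioi (0 : ℝ),
        (τ.restrict {y | D y ≤ R / 200}) {z | ENNReal.ofReal s < Ψ z} := by
    rw [Av_eq, ton hbc hbc _ _ hPψ]
    have t2 : ∀ z, ∫⁻ y, K (m + 1) (fun y => b * D y) (fun y => b * D y) y z *
        ψ (S.Q.symm y).1 = Cb * (1 * Ψ z) := by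
      intro z
      rw [hΨ, one_mul, ← mul_assoc, ENNReal.mul_inv_cancel hCb0 hCbt, one_mul]
    simp_rw [t2]
    rw [lintegral_const_mul _ (hΨm.const_mul _), cake _ measurable_const hΨm]
    simp only [lintegral_const, Measure.restrict_apply MeasurableSet.univ, Set.univ_inter, one_mul]
  have t3 : ∀ s : ℝ, v * (τ.restrict {y | D y ≤ R / 200}) {z | ENNReal.ofReal s < Ψ z} ≤
      3 ^ (m + 1) * (ENNReal.ofReal η * 3 ^ (m + 1)) * (14 ^ (m + 1) *
        ∫⁻ q in {q | ENNReal.ofReal s < MX ψ (S.Q.symm q).1}, Av D ν a q) := by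
    intro s
    rw [Measure.restrict_apply (measurableSet_lt measurable_const hΨm), Av_eq]
    refine claim hv0 hvt (fun x r hr => (hv x r hr).1) hD hDl hDc hD0 hR ha (hab.trans hb) h
      (measurableSet_lt measurable_const hPM) ?_
    rintro z ⟨hz1, hz2⟩
    refine ⟨hz2, fun z' hz' => ?_⟩
    have hz'' : ‖z' - z‖ ≤ 200 * D z := by simpa [mem_closedBall, dist_eq_norm] using hz'
    have t4 := psi_bd hv0' hvt' (fun x r hr => (hv' x r hr).1) h3 S hDl hD0 ha hab hb hψ hz''
    rw [← hCb] at t4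
    have hz1' : ENNReal.ofReal s < Ψ z := hz1
    refine lt_of_lt_of_le hz1' ?_
    rw [hΨ]
    calc Cb⁻¹ * ∫⁻ y, K (m + 1) (fun y => b * D y) (fun y => b * D y) y z * ψ (S.Q.symm y).1
        ≤ Cb⁻¹ * (Cb * MX ψ (S.Q.symm z').1) := by gcongr
      _ = _ := by rw [← mul_assoc, ENNReal.inv_mul_cancel hCb0 hCbt, one_mul]
  have t5 : v * ∫⁻ s in Set.Ioi (0 : ℝ),
        (τ.restrict {y | D y ≤ R / 200}) {z | ENNReal.ofReal s < Ψ z} ≤
      v * (Cm * ENNReal.ofReal η * ∫⁻ z, Av D ν a z * MX ψ (S.Q.symm z).1) := by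
    have hvC : v * Cm = 3 ^ (m + 1) * 3 ^ (m + 1) * 14 ^ (m + 1) := by
      rw [hCm]
      exact ENNReal.mul_div_cancel hv0 hvt
    rw [cake _ hGm hPM, ← lintegral_const_mul' _ _ hvt]
    have hne : 3 ^ (m + 1) * (ENNReal.ofReal η * 3 ^ (m + 1)) * 14 ^ (m + 1) ≠ ⊤ := by
      refine ENNReal.mul_ne_top (ENNReal.mul_ne_top ?_ (ENNReal.mul_ne_top
        ENNReal.ofReal_ne_top ?_)) ?_ <;> exact ENNReal.pow_ne_top (by norm_num)
    calc ∫⁻ s in Set.Ioi (0 : ℝ),
          v * (τ.restrict {y | D y ≤ R / 200}) {z | ENNReal.ofReal s < Ψ z}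
        ≤ ∫⁻ s in Set.Ioi (0 : ℝ), (3 ^ (m + 1) * (ENNReal.ofReal η * 3 ^ (m + 1)) *
            14 ^ (m + 1)) * ∫⁻ q in {q | ENNReal.ofReal s < MX ψ (S.Q.symm q).1}, Av D ν a q := by
          refine lintegral_mono fun s => ?_
          refine (t3 s).trans (le_of_eq ?_)
          ring
      _ = (3 ^ (m + 1) * (ENNReal.ofReal η * 3 ^ (m + 1)) * 14 ^ (m + 1)) *
          ∫⁻ s in Set.Ioi (0 : ℝ),
            ∫⁻ q in {q | ENNReal.ofReal s < MX ψ (S.Q.symm q).1}, Av D ν a q := by
          rw [lintegral_const_mul' _ _ hne]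
      _ = (v * Cm) * ENNReal.ofReal η * ∫⁻ s in Set.Ioi (0 : ℝ),
            ∫⁻ q in {q | ENNReal.ofReal s < MX ψ (S.Q.symm q).1}, Av D ν a q := by
          rw [hvC]
          ring
      _ = _ := by ring
  have t6 := (ENNReal.mul_le_mul_iff_right hv0 hvt).1 t5
  rw [t1]
  calc Cb * ∫⁻ s in Set.Ioi (0 : ℝ),
        (τ.restrict {y | D y ≤ R / 200}) {z | ENNReal.ofReal s < Ψ z}
      ≤ Cb * (Cm * ENNReal.ofReal η * ∫⁻ z, Av D ν a z * MX ψ (S.Q.symm z).1) := by gcongr
    _ = _ := by ring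

end Pool.Agent.CEL
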