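import Pool.Agent.CEL.Stmts

set_option autoImplicit false
open Topology Filter MeasureTheory Matrix Metric
open scoped ENNReal

namespace Pool.Agent.CEL

namespace CPZ_

variable {m : ℕ}

theorem ball_norm {d z : E (m + 1)} {r : ℝ} (hd : ‖d‖ = 1) (hz : ‖z - d‖ < r) (hr : r ≤ 1 / 2) :
    1 / 2 < ‖z‖ ∧ ‖z‖ < 3 / 2 := by
  have h1 : |‖z‖ - ‖d‖| ≤ ‖z - d‖ := abs_norm_sub_norm_le z d
  rw [hd] at h1
  have h2 := abs_le.mp h1
  constructor <;> linarith [h2.1, h2.2]

theorem ball_cone {d z : E (m + 1)} {r ρ : ℝ} (hd : ‖d‖ = 1) (hz : ‖z - d‖ < r) (hr : r ≤ 1 / 2)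
    (hρ : r ≤ ρ / 4) : z ∈ cone d ρ := by
  obtain ⟨h1, h2⟩ := ball_norm hd hz hr
  have hr0 : 0 < r := lt_of_le_of_lt (norm_nonneg _) hz
  refine ⟨?_, ?_⟩
  · intro h
    rw [h, norm_zero] at h1
    linarith
  · have e : z - ‖z‖ • d = (z - d) + (1 - ‖z‖) • d := by
      rw [sub_smul, one_smul]; abel
    have h3 : |‖z‖ - ‖d‖| ≤ ‖z - d‖ := abs_norm_sub_norm_le z d
    rw [hd] at h3
    have h4 : ‖(1 - ‖z‖) • d‖ ≤ ‖z - d‖ := by
      rw [norm_smul, hd, mul_one, Real.norm_eq_abs, abs_sub_comm]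
      exact h3
    calc ‖z - ‖z‖ • d‖ = ‖(z - d) + (1 - ‖z‖) • d‖ := by rw [e]
      _ ≤ ‖z - d‖ + ‖(1 - ‖z‖) • d‖ := norm_add_le _ _
      _ ≤ r + r := by linarith
      _ ≤ ρ * ‖z‖ := by nlinarith

theorem cone_smul {d z : E (m + 1)} {ρ r : ℝ} (hr : 0 < r) (hz : z ∈ cone d ρ) :
    r • z ∈ cone d ρ := by
  refine ⟨smul_ne_zero hr.ne' hz.1, ?_⟩
  have e : r • z - ‖r • z‖ • d = r • (z - ‖z‖ • d) := by
    rw [norm_smul, Real.norm_eq_abs, abs_of_pos hr, smul_sub, smul_smul]
  rw [e, norm_smul, norm_smul, Real.norm_eq_abs, abs_of_pos hr]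
  have := mul_le_mul_of_nonneg_left hz.2 hr.le
  linarith

theorem cone_meas (d : E (m + 1)) (ρ : ℝ) : MeasurableSet (cone d ρ) := by
  have h1 : MeasurableSet {z : E (m + 1) | z ≠ 0} := isOpen_ne.measurableSet
  have h2 : IsClosed {z : E (m + 1) | ‖z - ‖z‖ • d‖ ≤ ρ * ‖z‖} :=
    isClosed_le (by fun_prop) (by fun_prop)
  exact h1.inter h2.measurableSet

end CPZ_

open CPZ_ in
theorem cpz_proof : Stmt_CPZ := by
  intro m μ _ x d ρ hd hρ hCP
  refine ⟨min (1 / 2) (ρ / 4), by positivity, ?_⟩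
  intro ψ hψ hsupp
  set r' : ℝ := min (1 / 2) (ρ / 4) with hr'
  have hr1 : r' ≤ 1 / 2 := min_le_left _ _
  have hr2 : r' ≤ ρ / 4 := min_le_right _ _
  have hcont : Continuous ψ := hψ.1.continuous
  obtain ⟨M, hM⟩ := hcont.bounded_above_of_compact_support hψ.2
  have hM0 : 0 ≤ M := le_trans (norm_nonneg _) (hM 0)
  have hz0 : ∀ z, ψ z ≠ 0 → ‖z - d‖ < r' := by
    intro z hz
    have : z ∈ ball d r' := hsupp (subset_tsupport _ hz)
    rwa [mem_ball_iff_norm] at this
  set S : Set (E (m + 1)) := {y | y - x ∈ cone d ρ} with hS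
  have hSm : MeasurableSet S := by
    have hc : Measurable (fun y : E (m + 1) => y - x) := by fun_prop
    exact hc (cone_meas d ρ)
  set g : E (m + 1) → ℝ := fun y => (‖y - x‖ ^ m)⁻¹ with hg
  have hgm : Measurable g := by
    have : Measurable (fun y : E (m + 1) => ‖y - x‖) := by fun_prop
    exact (this.pow_const m).inv
  have hg0 : ∀ y, 0 ≤ g y := fun y => by positivity
  have hgint : IntegrableOn g S μ := by
    refine ⟨hgm.aestronglyMeasurable, ?_⟩
    rw [hasFiniteIntegral_iff_ofReal (Eventually.of_forall hg0)]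
    exact lt_top_iff_ne_top.mpr hCP
  have hbint : Integrable (S.indicator (fun y => M * (3 / 2) ^ m * g y)) μ :=
    (integrable_indicator_iff hSm).mpr (hgint.const_mul _)
  unfold T
  have key : Tendsto (fun r : ℝ => ∫ y, (r ^ m)⁻¹ * ψ (r⁻¹ • (y - x)) ∂μ) (𝓝[>] 0)
      (𝓝 (∫ _, (0 : ℝ) ∂μ)) := by
    refine tendsto_integral_filter_of_dominated_convergence
      (S.indicator (fun y => M * (3 / 2) ^ m * g y)) ?_ ?_ hbint ?_
    · refine Eventually.of_forall (fun r => ?_)
      have : Continuous (fun y : E (m + 1) => (r ^ m)⁻¹ * ψ (r⁻¹ • (y - x))) := by fun_prop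
      exact this.aestronglyMeasurable
    · filter_upwards [self_mem_nhdsWithin] with r hr
      have hr0 : (0 : ℝ) < r := hr
      refine Eventually.of_forall (fun y => ?_)
      by_cases hz : ψ (r⁻¹ • (y - x)) = 0
      · rw [hz, mul_zero, norm_zero]
        exact Set.indicator_nonneg (fun y _ => by have := hg0 y; positivity) y
      · have h1 := hz0 _ hz
        have h2 := ball_cone hd h1 hr1 hr2
        have h3 := cone_smul hr0 h2
        rw [smul_smul, mul_inv_cancel₀ hr0.ne', one_smul] at h3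
        have h4 : y ∈ S := h3
        rw [Set.indicator_of_mem h4, norm_mul]
        have h5 := ball_norm hd h1 hr1
        rw [norm_smul, norm_inv, Real.norm_eq_abs, abs_of_pos hr0] at h5
        have h6 : 0 < ‖y - x‖ := norm_pos_iff.mpr h3.1
        have h7 : ‖y - x‖ ≤ (3 / 2) * r := by
          have := h5.2
          rw [inv_mul_lt_iff₀ hr0] at this
          linarith
        have h8 : r⁻¹ ≤ (3 / 2) * ‖y - x‖⁻¹ := by
          rw [← div_eq_mul_inv, inv_eq_one_div, div_le_div_iff₀ hr0 h6]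
          linarith
        have h9 : (r ^ m)⁻¹ ≤ (3 / 2) ^ m * g y := by
          have := pow_le_pow_left₀ (by positivity) h8 m
          rw [mul_pow, inv_pow, inv_pow] at this
          exact this
        have h10 : ‖(r ^ m)⁻¹‖ = (r ^ m)⁻¹ := by
          rw [Real.norm_eq_abs, abs_of_pos (by positivity)]
        rw [h10]
        have := hg0 y
        calc (r ^ m)⁻¹ * ‖ψ (r⁻¹ • (y - x))‖ ≤ ((3 / 2) ^ m * g y) * M :=
              mul_le_mul h9 (hM _) (norm_nonneg _) (by positivity)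
          _ = M * (3 / 2) ^ m * g y := by ring
    · refine Eventually.of_forall (fun y => ?_)
      refine tendsto_const_nhds.congr' ?_
      by_cases hy : y = x
      · refine Eventually.of_forall (fun r => ?_)
        have h0 : ψ 0 = 0 := by
          by_contra h
          have := hz0 0 h
          rw [zero_sub, norm_neg, hd] at this
          linarith
        simp [hy, h0]
      · have h6 : 0 < ‖y - x‖ := norm_pos_iff.mpr (sub_ne_zero.mpr hy)
        have h7 : ∀ᶠ r : ℝ in 𝓝[>] 0, r < ‖y - x‖ / 2 := by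
          have : ∀ᶠ r : ℝ in 𝓝 0, r < ‖y - x‖ / 2 := gt_mem_nhds (by positivity)
          exact nhdsWithin_le_nhds this
        filter_upwards [h7, self_mem_nhdsWithin] with r h8 hr
        have hr0 : (0 : ℝ) < r := hr
        by_contra hne
        have hz : ψ (r⁻¹ • (y - x)) ≠ 0 := by
          intro h
          rw [h, mul_zero] at hne
          exact hne rfl
        have h5 := (ball_norm hd (hz0 _ hz) hr1).2
        rw [norm_smul, norm_inv, Real.norm_eq_abs, abs_of_pos hr0, inv_mul_lt_iff₀ hr0] at h5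
        linarith
  rw [integral_zero] at key
  refine key.congr (fun r => ?_)
  rw [integral_const_mul]

end Pool.Agent.CEL
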