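import Pool.Agent.CEL.Stmts

set_option autoImplicit false
open Topology Filter MeasureTheory Matrix Metric
open scoped ENNReal

namespace Pool.Agent.CEL

namespace CVA_

theorem swap3 {α β γ : Type*} [MeasurableSpace α] [MeasurableSpace β] [MeasurableSpace γ]
    (μ : Measure α) (ν : Measure β) (τ : Measure γ) [SFinite μ] [SFinite ν] [SFinite τ]
    (f : α → β → γ → ℝ≥0∞) (hf : Measurable (fun p : α × β × γ => f p.1 p.2.1 p.2.2)) :
    ∫⁻ x, ∫⁻ y, ∫⁻ z, f x y z ∂τ ∂ν ∂μ = ∫⁻ z, ∫⁻ x, ∫⁻ y, f x y z ∂ν ∂μ ∂τ := by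
  have h1 : ∀ x, ∫⁻ y, ∫⁻ z, f x y z ∂τ ∂ν = ∫⁻ z, ∫⁻ y, f x y z ∂ν ∂τ := by
    intro x
    apply lintegral_lintegral_swap
    have : Measurable (fun p : β × γ => f x p.1 p.2) :=
      hf.comp (measurable_const.prodMk measurable_id)
    exact this.aemeasurable
  simp_rw [h1]
  apply lintegral_lintegral_swap
  have h2 : Measurable (fun p : (α × γ) × β => f p.1.1 p.2 p.1.2) :=
    hf.comp ((measurable_fst.comp measurable_fst).prodMk
      (measurable_snd.prodMk (measurable_snd.comp measurable_fst)))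
  have h3 : Measurable (fun p : α × γ => ∫⁻ y, f p.1 y p.2 ∂ν) := h2.lintegral_prod_right'
  exact h3.aemeasurable

theorem sq_lint {α : Type*} [MeasurableSpace α] (μ : Measure α) (h : α → ℝ≥0∞)
    (hh : Measurable h) : (∫⁻ t, h t ∂μ) ^ 2 = ∫⁻ t, ∫⁻ t', h t * h t' ∂μ ∂μ := by
  simp_rw [lintegral_const_mul _ hh]
  rw [lintegral_mul_const _ hh, sq]

theorem scale {m : ℕ} (s : ℝ) (hs : s ≠ 0) (g : E m → ℝ≥0∞) (hg : Measurable g) :
    ∫⁻ θ, g (s • θ) = ENNReal.ofReal ((|s| ^ m)⁻¹) * ∫⁻ x, g x := by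
  have h1 := Measure.map_addHaar_smul (volume : Measure (E m)) hs
  have h2 : ∫⁻ θ, g (s • θ) = ∫⁻ x, g x ∂(Measure.map (fun x : E m => s • x) volume) := by
    rw [lintegral_map hg (measurable_const_smul s)]
  rw [h2, h1, lintegral_smul_measure, smul_eq_mul, finrank_euclideanSpace_fin, abs_inv, abs_pow]

end CVA_

open CVA_ in
theorem cva_proof : Stmt_CVA := by
  intro m d Φ hd hΦd hnorm hinner hmp ρ G hρ hG
  set H : E m × ℝ → ℝ≥0∞ := fun w => G (Φ w) with hHdef
  have hH : Measurable H := hG.comp Φ.continuous.measurable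
  have emb : MeasurableEmbedding Φ := Φ.toHomeomorph.measurableEmbedding
  have hn0 : ∀ x : E m, ‖Φ (x, 0)‖ = ‖x‖ := by
    intro x
    have h := hnorm x 0
    have h' : ‖Φ (x, 0)‖ ^ 2 = ‖x‖ ^ 2 := by simpa using h
    exact (sq_eq_sq₀ (norm_nonneg _) (norm_nonneg _)).1 h'
  -- the kernel
  set K : (E m × ℝ) → (E m × ℝ) → ℝ≥0∞ := fun w w' =>
    ({v : E m × ℝ | ‖v.1 - w.1‖ ≤ ρ * |v.2 - w.2|}).indicator
      (fun v => H w * H v * ENNReal.ofReal ((|v.2 - w.2| ^ m)⁻¹)) w' with hKdef
  have hsetm : MeasurableSet {p : (E m × ℝ) × (E m × ℝ) |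
      ‖p.2.1 - p.1.1‖ ≤ ρ * |p.2.2 - p.1.2|} := by
    apply measurableSet_le <;> fun_prop
  have hKm : Measurable (fun p : (E m × ℝ) × (E m × ℝ) => K p.1 p.2) := by
    have : (fun p : (E m × ℝ) × (E m × ℝ) => K p.1 p.2) =
        ({p : (E m × ℝ) × (E m × ℝ) | ‖p.2.1 - p.1.1‖ ≤ ρ * |p.2.2 - p.1.2|}).indicator
          (fun p => H p.1 * H p.2 * ENNReal.ofReal ((|p.2.2 - p.1.2| ^ m)⁻¹)) := by
      funext p
      simp only [hKdef, Set.indicator, Set.mem_setOf_eq]
    rw [this]
    apply Measurable.indicator _ hsetm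
    apply Measurable.mul
    · exact (hH.comp measurable_fst).mul (hH.comp measurable_snd)
    · apply ENNReal.measurable_ofReal.comp
      apply Measurable.inv
      apply Measurable.pow_const
      apply Measurable.abs
      exact (measurable_snd.comp measurable_snd).sub (measurable_snd.comp measurable_fst)
  -- Step 1
  have h1 : ∫⁻ z, ∫⁻ z' in {z' | ‖(z' - z) - (inner ℝ (z' - z) d : ℝ) • d‖ ≤
        ρ * |(inner ℝ (z' - z) d : ℝ)|},
        G z * G z' * ENNReal.ofReal ((|(inner ℝ (z' - z) d : ℝ)| ^ m)⁻¹) =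
      ∫⁻ w, ∫⁻ w', K w w' := by
    rw [← hmp.lintegral_comp_emb emb]
    apply lintegral_congr
    intro w
    rw [← hmp.setLIntegral_comp_preimage_emb emb]
    have hin : ∀ w' : E m × ℝ, (inner ℝ (Φ w' - Φ w) d : ℝ) = w'.2 - w.2 := by
      intro w'
      rw [← map_sub]
      exact hinner (w'.1 - w.1) (w'.2 - w.2)
    have hpre : (Φ ⁻¹' {z' | ‖(z' - Φ w) - (inner ℝ (z' - Φ w) d : ℝ) • d‖ ≤
        ρ * |(inner ℝ (z' - Φ w) d : ℝ)|}) = {v : E m × ℝ | ‖v.1 - w.1‖ ≤ ρ * |v.2 - w.2|} := by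
      ext v
      simp only [Set.mem_preimage, Set.mem_setOf_eq]
      rw [hin v]
      have : (Φ v - Φ w) - (v.2 - w.2) • d = Φ (v.1 - w.1, 0) := by
        rw [← hΦd, ← map_sub, ← map_smul, ← map_sub]
        congr 1
        ext1 <;> simp
      rw [this, hn0]
    rw [hpre, ← lintegral_indicator]
    · apply lintegral_congr
      intro v
      simp only [hKdef, hHdef]
      by_cases hv : ‖v.1 - w.1‖ ≤ ρ * |v.2 - w.2|
      · rw [Set.indicator_of_mem (show v ∈ {v : E m × ℝ | ‖v.1 - w.1‖ ≤ ρ * |v.2 - w.2|} from hv),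
          Set.indicator_of_mem (show v ∈ {v : E m × ℝ | ‖v.1 - w.1‖ ≤ ρ * |v.2 - w.2|} from hv),
          hin v]
      · rw [Set.indicator_of_notMem (show v ∉ {v : E m × ℝ | ‖v.1 - w.1‖ ≤ ρ * |v.2 - w.2|} from hv),
          Set.indicator_of_notMem (show v ∉ {v : E m × ℝ | ‖v.1 - w.1‖ ≤ ρ * |v.2 - w.2|} from hv)]
    · exact measurableSet_le (by fun_prop) (by fun_prop)
  have hKval : ∀ (q : E m) (t : ℝ) (q' : E m) (t' : ℝ), K (q, t) (q', t') =
      if ‖q' - q‖ ≤ ρ * |t' - t| then
        H (q, t) * H (q', t') * ENNReal.ofReal ((|t' - t| ^ m)⁻¹) else 0 := by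
    intro q t q' t'
    simp only [hKdef, Set.indicator, Set.mem_setOf_eq]
  have hHG : ∀ w, G (Φ w) = H w := fun _ => rfl
  clear_value K
  clear_value H
  -- Step 2
  have h2 : ∫⁻ w, ∫⁻ w', K w w' = ∫⁻ t, ∫⁻ t', ∫⁻ q, ∫⁻ q', K (q, t) (q', t') := by
    have hin : ∀ w, ∫⁻ w', K w w' = ∫⁻ t', ∫⁻ q', K w (q', t') := by
      intro w
      have hKw : Measurable (fun w' => K w w') := hKm.comp (measurable_prodMk_left (x := w))
      rw [Measure.volume_eq_prod (E m) ℝ]
      exact lintegral_prod_symm' (fun w' => K w w') hKw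
    simp_rw [hin]
    rw [Measure.volume_eq_prod (E m) ℝ, lintegral_prod_symm']
    · apply lintegral_congr
      intro t
      apply lintegral_lintegral_swap
      have hm3 : Measurable (fun p : (E m × ℝ) × E m => K (p.1.1, t) (p.2, p.1.2)) :=
        hKm.comp (((measurable_fst.comp measurable_fst).prodMk measurable_const).prodMk
          (measurable_snd.prodMk (measurable_snd.comp measurable_fst)))
      have hm4 : Measurable (fun p : E m × ℝ => ∫⁻ q', K (p.1, t) (q', p.2)) :=
        hm3.lintegral_prod_right'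
      exact hm4.aemeasurable
    · have hm3 : Measurable (fun p : ((E m × ℝ) × ℝ) × E m => K p.1.1 (p.2, p.1.2)) :=
        hKm.comp ((measurable_fst.comp measurable_fst).prodMk
          (measurable_snd.prodMk (measurable_snd.comp measurable_fst)))
      have hm4 : Measurable (fun p : (E m × ℝ) × ℝ => ∫⁻ q', K p.1 (q', p.2)) :=
        hm3.lintegral_prod_right'
      exact hm4.lintegral_prod_right'
  -- Step 3: the right-hand side
  have h3 : ∫⁻ θ in closedBall (0 : E m) ρ, ∫⁻ p, (∫⁻ t, G (Φ (p + t • θ, t))) ^ 2 =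
      ∫⁻ t, ∫⁻ t', ∫⁻ θ in closedBall (0 : E m) ρ, ∫⁻ p,
        H (p + t • θ, t) * H (p + t' • θ, t') := by
    have e1 : ∀ θ p : E m, (∫⁻ t, G (Φ (p + t • θ, t))) ^ 2 =
        ∫⁻ t, ∫⁻ t', H (p + t • θ, t) * H (p + t' • θ, t') := by
      intro θ p
      simp only [hHG]
      have := sq_lint (volume : Measure ℝ) (fun t => H (p + t • θ, t))
        (hH.comp (by fun_prop))
      exact this
    simp_rw [e1]
    have hM : Measurable (fun x : E m × E m × ℝ × ℝ =>
        H (x.2.1 + x.2.2.1 • x.1, x.2.2.1) * H (x.2.1 + x.2.2.2 • x.1, x.2.2.2)) := by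
      apply Measurable.mul
      · exact hH.comp (by fun_prop)
      · exact hH.comp (by fun_prop)
    have hf1 : Measurable (fun p : E m × E m × ℝ =>
        ∫⁻ t', H (p.2.1 + p.2.2 • p.1, p.2.2) * H (p.2.1 + t' • p.1, t')) := by
      have : Measurable (fun x : (E m × E m × ℝ) × ℝ =>
          H (x.1.2.1 + x.1.2.2 • x.1.1, x.1.2.2) * H (x.1.2.1 + x.2 • x.1.1, x.2)) :=
        hM.comp ((measurable_fst.comp measurable_fst).prodMk
          ((measurable_fst.comp (measurable_snd.comp measurable_fst)).prodMk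
            ((measurable_snd.comp (measurable_snd.comp measurable_fst)).prodMk measurable_snd)))
      exact this.lintegral_prod_right'
    have e2 := swap3 ((volume : Measure (E m)).restrict (closedBall (0 : E m) ρ))
      (volume : Measure (E m)) (volume : Measure ℝ)
      (fun θ p t => ∫⁻ t', H (p + t • θ, t) * H (p + t' • θ, t')) hf1
    rw [e2]
    apply lintegral_congr
    intro t
    have hf2 : Measurable (fun p : E m × E m × ℝ =>
        H (p.2.1 + t • p.1, t) * H (p.2.1 + p.2.2 • p.1, p.2.2)) := by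
      have := hM.comp ((measurable_fst : Measurable (fun p : E m × E m × ℝ => p.1)).prodMk
        ((measurable_fst.comp measurable_snd).prodMk
          ((measurable_const (a := t)).prodMk (measurable_snd.comp measurable_snd))))
      exact this
    exact swap3 ((volume : Measure (E m)).restrict (closedBall (0 : E m) ρ))
      (volume : Measure (E m)) (volume : Measure ℝ)
      (fun θ p t' => H (p + t • θ, t) * H (p + t' • θ, t')) hf2
  rw [h1, h2, h3]
  apply le_of_eq
  apply lintegral_congr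
  intro t
  have hae : ∀ᵐ t' : ℝ, t' ≠ t := by
    have := (Set.countable_singleton t).ae_notMem (volume : Measure ℝ)
    filter_upwards [this] with t' ht'
    simpa using ht'
  apply lintegral_congr_ae
  filter_upwards [hae] with t' ht'
  set s : ℝ := t' - t with hs
  have hs0 : s ≠ 0 := sub_ne_zero.2 ht'
  -- right-hand side: translate
  have e1 : ∀ θ : E m, ∫⁻ p, H (p + t • θ, t) * H (p + t' • θ, t') =
      ∫⁻ q, H (q, t) * H (q + s • θ, t') := by
    intro θ
    rw [← lintegral_add_right_eq_self (fun q => H (q, t) * H (q + s • θ, t')) (t • θ)]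
    apply lintegral_congr
    intro p
    have : p + t • θ + s • θ = p + t' • θ := by
      rw [hs, sub_smul]; abel
    simp only [this]
  simp_rw [e1]
  have hsw : ∫⁻ θ in closedBall (0 : E m) ρ, ∫⁻ q, H (q, t) * H (q + s • θ, t') =
      ∫⁻ q, ∫⁻ θ in closedBall (0 : E m) ρ, H (q, t) * H (q + s • θ, t') := by
    apply lintegral_lintegral_swap
    have : Measurable (fun p : E m × E m => H (p.2, t) * H (p.2 + s • p.1, t')) := by
      apply Measurable.mul
      · exact hH.comp (by fun_prop)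
      · exact hH.comp (by fun_prop)
    exact this.aemeasurable
  rw [hsw]
  apply lintegral_congr
  intro q
  -- both sides for fixed q
  set g : E m → ℝ≥0∞ := fun x =>
    ({x : E m | ‖x‖ ≤ ρ * |s|}).indicator (fun x => H (q, t) * H (q + x, t')) x with hg
  have hgm : Measurable g := by
    rw [hg]
    have hx : (fun x => ({x : E m | ‖x‖ ≤ ρ * |s|}).indicator
        (fun x => H (q, t) * H (q + x, t')) x) = ({x : E m | ‖x‖ ≤ ρ * |s|}).indicator
        (fun x => H (q, t) * H (q + x, t')) := rfl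
    rw [hx]
    apply Measurable.indicator
    · apply Measurable.mul
      · exact measurable_const
      · exact hH.comp (by fun_prop)
    · exact measurableSet_le (by fun_prop) (by fun_prop)
  have hL : ∫⁻ q', K (q, t) (q', t') = ENNReal.ofReal ((|s| ^ m)⁻¹) * ∫⁻ x, g x := by
    rw [← lintegral_add_left_eq_self (fun q' => K (q, t) (q', t')) q,
      ← lintegral_const_mul _ hgm]
    apply lintegral_congr
    intro x
    simp only [hKval, hg, Set.indicator, Set.mem_setOf_eq, add_sub_cancel_left]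
    by_cases hx : ‖x‖ ≤ ρ * |s|
    · rw [if_pos hx, if_pos hx, mul_comm]
    · rw [if_neg hx, if_neg hx, mul_zero]
  have hR : ∫⁻ θ in closedBall (0 : E m) ρ, H (q, t) * H (q + s • θ, t') =
      ENNReal.ofReal ((|s| ^ m)⁻¹) * ∫⁻ x, g x := by
    rw [← scale s hs0 g hgm, ← lintegral_indicator isClosed_closedBall.measurableSet]
    apply lintegral_congr
    intro θ
    simp only [hg, Set.indicator, Set.mem_setOf_eq, mem_closedBall, dist_zero_right, norm_smul,
      Real.norm_eq_abs]
    have : (‖θ‖ ≤ ρ) ↔ (|s| * ‖θ‖ ≤ ρ * |s|) := by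
      rw [mul_comm ρ]
      exact (mul_le_mul_iff_right₀ (abs_pos.2 hs0)).symm
    by_cases hx : ‖θ‖ ≤ ρ
    · rw [if_pos hx, if_pos (this.1 hx)]
    · rw [if_neg hx, if_neg (fun h => hx (this.2 h))]
  rw [hL, hR]

end Pool.Agent.CEL
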