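import Pool.Agent.CEL.Stmts

/-!
# CEL, module CVB: finite cone potentials
-/

set_option autoImplicit false
open Topology Filter MeasureTheory Matrix Metric
open scoped ENNReal

namespace Pool.Agent.CEL

namespace CVB_

/-- The Tonelli step. -/
theorem tonelli {α β : Type*} [MeasurableSpace α] [MeasurableSpace β] (μ : Measure α)
    (lam : Measure β) [SFinite μ] [SFinite lam] (a : α → β → ℝ≥0∞) (G : β → ℝ≥0∞)
    (Ψ : β × β → ℝ≥0∞) (ha : Measurable (Function.uncurry a)) (hG : Measurable G)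
    (hΨ : Measurable Ψ) (hGa : ∀ z, ∫⁻ x, a x z ∂μ ≤ G z) :
    ∫⁻ p : α × α, (∫⁻ q : β × β, a p.1 q.1 * a p.2 q.2 * Ψ q ∂(lam.prod lam)) ∂(μ.prod μ) ≤
      ∫⁻ z, ∫⁻ z', G z * G z' * Ψ (z, z') ∂lam ∂lam := by
  have ha1 : ∀ z, Measurable (fun x => a x z) := fun z =>
    ha.comp (measurable_id.prodMk measurable_const)
  have hm : Measurable (Function.uncurry fun (p : α × α) (q : β × β) =>
      a p.1 q.1 * a p.2 q.2 * Ψ q) := by
    have h1 : Measurable (fun r : (α × α) × (β × β) => a r.1.1 r.2.1) :=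
      ha.comp ((measurable_fst.comp measurable_fst).prodMk (measurable_fst.comp measurable_snd))
    have h2 : Measurable (fun r : (α × α) × (β × β) => a r.1.2 r.2.2) :=
      ha.comp ((measurable_snd.comp measurable_fst).prodMk (measurable_snd.comp measurable_snd))
    exact (h1.mul h2).mul (hΨ.comp measurable_snd)
  rw [lintegral_lintegral_swap hm.aemeasurable]
  have h3 : ∀ q : β × β, ∫⁻ p : α × α, a p.1 q.1 * a p.2 q.2 * Ψ q ∂(μ.prod μ) ≤
      G q.1 * G q.2 * Ψ q := by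
    intro q
    have hmm : Measurable (fun p : α × α => a p.1 q.1 * a p.2 q.2) :=
      ((ha1 q.1).comp measurable_fst).mul ((ha1 q.2).comp measurable_snd)
    rw [lintegral_mul_const _ hmm]
    have h4 := lintegral_prod_mul (μ := μ) (ν := μ) (ha1 q.1).aemeasurable (ha1 q.2).aemeasurable
    rw [h4]
    gcongr
    · exact hGa q.1
    · exact hGa q.2
  calc ∫⁻ q : β × β, ∫⁻ p : α × α, a p.1 q.1 * a p.2 q.2 * Ψ q ∂(μ.prod μ) ∂(lam.prod lam)
      ≤ ∫⁻ q : β × β, G q.1 * G q.2 * Ψ q ∂(lam.prod lam) := lintegral_mono h3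
    _ = ∫⁻ z, ∫⁻ z', G z * G z' * Ψ (z, z') ∂lam ∂lam := by
        rw [lintegral_prod]
        exact (((hG.comp measurable_fst).mul (hG.comp measurable_snd)).mul hΨ).aemeasurable

/-- The kernel of the lower bound. -/
noncomputable def kk {m : ℕ} (D : E (m + 1) → ℝ) (ε : ℝ) (x : E (m + 1)) : ℝ≥0∞ :=
  (ENNReal.ofReal ((3 / 2 * (ε * D x)) ^ (m + 1)))⁻¹

open Classical in
/-- The kernel of the lower bound. -/
noncomputable def aa {m : ℕ} (D : E (m + 1) → ℝ) (ε : ℝ) (x z : E (m + 1)) : ℝ≥0∞ :=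
  if ‖z - x‖ < ε * D x / 2 then kk D ε x else 0

theorem kk_meas {m : ℕ} (D : E (m + 1) → ℝ) (ε : ℝ) (hD : Continuous D) :
    Measurable (kk D ε) := by
  unfold kk
  exact (ENNReal.measurable_ofReal.comp (by fun_prop : Measurable _)).inv

theorem aa_meas {m : ℕ} (D : E (m + 1) → ℝ) (ε : ℝ) (hD : Continuous D) :
    Measurable (Function.uncurry (aa D ε)) := by
  unfold aa
  have hs : MeasurableSet {p : E (m + 1) × E (m + 1) | ‖p.2 - p.1‖ < ε * D p.1 / 2} := by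
    apply IsOpen.measurableSet
    exact isOpen_lt (by fun_prop) (by fun_prop)
  exact Measurable.ite hs ((kk_meas D ε hD).comp measurable_fst) measurable_const

/-- Comparison of distances. -/
theorem dist_cmp {m : ℕ} (D : E (m + 1) → ℝ) (ε : ℝ) (hε : 0 < ε) (hε1 : ε ≤ 1 / 400)
    (hpos : ∀ y, 0 < D y) (hlip : ∀ x y, |D x - D y| ≤ ‖x - y‖) (x z : E (m + 1))
    (h : ‖z - x‖ < ε * D x / 2) : D x / 2 ≤ D z ∧ D z ≤ 3 / 2 * D x := by
  have h1 := hlip z x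
  have h2 := hpos x
  rw [abs_le] at h1
  have h3 : ε * D x / 2 ≤ D x / 2 := by nlinarith
  constructor <;> linarith

theorem G_low {m : ℕ} (D : E (m + 1) → ℝ) (ε : ℝ) (hε : 0 < ε) (hε1 : ε ≤ 1 / 400)
    (hpos : ∀ y, 0 < D y) (hlip : ∀ x y, |D x - D y| ≤ ‖x - y‖) (μ : Measure (E (m + 1)))
    (z : E (m + 1)) : ∫⁻ x, aa D ε x z ∂μ ≤ Av D μ ε z := by
  have h1 : ∀ x, aa D ε x z ≤ (ball z (ε * D z)).indicator
      (fun _ => (ENNReal.ofReal ((ε * D z) ^ (m + 1)))⁻¹) x := by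
    intro x
    unfold aa
    split_ifs with h
    · obtain ⟨h2, h3⟩ := dist_cmp D ε hε hε1 hpos hlip x z h
      have hx : x ∈ ball z (ε * D z) := by
        rw [mem_ball, dist_eq_norm, norm_sub_rev]
        have : ε * D x / 2 ≤ ε * D z := by nlinarith
        linarith
      rw [Set.indicator_of_mem hx]
      unfold kk
      apply ENNReal.inv_le_inv.mpr
      apply ENNReal.ofReal_le_ofReal
      have h4 := hpos z
      have h5 : 0 ≤ ε * D z := by positivity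
      apply pow_le_pow_left₀ h5
      nlinarith
    · exact bot_le
  calc (∫⁻ x, aa D ε x z ∂μ) ≤ ∫⁻ x, ((ball z (ε * D z)).indicator
      (fun _ => (ENNReal.ofReal ((ε * D z) ^ (m + 1)))⁻¹) x) ∂μ := lintegral_mono h1
    _ = (ENNReal.ofReal ((ε * D z) ^ (m + 1)))⁻¹ * μ (ball z (ε * D z)) := by
        rw [lintegral_indicator measurableSet_ball, setLIntegral_const]
    _ = Av D μ ε z := by
        unfold Av
        rw [mul_comm, ENNReal.div_eq_inv_mul, mul_comm]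

theorem aa_int {m : ℕ} (D : E (m + 1) → ℝ) (ε : ℝ) (hε : 0 < ε)
    (hpos : ∀ y, 0 < D y) (v : ℝ≥0∞)
    (hv : ∀ (x : E (m + 1)) (r : ℝ), 0 < r → volume (ball x r) = ENNReal.ofReal (r ^ (m + 1)) * v)
    (x : E (m + 1)) : ∫⁻ z, aa D ε x z = ENNReal.ofReal ((1 / 3) ^ (m + 1)) * v := by
  have h1 : ∀ z, aa D ε x z = (ball x (ε * D x / 2)).indicator (fun _ => kk D ε x) z := by
    intro z
    unfold aa
    by_cases h : ‖z - x‖ < ε * D x / 2
    · have : z ∈ ball x (ε * D x / 2) := by rwa [mem_ball, dist_eq_norm]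
      rw [if_pos h, Set.indicator_of_mem this]
    · have : z ∉ ball x (ε * D x / 2) := by rwa [mem_ball, dist_eq_norm]
      rw [if_neg h, Set.indicator_of_notMem this]
  have hDx := hpos x
  have hr : 0 < ε * D x := by positivity
  simp only [h1]
  rw [lintegral_indicator measurableSet_ball, setLIntegral_const, hv x _ (by positivity)]
  unfold kk
  rw [← mul_assoc]
  congr 1
  rw [← ENNReal.ofReal_inv_of_pos (by positivity), ← ENNReal.ofReal_mul (by positivity)]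
  congr 1
  rw [← inv_pow, ← mul_pow]
  congr 1
  field_simp

/-- The geometric step. -/
theorem geo {m : ℕ} (d x y z z' : E (m + 1)) (ρ ε Dx Dy : ℝ) (hd : ‖d‖ = 1) (hρ : 0 < ρ)
    (hρ1 : ρ ≤ 1) (hε : 0 < ε) (hερ : ε ≤ ρ / 100) (hT : 0 < ‖y - x‖)
    (hc : ‖(y - x) - ‖y - x‖ • d‖ ≤ ρ / 20 * ‖y - x‖) (hz : ‖z - x‖ < ε * Dx / 2)
    (hz' : ‖z' - y‖ < ε * Dy / 2) (hDx : Dx ≤ 2 * ‖y - x‖) (hDy : Dy ≤ 3 * ‖y - x‖) :
    ‖(z' - z) - (inner ℝ (z' - z) d : ℝ) • d‖ ≤ ρ * |(inner ℝ (z' - z) d : ℝ)| ∧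
      0 < |(inner ℝ (z' - z) d : ℝ)| ∧ |(inner ℝ (z' - z) d : ℝ)| ≤ 2 * ‖y - x‖ := by
  set T := ‖y - x‖ with hTdef
  set t : ℝ := inner ℝ (z' - z) d with ht
  have h1 : ‖(z' - z) - T • d‖ ≤ 3 * ρ / 40 * T := by
    have h2 : (z' - z) - T • d = ((y - x) - T • d) + (z' - y) - (z - x) := by abel
    have h3 : ‖(z' - z) - T • d‖ ≤ ‖(y - x) - T • d‖ + ‖z' - y‖ + ‖z - x‖ := by
      rw [h2]
      exact (norm_sub_le _ _).trans (add_le_add (norm_add_le _ _) le_rfl)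
    have h4 : ε * Dx ≤ ρ / 100 * (2 * T) := by
      have : ε * Dx ≤ ε * (2 * T) := mul_le_mul_of_nonneg_left hDx hε.le
      nlinarith
    have h5 : ε * Dy ≤ ρ / 100 * (3 * T) := by
      have : ε * Dy ≤ ε * (3 * T) := mul_le_mul_of_nonneg_left hDy hε.le
      nlinarith
    nlinarith
  have h2 : |t - T| ≤ 3 * ρ / 40 * T := by
    have h3 : t - T = inner ℝ ((z' - z) - T • d) d := by
      rw [inner_sub_left, inner_smul_left, real_inner_self_eq_norm_sq, hd]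
      simp [ht]
    rw [h3]
    calc |inner ℝ ((z' - z) - T • d) d| ≤ ‖(z' - z) - T • d‖ * ‖d‖ := abs_real_inner_le_norm _ _
      _ ≤ 3 * ρ / 40 * T := by rw [hd, mul_one]; exact h1
  have hρT : 3 * ρ / 40 * T ≤ 3 / 40 * T := by nlinarith
  have h3 := abs_le.mp h2
  have ht0 : 0 < t := by linarith [h3.1]
  rw [abs_of_pos ht0]
  refine ⟨?_, ht0, by linarith [h3.2]⟩
  have h4 : (z' - z) - t • d = ((z' - z) - T • d) - (t - T) • d := by
    rw [sub_smul]; abel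
  have h5 : ‖(z' - z) - t • d‖ ≤ ‖(z' - z) - T • d‖ + |t - T| := by
    rw [h4]
    refine (norm_sub_le _ _).trans (le_of_eq ?_)
    rw [norm_smul, hd, mul_one, Real.norm_eq_abs]
  have h6 : 37 / 40 * T ≤ t := by linarith [h3.1]
  have h7 : 6 * ρ / 40 * T ≤ ρ * t := by nlinarith
  linarith

/-- The kernel of CVA. -/
noncomputable def psi {m : ℕ} (d : E (m + 1)) (ρ : ℝ) : E (m + 1) × E (m + 1) → ℝ≥0∞ :=
  Set.indicator {q | ‖(q.2 - q.1) - (inner ℝ (q.2 - q.1) d : ℝ) • d‖ ≤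
    ρ * |(inner ℝ (q.2 - q.1) d : ℝ)|}
    (fun q => ENNReal.ofReal ((|(inner ℝ (q.2 - q.1) d : ℝ)| ^ m)⁻¹))

theorem psi_set {m : ℕ} (d : E (m + 1)) (ρ : ℝ) :
    MeasurableSet {q : E (m + 1) × E (m + 1) | ‖(q.2 - q.1) - (inner ℝ (q.2 - q.1) d : ℝ) • d‖ ≤
    ρ * |(inner ℝ (q.2 - q.1) d : ℝ)|} := by
  apply IsClosed.measurableSet
  exact isClosed_le (by fun_prop) (by fun_prop)

theorem psi_meas {m : ℕ} (d : E (m + 1)) (ρ : ℝ) : Measurable (psi d ρ) := by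
  unfold psi
  apply Measurable.indicator _ (psi_set d ρ)
  apply ENNReal.measurable_ofReal.comp
  apply Measurable.inv
  have : Continuous (fun q : E (m + 1) × E (m + 1) => |(inner ℝ (q.2 - q.1) d : ℝ)| ^ m) := by
    fun_prop
  exact this.measurable

theorem psi_int {m : ℕ} (d : E (m + 1)) (ρ : ℝ) (G : E (m + 1) → ℝ≥0∞) :
    ∫⁻ z, ∫⁻ z', G z * G z' * psi d ρ (z, z') =
    ∫⁻ z, ∫⁻ z' in {z' | ‖(z' - z) - (inner ℝ (z' - z) d : ℝ) • d‖ ≤
        ρ * |(inner ℝ (z' - z) d : ℝ)|},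
        G z * G z' * ENNReal.ofReal ((|(inner ℝ (z' - z) d : ℝ)| ^ m)⁻¹) := by
  congr 1
  funext z
  have hs : MeasurableSet {z' : E (m + 1) | ‖(z' - z) - (inner ℝ (z' - z) d : ℝ) • d‖ ≤
        ρ * |(inner ℝ (z' - z) d : ℝ)|} := by
    apply IsClosed.measurableSet
    exact isClosed_le (by fun_prop) (by fun_prop)
  rw [← lintegral_indicator hs]
  congr 1
  funext z'
  unfold psi
  by_cases h : ‖(z' - z) - (inner ℝ (z' - z) d : ℝ) • d‖ ≤ ρ * |(inner ℝ (z' - z) d : ℝ)|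
  · rw [Set.indicator_of_mem (show (z, z') ∈ {q : E (m + 1) × E (m + 1) |
        ‖(q.2 - q.1) - (inner ℝ (q.2 - q.1) d : ℝ) • d‖ ≤ ρ * |(inner ℝ (q.2 - q.1) d : ℝ)|}
        from h), Set.indicator_of_mem (show z' ∈ {z' : E (m + 1) |
        ‖(z' - z) - (inner ℝ (z' - z) d : ℝ) • d‖ ≤ ρ * |(inner ℝ (z' - z) d : ℝ)|} from h)]
  · rw [Set.indicator_of_notMem (show (z, z') ∉ {q : E (m + 1) × E (m + 1) |
        ‖(q.2 - q.1) - (inner ℝ (q.2 - q.1) d : ℝ) • d‖ ≤ ρ * |(inner ℝ (q.2 - q.1) d : ℝ)|}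
        from h), Set.indicator_of_notMem (show z' ∉ {z' : E (m + 1) |
        ‖(z' - z) - (inner ℝ (z' - z) d : ℝ) • d‖ ≤ ρ * |(inner ℝ (z' - z) d : ℝ)|} from h),
        mul_zero]

/-- Finite nets. -/
theorem net {n : ℕ} (X : Set (E n)) (hX : X.Nonempty) (Ru : ℝ) (hb : ∀ x ∈ X, ‖x‖ ≤ Ru) (s : ℝ)
    (hs : 0 < s) : ∃ (I : Finset (E n × ℝ)) (D : E n → ℝ), IsD I D ∧
      (∀ q ∈ I, q.1 ∈ X ∧ q.2 = s) ∧ ∀ x ∈ X, D x ≤ 2 * s := by
  classical
  have htb : TotallyBounded X := by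
    apply (isCompact_closedBall (0 : E n) Ru).totallyBounded.subset
    intro x hx
    rw [mem_closedBall, dist_zero_right]
    exact hb x hx
  obtain ⟨t, htX, htf, hcov⟩ := finite_approx_of_totallyBounded htb s hs
  have htn : htf.toFinset.Nonempty := by
    obtain ⟨x, hx⟩ := hX
    have := hcov hx
    simp only [Set.mem_iUnion] at this
    obtain ⟨y, hy, -⟩ := this
    exact ⟨y, by simpa using hy⟩
  let I : Finset (E n × ℝ) := htf.toFinset.image fun x => (x, s)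
  have hI : I.Nonempty := htn.image _
  have hmem : ∀ q ∈ I, q.1 ∈ t ∧ q.2 = s := by
    intro q hq
    simp only [I, Finset.mem_image, Set.Finite.mem_toFinset] at hq
    obtain ⟨x, hx, rfl⟩ := hq
    exact ⟨hx, rfl⟩
  refine ⟨I, fun y => I.inf' hI fun q => ‖y - q.1‖ + q.2, ⟨?_, ?_, ?_⟩, ?_, ?_⟩
  · intro q hq
    rw [(hmem q hq).2]
    exact hs
  · intro q hq y
    exact Finset.inf'_le _ hq
  · intro y
    obtain ⟨q, hq, h⟩ := Finset.exists_mem_eq_inf' hI fun q => ‖y - q.1‖ + q.2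
    exact ⟨q, hq, h⟩
  · intro q hq
    exact ⟨htX (hmem q hq).1, (hmem q hq).2⟩
  · intro x hx
    have := hcov hx
    simp only [Set.mem_iUnion] at this
    obtain ⟨y, hy, hxy⟩ := this
    have hyI : (y, s) ∈ I := by
      simp only [I, Finset.mem_image, Set.Finite.mem_toFinset]
      exact ⟨y, hy, rfl⟩
    have h1 : (I.inf' hI fun q => ‖x - q.1‖ + q.2) ≤ ‖x - y‖ + s :=
      Finset.inf'_le (fun q : E n × ℝ => ‖x - q.1‖ + q.2) hyI
    rw [mem_ball, dist_eq_norm] at hxy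
    change (I.inf' hI fun q => ‖x - q.1‖ + q.2) ≤ 2 * s
    linarith

/-- The sets of pairs. -/
def YY {m : ℕ} (X : Set (E (m + 1))) (d : E (m + 1)) (ρ s : ℝ) : Set (E (m + 1) × E (m + 1)) :=
  {p | p.1 ∈ X ∧ p.2 - p.1 ∈ cone d ρ ∧ s ≤ ‖p.2 - p.1‖}

theorem cone_meas {m : ℕ} (d : E (m + 1)) (ρ : ℝ) : MeasurableSet (cone d ρ) := by
  unfold cone
  have h1 : MeasurableSet {z : E (m + 1) | z ≠ 0} := (measurableSet_singleton 0).compl
  have h2 : MeasurableSet {z : E (m + 1) | ‖z - ‖z‖ • d‖ ≤ ρ * ‖z‖} := by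
    apply IsClosed.measurableSet
    exact isClosed_le (by fun_prop) (by fun_prop)
  exact h1.inter h2

theorem YY_meas {m : ℕ} (X : Set (E (m + 1))) (hX : MeasurableSet X) (d : E (m + 1)) (ρ s : ℝ) :
    MeasurableSet (YY X d ρ s) := by
  have h1 : MeasurableSet {p : E (m + 1) × E (m + 1) | p.1 ∈ X} := measurable_fst hX
  have h2 : MeasurableSet {p : E (m + 1) × E (m + 1) | p.2 - p.1 ∈ cone d ρ} :=
    (measurable_snd.sub measurable_fst) (cone_meas d ρ)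
  have h3 : MeasurableSet {p : E (m + 1) × E (m + 1) | s ≤ ‖p.2 - p.1‖} := by
    apply IsClosed.measurableSet
    exact isClosed_le (by fun_prop) (by fun_prop)
  exact h1.inter (h2.inter h3)

/-- The potential. -/
noncomputable def ff {m : ℕ} (p : E (m + 1) × E (m + 1)) : ℝ≥0∞ :=
  ENNReal.ofReal ((‖p.2 - p.1‖ ^ m)⁻¹)

theorem ff_meas {m : ℕ} : Measurable (ff (m := m)) := by
  unfold ff
  apply ENNReal.measurable_ofReal.comp
  apply Measurable.inv
  have : Continuous (fun p : E (m + 1) × E (m + 1) => ‖p.2 - p.1‖ ^ m) := by fun_prop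
  exact this.measurable

theorem pw {m : ℕ} (d : E (m + 1)) (ρ ε T : ℝ) (hd : ‖d‖ = 1) (hρ : 0 < ρ)
    (hρ1 : ρ ≤ 1) (hε : 0 < ε) (hερ : ε ≤ ρ / 100) (hT : 0 < T)
    (D : E (m + 1) → ℝ) (x y : E (m + 1)) (hTe : ‖y - x‖ = T)
    (hc : ‖(y - x) - ‖y - x‖ • d‖ ≤ ρ / 20 * ‖y - x‖) (hD1 : D x ≤ 2 * T) (hD2 : D y ≤ 3 * T)
    (q : E (m + 1) × E (m + 1)) :
    aa D ε x q.1 * aa D ε y q.2 * ENNReal.ofReal (((2 * T) ^ m)⁻¹) ≤
        aa D ε x q.1 * aa D ε y q.2 * psi d ρ q := by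
  by_cases h1 : ‖q.1 - x‖ < ε * D x / 2
  · by_cases h2 : ‖q.2 - y‖ < ε * D y / 2
    · obtain ⟨g1, g2, g3⟩ := geo d x y q.1 q.2 ρ ε (D x) (D y) hd hρ hρ1 hε hερ (by rw [hTe]; exact hT)
        hc h1 h2 (by rw [hTe]; exact hD1) (by rw [hTe]; exact hD2)
      rw [hTe] at g3
      refine mul_le_mul_right ?_ _
      unfold psi
      rw [Set.indicator_of_mem (show q ∈ {q : E (m + 1) × E (m + 1) |
        ‖(q.2 - q.1) - (inner ℝ (q.2 - q.1) d : ℝ) • d‖ ≤
          ρ * |(inner ℝ (q.2 - q.1) d : ℝ)|} from g1)]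
      apply ENNReal.ofReal_le_ofReal
      apply inv_anti₀ (pow_pos g2 m)
      exact pow_le_pow_left₀ g2.le g3 m
    · have h3 : aa D ε y q.2 = 0 := by
        unfold aa
        rw [if_neg h2]
      rw [h3, mul_zero, zero_mul, zero_mul]
  · have h3 : aa D ε x q.1 = 0 := by
      unfold aa
      rw [if_neg h1]
    rw [h3, zero_mul, zero_mul, zero_mul]

theorem prodint {m : ℕ} (D : E (m + 1) → ℝ) (ε : ℝ) (x y : E (m + 1)) (c₀ r : ℝ≥0∞)
    (haint : ∀ x, ∫⁻ z, aa D ε x z = c₀) (ham : Measurable (Function.uncurry (aa D ε))) :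
    ∫⁻ q : E (m + 1) × E (m + 1), aa D ε x q.1 * aa D ε y q.2 * r
      ∂((volume : Measure (E (m + 1))).prod (volume : Measure (E (m + 1)))) =
        c₀ * c₀ * r := by
  have ha1 : ∀ x, Measurable (aa D ε x) := fun x => ham.of_uncurry_left
  have hmm : Measurable (fun q : E (m + 1) × E (m + 1) =>
      aa D ε x q.1 * aa D ε y q.2) :=
    ((ha1 x).comp measurable_fst).mul ((ha1 y).comp measurable_snd)
  rw [lintegral_mul_const _ hmm]
  have h5 := lintegral_prod_mul (μ := (volume : Measure (E (m + 1))))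
    (ν := (volume : Measure (E (m + 1)))) (ha1 x).aemeasurable (ha1 y).aemeasurable
  rw [h5, haint, haint]

/-- The estimate for one scale. -/
theorem scale {m : ℕ} (d : E (m + 1)) (ρ ε s : ℝ) (hd : ‖d‖ = 1) (hρ : 0 < ρ)
    (hρ1 : ρ ≤ 1) (hε : 0 < ε) (hερ : ε ≤ ρ / 100) (hε1 : ε ≤ 1 / 400) (hs : 0 < s)
    (D : E (m + 1) → ℝ) (hpos : ∀ y, 0 < D y) (hlip : ∀ x y, |D x - D y| ≤ ‖x - y‖)
    (hDc : Continuous D) (X : Set (E (m + 1))) (hX : MeasurableSet X)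
    (hDX : ∀ x ∈ X, D x ≤ 2 * s) (μ : Measure (E (m + 1))) [IsFiniteMeasure μ]
    (hG : Measurable (Av D μ ε)) (c₀ : ℝ≥0∞)
    (haint : ∀ x, ∫⁻ z, aa D ε x z = c₀) :
    c₀ * c₀ * ENNReal.ofReal ((2 ^ m)⁻¹) * ∫⁻ p in YY X d (ρ / 20) s, ff p ∂(μ.prod μ) ≤
      ∫⁻ z, ∫⁻ z', Av D μ ε z * Av D μ ε z' * psi d ρ (z, z') := by
  have ham := aa_meas D ε hDc
  refine le_trans ?_ (tonelli μ volume (aa D ε) (Av D μ ε) (psi d ρ) ham hG (psi_meas d ρ)
    (fun z => G_low D ε hε hε1 hpos hlip μ z))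
  rw [← lintegral_indicator (YY_meas X hX d (ρ / 20) s), ← lintegral_const_mul _
    (ff_meas.indicator (YY_meas X hX d (ρ / 20) s))]
  refine lintegral_mono fun p => ?_
  by_cases hp : p ∈ YY X d (ρ / 20) s
  · rw [Set.indicator_of_mem hp]
    obtain ⟨hpX, hpc, hps⟩ := hp
    have hT0 : 0 < ‖p.2 - p.1‖ := lt_of_lt_of_le hs hps
    have hD1 : D p.1 ≤ 2 * ‖p.2 - p.1‖ := (hDX _ hpX).trans (by linarith)
    have hD2 : D p.2 ≤ 3 * ‖p.2 - p.1‖ := by
      have h := (abs_le.mp (hlip p.2 p.1)).2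
      have := hDX _ hpX
      linarith
    have hlow := pw d ρ ε ‖p.2 - p.1‖ hd hρ hρ1 hε hερ hT0 D p.1 p.2 rfl hpc.2 hD1 hD2
    have h4 := prodint D ε p.1 p.2 c₀ (ENNReal.ofReal (((2 * ‖p.2 - p.1‖) ^ m)⁻¹)) haint ham
    have h7 : c₀ * c₀ * ENNReal.ofReal ((2 ^ m)⁻¹) * ff p =
        c₀ * c₀ * ENNReal.ofReal (((2 * ‖p.2 - p.1‖) ^ m)⁻¹) := by
      unfold ff
      rw [mul_assoc, ← ENNReal.ofReal_mul (by positivity), ← mul_inv, ← mul_pow]
    rw [h7, ← h4]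
    exact lintegral_mono hlow
  · rw [Set.indicator_of_notMem hp, mul_zero]
    exact bot_le

/-- From the scales to the full cone. -/
theorem fromscales {m : ℕ} (X : Set (E (m + 1))) (hX : MeasurableSet X) (d : E (m + 1))
    (ρ R : ℝ) (hR : 0 < R) (μ : Measure (E (m + 1))) [IsFiniteMeasure μ] (C : ℝ≥0∞)
    (h : ∀ s : ℝ, 0 < s → s < R → ∫⁻ p in YY X d ρ s, ff p ∂(μ.prod μ) ≤ C) :
    ∫⁻ x in X, (∫⁻ y in {y | y - x ∈ cone d ρ}, ENNReal.ofReal ((‖y - x‖ ^ m)⁻¹) ∂μ) ∂μ ≤ C := by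
  have hpos : ∀ k : ℕ, 0 < R / ((k : ℝ) + 2) := fun k => by positivity
  have hlt : ∀ k : ℕ, R / ((k : ℝ) + 2) < R := by
    intro k
    rw [div_lt_iff₀ (by positivity)]
    nlinarith
  have hanti : ∀ k l : ℕ, k ≤ l → R / ((l : ℝ) + 2) ≤ R / ((k : ℝ) + 2) := by
    intro k l hkl
    have : (k : ℝ) ≤ l := by exact_mod_cast hkl
    exact div_le_div_of_nonneg_left hR.le (by positivity) (by linarith)
  have hmono : Monotone (fun k : ℕ => YY X d ρ (R / ((k : ℝ) + 2))) := by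
    intro k l hkl p hp
    exact ⟨hp.1, hp.2.1, (hanti k l hkl).trans hp.2.2⟩
  have hU : (⋃ k : ℕ, YY X d ρ (R / ((k : ℝ) + 2))) =
      {p : E (m + 1) × E (m + 1) | p.1 ∈ X ∧ p.2 - p.1 ∈ cone d ρ} := by
    apply Set.eq_of_subset_of_subset
    · intro p hp
      rw [Set.mem_iUnion] at hp
      obtain ⟨k, hk⟩ := hp
      exact ⟨hk.1, hk.2.1⟩
    · intro p hp
      have hn : 0 < ‖p.2 - p.1‖ := norm_pos_iff.mpr hp.2.1
      obtain ⟨k, hk⟩ := exists_nat_gt (R / ‖p.2 - p.1‖)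
      rw [Set.mem_iUnion]
      refine ⟨k, hp.1, hp.2, ?_⟩
      rw [div_le_iff₀ (by positivity)]
      rw [div_lt_iff₀ hn] at hk
      nlinarith
  have h1 : ∫⁻ p in {p : E (m + 1) × E (m + 1) | p.1 ∈ X ∧ p.2 - p.1 ∈ cone d ρ},
      ff p ∂(μ.prod μ) ≤ C := by
    rw [← hU, setLIntegral_iUnion_of_directed _ hmono.directed_le]
    exact iSup_le fun k => h _ (hpos k) (hlt k)
  have hYm : MeasurableSet {p : E (m + 1) × E (m + 1) | p.1 ∈ X ∧ p.2 - p.1 ∈ cone d ρ} := by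
    rw [← hU]
    exact MeasurableSet.iUnion fun k => YY_meas X hX d ρ _
  refine le_trans (le_of_eq ?_) h1
  rw [← lintegral_indicator hYm, lintegral_prod _ (ff_meas.indicator hYm).aemeasurable,
    ← lintegral_indicator hX]
  congr 1
  funext x
  by_cases hx : x ∈ X
  · rw [Set.indicator_of_mem hx]
    have hc : MeasurableSet {y : E (m + 1) | y - x ∈ cone d ρ} :=
      (measurable_id.sub_const x) (cone_meas d ρ)
    rw [← lintegral_indicator hc]
    congr 1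
    funext y
    by_cases hy : y - x ∈ cone d ρ
    · rw [Set.indicator_of_mem (show y ∈ {y : E (m + 1) | y - x ∈ cone d ρ} from hy),
        Set.indicator_of_mem (show (x, y) ∈ {p : E (m + 1) × E (m + 1) | p.1 ∈ X ∧
          p.2 - p.1 ∈ cone d ρ} from ⟨hx, hy⟩)]
      rfl
    · rw [Set.indicator_of_notMem (show y ∉ {y : E (m + 1) | y - x ∈ cone d ρ} from hy),
        Set.indicator_of_notMem (show (x, y) ∉ {p : E (m + 1) × E (m + 1) | p.1 ∈ X ∧
          p.2 - p.1 ∈ cone d ρ} from fun hh => hy hh.2)]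
  · rw [Set.indicator_of_notMem hx]
    have h0 : ∀ y, Set.indicator {p : E (m + 1) × E (m + 1) | p.1 ∈ X ∧ p.2 - p.1 ∈ cone d ρ}
        ff (x, y) = 0 := fun y => Set.indicator_of_notMem (fun hh => hx hh.1) _
    simp only [h0, lintegral_zero]

end CVB_

open CVB_ in
theorem cvb_proof (h1 : Stmt_MAI) (h2 : Stmt_SLI) (h3 : Stmt_CVA) (h4 : Stmt_BSA)
    (h5 : Stmt_BSV) (h6 : Stmt_BSM) : Stmt_CVB := by
  intro m N K ℓ A hA c ρ hc hρ hρ1
  obtain ⟨ε, hε, hερ, hε1, η, hη, hmain⟩ := h1 m N K ℓ A hA c (ρ / 100) hc (by positivity)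
  refine ⟨η, hη, ?_⟩
  intro Ru u μ g hp w hw d hd hell R hR X hXm hX
  have hfin : IsFiniteMeasure μ := hp.fin
  rcases X.eq_empty_or_nonempty with hXe | hXn
  · rw [hXe]
    simp
  obtain ⟨C, hC, hJ⟩ := hmain Ru u μ g hp w hw R hR
  obtain ⟨Φ, hΦd, hΦn, hΦi, hΦm, hΦS⟩ := h2 m d hd
  obtain ⟨v, hv0, hvt, hv⟩ := h5 (m + 1)
  set c₀ : ℝ≥0∞ := ENNReal.ofReal ((1 / 3) ^ (m + 1)) * v with hc₀
  set C1 : ℝ≥0∞ := C * volume (closedBall (0 : E m) ρ) with hC1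
  have hC1t : C1 ≠ ⊤ := ENNReal.mul_ne_top hC measure_closedBall_lt_top.ne
  set A0 : ℝ≥0∞ := c₀ * c₀ * ENNReal.ofReal ((2 ^ m)⁻¹) with hA0
  have hc0 : c₀ ≠ 0 := by
    rw [hc₀]
    refine mul_ne_zero ?_ hv0
    have : (0 : ℝ) < (1 / 3) ^ (m + 1) := by positivity
    exact (ENNReal.ofReal_pos.mpr this).ne'
  have hc0t : c₀ ≠ ⊤ := ENNReal.mul_ne_top ENNReal.ofReal_ne_top hvt
  have hA00 : A0 ≠ 0 := by
    refine mul_ne_zero (mul_ne_zero hc0 hc0) ?_
    have : (0 : ℝ) < (2 ^ m)⁻¹ := by positivity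
    exact (ENNReal.ofReal_pos.mpr this).ne'
  have hA0t : A0 ≠ ⊤ :=
    ENNReal.mul_ne_top (ENNReal.mul_ne_top hc0t hc0t) ENNReal.ofReal_ne_top
  have key : ∀ s : ℝ, 0 < s → s < R →
      ∫⁻ p in YY X d (ρ / 20) s, ff p ∂(μ.prod μ) ≤ C1 / A0 := by
    intro s hs hsR
    obtain ⟨I, D, hD, hI, hDX⟩ := net X hXn Ru (fun x hx => (hX x hx).1) s hs
    obtain ⟨hpos, hlip, hDc, -⟩ := h4 (m + 1) I D hD
    have hG : Measurable (Av D μ ε) := by
      unfold Av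
      have hb := (h6 (m + 1) μ (fun y => ε * D y) (continuous_const.mul hDc)).1
      refine hb.div ?_
      apply ENNReal.measurable_ofReal.comp
      exact ((continuous_const.mul hDc).pow (m + 1)).measurable
    have hIc : ∀ q ∈ I, ‖q.1‖ ≤ Ru ∧ q.2 < R ∧ K1 μ g w η q.2 R q.1 := by
      intro q hq
      obtain ⟨hq1, hq2⟩ := hI q hq
      refine ⟨(hX _ hq1).1, by rw [hq2]; exact hsR, ?_⟩
      intro r hr hsr hrR
      exact (hX _ hq1).2 r hr hr.le hrR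
    have hscale := scale d ρ ε s hd hρ hρ1 hε hερ hε1 hs D hpos hlip hDc X hXm hDX μ hG c₀
      (aa_int D ε hε hpos v (fun x r hr => (hv x r hr).1))
    rw [psi_int d ρ (Av D μ ε)] at hscale
    have hcva := h3 m d Φ hd hΦd hΦn hΦi hΦm ρ (Av D μ ε) hρ.le hG
    have hup : ∫⁻ θ in closedBall (0 : E m) ρ,
        ∫⁻ p, (∫⁻ t, Av D μ ε (Φ (p + t • θ, t))) ^ 2 ≤ C1 := by
      calc (∫⁻ θ in closedBall (0 : E m) ρ,
          ∫⁻ p, (∫⁻ t, Av D μ ε (Φ (p + t • θ, t))) ^ 2) ≤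
          ∫⁻ θ in closedBall (0 : E m) ρ, C := by
            refine setLIntegral_mono' measurableSet_closedBall fun θ hθ => ?_
            rw [mem_closedBall, dist_zero_right] at hθ
            obtain ⟨S, hS⟩ := hΦS θ (hθ.trans hρ1)
            have hdir : S.dir = Φ (θ, 1) := by
              unfold Slice.dir
              rw [hS, zero_add, one_smul]
            have hsub : S.dir - d = Φ (θ, 0) := by
              rw [hdir, ← hΦd, ← map_sub]
              simp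
            have hnorm : ‖S.dir - d‖ ≤ ρ := by
              rw [hsub]
              have h := hΦn θ 0
              have h' : ‖Φ (θ, 0)‖ = ‖θ‖ := by
                have h0 : ‖Φ (θ, 0)‖ ^ 2 = ‖θ‖ ^ 2 := by rw [h]; ring
                exact (pow_left_inj₀ (norm_nonneg _) (norm_nonneg _) two_ne_zero).mp h0
              rw [h']
              exact hθ
            have := hJ S (hell _ hnorm) I D hD hIc
            unfold J at this
            simp only [hS] at this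
            exact this
        _ = C1 := by rw [setLIntegral_const]
    have hfinal : A0 * ∫⁻ p in YY X d (ρ / 20) s, ff p ∂(μ.prod μ) ≤ C1 :=
      hscale.trans (hcva.trans hup)
    rw [ENNReal.le_div_iff_mul_le (Or.inl hA00) (Or.inl hA0t), mul_comm]
    exact hfinal
  have hle := fromscales X hXm d (ρ / 20) R hR μ (C1 / A0) key
  exact ne_top_of_le_ne_top (ENNReal.div_ne_top hC1t hA00) hle

end Pool.Agent.CEL
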