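import Pool.Agent.CEL.Stmts

/-!
# CEL, module DID (helper99)

Derivatives of order `ℓ` of `w` are combinations of derivatives of order `ℓ - 1` of `B w`.
-/

set_option autoImplicit false
open Topology Filter MeasureTheory Matrix Metric
open scoped ENNReal

namespace Pool.Agent.CEL.DID_

variable {n N K : ℕ}

/-- Smooth functions. -/
def V (n : ℕ) : Submodule ℝ (E n → ℝ) where
  carrier := {f | ContDiff ℝ (⊤ : ℕ∞) f}
  add_mem' := fun {f g} hf hg => by
    have h1 : ContDiff ℝ (⊤ : ℕ∞) f := hf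
    have h2 : ContDiff ℝ (⊤ : ℕ∞) g := hg
    exact h1.add h2
  zero_mem' := by
    show ContDiff ℝ (⊤ : ℕ∞) (fun _ : E n => (0 : ℝ))
    exact contDiff_const
  smul_mem' := fun c f hf => by
    have h1 : ContDiff ℝ (⊤ : ℕ∞) f := hf
    exact h1.const_smul c

lemma V_smooth (f : V n) : ContDiff ℝ (⊤ : ℕ∞) f.1 := f.2

lemma smooth_fderiv {F : Type*} [NormedAddCommGroup F] [NormedSpace ℝ F] {f : E n → F}
    (hf : ContDiff ℝ (⊤ : ℕ∞) f) : ContDiff ℝ (⊤ : ℕ∞) (fderiv ℝ f) :=
  hf.fderiv_right (by simp)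

lemma smooth_fderiv_apply {F : Type*} [NormedAddCommGroup F] [NormedSpace ℝ F] {f : E n → F}
    (hf : ContDiff ℝ (⊤ : ℕ∞) f) (v : E n) :
    ContDiff ℝ (⊤ : ℕ∞) (fun x => fderiv ℝ f x v) :=
  (smooth_fderiv hf).clm_apply contDiff_const

lemma one_le_top : (((⊤ : ℕ∞) : WithTop ℕ∞)) ≠ 0 := by simp

lemma smooth_diff {F : Type*} [NormedAddCommGroup F] [NormedSpace ℝ F] {f : E n → F}
    (hf : ContDiff ℝ (⊤ : ℕ∞) f) : Differentiable ℝ f := hf.differentiable one_le_top

/-- Partial derivatives. -/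
noncomputable def D (j : Fin n) : V n →ₗ[ℝ] V n where
  toFun f := ⟨fun x => fderiv ℝ f.1 x (bs j), smooth_fderiv_apply f.2 _⟩
  map_add' f g := by
    apply Subtype.ext
    funext x
    show fderiv ℝ (f.1 + g.1) x (bs j) = fderiv ℝ f.1 x (bs j) + fderiv ℝ g.1 x (bs j)
    rw [fderiv_add (smooth_diff f.2 x) (smooth_diff g.2 x)]
    rfl
  map_smul' c f := by
    apply Subtype.ext
    funext x
    show fderiv ℝ (c • f.1) x (bs j) = c • fderiv ℝ f.1 x (bs j)
    rw [fderiv_const_smul (smooth_diff f.2 x)]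
    rfl

lemma D_apply (j : Fin n) (f : V n) (x : E n) : (D j f).1 x = fderiv ℝ f.1 x (bs j) := rfl

lemma D_comm (i j : Fin n) : (D i : Module.End ℝ (V n)) * D j = D j * D i := by
  apply LinearMap.ext
  intro f
  apply Subtype.ext
  funext x
  show fderiv ℝ (fun y => fderiv ℝ f.1 y (bs j)) x (bs i) =
    fderiv ℝ (fun y => fderiv ℝ f.1 y (bs i)) x (bs j)
  have hd : DifferentiableAt ℝ (fderiv ℝ f.1) x := smooth_diff (smooth_fderiv f.2) x
  rw [fderiv_clm_apply hd (differentiableAt_const _), fderiv_clm_apply hd (differentiableAt_const _)]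
  have hs : IsSymmSndFDerivAt ℝ f.1 x := by
    apply (V_smooth f).contDiffAt.isSymmSndFDerivAt
    rw [minSmoothness_of_isRCLikeNormedField]
    exact WithTop.coe_le_coe.2 (le_top : (2 : ℕ∞) ≤ ⊤)
  simpa using hs (bs i) (bs j)

open scoped IsMulCommutative in
lemma exPhi_abs {A : Type*} [Ring A] [Algebra ℝ A] (d : Fin n → A)
    (hc : ∀ i j, d i * d j = d j * d i) :
    ∃ Φ : MvPolynomial (Fin n) ℝ →ₐ[ℝ] A, ∀ j, Φ (MvPolynomial.X j) = d j := by
  have hc' : ∀ a ∈ Set.range d, ∀ b ∈ Set.range d, a * b = b * a := by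
    rintro _ ⟨i, rfl⟩ _ ⟨j, rfl⟩
    exact hc i j
  have := Algebra.isMulCommutative_adjoin ℝ hc'
  let φ : MvPolynomial (Fin n) ℝ →ₐ[ℝ] (Algebra.adjoin ℝ (Set.range d)) :=
    MvPolynomial.aeval (fun j => ⟨d j, Algebra.subset_adjoin ⟨j, rfl⟩⟩)
  refine ⟨(Subalgebra.val _).comp φ, fun j => ?_⟩
  simp [φ]

lemma exPhi : ∃ Φ : MvPolynomial (Fin n) ℝ →ₐ[ℝ] Module.End ℝ (V n),
    ∀ j, Φ (MvPolynomial.X j) = D j :=
  exPhi_abs (fun j => (D j : Module.End ℝ (V n))) D_comm

/-- Iterated derivatives by monomials. -/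
lemma iter_eq (Φ : MvPolynomial (Fin n) ℝ →ₐ[ℝ] Module.End ℝ (V n))
    (hΦ : ∀ j, Φ (MvPolynomial.X j) = D j) (f : V n) (k : ℕ) (b : Fin k → Fin n) (x : E n) :
    iteratedFDeriv ℝ k f.1 x (fun i => bs (b i)) =
      (Φ (∏ i, MvPolynomial.X (b i)) f).1 x := by
  induction k generalizing x with
  | zero => simp
  | succ k ih =>
    rw [iteratedFDeriv_succ_apply_left, Fin.prod_univ_succ, map_mul, hΦ, Module.End.mul_apply,
      D_apply]
    have h1 : (Φ (∏ i : Fin k, MvPolynomial.X (b i.succ)) f).1 =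
        fun y => iteratedFDeriv ℝ k f.1 y (fun i => bs (b i.succ)) := by
      funext y
      exact (ih (fun i => b i.succ) y).symm
    rw [h1]
    have hd : DifferentiableAt ℝ (iteratedFDeriv ℝ k f.1) x :=
      ((V_smooth f).differentiable_iteratedFDeriv
        (by exact_mod_cast WithTop.coe_lt_top k)) x
    have h2 := (hd.hasFDerivAt.continuousMultilinear_apply_const
      (fun i : Fin k => (bs (b i.succ) : E n))).fderiv
    rw [h2]
    rfl

/-- Homogeneous polynomials as combinations of products of variables. -/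
lemma homog_repr (d : ℕ) (p : MvPolynomial (Fin n) ℝ) (hp : p.IsHomogeneous d) :
    ∃ c : (Fin d → Fin n) → ℝ, p = ∑ b, c b • ∏ i, MvPolynomial.X (b i) := by
  let T : ((Fin d → Fin n) → ℝ) →ₗ[ℝ] MvPolynomial (Fin n) ℝ :=
    { toFun := fun c => ∑ b, c b • ∏ i, MvPolynomial.X (b i)
      map_add' := fun c c' => by simp [add_smul, Finset.sum_add_distrib]
      map_smul' := fun r c => by simp [mul_smul, Finset.smul_sum] }
  suffices h : p ∈ LinearMap.range T by
    obtain ⟨c, hc⟩ := h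
    exact ⟨c, hc.symm⟩
  rw [p.as_sum]
  refine Submodule.sum_mem _ (fun m hm => ?_)
  have hdeg : m.degree = d := by
    have := hp (MvPolynomial.mem_support_iff.mp hm)
    rw [← this, Finsupp.degree_eq_weight_one]
    rfl
  have hcard : (Finsupp.toMultiset m).toList.length = d := by
    rw [Multiset.length_toList, Finsupp.card_toMultiset]
    rw [← hdeg, Finsupp.degree_apply]
    rfl
  have hprod : ((Finsupp.toMultiset m).toList.map
      (fun j => (MvPolynomial.X j : MvPolynomial (Fin n) ℝ))).prod = MvPolynomial.monomial m 1 := by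
    rw [← Multiset.prod_coe, ← Multiset.map_coe, Multiset.coe_toList,
      MvPolynomial.monomial_eq, MvPolynomial.C_1, one_mul]
    rw [Finsupp.toMultiset_map, Finsupp.prod_toMultiset]
    rw [Finsupp.prod_mapDomain_index (by simp) (by intros; exact pow_add _ _ _)]
  generalize (Finsupp.toMultiset m).toList = l at hcard hprod
  subst hcard
  have h1 : T (Pi.single l.get 1) = MvPolynomial.monomial m 1 := by
    show ∑ b, (Pi.single l.get (1 : ℝ) : (Fin l.length → Fin n) → ℝ) b •
      ∏ i, (MvPolynomial.X (b i) : MvPolynomial (Fin n) ℝ) = _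
    rw [Finset.sum_eq_single l.get]
    · rw [Pi.single_eq_same, one_smul, ← hprod]
      conv_rhs => rw [← List.ofFn_get l]
      rw [List.map_ofFn, List.prod_ofFn]
      rfl
    · intro b _ hb
      rw [Pi.single_eq_of_ne hb, zero_smul]
    · intro h
      exact absurd (Finset.mem_univ _) h
  have h2 : MvPolynomial.monomial m (MvPolynomial.coeff m p) =
      (MvPolynomial.coeff m p) • (MvPolynomial.monomial m 1 : MvPolynomial (Fin n) ℝ) := by
    rw [MvPolynomial.smul_monomial, smul_eq_mul, mul_one]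
  rw [h2, ← h1]
  exact Submodule.smul_mem _ _ ⟨_, rfl⟩

lemma comp_smooth {M : ℕ} {w : E n → (Fin M → ℝ)} (hw : ContDiff ℝ (⊤ : ℕ∞) w) (i : Fin M) :
    ContDiff ℝ (⊤ : ℕ∞) (fun x => w x i) := (contDiff_pi.1 hw) i

/-- Components of iterated derivatives. -/
lemma iter_comp {M : ℕ} {w : E n → (Fin M → ℝ)} (hw : ContDiff ℝ (⊤ : ℕ∞) w) (k : ℕ) (x : E n)
    (v : Fin k → E n) (i : Fin M) :
    iteratedFDeriv ℝ k w x v i = iteratedFDeriv ℝ k (fun y => w y i) x v := by
  have h := (ContinuousLinearMap.proj (R := ℝ) (φ := fun _ : Fin M => ℝ) i).iteratedFDeriv_comp_left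
    (f := w) (x := x) (n := (⊤ : ℕ∞)) hw.contDiffAt (i := k)
    (by exact_mod_cast (le_top : (k : ℕ∞) ≤ ⊤))
  have h2 : ((ContinuousLinearMap.proj (R := ℝ) (φ := fun _ : Fin M => ℝ) i) ∘ w) =
      (fun y => w y i) := rfl
  rw [h2] at h
  rw [h]
  rfl

end Pool.Agent.CEL.DID_

namespace Pool.Agent.CEL
open DID_

/-- Module DID. -/
theorem did_proof : Stmt_DID := by
  intro n N K ℓ A hA a
  obtain ⟨Φ, hΦ⟩ := exPhi (n := n)
  -- the multi-index of `a`
  set β : Fin n → ℕ := fun j => (Finset.univ.filter (fun i => a i = j)).card with hβ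
  have hβs : ∑ j, β j = ℓ := by
    have := Finset.card_eq_sum_card_fiberwise (f := a) (s := Finset.univ) (t := Finset.univ)
      (fun _ _ => Finset.mem_univ _)
    rw [Finset.card_univ, Fintype.card_fin] at this
    exact this.symm
  obtain ⟨L, hLh, hL⟩ := hA.2 β hβs
  choose c hc using fun i k => homog_repr (ℓ - 1) (L i k) (hLh i k)
  refine ⟨fun b => Matrix.of (fun i k => c i k b), fun w hw _ x => ?_⟩
  have hprod : (∏ i, (MvPolynomial.X (a i) : MvPolynomial (Fin n) ℝ)) =
      ∏ j, (MvPolynomial.X j : MvPolynomial (Fin n) ℝ) ^ β j := by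
    rw [← Finset.prod_fiberwise Finset.univ a (fun i => (MvPolynomial.X (a i) : MvPolynomial (Fin n) ℝ))]
    refine Finset.prod_congr rfl (fun j _ => ?_)
    rw [hβ, ← Finset.prod_const]
    refine Finset.prod_congr rfl (fun i hi => ?_)
    rw [(Finset.mem_filter.1 hi).2]
  -- components
  let W : Fin N → V n := fun i => ⟨fun y => w y i, comp_smooth hw i⟩
  have hBw : ContDiff ℝ (⊤ : ℕ∞) (BD A w) := by
    unfold BD
    refine ContDiff.sum (fun j _ => ?_)
    exact ((LinearMap.toContinuousLinearMap (Matrix.mulVecLin (A j))).contDiff).comp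
      (smooth_fderiv_apply hw (bs j))
  let Z : Fin K → V n := fun k => ⟨fun y => BD A w y k, comp_smooth hBw k⟩
  have hZ : ∀ k, Z k = ∑ i', Φ ((∑ j, (MvPolynomial.X j : MvPolynomial (Fin n) ℝ) •
      (A j).map MvPolynomial.C) k i') (W i') := by
    intro k
    have hent : ∀ i', Φ ((∑ j, (MvPolynomial.X j : MvPolynomial (Fin n) ℝ) •
        (A j).map MvPolynomial.C) k i') = ∑ j, (A j k i') • (D j : Module.End ℝ (V n)) := by
      intro i'
      rw [Matrix.sum_apply, map_sum]
      refine Finset.sum_congr rfl (fun j _ => ?_)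
      rw [Matrix.smul_apply, Matrix.map_apply, smul_eq_mul, mul_comm, ← MvPolynomial.smul_eq_C_mul,
        map_smul, hΦ]
    have hstep : ∑ i', Φ ((∑ j, (MvPolynomial.X j : MvPolynomial (Fin n) ℝ) •
        (A j).map MvPolynomial.C) k i') (W i') = ∑ i', ∑ j, (A j k i') • (D j (W i')) := by
      refine Finset.sum_congr rfl (fun i' _ => ?_)
      rw [hent i', LinearMap.sum_apply]
      rfl
    rw [hstep]
    apply Subtype.ext
    funext y
    have hcoe : (∑ i', ∑ j, (A j k i') • (D j (W i'))).1 y =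
        ∑ i', ∑ j, A j k i' * fderiv ℝ (fun y => w y i') y (bs j) := by
      have : ((∑ i', ∑ j, (A j k i') • (D j (W i')) : V n) : E n → ℝ) =
          ∑ i', ∑ j, (A j k i') • ((D j (W i') : V n) : E n → ℝ) := by
        rw [Submodule.coe_sum]
        refine Finset.sum_congr rfl (fun i' _ => ?_)
        rw [Submodule.coe_sum]
        rfl
      rw [this, Finset.sum_apply]
      refine Finset.sum_congr rfl (fun i' _ => ?_)
      rw [Finset.sum_apply]
      rfl
    rw [hcoe]
    show (BD A w y) k = _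
    rw [BD, Finset.sum_apply, Finset.sum_comm]
    refine Finset.sum_congr rfl (fun j _ => ?_)
    show ∑ i', A j k i' * (fderiv ℝ w y (bs j)) i' = _
    refine Finset.sum_congr rfl (fun i' _ => ?_)
    congr 1
    have hd := (hasFDerivAt_pi'.1 ((smooth_diff hw) y).hasFDerivAt i').fderiv
    rw [hd]
    rfl
  funext i
  rw [iter_comp hw]
  have h1 := iter_eq Φ hΦ (W i) ℓ a x
  have h1' : iteratedFDeriv ℝ ℓ (fun y => w y i) x (fun t => bs (a t)) =
      (Φ (∏ i, MvPolynomial.X (a i)) (W i)).1 x := h1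
  rw [h1', hprod]
  have h2 : Φ (∏ j, (MvPolynomial.X j : MvPolynomial (Fin n) ℝ) ^ β j) (W i) =
      ∑ k, Φ (L i k) (Z k) := by
    have hrow : ∀ i', (if i = i' then
        (∏ j, (MvPolynomial.X j : MvPolynomial (Fin n) ℝ) ^ β j) else 0) =
        ∑ k, L i k * (∑ j, (MvPolynomial.X j : MvPolynomial (Fin n) ℝ) •
          (A j).map MvPolynomial.C) k i' := by
      intro i'
      have h := congrFun (congrFun hL i) i'
      have h5 : ∑ k, L i k * (∑ j, (MvPolynomial.X j : MvPolynomial (Fin n) ℝ) •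
          (A j).map MvPolynomial.C) k i' = (L * (∑ j, (MvPolynomial.X j : MvPolynomial (Fin n) ℝ) •
          (A j).map MvPolynomial.C) : Matrix (Fin N) (Fin N) (MvPolynomial (Fin n) ℝ)) i i' := rfl
      rw [h5, h, Matrix.smul_apply, Matrix.one_apply, smul_eq_mul, mul_ite, mul_one, mul_zero]
    have hA1 : Φ (∏ j, (MvPolynomial.X j : MvPolynomial (Fin n) ℝ) ^ β j) (W i) =
        ∑ i', Φ (if i = i' then
          (∏ j, (MvPolynomial.X j : MvPolynomial (Fin n) ℝ) ^ β j) else 0) (W i') := by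
      rw [Finset.sum_eq_single i]
      · rw [if_pos rfl]
      · intro i' _ hne
        rw [if_neg (Ne.symm hne), map_zero]
        rfl
      · intro h
        exact absurd (Finset.mem_univ _) h
    rw [hA1]
    have hA2 : ∀ i', Φ (if i = i' then
          (∏ j, (MvPolynomial.X j : MvPolynomial (Fin n) ℝ) ^ β j) else 0) (W i') =
        ∑ k, Φ (L i k) (Φ ((∑ j, (MvPolynomial.X j : MvPolynomial (Fin n) ℝ) •
          (A j).map MvPolynomial.C) k i') (W i')) := by
      intro i'
      rw [hrow i', map_sum, LinearMap.sum_apply]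
      refine Finset.sum_congr rfl (fun k _ => ?_)
      rw [map_mul, Module.End.mul_apply]
    rw [Finset.sum_congr rfl (fun i' _ => hA2 i'), Finset.sum_comm]
    refine Finset.sum_congr rfl (fun k _ => ?_)
    rw [hZ k, map_sum]
  rw [h2]
  have hcoe2 : (∑ k, Φ (L i k) (Z k)).1 x = ∑ k, (Φ (L i k) (Z k)).1 x := by
    have : ((∑ k, Φ (L i k) (Z k) : V n) : E n → ℝ) = ∑ k, ((Φ (L i k) (Z k) : V n) : E n → ℝ) := by
      rw [Submodule.coe_sum]
    rw [this, Finset.sum_apply]
  rw [hcoe2]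
  have h3 : ∀ k, (Φ (L i k) (Z k)).1 x = ∑ b, c i k b *
      iteratedFDeriv ℝ (ℓ - 1) (BD A w) x (fun t => bs (b t)) k := by
    intro k
    rw [hc i k, map_sum, LinearMap.sum_apply]
    have hcoe3 : (∑ b, (Φ (c i k b • ∏ t, MvPolynomial.X (b t))) (Z k)).1 x =
        ∑ b, ((Φ (c i k b • ∏ t, MvPolynomial.X (b t))) (Z k)).1 x := by
      have : ((∑ b, (Φ (c i k b • ∏ t, MvPolynomial.X (b t))) (Z k) : V n) : E n → ℝ) =
          ∑ b, (((Φ (c i k b • ∏ t, MvPolynomial.X (b t))) (Z k) : V n) : E n → ℝ) := by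
        rw [Submodule.coe_sum]
      rw [this, Finset.sum_apply]
    rw [hcoe3]
    refine Finset.sum_congr rfl (fun b _ => ?_)
    rw [map_smul, iter_comp hBw]
    have h4 := iter_eq Φ hΦ (Z k) (ℓ - 1) b x
    have h4' : iteratedFDeriv ℝ (ℓ - 1) (fun y => BD A w y k) x (fun t => bs (b t)) =
        (Φ (∏ t, MvPolynomial.X (b t)) (Z k)).1 x := h4
    rw [h4']
    rfl
  rw [Finset.sum_congr rfl (fun k _ => h3 k), Finset.sum_apply, Finset.sum_comm]
  refine Finset.sum_congr rfl (fun b _ => ?_)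
  rfl

end Pool.Agent.CEL
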