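import Pool.Agent.CEL.Stmts

/-!
# CEL, DSM: smooth distance function
-/

set_option autoImplicit false
open Topology Filter MeasureTheory Matrix Metric
open scoped ENNReal Convolution

namespace Pool.Agent.CEL

theorem dsm_proof (h1 : Stmt_BSA) : Stmt_DSM := by
  intro n I D hD
  obtain ⟨hpos, hlip, hcont, s, hs, hsD⟩ := h1 n I D hD
  let φ : ContDiffBump (0 : E n) := ⟨s / 4, s / 2, by linarith, by linarith⟩
  set k : E n → ℝ := φ.normed volume with hk
  set Ds : E n → ℝ := k ⋆[ContinuousLinearMap.lsmul ℝ ℝ, volume] D with hDs
  have hkc : HasCompactSupport k := φ.hasCompactSupport_normed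
  have hks : ContDiff ℝ (⊤ : ℕ∞) k := φ.contDiff_normed
  have hloc : LocallyIntegrable D volume := hcont.locallyIntegrable
  have hsm : ContDiff ℝ (⊤ : ℕ∞) Ds := hkc.contDiff_convolution_left _ hks hloc
  have hdist : ∀ y, dist (Ds y) (D y) ≤ s / 2 := by
    intro y
    apply φ.dist_normed_convolution_le hcont.aestronglyMeasurable
    intro x hx
    rw [mem_ball] at hx
    have h2 := hlip x y
    rw [Real.dist_eq]
    have h3 : ‖x - y‖ < s / 2 := by
      rw [← dist_eq_norm]; exact hx
    linarith
  refine ⟨Ds, hsm, ?_, ?_⟩
  · intro y
    have h2 := hdist y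
    rw [Real.dist_eq, abs_le] at h2
    have h3 := hsD y
    constructor <;> linarith [h2.1, h2.2]
  · intro y
    have hex : ∀ x, Integrable (fun t => k t • D (x - t)) := by
      intro x
      have hc : Continuous fun t => k t • D (x - t) :=
        (φ.continuous_normed).smul (hcont.comp (by fun_prop : Continuous fun t : E n => x - t))
      exact hc.integrable_of_hasCompactSupport hkc.smul_right
    have hval : ∀ x, Ds x = ∫ t, k t • D (x - t) := fun x => rfl
    have hL : LipschitzWith 1 Ds := by
      apply LipschitzWith.of_dist_le_mul
      intro x z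
      rw [Real.dist_eq, hval, hval, ← integral_sub (hex x) (hex z)]
      have h4 : |∫ t, (k t • D (x - t) - k t • D (z - t))| ≤ ∫ t, k t * dist x z := by
        rw [← Real.norm_eq_abs]
        apply norm_integral_le_of_norm_le
        · exact (φ.integrable_normed).mul_const _
        · refine Eventually.of_forall fun t => ?_
          rw [← smul_sub, norm_smul, Real.norm_eq_abs, Real.norm_eq_abs,
            abs_of_nonneg (φ.nonneg_normed t)]
          apply mul_le_mul_of_nonneg_left _ (φ.nonneg_normed t)
          have h5 := hlip (x - t) (z - t)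
          rw [sub_sub_sub_cancel_right] at h5
          rw [dist_eq_norm]
          exact h5
      rw [integral_mul_const, hk, φ.integral_normed, one_mul] at h4
      rw [NNReal.coe_one, one_mul]
      exact h4
    have h6 := norm_fderiv_le_of_lipschitz ℝ (x₀ := y) hL
    simpa using h6

end Pool.Agent.CEL
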