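import Pool.Agent.CEL.Stmts

set_option autoImplicit false
open Topology Filter MeasureTheory Matrix Metric
open scoped ENNReal

namespace Pool.Agent.CEL

namespace DUA_

theorem cs {α : Type*} [MeasurableSpace α] (μ : Measure α) (f g : α → ℝ≥0∞)
    (hf : Measurable f) (hg : Measurable g) :
    (∫⁻ p, f p * g p ∂μ) ^ 2 ≤ (∫⁻ p, (f p) ^ 2 ∂μ) * ∫⁻ p, (g p) ^ 2 ∂μ := by
  have h := ENNReal.lintegral_mul_le_Lp_mul_Lq μ (p := 2) (q := 2)
    (by constructor <;> norm_num) hf.aemeasurable hg.aemeasurable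
  have e1 : (∫⁻ a, (f * g) a ∂μ) = ∫⁻ p, f p * g p ∂μ := rfl
  have e2 : (∫⁻ a, f a ^ (2 : ℝ) ∂μ) = ∫⁻ p, (f p) ^ 2 ∂μ := by
    refine lintegral_congr fun a => ?_
    exact ENNReal.rpow_two (f a)
  have e3 : (∫⁻ a, g a ^ (2 : ℝ) ∂μ) = ∫⁻ p, (g p) ^ 2 ∂μ := by
    refine lintegral_congr fun a => ?_
    exact ENNReal.rpow_two (g a)
  rw [e1, e2, e3] at h
  calc (∫⁻ p, f p * g p ∂μ) ^ 2
      ≤ ((∫⁻ p, (f p) ^ 2 ∂μ) ^ (1 / 2 : ℝ) * (∫⁻ p, (g p) ^ 2 ∂μ) ^ (1 / 2 : ℝ)) ^ 2 := by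
        gcongr
    _ = (∫⁻ p, (f p) ^ 2 ∂μ) * ∫⁻ p, (g p) ^ 2 ∂μ := by
        rw [mul_pow, ← ENNReal.rpow_two, ← ENNReal.rpow_two, ← ENNReal.rpow_mul,
          ← ENNReal.rpow_mul]
        norm_num

/-- the truncations -/
noncomputable def tr {m : ℕ} (f : E m → ℝ≥0∞) (k : ℕ) (p : E m) : ℝ≥0∞ :=
  (closedBall (0 : E m) k).indicator (fun p => min (f p) k) p

theorem tr_meas {m : ℕ} (f : E m → ℝ≥0∞) (hf : Measurable f) (k : ℕ) : Measurable (tr f k) := by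
  unfold tr
  exact (hf.min measurable_const).indicator measurableSet_closedBall

theorem tr_le {m : ℕ} (f : E m → ℝ≥0∞) (k : ℕ) (p : E m) : tr f k p ≤ f p := by
  unfold tr
  refine Set.indicator_apply_le' ?_ ?_
  · intro _; exact min_le_left _ _
  · intro _; exact zero_le

theorem tr_le_ind {m : ℕ} (f : E m → ℝ≥0∞) (k : ℕ) (p : E m) :
    tr f k p ≤ (closedBall (0 : E m) k).indicator (fun _ => (k : ℝ≥0∞)) p := by
  unfold tr
  exact Set.indicator_le_indicator (min_le_right _ _)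

theorem tr_mono {m : ℕ} (f : E m → ℝ≥0∞) (p : E m) : Monotone (fun k => tr f k p) := by
  intro a b hab
  show tr f a p ≤ tr f b p
  unfold tr
  by_cases hp : p ∈ closedBall (0 : E m) a
  · have hp' : p ∈ closedBall (0 : E m) b :=
      closedBall_subset_closedBall (by exact_mod_cast hab) hp
    rw [Set.indicator_of_mem hp, Set.indicator_of_mem hp']
    exact min_le_min_left _ (by exact_mod_cast hab)
  · rw [Set.indicator_of_notMem hp]
    exact zero_le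

theorem tr_sup {m : ℕ} (f : E m → ℝ≥0∞) (p : E m) : ⨆ k : ℕ, (tr f k p) ^ 2 = (f p) ^ 2 := by
  apply le_antisymm
  · exact iSup_le fun k => pow_le_pow_left' (tr_le f k p) 2
  · have h1 : Tendsto (fun k : ℕ => (tr f k p)) atTop (𝓝 (f p)) := by
      have h2 : Tendsto (fun k : ℕ => min (f p) (k : ℝ≥0∞)) atTop (𝓝 (min (f p) ⊤)) :=
        tendsto_const_nhds.min ENNReal.tendsto_nat_nhds_top
      rw [min_top_right] at h2
      refine h2.congr' ?_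
      obtain ⟨k0, hk0⟩ := exists_nat_ge ‖p‖
      filter_upwards [eventually_ge_atTop k0] with k hk
      unfold tr
      rw [Set.indicator_of_mem]
      rw [mem_closedBall_zero_iff]
      exact hk0.trans (by exact_mod_cast hk)
    have h3 : Tendsto (fun k : ℕ => (tr f k p) ^ 2) atTop (𝓝 ((f p) ^ 2)) :=
      ((ENNReal.continuous_pow 2).tendsto _).comp h1
    exact le_of_tendsto' h3 fun k => le_iSup (fun k : ℕ => (tr f k p) ^ 2) k

theorem tr_fin {m : ℕ} (f : E m → ℝ≥0∞) (k : ℕ) : ∫⁻ p, (tr f k p) ^ 2 ≠ ⊤ := by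
  have h1 : ∫⁻ p, (tr f k p) ^ 2 ≤
      ∫⁻ p, (closedBall (0 : E m) k).indicator (fun _ => (k : ℝ≥0∞) ^ 2) p := by
    refine lintegral_mono fun p => ?_
    calc (tr f k p) ^ 2 ≤ ((closedBall (0 : E m) k).indicator (fun _ => (k : ℝ≥0∞)) p) ^ 2 :=
          pow_le_pow_left' (tr_le_ind f k p) 2
      _ = (closedBall (0 : E m) k).indicator (fun _ => (k : ℝ≥0∞) ^ 2) p := by
          by_cases hp : p ∈ closedBall (0 : E m) k
          · rw [Set.indicator_of_mem hp, Set.indicator_of_mem hp]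
          · rw [Set.indicator_of_notMem hp, Set.indicator_of_notMem hp]; simp
  refine ne_top_of_le_ne_top ?_ h1
  rw [lintegral_indicator measurableSet_closedBall, lintegral_const]
  simp only [Measure.restrict_apply MeasurableSet.univ, Set.univ_inter]
  exact ENNReal.mul_ne_top (by simp) measure_closedBall_lt_top.ne

theorem main {m : ℕ} (C : ℝ≥0∞) (f g : E m → ℝ≥0∞) (hf : Measurable f) (hg : Measurable g)
    (hC : C ≠ ⊤)
    (hM : ∀ ψ : E m → ℝ≥0∞, Measurable ψ → Measurable (MX ψ) ∧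
      ∫⁻ p, (MX ψ p) ^ 2 ≤ C * ∫⁻ p, (ψ p) ^ 2)
    (B : ℝ≥0∞) (hB : B ≠ ⊤)
    (h : ∀ ψ : E m → ℝ≥0∞, Measurable ψ → ∫⁻ p, f p * ψ p ≤ B * ∫⁻ p, g p * MX ψ p) :
    ∫⁻ p, (f p) ^ 2 ≤ (C + 1) * B ^ 2 * ∫⁻ p, (g p) ^ 2 := by
  by_cases hB0 : B = 0
  · have h1 := h f hf
    rw [hB0, zero_mul] at h1
    have h2 : ∫⁻ p, (f p) ^ 2 = ∫⁻ p, f p * f p := lintegral_congr fun p => sq (f p)
    rw [h2]
    exact h1.trans zero_le
  by_cases hG : ∫⁻ p, (g p) ^ 2 = ⊤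
  · rw [hG, ENNReal.mul_top]
    · exact le_top
    · simp [hB0]
  have hsup : ∫⁻ p, (f p) ^ 2 = ⨆ k : ℕ, ∫⁻ p, (tr f k p) ^ 2 := by
    rw [← lintegral_iSup]
    · exact lintegral_congr fun p => (tr_sup f p).symm
    · intro k; exact (tr_meas f hf k).pow_const 2
    · intro a b hab p
      exact pow_le_pow_left' (tr_mono f p hab) 2
  rw [hsup]
  refine iSup_le fun k => ?_
  obtain ⟨hm, hl⟩ := hM (tr f k) (tr_meas f hf k)
  set X := ∫⁻ p, (tr f k p) ^ 2 with hX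
  have hXf : X ≠ ⊤ := tr_fin f k
  by_cases hX0 : X = 0
  · rw [hX0]; exact zero_le
  have h1 : X ≤ B * ∫⁻ p, g p * MX (tr f k) p := by
    refine le_trans ?_ (h (tr f k) (tr_meas f hf k))
    refine lintegral_mono fun p => ?_
    rw [sq]
    exact mul_le_mul_left (tr_le f k p) _
  have h2 := cs volume g (MX (tr f k)) hg hm
  have h3 : X * X ≤ ((C + 1) * B ^ 2 * ∫⁻ p, (g p) ^ 2) * X := by
    calc X * X = X ^ 2 := (sq X).symm
      _ ≤ (B * ∫⁻ p, g p * MX (tr f k) p) ^ 2 := pow_le_pow_left' h1 2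
      _ = B ^ 2 * (∫⁻ p, g p * MX (tr f k) p) ^ 2 := by rw [mul_pow]
      _ ≤ B ^ 2 * ((∫⁻ p, (g p) ^ 2) * ∫⁻ p, (MX (tr f k) p) ^ 2) := by gcongr
      _ ≤ B ^ 2 * ((∫⁻ p, (g p) ^ 2) * (C * X)) := by gcongr
      _ = (C * B ^ 2 * ∫⁻ p, (g p) ^ 2) * X := by ring
      _ ≤ ((C + 1) * B ^ 2 * ∫⁻ p, (g p) ^ 2) * X := by
          gcongr
          exact le_self_add
  exact (ENNReal.mul_le_mul_iff_left hX0 hXf).mp h3

end DUA_

theorem dua_proof (h1 : Stmt_HLM) (h2 : Stmt_BSS) : Stmt_DUA := by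
  intro m
  obtain ⟨C, hC, hM⟩ := h1 m
  refine ⟨C + 1, by simp [hC], ?_⟩
  intro S F G B hF hG hB h
  exact DUA_.main C _ _ (h2 m S F hF).1 (h2 m S G hG).1 hC (fun ψ hψ => (hM ψ hψ).2) B hB h

end Pool.Agent.CEL
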