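import Pool.Agent.CEL.Stmts

set_option autoImplicit false
open Topology Filter MeasureTheory Matrix Metric
open scoped ENNReal

namespace Pool.Agent.CEL

namespace DUF_

theorem contDiff_coord {n : ℕ} (i : Fin n) : ContDiff ℝ (⊤ : ℕ∞) (fun z : E n => z i) :=
  (EuclideanSpace.proj i : E n →L[ℝ] ℝ).contDiff

theorem contDiff_mono {n : ℕ} (β : Fin n → ℕ) : ContDiff ℝ (⊤ : ℕ∞) (mono β : E n → ℝ) := by
  unfold mono
  exact contDiff_prod fun i _ => (contDiff_coord i).pow _

/-- monomials are linearly independent on non-empty open sets -/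
theorem indep {n : ℕ} (F : Finset (Fin n → ℕ)) (v : (Fin n → ℕ) → ℝ) (U : Set (E n))
    (hU : IsOpen U) (hne : U.Nonempty) (h : ∀ z ∈ U, ∑ β ∈ F, v β * mono β z = 0) :
    ∀ β ∈ F, v β = 0 := by
  obtain ⟨c, hc⟩ := hne
  let W : Set (Fin n → ℝ) := (fun x : Fin n → ℝ => (WithLp.toLp 2 x : E n)) ⁻¹' U
  have hW : IsOpen W := hU.preimage (PiLp.continuous_toLp 2 _)
  have hcW : (WithLp.ofLp c : Fin n → ℝ) ∈ W := by
    show (WithLp.toLp 2 (WithLp.ofLp c) : E n) ∈ U
    exact hc
  obtain ⟨r, hr, hball⟩ := Metric.isOpen_iff.1 hW _ hcW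
  rw [ball_pi _ hr] at hball
  let P : MvPolynomial (Fin n) ℝ :=
    ∑ β ∈ F, MvPolynomial.monomial (Finsupp.equivFunOnFinite.symm β) (v β)
  have hev : ∀ x : Fin n → ℝ, MvPolynomial.eval x P =
      ∑ β ∈ F, v β * mono β (WithLp.toLp 2 x : E n) := by
    intro x
    show MvPolynomial.eval x (∑ β ∈ F, _) = _
    rw [map_sum]
    refine Finset.sum_congr rfl fun β _ => ?_
    rw [MvPolynomial.eval_monomial, Finsupp.prod_fintype _ _ (fun i => pow_zero _)]
    rfl
  have hP : P = 0 := by
    refine MvPolynomial.funext_set (fun i => ball (WithLp.ofLp c i) r) ?_ ?_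
    · intro i
      rw [Real.ball_eq_Ioo]
      exact Set.Ioo_infinite (by linarith)
    · intro x hx
      rw [hev, map_zero]
      exact h _ (hball hx)
  intro β hβ
  have h1 : MvPolynomial.coeff (Finsupp.equivFunOnFinite.symm β) P = v β := by
    show MvPolynomial.coeff _ (∑ γ ∈ F, _) = _
    rw [MvPolynomial.coeff_sum, Finset.sum_eq_single β]
    · rw [MvPolynomial.coeff_monomial, if_pos rfl]
    · intro γ _ hγ
      rw [MvPolynomial.coeff_monomial, if_neg]
      intro he
      exact hγ (Finsupp.equivFunOnFinite.symm.injective he)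
    · intro hn
      exact absurd hβ hn
  rw [← h1, hP, MvPolynomial.coeff_zero]

end DUF_

theorem duf_proof : Stmt_DUF := by
  intro n ℓ O hO hne
  obtain ⟨c, hc⟩ := hne
  obtain ⟨r, hr, hball⟩ := Metric.isOpen_iff.1 hO c hc
  let f : ContDiffBump c := ⟨r / 4, r / 2, by linarith, by linarith⟩
  have hf1 : ContDiff ℝ (⊤ : ℕ∞) (f : E n → ℝ) := f.contDiff
  have hf2 : HasCompactSupport (f : E n → ℝ) := f.hasCompactSupport
  have hf3 : tsupport (f : E n → ℝ) ⊆ O := by
    rw [f.tsupport_eq]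
    refine (closedBall_subset_ball ?_).trans hball
    show r / 2 < r
    linarith
  let ι := {β : Fin n → ℕ // β ∈ idx n ℓ}
  let G : Matrix ι ι ℝ := fun β γ => ∫ z, f z * (mono β.1 z * mono γ.1 z)
  have hm : ∀ β : Fin n → ℕ, Continuous (mono β : E n → ℝ) :=
    fun β => (DUF_.contDiff_mono β).continuous
  have hint : ∀ q : E n → ℝ, Continuous q → Integrable (fun z => f z * q z) := by
    intro q hq
    exact (hf1.continuous.mul hq).integrable_of_hasCompactSupport hf2.mul_right
  have hG : G.det ≠ 0 := by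
    intro h0
    obtain ⟨v, hv, hGv⟩ := Matrix.exists_mulVec_eq_zero_iff.2 h0
    apply hv
    let p : E n → ℝ := fun z => ∑ β : ι, v β * mono β.1 z
    have hp : Continuous p := continuous_finsetSum _ fun β _ => continuous_const.mul (hm β.1)
    have h1 : ∫ z, f z * (p z * p z) = 0 := by
      have h2 : ∀ z, f z * (p z * p z) =
          ∑ β : ι, ∑ γ : ι, (v β * v γ) * (f z * (mono β.1 z * mono γ.1 z)) := by
        intro z
        show f z * ((∑ β : ι, v β * mono β.1 z) * (∑ β : ι, v β * mono β.1 z)) = _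
        rw [Finset.sum_mul_sum, Finset.mul_sum]
        refine Finset.sum_congr rfl fun β _ => ?_
        rw [Finset.mul_sum]
        refine Finset.sum_congr rfl fun γ _ => ?_
        ring
      simp_rw [h2]
      rw [integral_finsetSum]
      · have h3 : ∀ β : ι, ∫ z, ∑ γ : ι, (v β * v γ) * (f z * (mono β.1 z * mono γ.1 z)) =
            v β * (G *ᵥ v) β := by
          intro β
          rw [integral_finsetSum]
          · rw [Matrix.mulVec, dotProduct, Finset.mul_sum]
            refine Finset.sum_congr rfl fun γ _ => ?_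
            rw [integral_const_mul]
            show v β * v γ * G β γ = v β * (G β γ * v γ)
            ring
          · intro γ _
            exact (hint _ ((hm _).mul (hm _))).const_mul _
        simp_rw [h3, hGv]
        simp
      · intro β _
        refine integrable_finsetSum _ fun γ _ => ?_
        exact (hint _ ((hm _).mul (hm _))).const_mul _
    have h4 : (fun z => f z * (p z * p z)) = 0 := by
      have hnn : (0 : E n → ℝ) ≤ fun z => f z * (p z * p z) :=
        fun z => mul_nonneg f.nonneg (mul_self_nonneg _)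
      have h5 := (integral_eq_zero_iff_of_nonneg hnn (hint _ (hp.mul hp))).1 h1
      exact (Continuous.ae_eq_iff_eq (volume : Measure (E n))
        (hf1.continuous.mul (hp.mul hp)) continuous_zero).1 h5
    have h6 : ∀ z ∈ ball c (r / 2), p z = 0 := by
      intro z hz
      have h7 : f z * (p z * p z) = 0 := congrFun h4 z
      have h8 : 0 < f z := f.pos_of_mem_ball hz
      rcases mul_eq_zero.1 h7 with h9 | h9
      · exact absurd h9 h8.ne'
      · exact mul_self_eq_zero.1 h9
    have h10 := DUF_.indep (idx n ℓ) (fun β => if h : β ∈ idx n ℓ then v ⟨β, h⟩ else 0)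
      (ball c (r / 2)) isOpen_ball ⟨c, mem_ball_self (by linarith)⟩ (by
        intro z hz
        rw [← h6 z hz, ← Finset.sum_coe_sort (idx n ℓ)]
        refine Finset.sum_congr rfl fun β _ => ?_
        rw [dif_pos β.2])
    funext β
    have h11 := h10 β.1 β.2
    rw [dif_pos β.2] at h11
    exact h11
  have hGi : G⁻¹ * G = 1 := Matrix.nonsing_inv_mul G (isUnit_iff_ne_zero.2 hG)
  refine ⟨fun β => if h : β ∈ idx n ℓ then
    fun z => f z * ∑ γ : ι, G⁻¹ ⟨β, h⟩ γ * mono γ.1 z else 0, ?_⟩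
  intro β hβ
  simp only [dif_pos hβ]
  have hq : ContDiff ℝ (⊤ : ℕ∞) (fun z : E n => ∑ γ : ι, G⁻¹ ⟨β, hβ⟩ γ * mono γ.1 z) :=
    ContDiff.sum fun γ _ => contDiff_const.mul (DUF_.contDiff_mono γ.1)
  refine ⟨⟨hf1.mul hq, hf2.mul_right⟩, ?_, ?_⟩
  · exact (tsupport_mul_subset_left).trans hf3
  · intro γ hγ
    have h1 : ∀ z : E n, (f z * ∑ δ : ι, G⁻¹ ⟨β, hβ⟩ δ * mono δ.1 z) * mono γ z =
        ∑ δ : ι, G⁻¹ ⟨β, hβ⟩ δ * (f z * (mono δ.1 z * mono γ z)) := by
      intro z
      rw [Finset.mul_sum, Finset.sum_mul]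
      refine Finset.sum_congr rfl fun δ _ => ?_
      ring
    simp_rw [h1]
    rw [integral_finsetSum]
    · have h2 : ∀ δ : ι, ∫ z, G⁻¹ ⟨β, hβ⟩ δ * (f z * (mono δ.1 z * mono γ z)) =
          G⁻¹ ⟨β, hβ⟩ δ * G δ ⟨γ, hγ⟩ := by
        intro δ
        rw [integral_const_mul]
      simp_rw [h2]
      have h3 : (G⁻¹ * G) ⟨β, hβ⟩ ⟨γ, hγ⟩ = (1 : Matrix ι ι ℝ) ⟨β, hβ⟩ ⟨γ, hγ⟩ := by rw [hGi]
      rw [Matrix.mul_apply, Matrix.one_apply] at h3
      rw [h3]
      by_cases hbg : β = γ
      · rw [if_pos hbg, if_pos (Subtype.ext hbg)]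
      · rw [if_neg hbg, if_neg]
        intro h4
        exact hbg (congrArg Subtype.val h4)
    · intro δ _
      exact (hint _ ((hm _).mul (hm _))).const_mul _

end Pool.Agent.CEL
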