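import Mathlib

/-!
# CEL: definitions for MP_12ff24_an (fine properties for ℂ-elliptic operators)
-/

set_option autoImplicit false
open Topology Filter MeasureTheory Matrix Metric
open scoped ENNReal

namespace Pool.Agent.CEL

/-- The ambient space. -/
abbrev E (n : ℕ) := EuclideanSpace ℝ (Fin n)

/-- The standard basis vectors. -/
noncomputable def bs {n : ℕ} (j : Fin n) : E n := EuclideanSpace.single j 1

/-- A first order operator `∑ A j ∂_j`. -/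
abbrev Op (n N K : ℕ) := Fin n → Matrix (Fin K) (Fin N) ℝ

section
variable {n N K : ℕ}

/-- The symbol. -/
noncomputable def sym (A : Op n N K) (ξ : E n) : Matrix (Fin K) (Fin N) ℝ := ∑ j, ξ j • A j

/-- ℂ-ellipticity. -/
def CEll (A : Op n N K) : Prop :=
  ∀ ξ : Fin n → ℂ, ξ ≠ 0 → ∀ v : Fin N → ℂ,
    (∑ j, ξ j • (A j).map (fun t : ℝ => (t : ℂ))) *ᵥ v = 0 → v = 0

/-- The operator applied to a differentiable function. -/
noncomputable def BD (A : Op n N K) (w : E n → (Fin N → ℝ)) (x : E n) : Fin K → ℝ :=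
  ∑ j, A j *ᵥ (fderiv ℝ w x (bs j))

/-- Scalar test functions. -/
def TF (ψ : E n → ℝ) : Prop := ContDiff ℝ (⊤ : ℕ∞) ψ ∧ HasCompactSupport ψ

/-- `B u = g μ` on the whole space, everything supported in the closed ball of radius `R`. -/
structure IsPair (A : Op n N K) (R : ℝ) (u : E n → (Fin N → ℝ)) (μ : Measure (E n))
    (g : E n → (Fin K → ℝ)) : Prop where
  meas_u : Measurable u
  int_u : Integrable u
  supp_u : ∀ x, R < ‖x‖ → u x = 0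
  fin : IsFiniteMeasure μ
  supp_m : μ (closedBall (0 : E n) R)ᶜ = 0
  meas_g : Measurable g
  norm_g : ∀ x, ‖g x‖ ≤ 1
  weak : ∀ φ : E n → (Fin K → ℝ), ContDiff ℝ (⊤ : ℕ∞) φ → HasCompactSupport φ →
    ∫ x, ∑ j, u x ⬝ᵥ ((A j).transpose *ᵥ (fderiv ℝ φ x (bs j))) = - ∫ x, g x ⬝ᵥ φ x ∂μ

/-- Monomials. -/
noncomputable def mono (β : Fin n → ℕ) (z : E n) : ℝ := ∏ i, (z i) ^ (β i)

/-- Multi-indices of degree `< ℓ`. -/
def idx (n ℓ : ℕ) : Finset (Fin n → ℕ) :=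
  (Fintype.piFinset (fun _ => Finset.range ℓ)).filter (fun β => ∑ i, β i < ℓ)

/-- `h` is orthogonal to the polynomials of degree `< ℓ`. -/
def OrthP (ℓ : ℕ) (h : E n → ℝ) : Prop :=
  ∀ β : Fin n → ℕ, ∑ i, β i < ℓ → ∫ z, h z * mono β z = 0

/-- `h` reproduces the polynomials of degree `< ℓ` at the origin. -/
def Repr (ℓ : ℕ) (h : E n → ℝ) : Prop :=
  ∀ β : Fin n → ℕ, ∑ i, β i < ℓ → ∫ z, h z * mono β z = if β = 0 then 1 else 0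

/-- Bound for the derivatives of order `≤ ℓ`. -/
def CB (ℓ : ℕ) (M : ℝ) (h : E n → ℝ) : Prop := ∀ j ≤ ℓ, ∀ z, ‖iteratedFDeriv ℝ j h z‖ ≤ M

/-- A dual family to the monomials of degree `< ℓ`, supported in `O`. -/
def Dual (ℓ : ℕ) (O : Set (E n)) (lam : (Fin n → ℕ) → E n → ℝ) : Prop :=
  ∀ β ∈ idx n ℓ, TF (lam β) ∧ tsupport (lam β) ⊆ O ∧
    ∀ γ ∈ idx n ℓ, ∫ z, lam β z * mono γ z = if β = γ then 1 else 0

/-- The Nullstellensatz identity `L_β(X) B(X) = X^β Id` for all `|β| = ℓ`. -/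
def NIprop (A : Op n N K) (ℓ : ℕ) : Prop :=
  1 ≤ ℓ ∧ ∀ β : Fin n → ℕ, ∑ i, β i = ℓ →
    ∃ L : Matrix (Fin N) (Fin K) (MvPolynomial (Fin n) ℝ),
      (∀ i k, (L i k).IsHomogeneous (ℓ - 1)) ∧
      L * (∑ j, (MvPolynomial.X j : MvPolynomial (Fin n) ℝ) • (A j).map MvPolynomial.C) =
        (∏ i, (MvPolynomial.X i : MvPolynomial (Fin n) ℝ) ^ β i) •
          (1 : Matrix (Fin N) (Fin N) (MvPolynomial (Fin n) ℝ))

/-- Ellipticity at `w` on the hyperplane orthogonal to `ω`. -/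
def Ell (A : Op n N K) (w : Fin K → ℝ) (ω : E n) (c : ℝ) : Prop :=
  ∀ ξ : E n, inner ℝ ξ ω = 0 → ∀ v : Fin N → ℝ, c ≤ ‖w - sym A ξ *ᵥ v‖

/-- Good directions. -/
def Good (A : Op n N K) (w : Fin K → ℝ) (d : E n) : Prop :=
  ∃ ρ : ℝ, 0 < ρ ∧ ∃ c : ℝ, 0 < c ∧ ∀ ω : E n, ‖ω - d‖ ≤ ρ → Ell A w ω c

/-- `L_r^κ(u)(x) = ∫ κ(z) u(x + r z) dz`. -/
noncomputable def Lr (u : E n → (Fin N → ℝ)) (x : E n) (κ : E n → ℝ) (r : ℝ) : Fin N → ℝ :=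
  ∫ z, κ z • u (x + r • z)

/-- The cone around the unit vector `d`. -/
def cone (d : E n) (ρ : ℝ) : Set (E n) := {z | z ≠ 0 ∧ ‖z - ‖z‖ • d‖ ≤ ρ * ‖z‖}

/-- (K1): `g` is close to `w` on the balls around `x` with radius in `[s, R)`. -/
def K1 (μ : Measure (E n)) (g : E n → (Fin K → ℝ)) (w : Fin K → ℝ) (η s R : ℝ) (x : E n) : Prop :=
  ∀ r, 0 < r → s ≤ r → r < R →
    ∫⁻ y in ball x r, ‖g y - w‖ₑ ∂μ ≤ ENNReal.ofReal η * μ (ball x r)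

/-- `D` is the distance function of the finite family `I` of pairs (centre, radius). -/
structure IsD (I : Finset (E n × ℝ)) (D : E n → ℝ) : Prop where
  pos : ∀ q ∈ I, 0 < q.2
  le : ∀ q ∈ I, ∀ y, D y ≤ ‖y - q.1‖ + q.2
  ex : ∀ y, ∃ q ∈ I, D y = ‖y - q.1‖ + q.2

/-- (P3): `x` is a Lebesgue point of `g` with respect to `μ`. -/
def P3 (μ : Measure (E n)) (g : E n → (Fin K → ℝ)) (x : E n) : Prop :=
  ∀ ε : ℝ, 0 < ε → ∀ᶠ r in 𝓝[>] (0 : ℝ),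
    ∫⁻ y in closedBall x r, ‖g y - g x‖ₑ ∂μ ≤ ENNReal.ofReal ε * μ (closedBall x r)

end

section
variable {m N K : ℕ}

/-- The rescaled measure `r^{-m} μ(x + r C)`. -/
noncomputable def dens (μ : Measure (E (m + 1))) (x : E (m + 1)) (r : ℝ) (C : Set (E (m + 1))) :
    ℝ≥0∞ :=
  ENNReal.ofReal ((r ^ m)⁻¹) * μ ((fun z => x + r • z) '' C)

/-- Slices: measure preserving linear coordinates `(p, t)`. -/
structure Slice (m : ℕ) where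
  Q : (E m × ℝ) ≃L[ℝ] E (m + 1)
  mp : MeasurePreserving Q (volume : Measure (E m × ℝ)) (volume : Measure (E (m + 1)))
  lip1 : ∀ z, ‖(Q.symm z).1‖ ≤ 2 * ‖z‖
  lip2 : ∀ z, |(Q.symm z).2| ≤ ‖z‖

/-- The direction of the lines of a slice. -/
def Slice.dir (S : Slice m) : E (m + 1) := S.Q (0, 1)

/-- `J(f) = ∫ (∫ f(Q(p,t)) dt)² dp`. -/
noncomputable def J (S : Slice m) (f : E (m + 1) → ℝ≥0∞) : ℝ≥0∞ :=
  ∫⁻ p, (∫⁻ t, f (S.Q (p, t))) ^ 2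

/-- The centred maximal function. -/
noncomputable def MX (ψ : E m → ℝ≥0∞) (p : E m) : ℝ≥0∞ :=
  ⨆ (r : ℝ) (_ : 0 < r), (volume (ball p r))⁻¹ * ∫⁻ q in ball p r, ψ q

/-- Averages at scale `s D(y)` (normalised by `(s D(y))^{m+1}`). -/
noncomputable def Av (D : E (m + 1) → ℝ) (ν : Measure (E (m + 1))) (s : ℝ) (y : E (m + 1)) :
    ℝ≥0∞ :=
  ν (ball y (s * D y)) / ENNReal.ofReal ((s * D y) ^ (m + 1))

/-- Bumps. -/
structure IsBump (ρ : E (m + 1) → ℝ) (c C : ℝ) : Prop where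
  tf : TF ρ
  pos : 0 < c
  nn : ∀ z, 0 ≤ ρ z
  le : ∀ z, ρ z ≤ C
  ge : ∀ z, ‖z‖ ≤ 1 / 2 → c ≤ ρ z
  supp : ∀ z, 1 ≤ ‖z‖ → ρ z = 0
  int : ∫ z, ρ z = 1

/-- A combination of dilates of `ρ`. -/
noncomputable def comb (ρ : E (m + 1) → ℝ) {k : ℕ} (a₀ : ℝ) (a t : Fin k → ℝ) (z : E (m + 1)) : ℝ :=
  a₀ * ρ z + ∑ i, a i * (((t i) ^ (m + 1))⁻¹ * ρ ((t i)⁻¹ • z))

/-- The kernel `δ^{-n} φ(x/δ)`. -/
noncomputable def ker (φ : E (m + 1) → ℝ) (δ : ℝ) (x : E (m + 1)) : ℝ :=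
  (δ ^ (m + 1))⁻¹ * φ (δ⁻¹ • x)

/-- Variable radius mollification of `u`. -/
noncomputable def vs (φ : E (m + 1) → ℝ) (δ : E (m + 1) → ℝ) (u : E (m + 1) → (Fin N → ℝ))
    (y : E (m + 1)) : Fin N → ℝ :=
  ∫ z, ker φ (δ y) (y - z) • u z

/-- Variable radius mollification of a measure. -/
noncomputable def vsm (φ : E (m + 1) → ℝ) (δ : E (m + 1) → ℝ) (μ : Measure (E (m + 1)))
    (y : E (m + 1)) : ℝ :=
  ∫ z, ker φ (δ y) (y - z) ∂μ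

/-- `h(ζ) = n φ(ζ) + ζ·∇φ(ζ) = div(ζ φ)`. -/
noncomputable def dvg (φ : E (m + 1) → ℝ) (ζ : E (m + 1)) : ℝ :=
  (m + 1) * φ ζ + fderiv ℝ φ ζ ζ

/-- (P1): finite upper density. -/
def P1 (μ : Measure (E (m + 1))) (x : E (m + 1)) : Prop :=
  ∃ F : ℝ, ∀ r : ℝ, 0 < r → r ≤ 1 → μ (closedBall x r) ≤ ENNReal.ofReal (F * r ^ m)

/-- Finite cone potential at `x`. -/
def CP (μ : Measure (E (m + 1))) (x d : E (m + 1)) (ρ : ℝ) : Prop :=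
  ∫⁻ y in {y | y - x ∈ cone d ρ}, ENNReal.ofReal ((‖y - x‖ ^ m)⁻¹) ∂μ ≠ ⊤

/-- (P2): finite cone potentials in all good directions. -/
def P2 (A : Op (m + 1) N K) (μ : Measure (E (m + 1))) (g : E (m + 1) → (Fin K → ℝ))
    (x : E (m + 1)) : Prop :=
  ∀ d : E (m + 1), ‖d‖ = 1 → Good A (g x) d → ∃ ρ : ℝ, 0 < ρ ∧ CP μ x d ρ

/-- `T μ x ψ L`: the rescaled measures `r^{-m} μ(x + r ·)` tested with `ψ` converge to `L`. -/
def T (μ : Measure (E (m + 1))) (x : E (m + 1)) (ψ : E (m + 1) → ℝ) (L : ℝ) : Prop :=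
  Tendsto (fun r : ℝ => (r ^ m)⁻¹ * ∫ y, ψ (r⁻¹ • (y - x)) ∂μ) (𝓝[>] 0) (𝓝 L)

/-- The conclusion at a point: approximate half-space limits. -/
def HalfLim (u : E (m + 1) → (Fin N → ℝ)) (x ν : E (m + 1)) (a : Fin N → ℝ) : Prop :=
  Tendsto (fun r : ℝ => ∫⁻ z in ball (0 : E (m + 1)) 1 ∩ {z | 0 < inner ℝ z ν}, ‖u (x + r • z) - a‖ₑ)
    (𝓝[>] 0) (𝓝 0)

end

end Pool.Agent.CEL
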