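import Pool.Agent.CEL.Stmts

/-!
# CEL: EXD, directions avoiding finitely many hyperplanes
-/

set_option autoImplicit false
open Topology Filter MeasureTheory Matrix Metric
open scoped ENNReal

namespace Pool.Agent.CEL

theorem exd_proof : Stmt_EXD := by
  intro m s hs ν hν
  classical
  have hν0 : ν ≠ 0 := by
    intro h
    rw [h, norm_zero] at hν
    exact zero_ne_one hν
  let H : E (m + 1) → Subspace ℝ (E (m + 1)) := fun ζ => LinearMap.ker (innerₛₗ ℝ ζ)
  have hH : ∀ ζ d, d ∈ H ζ ↔ inner ℝ ζ d = 0 := fun ζ d => by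
    rw [LinearMap.mem_ker]; rfl
  have h1 : (⊤ : Subspace ℝ (E (m + 1))) ∉ (insert ν s).image H := by
    rw [Finset.mem_image]
    rintro ⟨ζ, hζ, h⟩
    have h2 : ζ ≠ 0 := by
      rcases Finset.mem_insert.1 hζ with h3 | h3
      · rw [h3]; exact hν0
      · exact hs ζ h3
    have h3 : ζ ∈ H ζ := by rw [h]; exact Submodule.mem_top
    rw [hH] at h3
    exact h2 (inner_self_eq_zero.1 h3)
  have h2 := Subspace.biUnion_ne_univ_of_top_notMem h1
  obtain ⟨d₀, hd₀⟩ := (Set.ne_univ_iff_exists_notMem _).1 h2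
  have h3 : ∀ ζ ∈ insert ν s, inner ℝ ζ d₀ ≠ 0 := by
    intro ζ hζ h
    apply hd₀
    exact Set.mem_biUnion (Finset.mem_coe.2 (Finset.mem_image_of_mem H hζ)) ((hH ζ d₀).2 h)
  have hd0 : d₀ ≠ 0 := by
    intro h
    apply h3 ν (Finset.mem_insert_self _ _)
    rw [h, inner_zero_right]
  have hn : 0 < ‖d₀‖ := norm_pos_iff.2 hd0
  have hνd := h3 ν (Finset.mem_insert_self _ _)
  rcases lt_or_gt_of_ne hνd with hlt | hgt
  · refine ⟨(-‖d₀‖⁻¹) • d₀, ?_, ?_, ?_⟩
    · rw [norm_smul, norm_neg, norm_inv, norm_norm, inv_mul_cancel₀ hn.ne']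
    · rw [real_inner_comm, inner_smul_right]
      have := inv_pos.2 hn
      nlinarith
    · intro ζ hζ
      rw [inner_smul_right]
      exact mul_ne_zero (neg_ne_zero.2 (inv_ne_zero hn.ne')) (h3 ζ (Finset.mem_insert_of_mem hζ))
  · refine ⟨‖d₀‖⁻¹ • d₀, ?_, ?_, ?_⟩
    · rw [norm_smul, norm_inv, norm_norm, inv_mul_cancel₀ hn.ne']
    · rw [real_inner_comm, inner_smul_right]
      exact mul_pos (inv_pos.2 hn) hgt
    · intro ζ hζ
      rw [inner_smul_right]
      exact mul_ne_zero (inv_ne_zero hn.ne') (h3 ζ (Finset.mem_insert_of_mem hζ))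

end Pool.Agent.CEL
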