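import Pool.Agent.CEL.Stmts

set_option autoImplicit false
open Topology Filter MeasureTheory Matrix Metric
open scoped ENNReal

namespace Pool.Agent.CEL

namespace FAR_

/-- bounded functions with bounded support have finite `J` -/
theorem J_le {m : ℕ} (S : Slice m) (f : E (m + 1) → ℝ≥0∞) (c : ℝ≥0∞) (L : ℝ)
    (h1 : ∀ z, f z ≤ c) (h2 : ∀ z, L < ‖z‖ → f z = 0) :
    J S f ≤ (c * ENNReal.ofReal (2 * L)) ^ 2 * volume (closedBall (0 : E m) (2 * L)) := by
  unfold J
  have key : ∀ p : E m, (∫⁻ t, f (S.Q (p, t))) ^ 2 ≤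
      (closedBall (0 : E m) (2 * L)).indicator (fun _ => (c * ENNReal.ofReal (2 * L)) ^ 2) p := by
    intro p
    by_cases hp : p ∈ closedBall (0 : E m) (2 * L)
    · rw [Set.indicator_of_mem hp]
      refine pow_le_pow_left' ?_ 2
      have h3 : ∀ t : ℝ, f (S.Q (p, t)) ≤ (Set.Icc (-L) L).indicator (fun _ => c) t := by
        intro t
        by_cases ht : t ∈ Set.Icc (-L) L
        · rw [Set.indicator_of_mem ht]; exact h1 _
        · rw [Set.indicator_of_notMem ht, h2]
          have h4 := S.lip2 (S.Q (p, t))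
          rw [ContinuousLinearEquiv.symm_apply_apply] at h4
          have h5 : L < |t| := by
            by_contra h6
            exact ht (abs_le.1 (not_lt.1 h6))
          exact lt_of_lt_of_le h5 h4
      refine (lintegral_mono h3).trans ?_
      rw [lintegral_indicator_const measurableSet_Icc, Real.volume_Icc]
      apply le_of_eq
      congr 2
      ring
    · rw [Set.indicator_of_notMem hp]
      have h3 : ∀ t : ℝ, f (S.Q (p, t)) = 0 := by
        intro t
        apply h2
        have h4 := S.lip1 (S.Q (p, t))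
        rw [ContinuousLinearEquiv.symm_apply_apply] at h4
        have h5 : 2 * L < ‖p‖ := by
          rw [mem_closedBall_zero_iff, not_le] at hp
          exact hp
        have h6 : ‖((p, t) : E m × ℝ).1‖ = ‖p‖ := rfl
        rw [h6] at h4
        linarith
      simp [h3]
  refine (lintegral_mono key).trans ?_
  rw [lintegral_indicator_const measurableSet_closedBall]

theorem Av_le {m : ℕ} (D : E (m + 1) → ℝ) (ν : Measure (E (m + 1))) (s d : ℝ)
    (y : E (m + 1)) (hd : 0 < d) (h : d ≤ s * D y) :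
    Av D ν s y ≤ ν Set.univ / ENNReal.ofReal (d ^ (m + 1)) := by
  unfold Av
  refine ENNReal.div_le_div (measure_mono (Set.subset_univ _)) ?_
  exact ENNReal.ofReal_le_ofReal (pow_le_pow_left₀ hd.le h _)

theorem exists_pt {n : ℕ} (ν : Measure (E n)) (Ru : ℝ) (B : Set (E n))
    (h0 : ν (closedBall (0 : E n) Ru)ᶜ = 0) (hB : ν B ≠ 0) : ∃ z ∈ B, ‖z‖ ≤ Ru := by
  by_contra hn
  push Not at hn
  apply hB
  refine measure_mono_null ?_ h0
  intro z hz
  rw [Set.mem_compl_iff, mem_closedBall_zero_iff, not_le]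
  exact hn z hz

theorem fin_ne {m : ℕ} (c : ℝ≥0∞) (L : ℝ) (hc : c ≠ ⊤) :
    (c * ENNReal.ofReal (2 * L)) ^ 2 * volume (closedBall (0 : E m) (2 * L)) ≠ ⊤ :=
  ENNReal.mul_ne_top (ENNReal.pow_ne_top (ENNReal.mul_ne_top hc ENNReal.ofReal_ne_top))
    measure_closedBall_lt_top.ne

end FAR_

theorem far_proof (_hs : Stmt_BSS) (ha : Stmt_BSA) (_hv : Stmt_BSV) : Stmt_FAR := by
  intro m
  refine ⟨?_, ?_⟩
  · intro Ru R b M hR hb hb1
    let c : ℝ≥0∞ := ENNReal.ofReal M / ENNReal.ofReal ((b * R / 300) ^ (m + 1))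
    have hd : 0 < b * R / 300 := by positivity
    have hc : c ≠ ⊤ := by
      refine ENNReal.div_ne_top ENNReal.ofReal_ne_top ?_
      have : 0 < ENNReal.ofReal ((b * R / 300) ^ (m + 1)) :=
        ENNReal.ofReal_pos.2 (pow_pos hd _)
      exact this.ne'
    refine ⟨_, FAR_.fin_ne (m := m) c (2 * |Ru| + R) hc, ?_⟩
    intro S I D hD hI τ hτ hτ0
    obtain ⟨hpos, hlip, hcont, -⟩ := ha _ I D hD
    have key : ∀ y, (τ.restrict {y | R / 200 < D y}) (ball y (b * D y)) ≠ 0 →
        b * R / 300 ≤ b * D y ∧ ‖y‖ ≤ 2 * |Ru| + R := by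
      intro y hy
      rw [Measure.restrict_apply measurableSet_ball] at hy
      obtain ⟨z, ⟨hz1, hz2⟩, hz3⟩ := FAR_.exists_pt τ Ru _ hτ0 hy
      have hz2' : R / 200 < D z := hz2
      rw [mem_ball, dist_eq_norm] at hz1
      have h1 := (abs_le.1 (hlip z y)).2
      have hDy := hpos y
      have h2 : b * D y ≤ 1 / 100 * D y := mul_le_mul_of_nonneg_right hb1 hDy.le
      have h3 : R / 300 ≤ D y := by linarith
      obtain ⟨q, hq, -⟩ := hD.ex y
      have h4 := hD.le q hq y
      have h5 := hI q hq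
      have h6 : ‖y - q.1‖ ≤ ‖y‖ + ‖q.1‖ := norm_sub_le _ _
      have h7 : ‖y‖ ≤ ‖z‖ + ‖z - y‖ := by
        have := norm_sub_le z (z - y)
        rwa [sub_sub_cancel] at this
      have h8 := le_abs_self Ru
      have h9 := norm_nonneg z
      constructor
      · have := mul_le_mul_of_nonneg_left h3 hb.le
        linarith
      · linarith [h5.1, h5.2]
    refine FAR_.J_le S _ c _ ?_ ?_
    · intro y
      by_cases hy : (τ.restrict {y | R / 200 < D y}) (ball y (b * D y)) = 0
      · unfold Av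
        rw [hy, ENNReal.zero_div]
        exact zero_le
      · refine (FAR_.Av_le D _ b (b * R / 300) y hd (key y hy).1).trans ?_
        refine ENNReal.div_le_div ?_ le_rfl
        refine le_trans ?_ hτ
        exact (Measure.restrict_le_self _)
    · intro y hy
      by_cases hy0 : (τ.restrict {y | R / 200 < D y}) (ball y (b * D y)) = 0
      · unfold Av
        rw [hy0, ENNReal.zero_div]
      · exact absurd (key y hy0).2 (not_le.2 hy)
  · intro S I D hD ν hν Ru a ha0 ha1 hν0
    obtain ⟨hpos, hlip, hcont, s, hs0, hs⟩ := ha _ I D hD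
    obtain ⟨q, hq, -⟩ := hD.ex 0
    have hq2 := hD.pos q hq
    have key : ∀ y, ν (ball y (a * D y)) ≠ 0 → ‖y‖ ≤ 2 * |Ru| + (‖q.1‖ + q.2) := by
      intro y hy
      obtain ⟨z, hz1, hz3⟩ := FAR_.exists_pt ν Ru _ hν0 hy
      rw [mem_ball, dist_eq_norm] at hz1
      have hDy := hpos y
      have h2 : a * D y ≤ 1 / 4 * D y := mul_le_mul_of_nonneg_right ha1 hDy.le
      have h4 := hD.le q hq y
      have h6 : ‖y - q.1‖ ≤ ‖y‖ + ‖q.1‖ := norm_sub_le _ _
      have h7 : ‖y‖ ≤ ‖z‖ + ‖z - y‖ := by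
        have := norm_sub_le z (z - y)
        rwa [sub_sub_cancel] at this
      have h8 := le_abs_self Ru
      have h9 := norm_nonneg z
      have h10 := norm_nonneg q.1
      linarith
    have hd : 0 < a * s := mul_pos ha0 hs0
    let c : ℝ≥0∞ := ν Set.univ / ENNReal.ofReal ((a * s) ^ (m + 1))
    have hc : c ≠ ⊤ := by
      refine ENNReal.div_ne_top (measure_ne_top ν _) ?_
      have : 0 < ENNReal.ofReal ((a * s) ^ (m + 1)) := ENNReal.ofReal_pos.2 (pow_pos hd _)
      exact this.ne'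
    refine ne_top_of_le_ne_top (FAR_.fin_ne (m := m) c (2 * |Ru| + (‖q.1‖ + q.2)) hc)
      (FAR_.J_le S _ c _ ?_ ?_)
    · intro y
      exact FAR_.Av_le D ν a (a * s) y hd (mul_le_mul_of_nonneg_left (hs y) ha0.le)
    · intro y hy
      by_cases hy0 : ν (ball y (a * D y)) = 0
      · unfold Av
        rw [hy0, ENNReal.zero_div]
      · exact absurd (key y hy0) (not_le.2 hy)

end Pool.Agent.CEL
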