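import Pool.Agent.CEL.Stmts

/-!
# CEL: module FIN, from half-space limits to Lebesgue points or jump points (MP_12ff24_an)
-/

set_option autoImplicit false
open Topology Filter MeasureTheory Matrix Metric
open scoped ENNReal

namespace Pool.Agent.CEL

namespace FIN_

variable {m : ℕ}

lemma lintegral_scale (G : E (m + 1) → ℝ≥0∞) (hG : Measurable G) (x : E (m + 1)) (r : ℝ)
    (hr : 0 < r) : ∫⁻ y, G y = ENNReal.ofReal (r ^ (m + 1)) * ∫⁻ z, G (x + r • z) := by
  have h1 : ∫⁻ z, G (x + r • z) =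
      ∫⁻ w, G (x + w) ∂(Measure.map (fun z : E (m + 1) => r • z) volume) := by
    rw [lintegral_map]
    · exact hG.comp (measurable_const_add x)
    · exact measurable_const_smul r
  have h2 : Measure.map (fun z : E (m + 1) => r • z) volume =
      ENNReal.ofReal (abs (r ^ (m + 1))⁻¹) • (volume : Measure (E (m + 1))) := by
    have := Measure.map_addHaar_smul (volume : Measure (E (m + 1))) hr.ne'
    rw [this]
    simp
  have hrp : 0 < r ^ (m + 1) := pow_pos hr _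
  rw [h1, h2, lintegral_smul_measure, lintegral_add_left_eq_self, smul_eq_mul, ← mul_assoc,
    abs_of_pos (inv_pos.2 hrp), ← ENNReal.ofReal_mul hrp.le, mul_inv_cancel₀ hrp.ne']
  simp

lemma scale (f : E (m + 1) → ℝ≥0∞) (hf : Measurable f) (x : E (m + 1)) (r : ℝ) (hr : 0 < r)
    (P : Set (E (m + 1))) (hP : MeasurableSet P) (hhom : ∀ z, r • z ∈ P ↔ z ∈ P) :
    ∫⁻ y in ball x r ∩ {y | y - x ∈ P}, f y =
      ENNReal.ofReal (r ^ (m + 1)) * ∫⁻ z in ball (0 : E (m + 1)) 1 ∩ P, f (x + r • z) := by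
  have hm1 : MeasurableSet (ball x r ∩ {y | y - x ∈ P}) :=
    measurableSet_ball.inter (hP.preimage (measurable_id.sub_const x))
  have hm2 : MeasurableSet (ball (0 : E (m + 1)) 1 ∩ P) := measurableSet_ball.inter hP
  rw [← lintegral_indicator hm1, ← lintegral_indicator hm2,
    lintegral_scale _ (hf.indicator hm1) x r hr]
  congr 1
  apply lintegral_congr
  intro z
  have hiff : x + r • z ∈ ball x r ∩ {y | y - x ∈ P} ↔ z ∈ ball (0 : E (m + 1)) 1 ∩ P := by
    simp only [Set.mem_inter_iff, mem_ball, Set.mem_ofPred_eq, add_sub_cancel_left, hhom,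
      dist_eq_norm, norm_smul, Real.norm_of_nonneg hr.le, sub_zero]
    constructor
    · rintro ⟨h1, h2⟩
      exact ⟨by nlinarith, h2⟩
    · rintro ⟨h1, h2⟩
      exact ⟨by nlinarith, h2⟩
  by_cases h : z ∈ ball (0 : E (m + 1)) 1 ∩ P
  · rw [Set.indicator_of_mem h, Set.indicator_of_mem (hiff.2 h)]
  · rw [Set.indicator_of_notMem h, Set.indicator_of_notMem (fun h' => h (hiff.1 h'))]

lemma tends {N : ℕ} (u : E (m + 1) → (Fin N → ℝ)) (hu : Measurable u) (x : E (m + 1))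
    (P : Set (E (m + 1))) (hP : MeasurableSet P) (hhom : ∀ r : ℝ, 0 < r → ∀ z, r • z ∈ P ↔ z ∈ P)
    (a : Fin N → ℝ)
    (h : Tendsto (fun r : ℝ => ∫⁻ z in ball (0 : E (m + 1)) 1 ∩ P, ‖u (x + r • z) - a‖ₑ)
      (𝓝[>] 0) (𝓝 0)) :
    Tendsto (fun r : ℝ => (volume (ball x r))⁻¹ *
      ∫⁻ y in ball x r ∩ {y | y - x ∈ P}, ‖u y - a‖ₑ) (𝓝[>] 0) (𝓝 0) := by
  set v : ℝ≥0∞ := volume (ball (0 : E (m + 1)) 1) with hv
  have hv0 : v ≠ 0 := (measure_ball_pos _ _ one_pos).ne'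
  have hvt : v ≠ ⊤ := measure_ball_lt_top.ne
  have h1 : Tendsto (fun r : ℝ => v⁻¹ *
      ∫⁻ z in ball (0 : E (m + 1)) 1 ∩ P, ‖u (x + r • z) - a‖ₑ) (𝓝[>] 0) (𝓝 (v⁻¹ * 0)) :=
    ENNReal.Tendsto.const_mul h (Or.inr (ENNReal.inv_ne_top.2 hv0))
  rw [mul_zero] at h1
  refine h1.congr' ?_
  filter_upwards [self_mem_nhdsWithin] with r hr
  have hr : 0 < r := hr
  have hrp : 0 < r ^ (m + 1) := pow_pos hr _
  have hball : volume (ball x r) = ENNReal.ofReal (r ^ (m + 1)) * v := by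
    rw [Measure.addHaar_ball_of_pos _ _ hr, finrank_euclideanSpace, Fintype.card_fin]
  have hf : Measurable (fun y => ‖u y - a‖ₑ) := (hu.sub_const a).enorm
  rw [scale (fun y => ‖u y - a‖ₑ) hf x r hr P hP (hhom r hr), hball]
  have h0 : ENNReal.ofReal (r ^ (m + 1)) ≠ 0 := by
    rw [Ne, ENNReal.ofReal_eq_zero, not_le]; exact hrp
  rw [ENNReal.mul_inv (Or.inl h0) (Or.inl ENNReal.ofReal_ne_top), mul_mul_mul_comm,
    ENNReal.inv_mul_cancel h0 ENNReal.ofReal_ne_top, one_mul]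

lemma null_hyperplane (ν : E (m + 1)) (hν : ‖ν‖ = 1) :
    volume {z : E (m + 1) | inner ℝ z ν = 0} = 0 := by
  have h1 : {z : E (m + 1) | inner ℝ z ν = 0} = ((ℝ ∙ ν)ᗮ : Submodule ℝ (E (m + 1))) := by
    ext z
    simp only [Set.mem_ofPred_eq, SetLike.mem_coe, Submodule.mem_orthogonal_singleton_iff_inner_left]
  rw [h1]
  apply Measure.addHaar_submodule
  intro h
  have h2 : ν ∈ ((ℝ ∙ ν)ᗮ : Submodule ℝ (E (m + 1))) := by rw [h]; trivial
  rw [Submodule.mem_orthogonal_singleton_iff_inner_left, real_inner_self_eq_norm_sq, hν] at h2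
  norm_num at h2

end FIN_

open FIN_ in
theorem fin_proof : Stmt_FIN := by
  intro m N u x ν a b hu hν ha hb
  have hPm : ∀ ν' : E (m + 1), MeasurableSet {z : E (m + 1) | 0 < inner ℝ z ν'} := by
    intro ν'
    exact (isOpen_lt continuous_const (continuous_id.inner continuous_const)).measurableSet
  have hPh : ∀ (ν' : E (m + 1)) (r : ℝ), 0 < r → ∀ z : E (m + 1),
      r • z ∈ {z : E (m + 1) | 0 < inner ℝ z ν'} ↔ z ∈ {z : E (m + 1) | 0 < inner ℝ z ν'} := by
    intro ν' r hr z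
    simp only [Set.mem_ofPred_eq, inner_smul_left, RCLike.conj_to_real]
    exact mul_pos_iff_of_pos_left hr
  by_cases hab : a = b
  · left
    refine ⟨a, ?_⟩
    subst hab
    have huniv := tends u hu x Set.univ MeasurableSet.univ (fun r hr z => by simp) a (by
      have hsum : Tendsto (fun r : ℝ =>
          (∫⁻ z in ball (0 : E (m + 1)) 1 ∩ {z | 0 < inner ℝ z ν}, ‖u (x + r • z) - a‖ₑ) +
          ∫⁻ z in ball (0 : E (m + 1)) 1 ∩ {z | 0 < inner ℝ z (-ν)}, ‖u (x + r • z) - a‖ₑ)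
          (𝓝[>] 0) (𝓝 (0 + 0)) := ha.add hb
      rw [add_zero] at hsum
      refine tendsto_of_tendsto_of_tendsto_of_le_of_le tendsto_const_nhds hsum
        (fun r => bot_le) (fun r => ?_)
      have hsub : ball (0 : E (m + 1)) 1 ∩ Set.univ ⊆
          (ball (0 : E (m + 1)) 1 ∩ {z | 0 < inner ℝ z ν}) ∪
          ((ball (0 : E (m + 1)) 1 ∩ {z | 0 < inner ℝ z (-ν)}) ∪
            {z : E (m + 1) | inner ℝ z ν = 0}) := by
        rintro z ⟨hz, -⟩
        simp only [Set.mem_union, Set.mem_inter_iff, Set.mem_ofPred_eq, inner_neg_right]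
        rcases lt_trichotomy 0 (inner ℝ z ν) with h | h | h
        · exact Or.inl ⟨hz, h⟩
        · exact Or.inr (Or.inr h.symm)
        · exact Or.inr (Or.inl ⟨hz, by linarith⟩)
      calc ∫⁻ z in ball (0 : E (m + 1)) 1 ∩ Set.univ, ‖u (x + r • z) - a‖ₑ
          ≤ ∫⁻ z in (ball (0 : E (m + 1)) 1 ∩ {z | 0 < inner ℝ z ν}) ∪
              ((ball (0 : E (m + 1)) 1 ∩ {z | 0 < inner ℝ z (-ν)}) ∪
                {z : E (m + 1) | inner ℝ z ν = 0}), ‖u (x + r • z) - a‖ₑ :=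
            lintegral_mono_set hsub
        _ ≤ (∫⁻ z in ball (0 : E (m + 1)) 1 ∩ {z | 0 < inner ℝ z ν}, ‖u (x + r • z) - a‖ₑ) +
              ∫⁻ z in ((ball (0 : E (m + 1)) 1 ∩ {z | 0 < inner ℝ z (-ν)}) ∪
                {z : E (m + 1) | inner ℝ z ν = 0}), ‖u (x + r • z) - a‖ₑ :=
            lintegral_union_le _ _ _
        _ ≤ (∫⁻ z in ball (0 : E (m + 1)) 1 ∩ {z | 0 < inner ℝ z ν}, ‖u (x + r • z) - a‖ₑ) +
              ((∫⁻ z in (ball (0 : E (m + 1)) 1 ∩ {z | 0 < inner ℝ z (-ν)}),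
                ‖u (x + r • z) - a‖ₑ) +
              ∫⁻ z in {z : E (m + 1) | inner ℝ z ν = 0}, ‖u (x + r • z) - a‖ₑ) := by
            gcongr
            exact lintegral_union_le _ _ _
        _ = _ := by
            rw [setLIntegral_measure_zero _ _ (null_hyperplane ν hν), add_zero])
    have hcongr : ∀ r : ℝ, ball x r ∩ {y | y - x ∈ (Set.univ : Set (E (m + 1)))} = ball x r := by
      intro r
      simp
    simp only [hcongr] at huniv
    exact huniv
  · right
    refine ⟨a, b, ν, hab, hν, ?_, ?_⟩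
    · exact tends u hu x _ (hPm ν) (hPh ν) a ha
    · have h2 := tends u hu x _ (hPm (-ν)) (hPh (-ν)) b hb
      have hcongr : {y : E (m + 1) | y - x ∈ {z : E (m + 1) | 0 < inner ℝ z (-ν)}} =
          {y : E (m + 1) | inner ℝ (y - x) ν < 0} := by
        ext y
        simp only [Set.mem_ofPred_eq, inner_neg_right]
        exact neg_pos
      rw [hcongr] at h2
      exact h2

end Pool.Agent.CEL
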