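import Pool.Agent.CEL.Stmts

/-!
# CEL, module GOD: good directions
-/

set_option autoImplicit false
open Topology Filter MeasureTheory Matrix Metric
open scoped ENNReal

namespace Pool.Agent.CEL

namespace GOD_

variable {n N K : ℕ}

theorem sym_smul (A : Op n N K) (a : ℝ) (ξ : E n) : sym A (a • ξ) = a • sym A ξ := by
  unfold sym
  rw [Finset.smul_sum]
  refine Finset.sum_congr rfl fun j _ => ?_
  rw [smul_smul]
  rfl

theorem sym_zero (A : Op n N K) : sym A (0 : E n) = 0 := by
  have h := sym_smul A 0 (0 : E n)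
  rw [zero_smul, zero_smul] at h
  exact h

theorem sym_cont (A : Op n N K) : Continuous (fun ξ : E n => sym A ξ) := by
  unfold sym
  refine continuous_finsetSum _ fun j _ => ?_
  have h : Continuous (fun ξ : E n => ξ j) := by fun_prop
  exact h.smul continuous_const

theorem f_cont (A : Op n N K) :
    Continuous (fun p : E n × (Fin N → ℝ) => sym A p.1 *ᵥ p.2) :=
  Continuous.matrix_mulVec ((sym_cont A).comp continuous_fst) continuous_snd

theorem inj (ℓ : ℕ) (A : Op n N K) (hA : NIprop A ℓ) (ξ : E n) (hξ : ξ ≠ 0) (v : Fin N → ℝ)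
    (hv : sym A ξ *ᵥ v = 0) : v = 0 := by
  have hk : ∃ k, ξ k ≠ 0 := by
    by_contra hcon
    push Not at hcon
    apply hξ
    ext k
    exact hcon k
  obtain ⟨k, hk⟩ := hk
  obtain ⟨L, -, hL⟩ := hA.2 (Pi.single k ℓ) (by simp)
  set ev : MvPolynomial (Fin n) ℝ →+* ℝ := MvPolynomial.eval (fun i => ξ i) with hev
  have h1 : ∀ i j, ∑ b, L i b * (∑ j, (MvPolynomial.X j : MvPolynomial (Fin n) ℝ) •
      (A j).map MvPolynomial.C : Matrix (Fin K) (Fin N) (MvPolynomial (Fin n) ℝ)) b j =
      (∏ i, (MvPolynomial.X i : MvPolynomial (Fin n) ℝ) ^ (Pi.single k ℓ : Fin n → ℕ) i) *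
        (1 : Matrix (Fin N) (Fin N) (MvPolynomial (Fin n) ℝ)) i j := by
    intro i j
    exact congrFun (congrFun hL i) j
  have h3 : ∀ b j, ev ((∑ j, (MvPolynomial.X j : MvPolynomial (Fin n) ℝ) •
      (A j).map MvPolynomial.C : Matrix (Fin K) (Fin N) (MvPolynomial (Fin n) ℝ)) b j) =
      sym A ξ b j := by
    intro b j
    unfold sym
    simp only [Matrix.map_apply, Matrix.sum_apply, Matrix.smul_apply, map_sum, smul_eq_mul,
      map_mul, hev, MvPolynomial.eval_X, MvPolynomial.eval_C]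
  have h5 : ev (∏ x, (MvPolynomial.X x : MvPolynomial (Fin n) ℝ) ^
      (Pi.single k ℓ : Fin n → ℕ) x) = (ξ k) ^ ℓ := by
    rw [map_prod, Finset.prod_eq_single k]
    · rw [Pi.single_eq_same, map_pow, hev, MvPolynomial.eval_X]
    · intro b _ hb
      rw [Pi.single_eq_of_ne hb, pow_zero, map_one]
    · intro h
      exact absurd (Finset.mem_univ k) h
  have h2 : ∀ i j, ∑ b, ev (L i b) * sym A ξ b j =
      (ξ k) ^ ℓ * (if i = j then 1 else 0) := by
    intro i j
    have h := congrArg ev (h1 i j)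
    rw [map_sum, map_mul, h5] at h
    have h6 : ev ((1 : Matrix (Fin N) (Fin N) (MvPolynomial (Fin n) ℝ)) i j) =
        if i = j then 1 else 0 := by
      rw [Matrix.one_apply]
      split_ifs <;> simp
    rw [h6] at h
    rw [← h]
    refine Finset.sum_congr rfl fun b _ => ?_
    rw [map_mul, h3]
  funext i
  have h7 : (ξ k) ^ ℓ ≠ 0 := pow_ne_zero _ hk
  have h8 : (ξ k) ^ ℓ * v i = 0 := by
    have h9 : (ξ k) ^ ℓ * v i = ∑ j, (∑ b, ev (L i b) * sym A ξ b j) * v j := by
      simp only [h2]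
      rw [Finset.sum_eq_single i]
      · simp
      · intro b _ hb
        rw [if_neg (Ne.symm hb)]
        ring
      · intro h
        exact absurd (Finset.mem_univ i) h
    rw [h9]
    have h10 : ∀ b, ∑ j, sym A ξ b j * v j = 0 := fun b => congrFun hv b
    calc ∑ j, (∑ b, ev (L i b) * sym A ξ b j) * v j
        = ∑ b, ev (L i b) * ∑ j, sym A ξ b j * v j := by
          simp only [Finset.sum_mul, Finset.mul_sum]
          rw [Finset.sum_comm]
          refine Finset.sum_congr rfl fun b _ => Finset.sum_congr rfl fun j _ => ?_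
          ring
      _ = 0 := by simp only [h10, mul_zero, Finset.sum_const_zero]
  rcases mul_eq_zero.1 h8 with h9 | h9
  · exact absurd h9 h7
  · exact h9

end GOD_

open GOD_ in
theorem god_proof (hCHR : Stmt_CHR) : Stmt_GOD := by
  intro n N K ℓ A hA w hw
  obtain ⟨s, hs0, hs⟩ := hCHR n N K ℓ A hA w hw
  refine ⟨s, hs0, fun d _hd hds => ?_⟩
  have hcont := f_cont A
  have hwpos : 0 < ‖w‖ := norm_pos_iff.2 hw
  -- the constant c_B
  obtain ⟨cB, hcB, hB⟩ : ∃ cB : ℝ, 0 < cB ∧ ∀ ξ : E n, ‖ξ‖ = 1 → ∀ v : Fin N → ℝ,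
      cB * ‖v‖ ≤ ‖sym A ξ *ᵥ v‖ := by
    obtain ⟨a, ha, hb⟩ := IsCompact.exists_forall_le'
      (f := fun p : E n × (Fin N → ℝ) => ‖sym A p.1 *ᵥ p.2‖) (a := 0)
      ((isCompact_sphere (0 : E n) 1).prod (isCompact_sphere (0 : Fin N → ℝ) 1))
      hcont.norm.continuousOn (by
        rintro ⟨ξ, v⟩ ⟨h1, h2⟩
        simp only [mem_sphere_iff_norm, sub_zero] at h1 h2
        rw [norm_pos_iff]
        intro h3
        have h4 : ξ ≠ 0 := by
          rintro rfl
          rw [norm_zero] at h1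
          exact zero_ne_one h1
        have h5 := inj ℓ A hA ξ h4 v h3
        rw [h5, norm_zero] at h2
        exact zero_ne_one h2)
    refine ⟨a, ha, fun ξ hξ v => ?_⟩
    by_cases hv : v = 0
    · rw [hv, norm_zero, mul_zero]
      exact norm_nonneg _
    · have hvp : 0 < ‖v‖ := norm_pos_iff.2 hv
      have h1 := hb (ξ, ‖v‖⁻¹ • v) ⟨by simpa using hξ, by
        simp only [mem_sphere_iff_norm, sub_zero]
        rw [norm_smul, norm_inv, norm_norm, inv_mul_cancel₀ hvp.ne']⟩
      simp only at h1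
      rw [Matrix.mulVec_smul, norm_smul, norm_inv, norm_norm] at h1
      rw [← le_div_iff₀ hvp, div_eq_inv_mul]
      exact h1
  -- the second constant
  obtain ⟨c1, hc1, hC⟩ := IsCompact.exists_forall_le'
      (f := fun p : E n × (Fin N → ℝ) => ‖w - sym A p.1 *ᵥ p.2‖ + |inner ℝ p.1 d|) (a := 0)
      ((isCompact_sphere (0 : E n) 1).prod
        (isCompact_closedBall (0 : Fin N → ℝ) ((‖w‖ + 1) / cB)))
      ((continuous_const.sub hcont).norm.add
        (continuous_fst.inner continuous_const).abs).continuousOn (by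
        rintro ⟨ξ, v⟩ ⟨h1, -⟩
        simp only [mem_sphere_iff_norm, sub_zero] at h1
        have h4 : ξ ≠ 0 := by
          rintro rfl
          rw [norm_zero] at h1
          exact zero_ne_one h1
        by_contra hcon
        push Not at hcon
        have h5 : ‖w - sym A ξ *ᵥ v‖ = 0 := by
          have := norm_nonneg (w - sym A ξ *ᵥ v)
          have := abs_nonneg (inner ℝ ξ d : ℝ)
          simp only at hcon
          linarith
        have h6 : |(inner ℝ ξ d : ℝ)| = 0 := by
          have := norm_nonneg (w - sym A ξ *ᵥ v)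
          have := abs_nonneg (inner ℝ ξ d : ℝ)
          simp only at hcon
          linarith
        have h7 : sym A ξ *ᵥ v = w := (sub_eq_zero.1 (norm_eq_zero.1 h5)).symm
        obtain ⟨ζ, hζ, c, hc⟩ := hs ξ h4 v h7
        have h8 := abs_eq_zero.1 h6
        rw [hc, inner_smul_left] at h8
        rcases mul_eq_zero.1 h8 with h9 | h9
        · apply h4
          have h10 : c = 0 := by simpa using h9
          rw [hc, h10, zero_smul]
        · exact hds ζ hζ h9)
  set c0 : ℝ := min (c1 / 2) (min ‖w‖ 1) with hc0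
  have hc0pos : 0 < c0 := lt_min (by linarith) (lt_min hwpos one_pos)
  have hc0a : c0 ≤ c1 / 2 := min_le_left _ _
  have hc0b : c0 ≤ ‖w‖ := (min_le_right _ _).trans (min_le_left _ _)
  have hc0c : c0 ≤ 1 := (min_le_right _ _).trans (min_le_right _ _)
  refine ⟨c0, hc0pos, c0, hc0pos, fun ω hω ξ hξω v => ?_⟩
  -- unit vectors
  have key : ∀ η : E n, ‖η‖ = 1 → (inner ℝ η ω : ℝ) = 0 → ∀ u : Fin N → ℝ,
      c0 ≤ ‖w - sym A η *ᵥ u‖ := by
    intro η hη hηω u
    by_cases hu : ‖u‖ ≤ (‖w‖ + 1) / cB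
    · have h1 := hC (η, u) ⟨by simpa using hη, by simpa using hu⟩
      simp only at h1
      have h2 : |(inner ℝ η d : ℝ)| ≤ c0 := by
        have h3 : (inner ℝ η d : ℝ) = inner ℝ η (d - ω) := by
          rw [inner_sub_right, hηω, sub_zero]
        rw [h3]
        calc |(inner ℝ η (d - ω) : ℝ)| ≤ ‖η‖ * ‖d - ω‖ := abs_real_inner_le_norm _ _
          _ = ‖ω - d‖ := by rw [hη, one_mul, norm_sub_rev]
          _ ≤ c0 := hω
      linarith
    · push Not at hu
      have h1 := hB η hη u
      have h2 : ‖w‖ + 1 < cB * ‖u‖ := by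
        rw [div_lt_iff₀ hcB] at hu
        linarith
      have h3 : ‖sym A η *ᵥ u‖ - ‖w‖ ≤ ‖w - sym A η *ᵥ u‖ := by
        rw [norm_sub_rev]
        exact norm_sub_norm_le _ _
      linarith
  by_cases hξ : ξ = 0
  · rw [hξ, sym_zero, Matrix.zero_mulVec, sub_zero]
    exact hc0b
  · have hξp : 0 < ‖ξ‖ := norm_pos_iff.2 hξ
    have h1 := key (‖ξ‖⁻¹ • ξ) (by rw [norm_smul, norm_inv, norm_norm, inv_mul_cancel₀ hξp.ne'])
      (by rw [inner_smul_left, hξω, mul_zero]) (‖ξ‖ • v)
    rw [sym_smul, Matrix.smul_mulVec, Matrix.mulVec_smul, smul_smul, inv_mul_cancel₀ hξp.ne',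
      one_smul] at h1
    exact h1

end Pool.Agent.CEL
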