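import Pool.Agent.CEL.Stmts

/-!
# CEL: module HAF (MP_12ff24_an), half-space limits
-/

set_option autoImplicit false
open Topology Filter MeasureTheory Matrix Metric
open scoped ENNReal

namespace Pool.Agent.CEL

namespace HAF_

/-- A smooth bump which is one on a compact set and supported in an open neighbourhood. -/
lemma exists_bump {n : ℕ} (C U : Set (E n)) (hC : IsCompact C) (hU : IsOpen U) (hCU : C ⊆ U) :
    ∃ ψ : E n → ℝ, TF ψ ∧ tsupport ψ ⊆ U ∧ (∀ z, 0 ≤ ψ z) ∧ ∀ z ∈ C, ψ z = 1 := by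
  obtain ⟨K, hK, hCK, hKU⟩ := exists_compact_between hC hU hCU
  obtain ⟨f, hf1, hf0, hf01⟩ := exists_contMDiffMap_one_nhds_of_subset_interior
    (n := (⊤ : ℕ∞)) (modelWithCornersSelf ℝ (E n)) hC.isClosed hCK
  have hsub : tsupport (f : E n → ℝ) ⊆ K := by
    apply closure_minimal _ hK.isClosed
    intro z hz
    by_contra hzK
    exact hz (hf0 z hzK)
  refine ⟨f, ⟨f.contMDiff.contDiff, ?_⟩, hsub.trans hKU, fun z => (hf01 z).1, ?_⟩
  · exact hK.of_isClosed_subset (isClosed_tsupport _) hsub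
  · intro z hz
    exact hf1.self_of_nhdsSet z hz

lemma mono_zero {n : ℕ} (z : E n) : mono (0 : Fin n → ℕ) z = 1 := by
  simp [mono]

lemma abs_mono_le {n : ℕ} (β : Fin n → ℕ) (z : E n) (hz : ‖z‖ ≤ 1) : |mono β z| ≤ 1 := by
  unfold mono
  rw [Finset.abs_prod]
  apply Finset.prod_le_one
  · intro i _
    exact abs_nonneg _
  · intro i _
    rw [abs_pow]
    apply pow_le_one₀ (abs_nonneg _)
    have := EuclideanSpace.norm_eq z
    have h2 : ‖z i‖ ≤ ‖z‖ := PiLp.norm_apply_le z i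
    rw [Real.norm_eq_abs] at h2
    exact h2.trans hz

lemma cont_mono {n : ℕ} (β : Fin n → ℕ) : Continuous (fun z : E n => mono β z) := by
  unfold mono
  fun_prop

lemma image_eq {m : ℕ} (x : E (m + 1)) {r : ℝ} (hr : 0 < r) (C : Set (E (m + 1))) :
    (fun z => x + r • z) '' C = {y | r⁻¹ • (y - x) ∈ C} := by
  ext y
  constructor
  · rintro ⟨z, hz, rfl⟩
    simp only [Set.mem_ofPred_eq, add_sub_cancel_left]
    rw [smul_smul, inv_mul_cancel₀ hr.ne', one_smul]
    exact hz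
  · intro hy
    refine ⟨r⁻¹ • (y - x), hy, ?_⟩
    simp only
    rw [smul_smul, mul_inv_cancel₀ hr.ne', one_smul]
    abel

lemma dens_le {m : ℕ} (μ : Measure (E (m + 1))) [IsFiniteMeasure μ] (x : E (m + 1))
    (C : Set (E (m + 1))) (ψ : E (m + 1) → ℝ) (hψ : TF ψ)
    (h0 : ∀ z, 0 ≤ ψ z) (h1 : ∀ z ∈ C, ψ z = 1) {r : ℝ} (hr : 0 < r) :
    dens μ x r C ≤ ENNReal.ofReal ((r ^ m)⁻¹ * ∫ y, ψ (r⁻¹ • (y - x)) ∂μ) := by
  have hcont : Continuous (fun y => ψ (r⁻¹ • (y - x))) :=
    hψ.1.continuous.comp (by fun_prop)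
  obtain ⟨M, hM⟩ := hψ.2.exists_bound_of_continuous hψ.1.continuous
  have hint : Integrable (fun y => ψ (r⁻¹ • (y - x))) μ := by
    refine Integrable.of_bound hcont.aestronglyMeasurable M ?_
    exact Eventually.of_forall fun y => hM _
  unfold dens
  rw [image_eq x hr, ENNReal.ofReal_mul (by positivity)]
  gcongr
  rw [ofReal_integral_eq_lintegral_ofReal hint (Eventually.of_forall fun y => h0 _)]
  have hle : ∀ y, ({y | r⁻¹ • (y - x) ∈ C} : Set (E (m + 1))).indicator (fun _ => (1 : ℝ≥0∞)) y ≤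
      ENNReal.ofReal (ψ (r⁻¹ • (y - x))) := by
    intro y
    by_cases hy : r⁻¹ • (y - x) ∈ C
    · rw [Set.indicator_of_mem (by exact hy), h1 _ hy]
      simp
    · rw [Set.indicator_of_notMem (by exact hy)]
      exact zero_le
  calc μ {y | r⁻¹ • (y - x) ∈ C}
      ≤ μ {y | 1 ≤ ENNReal.ofReal (ψ (r⁻¹ • (y - x)))} := by
        apply measure_mono
        intro y hy
        have := hle y
        rw [Set.indicator_of_mem hy] at this
        exact this
    _ ≤ ∫⁻ y, ENNReal.ofReal (ψ (r⁻¹ • (y - x))) ∂μ := by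
        have := mul_meas_ge_le_lintegral (μ := μ)
          (f := fun y => ENNReal.ofReal (ψ (r⁻¹ • (y - x)))) hcont.measurable.ennreal_ofReal 1
        rwa [one_mul] at this

lemma dens_tendsto {m : ℕ} (μ : Measure (E (m + 1))) [IsFiniteMeasure μ] (x : E (m + 1))
    (C : Set (E (m + 1))) (ψ : E (m + 1) → ℝ) (hψ : TF ψ)
    (h0 : ∀ z, 0 ≤ ψ z) (h1 : ∀ z ∈ C, ψ z = 1) (hT : T μ x ψ 0) :
    Tendsto (fun r => dens μ x r C) (𝓝[>] 0) (𝓝 0) := by
  have h2 : Tendsto (fun r : ℝ => ENNReal.ofReal ((r ^ m)⁻¹ * ∫ y, ψ (r⁻¹ • (y - x)) ∂μ))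
      (𝓝[>] 0) (𝓝 0) := by
    have := (ENNReal.continuous_ofReal.tendsto 0).comp hT
    rw [ENNReal.ofReal_zero] at this
    exact this
  refine tendsto_of_tendsto_of_tendsto_of_le_of_le' tendsto_const_nhds h2
    (Eventually.of_forall fun _ => zero_le) ?_
  filter_upwards [self_mem_nhdsWithin] with r hr
  exact dens_le μ x C ψ hψ h0 h1 hr

lemma dens_bound {m : ℕ} (μ : Measure (E (m + 1))) (x : E (m + 1)) (h : P1 μ x) :
    ∃ F : ℝ, 0 ≤ F ∧ ∀ r : ℝ, 0 < r → r ≤ 1 / 2 →
      dens μ x r (closedBall 0 2) ≤ ENNReal.ofReal F := by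
  obtain ⟨F, hF⟩ := h
  refine ⟨|F| * 2 ^ m, by positivity, ?_⟩
  intro r hr hr2
  have hsub : (fun z => x + r • z) '' (closedBall (0 : E (m + 1)) 2) ⊆ closedBall x (2 * r) := by
    rintro _ ⟨z, hz, rfl⟩
    rw [mem_closedBall_zero_iff] at hz
    simp only [mem_closedBall, dist_self_add_left, norm_smul, Real.norm_eq_abs, abs_of_pos hr]
    nlinarith
  unfold dens
  calc ENNReal.ofReal ((r ^ m)⁻¹) * μ ((fun z => x + r • z) '' (closedBall (0 : E (m + 1)) 2))
      ≤ ENNReal.ofReal ((r ^ m)⁻¹) * ENNReal.ofReal (F * (2 * r) ^ m) := by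
        gcongr
        exact (measure_mono hsub).trans (hF (2 * r) (by linarith) (by linarith))
    _ = ENNReal.ofReal ((r ^ m)⁻¹ * (F * (2 * r) ^ m)) := by
        exact (ENNReal.ofReal_mul (by positivity)).symm
    _ ≤ ENNReal.ofReal (|F| * 2 ^ m) := by
        apply ENNReal.ofReal_le_ofReal
        have : (r ^ m)⁻¹ * (F * (2 * r) ^ m) = F * 2 ^ m := by
          rw [mul_pow]
          field_simp
        rw [this]
        gcongr
        exact le_abs_self F

/-- The volume of thin slabs. -/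
lemma slab_small {n : ℕ} (ν : E n) (δ : ℝ≥0∞) (hδ : 0 < δ) (s₀ : ℝ) (hs₀ : 0 < s₀) :
    ∃ s : ℝ, 0 < s ∧ s ≤ s₀ ∧
      volume (closedBall (0 : E n) 1 ∩ {z | 0 < inner ℝ z ν ∧ inner ℝ z ν < 2 * s}) ≤ δ := by
  set St : ℕ → Set (E n) := fun k =>
    closedBall (0 : E n) 1 ∩ {z | 0 < inner ℝ z ν ∧ inner ℝ z ν < 2 * (s₀ / (k + 1))} with hSt
  have hinn : Continuous (fun z : E n => (inner ℝ z ν : ℝ)) := by fun_prop
  have hmeas : ∀ k, MeasurableSet (St k) := by
    intro k
    refine isClosed_closedBall.measurableSet.inter ?_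
    exact ((isOpen_lt continuous_const hinn).inter (isOpen_lt hinn continuous_const)).measurableSet
  have hanti : Antitone St := by
    intro i j hij z hz
    refine ⟨hz.1, hz.2.1, lt_of_lt_of_le hz.2.2 ?_⟩
    have hi : (0 : ℝ) < i + 1 := by positivity
    have hij' : (i : ℝ) + 1 ≤ j + 1 := by
      have : (i : ℝ) ≤ j := by exact_mod_cast hij
      linarith
    gcongr
  have hempty : ⋂ k, St k = ∅ := by
    rw [Set.eq_empty_iff_forall_notMem]
    intro z hz
    rw [Set.mem_iInter] at hz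
    have h0 : 0 < (inner ℝ z ν : ℝ) := (hz 0).2.1
    obtain ⟨k, hk⟩ := exists_nat_gt (2 * s₀ / (inner ℝ z ν : ℝ))
    have h1 := (hz k).2.2
    rw [div_lt_iff₀ h0] at hk
    have hk1 : (0 : ℝ) < k + 1 := by positivity
    rw [← mul_div_assoc, lt_div_iff₀ hk1] at h1
    nlinarith
  have hlim : Tendsto (fun k => volume (St k)) atTop (𝓝 (volume (⋂ k, St k))) := by
    refine tendsto_measure_iInter_atTop (fun k => (hmeas k).nullMeasurableSet) hanti ⟨0, ?_⟩
    have : volume (closedBall (0 : E n) 1) < ⊤ := measure_closedBall_lt_top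
    exact ((measure_mono Set.inter_subset_left).trans_lt this).ne
  rw [hempty, measure_empty] at hlim
  rw [ENNReal.tendsto_nhds_zero] at hlim
  obtain ⟨k, hk⟩ := (hlim δ hδ).exists
  refine ⟨s₀ / (k + 1), by positivity, ?_, hk⟩
  apply div_le_self hs₀.le
  have : (0 : ℝ) ≤ k := by positivity
  linarith

lemma exists_real_le (δ : ℝ≥0∞) (hδ : 0 < δ) : ∃ η : ℝ, 0 < η ∧ ENNReal.ofReal η ≤ δ := by
  by_cases h : δ = ⊤
  · exact ⟨1, one_pos, by rw [h]; exact le_top⟩
  · exact ⟨δ.toReal, ENNReal.toReal_pos hδ.ne' h, by rw [ENNReal.ofReal_toReal h]⟩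

end HAF_

open HAF_

/-- (4.6) -/
theorem haf_proof (h1 : Stmt_LIA) (h2 : Stmt_PWC) (h3 : Stmt_DUF) : Stmt_HAF := by
  intro m N K ℓ A hA Ru u μ g hp x ν hν hP1 hT d ρ hd hdν hρ hCP
  obtain ⟨a, ρ₀, hρ₀, hlim⟩ := h1 m N K ℓ A hA Ru u μ g hp x d ρ hd hρ hCP
  refine ⟨a, ?_⟩
  have := hp.fin
  have hinn : Continuous (fun z : E (m + 1) => (inner ℝ z ν : ℝ)) := by fun_prop
  set ρ' := min ρ₀ (min ((inner ℝ d ν : ℝ) / 2) (1 / 2)) with hρ'
  have hρ'pos : 0 < ρ' := lt_min hρ₀ (lt_min (by linarith) (by norm_num))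
  have hρ'1 : ρ' ≤ (inner ℝ d ν : ℝ) / 2 := (min_le_right _ _).trans (min_le_left _ _)
  have hρ'2 : ρ' ≤ 1 / 2 := (min_le_right _ _).trans (min_le_right _ _)
  obtain ⟨lam, hlam⟩ := h3 (m + 1) ℓ (ball d ρ') isOpen_ball ⟨d, mem_ball_self hρ'pos⟩
  have hidx0 : (0 : Fin (m + 1) → ℕ) ∈ idx (m + 1) ℓ := by
    have := hA.1
    simp [idx]
    omega
  have hcoef : ∀ β ∈ idx (m + 1) ℓ, Tendsto (Lr u x (lam β)) (𝓝[>] 0)
      (𝓝 ((if β = 0 then (1 : ℝ) else 0) • a)) := by
    intro β hβ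
    have h4 := hlim (lam β) (hlam β hβ).1
      ((hlam β hβ).2.1.trans (ball_subset_ball (min_le_left _ _)))
    have h := (hlam β hβ).2.2 0 hidx0
    simp only [mono_zero, mul_one] at h
    rwa [h] at h4
  set e : ℝ → ℝ := fun r =>
    ∑ β ∈ idx (m + 1) ℓ, ‖Lr u x (lam β) r - (if β = 0 then (1 : ℝ) else 0) • a‖ with he
  have helim : Tendsto e (𝓝[>] 0) (𝓝 0) := by
    have h4 : Tendsto e (𝓝[>] 0) (𝓝 (∑ β ∈ idx (m + 1) ℓ, (0 : ℝ))) := by
      apply tendsto_finsetSum
      intro β hβ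
      have h5 := ((hcoef β hβ).sub_const ((if β = 0 then (1 : ℝ) else 0) • a)).norm
      rw [sub_self, norm_zero] at h5
      exact h5
    rw [Finset.sum_const_zero] at h4
    exact h4
  set P : ℝ → E (m + 1) → (Fin N → ℝ) := fun r z =>
    ∑ β ∈ idx (m + 1) ℓ, mono β z • Lr u x (lam β) r with hP
  have hPa : ∀ r z, ‖z‖ ≤ 1 → ‖P r z - a‖ ≤ e r := by
    intro r z hz
    have haa : ∑ β ∈ idx (m + 1) ℓ, mono β z • ((if β = 0 then (1 : ℝ) else 0) • a) = a := by
      rw [Finset.sum_eq_single 0]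
      · simp [mono_zero]
      · intro β _ hβ
        simp [hβ]
      · intro h
        exact absurd hidx0 h
    calc ‖P r z - a‖ = ‖∑ β ∈ idx (m + 1) ℓ,
          mono β z • (Lr u x (lam β) r - (if β = 0 then (1 : ℝ) else 0) • a)‖ := by
          simp only [hP, smul_sub, Finset.sum_sub_distrib]
          rw [haa]
      _ ≤ ∑ β ∈ idx (m + 1) ℓ,
          ‖mono β z • (Lr u x (lam β) r - (if β = 0 then (1 : ℝ) else 0) • a)‖ :=
          norm_sum_le _ _
      _ ≤ e r := by
          apply Finset.sum_le_sum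
          intro β hβ
          rw [norm_smul, Real.norm_eq_abs]
          exact mul_le_of_le_one_left (norm_nonneg _) (abs_mono_le β z hz)
  have hPcont : ∀ r, Continuous (P r) := by
    intro r
    simp only [hP]
    refine continuous_finsetSum _ fun β _ => ?_
    exact (cont_mono β).smul continuous_const
  obtain ⟨F, hF0, hF⟩ := dens_bound μ x hP1
  unfold HalfLim
  rw [ENNReal.tendsto_nhds_zero]
  intro δ hδ
  obtain ⟨η, hη, hηδ⟩ := exists_real_le δ hδ
  -- the strip
  set ε : ℝ := η / 4 / (F + 1) with hε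
  have hεpos : 0 < ε := by positivity
  have hdual2 : Dual ℓ (closedBall (0 : E (m + 1)) 2) lam := by
    intro β hβ
    refine ⟨(hlam β hβ).1, (hlam β hβ).2.1.trans ?_, (hlam β hβ).2.2⟩
    intro z hz
    rw [mem_ball, dist_eq_norm] at hz
    rw [mem_closedBall_zero_iff]
    calc ‖z‖ = ‖(z - d) + d‖ := by rw [sub_add_cancel]
      _ ≤ ‖z - d‖ + ‖d‖ := norm_add_le _ _
      _ ≤ 2 := by rw [hd]; linarith
  obtain ⟨Cε, hCε, hstrip⟩ := h2 m N K ℓ A hA (closedBall 0 2) (closedBall 0 1) lam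
    (isCompact_closedBall _ _) (convex_closedBall _ _) (isCompact_closedBall _ _)
    (by
      rw [interior_closedBall _ (by norm_num)]
      intro z hz
      rw [mem_closedBall_zero_iff] at hz
      rw [mem_ball_zero_iff]
      linarith) hdual2 ε hεpos
  obtain ⟨s, hs, hsd, hvol⟩ := slab_small ν (ENNReal.ofReal (η / 4 / ((F + 1) * (Cε + 1))))
    (by rw [ENNReal.ofReal_pos]; positivity) ((inner ℝ d ν : ℝ) / 2) (by linarith)
  set Tst : Set (E (m + 1)) :=
    closedBall (0 : E (m + 1)) 1 ∩ {z | 0 < inner ℝ z ν ∧ inner ℝ z ν < 2 * s} with hTst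
  have hTmeas : MeasurableSet Tst := by
    refine isClosed_closedBall.measurableSet.inter ?_
    exact ((isOpen_lt continuous_const hinn).inter (isOpen_lt hinn continuous_const)).measurableSet
  -- the core
  set C : Set (E (m + 1)) := closedBall (0 : E (m + 1)) 2 ∩ {z | s ≤ inner ℝ z ν} with hC
  set C' : Set (E (m + 1)) := closedBall (0 : E (m + 1)) 1 ∩ {z | 2 * s ≤ inner ℝ z ν} with hC'
  have hCclosed : IsClosed {z : E (m + 1) | s ≤ (inner ℝ z ν : ℝ)} :=
    isClosed_le continuous_const hinn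
  have hC'closed : IsClosed {z : E (m + 1) | 2 * s ≤ (inner ℝ z ν : ℝ)} :=
    isClosed_le continuous_const hinn
  have hCcomp : IsCompact C := (isCompact_closedBall _ _).inter_right hCclosed
  have hC'comp : IsCompact C' := (isCompact_closedBall _ _).inter_right hC'closed
  have hCconv : Convex ℝ C := by
    refine (convex_closedBall _ _).inter ?_
    intro z hz w hw p q hp0 hq0 hpq
    simp only [Set.mem_ofPred_eq] at hz hw ⊢
    rw [inner_add_left, real_inner_smul_left, real_inner_smul_left]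
    nlinarith
  have hC'C : C' ⊆ interior C := by
    rw [subset_interior_iff]
    refine ⟨ball (0 : E (m + 1)) 2 ∩ {z | s < inner ℝ z ν}, ?_, ?_, ?_⟩
    · exact isOpen_ball.inter (isOpen_lt continuous_const hinn)
    · rintro z ⟨hz1, hz2⟩
      rw [mem_closedBall_zero_iff] at hz1
      simp only [Set.mem_ofPred_eq] at hz2
      refine ⟨?_, ?_⟩
      · rw [mem_ball_zero_iff]
        linarith
      · simp only [Set.mem_ofPred_eq]
        linarith
    · rintro z ⟨hz1, hz2⟩
      simp only [Set.mem_ofPred_eq] at hz2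
      refine ⟨ball_subset_closedBall hz1, ?_⟩
      simp only [Set.mem_ofPred_eq]
      exact hz2.le
  have hdualC : Dual ℓ C lam := by
    intro β hβ
    refine ⟨(hlam β hβ).1, (hlam β hβ).2.1.trans ?_, (hlam β hβ).2.2⟩
    intro z hz
    rw [mem_ball, dist_eq_norm] at hz
    refine ⟨?_, ?_⟩
    · rw [mem_closedBall_zero_iff]
      calc ‖z‖ = ‖(z - d) + d‖ := by rw [sub_add_cancel]
        _ ≤ ‖z - d‖ + ‖d‖ := norm_add_le _ _
        _ ≤ 2 := by rw [hd]; linarith
    · simp only [Set.mem_ofPred_eq]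
      have h4 : (inner ℝ z ν : ℝ) = inner ℝ (z - d) ν + inner ℝ d ν := by
        rw [← inner_add_left, sub_add_cancel]
      have h5 : |(inner ℝ (z - d) ν : ℝ)| ≤ ‖z - d‖ * ‖ν‖ := abs_real_inner_le_norm _ _
      rw [hν, mul_one] at h5
      have h6 := (abs_le.1 h5).1
      rw [h4]
      linarith
  obtain ⟨C1, hC1, hcore⟩ := h2 m N K ℓ A hA C C' lam hCcomp hCconv hC'comp hC'C hdualC 1 one_pos
  -- the density of the core
  obtain ⟨ψ, hψ, hψs, hψ0, hψ1⟩ := exists_bump C {z | 0 < inner ℝ z ν} hCcomp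
    (isOpen_lt continuous_const hinn) (by
      rintro z ⟨_, hz⟩
      simp only [Set.mem_ofPred_eq] at hz ⊢
      linarith)
  have hdens := dens_tendsto μ x C ψ hψ hψ0 hψ1 (hT ψ hψ fun z hz => hψs hz)
  have hvolC' : volume C' ≠ ⊤ := hC'comp.measure_lt_top.ne
  have hc1 : (ENNReal.ofReal 1 + ENNReal.ofReal C1 * volume C') ≠ ⊤ := by
    refine ENNReal.add_ne_top.2 ⟨ENNReal.ofReal_ne_top, ENNReal.mul_ne_top ENNReal.ofReal_ne_top hvolC'⟩
  have hlim1 : Tendsto (fun r => (ENNReal.ofReal 1 + ENNReal.ofReal C1 * volume C') *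
      dens μ x r C) (𝓝[>] 0) (𝓝 0) := by
    have h4 := ENNReal.Tendsto.const_mul (a := ENNReal.ofReal 1 + ENNReal.ofReal C1 * volume C')
      hdens (Or.inr hc1)
    rw [mul_zero] at h4
    exact h4
  have hvB : volume (closedBall (0 : E (m + 1)) 1) ≠ ⊤ :=
    (isCompact_closedBall _ _).measure_lt_top.ne
  have hlim2 : Tendsto (fun r => volume (closedBall (0 : E (m + 1)) 1) * ENNReal.ofReal (e r))
      (𝓝[>] 0) (𝓝 0) := by
    have h4 : Tendsto (fun r => ENNReal.ofReal (e r)) (𝓝[>] 0) (𝓝 0) := by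
      have h5 := (ENNReal.continuous_ofReal.tendsto 0).comp helim
      rw [ENNReal.ofReal_zero] at h5
      exact h5
    have h5 := ENNReal.Tendsto.const_mul (a := volume (closedBall (0 : E (m + 1)) 1))
      h4 (Or.inr hvB)
    rw [mul_zero] at h5
    exact h5
  have hη4 : 0 < ENNReal.ofReal (η / 4) := by
    rw [ENNReal.ofReal_pos]
    positivity
  have hhalf : ∀ᶠ r : ℝ in 𝓝[>] 0, r ≤ 1 / 2 := by
    have : Set.Iic (1 / 2 : ℝ) ∈ 𝓝 (0 : ℝ) := Iic_mem_nhds (by norm_num)
    exact mem_nhdsWithin_of_mem_nhds this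
  filter_upwards [ENNReal.tendsto_nhds_zero.1 hlim1 _ hη4, ENNReal.tendsto_nhds_zero.1 hlim2 _ hη4,
    self_mem_nhdsWithin, hhalf] with r hr1 hr2 hr hrh
  have hr0 : 0 < r := hr
  set S : Set (E (m + 1)) := ball (0 : E (m + 1)) 1 ∩ {z | 0 < inner ℝ z ν} with hS
  have hSmeas : MeasurableSet S :=
    isOpen_ball.measurableSet.inter (isOpen_lt continuous_const hinn).measurableSet
  have hSsub : S ⊆ C' ∪ Tst := by
    rintro z ⟨hz1, hz2⟩
    by_cases hz : 2 * s ≤ (inner ℝ z ν : ℝ)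
    · exact Or.inl ⟨ball_subset_closedBall hz1, hz⟩
    · exact Or.inr ⟨ball_subset_closedBall hz1, hz2, not_le.1 hz⟩
  have hA1 : ∫⁻ z in C', ‖u (x + r • z) - P r z‖ₑ ≤ ENNReal.ofReal (η / 4) :=
    (hcore Ru u μ g hp x r hr0 C' hC'comp.isClosed.measurableSet le_rfl).trans hr1
  have hA2 : ∫⁻ z in Tst, ‖u (x + r • z) - P r z‖ₑ ≤
      ENNReal.ofReal (η / 4) + ENNReal.ofReal (η / 4) := by
    refine (hstrip Ru u μ g hp x r hr0 Tst hTmeas Set.inter_subset_left).trans ?_
    calc (ENNReal.ofReal ε + ENNReal.ofReal Cε * volume Tst) * dens μ x r (closedBall 0 2)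
        ≤ (ENNReal.ofReal ε + ENNReal.ofReal Cε *
          ENNReal.ofReal (η / 4 / ((F + 1) * (Cε + 1)))) * ENNReal.ofReal F := by
          gcongr
          exact hF r hr0 hrh
      _ = ENNReal.ofReal (ε * F) +
          ENNReal.ofReal (Cε * (η / 4 / ((F + 1) * (Cε + 1))) * F) := by
          rw [add_mul, ENNReal.ofReal_mul hεpos.le, ENNReal.ofReal_mul (by positivity),
            ENNReal.ofReal_mul hCε]
      _ ≤ ENNReal.ofReal (η / 4) + ENNReal.ofReal (η / 4) := by
          gcongr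
          · rw [hε, div_mul_eq_mul_div, div_le_iff₀ (by positivity)]
            nlinarith
          · have h4 : Cε * (η / 4 / ((F + 1) * (Cε + 1))) * F =
                (η / 4) * ((Cε * F) / ((F + 1) * (Cε + 1))) := by
              field_simp
            rw [h4]
            apply mul_le_of_le_one_right (by positivity)
            rw [div_le_one (by positivity)]
            nlinarith
  have hA3 : ∫⁻ z in S, ‖P r z - a‖ₑ ≤ ENNReal.ofReal (η / 4) := by
    calc ∫⁻ z in S, ‖P r z - a‖ₑ ≤ ∫⁻ z in S, ENNReal.ofReal (e r) := by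
          refine setLIntegral_mono' hSmeas ?_
          rintro z ⟨hz1, hz2⟩
          rw [mem_ball_zero_iff] at hz1
          rw [← ofReal_norm]
          exact ENNReal.ofReal_le_ofReal (hPa r z hz1.le)
      _ = ENNReal.ofReal (e r) * volume S := setLIntegral_const _ _
      _ ≤ volume (closedBall (0 : E (m + 1)) 1) * ENNReal.ofReal (e r) := by
          rw [mul_comm]
          gcongr
          exact Set.inter_subset_left.trans ball_subset_closedBall
      _ ≤ ENNReal.ofReal (η / 4) := hr2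
  calc ∫⁻ z in S, ‖u (x + r • z) - a‖ₑ
      ≤ ∫⁻ z in S, (‖u (x + r • z) - P r z‖ₑ + ‖P r z - a‖ₑ) := by
        refine lintegral_mono fun z => ?_
        have h4 : u (x + r • z) - a = (u (x + r • z) - P r z) + (P r z - a) := by abel
        rw [h4]
        exact enorm_add_le _ _
    _ = (∫⁻ z in S, ‖u (x + r • z) - P r z‖ₑ) + ∫⁻ z in S, ‖P r z - a‖ₑ := by
        refine lintegral_add_right _ ?_
        exact ((hPcont r).sub continuous_const).enorm.measurable
    _ ≤ ((∫⁻ z in C', ‖u (x + r • z) - P r z‖ₑ) + ∫⁻ z in Tst, ‖u (x + r • z) - P r z‖ₑ) +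
          ∫⁻ z in S, ‖P r z - a‖ₑ := by
        gcongr
        exact (lintegral_mono_set hSsub).trans (lintegral_union_le _ _ _)
    _ ≤ (ENNReal.ofReal (η / 4) + (ENNReal.ofReal (η / 4) + ENNReal.ofReal (η / 4))) +
          ENNReal.ofReal (η / 4) := by
        gcongr
    _ = ENNReal.ofReal η := by
        rw [← ENNReal.ofReal_add (by positivity) (by positivity),
          ← ENNReal.ofReal_add (by positivity) (by positivity),
          ← ENNReal.ofReal_add (by positivity) (by positivity)]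
        congr 1
        ring
    _ ≤ δ := hηδ

end Pool.Agent.CEL
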