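import Pool.Agent.CEL.Stmts

/-!
# CEL, module HDV: `div(ζφ)` is orthogonal to polynomials
-/

set_option autoImplicit false
open Topology Filter MeasureTheory Matrix Metric
open scoped ENNReal

namespace Pool.Agent.CEL

namespace HDV_

theorem mono_split {n : ℕ} (γ : Fin n → ℕ) (x : E n) (i : Fin n) :
    mono γ x = (∏ j ∈ Finset.univ.erase i, x j ^ γ j) * x i ^ γ i := by
  unfold mono
  rw [Finset.prod_erase_mul _ _ (Finset.mem_univ i)]

theorem cont_mono {n : ℕ} (γ : Fin n → ℕ) : Continuous (mono γ : E n → ℝ) := by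
  unfold mono
  refine continuous_finsetProd _ fun i _ => Continuous.pow ?_ _
  exact (EuclideanSpace.proj i : E n →L[ℝ] ℝ).continuous

theorem upd_eq {n : ℕ} (β : Fin n → ℕ) (x : E n) (i : Fin n) :
    mono (Function.update β i (β i + 1)) x = x i * mono β x := by
  rw [mono_split _ x i, mono_split β x i, Function.update_self, pow_succ]
  have h : ∏ j ∈ Finset.univ.erase i, x j ^ (Function.update β i (β i + 1) j) =
      ∏ j ∈ Finset.univ.erase i, x j ^ β j := by
    refine Finset.prod_congr rfl fun j hj => ?_
    rw [Function.update_of_ne (Finset.ne_of_mem_erase hj)]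
  rw [h]
  ring

theorem line_mono {n : ℕ} (β : Fin n → ℕ) (x : E n) (i : Fin n) :
    HasLineDerivAt ℝ (fun z : E n => z i * mono β z) ((β i + 1 : ℝ) * mono β x) x (bs i) := by
  have h0 : ∀ t : ℝ, (x + t • (bs i : E n)) i * mono β (x + t • bs i) =
      (∏ j ∈ Finset.univ.erase i, x j ^ β j) * (x i + t) ^ (β i + 1) := by
    intro t
    rw [mono_split β _ i]
    have h1 : (x + t • (bs i : E n)) i = x i + t := by
      simp [bs]
    have h2 : ∏ j ∈ Finset.univ.erase i, (x + t • (bs i : E n)) j ^ β j =
        ∏ j ∈ Finset.univ.erase i, x j ^ β j := by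
      refine Finset.prod_congr rfl fun j hj => ?_
      have : (x + t • (bs i : E n)) j = x j := by
        simp [bs, Finset.ne_of_mem_erase hj]
      rw [this]
    rw [h1, h2, pow_succ]
    ring
  unfold HasLineDerivAt
  have h3 : (fun t : ℝ => (fun z : E n => z i * mono β z) (x + t • bs i)) =
      fun t => (∏ j ∈ Finset.univ.erase i, x j ^ β j) * (x i + t) ^ (β i + 1) := by
    funext t
    exact h0 t
  rw [h3]
  have h4 : HasDerivAt (fun t : ℝ => x i + t) 1 0 := by
    simpa using (hasDerivAt_id (0 : ℝ)).const_add (x i)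
  have h5 := (h4.pow (β i + 1)).const_mul (∏ j ∈ Finset.univ.erase i, x j ^ β j)
  have h6 : (∏ j ∈ Finset.univ.erase i, x j ^ β j) *
      (((β i + 1 : ℕ) : ℝ) * (x i + 0) ^ (β i + 1 - 1) * 1) = (β i + 1 : ℝ) * mono β x := by
    rw [mono_split β x i]
    simp only [add_zero, Nat.add_sub_cancel, mul_one]
    push_cast
    ring
  rw [← h6]
  exact h5

theorem ibp {n : ℕ} (φ : E n → ℝ) (hφ : TF φ) (β : Fin n → ℕ) (i : Fin n) :
    ∫ z, fderiv ℝ φ z (bs i) * (z i * mono β z) = - ((β i + 1 : ℝ) * ∫ z, φ z * mono β z) := by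
  have hd : Differentiable ℝ φ := hφ.1.differentiable (by simp)
  have hc1 : Continuous (fun z => fderiv ℝ φ z (bs i)) :=
    (hφ.1.continuous_fderiv (by simp)).clm_apply continuous_const
  have hs1 : HasCompactSupport (fun z => fderiv ℝ φ z (bs i)) :=
    hφ.2.fderiv_apply (𝕜 := ℝ) (bs i)
  have hci : Continuous (fun z : E n => z i) := (EuclideanSpace.proj i : E n →L[ℝ] ℝ).continuous
  have hg : Continuous (fun z : E n => z i * mono β z) := hci.mul (cont_mono β)
  have hg' : Continuous (fun z : E n => (β i + 1 : ℝ) * mono β z) :=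
    continuous_const.mul (cont_mono β)
  have key := integral_bilinear_hasLineDerivAt_right_eq_neg_left_of_integrable
    (μ := (volume : Measure (E n))) (f := fun z : E n => z i * mono β z)
    (f' := fun z : E n => (β i + 1 : ℝ) * mono β z) (g := φ) (g' := fun z => fderiv ℝ φ z (bs i))
    (v := bs i) (B := ContinuousLinearMap.mul ℝ ℝ) ?_ ?_ ?_ ?_ ?_
  · simp only [ContinuousLinearMap.mul_apply'] at key
    calc ∫ z, fderiv ℝ φ z (bs i) * (z i * mono β z)
        = ∫ z, (z i * mono β z) * fderiv ℝ φ z (bs i) :=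
          integral_congr_ae (Filter.Eventually.of_forall fun z => mul_comm _ _)
      _ = -∫ z, ((β i + 1 : ℝ) * mono β z) * φ z := key
      _ = - ((β i + 1 : ℝ) * ∫ z, φ z * mono β z) := by
          rw [← integral_const_mul]
          congr 1
          refine integral_congr_ae (Filter.Eventually.of_forall fun z => ?_)
          simp only
          ring
  · exact (hg'.mul hφ.1.continuous).integrable_of_hasCompactSupport hφ.2.mul_left
  · exact (hg.mul hc1).integrable_of_hasCompactSupport hs1.mul_left
  · exact (hg.mul hφ.1.continuous).integrable_of_hasCompactSupport hφ.2.mul_left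
  · exact fun x _ => line_mono β x i
  · exact fun x _ => (hd x).hasFDerivAt.hasLineDerivAt _

end HDV_

open HDV_ in
theorem hdv_proof : Stmt_HDV := by
  intro m ℓ φ hφ hrep
  have hfs : ContDiff ℝ (⊤ : ℕ∞) (fderiv ℝ φ) := hφ.1.fderiv_right (by exact_mod_cast le_top)
  constructor
  · constructor
    · unfold dvg
      exact (contDiff_const.mul hφ.1).add (hfs.clm_apply contDiff_id)
    · have h1 : HasCompactSupport (fun ζ => (m + 1 : ℝ) * φ ζ) := hφ.2.mul_left
      have h2 : HasCompactSupport (fun ζ => fderiv ℝ φ ζ ζ) := by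
        refine (hφ.2.fderiv (𝕜 := ℝ)).mono ?_
        intro ζ hζ h0
        apply hζ
        simp only [h0]
        rfl
      exact h1.add h2
  · intro β hβ
    have hc : Continuous φ := hφ.1.continuous
    have hexp : ∀ z : E (m + 1), dvg φ z * mono β z =
        (m + 1 : ℝ) * (φ z * mono β z) + ∑ i, fderiv ℝ φ z (bs i) * (z i * mono β z) := by
      intro z
      have hz : z = ∑ i, z i • (bs i : E (m + 1)) := by
        ext i
        simp [bs, Finset.sum_apply, Pi.single_apply]
      have h1 : fderiv ℝ φ z z = ∑ i, z i * fderiv ℝ φ z (bs i) := by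
        conv_lhs => rw [hz]
        rw [map_sum]
        refine Finset.sum_congr rfl fun i _ => ?_
        rw [map_smul, smul_eq_mul, ← hz]
      unfold dvg
      rw [h1, add_mul, Finset.sum_mul, mul_assoc]
      congr 1
      refine Finset.sum_congr rfl fun i _ => ?_
      ring
    have hci : ∀ i : Fin (m + 1), Continuous (fun z : E (m + 1) => z i) := fun i =>
      (EuclideanSpace.proj i : E (m + 1) →L[ℝ] ℝ).continuous
    have i1 : Integrable (fun z => (m + 1 : ℝ) * (φ z * mono β z)) :=
      ((hc.mul (cont_mono β)).integrable_of_hasCompactSupport hφ.2.mul_right).const_mul _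
    have i2 : ∀ i : Fin (m + 1), Integrable (fun z => fderiv ℝ φ z (bs i) * (z i * mono β z)) := by
      intro i
      have hc1 : Continuous (fun z => fderiv ℝ φ z (bs i)) :=
        (hφ.1.continuous_fderiv (by simp)).clm_apply continuous_const
      have hs1 : HasCompactSupport (fun z => fderiv ℝ φ z (bs i)) :=
        hφ.2.fderiv_apply (𝕜 := ℝ) (bs i)
      exact (hc1.mul ((hci i).mul (cont_mono β))).integrable_of_hasCompactSupport hs1.mul_right
    rw [integral_congr_ae (Filter.Eventually.of_forall hexp),
      integral_add i1 (integrable_finsetSum _ fun i _ => i2 i),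
      integral_finsetSum _ fun i _ => i2 i, integral_const_mul]
    rw [Finset.sum_congr rfl fun i _ => ibp φ hφ β i, hrep β hβ]
    rw [Finset.sum_neg_distrib, ← Finset.sum_mul, Finset.sum_add_distrib]
    simp only [Finset.sum_const, Finset.card_univ, Fintype.card_fin, nsmul_eq_mul, mul_one]
    by_cases h0 : β = 0
    · subst h0
      simp
    · rw [if_neg h0]
      simp

end Pool.Agent.CEL
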