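import Pool.Agent.CEL.Stmts

/-!
# HLM: the centred Hardy-Littlewood maximal function is bounded in L2
-/

set_option autoImplicit false
open Topology Filter MeasureTheory Matrix Metric
open scoped ENNReal

namespace Pool.Agent.CEL
namespace HLM_

variable {m : ℕ}

theorem lt_MX {ψ : E m → ℝ≥0∞} {t : ℝ≥0∞} {p : E m} :
    t < MX ψ p ↔ ∃ r : ℝ, 0 < r ∧ t < (volume (ball p r))⁻¹ * ∫⁻ q in ball p r, ψ q := by
  unfold MX
  simp only [lt_iSup_iff, exists_prop]

theorem le_MX (ψ : E m → ℝ≥0∞) (p : E m) {r : ℝ} (hr : 0 < r) :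
    (volume (ball p r))⁻¹ * ∫⁻ q in ball p r, ψ q ≤ MX ψ p := by
  unfold MX
  exact le_iSup₂ (f := fun (r : ℝ) (_ : 0 < r) =>
    (volume (ball p r))⁻¹ * ∫⁻ q in ball p r, ψ q) r hr

theorem isOpen_lt (h1 : Stmt_BSV) (ψ : E m → ℝ≥0∞) (t : ℝ≥0∞) : IsOpen {p | t < MX ψ p} := by
  obtain ⟨v, hv0, hvt, hv⟩ := h1 m
  rw [Metric.isOpen_iff]
  intro p hp
  obtain ⟨r, hr, ht⟩ := lt_MX.1 hp
  have hsup : ∃ r' : ℝ, 0 < r' ∧ r' < r ∧
      t < (volume (ball p r))⁻¹ * ∫⁻ q in ball p r', ψ q := by
    by_contra hcon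
    push Not at hcon
    have hU : ball p r = ⋃ n : ℕ, ball p (r * (1 - 1 / ((n : ℝ) + 2))) := by
      apply Set.Subset.antisymm
      · intro x hx
        rw [mem_ball] at hx
        have hpos : 0 < 1 - dist x p / r := by
          rw [sub_pos, div_lt_one hr]; exact hx
        obtain ⟨n, hn⟩ := exists_nat_one_div_lt hpos
        rw [Set.mem_iUnion]
        refine ⟨n, ?_⟩
        rw [mem_ball]
        have h2 : 1 / ((n : ℝ) + 2) ≤ 1 / ((n : ℝ) + 1) := by
          apply one_div_le_one_div_of_le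
          · positivity
          · linarith
        have h3 : dist x p / r < 1 - 1 / ((n : ℝ) + 2) := by linarith
        rw [div_lt_iff₀ hr] at h3
        linarith [mul_comm r (1 - 1 / ((n : ℝ) + 2))]
      · apply Set.iUnion_subset
        intro n
        apply ball_subset_ball
        have h2 : 0 ≤ 1 / ((n : ℝ) + 2) := by positivity
        nlinarith
    have hmono : Monotone (fun n : ℕ => ball p (r * (1 - 1 / ((n : ℝ) + 2)))) := by
      intro a b hab
      apply ball_subset_ball
      have h2 : 1 / ((b : ℝ) + 2) ≤ 1 / ((a : ℝ) + 2) := by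
        apply one_div_le_one_div_of_le
        · positivity
        · have : (a : ℝ) ≤ b := by exact_mod_cast hab
          linarith
      nlinarith
    have hle : (volume (ball p r))⁻¹ * ∫⁻ q in ball p r, ψ q ≤ t := by
      have h3 : ∫⁻ q in ball p r, ψ q
          = ⨆ n : ℕ, ∫⁻ q in ball p (r * (1 - 1 / ((n : ℝ) + 2))), ψ q := by
        conv_lhs => rw [hU]
        exact setLIntegral_iUnion_of_directed ψ hmono.directed_le
      rw [h3, ENNReal.mul_iSup]
      apply iSup_le
      intro n
      apply hcon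
      · apply mul_pos hr
        have : 1 / ((n : ℝ) + 2) < 1 := by
          rw [div_lt_one (by positivity)]
          have : (0 : ℝ) ≤ n := Nat.cast_nonneg n
          linarith
        linarith
      · have h2 : 0 < 1 / ((n : ℝ) + 2) := by positivity
        nlinarith
    exact absurd ht (not_lt.2 hle)
  obtain ⟨r', hr', hrr, ht'⟩ := hsup
  refine ⟨r - r', by linarith, ?_⟩
  intro p' hp'
  rw [mem_ball] at hp'
  refine lt_of_lt_of_le ht' (le_trans ?_ (le_MX ψ p' hr))
  rw [(hv p r hr).1, (hv p' r hr).1]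
  gcongr
  apply ball_subset_ball'
  rw [dist_comm]
  linarith

theorem meas_MX (h1 : Stmt_BSV) (ψ : E m → ℝ≥0∞) : Measurable (MX ψ) :=
  measurable_of_Ioi (fun t => (isOpen_lt h1 ψ t).measurableSet)

theorem weakR (h1 : Stmt_BSV) (ψ : E m → ℝ≥0∞) (t : ℝ≥0∞) (n : ℕ) :
    t * volume {p : E m | ∃ r : ℝ, (0 < r ∧ r ≤ n) ∧
      t < (volume (ball p r))⁻¹ * ∫⁻ q in ball p r, ψ q} ≤
      ENNReal.ofReal (5 ^ m) * ∫⁻ q, ψ q := by
  obtain ⟨v, hv0, hvt, hv⟩ := h1 m
  set S : Set (E m) := {p : E m | ∃ r : ℝ, (0 < r ∧ r ≤ n) ∧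
      t < (volume (ball p r))⁻¹ * ∫⁻ q in ball p r, ψ q} with hS
  have hch : ∀ p : E m, ∃ r : ℝ, p ∈ S → (0 < r ∧ r ≤ n) ∧
      t < (volume (ball p r))⁻¹ * ∫⁻ q in ball p r, ψ q := by
    intro p
    by_cases hp : p ∈ S
    · obtain ⟨r, hr⟩ := hp
      exact ⟨r, fun _ => hr⟩
    · exact ⟨0, fun h => absurd h hp⟩
  choose r hr using hch
  obtain ⟨u, huS, hdis, hcov⟩ := Vitali.exists_disjoint_subfamily_covering_enlargement_closedBall
    S (fun p : E m => p) r n (fun a ha => (hr a ha).1.2) 5 (by norm_num)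
  have hdis' : u.PairwiseDisjoint (fun a => ball a (r a)) :=
    hdis.mono (fun a => ball_subset_closedBall)
  have hcount : u.Countable := by
    apply hdis'.countable_of_isOpen (fun a _ => isOpen_ball)
    intro a ha
    exact ⟨a, mem_ball_self (hr a (huS ha)).1.1⟩
  have hsub : S ⊆ ⋃ b ∈ u, closedBall b (5 * r b) := by
    intro a ha
    obtain ⟨b, hb, hab⟩ := hcov a ha
    rw [Set.mem_iUnion₂]
    exact ⟨b, hb, hab (mem_closedBall_self (hr a ha).1.1.le)⟩
  have hkey : ∀ b : u, t * volume (closedBall (b : E m) (5 * r b)) ≤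
      ENNReal.ofReal (5 ^ m) * ∫⁻ q in ball (b : E m) (r b), ψ q := by
    intro b
    have hb := hr b (huS b.2)
    have hpos : 0 < r b := hb.1.1
    have hvb := (hv b (r b) hpos).1
    have hb0 : volume (ball (b : E m) (r b)) ≠ 0 := by
      rw [hvb]
      refine mul_ne_zero ?_ hv0
      rw [Ne, ENNReal.ofReal_eq_zero, not_le]
      positivity
    have hbt : volume (ball (b : E m) (r b)) ≠ ⊤ := by
      rw [hvb]
      exact ENNReal.mul_ne_top ENNReal.ofReal_ne_top hvt
    have h2 : volume (closedBall (b : E m) (5 * r b)) =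
        ENNReal.ofReal (5 ^ m) * volume (ball (b : E m) (r b)) := by
      rw [(hv b (5 * r b) (by positivity)).2, hvb, mul_pow, ENNReal.ofReal_mul (by positivity),
        mul_assoc]
    rw [h2]
    calc t * (ENNReal.ofReal (5 ^ m) * volume (ball (b : E m) (r b)))
        = ENNReal.ofReal (5 ^ m) * (t * volume (ball (b : E m) (r b))) := by ring
      _ ≤ ENNReal.ofReal (5 ^ m) * (((volume (ball (b : E m) (r b)))⁻¹ *
            ∫⁻ q in ball (b : E m) (r b), ψ q) * volume (ball (b : E m) (r b))) := by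
          gcongr
          exact hb.2.le
      _ = ENNReal.ofReal (5 ^ m) * ∫⁻ q in ball (b : E m) (r b), ψ q := by
          congr 1
          rw [mul_comm (volume (ball (b : E m) (r b)))⁻¹, mul_assoc,
            ENNReal.inv_mul_cancel hb0 hbt, mul_one]
  calc t * volume S ≤ t * volume (⋃ b ∈ u, closedBall b (5 * r b)) := by
        gcongr
    _ ≤ t * ∑' b : u, volume (closedBall (b : E m) (5 * r b)) := by
        gcongr
        exact measure_biUnion_le volume hcount _
    _ = ∑' b : u, t * volume (closedBall (b : E m) (5 * r b)) := by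
        rw [ENNReal.tsum_mul_left]
    _ ≤ ∑' b : u, ENNReal.ofReal (5 ^ m) * ∫⁻ q in ball (b : E m) (r b), ψ q :=
        ENNReal.tsum_le_tsum hkey
    _ = ENNReal.ofReal (5 ^ m) * ∑' b : u, ∫⁻ q in ball (b : E m) (r b), ψ q := by
        rw [ENNReal.tsum_mul_left]
    _ = ENNReal.ofReal (5 ^ m) * ∫⁻ q in ⋃ b ∈ u, ball b (r b), ψ q := by
        rw [lintegral_biUnion hcount (fun b _ => measurableSet_ball) hdis']
    _ ≤ ENNReal.ofReal (5 ^ m) * ∫⁻ q, ψ q :=
        mul_le_mul_right (setLIntegral_le_lintegral _ _) _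

theorem weak (h1 : Stmt_BSV) (ψ : E m → ℝ≥0∞) (t : ℝ≥0∞) :
    t * volume {p : E m | t < MX ψ p} ≤ ENNReal.ofReal (5 ^ m) * ∫⁻ q, ψ q := by
  have hU : {p : E m | t < MX ψ p} = ⋃ n : ℕ, {p : E m | ∃ r : ℝ, (0 < r ∧ r ≤ n) ∧
      t < (volume (ball p r))⁻¹ * ∫⁻ q in ball p r, ψ q} := by
    ext p
    simp only [Set.mem_iUnion, Set.mem_ofPred_eq, lt_MX]
    constructor
    · rintro ⟨r, hr, h⟩
      obtain ⟨n, hn⟩ := exists_nat_ge r
      exact ⟨n, r, ⟨hr, hn⟩, h⟩
    · rintro ⟨n, r, ⟨hr, _⟩, h⟩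
      exact ⟨r, hr, h⟩
  have hmono : Monotone (fun n : ℕ => {p : E m | ∃ r : ℝ, (0 < r ∧ r ≤ n) ∧
      t < (volume (ball p r))⁻¹ * ∫⁻ q in ball p r, ψ q}) := by
    intro a b hab p
    rintro ⟨r, ⟨hr, hn⟩, h⟩
    exact ⟨r, ⟨hr, hn.trans (by exact_mod_cast hab)⟩, h⟩
  rw [hU, hmono.measure_iUnion, ENNReal.mul_iSup]
  exact iSup_le (fun n => weakR h1 ψ t n)

theorem MX_le_add (h1 : Stmt_BSV) {ψ φ : E m → ℝ≥0∞} (hφ : Measurable φ) (c : ℝ≥0∞)
    (h : ∀ q, ψ q ≤ φ q + c) (p : E m) : MX ψ p ≤ MX φ p + c := by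
  obtain ⟨v, hv0, hvt, hv⟩ := h1 m
  unfold MX
  apply iSup₂_le
  intro r hr
  have hvb := (hv p r hr).1
  have hb0 : volume (ball p r) ≠ 0 := by
    rw [hvb]
    refine mul_ne_zero ?_ hv0
    rw [Ne, ENNReal.ofReal_eq_zero, not_le]
    positivity
  have hbt : volume (ball p r) ≠ ⊤ := by
    rw [hvb]
    exact ENNReal.mul_ne_top ENNReal.ofReal_ne_top hvt
  calc (volume (ball p r))⁻¹ * ∫⁻ q in ball p r, ψ q
      ≤ (volume (ball p r))⁻¹ * ∫⁻ q in ball p r, (φ q + c) := by
        gcongr with q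
        exact h q
    _ = (volume (ball p r))⁻¹ * ((∫⁻ q in ball p r, φ q) + c * volume (ball p r)) := by
        rw [lintegral_add_left hφ, setLIntegral_const]
    _ = (volume (ball p r))⁻¹ * (∫⁻ q in ball p r, φ q) + c := by
        rw [mul_add, mul_comm c, ← mul_assoc, ENNReal.inv_mul_cancel hb0 hbt, one_mul]
    _ ≤ _ := by
        gcongr
        exact le_MX φ p hr

/-- First layer cake identity (upper bound). -/
theorem lay1 (c : ℝ≥0∞) :
    ∫⁻ t in Set.Ioi (0 : ℝ), (if ENNReal.ofReal t < c then 1 else 0 : ℝ≥0∞) ≤ c := by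
  by_cases hc : c = ⊤
  · rw [hc]; exact le_top
  lift c to NNReal using hc
  calc ∫⁻ t in Set.Ioi (0 : ℝ), (if ENNReal.ofReal t < c then 1 else 0 : ℝ≥0∞)
      ≤ ∫⁻ t in Set.Ioi (0 : ℝ), (Set.Ioo (0 : ℝ) c).indicator 1 t := by
        apply setLIntegral_mono' measurableSet_Ioi
        intro t ht
        split_ifs with h
        · have : t < c := by
            rw [← ENNReal.ofReal_coe_nnreal] at h
            rw [ENNReal.ofReal_lt_ofReal_iff_of_nonneg (le_of_lt ht)] at h
            exact h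
          have h2 : t ∈ Set.Ioo (0 : ℝ) c := ⟨ht, this⟩
          rw [Set.indicator_of_mem h2]
          exact le_refl _
        · exact bot_le
    _ ≤ ∫⁻ t, (Set.Ioo (0 : ℝ) c).indicator 1 t := setLIntegral_le_lintegral _ _
    _ = c := by
        rw [lintegral_indicator_one measurableSet_Ioo, Real.volume_Ioo]
        simp

/-- Second layer cake identity (lower bound). -/
theorem lay2 (c : ℝ≥0∞) :
    c ^ 2 ≤ ∫⁻ t in Set.Ioi (0 : ℝ), (if ENNReal.ofReal t < c then ENNReal.ofReal (2 * t) else 0) := by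
  have hfin : ∀ a : ℝ, 0 ≤ a → ENNReal.ofReal a ≤ c →
      ENNReal.ofReal a ^ 2 ≤
        ∫⁻ t in Set.Ioi (0 : ℝ), (if ENNReal.ofReal t < c then ENNReal.ofReal (2 * t) else 0) := by
    intro a ha hac
    have h1 : ∫⁻ t in Set.Ioo (0 : ℝ) a, ENNReal.ofReal (2 * t) = ENNReal.ofReal a ^ 2 := by
      rw [← ofReal_integral_eq_lintegral_ofReal]
      · rw [← integral_Ioc_eq_integral_Ioo, ← intervalIntegral.integral_of_le ha,
          intervalIntegral.integral_const_mul, integral_id, ← ENNReal.ofReal_pow ha]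
        congr 1
        ring
      · exact (continuous_const.mul continuous_id).continuousOn.integrableOn_Icc.mono_set
          Set.Ioo_subset_Icc_self
      · rw [EventuallyLE, ae_restrict_iff' measurableSet_Ioo]
        refine Eventually.of_forall (fun t ht => ?_)
        have := ht.1
        simp only [Pi.zero_apply]
        linarith
    rw [← h1]
    calc ∫⁻ t in Set.Ioo (0 : ℝ) a, ENNReal.ofReal (2 * t)
        ≤ ∫⁻ t in Set.Ioo (0 : ℝ) a,
            (if ENNReal.ofReal t < c then ENNReal.ofReal (2 * t) else 0) := by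
          apply setLIntegral_mono' measurableSet_Ioo
          intro t ht
          have : ENNReal.ofReal t < c := by
            refine lt_of_lt_of_le ?_ hac
            rw [ENNReal.ofReal_lt_ofReal_iff_of_nonneg (le_of_lt ht.1)]
            exact ht.2
          rw [if_pos this]
      _ ≤ _ := by
          apply lintegral_mono_set
          intro t ht
          exact ht.1
  by_cases hc : c = ⊤
  · subst hc
    have : ∀ n : ℕ, (n : ℝ≥0∞) ≤
        ∫⁻ t in Set.Ioi (0 : ℝ), (if ENNReal.ofReal t < ⊤ then ENNReal.ofReal (2 * t) else 0) := by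
      intro n
      refine le_trans ?_ (hfin n (Nat.cast_nonneg n) le_top)
      rw [ENNReal.ofReal_natCast]
      calc (n : ℝ≥0∞) = ((n : ℕ) : ℝ≥0∞) := rfl
        _ ≤ ((n ^ 2 : ℕ) : ℝ≥0∞) := by
            exact_mod_cast Nat.le_self_pow (by norm_num) n
        _ = (n : ℝ≥0∞) ^ 2 := by push_cast; rfl
    refine le_trans le_top (le_of_eq (Eq.symm (ENNReal.eq_top_of_forall_nnreal_le ?_)))
    intro r
    obtain ⟨n, hn⟩ := exists_nat_ge r
    exact le_trans (by exact_mod_cast hn) (this n)
  · lift c to NNReal using hc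
    have := hfin c c.2 (by simp)
    rw [ENNReal.ofReal_coe_nnreal] at this
    exact this

theorem strong (h1 : Stmt_BSV) (ψ : E m → ℝ≥0∞) (hψ : Measurable ψ) :
    ∫⁻ p, (MX ψ p) ^ 2 ≤ (8 * ENNReal.ofReal (5 ^ m)) * ∫⁻ p, (ψ p) ^ 2 := by
  have hM := meas_MX h1 ψ
  -- weak type for the truncation
  have hw : ∀ t : ℝ, 0 < t →
      ENNReal.ofReal (2 * t) * volume {p : E m | ENNReal.ofReal t < MX ψ p} ≤
      4 * ENNReal.ofReal (5 ^ m) * ∫⁻ q, (if ENNReal.ofReal t < 2 * ψ q then ψ q else 0) := by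
    intro t ht
    set φ : E m → ℝ≥0∞ := fun q => if ENNReal.ofReal t < 2 * ψ q then ψ q else 0 with hφdef
    have hφ : Measurable φ :=
      Measurable.ite (measurableSet_lt measurable_const (hψ.const_mul 2)) hψ measurable_const
    have hle : ∀ q, ψ q ≤ φ q + ENNReal.ofReal (t / 2) := by
      intro q
      simp only [hφdef]
      split_ifs with h
      · exact le_self_add
      · rw [zero_add]
        rw [not_lt] at h
        have h2 : ENNReal.ofReal t = 2 * ENNReal.ofReal (t / 2) := by
          rw [show (2 : ℝ≥0∞) = ENNReal.ofReal 2 by simp, ← ENNReal.ofReal_mul (by norm_num)]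
          congr 1
          ring
        rw [h2] at h
        exact (ENNReal.mul_le_mul_iff_right (by norm_num) (by norm_num)).1 h
    have hsub : {p : E m | ENNReal.ofReal t < MX ψ p} ⊆
        {p : E m | ENNReal.ofReal (t / 2) < MX φ p} := by
      intro p hp
      rw [Set.mem_ofPred_eq] at hp ⊢
      by_contra hcon
      rw [not_lt] at hcon
      have h3 := MX_le_add h1 hφ (ENNReal.ofReal (t / 2)) hle p
      have h4 : MX ψ p ≤ ENNReal.ofReal t := by
        refine h3.trans ?_
        refine (add_le_add hcon le_rfl).trans ?_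
        rw [← ENNReal.ofReal_add (by positivity) (by positivity)]
        rw [add_halves]
      exact absurd hp (not_lt.2 h4)
    have h5 := weak h1 φ (ENNReal.ofReal (t / 2))
    calc ENNReal.ofReal (2 * t) * volume {p : E m | ENNReal.ofReal t < MX ψ p}
        ≤ ENNReal.ofReal (2 * t) * volume {p : E m | ENNReal.ofReal (t / 2) < MX φ p} := by
          gcongr
      _ = 4 * (ENNReal.ofReal (t / 2) * volume {p : E m | ENNReal.ofReal (t / 2) < MX φ p}) := by
          rw [← mul_assoc]
          congr 1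
          rw [show (4 : ℝ≥0∞) = ENNReal.ofReal 4 by simp, ← ENNReal.ofReal_mul (by norm_num)]
          congr 1
          ring
      _ ≤ 4 * (ENNReal.ofReal (5 ^ m) * ∫⁻ q, φ q) := by gcongr
      _ = _ := by rw [mul_assoc]
  calc ∫⁻ p, (MX ψ p) ^ 2
      ≤ ∫⁻ p, ∫⁻ t in Set.Ioi (0 : ℝ),
          (if ENNReal.ofReal t < MX ψ p then ENNReal.ofReal (2 * t) else 0) :=
        lintegral_mono (fun p => lay2 _)
    _ = ∫⁻ t in Set.Ioi (0 : ℝ), ∫⁻ p,
          (if ENNReal.ofReal t < MX ψ p then ENNReal.ofReal (2 * t) else 0) := by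
        rw [lintegral_lintegral_swap]
        apply Measurable.aemeasurable
        apply Measurable.ite
        · apply measurableSet_lt
          · exact ENNReal.measurable_ofReal.comp measurable_snd
          · exact hM.comp measurable_fst
        · exact ENNReal.measurable_ofReal.comp (measurable_snd.const_mul 2)
        · exact measurable_const
    _ ≤ ∫⁻ t in Set.Ioi (0 : ℝ), 4 * ENNReal.ofReal (5 ^ m) *
          ∫⁻ q, (if ENNReal.ofReal t < 2 * ψ q then ψ q else 0) := by
        apply setLIntegral_mono' measurableSet_Ioi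
        intro t ht
        refine le_trans (le_of_eq ?_) (hw t ht)
        rw [← lintegral_indicator_const]
        · apply lintegral_congr
          intro p
          simp only [Set.indicator, Set.mem_ofPred_eq]
        · exact (isOpen_lt h1 ψ _).measurableSet
    _ = 4 * ENNReal.ofReal (5 ^ m) * ∫⁻ t in Set.Ioi (0 : ℝ),
          ∫⁻ q, (if ENNReal.ofReal t < 2 * ψ q then ψ q else 0) := by
        rw [lintegral_const_mul']
        exact ENNReal.mul_ne_top (by norm_num) ENNReal.ofReal_ne_top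
    _ = 4 * ENNReal.ofReal (5 ^ m) * ∫⁻ q, ∫⁻ t in Set.Ioi (0 : ℝ),
          (if ENNReal.ofReal t < 2 * ψ q then ψ q else 0) := by
        congr 1
        rw [lintegral_lintegral_swap]
        apply Measurable.aemeasurable
        apply Measurable.ite
        · apply measurableSet_lt
          · exact ENNReal.measurable_ofReal.comp measurable_fst
          · exact (hψ.comp measurable_snd).const_mul 2
        · exact hψ.comp measurable_snd
        · exact measurable_const
    _ ≤ 4 * ENNReal.ofReal (5 ^ m) * ∫⁻ q, 2 * (ψ q) ^ 2 := by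
        gcongr with q
        calc ∫⁻ t in Set.Ioi (0 : ℝ), (if ENNReal.ofReal t < 2 * ψ q then ψ q else 0)
            = ∫⁻ t in Set.Ioi (0 : ℝ),
                ψ q * (if ENNReal.ofReal t < 2 * ψ q then 1 else 0 : ℝ≥0∞) := by
              congr 1
              ext t
              split_ifs <;> simp
          _ = ψ q * ∫⁻ t in Set.Ioi (0 : ℝ),
                (if ENNReal.ofReal t < 2 * ψ q then 1 else 0 : ℝ≥0∞) := by
              rw [lintegral_const_mul]
              apply Measurable.ite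
              · exact measurableSet_lt ENNReal.measurable_ofReal measurable_const
              · exact measurable_const
              · exact measurable_const
          _ ≤ ψ q * (2 * ψ q) := by
              gcongr
              exact lay1 _
          _ = 2 * (ψ q) ^ 2 := by ring
    _ = _ := by
        rw [lintegral_const_mul _ (hψ.pow_const 2), ← mul_assoc]
        congr 1
        ring

end HLM_

theorem hlm_proof (h1 : Stmt_BSV) : Stmt_HLM := by
  intro m
  refine ⟨8 * ENNReal.ofReal (5 ^ m), ENNReal.mul_ne_top (by norm_num) ENNReal.ofReal_ne_top, ?_⟩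
  intro ψ hψ
  exact ⟨HLM_.isOpen_lt h1 ψ, HLM_.meas_MX h1 ψ, HLM_.strong h1 ψ hψ⟩

end Pool.Agent.CEL
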