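import Pool.Agent.CEL.Stmts

/-!
# CEL, module LIA: limits of `L_r^κ(u)(x)` for `κ` supported in a cone with finite potential
-/

set_option autoImplicit false
open Topology Filter MeasureTheory Matrix Metric
open scoped ENNReal

namespace Pool.Agent.CEL

namespace LIA_

/-! ## sequences -/

theorem seq_half {x y : ℕ → ℝ} (hx : ∀ k, 0 ≤ x k) (hy : ∀ k, 0 ≤ y k) (hs : Summable y)
    (h : ∀ k, x (k + 1) ≤ x k / 2 + y k) : Tendsto x atTop (𝓝 0) := by
  have hb : ∀ n, ∑ i ∈ Finset.range n, x i ≤ 2 * (x 0 + ∑' i, y i) := by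
    intro n
    have h1 : ∑ i ∈ Finset.range n, x (i + 1) ≤
        (∑ i ∈ Finset.range n, x i) / 2 + ∑ i ∈ Finset.range n, y i := by
      rw [Finset.sum_div, ← Finset.sum_add_distrib]
      exact Finset.sum_le_sum fun i _ => h i
    have h2 : ∑ i ∈ Finset.range n, y i ≤ ∑' i, y i := hs.sum_le_tsum _ (fun i _ => hy i)
    have h3 : ∑ i ∈ Finset.range (n + 1), x i = ∑ i ∈ Finset.range n, x (i + 1) + x 0 :=
      Finset.sum_range_succ' _ _
    have h4 : ∑ i ∈ Finset.range n, x i ≤ ∑ i ∈ Finset.range (n + 1), x i := by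
      rw [Finset.sum_range_succ]
      linarith [hx n]
    linarith
  exact (summable_of_sum_range_le hx hb).tendsto_atTop_zero

theorem dyadic {V : Type*} [NormedAddCommGroup V] (L : ℝ → V) (a : V) (y : ℕ → ℝ)
    (h : ∀ (k : ℕ) (θ : ℝ), 1 / 2 ≤ θ → θ ≤ 1 → ‖L (θ * (1 / 2) ^ k) - a‖ ≤ y k)
    (hy : Tendsto y atTop (𝓝 0)) : Tendsto L (𝓝[>] 0) (𝓝 a) := by
  rw [Metric.tendsto_nhdsWithin_nhds]
  intro ε hε
  obtain ⟨K, hK⟩ := eventually_atTop.mp (hy.eventually (gt_mem_nhds hε))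
  refine ⟨(1 / 2) ^ K, by positivity, ?_⟩
  intro r hr hd
  have hr0 : 0 < r := hr
  rw [Real.dist_eq, sub_zero, abs_of_pos hr0] at hd
  have h1 : r ≤ 1 := hd.le.trans (pow_le_one₀ (by norm_num) (by norm_num))
  obtain ⟨k, hk1, hk2⟩ := exists_nat_pow_near_of_lt_one hr0 h1 (show (0 : ℝ) < 1 / 2 by norm_num)
    (show (1 / 2 : ℝ) < 1 by norm_num)
  have hkK : K ≤ k := by
    by_contra hc
    have hc' : k + 1 ≤ K := by omega
    have : ((1 : ℝ) / 2) ^ K ≤ (1 / 2) ^ (k + 1) :=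
      pow_le_pow_of_le_one (by norm_num) (by norm_num) hc'
    linarith
  have hpos : (0 : ℝ) < (1 / 2) ^ k := by positivity
  have e1 : r / (1 / 2) ^ k * (1 / 2) ^ k = r := div_mul_cancel₀ _ hpos.ne'
  have := h k (r / (1 / 2) ^ k) (by
    rw [le_div_iff₀ hpos]
    rw [pow_succ] at hk1
    linarith) (by
    rw [div_le_one hpos]
    exact hk2)
  rw [e1] at this
  rw [dist_eq_norm]
  exact this.trans_lt (hK k hkK)

theorem lim_pos {V : Type*} [NormedAddCommGroup V] [NormedSpace ℝ V] (L : ℝ → V) (p : ℕ)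
    (hp : 1 ≤ p) (y : ℕ → ℝ)
    (h : ∀ (k : ℕ) (θ : ℝ), 1 / 2 ≤ θ → θ ≤ 1 →
      ‖L (θ * (1 / 2) ^ k) - θ ^ p • L ((1 / 2) ^ k)‖ ≤ y k)
    (hs : Summable y) : Tendsto L (𝓝[>] 0) (𝓝 0) := by
  have hy : ∀ k, 0 ≤ y k := fun k => (norm_nonneg _).trans (h k 1 (by norm_num) le_rfl)
  have hx : Tendsto (fun k : ℕ => ‖L ((1 / 2) ^ k)‖) atTop (𝓝 0) := by
    refine seq_half (fun k => norm_nonneg _) hy hs ?_
    intro k
    have h1 := h k (1 / 2) le_rfl (by norm_num)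
    have e1 : (1 / 2 : ℝ) * (1 / 2) ^ k = (1 / 2) ^ (k + 1) := by rw [pow_succ]; ring
    rw [e1] at h1
    have h2 : ‖((1 / 2 : ℝ) ^ p) • L ((1 / 2) ^ k)‖ ≤ ‖L ((1 / 2) ^ k)‖ / 2 := by
      rw [norm_smul, Real.norm_of_nonneg (by positivity)]
      have : (1 / 2 : ℝ) ^ p ≤ (1 / 2) ^ 1 :=
        pow_le_pow_of_le_one (by norm_num) (by norm_num) hp
      have h3 := norm_nonneg (L ((1 / 2) ^ k))
      nlinarith
    have h3 := norm_sub_norm_le (L ((1 / 2) ^ (k + 1))) (((1 / 2 : ℝ) ^ p) • L ((1 / 2) ^ k))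
    linarith
  refine dyadic L 0 (fun k => ‖L ((1 / 2) ^ k)‖ + y k) ?_ ?_
  · intro k θ h1 h2
    rw [sub_zero]
    have h3 := h k θ h1 h2
    have h4 := norm_sub_norm_le (L (θ * (1 / 2) ^ k)) (θ ^ p • L ((1 / 2) ^ k))
    have h5 : ‖θ ^ p • L ((1 / 2) ^ k)‖ ≤ ‖L ((1 / 2) ^ k)‖ := by
      rw [norm_smul, Real.norm_of_nonneg (by positivity)]
      have : θ ^ p ≤ 1 := pow_le_one₀ (by linarith) h2
      have h3 := norm_nonneg (L ((1 / 2) ^ k))
      nlinarith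
    linarith
  · have := hx.add hs.tendsto_atTop_zero
    simpa using this

theorem lim_zero {V : Type*} [NormedAddCommGroup V] [NormedSpace ℝ V] [CompleteSpace V]
    (L : ℝ → V) (y : ℕ → ℝ)
    (h : ∀ (k : ℕ) (θ : ℝ), 1 / 2 ≤ θ → θ ≤ 1 →
      ‖L (θ * (1 / 2) ^ k) - L ((1 / 2) ^ k)‖ ≤ y k)
    (hs : Summable y) : ∃ a, Tendsto L (𝓝[>] 0) (𝓝 a) := by
  have hc : CauchySeq (fun k : ℕ => L ((1 / 2) ^ k)) := by
    refine cauchySeq_of_dist_le_of_summable y ?_ hs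
    intro k
    have h1 := h k (1 / 2) le_rfl (by norm_num)
    have e1 : (1 / 2 : ℝ) * (1 / 2) ^ k = (1 / 2) ^ (k + 1) := by rw [pow_succ]; ring
    rw [e1] at h1
    rw [dist_comm, dist_eq_norm]
    exact h1
  obtain ⟨a, ha⟩ := cauchySeq_tendsto_of_complete hc
  refine ⟨a, dyadic L a (fun k => y k + ‖L ((1 / 2) ^ k) - a‖) ?_ ?_⟩
  · intro k θ h1 h2
    have h3 := h k θ h1 h2
    have e : L (θ * (1 / 2) ^ k) - a = (L (θ * (1 / 2) ^ k) - L ((1 / 2) ^ k)) +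
      (L ((1 / 2) ^ k) - a) := by abel
    rw [e]
    exact (norm_add_le _ _).trans (by linarith)
  · have h1 : Tendsto (fun k : ℕ => ‖L ((1 / 2) ^ k) - a‖) atTop (𝓝 0) :=
      tendsto_iff_norm_sub_tendsto_zero.mp ha
    have := hs.tendsto_atTop_zero.add h1
    simpa using this

/-! ## test functions -/

theorem tf_bdd {n : ℕ} {h : E n → ℝ} (hh : TF h) : ∃ C : ℝ, ∀ z, ‖h z‖ ≤ C :=
  hh.2.exists_bound_of_continuous hh.1.continuous

theorem tf_cb {n : ℕ} (ℓ : ℕ) {h : E n → ℝ} (hh : TF h) : ∃ M : ℝ, 0 ≤ M ∧ CB ℓ M h := by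
  have h1 : ∀ j : ℕ, ∃ M : ℝ, ∀ z, ‖iteratedFDeriv ℝ j h z‖ ≤ M := fun j =>
    (hh.2.iteratedFDeriv j).exists_bound_of_continuous (hh.1.continuous_iteratedFDeriv (by
      exact_mod_cast le_top))
  choose M hM using h1
  refine ⟨∑ j ∈ Finset.range (ℓ + 1), |M j|, Finset.sum_nonneg fun _ _ => abs_nonneg _, ?_⟩
  intro j hj z
  exact ((hM j z).trans (le_abs_self _)).trans (Finset.single_le_sum (f := fun j => |M j|)
    (fun _ _ => abs_nonneg _) (Finset.mem_range.mpr (by omega)))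

theorem cb_scale {n ℓ : ℕ} {f : E n → ℝ} (hf : TF f) {M c : ℝ} (hM0 : 0 ≤ M) (hM : CB ℓ M f)
    (hc1 : 0 ≤ c) (hc2 : c ≤ 2) : CB ℓ (2 ^ ℓ * M) (fun z => f (c • z)) := by
  intro j hj z
  have e : (fun z => f (c • z)) = f ∘ (c • ContinuousLinearMap.id ℝ (E n)) := by
    funext z
    rfl
  have hfj : ContDiff ℝ (j : WithTop ℕ∞) f := hf.1.of_le (by exact_mod_cast le_top)
  rw [e, ContinuousLinearMap.iteratedFDeriv_comp_right _ hfj z le_rfl]
  refine (ContinuousMultilinearMap.norm_compContinuousLinearMap_le _ _).trans ?_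
  have h1 : ‖(c • ContinuousLinearMap.id ℝ (E n))‖ ≤ 2 := by
    rw [norm_smul, Real.norm_of_nonneg hc1]
    have := ContinuousLinearMap.norm_id_le (𝕜 := ℝ) (E := E n)
    have h0 := norm_nonneg (ContinuousLinearMap.id ℝ (E n))
    nlinarith
  have h2 : ∏ _i : Fin j, ‖(c • ContinuousLinearMap.id ℝ (E n))‖ ≤ 2 ^ ℓ := by
    rw [Finset.prod_const, Finset.card_univ, Fintype.card_fin]
    exact (pow_le_pow_left₀ (norm_nonneg _) h1 j).trans (pow_le_pow_right₀ (by norm_num) hj)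
  calc _ ≤ M * 2 ^ ℓ := mul_le_mul (hM j hj _) h2 (Finset.prod_nonneg fun _ _ => norm_nonneg _) hM0
    _ = _ := by ring

theorem cb_comb {n ℓ : ℕ} {f g : E n → ℝ} (hf : TF f) (hg : TF g) {M M' a b : ℝ}
    (hM : CB ℓ M f) (hM' : CB ℓ M' g) : CB ℓ (|a| * M + |b| * M') (fun z => a * f z - b * g z) := by
  intro j hj z
  have hfj : ContDiffAt ℝ (j : WithTop ℕ∞) f z := (hf.1.of_le (by exact_mod_cast le_top)).contDiffAt
  have hgj : ContDiffAt ℝ (j : WithTop ℕ∞) g z := (hg.1.of_le (by exact_mod_cast le_top)).contDiffAt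
  have e : (fun z => a * f z - b * g z) = (a • f) - (b • g) := by
    funext z
    rfl
  have hfa : ContDiffAt ℝ (j : WithTop ℕ∞) (a • f) z := hfj.const_smul a
  have hgb : ContDiffAt ℝ (j : WithTop ℕ∞) (b • g) z := hgj.const_smul b
  rw [e, iteratedFDeriv_sub_apply hfa hgb, iteratedFDeriv_const_smul_apply hfj,
    iteratedFDeriv_const_smul_apply hgj]
  refine (norm_sub_le _ _).trans ?_
  rw [norm_smul, norm_smul, Real.norm_eq_abs, Real.norm_eq_abs]
  exact add_le_add (mul_le_mul_of_nonneg_left (hM j hj z) (abs_nonneg _))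
    (mul_le_mul_of_nonneg_left (hM' j hj z) (abs_nonneg _))

theorem tf_scale {n : ℕ} {f : E n → ℝ} (hf : TF f) {c : ℝ} (hc : c ≠ 0) :
    TF (fun z => f (c • z)) := by
  refine ⟨hf.1.comp (contDiff_const_smul c), ?_⟩
  exact hf.2.comp_homeomorph (Homeomorph.smulOfNeZero c hc)

theorem tf_comb {n : ℕ} {f g : E n → ℝ} (hf : TF f) (hg : TF g) (a b : ℝ) :
    TF (fun z => a * f z - b * g z) := by
  refine ⟨(contDiff_const.mul hf.1).sub (contDiff_const.mul hg.1), ?_⟩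
  have h1 : HasCompactSupport (fun z => a * f z) := hf.2.mul_left
  have h2 : HasCompactSupport (fun z => b * g z) := hg.2.mul_left
  exact h1.sub h2

/-! ## measures -/

section
variable {X : Type*} [MetricSpace X] [MeasurableSpace X]

/-- punctured balls -/
noncomputable def Ph (ν : Measure X) (x : X) (r : ℝ) : ℝ := ν.real (closedBall x (3 * r) \ {x})

theorem ph_mono (ν : Measure X) [IsFiniteMeasure ν] (x : X) {r s : ℝ} (h : r ≤ s) :
    Ph ν x r ≤ Ph ν x s :=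
  measureReal_mono (Set.sdiff_subset_sdiff_left (closedBall_subset_closedBall (by linarith)))
    (measure_ne_top _ _)

theorem ph_nonneg (ν : Measure X) (x : X) (r : ℝ) : 0 ≤ Ph ν x r := measureReal_nonneg

variable [BorelSpace X]

theorem ph_seq (ν : Measure X) [IsFiniteMeasure ν] (x : X) :
    Tendsto (fun k : ℕ => Ph ν x ((1 / 2) ^ k)) atTop (𝓝 0) := by
  have h1 : Tendsto (ν ∘ fun k : ℕ => closedBall x (3 * (1 / 2) ^ k) \ {x}) atTop
      (𝓝 (ν (⋂ k : ℕ, closedBall x (3 * (1 / 2) ^ k) \ {x}))) := by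
    refine tendsto_measure_iInter_atTop (fun k => (measurableSet_closedBall.diff
      (measurableSet_singleton x)).nullMeasurableSet) ?_ ⟨0, measure_ne_top _ _⟩
    intro a b hab
    refine Set.sdiff_subset_sdiff_left (closedBall_subset_closedBall ?_)
    have : ((1 : ℝ) / 2) ^ b ≤ (1 / 2) ^ a :=
      pow_le_pow_of_le_one (by norm_num) (by norm_num) hab
    linarith
  have h2 : (⋂ k : ℕ, closedBall x (3 * (1 / 2) ^ k) \ {x}) = (∅ : Set X) := by
    rw [Set.eq_empty_iff_forall_notMem]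
    intro y hy
    rw [Set.mem_iInter] at hy
    have hyx : y ≠ x := (hy 0).2
    have hd : 0 < dist y x := dist_pos.mpr hyx
    obtain ⟨k, hk⟩ := exists_pow_lt_of_lt_one (show 0 < dist y x / 3 by positivity)
      (show (1 / 2 : ℝ) < 1 by norm_num)
    have := (hy k).1
    rw [mem_closedBall] at this
    linarith
  rw [h2, measure_empty] at h1
  have h3 : Tendsto (fun k : ℕ => (ν (closedBall x (3 * (1 / 2) ^ k) \ {x})).toReal) atTop
      (𝓝 (0 : ℝ≥0∞).toReal) := (ENNReal.tendsto_toReal ENNReal.zero_ne_top).comp h1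
  rw [ENNReal.toReal_zero] at h3
  exact h3

theorem ph_lim (ν : Measure X) [IsFiniteMeasure ν] (x : X) :
    Tendsto (Ph ν x) (𝓝[>] 0) (𝓝 0) := by
  refine dyadic (Ph ν x) 0 (fun k => Ph ν x ((1 / 2) ^ k)) ?_ (ph_seq ν x)
  intro k θ _ h2
  rw [sub_zero, Real.norm_of_nonneg (ph_nonneg _ _ _)]
  refine ph_mono ν x ?_
  have : (0 : ℝ) < (1 / 2) ^ k := by positivity
  nlinarith

/-- shells -/
def SS (x : X) (r : ℝ) : Set X := {y | r / 4 ≤ dist y x ∧ dist y x ≤ 3 * r}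

theorem shell_le (ν : Measure X) [IsFiniteMeasure ν] (x : X) {r : ℝ} (hr : 0 < r) :
    ν.real (SS x r) ≤ Ph ν x r - Ph ν x (r / 16) := by
  have h1 : Disjoint (SS x r) (closedBall x (3 * (r / 16)) \ {x}) := by
    rw [Set.disjoint_left]
    rintro y ⟨hy1, _⟩ ⟨hy2, _⟩
    rw [mem_closedBall] at hy2
    linarith
  have h2 := measureReal_union (μ := ν) h1 (measurableSet_closedBall.diff
    (measurableSet_singleton x))
  have h3 : ν.real (SS x r ∪ closedBall x (3 * (r / 16)) \ {x}) ≤ Ph ν x r := by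
    refine measureReal_mono ?_ (measure_ne_top _ _)
    rintro y (⟨hy1, hy2⟩ | ⟨hy1, hy2⟩)
    · refine ⟨mem_closedBall.mpr hy2, ?_⟩
      rintro rfl
      rw [dist_self] at hy1
      linarith
    · exact ⟨closedBall_subset_closedBall (by linarith) hy1, hy2⟩
  have h4 : Ph ν x (r / 16) = ν.real (closedBall x (3 * (r / 16)) \ {x}) := rfl
  rw [h4]
  linarith

theorem shell_le' (ν : Measure X) [IsFiniteMeasure ν] (x : X) {r : ℝ} (hr : 0 < r) :
    ν.real (SS x r) ≤ Ph ν x r := by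
  have := shell_le ν x hr
  linarith [ph_nonneg ν x (r / 16)]

theorem tele (φ : ℕ → ℝ) (h0 : ∀ k, 0 ≤ φ k) (n : ℕ) :
    ∑ k ∈ Finset.range n, (φ k - φ (k + 4)) ≤ φ 0 + φ 1 + φ 2 + φ 3 := by
  have : ∑ k ∈ Finset.range n, (φ k - φ (k + 4)) =
      (φ 0 + φ 1 + φ 2 + φ 3) - (φ n + φ (n + 1) + φ (n + 2) + φ (n + 3)) := by
    induction n with
    | zero => simp
    | succ n ih =>
      rw [Finset.sum_range_succ, ih]
      ring_nf
  rw [this]
  linarith [h0 n, h0 (n + 1), h0 (n + 2), h0 (n + 3)]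

theorem shell_summable (ν : Measure X) [IsFiniteMeasure ν] (x : X) :
    Summable (fun k : ℕ => ν.real (SS x ((1 / 2) ^ k))) := by
  refine summable_of_sum_range_le (c := Ph ν x ((1 / 2) ^ 0) + Ph ν x ((1 / 2) ^ 1) +
    Ph ν x ((1 / 2) ^ 2) + Ph ν x ((1 / 2) ^ 3)) (fun k => measureReal_nonneg) ?_
  intro n
  refine le_trans (Finset.sum_le_sum fun k _ => ?_)
    (tele (fun k => Ph ν x ((1 / 2) ^ k)) (fun k => ph_nonneg _ _ _) n)
  have := shell_le ν x (r := (1 / 2) ^ k) (by positivity)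
  have e : ((1 : ℝ) / 2) ^ k / 16 = (1 / 2) ^ (k + 4) := by
    rw [pow_add]
    norm_num
    ring
  rw [e] at this
  exact this

end

/-! ## the cone -/

section
variable {m : ℕ}

/-- the weighted measure in the cone -/
noncomputable def nu (μ : Measure (E (m + 1))) (x d : E (m + 1)) (ρ : ℝ) : Measure (E (m + 1)) :=
  (μ.restrict {y | y - x ∈ cone d ρ}).withDensity (fun y => ENNReal.ofReal ((‖y - x‖ ^ m)⁻¹))

theorem nu_fin {μ : Measure (E (m + 1))} {x d : E (m + 1)} {ρ : ℝ} (h : CP μ x d ρ) :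
    IsFiniteMeasure (nu μ x d ρ) := by
  refine ⟨?_⟩
  rw [nu, withDensity_apply _ MeasurableSet.univ, Measure.restrict_univ]
  exact lt_top_iff_ne_top.mpr h

/-- the convex set -/
def CC (d : E (m + 1)) (σ : ℝ) : Set (E (m + 1)) :=
  {z | ‖z - (inner ℝ d z : ℝ) • d‖ ≤ σ * inner ℝ d z ∧ 1 / 4 ≤ (inner ℝ d z : ℝ) ∧
    (inner ℝ d z : ℝ) ≤ 3 / 2}

theorem cc_norm {d z : E (m + 1)} {σ : ℝ} (hd : ‖d‖ = 1) (hσ : σ ≤ 1) (hz : z ∈ CC d σ) :
    1 / 4 ≤ ‖z‖ ∧ ‖z‖ ≤ 3 := by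
  obtain ⟨h1, h2, h3⟩ := hz
  have h4 : (inner ℝ d z : ℝ) ≤ ‖d‖ * ‖z‖ := real_inner_le_norm d z
  rw [hd, one_mul] at h4
  refine ⟨h2.trans h4, ?_⟩
  have h5 : ‖z‖ ≤ ‖z - (inner ℝ d z : ℝ) • d‖ + ‖(inner ℝ d z : ℝ) • d‖ := by
    have := norm_add_le (z - (inner ℝ d z : ℝ) • d) ((inner ℝ d z : ℝ) • d)
    rwa [sub_add_cancel] at this
  rw [norm_smul, hd, mul_one, Real.norm_of_nonneg (by linarith)] at h5
  nlinarith

theorem cc_cone {d z : E (m + 1)} {σ ρ : ℝ} (hd : ‖d‖ = 1) (hρ : 2 * σ ≤ ρ) (hσ0 : 0 ≤ σ)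
    (hz : z ∈ CC d σ) : z ∈ cone d ρ := by
  obtain ⟨h1, h2, h3⟩ := hz
  have h4 : (inner ℝ d z : ℝ) ≤ ‖d‖ * ‖z‖ := real_inner_le_norm d z
  rw [hd, one_mul] at h4
  have hz0 : 0 < ‖z‖ := by linarith
  refine ⟨norm_pos_iff.mp hz0, ?_⟩
  have h5 : ‖(inner ℝ d z : ℝ) • d‖ = inner ℝ d z := by
    rw [norm_smul, hd, mul_one, Real.norm_of_nonneg (by linarith)]
  have h6 : |‖z‖ - (inner ℝ d z : ℝ)| ≤ ‖z - (inner ℝ d z : ℝ) • d‖ := by
    have := abs_norm_sub_norm_le z ((inner ℝ d z : ℝ) • d)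
    rwa [h5] at this
  have e : z - ‖z‖ • d = (z - (inner ℝ d z : ℝ) • d) + ((inner ℝ d z : ℝ) - ‖z‖) • d := by
    rw [sub_smul]; abel
  rw [e]
  refine (norm_add_le _ _).trans ?_
  rw [norm_smul, hd, mul_one, Real.norm_eq_abs, abs_sub_comm]
  nlinarith

theorem cc_closed (d : E (m + 1)) (σ : ℝ) : IsClosed (CC d σ) := by
  have h1 : IsClosed {z : E (m + 1) | ‖z - (inner ℝ d z : ℝ) • d‖ ≤ σ * inner ℝ d z} :=
    isClosed_le (by fun_prop) (by fun_prop)
  have h2 : IsClosed {z : E (m + 1) | 1 / 4 ≤ (inner ℝ d z : ℝ)} :=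
    isClosed_le (by fun_prop) (by fun_prop)
  have h3 : IsClosed {z : E (m + 1) | (inner ℝ d z : ℝ) ≤ 3 / 2} :=
    isClosed_le (by fun_prop) (by fun_prop)
  exact h1.inter (h2.inter h3)

theorem cc_compact {d : E (m + 1)} {σ : ℝ} (hd : ‖d‖ = 1) (hσ : σ ≤ 1) : IsCompact (CC d σ) := by
  refine (isCompact_closedBall (0 : E (m + 1)) 3).of_isClosed_subset (cc_closed d σ) ?_
  intro z hz
  rw [mem_closedBall_zero_iff]
  exact (cc_norm hd hσ hz).2

theorem cc_convex {d : E (m + 1)} {σ : ℝ} : Convex ℝ (CC d σ) := by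
  intro z hz w hw a b ha hb hab
  obtain ⟨h1, h2, h3⟩ := hz
  obtain ⟨g1, g2, g3⟩ := hw
  have e : (inner ℝ d (a • z + b • w) : ℝ) = a * inner ℝ d z + b * inner ℝ d w := by
    rw [inner_add_right, inner_smul_right, inner_smul_right]
  refine ⟨?_, ?_, ?_⟩
  · rw [e]
    have e2 : a • z + b • w - (a * (inner ℝ d z : ℝ) + b * inner ℝ d w) • d =
        a • (z - (inner ℝ d z : ℝ) • d) + b • (w - (inner ℝ d w : ℝ) • d) := by
      rw [add_smul, smul_sub, smul_sub, smul_smul, smul_smul]; abel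
    rw [e2]
    refine (norm_add_le _ _).trans ?_
    rw [norm_smul, norm_smul, Real.norm_of_nonneg ha, Real.norm_of_nonneg hb]
    nlinarith
  · rw [e]
    nlinarith
  · rw [e]
    nlinarith

theorem cc_ball {d z : E (m + 1)} {σ : ℝ} (hd : ‖d‖ = 1) (hσ0 : 0 < σ) (hσ : σ ≤ 1)
    (hz : z ∈ ball d (σ / 2)) {θ : ℝ} (h1 : 1 / 2 ≤ θ) (h2 : θ ≤ 1) : θ • z ∈ CC d σ := by
  rw [mem_ball, dist_eq_norm] at hz
  have hdd : (inner ℝ d d : ℝ) = 1 := by rw [real_inner_self_eq_norm_sq, hd]; norm_num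
  have e1 : (inner ℝ d z : ℝ) = 1 + inner ℝ d (z - d) := by
    rw [inner_sub_right, hdd]; ring
  have h3 : |(inner ℝ d (z - d) : ℝ)| ≤ ‖d‖ * ‖z - d‖ := abs_real_inner_le_norm _ _
  rw [hd, one_mul] at h3
  obtain ⟨h4, h5⟩ := abs_le.mp h3
  have h6 : ‖z - (inner ℝ d z : ℝ) • d‖ ≤ ‖z - d‖ := by
    -- the distance to the projection
    have e2 : ‖z - (inner ℝ d z : ℝ) • d‖ ^ 2 = ‖z‖ ^ 2 - (inner ℝ d z : ℝ) ^ 2 := by
      rw [norm_sub_sq_real, inner_smul_right, norm_smul, hd, mul_one, real_inner_comm d z,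
        Real.norm_eq_abs, sq_abs]
      ring
    have e3 : ‖z - d‖ ^ 2 = ‖z‖ ^ 2 - 2 * inner ℝ d z + 1 := by
      rw [norm_sub_sq_real, hd, real_inner_comm d z]
      ring
    have h7 : ‖z - (inner ℝ d z : ℝ) • d‖ ^ 2 ≤ ‖z - d‖ ^ 2 := by
      rw [e2, e3]
      nlinarith [sq_nonneg ((inner ℝ d z : ℝ) - 1)]
    exact (sq_le_sq₀ (norm_nonneg _) (norm_nonneg _)).mp h7
  have e4 : (inner ℝ d (θ • z) : ℝ) = θ * inner ℝ d z := inner_smul_right _ _ _
  refine ⟨?_, ?_, ?_⟩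
  · rw [e4]
    have e5 : θ • z - (θ * (inner ℝ d z : ℝ)) • d = θ • (z - (inner ℝ d z : ℝ) • d) := by
      rw [smul_sub, smul_smul]
    rw [e5, norm_smul, Real.norm_of_nonneg (by linarith)]
    have h8 : ‖z - (inner ℝ d z : ℝ) • d‖ ≤ σ * inner ℝ d z := by
      nlinarith
    nlinarith
  · rw [e4]
    nlinarith
  · rw [e4]
    nlinarith

theorem cc_interior {d : E (m + 1)} {σ : ℝ} (hd : ‖d‖ = 1) (hσ0 : 0 < σ) (hσ : σ ≤ 1) :
    (interior (CC d σ)).Nonempty := by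
  refine ⟨d, ?_⟩
  rw [mem_interior]
  refine ⟨ball d (σ / 2), ?_, isOpen_ball, mem_ball_self (by positivity)⟩
  intro z hz
  have := cc_ball hd hσ0 hσ hz (θ := 1) (by norm_num) le_rfl
  rwa [one_smul] at this

theorem dens_le {μ : Measure (E (m + 1))} {x d : E (m + 1)} {ρ σ : ℝ} (hd : ‖d‖ = 1)
    (hρ : 2 * σ ≤ ρ) (hσ0 : 0 ≤ σ) (hσ : σ ≤ 1) {r : ℝ} (hr : 0 < r) :
    dens μ x r (CC d σ) ≤ ENNReal.ofReal (3 ^ m) * nu μ x d ρ (SS x r) := by
  set Im := (fun z => x + r • z) '' (CC d σ) with hIm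
  have hImm : MeasurableSet Im :=
    ((cc_compact hd hσ).image (by fun_prop)).isClosed.measurableSet
  have hsub1 : Im ⊆ {y | y - x ∈ cone d ρ} := by
    rintro y ⟨z, hz, rfl⟩
    show x + r • z - x ∈ cone d ρ
    rw [add_sub_cancel_left]
    obtain ⟨h1, h2⟩ := cc_cone hd hρ hσ0 hz
    refine ⟨smul_ne_zero hr.ne' h1, ?_⟩
    rw [norm_smul, Real.norm_of_nonneg hr.le, mul_smul, ← smul_sub, norm_smul,
      Real.norm_of_nonneg hr.le]
    nlinarith
  have hsub2 : Im ⊆ SS x r := by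
    rintro y ⟨z, hz, rfl⟩
    obtain ⟨h1, h2⟩ := cc_norm hd hσ hz
    show r / 4 ≤ dist (x + r • z) x ∧ dist (x + r • z) x ≤ 3 * r
    rw [dist_eq_norm, add_sub_cancel_left, norm_smul, Real.norm_of_nonneg hr.le]
    constructor <;> nlinarith
  have hmeas : Measurable (fun y : E (m + 1) => ENNReal.ofReal ((‖y - x‖ ^ m)⁻¹)) := by
    fun_prop
  have h1 : ENNReal.ofReal ((r ^ m)⁻¹) * μ Im = ∫⁻ _ in Im, ENNReal.ofReal ((r ^ m)⁻¹) ∂μ := by
    rw [lintegral_const, Measure.restrict_apply MeasurableSet.univ, Set.univ_inter]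
  have h2 : ∫⁻ _ in Im, ENNReal.ofReal ((r ^ m)⁻¹) ∂μ ≤
      ∫⁻ y in Im, ENNReal.ofReal (3 ^ m) * ENNReal.ofReal ((‖y - x‖ ^ m)⁻¹) ∂μ := by
    refine setLIntegral_mono' hImm fun y hy => ?_
    rw [← ENNReal.ofReal_mul (by positivity)]
    refine ENNReal.ofReal_le_ofReal ?_
    obtain ⟨h3, h4⟩ := hsub2 hy
    rw [dist_eq_norm] at h3 h4
    have h5 : 0 < ‖y - x‖ := by linarith
    rw [← div_eq_mul_inv, inv_eq_one_div, div_le_div_iff₀ (by positivity) (by positivity), one_mul,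
      ← mul_pow]
    exact pow_le_pow_left₀ h5.le h4 m
  have h3 : nu μ x d ρ Im = ∫⁻ y in Im, ENNReal.ofReal ((‖y - x‖ ^ m)⁻¹) ∂μ := by
    rw [nu, withDensity_apply _ hImm, Measure.restrict_restrict hImm,
      Set.inter_eq_self_of_subset_left hsub1]
  calc dens μ x r (CC d σ) = ENNReal.ofReal ((r ^ m)⁻¹) * μ Im := rfl
    _ ≤ ∫⁻ y in Im, ENNReal.ofReal (3 ^ m) * ENNReal.ofReal ((‖y - x‖ ^ m)⁻¹) ∂μ := by
      rw [h1]; exact h2
    _ = ENNReal.ofReal (3 ^ m) * nu μ x d ρ Im := by rw [lintegral_const_mul _ hmeas, h3]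
    _ ≤ _ := by gcongr

end

/-! ## the functionals -/

theorem mono_smul {n : ℕ} (γ : Fin n → ℕ) (θ : ℝ) (w : E n) :
    mono γ (θ • w) = θ ^ (∑ i, γ i) * mono γ w := by
  unfold mono
  rw [← Finset.prod_pow_eq_pow_sum, ← Finset.prod_mul_distrib]
  refine Finset.prod_congr rfl fun i _ => ?_
  rw [PiLp.smul_apply, smul_eq_mul, mul_pow]

theorem mono_cont {n : ℕ} (γ : Fin n → ℕ) : Continuous (mono γ : E n → ℝ) := by
  unfold mono
  fun_prop

theorem int_mono {n : ℕ} {κ : E n → ℝ} (hκ : TF κ) (γ : Fin n → ℕ) :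
    Integrable (fun z => κ z * mono γ z) :=
  (hκ.1.continuous.mul (mono_cont γ)).integrable_of_hasCompactSupport hκ.2.mul_right

theorem mem_idx {n ℓ : ℕ} {γ : Fin n → ℕ} (h : ∑ i, γ i < ℓ) : γ ∈ idx n ℓ := by
  unfold idx
  rw [Finset.mem_filter, Fintype.mem_piFinset]
  refine ⟨fun i => Finset.mem_range.mpr (lt_of_le_of_lt ?_ h), h⟩
  exact Finset.single_le_sum (f := γ) (fun _ _ => Nat.zero_le _) (Finset.mem_univ i)

theorem int_Lr {n N : ℕ} {u : E n → (Fin N → ℝ)} (hu : Integrable u) {κ : E n → ℝ} (hκ : TF κ)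
    (x : E n) {r : ℝ} (hr : r ≠ 0) : Integrable (fun z => κ z • u (x + r • z)) := by
  have h1 : Integrable (fun z => u (x + r • z)) :=
    (hu.comp_add_left x).comp_smul hr
  obtain ⟨C, hC⟩ := tf_bdd hκ
  exact h1.bdd_smul C hκ.1.continuous.aestronglyMeasurable (Filter.Eventually.of_forall hC)

theorem Lr_scale {m N : ℕ} (u : E (m + 1) → (Fin N → ℝ)) (κ : E (m + 1) → ℝ) (x : E (m + 1))
    (r : ℝ) {θ : ℝ} (hθ : 0 < θ) :
    Lr u x (fun z => κ (θ⁻¹ • z)) r = θ ^ (m + 1) • Lr u x κ (θ * r) := by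
  unfold Lr
  have h1 := Measure.integral_comp_inv_smul_of_nonneg (volume : Measure (E (m + 1)))
    (fun w => κ w • u (x + (θ * r) • w)) hθ.le
  rw [finrank_euclideanSpace_fin] at h1
  rw [← h1]
  refine integral_congr_ae (Filter.Eventually.of_forall fun z => ?_)
  show κ (θ⁻¹ • z) • u (x + r • z) = κ (θ⁻¹ • z) • u (x + (θ * r) • θ⁻¹ • z)
  rw [smul_smul, show θ * r * θ⁻¹ = r by field_simp]

theorem mono_scale {m : ℕ} (κ : E (m + 1) → ℝ) (γ : Fin (m + 1) → ℕ) {θ : ℝ} (hθ : 0 < θ) :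
    ∫ z, κ (θ⁻¹ • z) * mono γ z = θ ^ (m + 1) * (θ ^ (∑ i, γ i) * ∫ z, κ z * mono γ z) := by
  have h1 := Measure.integral_comp_inv_smul_of_nonneg (volume : Measure (E (m + 1)))
    (fun w => κ w * mono γ (θ • w)) hθ.le
  rw [finrank_euclideanSpace_fin, smul_eq_mul] at h1
  have h2 : ∫ z, κ z * mono γ (θ • z) = θ ^ (∑ i, γ i) * ∫ z, κ z * mono γ z := by
    rw [← integral_const_mul]
    refine integral_congr_ae (Filter.Eventually.of_forall fun z => ?_)
    show κ z * mono γ (θ • z) = θ ^ (∑ i, γ i) * (κ z * mono γ z)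
    rw [mono_smul]
    ring
  rw [← h2, ← h1]
  refine integral_congr_ae (Filter.Eventually.of_forall fun z => ?_)
  show κ (θ⁻¹ • z) * mono γ z = κ (θ⁻¹ • z) * mono γ (θ • θ⁻¹ • z)
  rw [smul_smul, mul_inv_cancel₀ hθ.ne', one_smul]

theorem tf_of_zero {m : ℕ} {d : E (m + 1)} {σ : ℝ} (hd : ‖d‖ = 1) (hσ : σ ≤ 1)
    {h : E (m + 1) → ℝ} (h1 : ContDiff ℝ (⊤ : ℕ∞) h) (h2 : ∀ z, z ∉ CC d σ → h z = 0) :
    TF h ∧ tsupport h ⊆ CC d σ := by
  refine ⟨⟨h1, HasCompactSupport.intro (cc_compact hd hσ) (fun z hz => h2 z hz)⟩, ?_⟩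
  refine closure_minimal ?_ (cc_closed d σ)
  intro z hz
  by_contra hc
  exact hz (h2 z hc)

end LIA_

open LIA_ in
theorem lia_proof (h1 : Stmt_LMA) (h2 : Stmt_DUF) : Stmt_LIA := by
  intro m N K ℓ A hA Ru u μ g hp x d ρ hd hρ hcp
  obtain ⟨σ, hσ0, hσ1, hσρ⟩ : ∃ σ : ℝ, 0 < σ ∧ σ ≤ 1 ∧ 2 * σ ≤ ρ :=
    ⟨min 1 (ρ / 2), by positivity, min_le_left _ _, by
      have := min_le_right 1 (ρ / 2)
      linarith⟩
  obtain ⟨lam, hlam⟩ := h2 (m + 1) ℓ (ball d (σ / 2)) isOpen_ball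
    ⟨d, mem_ball_self (by positivity)⟩
  obtain ⟨C0, hC0, hL⟩ := h1 m N K ℓ A hA (CC d σ) (cc_compact hd hσ1) cc_convex
    (cc_interior hd hσ0 hσ1)
  have := nu_fin hcp
  set ν := nu μ x d ρ with hν
  have hℓ : 1 ≤ ℓ := hA.1
  have key : ∀ h : E (m + 1) → ℝ, TF h → tsupport h ⊆ CC d σ → OrthP ℓ h → ∀ M : ℝ, 0 ≤ M →
      CB ℓ M h → ∀ r : ℝ, 0 < r → ‖Lr u x h r‖ ≤ C0 * M * 3 ^ m * ν.real (SS x r) := by
    intro h k1 k2 k3 M hM0 k4 r hr
    have k5 := hL h k1 k2 k3 M k4 Ru u μ g hp x r hr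
    have k6 : ‖Lr u x h r‖ₑ ≤ ENNReal.ofReal (C0 * M) *
        (ENNReal.ofReal (3 ^ m) * ν (SS x r)) :=
      k5.trans (by gcongr; exact dens_le hd hσρ hσ0.le hσ1 hr)
    have k7 : ENNReal.ofReal (C0 * M) * (ENNReal.ofReal (3 ^ m) * ν (SS x r)) =
        ENNReal.ofReal (C0 * M * 3 ^ m * ν.real (SS x r)) := by
      rw [ENNReal.ofReal_mul (p := C0 * M * 3 ^ m) (by positivity),
        ENNReal.ofReal_mul (p := C0 * M) (by positivity),
        ofReal_measureReal (measure_ne_top _ _), mul_assoc]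
    rw [k7, ← ofReal_norm, ENNReal.ofReal_le_ofReal_iff (by positivity)] at k6
    exact k6
  have hz : ∀ β ∈ idx (m + 1) ℓ, ∀ z, z ∉ ball d (σ / 2) → lam β z = 0 := by
    intro β hβ z hz
    by_contra hc
    exact hz ((hlam β hβ).2.1 (subset_tsupport _ hc))
  have claimA : ∀ β ∈ idx (m + 1) ℓ, ∃ c : ℝ, 0 ≤ c ∧ ∀ r : ℝ, 0 < r → ∀ θ : ℝ, 1 / 2 ≤ θ →
      θ ≤ 1 → ‖Lr u x (lam β) (θ * r) - θ ^ (∑ i, β i) • Lr u x (lam β) r‖ ≤
        c * ν.real (SS x r) := by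
    intro β hβ
    obtain ⟨htf, hts, hdu⟩ := hlam β hβ
    obtain ⟨M, hM0, hM⟩ := tf_cb ℓ htf
    refine ⟨C0 * (2 ^ (m + 1) * (2 ^ ℓ * M) + M) * 3 ^ m, by positivity, ?_⟩
    intro r hr θ hθ1 hθ2
    have hθ0 : 0 < θ := by linarith
    set a := (θ ^ (m + 1))⁻¹ with ha
    set b := θ ^ (∑ i, β i) with hb
    have ha0 : 0 < a := by positivity
    have ha2 : a ≤ 2 ^ (m + 1) := by
      rw [ha, inv_le_comm₀ (by positivity) (by positivity), ← inv_pow]
      exact pow_le_pow_left₀ (by positivity) (by linarith) _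
    have hb0 : 0 < b := by positivity
    have hb1 : b ≤ 1 := pow_le_one₀ hθ0.le hθ2
    have hsc : TF (fun z => lam β (θ⁻¹ • z)) := tf_scale htf (inv_ne_zero hθ0.ne')
    have hθi : θ⁻¹ ≤ 2 := by
      rw [inv_le_comm₀ hθ0 (by norm_num)]
      linarith
    have hcb : CB ℓ (2 ^ ℓ * M) (fun z => lam β (θ⁻¹ • z)) :=
      cb_scale htf hM0 hM (by positivity) hθi
    have htfh := tf_comb hsc htf a b
    have hcbh := cb_comb (a := a) (b := b) hsc htf hcb hM
    have hzero : ∀ z, z ∉ CC d σ → a * lam β (θ⁻¹ • z) - b * lam β z = 0 := by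
      intro z hzc
      rw [hz β hβ z (fun h => hzc (by
          have := cc_ball hd hσ0 hσ1 h (θ := 1) (by norm_num) le_rfl
          rwa [one_smul] at this)),
        hz β hβ (θ⁻¹ • z) (fun h => hzc (by
          have := cc_ball hd hσ0 hσ1 h hθ1 hθ2
          rwa [smul_smul, mul_inv_cancel₀ hθ0.ne', one_smul] at this))]
      ring
    have hsup := (tf_of_zero hd hσ1 htfh.1 hzero).2
    have horth : OrthP ℓ (fun z => a * lam β (θ⁻¹ • z) - b * lam β z) := by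
      intro γ hγ
      have hγ' := mem_idx hγ
      have e1 : ∫ z, (a * lam β (θ⁻¹ • z) - b * lam β z) * mono γ z =
          a * (∫ z, lam β (θ⁻¹ • z) * mono γ z) - b * ∫ z, lam β z * mono γ z := by
        rw [← integral_const_mul, ← integral_const_mul, ← integral_sub
          ((int_mono hsc γ).const_mul a) ((int_mono htf γ).const_mul b)]
        refine integral_congr_ae (Filter.Eventually.of_forall fun z => ?_)
        show (a * lam β (θ⁻¹ • z) - b * lam β z) * mono γ z =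
          a * (lam β (θ⁻¹ • z) * mono γ z) - b * (lam β z * mono γ z)
        ring
      show ∫ z, (a * lam β (θ⁻¹ • z) - b * lam β z) * mono γ z = 0
      rw [e1, mono_scale _ γ hθ0, hdu γ hγ']
      by_cases hβγ : β = γ
      · rw [if_pos hβγ, ← hβγ, ← hb, mul_one, ← mul_assoc, ha,
          inv_mul_cancel₀ (by positivity), one_mul, sub_self]
      · rw [if_neg hβγ]
        ring
    have hfin := key _ htfh hsup horth _ (by positivity) hcbh r hr
    have e2 : Lr u x (fun z => a * lam β (θ⁻¹ • z) - b * lam β z) r =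
        Lr u x (lam β) (θ * r) - b • Lr u x (lam β) r := by
      have e3 : Lr u x (fun z => a * lam β (θ⁻¹ • z) - b * lam β z) r =
          a • Lr u x (fun z => lam β (θ⁻¹ • z)) r - b • Lr u x (lam β) r := by
        have i1 : Integrable (fun z => a • (lam β (θ⁻¹ • z) • u (x + r • z))) :=
          (int_Lr hp.int_u hsc x hr.ne').smul a
        have i2 : Integrable (fun z => b • (lam β z • u (x + r • z))) :=
          (int_Lr hp.int_u htf x hr.ne').smul b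
        show (∫ z, (a * lam β (θ⁻¹ • z) - b * lam β z) • u (x + r • z)) =
          a • (∫ z, lam β (θ⁻¹ • z) • u (x + r • z)) - b • ∫ z, lam β z • u (x + r • z)
        rw [← integral_smul, ← integral_smul, ← integral_sub i1 i2]
        refine integral_congr_ae (Filter.Eventually.of_forall fun z => ?_)
        show (a * lam β (θ⁻¹ • z) - b * lam β z) • u (x + r • z) =
          a • (lam β (θ⁻¹ • z) • u (x + r • z)) - b • (lam β z • u (x + r • z))
        rw [sub_smul, mul_smul, mul_smul]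
      rw [e3, Lr_scale _ _ _ _ hθ0, smul_smul, ha, inv_mul_cancel₀ (by positivity), one_smul]
    rw [e2] at hfin
    refine hfin.trans ?_
    have hS : 0 ≤ ν.real (SS x r) := measureReal_nonneg
    rw [abs_of_pos ha0, abs_of_pos hb0]
    refine mul_le_mul_of_nonneg_right ?_ hS
    refine mul_le_mul_of_nonneg_right ?_ (by positivity)
    refine mul_le_mul_of_nonneg_left ?_ hC0
    have i1 : a * (2 ^ ℓ * M) ≤ 2 ^ (m + 1) * (2 ^ ℓ * M) :=
      mul_le_mul_of_nonneg_right ha2 (by positivity)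
    have i2 : b * M ≤ 1 * M := mul_le_mul_of_nonneg_right hb1 hM0
    linarith
  have lims : ∀ β : Fin (m + 1) → ℕ, ∃ b : Fin N → ℝ, β ∈ idx (m + 1) ℓ →
      Tendsto (Lr u x (lam β)) (𝓝[>] 0) (𝓝 b) ∧ (β ≠ 0 → b = 0) := by
    intro β
    by_cases hβ : β ∈ idx (m + 1) ℓ
    · obtain ⟨c, hc0, hc⟩ := claimA β hβ
      have hsum : Summable (fun k : ℕ => c * ν.real (SS x ((1 / 2) ^ k))) :=
        (shell_summable ν x).mul_left c
      by_cases h0 : β = 0
      · obtain ⟨a, ha⟩ := lim_zero (Lr u x (lam β)) _ (fun k θ k1 k2 => by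
          have := hc ((1 / 2) ^ k) (by positivity) θ k1 k2
          rw [h0] at this ⊢
          simpa using this) hsum
        exact ⟨a, fun _ => ⟨ha, fun h => absurd h0 h⟩⟩
      · have hp1 : 1 ≤ ∑ i, β i := by
          by_contra hcon
          apply h0
          funext i
          have h3 : ∑ i, β i = 0 := by omega
          exact (Finset.sum_eq_zero_iff.mp h3) i (Finset.mem_univ i)
        exact ⟨0, fun _ => ⟨lim_pos (Lr u x (lam β)) _ hp1 _
          (fun k θ k1 k2 => hc ((1 / 2) ^ k) (by positivity) θ k1 k2) hsum, fun _ => rfl⟩⟩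
    · exact ⟨0, fun h => absurd h hβ⟩
  choose b hb using lims
  refine ⟨b 0, σ / 2, by positivity, ?_⟩
  intro κ hκ hsup
  set c : (Fin (m + 1) → ℕ) → ℝ := fun β => ∫ z, κ z * mono β z with hc
  set h : E (m + 1) → ℝ := fun z => κ z - ∑ β ∈ idx (m + 1) ℓ, c β * lam β z with hh
  have hsm : ContDiff ℝ (⊤ : ℕ∞) h := by
    refine hκ.1.sub (ContDiff.sum fun β hβ => contDiff_const.mul (hlam β hβ).1.1)
  have hκz : ∀ z, z ∉ ball d (σ / 2) → κ z = 0 := by
    intro z hz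
    by_contra hc
    exact hz (hsup (subset_tsupport _ hc))
  have hz0 : ∀ z, z ∉ CC d σ → h z = 0 := by
    intro z hzc
    have hzb : z ∉ ball d (σ / 2) := fun hb => hzc (by
      have := cc_ball hd hσ0 hσ1 hb (θ := 1) (by norm_num) le_rfl
      rwa [one_smul] at this)
    rw [hh]
    show κ z - ∑ β ∈ idx (m + 1) ℓ, c β * lam β z = 0
    rw [hκz z hzb, Finset.sum_eq_zero, sub_zero]
    intro β hβ
    rw [hz β hβ z hzb, mul_zero]
  obtain ⟨htf, hts⟩ := tf_of_zero hd hσ1 hsm hz0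
  obtain ⟨M, hM0, hM⟩ := tf_cb ℓ htf
  have horth : OrthP ℓ h := by
    intro γ hγ
    have hγ' := mem_idx hγ
    have e1 : ∀ z, h z * mono γ z =
        κ z * mono γ z - ∑ β ∈ idx (m + 1) ℓ, c β * (lam β z * mono γ z) := by
      intro z
      rw [hh]
      show (κ z - ∑ β ∈ idx (m + 1) ℓ, c β * lam β z) * mono γ z = _
      rw [sub_mul, Finset.sum_mul]
      congr 1
      refine Finset.sum_congr rfl fun β _ => by ring
    simp_rw [e1]
    rw [integral_sub (int_mono hκ γ) (integrable_finsetSum _ fun β hβ =>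
      (int_mono (hlam β hβ).1 γ).const_mul _), integral_finsetSum _ fun β hβ =>
      (int_mono (hlam β hβ).1 γ).const_mul _]
    have e2 : ∑ β ∈ idx (m + 1) ℓ, ∫ z, c β * (lam β z * mono γ z) = c γ := by
      rw [Finset.sum_congr rfl (fun β hβ => by
        rw [integral_const_mul, (hlam β hβ).2.2 γ hγ'])]
      rw [Finset.sum_eq_single γ]
      · rw [if_pos rfl, mul_one]
      · intro β _ hne
        rw [if_neg hne, mul_zero]
      · intro hn
        exact absurd hγ' hn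
    rw [e2]
    exact sub_self _
  have hlim0 : Tendsto (Lr u x h) (𝓝[>] 0) (𝓝 0) := by
    rw [tendsto_zero_iff_norm_tendsto_zero]
    have hup : Tendsto (fun r => C0 * M * 3 ^ m * Ph ν x r) (𝓝[>] 0) (𝓝 0) := by
      have := (ph_lim ν x).const_mul (C0 * M * 3 ^ m)
      rwa [mul_zero] at this
    refine squeeze_zero' (Filter.Eventually.of_forall fun r => norm_nonneg _) ?_ hup
    filter_upwards [self_mem_nhdsWithin] with r hr
    refine (key h htf hts horth M hM0 hM r hr).trans ?_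
    exact mul_le_mul_of_nonneg_left (shell_le' ν x hr) (by positivity)
  have hsumlim : Tendsto (fun r => ∑ β ∈ idx (m + 1) ℓ, c β • Lr u x (lam β) r) (𝓝[>] 0)
      (𝓝 (∑ β ∈ idx (m + 1) ℓ, c β • b β)) :=
    tendsto_finsetSum _ fun β hβ => ((hb β hβ).1).const_smul _
  have hval : ∑ β ∈ idx (m + 1) ℓ, c β • b β = (∫ z, κ z) • b 0 := by
    rw [Finset.sum_eq_single 0]
    · congr 1
      rw [hc]
      refine integral_congr_ae (Filter.Eventually.of_forall fun z => ?_)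
      show κ z * mono 0 z = κ z
      simp [mono]
    · intro β hβ hne
      rw [(hb β hβ).2 hne, smul_zero]
    · intro hn
      exact absurd (mem_idx (by simp; omega)) hn
  have htot := hlim0.add hsumlim
  rw [zero_add, hval] at htot
  refine htot.congr' ?_
  filter_upwards [self_mem_nhdsWithin] with r hr
  have hr' : r ≠ 0 := ne_of_gt hr
  have e3 : Lr u x h r = Lr u x κ r - ∑ β ∈ idx (m + 1) ℓ, c β • Lr u x (lam β) r := by
    unfold Lr
    have e4 : ∀ z, h z • u (x + r • z) = κ z • u (x + r • z) -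
        ∑ β ∈ idx (m + 1) ℓ, c β • (lam β z • u (x + r • z)) := by
      intro z
      rw [hh]
      show (κ z - ∑ β ∈ idx (m + 1) ℓ, c β * lam β z) • u (x + r • z) = _
      rw [sub_smul, Finset.sum_smul]
      congr 1
      refine Finset.sum_congr rfl fun β _ => by rw [mul_smul]
    simp_rw [e4]
    have i1 : ∀ β ∈ idx (m + 1) ℓ, Integrable (fun z => c β • (lam β z • u (x + r • z))) :=
      fun β hβ => (int_Lr hp.int_u (hlam β hβ).1 x hr').smul (c β)
    rw [integral_sub (int_Lr hp.int_u hκ x hr') (integrable_finsetSum _ i1),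
      integral_finsetSum _ i1]
    congr 1
    refine Finset.sum_congr rfl fun β _ => by rw [integral_smul]
  rw [e3]
  abel

end Pool.Agent.CEL
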