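import Pool.Agent.CEL.Stmts

/-!
# CEL, module LIB: limits for all test functions
-/

set_option autoImplicit false
open Topology Filter MeasureTheory Matrix Metric
open scoped ENNReal Manifold

namespace Pool.Agent.CEL

namespace LIB_

variable {n N : ℕ}

theorem lim_of_approx {ι : Type*} {F : ι → (Fin N → ℝ)} {l : Filter ι} [l.NeBot]
    (h : ∀ δ : ℝ, 0 < δ → ∃ (G : ι → (Fin N → ℝ)) (b : Fin N → ℝ), Tendsto G l (𝓝 b) ∧
      ∀ᶠ r in l, ‖F r - G r‖ ≤ δ) : ∃ b, Tendsto F l (𝓝 b) := by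
  rw [← cauchy_map_iff_exists_tendsto, Metric.cauchy_iff]
  refine ⟨inferInstance, fun ε hε => ?_⟩
  obtain ⟨G, b, hG, hFG⟩ := h (ε / 5) (by positivity)
  have h1 : ∀ᶠ r in l, dist (G r) b < ε / 5 := (Metric.tendsto_nhds.1 hG) _ (by positivity)
  refine ⟨{y | dist y b < 2 * ε / 5}, ?_, ?_⟩
  · rw [mem_map]
    filter_upwards [h1, hFG] with r hr1 hr2
    change dist (F r) b < 2 * ε / 5
    have := dist_triangle (F r) (G r) b
    rw [dist_eq_norm (F r) (G r)] at this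
    linarith
  · intro y hy z hz
    have h1 : dist y b < 2 * ε / 5 := hy
    have h2 : dist z b < 2 * ε / 5 := hz
    have := dist_triangle_right y z b
    linarith

theorem int_shift {u : E n → (Fin N → ℝ)} (hu : Integrable u) (x : E n) {r : ℝ} (hr : r ≠ 0) :
    Integrable (fun z => u (x + r • z)) :=
  (hu.comp_add_left x).comp_smul hr

theorem int_lr {u : E n → (Fin N → ℝ)} (hu : Integrable u) (x : E n) {r : ℝ} (hr : r ≠ 0)
    {κ : E n → ℝ} (hκ : TF κ) : Integrable (fun z => κ z • u (x + r • z)) :=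
  (int_shift hu x hr).locallyIntegrable.integrable_smul_left_of_hasCompactSupport
    hκ.1.continuous hκ.2

theorem lr_scale {u : E n → (Fin N → ℝ)} (x : E n) {r c : ℝ} (hc : 0 < c)
    (κ : E n → ℝ) : Lr u x κ r = c ^ n • Lr u x (fun z => κ (c • z)) (r * c) := by
  have h := Measure.integral_comp_smul (volume : Measure (E n))
    (fun z => κ z • u (x + r • z)) c
  have hfin : Module.finrank ℝ (E n) = n := by simp
  rw [hfin] at h
  have hcn : (0 : ℝ) < c ^ n := pow_pos hc n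
  rw [abs_of_pos (inv_pos.2 hcn)] at h
  unfold Lr
  simp only [smul_smul] at h ⊢
  rw [h, smul_smul, mul_inv_cancel₀ hcn.ne', one_smul]

theorem step1 {u : E n → (Fin N → ℝ)} (x : E n) (hu : Integrable u) (Z : Set (E n))
    (hloc : ∀ z0, z0 ∉ Z → ∃ ρ : ℝ, 0 < ρ ∧ ∀ κ : E n → ℝ, TF κ → tsupport κ ⊆ ball z0 ρ →
      ∃ b, Tendsto (Lr u x κ) (𝓝[>] 0) (𝓝 b))
    (κ : E n → ℝ) (hκ : TF κ) (hd : ∀ z ∈ tsupport κ, z ∉ Z) :
    ∃ b, Tendsto (Lr u x κ) (𝓝[>] 0) (𝓝 b) := by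
  classical
  choose! ρ hρ hρ2 using hloc
  obtain ⟨t, ht, hcov⟩ := hκ.2.isCompact.elim_nhds_subcover (fun z => ball z (ρ z))
    (fun z hz => ball_mem_nhds z (hρ z (hd z hz)))
  have hU : tsupport κ ⊆ ⋃ i : t, ball (i : E n) (ρ i) := by
    intro z hz
    obtain ⟨i, hi, hzi⟩ := Set.mem_iUnion₂.1 (hcov hz)
    exact Set.mem_iUnion.2 ⟨⟨i, hi⟩, hzi⟩
  obtain ⟨f, hf⟩ := SmoothPartitionOfUnity.exists_isSubordinate (𝓘(ℝ, E n))
    (isClosed_tsupport κ) (fun i : t => ball (i : E n) (ρ i)) (fun i => isOpen_ball) hU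
  have hfc : ∀ i, ContDiff ℝ (⊤ : ℕ∞) (f i) := fun i => (f i).contMDiff.contDiff
  have hTF : ∀ i, TF (fun z => f i z * κ z) := fun i =>
    ⟨(hfc i).mul hκ.1, hκ.2.mul_left⟩
  have hsupp : ∀ i : t, tsupport (fun z => f i z * κ z) ⊆ ball (i : E n) (ρ i) := fun i =>
    (tsupport_mul_subset_left (f := fun z => f i z) (g := κ)).trans (hf i)
  choose b hb using fun i : t => hρ2 i (hd i (ht i i.2)) (fun z => f i z * κ z) (hTF i) (hsupp i)
  refine ⟨∑ i, b i, ?_⟩
  have hsum : ∀ r : ℝ, r ≠ 0 → ∑ i : t, Lr u x (fun z => f i z * κ z) r = Lr u x κ r := by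
    intro r hr
    unfold Lr
    rw [← integral_finset_sum _ (fun i _ => int_lr hu x hr (hTF i))]
    congr 1
    ext1 z
    rw [← Finset.sum_smul, ← Finset.sum_mul]
    by_cases hz : z ∈ tsupport κ
    · have h1 := f.sum_eq_one hz
      rw [finsum_eq_sum_of_fintype] at h1
      rw [h1, one_mul]
    · rw [image_eq_zero_of_notMem_tsupport hz, mul_zero]
  have hlim : Tendsto (fun r => ∑ i : t, Lr u x (fun z => f i z * κ z) r) (𝓝[>] 0)
      (𝓝 (∑ i, b i)) := tendsto_finset_sum _ (fun i _ => hb i)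
  refine hlim.congr' ?_
  filter_upwards [self_mem_nhdsWithin] with r hr
  exact hsum r (ne_of_gt hr)

theorem hyp_null {ζ : E n} (hζ : ζ ≠ 0) : volume {z : E n | inner ℝ ζ z = 0} = 0 := by
  have h6 : (LinearMap.ker (innerSL ℝ ζ : E n →L[ℝ] ℝ).toLinearMap) ≠ ⊤ := by
    intro h7
    have h8 : ζ ∈ LinearMap.ker (innerSL ℝ ζ : E n →L[ℝ] ℝ).toLinearMap := by
      rw [h7]; trivial
    rw [LinearMap.mem_ker] at h8
    have h9 : inner ℝ ζ ζ = 0 := h8
    exact hζ (inner_self_eq_zero.1 h9)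
  have h10 := Measure.addHaar_submodule (volume : Measure (E n)) _ h6
  refine measure_mono_null (fun z hz => ?_) h10
  exact LinearMap.mem_ker.2 hz

/-- The rescaled measure of a ball is bounded. -/
theorem dens_le {m : ℕ} {μ : Measure (E (m + 1))} {x : E (m + 1)} {F : ℝ}
    (hF : ∀ r : ℝ, 0 < r → r ≤ 1 → μ (closedBall x r) ≤ ENNReal.ofReal (F * r ^ m)) {R r : ℝ}
    (hR : 0 < R) (hr : 0 < r) (hrR : r * R ≤ 1) :
    dens μ x r (closedBall 0 R) ≤ ENNReal.ofReal (F * R ^ m) := by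
  unfold dens
  have h1 : (fun z : E (m + 1) => x + r • z) '' closedBall 0 R ⊆ closedBall x (r * R) := by
    rintro _ ⟨z, hz, rfl⟩
    rw [mem_closedBall_zero_iff] at hz
    rw [mem_closedBall, dist_eq_norm]
    have : x + r • z - x = r • z := by abel
    rw [this, norm_smul, Real.norm_of_nonneg hr.le]
    exact mul_le_mul_of_nonneg_left hz hr.le
  calc ENNReal.ofReal ((r ^ m)⁻¹) * μ ((fun z : E (m + 1) => x + r • z) '' closedBall 0 R)
      ≤ ENNReal.ofReal ((r ^ m)⁻¹) * ENNReal.ofReal (F * (r * R) ^ m) := by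
        gcongr
        exact (measure_mono h1).trans (hF _ (by positivity) hrR)
    _ = ENNReal.ofReal (F * R ^ m) := by
        rw [← ENNReal.ofReal_mul (by positivity)]
        congr 1
        rw [mul_pow]
        field_simp

theorem small {m ℓ K : ℕ} (h4 : Stmt_PWC) (A : Op (m + 1) N K) (hA : NIprop A ℓ) (Ru : ℝ)
    (u : E (m + 1) → (Fin N → ℝ)) (μ : Measure (E (m + 1))) (g : E (m + 1) → (Fin K → ℝ))
    (hP : IsPair A Ru u μ g) (x : E (m + 1)) (hP1 : P1 μ x)
    (lam : (Fin (m + 1) → ℕ) → E (m + 1) → ℝ) (R : ℝ) (hR : 0 < R)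
    (hlam : Dual ℓ (closedBall (0 : E (m + 1)) (R + 3)) lam)
    (c : (Fin (m + 1) → ℕ) → (Fin N → ℝ))
    (hc : ∀ β ∈ idx (m + 1) ℓ, Tendsto (Lr u x (lam β)) (𝓝[>] 0) (𝓝 (c β))) (δ : ℝ)
    (hδ : 0 < δ) : ∃ η : ℝ, 0 < η ∧ ∀ S : Set (E (m + 1)), MeasurableSet S →
      S ⊆ closedBall 0 R → volume S ≤ ENNReal.ofReal η →
        ∀ᶠ r in 𝓝[>] (0 : ℝ), ∫⁻ z in S, ‖u (x + r • z)‖ₑ ≤ ENNReal.ofReal δ := by
  classical
  obtain ⟨F, hF⟩ := hP1
  set F' : ℝ := |F * (R + 3) ^ m| with hF'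
  have hF'0 : 0 ≤ F' := abs_nonneg _
  set ε : ℝ := δ / (4 * (F' + 1)) with hε
  have hε0 : 0 < ε := by positivity
  obtain ⟨Cε, hCε0, hCε⟩ := h4 m N K ℓ A hA (closedBall 0 (R + 3)) (closedBall 0 R) lam
    (isCompact_closedBall _ _) (convex_closedBall _ _) (isCompact_closedBall _ _)
    (by
      rw [interior_closedBall _ (by positivity)]
      exact closedBall_subset_ball (by linarith)) hlam ε hε0
  -- bound of the coefficients
  set B : ℝ := ∑ β ∈ idx (m + 1) ℓ, (‖c β‖ + 1) with hB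
  have hB0 : 0 ≤ B := Finset.sum_nonneg (fun β _ => by positivity)
  have hBev : ∀ᶠ r in 𝓝[>] (0 : ℝ), ∀ β ∈ idx (m + 1) ℓ, ‖Lr u x (lam β) r‖ ≤ B := by
    rw [Finset.eventually_all]
    intro β hβ
    have h1 := (hc β hβ).norm
    have h2 : ∀ᶠ r in 𝓝[>] (0 : ℝ), ‖Lr u x (lam β) r‖ < ‖c β‖ + 1 :=
      h1.eventually (gt_mem_nhds (by linarith))
    filter_upwards [h2] with r hr
    exact hr.le.trans (Finset.single_le_sum (f := fun β => ‖c β‖ + 1)
      (fun β _ => by positivity) hβ)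
  have hcontm : ∀ β : Fin (m + 1) → ℕ, Continuous (mono β : E (m + 1) → ℝ) := by
    intro β
    unfold mono
    fun_prop
  obtain ⟨M, hM⟩ := (isCompact_closedBall (0 : E (m + 1)) R).exists_bound_of_continuousOn
    (f := fun z => ∑ β ∈ idx (m + 1) ℓ, |mono β z|)
    (continuous_finset_sum _ (fun β _ => (hcontm β).abs)).continuousOn
  have hM0 : 0 ≤ M := (norm_nonneg _).trans (hM 0 (mem_closedBall_self hR.le))
  refine ⟨δ / (4 * (Cε * F' + M * B + 1)), by positivity, fun S hSm hSR hSv => ?_⟩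
  set η : ℝ := δ / (4 * (Cε * F' + M * B + 1)) with hη
  have hη0 : 0 < η := by positivity
  have hsmall : ∀ᶠ r in 𝓝[>] (0 : ℝ), r < 1 / (R + 3) := by
    have : (0 : ℝ) < 1 / (R + 3) := by positivity
    exact nhdsWithin_le_nhds (gt_mem_nhds this)
  filter_upwards [hBev, hsmall, self_mem_nhdsWithin] with r hrB hrs hr0
  have hr0' : 0 < r := hr0
  have hrR : r * (R + 3) ≤ 1 := by
    rw [lt_div_iff₀ (by positivity)] at hrs
    exact hrs.le
  have hd := dens_le hF (by positivity : 0 < R + 3) hr0' hrR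
  have hd' : dens μ x r (closedBall 0 (R + 3)) ≤ ENNReal.ofReal F' :=
    hd.trans (ENNReal.ofReal_le_ofReal (le_abs_self _))
  have hmain := hCε Ru u μ g hP x r hr0' S hSm hSR
  set Pz : E (m + 1) → (Fin N → ℝ) := fun z =>
    ∑ β ∈ idx (m + 1) ℓ, mono β z • Lr u x (lam β) r with hPz
  have hPc : Continuous Pz := by
    rw [hPz]
    exact continuous_finset_sum _ (fun β _ => (hcontm β).smul continuous_const)
  have hPb : ∀ z ∈ S, ‖Pz z‖ₑ ≤ ENNReal.ofReal (M * B) := by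
    intro z hz
    rw [← ofReal_norm_eq_enorm]
    apply ENNReal.ofReal_le_ofReal
    calc ‖Pz z‖ ≤ ∑ β ∈ idx (m + 1) ℓ, ‖mono β z • Lr u x (lam β) r‖ := norm_sum_le _ _
      _ ≤ ∑ β ∈ idx (m + 1) ℓ, |mono β z| * B := by
          refine Finset.sum_le_sum (fun β hβ => ?_)
          rw [norm_smul, Real.norm_eq_abs]
          exact mul_le_mul_of_nonneg_left (hrB β hβ) (abs_nonneg _)
      _ = (∑ β ∈ idx (m + 1) ℓ, |mono β z|) * B := (Finset.sum_mul _ _ _).symm
      _ ≤ M * B := by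
          refine mul_le_mul_of_nonneg_right ?_ hB0
          exact (Real.le_norm_self _).trans (hM z (hSR hz))
  calc ∫⁻ z in S, ‖u (x + r • z)‖ₑ
      ≤ ∫⁻ z in S, (‖u (x + r • z) - Pz z‖ₑ + ‖Pz z‖ₑ) := by
        refine lintegral_mono (fun z => ?_)
        have h1 : u (x + r • z) = (u (x + r • z) - Pz z) + Pz z := by abel
        calc ‖u (x + r • z)‖ₑ = ‖(u (x + r • z) - Pz z) + Pz z‖ₑ := by rw [← h1]
          _ ≤ _ := enorm_add_le _ _
    _ = (∫⁻ z in S, ‖u (x + r • z) - Pz z‖ₑ) + ∫⁻ z in S, ‖Pz z‖ₑ :=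
        lintegral_add_right _ (hPc.measurable.enorm)
    _ ≤ (ENNReal.ofReal ε + ENNReal.ofReal Cε * ENNReal.ofReal η) * ENNReal.ofReal F' +
          ENNReal.ofReal (M * B) * ENNReal.ofReal η := by
        refine add_le_add (hmain.trans ?_) ?_
        · gcongr
        · calc ∫⁻ z in S, ‖Pz z‖ₑ ≤ ∫⁻ z in S, ENNReal.ofReal (M * B) :=
                setLIntegral_mono' hSm hPb
            _ = ENNReal.ofReal (M * B) * volume S := by
                rw [lintegral_const, Measure.restrict_apply_univ]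
            _ ≤ _ := by gcongr
    _ = ENNReal.ofReal ((ε + Cε * η) * F' + M * B * η) := by
        rw [← ENNReal.ofReal_mul hCε0, ← ENNReal.ofReal_add hε0.le (by positivity),
          ← ENNReal.ofReal_mul (by positivity), ← ENNReal.ofReal_mul (by positivity),
          ← ENNReal.ofReal_add (by positivity) (by positivity)]
    _ ≤ ENNReal.ofReal δ := by
        apply ENNReal.ofReal_le_ofReal
        have h1 : ε * F' ≤ δ / 4 := by
          rw [hε, div_mul_eq_mul_div, div_le_div_iff₀ (by positivity) (by norm_num)]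
          nlinarith
        have h2 : (Cε * F' + M * B) * η ≤ δ / 4 := by
          have h3 : 0 ≤ Cε * F' + M * B := by positivity
          rw [hη, mul_div_assoc', div_le_div_iff₀ (by positivity) (by norm_num)]
          nlinarith
        nlinarith

end LIB_

open LIB_ in
/-- (4.2) limits for all test functions. -/
theorem lib_proof (h1 : Stmt_GOD) (h2 : Stmt_EXD) (h3 : Stmt_LIA) (h4 : Stmt_PWC)
    (h5 : Stmt_DUF) : Stmt_LIB := by
  classical
  intro m N K ℓ A hA Ru u μ g hP x hgx hP1 hP2 κ hκ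
  obtain ⟨s, hs0, hs⟩ := h1 (m + 1) N K ℓ A hA (g x) hgx
  have hgood : ∀ d : E (m + 1), ‖d‖ = 1 → (∀ ζ ∈ s, inner ℝ ζ d ≠ 0) →
      ∃ (a : Fin N → ℝ) (ρ' : ℝ), 0 < ρ' ∧ ∀ κ : E (m + 1) → ℝ, TF κ → tsupport κ ⊆ ball d ρ' →
        Tendsto (Lr u x κ) (𝓝[>] 0) (𝓝 ((∫ z, κ z) • a)) := by
    intro d hd hdz
    obtain ⟨ρ, hρ, hCP⟩ := hP2 d hd (hs d hd hdz)
    exact h3 m N K ℓ A hA Ru u μ g hP x d ρ hd hρ hCP
  have hui := hP.int_u
  -- the bad set
  set Z : Set (E (m + 1)) := {0} ∪ ⋃ ζ ∈ s, {z | inner ℝ ζ z = 0} with hZ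
  have hZc : IsClosed Z := by
    refine isClosed_singleton.union (s.finite_toSet.isClosed_biUnion (fun ζ _ => ?_))
    exact isClosed_eq (by fun_prop) continuous_const
  have hZ0 : volume Z = 0 := by
    rw [hZ, measure_union_null_iff]
    refine ⟨by simp, ?_⟩
    have h5' : volume (⋃ ζ ∈ (s : Set (E (m + 1))), {z : E (m + 1) | inner ℝ ζ z = 0}) = 0 := by
      rw [measure_biUnion_null_iff s.countable_toSet]
      intro ζ hζ
      exact hyp_null (hs0 ζ hζ)
    exact h5'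
  have hloc : ∀ z0, z0 ∉ Z → ∃ ρ : ℝ, 0 < ρ ∧ ∀ κ : E (m + 1) → ℝ, TF κ →
      tsupport κ ⊆ ball z0 ρ → ∃ b, Tendsto (Lr u x κ) (𝓝[>] 0) (𝓝 b) := by
    intro z0 hz0
    have hz00 : z0 ≠ 0 := fun h => hz0 (Or.inl h)
    have hzn : 0 < ‖z0‖ := norm_pos_iff.2 hz00
    have hzi : ∀ ζ ∈ s, inner ℝ ζ z0 ≠ 0 := fun ζ hζ h =>
      hz0 (Or.inr (Set.mem_iUnion₂.2 ⟨ζ, hζ, h⟩))
    obtain ⟨a, ρ', hρ', hlim⟩ := hgood (‖z0‖⁻¹ • z0)
      (by rw [norm_smul, norm_inv, norm_norm, inv_mul_cancel₀ hzn.ne'])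
      (fun ζ hζ h => by
        rw [inner_smul_right] at h
        rcases mul_eq_zero.1 h with h | h
        · exact (inv_ne_zero hzn.ne') h
        · exact hzi ζ hζ h)
    refine ⟨‖z0‖ * ρ', by positivity, fun κ' hκ' hsup => ?_⟩
    have hTF' : TF (fun z => κ' (‖z0‖ • z)) := by
      have h12 : ContDiff ℝ (⊤ : ℕ∞) (fun z : E (m + 1) => ‖z0‖ • z) :=
        contDiff_id.const_smul ‖z0‖
      refine ⟨hκ'.1.comp h12, ?_⟩
      exact hκ'.2.comp_smul hzn.ne'
    have hsupp' : tsupport (fun z => κ' (‖z0‖ • z)) ⊆ ball (‖z0‖⁻¹ • z0) ρ' := by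
      intro z hz
      have h11 : ‖z0‖ • z ∈ tsupport κ' := by
        have h12 : Continuous (fun z : E (m + 1) => ‖z0‖ • z) := by fun_prop
        exact tsupport_comp_subset_preimage κ' h12 hz
      have h13 := hsup h11
      rw [mem_ball, dist_eq_norm] at h13 ⊢
      have h14 : ‖z0‖ • z - z0 = ‖z0‖ • (z - ‖z0‖⁻¹ • z0) := by
        rw [smul_sub, smul_smul, mul_inv_cancel₀ hzn.ne', one_smul]
      rw [h14, norm_smul, norm_norm] at h13
      exact lt_of_mul_lt_mul_left h13 hzn.le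
    have h15 := hlim _ hTF' hsupp'
    refine ⟨‖z0‖ ^ (m + 1) • ((∫ z, κ' (‖z0‖ • z)) • a), ?_⟩
    have h16 : Tendsto (fun r : ℝ => r * ‖z0‖) (𝓝[>] 0) (𝓝[>] 0) := by
      rw [tendsto_nhdsWithin_iff]
      constructor
      · have : Tendsto (fun r : ℝ => r * ‖z0‖) (𝓝 0) (𝓝 (0 * ‖z0‖)) :=
          (continuous_id.mul continuous_const).tendsto 0
        rw [zero_mul] at this
        exact this.mono_left nhdsWithin_le_nhds
      · filter_upwards [self_mem_nhdsWithin] with r hr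
        exact mul_pos hr hzn
    have h17 := (h15.comp h16).const_smul (‖z0‖ ^ (m + 1))
    refine h17.congr (fun r => ?_)
    rw [lr_scale x hzn κ']
    rfl
  -- one good direction
  obtain ⟨d, hd1, -, hdz⟩ := h2 m s hs0 (bs 0) (by simp [bs])
  obtain ⟨a, ρ', hρ', hlim⟩ := hgood d hd1 hdz
  obtain ⟨lam, hlam⟩ := h5 (m + 1) ℓ (ball d (min ρ' 1)) isOpen_ball
    ⟨d, mem_ball_self (lt_min hρ' one_pos)⟩
  obtain ⟨R0, hR0⟩ := hκ.2.isCompact.isBounded.subset_closedBall (0 : E (m + 1))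
  set R : ℝ := max R0 1 with hR
  have hRpos : 0 < R := lt_of_lt_of_le one_pos (le_max_right _ _)
  have hκR : tsupport κ ⊆ closedBall 0 R := hR0.trans (closedBall_subset_closedBall (le_max_left _ _))
  have hlam' : Dual ℓ (closedBall (0 : E (m + 1)) (R + 3)) lam := by
    intro β hβ
    obtain ⟨h6, h7, h8⟩ := hlam β hβ
    refine ⟨h6, h7.trans ?_, h8⟩
    intro z hz
    rw [mem_ball, dist_eq_norm] at hz
    rw [mem_closedBall_zero_iff]
    have h9 : ‖z‖ ≤ ‖z - d‖ + ‖d‖ := by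
      calc ‖z‖ = ‖(z - d) + d‖ := by rw [sub_add_cancel]
        _ ≤ _ := norm_add_le _ _
    have h10 := min_le_right ρ' 1
    linarith
  have hc : ∀ β ∈ idx (m + 1) ℓ,
      Tendsto (Lr u x (lam β)) (𝓝[>] 0) (𝓝 ((∫ z, lam β z) • a)) := fun β hβ =>
    hlim _ (hlam β hβ).1 ((hlam β hβ).2.1.trans (ball_subset_ball (min_le_left _ _)))
  obtain ⟨Mκ, hMκ⟩ := hκ.1.continuous.bounded_above_of_compact_support hκ.2
  have hMκ0 : 0 ≤ Mκ := (norm_nonneg _).trans (hMκ 0)
  apply lim_of_approx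
  intro δ hδ
  obtain ⟨η, hη, hsm⟩ := small h4 A hA Ru u μ g hP x hP1 lam R hRpos hlam' _ hc
    (δ / (Mκ + 1)) (by positivity)
  -- the neighbourhood
  have hKc : IsCompact (Z ∩ tsupport κ) := hκ.2.isCompact.inter_left hZc
  have hK0 : volume (Z ∩ tsupport κ) = 0 := measure_mono_null Set.inter_subset_left hZ0
  obtain ⟨U, hKU, hUo, hUv⟩ := (Z ∩ tsupport κ).exists_isOpen_lt_of_lt
    (ENNReal.ofReal η) (by rw [hK0]; exact ENNReal.ofReal_pos.2 hη) 
  obtain ⟨χ, hχ1, hχ0, hχ01⟩ := exists_contMDiffMap_one_nhds_of_subset_interior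
    (n := (⊤ : ℕ∞)) (𝓘(ℝ, E (m + 1))) hKc.isClosed
    (by rw [hUo.interior_eq]; exact hKU)
  have hχc : ContDiff ℝ (⊤ : ℕ∞) χ := χ.contMDiff.contDiff
  have hT1 : TF (fun z => κ z * χ z) := ⟨hκ.1.mul hχc, hκ.2.mul_right⟩
  have hT2 : TF (fun z => κ z * (1 - χ z)) := ⟨hκ.1.mul (contDiff_const.sub hχc), hκ.2.mul_right⟩
  obtain ⟨b, hb⟩ := step1 x hui Z hloc _ hT2 (by
    intro z hz hzZ
    have hzκ : z ∈ tsupport κ := tsupport_mul_subset_left hz
    have h6 : ∀ᶠ y in 𝓝 z, χ y = 1 := by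
      have h7 : 𝓝 z ≤ 𝓝ˢ (Z ∩ tsupport κ) := nhds_le_nhdsSet ⟨hzZ, hzκ⟩
      exact h7 hχ1
    have h8 : z ∉ tsupport (fun z => κ z * (1 - χ z)) := by
      rw [notMem_tsupport_iff_eventuallyEq]
      filter_upwards [h6] with y hy
      simp [hy]
    exact h8 hz)
  refine ⟨_, b, hb, ?_⟩
  have hSv : volume (U ∩ closedBall (0 : E (m + 1)) R) ≤ ENNReal.ofReal η :=
    (measure_mono Set.inter_subset_left).trans hUv.le
  filter_upwards [hsm (U ∩ closedBall 0 R) (hUo.measurableSet.inter measurableSet_closedBall)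
    Set.inter_subset_right hSv, self_mem_nhdsWithin] with r hr hr0
  have hr0' : r ≠ 0 := ne_of_gt hr0
  have h6 : Lr u x κ r - Lr u x (fun z => κ z * (1 - χ z)) r = Lr u x (fun z => κ z * χ z) r := by
    unfold Lr
    rw [← integral_sub (int_lr hui x hr0' hκ) (int_lr hui x hr0' hT2)]
    congr 1
    ext1 z
    rw [← sub_smul]
    congr 1
    ring
  rw [h6]
  have h7 : ‖Lr u x (fun z => κ z * χ z) r‖ₑ ≤ ENNReal.ofReal δ := by
    unfold Lr
    refine (enorm_integral_le_lintegral_enorm _).trans ?_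
    calc ∫⁻ z, ‖(κ z * χ z) • u (x + r • z)‖ₑ
        ≤ ∫⁻ z, (U ∩ closedBall (0 : E (m + 1)) R).indicator
            (fun z => ENNReal.ofReal Mκ * ‖u (x + r • z)‖ₑ) z := by
          refine lintegral_mono (fun z => ?_)
          by_cases hz : z ∈ U ∩ closedBall (0 : E (m + 1)) R
          · rw [Set.indicator_of_mem hz, enorm_smul]
            gcongr
            rw [← ofReal_norm_eq_enorm]
            apply ENNReal.ofReal_le_ofReal
            rw [norm_mul]
            have h8 : ‖χ z‖ ≤ 1 := by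
              rw [Real.norm_eq_abs, abs_le]
              have := hχ01 z
              constructor
              · linarith [this.1]
              · exact this.2
            calc ‖κ z‖ * ‖χ z‖ ≤ Mκ * 1 :=
                  mul_le_mul (hMκ z) h8 (norm_nonneg _) hMκ0
              _ = Mκ := mul_one _
          · rw [Set.indicator_of_notMem hz]
            have h8 : κ z * χ z = 0 := by
              by_cases hzU : z ∈ U
              · have h9 : z ∉ closedBall (0 : E (m + 1)) R := fun h => hz ⟨hzU, h⟩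
                have h10 : z ∉ tsupport κ := fun h => h9 (hκR h)
                rw [image_eq_zero_of_notMem_tsupport h10, zero_mul]
              · rw [hχ0 z hzU, mul_zero]
            rw [h8, zero_smul, enorm_zero]
      _ = ENNReal.ofReal Mκ * ∫⁻ z in U ∩ closedBall (0 : E (m + 1)) R, ‖u (x + r • z)‖ₑ := by
          rw [lintegral_indicator (hUo.measurableSet.inter measurableSet_closedBall),
            lintegral_const_mul' _ _ ENNReal.ofReal_ne_top]
      _ ≤ ENNReal.ofReal Mκ * ENNReal.ofReal (δ / (Mκ + 1)) := by gcongr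
      _ = ENNReal.ofReal (Mκ * (δ / (Mκ + 1))) := (ENNReal.ofReal_mul hMκ0).symm
      _ ≤ ENNReal.ofReal δ := by
          apply ENNReal.ofReal_le_ofReal
          rw [mul_div_assoc', div_le_iff₀ (by positivity)]
          nlinarith
  rw [← ofReal_norm_eq_enorm] at h7
  exact (ENNReal.ofReal_le_ofReal_iff hδ.le).1 h7

end Pool.Agent.CEL
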