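import Pool.Agent.CEL.Stmts

/-!
# CEL, module LIC: limits of the measures
-/

set_option autoImplicit false
open Topology Filter MeasureTheory Matrix Metric
open scoped ENNReal

namespace Pool.Agent.CEL

namespace LIC_

/-- The functional `v ↦ (A j v)_i`. -/
noncomputable def Lam {n N K : ℕ} (A : Op n N K) (i : Fin K) (j : Fin n) :
    (Fin N → ℝ) →L[ℝ] ℝ :=
  LinearMap.toContinuousLinearMap ((LinearMap.proj i).comp (Matrix.mulVecLin (A j)))

theorem Lam_apply {n N K : ℕ} (A : Op n N K) (i : Fin K) (j : Fin n) (v : Fin N → ℝ) :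
    Lam A i j v = (A j *ᵥ v) i := rfl

theorem dot_single {n N K : ℕ} (A : Op n N K) (i : Fin K) (j : Fin n) (v : Fin N → ℝ) (c : ℝ) :
    v ⬝ᵥ ((A j).transpose *ᵥ (Pi.single i c)) = c * Lam A i j v := by
  rw [Lam_apply, Matrix.dotProduct_mulVec, Matrix.vecMul_transpose, dotProduct_single]
  ring

/-- Partial derivative. -/
noncomputable def pd {n : ℕ} (ψ : E n → ℝ) (j : Fin n) (z : E n) : ℝ := fderiv ℝ ψ z (bs j)

theorem tf_pd {n : ℕ} {ψ : E n → ℝ} (h : TF ψ) (j : Fin n) : TF (pd ψ j) := by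
  refine ⟨?_, ?_⟩
  · have h1 : ContDiff ℝ (⊤ : ℕ∞) (fderiv ℝ ψ) := by
      refine h.1.fderiv_right ?_
      simp
    exact h1.clm_apply contDiff_const
  · have h2 : HasCompactSupport (fderiv ℝ ψ) := h.2.fderiv (𝕜 := ℝ)
    exact h2.comp_left (g := fun L : E n →L[ℝ] ℝ => L (bs j)) rfl

/-- The rescaled test function. -/
noncomputable def tt {n : ℕ} (ψ : E n → ℝ) (x : E n) (r : ℝ) (y : E n) : ℝ := ψ (r⁻¹ • (y - x))

/-- The test field. -/
noncomputable def ph {n K : ℕ} (ψ : E n → ℝ) (x : E n) (r : ℝ) (i : Fin K) (y : E n) :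
    Fin K → ℝ := Pi.single i (tt ψ x r y)

/-- The single map. -/
noncomputable def sg {K : ℕ} (i : Fin K) : ℝ →L[ℝ] (Fin K → ℝ) :=
  LinearMap.toContinuousLinearMap (LinearMap.single ℝ (fun _ : Fin K => ℝ) i)

theorem sg_apply {K : ℕ} (i : Fin K) (c : ℝ) : sg i c = Pi.single i c := rfl

theorem smooth_tt {n : ℕ} {ψ : E n → ℝ} (h : TF ψ) (x : E n) (r : ℝ) :
    ContDiff ℝ (⊤ : ℕ∞) (tt ψ x r) := by
  have h1 : ContDiff ℝ (⊤ : ℕ∞) (fun y : E n => r⁻¹ • (y - x)) :=
    (contDiff_id.sub contDiff_const).const_smul r⁻¹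
  exact h.1.comp h1

theorem cpt_tt {n : ℕ} {ψ : E n → ℝ} (h : TF ψ) (x : E n) {r : ℝ} (hr : 0 < r) :
    HasCompactSupport (tt ψ x r) := by
  obtain ⟨R, hR⟩ := h.2.isCompact.isBounded.subset_closedBall (0 : E n)
  refine HasCompactSupport.intro (isCompact_closedBall x (r * R)) ?_
  intro y hy
  unfold tt
  by_contra hne
  apply hy
  have h1 : r⁻¹ • (y - x) ∈ tsupport ψ := subset_tsupport _ hne
  have h2 := hR h1
  rw [mem_closedBall_zero_iff, norm_smul, norm_inv, Real.norm_of_nonneg hr.le] at h2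
  rw [mem_closedBall_iff_norm]
  rw [inv_mul_le_iff₀ hr] at h2
  exact h2

theorem smooth_ph {n K : ℕ} {ψ : E n → ℝ} (h : TF ψ) (x : E n) (r : ℝ) (i : Fin K) :
    ContDiff ℝ (⊤ : ℕ∞) (ph ψ x r i) := by
  have h1 : ph ψ x r i = fun y => sg i (tt ψ x r y) := by
    funext y
    rw [sg_apply]
    rfl
  rw [h1]
  exact (sg i).contDiff.comp (smooth_tt h x r)

theorem cpt_ph {n K : ℕ} {ψ : E n → ℝ} (h : TF ψ) (x : E n) {r : ℝ} (hr : 0 < r) (i : Fin K) :
    HasCompactSupport (ph ψ x r i) := by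
  have h1 : ph ψ x r i = (fun c => sg i c) ∘ (tt ψ x r) := by
    funext y
    simp only [Function.comp]
    rw [sg_apply]
    rfl
  rw [h1]
  exact (cpt_tt h x hr).comp_left (map_zero _)

theorem fderiv_ph {n K : ℕ} {ψ : E n → ℝ} (h : TF ψ) (x : E n) {r : ℝ} (hr : 0 < r) (i : Fin K)
    (z : E n) (j : Fin n) :
    fderiv ℝ (ph ψ x r i) (x + r • z) (bs j) = Pi.single i (r⁻¹ * pd ψ j z) := by
  have h0 : r⁻¹ • (x + r • z - x) = z := by
    rw [add_sub_cancel_left, smul_smul, inv_mul_cancel₀ hr.ne', one_smul]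
  have hd : HasFDerivAt ψ (fderiv ℝ ψ z) (r⁻¹ • (x + r • z - x)) := by
    rw [h0]
    exact (h.1.differentiable (by simp)).differentiableAt.hasFDerivAt
  have hl : HasFDerivAt (fun y : E n => r⁻¹ • (y - x))
      (r⁻¹ • (ContinuousLinearMap.id ℝ (E n))) (x + r • z) :=
    ((hasFDerivAt_id (x + r • z)).sub_const x).const_smul r⁻¹
  have h1 : HasFDerivAt (fun y => sg i (tt ψ x r y))
      ((sg i).comp ((fderiv ℝ ψ z).comp (r⁻¹ • (ContinuousLinearMap.id ℝ (E n)))))
      (x + r • z) :=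
    (sg i).hasFDerivAt.comp (x + r • z) (hd.comp (x + r • z) hl)
  have h2 : ph ψ x r i = fun y => sg i (tt ψ x r y) := by
    funext y
    rw [sg_apply]
    rfl
  rw [h2, h1.fderiv]
  simp only [ContinuousLinearMap.comp_apply, _root_.smul_apply,
    ContinuousLinearMap.id_apply, map_smul]
  rw [sg_apply]
  funext k
  by_cases hk : k = i
  · subst hk
    simp [pd]
  · simp [hk]

/-- The identity from the weak equation. -/
theorem weak_id {m N K : ℕ} (A : Op (m + 1) N K) (Ru : ℝ) (u : E (m + 1) → (Fin N → ℝ))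
    (μ : Measure (E (m + 1))) (g : E (m + 1) → (Fin K → ℝ)) (hp : IsPair A Ru u μ g)
    (x : E (m + 1)) (i : Fin K) {ψ : E (m + 1) → ℝ} (h : TF ψ) {r : ℝ} (hr : 0 < r) :
    (r ^ m)⁻¹ * ∫ y, g y i * tt ψ x r y ∂μ =
      - ∑ j, Lam A i j (Lr u x (pd ψ j) r) := by
  have hw := hp.weak (ph ψ x r i) (smooth_ph h x r i) (cpt_ph h x hr i)
  set F : E (m + 1) → ℝ := fun y =>
    ∑ j, u y ⬝ᵥ ((A j).transpose *ᵥ (fderiv ℝ (ph ψ x r i) y (bs j))) with hF
  have hR : ∫ y, g y ⬝ᵥ ph ψ x r i y ∂μ = ∫ y, g y i * tt ψ x r y ∂μ := by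
    refine integral_congr_ae (Eventually.of_forall ?_)
    intro y
    simp only [ph]
    rw [dotProduct_single]
  have h1 : ∫ z, F (x + r • z) = |(r ^ (m + 1))⁻¹| * ∫ y, F y := by
    have e1 := Measure.integral_comp_smul (volume : Measure (E (m + 1))) (fun z => F (x + z)) r
    rw [integral_add_left_eq_self F x] at e1
    simpa using e1
  have h2 : ∀ z, F (x + r • z) = ∑ j, r⁻¹ * Lam A i j (pd ψ j z • u (x + r • z)) := by
    intro z
    rw [hF]
    refine Finset.sum_congr rfl ?_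
    intro j _
    rw [fderiv_ph h x hr, dot_single, map_smul, smul_eq_mul, mul_assoc]
  have hint : ∀ j : Fin (m + 1), Integrable (fun z => pd ψ j z • u (x + r • z)) := by
    intro j
    have a1 : Integrable (fun z => u (x + r • z)) :=
      (hp.int_u.comp_add_left x).comp_smul hr.ne'
    have a2 := tf_pd h j
    obtain ⟨C, hC⟩ := a2.2.exists_bound_of_continuous a2.1.continuous
    refine (a1.norm.const_mul C).mono' ?_ ?_
    · exact a2.1.continuous.aestronglyMeasurable.smul a1.aestronglyMeasurable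
    · refine Eventually.of_forall ?_
      intro z
      rw [norm_smul]
      exact mul_le_mul_of_nonneg_right (hC z) (norm_nonneg _)
  have h3 : ∫ z, F (x + r • z) = r⁻¹ * ∑ j, Lam A i j (Lr u x (pd ψ j) r) := by
    simp only [h2]
    rw [integral_finsetSum]
    · rw [Finset.mul_sum]
      refine Finset.sum_congr rfl ?_
      intro j _
      rw [integral_const_mul, ContinuousLinearMap.integral_comp_comm _ (hint j)]
      rfl
    · intro j _
      exact ((Lam A i j).integrable_comp (hint j)).const_mul _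
  rw [hR] at hw
  have hw' : ∫ y, g y i * tt ψ x r y ∂μ = - ∫ y, F y := by
    rw [hF, hw, neg_neg]
  have hrp : 0 < r ^ (m + 1) := pow_pos hr _
  rw [h3, abs_of_pos (inv_pos.mpr hrp)] at h1
  rw [hw']
  have h4 : ∫ y, F y = r ^ (m + 1) * (r⁻¹ * ∑ j, Lam A i j (Lr u x (pd ψ j) r)) := by
    rw [h1, ← mul_assoc, mul_inv_cancel₀ hrp.ne', one_mul]
  rw [h4, pow_succ]
  have hrm : r ^ m ≠ 0 := (pow_pos hr _).ne'
  field_simp

/-- The remainder estimate. -/
theorem rem_est {m K : ℕ} (μ : Measure (E (m + 1))) [IsFiniteMeasure μ]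
    (g : E (m + 1) → (Fin K → ℝ)) (hg : Measurable g) (hg1 : ∀ y, ‖g y‖ ≤ 1)
    (x : E (m + 1)) (i : Fin K) {ψ : E (m + 1) → ℝ} (h : TF ψ) (M R F ε r : ℝ) (hr : 0 < r)
    (hM : 0 ≤ M) (hMb : ∀ z, |ψ z| ≤ M) (hR : ∀ z, R < ‖z‖ → ψ z = 0) (hR0 : 0 < R) (hF : 0 ≤ F)
    (hε : 0 ≤ ε)
    (h1 : μ (closedBall x (R * r)) ≤ ENNReal.ofReal (F * (R * r) ^ m))
    (h3 : ∫⁻ y in closedBall x (R * r), ‖g y - g x‖ₑ ∂μ ≤
      ENNReal.ofReal ε * μ (closedBall x (R * r))) :
    |(r ^ m)⁻¹ * (g x i * (∫ y, tt ψ x r y ∂μ) - ∫ y, g y i * tt ψ x r y ∂μ)| ≤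
      M * ε * F * R ^ m := by
  have hc : Continuous (tt ψ x r) := (smooth_tt h x r).continuous
  have hb : ∀ y, |tt ψ x r y| ≤ M := fun y => hMb _
  have i1 : Integrable (fun y => tt ψ x r y) μ := by
    refine Integrable.of_bound hc.aestronglyMeasurable M ?_
    exact Eventually.of_forall (fun y => by rw [Real.norm_eq_abs]; exact hb y)
  have hgi : Measurable (fun y => g y i) := (measurable_pi_apply i).comp hg
  have i2 : Integrable (fun y => g y i * tt ψ x r y) μ := by
    refine Integrable.of_bound (hgi.aestronglyMeasurable.mul hc.aestronglyMeasurable) M ?_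
    refine Eventually.of_forall (fun y => ?_)
    rw [Real.norm_eq_abs, abs_mul]
    have b1 : |g y i| ≤ 1 := by
      have := norm_le_pi_norm (g y) i
      rw [Real.norm_eq_abs] at this
      exact this.trans (hg1 y)
    calc |g y i| * |tt ψ x r y| ≤ 1 * M := mul_le_mul b1 (hb y) (abs_nonneg _) zero_le_one
      _ = M := one_mul _
  have e1 : g x i * (∫ y, tt ψ x r y ∂μ) - ∫ y, g y i * tt ψ x r y ∂μ
      = ∫ y, (g x i - g y i) * tt ψ x r y ∂μ := by
    rw [← integral_const_mul, ← integral_sub (i1.const_mul _) i2]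
    refine integral_congr_ae (Eventually.of_forall ?_)
    intro y
    simp only
    ring
  have e2 : ‖∫ y, (g x i - g y i) * tt ψ x r y ∂μ‖ₑ ≤
      ENNReal.ofReal (M * ε * F * (R * r) ^ m) := by
    calc ‖∫ y, (g x i - g y i) * tt ψ x r y ∂μ‖ₑ
        ≤ ∫⁻ y, ‖(g x i - g y i) * tt ψ x r y‖ₑ ∂μ := enorm_integral_le_lintegral_enorm _
      _ ≤ ∫⁻ y, (closedBall x (R * r)).indicator
            (fun y => ENNReal.ofReal M * ‖g y - g x‖ₑ) y ∂μ := by
          refine lintegral_mono ?_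
          intro y
          by_cases hy : y ∈ closedBall x (R * r)
          · simp only [Set.indicator_of_mem hy]
            rw [enorm_mul, mul_comm]
            refine mul_le_mul' ?_ ?_
            · rw [Real.enorm_eq_ofReal_abs]
              exact ENNReal.ofReal_le_ofReal (hb y)
            · have : ‖g x i - g y i‖ ≤ ‖g y - g x‖ := by
                rw [norm_sub_rev]
                exact norm_le_pi_norm (g y - g x) i
              rw [← ofReal_norm, ← ofReal_norm]
              exact ENNReal.ofReal_le_ofReal this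
          · have hz : tt ψ x r y = 0 := by
              unfold tt
              apply hR
              rw [mem_closedBall_iff_norm, not_le] at hy
              rw [norm_smul, norm_inv, Real.norm_of_nonneg hr.le, lt_inv_mul_iff₀ hr, mul_comm]
              exact hy
            simp only [hz, mul_zero, enorm_zero]
            exact zero_le
      _ = ENNReal.ofReal M * ∫⁻ y in closedBall x (R * r), ‖g y - g x‖ₑ ∂μ := by
          rw [lintegral_indicator measurableSet_closedBall, lintegral_const_mul]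
          exact (hg.sub_const _).enorm
      _ ≤ ENNReal.ofReal M * (ENNReal.ofReal ε * ENNReal.ofReal (F * (R * r) ^ m)) := by
          refine mul_le_mul' le_rfl (h3.trans (mul_le_mul' le_rfl h1))
      _ = ENNReal.ofReal (M * ε * F * (R * r) ^ m) := by
          rw [← ENNReal.ofReal_mul hε, ← ENNReal.ofReal_mul hM]
          congr 1
          ring
  have e3 : |g x i * (∫ y, tt ψ x r y ∂μ) - ∫ y, g y i * tt ψ x r y ∂μ| ≤
      M * ε * F * (R * r) ^ m := by
    rw [e1, ← Real.norm_eq_abs]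
    rw [← ofReal_norm] at e2
    exact (ENNReal.ofReal_le_ofReal_iff (by positivity)).mp e2
  rw [abs_mul, abs_of_pos (inv_pos.mpr (pow_pos hr m)), inv_mul_le_iff₀ (pow_pos hr m)]
  calc _ ≤ M * ε * F * (R * r) ^ m := e3
    _ = r ^ m * (M * ε * F * R ^ m) := by rw [mul_pow]; ring

end LIC_

open LIC_ in
theorem lic_proof : Stmt_LIC := by
  intro m N K A Ru u μ g hp x hgx hP1 hP3 hLr ψ hψ
  have := hp.fin
  obtain ⟨i, hi⟩ : ∃ i, g x i ≠ 0 := by
    by_contra hcon
    push Not at hcon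
    exact hgx (funext hcon)
  choose b hb using fun j : Fin (m + 1) => hLr (pd ψ j) (tf_pd hψ j)
  obtain ⟨F₀, hF₀⟩ := hP1
  set F := max F₀ 0 with hF
  have hFn : 0 ≤ F := le_max_right _ _
  obtain ⟨M₀, hM₀⟩ := hψ.2.exists_bound_of_continuous hψ.1.continuous
  obtain ⟨R₀, hR₀⟩ := hψ.2.isCompact.isBounded.subset_closedBall (0 : E (m + 1))
  set M := max M₀ 0 with hM
  set R := max R₀ 1 with hR
  have hMn : 0 ≤ M := le_max_right _ _
  have hRp : 0 < R := lt_of_lt_of_le one_pos (le_max_right _ _)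
  have hMb : ∀ z, |ψ z| ≤ M := fun z => by
    have := hM₀ z
    rw [Real.norm_eq_abs] at this
    exact this.trans (le_max_left _ _)
  have hRb : ∀ z, R < ‖z‖ → ψ z = 0 := by
    intro z hz
    by_contra hne
    have h1 : z ∈ tsupport ψ := subset_tsupport _ hne
    have h2 := hR₀ h1
    rw [mem_closedBall_zero_iff] at h2
    exact absurd (h2.trans (le_max_left R₀ 1)) (not_le.mpr hz)
  -- the main term
  have t1 : Tendsto (fun r : ℝ => (r ^ m)⁻¹ * ∫ y, g y i * tt ψ x r y ∂μ) (𝓝[>] 0)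
      (𝓝 (- ∑ j, Lam A i j (b j))) := by
    have t0 : Tendsto (fun r : ℝ => - ∑ j, Lam A i j (Lr u x (pd ψ j) r)) (𝓝[>] 0)
        (𝓝 (- ∑ j, Lam A i j (b j))) := by
      refine Tendsto.neg (tendsto_finsetSum _ ?_)
      intro j _
      exact ((Lam A i j).continuous.tendsto (b j)).comp (hb j)
    refine t0.congr' ?_
    filter_upwards [self_mem_nhdsWithin] with r hr
    exact (weak_id A Ru u μ g hp x i hψ hr).symm
  -- the remainder
  have t2 : Tendsto (fun r : ℝ => (r ^ m)⁻¹ * (g x i * (∫ y, tt ψ x r y ∂μ) -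
      ∫ y, g y i * tt ψ x r y ∂μ)) (𝓝[>] 0) (𝓝 0) := by
    rw [Metric.tendsto_nhds]
    intro δ hδ
    set C := M * F * R ^ m with hC
    have hCn : 0 ≤ C := by positivity
    set ε := δ / (2 * (C + 1)) with hε
    have hεp : 0 < ε := by positivity
    have hmap : Tendsto (fun r : ℝ => R * r) (𝓝[>] 0) (𝓝[>] 0) := by
      refine tendsto_nhdsWithin_iff.mpr ⟨?_, ?_⟩
      · have : Tendsto (fun r : ℝ => R * r) (𝓝 0) (𝓝 (R * 0)) :=
          (continuous_const.mul continuous_id).tendsto 0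
        rw [mul_zero] at this
        exact this.mono_left nhdsWithin_le_nhds
      · filter_upwards [self_mem_nhdsWithin] with r hr
        exact mul_pos hRp hr
    have hsmall : ∀ᶠ r in 𝓝[>] (0 : ℝ), r ≤ 1 := by
      filter_upwards [Ioc_mem_nhdsGT (zero_lt_one (α := ℝ))] with r hr
      exact hr.2
    filter_upwards [self_mem_nhdsWithin, hmap.eventually (hP3 ε hεp), hmap.eventually hsmall]
      with r hr h3 h4
    have hr' : 0 < r := hr
    have h1 : μ (closedBall x (R * r)) ≤ ENNReal.ofReal (F * (R * r) ^ m) := by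
      refine (hF₀ (R * r) (mul_pos hRp hr') h4).trans (ENNReal.ofReal_le_ofReal ?_)
      exact mul_le_mul_of_nonneg_right (le_max_left _ _) (pow_nonneg (mul_pos hRp hr').le _)
    have h5 := rem_est μ g hp.meas_g hp.norm_g x i hψ M R F ε r hr' hMn hMb hRb hRp hFn hεp.le h1 h3
    rw [Real.dist_eq, sub_zero]
    refine lt_of_le_of_lt h5 ?_
    have h6 : M * ε * F * R ^ m = C * ε := by rw [hC]; ring
    rw [h6, hε]
    have h7 : C * (δ / (2 * (C + 1))) = δ * (C / (2 * (C + 1))) := by ring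
    rw [h7]
    have h8 : C / (2 * (C + 1)) < 1 := by
      rw [div_lt_one (by positivity)]
      linarith
    calc δ * (C / (2 * (C + 1))) < δ * 1 := mul_lt_mul_of_pos_left h8 hδ
      _ = δ := mul_one δ
  have t3 := (t2.add t1).const_mul (g x i)⁻¹
  refine ⟨(g x i)⁻¹ * (0 + - ∑ j, Lam A i j (b j)), ?_⟩
  unfold T
  refine t3.congr ?_
  intro r
  have : (r ^ m)⁻¹ * (g x i * (∫ y, tt ψ x r y ∂μ) - ∫ y, g y i * tt ψ x r y ∂μ) +
      (r ^ m)⁻¹ * ∫ y, g y i * tt ψ x r y ∂μ = g x i * ((r ^ m)⁻¹ * ∫ y, tt ψ x r y ∂μ) := by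
    ring
  rw [this, ← mul_assoc, inv_mul_cancel₀ hi, one_mul]
  rfl

end Pool.Agent.CEL
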