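import Pool.Agent.CEL.Stmts

/-!
# CEL, module LMA: Lemma A (mollification and scaling)
-/

set_option autoImplicit false
open Topology Filter MeasureTheory Matrix Metric
open scoped ENNReal Convolution

namespace Pool.Agent.CEL

namespace LMA_

section
variable {n N K : ℕ}

/-- The mollification. -/
noncomputable def mol (φ : ContDiffBump (0 : E n)) (u : E n → (Fin N → ℝ)) : E n → (Fin N → ℝ) :=
  φ.normed volume ⋆[ContinuousLinearMap.lsmul ℝ ℝ, volume] u

lemma mol_apply (φ : ContDiffBump (0 : E n)) (u : E n → (Fin N → ℝ)) (x : E n) :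
    mol φ u x = ∫ t, φ.normed volume t • u (x - t) := rfl

lemma cs_u {A : Op n N K} {R : ℝ} {u : E n → (Fin N → ℝ)} {μ : Measure (E n)}
    {g : E n → (Fin K → ℝ)} (h : IsPair A R u μ g) : HasCompactSupport u := by
  refine HasCompactSupport.intro (isCompact_closedBall (0 : E n) R) ?_
  intro x hx
  rw [mem_closedBall_zero_iff, not_le] at hx
  exact h.supp_u x hx

lemma mol_smooth (φ : ContDiffBump (0 : E n)) {u : E n → (Fin N → ℝ)} (hu : Integrable u) :
    ContDiff ℝ (⊤ : ℕ∞) (mol φ u) :=
  φ.hasCompactSupport_normed.contDiff_convolution_left _ φ.contDiff_normed hu.locallyIntegrable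

lemma mol_cs (φ : ContDiffBump (0 : E n)) {u : E n → (Fin N → ℝ)} (hu : HasCompactSupport u) :
    HasCompactSupport (mol φ u) :=
  HasCompactSupport.convolution _ φ.hasCompactSupport_normed hu

/-- The linear functional `v ↦ (A v)_i`. -/
noncomputable def lin (A : Matrix (Fin K) (Fin N) ℝ) (i : Fin K) : (Fin N → ℝ) →L[ℝ] ℝ :=
  LinearMap.toContinuousLinearMap ((LinearMap.proj i) ∘ₗ A.mulVecLin)

lemma lin_apply (A : Matrix (Fin K) (Fin N) ℝ) (i : Fin K) (v : Fin N → ℝ) :
    lin A i v = (A *ᵥ v) i := rfl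

lemma nrm_smooth (φ : ContDiffBump (0 : E n)) : ContDiff ℝ (⊤ : ℕ∞) (φ.normed volume) :=
  φ.contDiff_normed

lemma nrm_fc (φ : ContDiffBump (0 : E n)) : Continuous (fderiv ℝ (φ.normed (volume : Measure (E n)))) :=
  (nrm_smooth φ).continuous_fderiv (by simp)

lemma int_fderiv (φ : ContDiffBump (0 : E n)) {u : E n → (Fin N → ℝ)} (hu : Integrable u)
    (y e : E n) :
    Integrable (fun z => (fderiv ℝ (φ.normed volume) (y - z) e) • u z) := by
  have hc := nrm_fc φ
  have h3 := (((φ.hasCompactSupport_normed (μ := volume)).fderiv (𝕜 := ℝ)).convolutionExists_left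
    ((ContinuousLinearMap.lsmul ℝ ℝ).precompL (E n)) hc hu.locallyIntegrable y).integrable_swap
  exact h3.apply_continuousLinearMap e

lemma fderiv_mol (φ : ContDiffBump (0 : E n)) {u : E n → (Fin N → ℝ)} (hu : Integrable u)
    (y e : E n) :
    fderiv ℝ (mol φ u) y e = ∫ z, (fderiv ℝ (φ.normed volume) (y - z) e) • u z := by
  have h1 := (φ.hasCompactSupport_normed (μ := volume)).hasFDerivAt_convolution_left
    (ContinuousLinearMap.lsmul ℝ ℝ) (μ := volume) (φ.contDiff_normed (n := 1))
    hu.locallyIntegrable y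
  have h2 : fderiv ℝ (mol φ u) y = _ := h1.fderiv
  rw [h2, convolution_eq_swap]
  have hc := nrm_fc φ
  have h3 := (((φ.hasCompactSupport_normed (μ := volume)).fderiv (𝕜 := ℝ)).convolutionExists_left
    ((ContinuousLinearMap.lsmul ℝ ℝ).precompL (E n)) hc hu.locallyIntegrable y).integrable_swap
  rw [ContinuousLinearMap.integral_apply h3]
  rfl

/-- `B` of the mollification. -/
lemma BD_mol {A : Op n N K} {R : ℝ} {u : E n → (Fin N → ℝ)} {μ : Measure (E n)}
    {g : E n → (Fin K → ℝ)} (h : IsPair A R u μ g) (φ : ContDiffBump (0 : E n)) (y : E n)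
    (i : Fin K) : BD A (mol φ u) y i = ∫ z, φ.normed volume (y - z) * g z i ∂μ := by
  classical
  set η := φ.normed (volume : Measure (E n)) with hη
  have e1 : BD A (mol φ u) y i = ∑ j, ∫ z, lin (A j) i ((fderiv ℝ η (y - z) (bs j)) • u z) := by
    unfold BD
    rw [Finset.sum_apply]
    refine Finset.sum_congr rfl fun j _ => ?_
    rw [← lin_apply, fderiv_mol φ h.int_u, ContinuousLinearMap.integral_comp_comm]
    exact int_fderiv φ h.int_u y (bs j)
  have e2 : BD A (mol φ u) y i = ∫ z, ∑ j, (fderiv ℝ η (y - z) (bs j)) * (A j *ᵥ u z) i := by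
    rw [e1, ← integral_finsetSum]
    · refine integral_congr_ae (Eventually.of_forall fun z => ?_)
      refine Finset.sum_congr rfl fun j _ => ?_
      rw [map_smul, lin_apply, smul_eq_mul]
    · intro j _
      exact (lin (A j) i).integrable_comp (int_fderiv φ h.int_u y (bs j))
  have hw := h.weak (fun z => η (y - z) • (Pi.single i (1 : ℝ) : Fin K → ℝ))
    (((nrm_smooth φ).comp (contDiff_const.sub contDiff_id)).smul contDiff_const) (by
      have hc : HasCompactSupport (fun z => η (y - z)) :=
        (φ.hasCompactSupport_normed (μ := volume)).comp_homeomorph (Homeomorph.subLeft y)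
      exact hc.smul_right (f' := fun _ => (Pi.single i (1 : ℝ) : Fin K → ℝ)))
  have hd : ∀ z j, fderiv ℝ (fun z => η (y - z) • (Pi.single i (1 : ℝ) : Fin K → ℝ)) z (bs j) =
      (-(fderiv ℝ η (y - z) (bs j))) • (Pi.single i (1 : ℝ) : Fin K → ℝ) := by
    intro z j
    have hdiff : HasFDerivAt η (fderiv ℝ η (y - z)) (y - z) :=
      ((nrm_smooth φ).differentiable (by simp) (y - z)).hasFDerivAt
    have h1 : HasFDerivAt (fun z => η (y - z)) ((fderiv ℝ η (y - z)).comp
        (-(ContinuousLinearMap.id ℝ (E n)))) z := by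
      have h2 : HasFDerivAt (fun z : E n => y - z) (-(ContinuousLinearMap.id ℝ (E n))) z :=
        (hasFDerivAt_id z).const_sub y
      exact hdiff.comp z h2
    have h3 := h1.smul_const (Pi.single i (1 : ℝ) : Fin K → ℝ)
    rw [h3.fderiv]
    simp
  have l1 : ∀ z, ∑ j, u z ⬝ᵥ ((A j).transpose *ᵥ
      (fderiv ℝ (fun z => η (y - z) • (Pi.single i (1 : ℝ) : Fin K → ℝ)) z (bs j))) =
      - ∑ j, (fderiv ℝ η (y - z) (bs j)) * (A j *ᵥ u z) i := by
    intro z
    rw [← Finset.sum_neg_distrib]
    refine Finset.sum_congr rfl fun j _ => ?_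
    rw [hd, Matrix.mulVec_smul, dotProduct_smul, dotProduct_mulVec, vecMul_transpose,
      dotProduct_single, mul_one, smul_eq_mul, neg_mul]
  have l2 : ∀ z, g z ⬝ᵥ (η (y - z) • (Pi.single i (1 : ℝ) : Fin K → ℝ)) = η (y - z) * g z i := by
    intro z
    rw [dotProduct_smul, dotProduct_single, mul_one, smul_eq_mul]
  simp only [l1, l2, integral_neg] at hw
  rw [e2]
  exact neg_injective hw

/-- pointwise bound for `B` of the mollification. -/
lemma BD_bound {A : Op n N K} {R : ℝ} {u : E n → (Fin N → ℝ)} {μ : Measure (E n)}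
    {g : E n → (Fin K → ℝ)} (h : IsPair A R u μ g) (φ : ContDiffBump (0 : E n)) (y : E n) :
    ‖BD A (mol φ u) y‖ₑ ≤ ∫⁻ z, ENNReal.ofReal (φ.normed volume (y - z)) ∂μ := by
  have := h.fin
  set η := φ.normed (volume : Measure (E n)) with hη
  have hcont : Continuous (fun z => η (y - z)) := φ.continuous_normed.comp (by fun_prop)
  have hcs : HasCompactSupport (fun z => η (y - z)) :=
    (φ.hasCompactSupport_normed (μ := volume)).comp_homeomorph (Homeomorph.subLeft y)
  have hint : Integrable (fun z => η (y - z)) μ := hcont.integrable_of_hasCompactSupport hcs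
  have hnn : ∀ z, 0 ≤ η (y - z) := fun z => φ.nonneg_normed _
  rw [← ofReal_integral_eq_lintegral_ofReal hint (Eventually.of_forall hnn),
    ← ofReal_norm]
  refine ENNReal.ofReal_le_ofReal ?_
  refine (pi_norm_le_iff_of_nonneg (integral_nonneg hnn)).2 fun i => ?_
  rw [BD_mol h φ y i]
  refine norm_integral_le_of_norm_le hint (Eventually.of_forall fun z => ?_)
  rw [norm_mul, Real.norm_of_nonneg (hnn z)]
  have h1 : ‖g z i‖ ≤ 1 := le_trans (norm_le_pi_norm (g z) i) (h.norm_g z)
  exact mul_le_of_le_one_right (hnn z) h1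

end

section
variable {m n N K : ℕ}

lemma finrank_E (n : ℕ) : Module.finrank ℝ (E n) = n := by simp

/-- `∫ η(x + r z - y) dz = r^{-n}`. -/
lemma int_scale (φ : ContDiffBump (0 : E n)) (x y : E n) {r : ℝ} (hr : 0 < r) :
    ∫ z, φ.normed volume (x + r • z - y) = (r ^ n)⁻¹ := by
  have h1 := Measure.integral_comp_smul (volume : Measure (E n))
    (fun z => φ.normed volume (z - (y - x))) r
  have h2 : ∫ z, φ.normed volume (x + r • z - y) =
      ∫ z, φ.normed volume (r • z - (y - x)) := by
    congr 1; funext z; congr 1; abel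
  rw [h2, h1, integral_sub_right_eq_self (fun z => φ.normed (volume : Measure (E n)) z) (y - x),
    φ.integral_normed, finrank_E, smul_eq_mul, mul_one, abs_of_pos (by positivity)]

lemma lint_scale (φ : ContDiffBump (0 : E n)) (x y : E n) {r : ℝ} (hr : 0 < r) :
    ∫⁻ z, ENNReal.ofReal (φ.normed volume (x + r • z - y)) = ENNReal.ofReal ((r ^ n)⁻¹) := by
  have hcont : Continuous (fun z => φ.normed volume (x + r • z - y)) :=
    φ.continuous_normed.comp (by fun_prop)
  have hcs : HasCompactSupport (fun z : E n => φ.normed volume (x + r • z - y)) := by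
    refine HasCompactSupport.intro (isCompact_closedBall (r⁻¹ • (y - x)) (r⁻¹ * φ.rOut)) ?_
    intro z hz
    rw [mem_closedBall, not_le] at hz
    have : x + r • z - y ∉ Function.support (φ.normed (volume : Measure (E n))) := by
      rw [φ.support_normed_eq, mem_ball_zero_iff, not_lt]
      have e : x + r • z - y = r • (z - r⁻¹ • (y - x)) := by
        rw [smul_sub, smul_smul, mul_inv_cancel₀ hr.ne', one_smul]; abel
      rw [e, norm_smul, Real.norm_of_nonneg hr.le, ← dist_eq_norm]
      have h3 : r * (r⁻¹ * φ.rOut) ≤ r * dist z (r⁻¹ • (y - x)) :=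
        mul_le_mul_of_nonneg_left hz.le hr.le
      rwa [← mul_assoc, mul_inv_cancel₀ hr.ne', one_mul] at h3
    simpa using this
  rw [← ofReal_integral_eq_lintegral_ofReal (hcont.integrable_of_hasCompactSupport hcs)
    (Eventually.of_forall fun z => φ.nonneg_normed _), int_scale φ x y hr]

/-- The Fubini step on the right hand side. -/
lemma rhs_bound {A : Op (m + 1) N K} {R : ℝ} {u : E (m + 1) → (Fin N → ℝ)}
    {μ : Measure (E (m + 1))} {g : E (m + 1) → (Fin K → ℝ)} (h : IsPair A R u μ g)
    (φ : ContDiffBump (0 : E (m + 1))) {C : Set (E (m + 1))} (hC : IsCompact C)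
    (x : E (m + 1)) {r : ℝ} (hr : 0 < r) :
    ∫⁻ z in C, ‖BD A (fun z => mol φ u (x + r • z)) z‖ₑ ≤
      ENNReal.ofReal ((r ^ m)⁻¹) * μ (cthickening φ.rOut ((fun z => x + r • z) '' C)) := by
  have := h.fin
  set S := (fun z => x + r • z) '' C with hS
  have hS' : IsCompact S := hC.image (by fun_prop)
  have e1 : ∀ z, BD A (fun z => mol φ u (x + r • z)) z = r • BD A (mol φ u) (x + r • z) := by
    intro z
    unfold BD
    rw [Finset.smul_sum]
    refine Finset.sum_congr rfl fun j _ => ?_
    have hd : HasFDerivAt (mol φ u) (fderiv ℝ (mol φ u) (x + r • z)) (x + r • z) :=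
      ((mol_smooth φ h.int_u).differentiable (by simp) _).hasFDerivAt
    have h2 : HasFDerivAt (fun z : E (m + 1) => x + r • z)
        (r • ContinuousLinearMap.id ℝ (E (m + 1))) z :=
      ((hasFDerivAt_id z).const_smul r).const_add x
    have h3 : fderiv ℝ (fun z => mol φ u (x + r • z)) z = _ := (hd.comp z h2).fderiv
    rw [h3, ← Matrix.mulVec_smul]
    congr 1
    simp
  have e2 : ∀ z, ‖BD A (fun z => mol φ u (x + r • z)) z‖ₑ ≤
      ENNReal.ofReal r * ∫⁻ y, ENNReal.ofReal (φ.normed volume (x + r • z - y)) ∂μ := by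
    intro z
    rw [e1, enorm_smul, Real.enorm_of_nonneg hr.le]
    gcongr
    exact BD_bound h φ _
  calc ∫⁻ z in C, ‖BD A (fun z => mol φ u (x + r • z)) z‖ₑ
      ≤ ∫⁻ z in C, ENNReal.ofReal r *
          ∫⁻ y, ENNReal.ofReal (φ.normed volume (x + r • z - y)) ∂μ := lintegral_mono e2
    _ = ENNReal.ofReal r * ∫⁻ z in C,
          ∫⁻ y, ENNReal.ofReal (φ.normed volume (x + r • z - y)) ∂μ := by
        rw [lintegral_const_mul']; exact ENNReal.ofReal_ne_top
    _ = ENNReal.ofReal r * ∫⁻ y, (∫⁻ z in C,
          ENNReal.ofReal (φ.normed volume (x + r • z - y))) ∂μ := by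
        rw [lintegral_lintegral_swap]
        refine Measurable.aemeasurable ?_
        refine ENNReal.measurable_ofReal.comp (Continuous.measurable ?_)
        exact φ.continuous_normed.comp (by fun_prop)
    _ ≤ ENNReal.ofReal r * ∫⁻ y, (cthickening φ.rOut S).indicator
          (fun _ => ENNReal.ofReal ((r ^ (m + 1))⁻¹)) y ∂μ := by
        refine mul_le_mul_right (lintegral_mono fun y => ?_) _
        by_cases hy : y ∈ cthickening φ.rOut S
        · rw [Set.indicator_of_mem hy]
          refine (setLIntegral_le_lintegral _ _).trans ?_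
          rw [lint_scale φ x y hr]
        · rw [Set.indicator_of_notMem hy]
          refine le_of_eq ?_
          refine (setLIntegral_congr_fun hC.measurableSet (g := fun _ => 0) ?_).trans (by simp)
          intro z hz
          have : x + r • z - y ∉ Function.support (φ.normed (volume : Measure (E (m + 1)))) := by
            rw [φ.support_normed_eq, mem_ball_zero_iff, not_lt]
            by_contra hlt
            rw [not_le] at hlt
            apply hy
            refine mem_cthickening_of_dist_le y (x + r • z) _ _ ⟨z, hz, rfl⟩ ?_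
            rw [dist_comm, dist_eq_norm]
            exact hlt.le
          have h0 : φ.normed (volume : Measure (E (m + 1))) (x + r • z - y) = 0 := by
            simpa using this
          simp [h0]
    _ = ENNReal.ofReal ((r ^ m)⁻¹) * μ (cthickening φ.rOut S) := by
        rw [lintegral_indicator_const isClosed_cthickening.measurableSet, ← mul_assoc,
          ← ENNReal.ofReal_mul hr.le]
        congr 2
        rw [pow_succ]
        field_simp

/-- continuity of translations. -/
lemma cont_Lr {h : E n → ℝ} (hh : TF h) {u : E n → (Fin N → ℝ)} (hu : Integrable u) (x : E n)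
    {r : ℝ} (hr : 0 < r) : Continuous (fun s => Lr u (x + s) h r) := by
  have e : ∀ s, Lr u (x + s) h r = |(r ^ n)⁻¹| • ∫ y, h (r⁻¹ • (y - (x + s))) • u y := by
    intro s
    have h1 := Measure.integral_comp_smul (volume : Measure (E n))
      (fun z => h (r⁻¹ • z) • u ((x + s) + z)) r
    rw [finrank_E] at h1
    have h2 : Lr u (x + s) h r = ∫ z, h (r⁻¹ • (r • z)) • u ((x + s) + r • z) := by
      unfold Lr
      congr 1; funext z
      rw [smul_smul, inv_mul_cancel₀ hr.ne', one_smul]
    rw [h2, h1]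
    congr 1
    have h3 := integral_sub_right_eq_self (μ := (volume : Measure (E n)))
      (fun z => h (r⁻¹ • z) • u ((x + s) + z)) (x + s)
    rw [← h3]
    congr 1; funext y
    congr 2; abel
  obtain ⟨B, hB⟩ := hh.2.exists_bound_of_continuous hh.1.continuous
  have key : Continuous (fun s : E n => ∫ y, h (r⁻¹ • (y - (x + s))) • u y) := by
    refine continuous_of_dominated (bound := fun y => B * ‖u y‖) ?_ ?_ ?_ ?_
    · intro s
      have hA : AEStronglyMeasurable (fun y : E n => h (r⁻¹ • (y - (x + s)))) volume :=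
        (hh.1.continuous.comp (by fun_prop)).aestronglyMeasurable
      exact hA.smul hu.aestronglyMeasurable
    · intro s
      refine Eventually.of_forall fun y => ?_
      rw [norm_smul]
      exact mul_le_mul_of_nonneg_right (hB _) (norm_nonneg _)
    · exact hu.norm.const_mul B
    · refine Eventually.of_forall fun y => ?_
      refine Continuous.smul (hh.1.continuous.comp (by fun_prop)) continuous_const
  have e' : (fun s => Lr u (x + s) h r) =
      fun s => |(r ^ n)⁻¹| • ∫ y, h (r⁻¹ • (y - (x + s))) • u y := funext e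
  rw [e']
  have hc : Continuous (fun _ : E n => |(r ^ n)⁻¹|) := continuous_const
  exact hc.smul key

/-- Fubini on the left hand side. -/
lemma lhs_eq {h : E n → ℝ} (hh : TF h) {u : E n → (Fin N → ℝ)} (hm : Measurable u)
    (hu : Integrable u) (φ : ContDiffBump (0 : E n)) (x : E n) {r : ℝ} :
    ∫ z, h z • mol φ u (x + r • z) =
      (φ.normed volume ⋆[ContinuousLinearMap.lsmul ℝ ℝ, volume] (fun s => Lr u (x + s) h r)) 0 := by
  set η := φ.normed (volume : Measure (E n)) with hη
  obtain ⟨B, hB⟩ := (φ.hasCompactSupport_normed (μ := volume)).exists_bound_of_continuous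
    φ.continuous_normed
  have hI : Integrable (fun p : E n × E n => h p.1 • (η p.2 • u (x + r • p.1 - p.2)))
      ((volume : Measure (E n)).prod volume) := by
    have hmeas : Measurable (fun p : E n × E n => h p.1 • (η p.2 • u (x + r • p.1 - p.2))) := by
      refine Measurable.smul (hh.1.continuous.measurable.comp measurable_fst) ?_
      refine Measurable.smul (φ.continuous_normed.measurable.comp measurable_snd) ?_
      exact hm.comp (by fun_prop)
    refine ⟨hmeas.aestronglyMeasurable, ?_⟩
    unfold HasFiniteIntegral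
    rw [lintegral_prod _ hmeas.enorm.aemeasurable]
    have hb : ∀ z : E n, ∫⁻ t, ‖h z • (η t • u (x + r • z - t))‖ₑ ≤
        ‖h z‖ₑ * (ENNReal.ofReal B * ∫⁻ t, ‖u t‖ₑ) := by
      intro z
      have h1 : ∫⁻ t, ‖u (x + r • z - t)‖ₑ = ∫⁻ t, ‖u t‖ₑ :=
        lintegral_sub_left_eq_self (fun t => ‖u t‖ₑ) (x + r • z)
      rw [← h1, ← lintegral_const_mul' _ _ ENNReal.ofReal_ne_top,
        ← lintegral_const_mul' _ _ enorm_ne_top]
      refine lintegral_mono fun t => ?_
      rw [enorm_smul, enorm_smul]
      gcongr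
      rw [← ofReal_norm]
      exact ENNReal.ofReal_le_ofReal (hB t)
    refine lt_of_le_of_lt (lintegral_mono hb) ?_
    rw [lintegral_mul_const' _ _ (ENNReal.mul_ne_top ENNReal.ofReal_ne_top hu.2.ne)]
    have hhi : Integrable h := hh.1.continuous.integrable_of_hasCompactSupport hh.2
    exact ENNReal.mul_lt_top hhi.2 (ENNReal.mul_lt_top ENNReal.ofReal_lt_top hu.2)
  have e1 : ∫ z, h z • mol φ u (x + r • z) =
      ∫ z, ∫ t, h z • (η t • u (x + r • z - t)) := by
    congr 1; funext z
    rw [mol_apply, integral_smul]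
  rw [e1, integral_integral_swap hI, convolution_lsmul]
  congr 1; funext t
  show _ = η t • ∫ z, h z • u (x + (0 - t) + r • z)
  rw [← integral_smul]
  congr 1; funext z
  rw [smul_comm]
  congr 3
  abel

end

end LMA_

open LMA_ in
theorem lma_proof (h1 : Stmt_SMB) : Stmt_LMA := by
  intro m N K ℓ A hA C hC hconv hint
  obtain ⟨C₀, hC₀, hS⟩ := h1 (m + 1) N K ℓ A hA C hC hconv hint
  refine ⟨C₀, hC₀, ?_⟩
  intro h hh hsupp horth M hM Ru u μ g hp x r hr
  have hM0 : 0 ≤ M := (norm_nonneg _).trans (hM 0 (Nat.zero_le _) 0)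
  have := hp.fin
  set S := (fun z => x + r • z) '' C with hSdef
  have hS' : IsCompact S := hC.image (by fun_prop)
  let φ : ℕ → ContDiffBump (0 : E (m + 1)) := fun k =>
    ⟨1 / (2 * ((k : ℝ) + 1)), 1 / ((k : ℝ) + 1), by positivity, by
      apply one_div_lt_one_div_of_lt (by positivity)
      have : (0 : ℝ) < (k : ℝ) + 1 := by positivity
      linarith⟩
  have hφ : Tendsto (fun k => (φ k).rOut) atTop (𝓝 0) := tendsto_one_div_add_atTop_nhds_zero_nat
  have hk : ∀ k, ‖∫ z, h z • mol (φ k) u (x + r • z)‖ₑ ≤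
      ENNReal.ofReal (C₀ * M) * (ENNReal.ofReal ((r ^ m)⁻¹) * μ (cthickening (φ k).rOut S)) := by
    intro k
    have hsm : ContDiff ℝ (⊤ : ℕ∞) (fun z => mol (φ k) u (x + r • z)) :=
      (mol_smooth (φ k) hp.int_u).comp (contDiff_const.add (contDiff_id.const_smul r))
    have hcs : HasCompactSupport (fun z => mol (φ k) u (x + r • z)) := by
      have h0 := mol_cs (φ k) (cs_u hp)
      have h2 := h0.comp_homeomorph
        ((Homeomorph.smulOfNeZero r hr.ne').trans (Homeomorph.addLeft x))
      exact h2
    have hb := hS h hh hsupp horth M hM _ hsm hcs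
    have hcB : Continuous (fun z => BD A (fun z => mol (φ k) u (x + r • z)) z) := by
      unfold BD
      refine continuous_finsetSum _ fun j _ => ?_
      have hc1 : Continuous (fun z => fderiv ℝ (fun z => mol (φ k) u (x + r • z)) z (bs j)) :=
        (hsm.continuous_fderiv (by simp)).clm_apply continuous_const
      exact Continuous.matrix_mulVec continuous_const hc1
    have hiB : IntegrableOn (fun z => BD A (fun z => mol (φ k) u (x + r • z)) z) C :=
      hcB.continuousOn.integrableOn_compact hC
    rw [← ofReal_norm]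
    refine (ENNReal.ofReal_le_ofReal hb).trans ?_
    rw [ENNReal.ofReal_mul (mul_nonneg hC₀ hM0), ofReal_integral_norm_eq_lintegral_enorm hiB]
    gcongr
    exact rhs_bound hp (φ k) hC x hr
  have hl : Tendsto (fun k => ‖∫ z, h z • mol (φ k) u (x + r • z)‖ₑ) atTop (𝓝 ‖Lr u x h r‖ₑ) := by
    have h2 := ContDiffBump.convolution_tendsto_right_of_continuous
      (μ := (volume : Measure (E (m + 1)))) hφ (cont_Lr hh hp.int_u x hr) 0
    rw [add_zero] at h2
    refine Tendsto.congr (fun k => ?_) (h2.enorm)
    rw [lhs_eq hh hp.meas_u hp.int_u (φ k) x]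
  have hr' : Tendsto (fun k => ENNReal.ofReal (C₀ * M) *
      (ENNReal.ofReal ((r ^ m)⁻¹) * μ (cthickening (φ k).rOut S))) atTop
      (𝓝 (ENNReal.ofReal (C₀ * M) * (ENNReal.ofReal ((r ^ m)⁻¹) * μ S))) := by
    refine ENNReal.Tendsto.const_mul ?_ (Or.inr ENNReal.ofReal_ne_top)
    refine ENNReal.Tendsto.const_mul ?_ (Or.inr ENNReal.ofReal_ne_top)
    exact (tendsto_measure_cthickening_of_isCompact hS').comp hφ
  exact le_of_tendsto_of_tendsto' hl hr' hk

end Pool.Agent.CEL
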