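import Pool.Agent.CEL.Stmts

/-!
# CEL, LOC: localization
-/

set_option autoImplicit false
open Topology Filter MeasureTheory Matrix Metric
open scoped ENNReal

namespace Pool.Agent.CEL

namespace LOC_

theorem abs_dot {k : ℕ} (v w : Fin k → ℝ) : |v ⬝ᵥ w| ≤ k * (‖v‖ * ‖w‖) := by
  unfold dotProduct
  calc |∑ i, v i * w i| ≤ ∑ i, |v i * w i| := Finset.abs_sum_le_sum_abs _ _
    _ ≤ ∑ _i : Fin k, ‖v‖ * ‖w‖ := by
      apply Finset.sum_le_sum
      intro i _
      rw [abs_mul]
      exact mul_le_mul (norm_le_pi_norm v i) (norm_le_pi_norm w i) (abs_nonneg _) (norm_nonneg _)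
    _ = k * (‖v‖ * ‖w‖) := by simp

theorem cont_dot {k : ℕ} : Continuous fun p : (Fin k → ℝ) × (Fin k → ℝ) => p.1 ⬝ᵥ p.2 := by
  unfold dotProduct
  fun_prop

theorem int_dot {n k : ℕ} {ν : Measure (E n)} {v w : E n → (Fin k → ℝ)} (hv : Integrable v ν)
    (hw : AEStronglyMeasurable w ν) (C : ℝ) (hC : ∀ x, ‖w x‖ ≤ C) :
    Integrable (fun x => v x ⬝ᵥ w x) ν := by
  apply (hv.norm.const_mul (k * C)).mono'
  · exact cont_dot.comp_aestronglyMeasurable (hv.1.prodMk hw)
  · refine Eventually.of_forall fun x => ?_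
    rw [Real.norm_eq_abs]
    refine (abs_dot _ _).trans ?_
    have h1 := mul_le_mul_of_nonneg_left (hC x) (norm_nonneg (v x))
    have h2 := mul_le_mul_of_nonneg_left h1 (Nat.cast_nonneg (α := ℝ) k)
    linarith

theorem dot_sm {k : ℕ} (c : ℝ) (v w : Fin k → ℝ) : (c • v) ⬝ᵥ w = c * (v ⬝ᵥ w) := by
  rw [smul_dotProduct, smul_eq_mul]

end LOC_

open LOC_ in
theorem loc_proof : Stmt_LOC := by
  intro n N K A Ω hΩ u hu huΩ μ g hμ hμΩ hg hg1 hweak x₀ hx₀
  classical
  obtain ⟨ρ, hρ, hball⟩ := Metric.isOpen_iff.1 hΩ x₀ hx₀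
  obtain ⟨s, hs, hsρ⟩ : ∃ s : ℝ, 0 < s ∧ 2 * s < ρ := ⟨ρ / 4, by linarith, by linarith⟩
  let χ : ContDiffBump x₀ := ⟨s, 2 * s, hs, by linarith⟩
  have hcB : closedBall x₀ (2 * s) ⊆ Ω := (closedBall_subset_ball hsρ).trans hball
  have hχs : tsupport χ = closedBall x₀ (2 * s) := χ.tsupport_eq
  have hχc : Continuous χ := χ.continuous
  have hχd : ContDiff ℝ (⊤ : ℕ∞) χ := χ.contDiff
  have hχ0 : ∀ x, 0 ≤ χ x := fun x => χ.nonneg
  have hχ1 : ∀ x, χ x ≤ 1 := fun x => χ.le_one
  have hχz : ∀ x, x ∉ closedBall x₀ (2 * s) → χ x = 0 := by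
    intro x hx
    rw [← hχs] at hx
    exact image_eq_zero_of_notMem_tsupport hx
  have hdz : ∀ x, x ∉ closedBall x₀ (2 * s) → fderiv ℝ χ x = 0 := by
    intro x hx
    rw [← hχs] at hx
    exact image_eq_zero_of_notMem_tsupport (fun h => hx (tsupport_fderiv_subset ℝ h))
  have hd1 : ∀ x ∈ ball x₀ s, fderiv ℝ χ x = 0 := by
    intro x hx
    have h1 : (χ : E n → ℝ) =ᶠ[𝓝 x] fun _ => (1 : ℝ) := by
      filter_upwards [isOpen_ball.mem_nhds hx] with y hy
      exact χ.one_of_mem_closedBall (ball_subset_closedBall hy)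
    rw [h1.fderiv_eq]
    simp
  -- bound of the derivative
  have hdc : Continuous fun x => fderiv ℝ χ x := hχd.continuous_fderiv (by simp)
  obtain ⟨M, hM⟩ : ∃ M : ℝ, ∀ x, ‖fderiv ℝ χ x‖ ≤ M := by
    obtain ⟨M, hM⟩ := (χ.hasCompactSupport.fderiv (𝕜 := ℝ)).exists_bound_of_continuous hdc
    exact ⟨M, hM⟩
  have hM0 : 0 ≤ M := (norm_nonneg _).trans (hM x₀)
  set u' : E n → (Fin N → ℝ) := fun x => χ x • u x with hu'
  set b : E n → (Fin K → ℝ) := fun x => ∑ j, (fderiv ℝ χ x (bs j)) • (A j *ᵥ u x) with hb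
  have hbz : ∀ x, x ∉ closedBall x₀ (2 * s) → b x = 0 := by
    intro x hx
    simp only [hb, hdz x hx]
    simp
  have hb1 : ∀ x ∈ ball x₀ s, b x = 0 := by
    intro x hx
    simp only [hb, hd1 x hx]
    simp
  have mmul : ∀ j, Continuous fun v : Fin N → ℝ => A j *ᵥ v := fun j => by fun_prop
  have hbm : Measurable b := by
    rw [hb]
    apply Finset.measurable_fun_sum
    intro j _
    exact (hdc.clm_apply continuous_const).measurable.smul ((mmul j).measurable.comp hu)
  -- integrability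
  have hbs : ∀ j : Fin n, ‖(bs j : E n)‖ = 1 := fun j => by simp [bs]
  obtain ⟨CA, hCA0, hCA⟩ : ∃ CA : ℝ, 0 ≤ CA ∧ ∀ j (v : Fin N → ℝ), ‖A j *ᵥ v‖ ≤ CA * ‖v‖ := by
    have h1 : ∀ j, ∃ C : ℝ, 0 ≤ C ∧ ∀ v : Fin N → ℝ, ‖A j *ᵥ v‖ ≤ C * ‖v‖ := by
      intro j
      have h2 := (Matrix.mulVecLin (A j)).toContinuousLinearMap.le_opNorm
      refine ⟨‖(Matrix.mulVecLin (A j)).toContinuousLinearMap‖, norm_nonneg _, fun v => ?_⟩
      exact h2 v
    choose C hC0 hC using h1
    refine ⟨∑ j, C j, Finset.sum_nonneg fun j _ => hC0 j, fun j v => (hC j v).trans ?_⟩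
    exact mul_le_mul_of_nonneg_right
      (Finset.single_le_sum (fun i _ => hC0 i) (Finset.mem_univ j)) (norm_nonneg _)
  have hui : Integrable (Ω.indicator u) := huΩ.integrable_indicator hΩ.measurableSet
  have hu'm : Measurable u' := hχc.measurable.smul hu
  have hu'i : Integrable u' := by
    apply hui.norm.mono' hu'm.aestronglyMeasurable
    refine Eventually.of_forall fun x => ?_
    simp only [hu']
    by_cases hx : x ∈ closedBall x₀ (2 * s)
    · rw [Set.indicator_of_mem (hcB hx), norm_smul, Real.norm_eq_abs, abs_of_nonneg (hχ0 x)]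
      have := mul_le_mul_of_nonneg_right (hχ1 x) (norm_nonneg (u x))
      linarith
    · rw [hχz x hx, zero_smul, norm_zero]
      exact norm_nonneg _
  have hbi : Integrable b := by
    apply (hui.norm.const_mul (n * (M * CA))).mono' hbm.aestronglyMeasurable
    refine Eventually.of_forall fun x => ?_
    by_cases hx : x ∈ closedBall x₀ (2 * s)
    · rw [Set.indicator_of_mem (hcB hx)]
      simp only [hb]
      calc ‖∑ j, (fderiv ℝ χ x (bs j)) • (A j *ᵥ u x)‖
          ≤ ∑ j, ‖(fderiv ℝ χ x (bs j)) • (A j *ᵥ u x)‖ := norm_sum_le _ _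
        _ ≤ ∑ _j : Fin n, M * CA * ‖u x‖ := by
          apply Finset.sum_le_sum
          intro j _
          rw [norm_smul]
          have h1 : ‖fderiv ℝ χ x (bs j)‖ ≤ M := by
            have := (fderiv ℝ χ x).le_opNorm (bs j)
            rw [hbs, mul_one] at this
            exact this.trans (hM x)
          have h2 := mul_le_mul h1 (hCA j (u x)) (norm_nonneg _) hM0
          linarith
        _ = n * (M * CA) * ‖u x‖ := by simp; ring
    · rw [hbz x hx, norm_zero]
      positivity
  -- measures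
  set μ1 : Measure (E n) := μ.withDensity (fun x => ENNReal.ofReal (χ x)) with hμ1
  set μ2 : Measure (E n) := volume.withDensity (fun x => ENNReal.ofReal ‖b x‖) with hμ2
  have mχ : Measurable fun x => ENNReal.ofReal (χ x) := hχc.measurable.ennreal_ofReal
  have mb : Measurable fun x => ENNReal.ofReal ‖b x‖ := hbm.norm.ennreal_ofReal
  have hχi : Integrable (χ : E n → ℝ) μ := by
    apply Integrable.of_bound hχc.aestronglyMeasurable 1
    refine Eventually.of_forall fun x => ?_
    rw [Real.norm_eq_abs, abs_of_nonneg (hχ0 x)]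
    exact hχ1 x
  have fin1 : IsFiniteMeasure μ1 := isFiniteMeasure_withDensity_ofReal hχi.2
  have fin2 : IsFiniteMeasure μ2 := isFiniteMeasure_withDensity_ofReal hbi.norm.2
  set μ' : Measure (E n) := μ1 + μ2 with hμ'
  have fin' : IsFiniteMeasure μ' := by rw [hμ']; infer_instance
  have hl1 : μ1.HaveLebesgueDecomposition μ' :=
    Measure.haveLebesgueDecomposition_of_sigmaFinite μ1 μ'
  have hl2 : μ2.HaveLebesgueDecomposition μ' :=
    Measure.haveLebesgueDecomposition_of_sigmaFinite μ2 μ'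
  have ac1 : μ1 ≪ μ' := Measure.absolutelyContinuous_of_le (Measure.le_add_right le_rfl)
  have ac2 : μ2 ≪ μ' := Measure.absolutelyContinuous_of_le (Measure.le_add_left le_rfl)
  set f1 := μ1.rnDeriv μ' with hf1
  set f2 := μ2.rnDeriv μ' with hf2
  have mf1 : Measurable f1 := Measure.measurable_rnDeriv _ _
  have mf2 : Measurable f2 := Measure.measurable_rnDeriv _ _
  have hsum : ∀ᵐ x ∂μ', f1 x + f2 x = 1 := by
    have h1 := Measure.rnDeriv_add μ1 μ2 μ'
    have h2 := Measure.rnDeriv_self μ'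
    filter_upwards [h1, h2] with x h1 h2
    rw [← hμ'] at h1
    rw [h2] at h1
    exact h1.symm
  set gh : E n → (Fin K → ℝ) := fun x => if ‖g x‖ ≤ 1 then g x else 0 with hgh
  set bh : E n → (Fin K → ℝ) := fun x => ‖b x‖⁻¹ • b x with hbh
  have mgh : Measurable gh := Measurable.ite (measurableSet_le hg.norm measurable_const) hg
    measurable_const
  have mbh : Measurable bh := hbm.norm.inv.smul hbm
  have ngh : ∀ x, ‖gh x‖ ≤ 1 := by
    intro x
    simp only [hgh]
    split_ifs with h
    · exact h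
    · simp
  have nbh : ∀ x, ‖bh x‖ ≤ 1 := by
    intro x
    simp only [hbh]
    rw [norm_smul, norm_inv, norm_norm]
    by_cases h : ‖b x‖ = 0
    · rw [h]; simp
    · rw [inv_mul_cancel₀ h]
  set G : E n → (Fin K → ℝ) := fun x => (f1 x).toReal • gh x + (f2 x).toReal • bh x with hG
  have mG : Measurable G := (mf1.ennreal_toReal.smul mgh).add (mf2.ennreal_toReal.smul mbh)
  have nG : ∀ᵐ x ∂μ', ‖G x‖ ≤ 1 := by
    filter_upwards [hsum] with x hx
    have t1 : f1 x ≠ ⊤ := fun h => by rw [h, top_add] at hx; exact ENNReal.top_ne_one hx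
    have t2 : f2 x ≠ ⊤ := fun h => by rw [h, add_top] at hx; exact ENNReal.top_ne_one hx
    have h3 : (f1 x).toReal + (f2 x).toReal = 1 := by
      rw [← ENNReal.toReal_add t1 t2, hx, ENNReal.toReal_one]
    have a1 : (0 : ℝ) ≤ (f1 x).toReal := ENNReal.toReal_nonneg
    have a2 : (0 : ℝ) ≤ (f2 x).toReal := ENNReal.toReal_nonneg
    calc ‖G x‖ ≤ ‖(f1 x).toReal • gh x‖ + ‖(f2 x).toReal • bh x‖ := norm_add_le _ _
      _ = (f1 x).toReal * ‖gh x‖ + (f2 x).toReal * ‖bh x‖ := by
        rw [norm_smul, norm_smul, Real.norm_eq_abs, Real.norm_eq_abs, abs_of_nonneg a1,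
          abs_of_nonneg a2]
      _ ≤ (f1 x).toReal * 1 + (f2 x).toReal * 1 :=
        add_le_add (mul_le_mul_of_nonneg_left (ngh x) a1) (mul_le_mul_of_nonneg_left (nbh x) a2)
      _ = 1 := by rw [mul_one, mul_one, h3]
  set g' : E n → (Fin K → ℝ) := fun x => if ‖G x‖ ≤ 1 then G x else 0 with hg'
  have mg' : Measurable g' := Measurable.ite (measurableSet_le mG.norm measurable_const) mG
    measurable_const
  have eG : ∀ᵐ x ∂μ', g' x = G x := by
    filter_upwards [nG] with x hx
    simp only [hg']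
    rw [if_pos hx]
  -- the balls
  have z2 : ∀ t : Set (E n), MeasurableSet t → t ⊆ ball x₀ s → μ2 t = 0 := by
    intro t ht hts
    rw [hμ2, withDensity_apply _ ht]
    have : ∫⁻ x in t, ENNReal.ofReal ‖b x‖ = ∫⁻ _x in t, (0 : ℝ≥0∞) := by
      apply setLIntegral_congr_fun ht
      intro x hx
      show ENNReal.ofReal ‖b x‖ = 0
      rw [hb1 x (hts hx)]
      simp
    rw [this, lintegral_zero]
  have z1 : ∀ t : Set (E n), MeasurableSet t → t ⊆ ball x₀ s → μ1 t = μ t := by
    intro t ht hts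
    rw [hμ1, withDensity_apply _ ht]
    have : ∫⁻ x in t, ENNReal.ofReal (χ x) ∂μ = ∫⁻ _x in t, (1 : ℝ≥0∞) ∂μ := by
      apply setLIntegral_congr_fun ht
      intro x hx
      show ENNReal.ofReal (χ x) = 1
      rw [χ.one_of_mem_closedBall (ball_subset_closedBall (hts hx)), ENNReal.ofReal_one]
    rw [this, lintegral_one, Measure.restrict_apply_univ]
  have hrest : μ'.restrict (ball x₀ s) = μ.restrict (ball x₀ s) := by
    ext t ht
    rw [Measure.restrict_apply ht, Measure.restrict_apply ht]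
    have hm : MeasurableSet (t ∩ ball x₀ s) := ht.inter measurableSet_ball
    rw [hμ', Measure.add_apply, z1 _ hm Set.inter_subset_right, z2 _ hm Set.inter_subset_right,
      add_zero]
  refine ⟨s, ‖x₀‖ + 2 * s, u', μ', g', hs, ?_, ?_, hrest, ?_⟩
  · -- the pair
    have out : ∀ x : E n, ‖x₀‖ + 2 * s < ‖x‖ → x ∉ closedBall x₀ (2 * s) := by
      intro x hx hxc
      rw [mem_closedBall, dist_eq_norm] at hxc
      have := norm_le_norm_add_norm_sub' x x₀
      linarith
    refine ⟨hu'm, hu'i, ?_, inferInstance, ?_, mg', ?_, ?_⟩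
    · intro x hx
      simp only [hu']
      rw [hχz x (out x hx), zero_smul]
    · have hm : MeasurableSet ((closedBall (0 : E n) (‖x₀‖ + 2 * s))ᶜ) :=
        measurableSet_closedBall.compl
      have hin : ∀ x ∈ (closedBall (0 : E n) (‖x₀‖ + 2 * s))ᶜ, x ∉ closedBall x₀ (2 * s) := by
        intro x hx
        apply out
        rw [Set.mem_compl_iff, mem_closedBall, dist_zero_right, not_le] at hx
        exact hx
      rw [hμ', Measure.add_apply, hμ1, hμ2, withDensity_apply _ hm, withDensity_apply _ hm]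
      have e1 : ∫⁻ x in (closedBall (0 : E n) (‖x₀‖ + 2 * s))ᶜ, ENNReal.ofReal (χ x) ∂μ =
          ∫⁻ _x in (closedBall (0 : E n) (‖x₀‖ + 2 * s))ᶜ, (0 : ℝ≥0∞) ∂μ := by
        apply setLIntegral_congr_fun hm
        intro x hx
        show ENNReal.ofReal (χ x) = 0
        rw [hχz x (hin x hx), ENNReal.ofReal_zero]
      have e2 : ∫⁻ x in (closedBall (0 : E n) (‖x₀‖ + 2 * s))ᶜ, ENNReal.ofReal ‖b x‖ =
          ∫⁻ _x in (closedBall (0 : E n) (‖x₀‖ + 2 * s))ᶜ, (0 : ℝ≥0∞) := by
        apply setLIntegral_congr_fun hm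
        intro x hx
        show ENNReal.ofReal ‖b x‖ = 0
        rw [hbz x (hin x hx), norm_zero, ENNReal.ofReal_zero]
      rw [e1, e2, lintegral_zero, lintegral_zero, add_zero]
    · intro x
      simp only [hg']
      split_ifs with h
      · exact h
      · simp
    · intro φ hφ hφc
      obtain ⟨Cφ, hCφ⟩ := hφc.exists_bound_of_continuous hφ.continuous
      have hdφ : Continuous fun x => fderiv ℝ φ x := hφ.continuous_fderiv (by simp)
      obtain ⟨Cd, hCd⟩ := (hφc.fderiv (𝕜 := ℝ)).exists_bound_of_continuous hdφ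
      have hφm : Measurable φ := hφ.continuous.measurable
      -- weak equation for the product
      have hw := hweak (fun x => χ x • φ x) (hχd.smul hφ) (χ.hasCompactSupport.smul_right)
        ((tsupport_smul_subset_left _ _).trans (by rw [hχs]; exact hcB))
      have hpt : ∀ x, (∑ j, u x ⬝ᵥ ((A j).transpose *ᵥ
          (fderiv ℝ (fun x => χ x • φ x) x (EuclideanSpace.single j 1)))) =
          (∑ j, u' x ⬝ᵥ ((A j).transpose *ᵥ (fderiv ℝ φ x (bs j)))) + b x ⬝ᵥ φ x := by
        intro x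
        have hχx : DifferentiableAt ℝ χ x := (hχd.differentiable (by simp)) x
        have hφx : DifferentiableAt ℝ φ x := (hφ.differentiable (by simp)) x
        have hfd : fderiv ℝ (fun x => χ x • φ x) x =
            χ x • fderiv ℝ φ x + (fderiv ℝ χ x).smulRight (φ x) := fderiv_fun_smul hχx hφx
        simp only [hb, hu']
        rw [sum_dotProduct, ← Finset.sum_add_distrib]
        apply Finset.sum_congr rfl
        intro j _
        rw [hfd]
        change u x ⬝ᵥ ((A j).transpose *ᵥ (χ x • fderiv ℝ φ x (bs j) +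
          (fderiv ℝ χ x (bs j)) • φ x)) = _
        rw [mulVec_add, dotProduct_add, mulVec_smul, mulVec_smul, dotProduct_smul,
          dotProduct_smul, smul_dotProduct, smul_dotProduct]
        congr 1
        rw [dotProduct_mulVec, vecMul_transpose]
      have hint1 : Integrable (fun x => ∑ j, u' x ⬝ᵥ ((A j).transpose *ᵥ
          (fderiv ℝ φ x (bs j)))) := by
        apply integrable_finsetSum
        intro j _
        have hAt : Continuous fun v : Fin K → ℝ => (A j).transpose *ᵥ v := by fun_prop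
        have hcj : Continuous fun x => (A j).transpose *ᵥ (fderiv ℝ φ x (bs j)) :=
          hAt.comp (hdφ.clm_apply continuous_const)
        have hsupp : HasCompactSupport fun x => (A j).transpose *ᵥ (fderiv ℝ φ x (bs j)) := by
          apply (hφc.fderiv (𝕜 := ℝ)).mono
          intro x hx h0
          apply hx
          simp only
          rw [h0]
          simp
        obtain ⟨Cj, hCj⟩ := hsupp.exists_bound_of_continuous hcj
        exact int_dot hu'i hcj.aestronglyMeasurable Cj hCj
      have hint2 : Integrable (fun x => b x ⬝ᵥ φ x) :=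
        int_dot hbi hφ.continuous.aestronglyMeasurable Cφ hCφ
      have hleft : ∫ x in Ω, (∑ j, u x ⬝ᵥ ((A j).transpose *ᵥ
          (fderiv ℝ (fun x => χ x • φ x) x (EuclideanSpace.single j 1)))) =
          (∫ x, ∑ j, u' x ⬝ᵥ ((A j).transpose *ᵥ (fderiv ℝ φ x (bs j)))) +
            ∫ x, b x ⬝ᵥ φ x := by
        simp only [hpt]
        rw [← integral_add hint1 hint2]
        apply setIntegral_eq_integral_of_forall_compl_eq_zero
        intro x hx
        have hx' : x ∉ closedBall x₀ (2 * s) := fun h => hx (hcB h)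
        simp only [hu', hbz x hx', hχz x hx', zero_smul, zero_dotProduct, Finset.sum_const_zero,
          add_zero]
      rw [hleft] at hw
      -- the right hand side
      have e1 : ∫ x, g' x ⬝ᵥ φ x ∂μ' = ∫ x, G x ⬝ᵥ φ x ∂μ' := by
        apply integral_congr_ae
        filter_upwards [eG] with x hx
        rw [hx]
      have bdi : ∀ (ν : Measure (E n)) [IsFiniteMeasure ν] (v : E n → (Fin K → ℝ)), Measurable v →
          (∀ x, ‖v x‖ ≤ 1) → Integrable (fun x => v x ⬝ᵥ φ x) ν := by
        intro ν _ v hv hv1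
        apply int_dot _ hφ.continuous.aestronglyMeasurable Cφ hCφ
        exact Integrable.of_bound hv.aestronglyMeasurable 1 (Eventually.of_forall hv1)
      have i1 : Integrable (fun x => (f1 x).toReal • (gh x ⬝ᵥ φ x)) μ' :=
        (integrable_rnDeriv_smul_iff ac1).2 (bdi μ1 gh mgh ngh)
      have i2 : Integrable (fun x => (f2 x).toReal • (bh x ⬝ᵥ φ x)) μ' :=
        (integrable_rnDeriv_smul_iff ac2).2 (bdi μ2 bh mbh nbh)
      have e2 : ∫ x, G x ⬝ᵥ φ x ∂μ' = (∫ x, gh x ⬝ᵥ φ x ∂μ1) + ∫ x, bh x ⬝ᵥ φ x ∂μ2 := by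
        rw [← integral_rnDeriv_smul ac1, ← integral_rnDeriv_smul ac2, ← integral_add i1 i2]
        apply integral_congr_ae
        refine Eventually.of_forall fun x => ?_
        simp only [hG]
        rw [add_dotProduct, smul_dotProduct, smul_dotProduct]
      have e3 : ∫ x, gh x ⬝ᵥ φ x ∂μ1 = ∫ x, g x ⬝ᵥ (χ x • φ x) ∂μ := by
        rw [hμ1, integral_withDensity_eq_integral_toReal_smul mχ
          (Eventually.of_forall fun x => ENNReal.ofReal_lt_top)]
        apply integral_congr_ae
        filter_upwards [hg1] with x hx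
        simp only [hgh]
        rw [if_pos hx.le, ENNReal.toReal_ofReal (hχ0 x), dotProduct_smul]
      have e4 : ∫ x, bh x ⬝ᵥ φ x ∂μ2 = ∫ x, b x ⬝ᵥ φ x := by
        rw [hμ2, integral_withDensity_eq_integral_toReal_smul mb
          (Eventually.of_forall fun x => ENNReal.ofReal_lt_top)]
        apply integral_congr_ae
        refine Eventually.of_forall fun x => ?_
        simp only [hbh]
        rw [ENNReal.toReal_ofReal (norm_nonneg _), smul_dotProduct, smul_smul]
        by_cases h : ‖b x‖ = 0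
        · rw [norm_eq_zero.1 h]; simp
        · rw [mul_inv_cancel₀ h, one_smul]
      rw [e1, e2, e3, e4]
      linarith
  · intro x hx
    simp only [hu']
    rw [χ.one_of_mem_closedBall (ball_subset_closedBall hx), one_smul]
  · -- g' = g on the ball
    rw [← hrest]
    have h1 : ∀ᵐ x ∂(μ'.restrict (ball x₀ s)), f2 x = 0 := by
      have h2 : ∫⁻ x in ball x₀ s, f2 x ∂μ' = 0 := by
        rw [hf2, Measure.setLIntegral_rnDeriv ac2]
        exact z2 _ measurableSet_ball (Set.Subset.refl _)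
      have h3 := (lintegral_eq_zero_iff mf2).1 h2
      filter_upwards [h3] with x hx
      exact hx
    have h2 : ∀ᵐ x ∂(μ'.restrict (ball x₀ s)), ‖g x‖ = 1 := by
      rw [hrest]
      exact ae_restrict_of_ae hg1
    filter_upwards [h1, h2, ae_restrict_of_ae eG, ae_restrict_of_ae hsum] with x k1 k2 k3 k4
    rw [k3]
    simp only [hG]
    rw [k1] at k4 ⊢
    rw [add_zero] at k4
    rw [k4]
    simp only [hgh]
    rw [if_pos k2.le]
    simp

end Pool.Agent.CEL
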