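import Pool.Agent.CEL.Stmts

/-!
# CEL: module MAI, the main estimate (MP_12ff24_an)
-/

set_option autoImplicit false
open Topology Filter MeasureTheory Matrix Metric
open scoped ENNReal

namespace Pool.Agent.CEL

namespace MAI_

lemma exists_eps (a : ℝ≥0∞) (ha : a ≠ ⊤) (e1 : ℝ) (h1 : 0 < e1) :
    ∃ e : ℝ, 0 < e ∧ e ≤ e1 ∧ a * ENNReal.ofReal e ^ 2 ≤ 1 / 4 := by
  have hb : 0 ≤ a.toReal := ENNReal.toReal_nonneg
  set b : ℝ := a.toReal with hbdef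
  refine ⟨min e1 (1 / (4 * (b + 1))), ?_, min_le_left _ _, ?_⟩
  · refine lt_min h1 (by positivity)
  · set e := min e1 (1 / (4 * (b + 1))) with he
    have he0 : 0 < e := lt_min h1 (by positivity)
    have he1 : e ≤ 1 / (4 * (b + 1)) := min_le_right _ _
    have he2 : e ≤ 1 := by
      refine he1.trans ?_
      rw [div_le_one (by positivity)]
      linarith
    have hab : a = ENNReal.ofReal b := (ENNReal.ofReal_toReal ha).symm
    have hq : (1 / 4 : ℝ≥0∞) = ENNReal.ofReal (1 / 4) := by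
      rw [ENNReal.ofReal_div_of_pos (by norm_num)]
      norm_num
    rw [hab, ← ENNReal.ofReal_pow he0.le, ← ENNReal.ofReal_mul hb, hq]
    apply ENNReal.ofReal_le_ofReal
    have h3 : e * (4 * (b + 1)) ≤ 1 := by
      rwa [le_div_iff₀ (by positivity)] at he1
    have h4 : e ^ 2 ≤ e := by nlinarith
    nlinarith [mul_le_mul_of_nonneg_left h4 hb]

variable {m : ℕ}

lemma comb_vanish {ρ : E (m + 1) → ℝ} {c C : ℝ} (hρ : IsBump ρ c C) {k : ℕ} (a₀ : ℝ)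
    (a t : Fin k → ℝ) (ht : ∀ i, 1 ≤ t i) (T₀ : ℝ) (hT : ∀ i, t i ≤ T₀) (h1 : 1 ≤ T₀)
    (z : E (m + 1)) (hz : T₀ ≤ ‖z‖) : comb ρ a₀ a t z = 0 := by
  unfold comb
  have h2 : ρ z = 0 := hρ.supp z (h1.trans hz)
  have h3 : ∀ i, ρ ((t i)⁻¹ • z) = 0 := by
    intro i
    apply hρ.supp
    have hti : 0 < t i := lt_of_lt_of_le one_pos (ht i)
    rw [norm_smul, norm_inv, Real.norm_of_nonneg hti.le, ← div_eq_inv_mul, le_div_iff₀ hti, one_mul]
    exact (hT i).trans hz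
  simp [h2, h3]

lemma comb_tf {ρ : E (m + 1) → ℝ} {c C : ℝ} (hρ : IsBump ρ c C) {k : ℕ} (a₀ : ℝ)
    (a t : Fin k → ℝ) (ht : ∀ i, 1 ≤ t i) (T₀ : ℝ) (hT : ∀ i, t i ≤ T₀) (h1 : 1 ≤ T₀) :
    TF (comb ρ a₀ a t) := by
  refine ⟨?_, ?_⟩
  · have hs : ContDiff ℝ (⊤ : ℕ∞) ρ := hρ.tf.1
    unfold comb
    have h2 : ∀ i : Fin k, ContDiff ℝ (⊤ : ℕ∞)
        (fun z : E (m + 1) => a i * (((t i) ^ (m + 1))⁻¹ * ρ ((t i)⁻¹ • z))) := fun i =>
      contDiff_const.mul (contDiff_const.mul (hs.comp (contDiff_id.const_smul _)))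
    exact (contDiff_const.mul hs).add (ContDiff.sum fun i _ => h2 i)
  · refine HasCompactSupport.intro (isCompact_closedBall (0 : E (m + 1)) T₀) ?_
    intro z hz
    apply comb_vanish hρ a₀ a t ht T₀ hT h1
    simp only [mem_closedBall, dist_zero_right, not_le] at hz
    exact hz.le

lemma absorb {X b : ℝ≥0∞} (hX : X ≠ ⊤) (h : X ≤ (1 / 4 + 1 / 4) * X + b) : X ≤ 2 * b := by
  by_cases hb : b = ⊤
  · rw [hb]
    have : (2 : ℝ≥0∞) * ⊤ = ⊤ := ENNReal.mul_top (by norm_num)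
    rw [this]; exact le_top
  · have hXr : X = ENNReal.ofReal X.toReal := (ENNReal.ofReal_toReal hX).symm
    have hbr : b = ENNReal.ofReal b.toReal := (ENNReal.ofReal_toReal hb).symm
    have hq : (1 / 4 + 1 / 4 : ℝ≥0∞) = ENNReal.ofReal (1 / 2) := by
      have : (1 / 4 : ℝ≥0∞) = ENNReal.ofReal (1 / 4) := by
        rw [ENNReal.ofReal_div_of_pos (by norm_num)]
        norm_num
      rw [this, ← ENNReal.ofReal_add (by norm_num) (by norm_num)]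
      norm_num
    have h2 : (2 : ℝ≥0∞) = ENNReal.ofReal 2 := by norm_num
    have hX0 : 0 ≤ X.toReal := ENNReal.toReal_nonneg
    have hb0 : 0 ≤ b.toReal := ENNReal.toReal_nonneg
    rw [hXr, hbr, hq, ← ENNReal.ofReal_mul (by norm_num),
      ← ENNReal.ofReal_add (by positivity) hb0,
      ENNReal.ofReal_le_ofReal_iff (by positivity)] at h
    rw [hXr, hbr, h2, ← ENNReal.ofReal_mul (by norm_num)]
    apply ENNReal.ofReal_le_ofReal
    linarith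

end MAI_

open MAI_ in
theorem mai_proof (hPLA : Stmt_PLA) (hMOL : Stmt_MOL) (_hHDV : Stmt_HDV) (hDSM : Stmt_DSM)
    (hVSS : Stmt_VSS) (hMAP : Stmt_MAP) (hMNA : Stmt_MNA) (hMNB : Stmt_MNB) (hFAR : Stmt_FAR)
    (hBSA : Stmt_BSA) : Stmt_MAI := by
  intro m N K ℓ A hA c εm hc hεm
  obtain ⟨ρ, c₁, C₁, hρ, hmol⟩ := hMOL m
  obtain ⟨εs, hεs, CA, hCA, hMNA⟩ := hMNA m ρ c₁ C₁ hρ
  obtain ⟨k, a₀, a, t, ha₀, ht, hsum, hrepr⟩ := hmol ℓ εs hεs
  obtain ⟨T₀, hT1, hT⟩ : ∃ T₀ : ℝ, 1 ≤ T₀ ∧ ∀ i, t i ≤ T₀ := by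
    refine ⟨1 + ∑ i, t i, ?_, ?_⟩
    · have : 0 ≤ ∑ i, t i := Finset.sum_nonneg fun i _ => le_trans zero_le_one (ht i)
      linarith
    · intro i
      have : t i ≤ ∑ i, t i :=
        Finset.single_le_sum (f := t) (fun j _ => le_trans zero_le_one (ht j)) (Finset.mem_univ i)
      linarith
  set φ := comb ρ a₀ a t with hφ
  have htf : TF φ := comb_tf hρ a₀ a t ht T₀ hT hT1
  have hvan : ∀ z, T₀ ≤ ‖z‖ → φ z = 0 := comb_vanish hρ a₀ a t ht T₀ hT hT1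
  obtain ⟨C₂, hC₂, hMAP⟩ := hMAP m N K ℓ A hA φ T₀ htf hrepr hT1 hvan
  obtain ⟨C₃, hC₃, hMNB⟩ := hMNB m T₀ C₂ hT1 hC₂
  set κ : ℝ≥0∞ := CA * ENNReal.ofReal (K / c ^ 2) with hκ
  have hκt : κ ≠ ⊤ := ENNReal.mul_ne_top hCA ENNReal.ofReal_ne_top
  obtain ⟨ε₀, h0, h01, h02⟩ := exists_eps (κ * C₃) (ENNReal.mul_ne_top hκt hC₃)
    (min (1 / (200 * T₀)) εm) (lt_min (by positivity) hεm)
  have hT0 : 0 < T₀ := by linarith
  have hTε : 2 * T₀ * ε₀ ≤ 1 / 100 := by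
    have h3 : ε₀ ≤ 1 / (200 * T₀) := h01.trans (min_le_left _ _)
    rw [le_div_iff₀ (by positivity)] at h3
    linarith
  have hε1 : ε₀ ≤ 1 / 200 := by nlinarith
  have hε2 : ε₀ ≤ εm := h01.trans (min_le_right _ _)
  obtain ⟨C₄, hC₄, hMNB⟩ := hMNB ε₀ h0 hTε
  obtain ⟨η, hη, _, hη2⟩ := exists_eps (κ * C₄) (ENNReal.mul_ne_top hκt hC₄) 1 one_pos
  refine ⟨ε₀ / 4, by positivity, by linarith, by linarith, η, hη, ?_⟩
  intro Ru u μ g hpair w hw R hR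
  have := hpair.fin
  obtain ⟨C₅, hC₅, hMNB⟩ := hMNB Ru R (2 * (μ Set.univ).toReal) hR
  refine ⟨2 * (κ * C₅), ENNReal.mul_ne_top (by norm_num) (ENNReal.mul_ne_top hκt hC₅), ?_⟩
  intro S hEll I D hD hI
  obtain ⟨hpos, -, -, -⟩ := hBSA (m + 1) I D hD
  obtain ⟨Ds, hDs1, hDs2, hDs3⟩ := hDSM (m + 1) I D hD
  have hDspos : ∀ y, 0 < Ds y := fun y => by
    have h1 := (hDs2 y).1
    have h2 := hpos y
    linarith
  set δ : E (m + 1) → ℝ := fun y => ε₀ * Ds y with hδ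
  have hδs : ContDiff ℝ (⊤ : ℕ∞) δ := contDiff_const.mul hDs1
  have hδp : ∀ y, 0 < δ y := fun y => mul_pos h0 (hDspos y)
  have hδb : ∀ y, T₀ * δ y ≤ (‖y‖ + (Ru + R)) / 2 := by
    intro y
    obtain ⟨q, hq, -⟩ := hD.ex y
    have h1 := hD.le q hq y
    have h2 := (hDs2 y).2
    have h3 := (hI q hq).1
    have h4 := (hI q hq).2.1
    have h5 : ‖y - q.1‖ ≤ ‖y‖ + ‖q.1‖ := norm_sub_le _ _
    have h6 : 0 ≤ ‖y‖ := norm_nonneg _
    have h7 : 0 ≤ ‖q.1‖ := norm_nonneg _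
    have h8 : Ds y ≤ 3 / 2 * (‖y‖ + (Ru + R)) := by linarith
    have h9 : 0 ≤ T₀ * ε₀ := by positivity
    calc T₀ * δ y = (T₀ * ε₀) * Ds y := by simp only [hδ]; ring
      _ ≤ (T₀ * ε₀) * (3 / 2 * (‖y‖ + (Ru + R))) := mul_le_mul_of_nonneg_left h8 h9
      _ ≤ (1 / 200) * (3 / 2 * (‖y‖ + (Ru + R))) := by
          apply mul_le_mul_of_nonneg_right
          · linarith
          · have : 0 ≤ ‖y‖ + (Ru + R) := by linarith
            positivity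
      _ ≤ (‖y‖ + (Ru + R)) / 2 := by
          have : 0 ≤ ‖y‖ + (Ru + R) := by linarith
          linarith
  obtain ⟨hv1, hv2, ha⟩ := hVSS m N K A Ru u μ g hpair φ T₀ (Ru + R) δ htf hvan hδs hδp hδb
  have hfin : J S (Av D μ (ε₀ / 4)) ≠ ⊤ :=
    (hFAR m).2 S I D hD μ Ru (ε₀ / 4) (by positivity) (by linarith) hpair.supp_m
  have step1 : J S (Av D μ (ε₀ / 4)) ≤
      CA * ∫⁻ p, ‖∫ s, vsm φ δ μ (S.Q (p, s))‖ₑ ^ 2 :=
    hMNA k a₀ a t T₀ ε₀ ha₀ ht hT hT1 hsum h0 hTε S I D Ds hD hDs1 hDs2 μ Ru hpair.supp_m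
  have step2 := hPLA m N K A S w c hc hEll (vs φ δ u) (vsm φ δ μ) hv1 hv2 ha
  set τ : Measure (E (m + 1)) := μ.withDensity (fun y => ‖g y - w‖ₑ) with hτ
  have hgw : ∀ y, ‖g y - w‖ₑ ≤ 2 := by
    intro y
    have h1 : ‖g y - w‖ ≤ 2 := by
      have := norm_sub_le (g y) w
      have := hpair.norm_g y
      linarith
    rw [← ofReal_norm]
    calc ENNReal.ofReal ‖g y - w‖ ≤ ENNReal.ofReal 2 := ENNReal.ofReal_le_ofReal h1
      _ = 2 := by norm_num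
  have hτu : τ Set.univ ≤ 2 * μ Set.univ := by
    rw [hτ, withDensity_apply _ MeasurableSet.univ, Measure.restrict_univ]
    calc ∫⁻ y, ‖g y - w‖ₑ ∂μ ≤ ∫⁻ _, 2 ∂μ := lintegral_mono hgw
      _ = 2 * μ Set.univ := by rw [lintegral_const]
  have hμt : μ Set.univ ≠ ⊤ := measure_ne_top μ _
  have : IsFiniteMeasure τ :=
    ⟨lt_of_le_of_lt hτu (ENNReal.mul_lt_top (by norm_num) (lt_top_iff_ne_top.2 hμt))⟩
  have hM2 : ENNReal.ofReal (2 * (μ Set.univ).toReal) = 2 * μ Set.univ := by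
    rw [ENNReal.ofReal_mul (by norm_num), ENNReal.ofReal_toReal hμt]
    norm_num
  have hμM : μ Set.univ ≤ ENNReal.ofReal (2 * (μ Set.univ).toReal) := by
    rw [hM2]
    calc μ Set.univ = 1 * μ Set.univ := (one_mul _).symm
      _ ≤ 2 * μ Set.univ := by gcongr; norm_num
  have hτM : τ Set.univ ≤ ENNReal.ofReal (2 * (μ Set.univ).toReal) := by
    rw [hM2]; exact hτu
  have hτs : τ (closedBall (0 : E (m + 1)) Ru)ᶜ = 0 :=
    (withDensity_absolutelyContinuous μ _) hpair.supp_m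
  have hcontBD : Continuous (fun y => BD A (vs φ δ u) y) := by
    unfold BD
    refine continuous_finsetSum _ fun j _ => ?_
    refine Continuous.matrix_mulVec continuous_const ?_
    have h1 : Continuous (fderiv ℝ (vs φ δ u)) := hv1.continuous_fderiv (by simp)
    exact h1.clm_apply continuous_const
  have hmeasF : Measurable (fun y => ‖BD A (vs φ δ u) y - vsm φ δ μ y • w‖ₑ) := by
    refine Continuous.measurable ?_
    exact (hcontBD.sub (ha.1.continuous.smul continuous_const)).enorm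
  have hball : ∀ (y : E (m + 1)) (r : ℝ), ∫⁻ z in ball y r, ‖g z - w‖ₑ ∂μ = τ (ball y r) := by
    intro y r
    rw [hτ, withDensity_apply _ measurableSet_ball]
  have hfd : ∀ y, ‖fderiv ℝ δ y‖ ≤ ε₀ := by
    intro y
    have h1 : fderiv ℝ δ y = ε₀ • fderiv ℝ Ds y := by
      have hdiff : DifferentiableAt ℝ Ds y := (hDs1.differentiable (by simp)) y
      have : δ = fun y => ε₀ • Ds y := by
        funext y; simp [hδ]
      rw [this]
      exact fderiv_const_smul hdiff ε₀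
    rw [h1, norm_smul, Real.norm_of_nonneg h0.le]
    calc ε₀ * ‖fderiv ℝ Ds y‖ ≤ ε₀ * 1 := mul_le_mul_of_nonneg_left (hDs3 y) h0.le
      _ = ε₀ := mul_one _
  have step3 : J S (fun y => ‖BD A (vs φ δ u) y - vsm φ δ μ y • w‖ₑ) ≤
      (C₃ * ENNReal.ofReal ε₀ ^ 2 + C₄ * ENNReal.ofReal η ^ 2) * J S (Av D μ (ε₀ / 4)) + C₅ := by
    refine hMNB S I D Ds hD (fun q hq => ⟨(hI q hq).1, (hI q hq).2.1.le⟩) hDs2 μ τ hμM hτM hτs
      η hη.le ?_ _ hmeasF ?_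
    · intro q hq r hr1 hr2
      have := (hI q hq).2.2 r (lt_of_lt_of_le (hD.pos q hq) hr1) hr1 hr2
      rwa [hball] at this
    · intro y
      have := hMAP Ru u μ g hpair δ ε₀ hδs hδp h0.le hfd w y
      rw [hball] at this
      exact this
  apply absorb hfin
  calc J S (Av D μ (ε₀ / 4)) ≤ CA * ∫⁻ p, ‖∫ s, vsm φ δ μ (S.Q (p, s))‖ₑ ^ 2 := step1
    _ ≤ CA * (ENNReal.ofReal (K / c ^ 2) *
        J S (fun y => ‖BD A (vs φ δ u) y - vsm φ δ μ y • w‖ₑ)) := by gcongr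
    _ ≤ CA * (ENNReal.ofReal (K / c ^ 2) *
        ((C₃ * ENNReal.ofReal ε₀ ^ 2 + C₄ * ENNReal.ofReal η ^ 2) * J S (Av D μ (ε₀ / 4)) + C₅)) := by
        gcongr
    _ = (κ * C₃ * ENNReal.ofReal ε₀ ^ 2 + κ * C₄ * ENNReal.ofReal η ^ 2) *
          J S (Av D μ (ε₀ / 4)) + κ * C₅ := by
        rw [hκ]; ring
    _ ≤ (1 / 4 + 1 / 4) * J S (Av D μ (ε₀ / 4)) + κ * C₅ := by gcongr

end Pool.Agent.CEL
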