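import Pool.Agent.CEL.Stmts

/-!
# MAP: the pointwise bound for the variable radius mollification
-/

set_option autoImplicit false
open Topology Filter MeasureTheory Matrix Metric
open scoped ENNReal

namespace Pool.Agent.CEL
namespace MAP_

variable {m : ℕ}

theorem tf_cont {n : ℕ} {ψ : E n → ℝ} (h : TF ψ) : Continuous ψ := h.1.continuous

theorem tf_bdd {n : ℕ} {ψ : E n → ℝ} (h : TF ψ) : ∃ C : ℝ, 0 ≤ C ∧ ∀ z, |ψ z| ≤ C := by
  obtain ⟨C, hC⟩ := h.2.exists_bound_of_continuous h.1.continuous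
  exact ⟨C, (norm_nonneg _).trans (hC 0), hC⟩

theorem tf_neg {n : ℕ} {ψ : E n → ℝ} (h : TF ψ) : TF (fun z => ψ (-z)) := by
  refine ⟨h.1.comp contDiff_neg, ?_⟩
  exact h.2.comp_homeomorph (Homeomorph.neg _)

theorem mono_neg {n : ℕ} (β : Fin n → ℕ) (z : E n) :
    mono β (-z) = (-1) ^ (∑ i, β i) * mono β z := by
  unfold mono
  rw [← Finset.prod_pow_eq_pow_sum, ← Finset.prod_mul_distrib]
  apply Finset.prod_congr rfl
  intro i _
  rw [show (-z) i = -(z i) from rfl, neg_pow]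

theorem orth_neg {n ℓ : ℕ} {h : E n → ℝ} (ho : OrthP ℓ h) : OrthP ℓ (fun z => h (-z)) := by
  intro β hβ
  have h1 : ∫ z, h (-z) * mono β z = ∫ z, h z * mono β (-z) := by
    rw [← integral_neg_eq_self (fun z : E n => h (-z) * mono β z) volume]
    apply integral_congr_ae
    refine Eventually.of_forall (fun z => ?_)
    simp only [neg_neg]
  rw [h1]
  have h2 : ∀ z : E n, h z * mono β (-z) = (-1) ^ (∑ i, β i) * (h z * mono β z) := by
    intro z
    rw [mono_neg]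
    ring
  simp only [h2]
  rw [integral_const_mul, ho β hβ, mul_zero]

theorem cb_exists {n : ℕ} (ℓ : ℕ) {h : E n → ℝ} (ht : TF h) : ∃ M : ℝ, 0 ≤ M ∧ CB ℓ M h := by
  have h1 : ∀ j : ℕ, ∃ C : ℝ, 0 ≤ C ∧ ∀ z, ‖iteratedFDeriv ℝ j h z‖ ≤ C := by
    intro j
    obtain ⟨C, hC⟩ := (ht.2.iteratedFDeriv (𝕜 := ℝ) j).exists_bound_of_continuous
      (ht.1.continuous_iteratedFDeriv (by exact_mod_cast le_top))
    exact ⟨C, (norm_nonneg _).trans (hC 0), hC⟩
  choose C hC0 hC using h1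
  refine ⟨∑ j ∈ Finset.range (ℓ + 1), C j, Finset.sum_nonneg (fun j _ => hC0 j), ?_⟩
  intro j hj z
  refine (hC j z).trans ?_
  exact Finset.single_le_sum (f := C) (fun i _ => hC0 i) (Finset.mem_range.2 (by omega))

theorem dvg_supp (φ : E (m + 1) → ℝ) (T₀ : ℝ) (h0 : ∀ z, T₀ ≤ ‖z‖ → φ z = 0) :
    tsupport (fun z => dvg φ (-z)) ⊆ closedBall (0 : E (m + 1)) T₀ := by
  apply closure_minimal _ isClosed_closedBall
  intro z hz
  rw [Function.mem_support] at hz
  by_contra hcon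
  apply hz
  rw [mem_closedBall_zero_iff, not_le] at hcon
  have hts : tsupport φ ⊆ closedBall (0 : E (m + 1)) T₀ := by
    apply closure_minimal _ isClosed_closedBall
    intro x hx
    rw [mem_closedBall_zero_iff]
    by_contra hc
    exact hx (h0 x (not_le.1 hc).le)
  have hn : -z ∉ tsupport φ := by
    intro hmem
    have := hts hmem
    rw [mem_closedBall_zero_iff, norm_neg] at this
    linarith
  unfold dvg
  rw [fderiv_of_notMem_tsupport ℝ hn, h0 (-z) (by rw [norm_neg]; exact hcon.le)]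
  simp

theorem subst (N : ℕ) (κ : E (m + 1) → ℝ) (u : E (m + 1) → (Fin N → ℝ)) (y : E (m + 1)) (d : ℝ)
    (hd : 0 < d) :
    ∫ z, ker κ d (y - z) • u z = Lr u y (fun z => κ (-z)) d := by
  unfold Lr ker
  set F : E (m + 1) → (Fin N → ℝ) := fun x => κ (-(d⁻¹ • x)) • u (y + x) with hF
  have h1 : ∫ z, κ (-z) • u (y + d • z) = ∫ z, F (d • z) := by
    congr 1
    ext1 z
    simp only [hF]
    rw [smul_smul, inv_mul_cancel₀ hd.ne', one_smul]
  rw [h1, Measure.integral_comp_smul volume F d]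
  rw [show Module.finrank ℝ (E (m + 1)) = m + 1 by simp]
  rw [abs_of_nonneg (by positivity)]
  rw [← integral_smul]
  rw [← integral_sub_right_eq_self (fun x => (d ^ (m + 1))⁻¹ • F x) y]
  congr 1
  ext1 z
  simp only [hF]
  rw [smul_smul]
  congr 2
  · congr 1
    rw [← smul_neg, neg_sub]
  · rw [add_sub_cancel]

end MAP_

theorem map_proof (h1 : Stmt_VSF) (h2 : Stmt_LMA) (h3 : Stmt_HDV) : Stmt_MAP := by
  intro m N K ℓ A hA φ T₀ hφ hRep hT hφ0
  obtain ⟨Sφ, hSφ0, hSφ⟩ := MAP_.tf_bdd hφ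
  obtain ⟨hdtf, hdo⟩ := h3 m ℓ φ hφ hRep
  have hhtf := MAP_.tf_neg hdtf
  have hho := MAP_.orth_neg hdo
  have hhs := MAP_.dvg_supp φ T₀ hφ0
  obtain ⟨M, hM0, hM⟩ := MAP_.cb_exists ℓ hhtf
  obtain ⟨C₀, hC₀, hL⟩ := h2 m N K ℓ A hA (closedBall (0 : E (m + 1)) T₀)
    (isCompact_closedBall _ _) (convex_closedBall _ _) (by
      refine ⟨0, ?_⟩
      apply ball_subset_interior_closedBall
      exact mem_ball_self (by linarith))
  have hL' := hL _ hhtf hhs hho M hM
  set Lj : Fin (m + 1) → ((Fin N → ℝ) →L[ℝ] (Fin K → ℝ)) :=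
    fun j => LinearMap.toContinuousLinearMap (Matrix.mulVecLin (A j)) with hLj
  have hLjv : ∀ j (X : Fin N → ℝ), A j *ᵥ X = Lj j X := fun j X => rfl
  set SL : ℝ := ∑ j, ‖Lj j‖ with hSL
  have hSL0 : 0 ≤ SL := Finset.sum_nonneg (fun j _ => norm_nonneg _)
  refine ⟨Sφ + SL * (C₀ * M), by positivity, ?_⟩
  intro Ru u μ g hp δ ε₀ hδ hδ0 hε hδ' w y
  have hfin := hp.fin
  set d := δ y with hd
  have hd0 : 0 < d := hδ0 y
  have hkc : Continuous (fun z : E (m + 1) => ker φ d (y - z)) := by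
    unfold ker
    exact continuous_const.mul (hφ.1.continuous.comp
      (continuous_const_smul _ |>.comp (continuous_const.sub continuous_id)))
  have hkb : ∀ z, |ker φ d (y - z)| ≤ Sφ * (d ^ (m + 1))⁻¹ := by
    intro z
    unfold ker
    rw [abs_mul, abs_of_nonneg (by positivity), mul_comm]
    gcongr
    exact hSφ _
  have hint1 : Integrable (fun z => ker φ d (y - z)) μ := by
    apply Integrable.of_bound (C := Sφ * (d ^ (m + 1))⁻¹)
    · exact hkc.aestronglyMeasurable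
    · exact Eventually.of_forall hkb
  have hint2 : Integrable (fun z => ker φ d (y - z) • g z) μ := by
    apply Integrable.of_bound (C := Sφ * (d ^ (m + 1))⁻¹)
    · exact hkc.aestronglyMeasurable.smul hp.meas_g.aestronglyMeasurable
    · refine Eventually.of_forall (fun z => ?_)
      rw [norm_smul]
      calc ‖ker φ d (y - z)‖ * ‖g z‖ ≤ (Sφ * (d ^ (m + 1))⁻¹) * 1 := by
            apply mul_le_mul (hkb z) (hp.norm_g z) (norm_nonneg _)
            positivity
        _ = _ := mul_one _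
  have hv := h1 m N K A Ru u μ g hp φ δ hφ hδ hδ0 y
  rw [← hd] at hv
  rw [MAP_.subst N (dvg φ) u y d hd0] at hv
  set X := Lr u y (fun z => dvg φ (-z)) d with hX
  have hXb : ‖X‖ₑ ≤ ENNReal.ofReal (C₀ * M) *
      (ENNReal.ofReal ((d ^ m)⁻¹) * μ (closedBall y (T₀ * d))) := by
    refine (hL' Ru u μ g hp y d hd0).trans ?_
    unfold dens
    gcongr
    rintro _ ⟨z, hz, rfl⟩
    rw [mem_closedBall_zero_iff] at hz
    rw [mem_closedBall, dist_eq_norm]
    simp only [add_sub_cancel_left]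
    rw [norm_smul, Real.norm_of_nonneg hd0.le, mul_comm]
    gcongr
  have hvsm : vsm φ δ μ y • w = ∫ z, ker φ d (y - z) • w ∂μ := by
    unfold vsm
    rw [integral_smul_const]
  have hmain : BD A (vs φ δ u) y - vsm φ δ μ y • w =
      (∫ z, ker φ d (y - z) • (g z - w) ∂μ) -
        d⁻¹ • ∑ j, fderiv ℝ δ y (bs j) • (A j *ᵥ X) := by
    rw [hv, hvsm]
    simp only [smul_sub]
    rw [integral_sub hint2 (hint1.smul_const w)]
    abel
  rw [hmain]
  have hA1 : ‖∫ z, ker φ d (y - z) • (g z - w) ∂μ‖ₑ ≤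
      ENNReal.ofReal (Sφ * (d ^ (m + 1))⁻¹) * ∫⁻ z in ball y (T₀ * d), ‖g z - w‖ₑ ∂μ := by
    refine (enorm_integral_le_lintegral_enorm _).trans ?_
    calc ∫⁻ z, ‖ker φ d (y - z) • (g z - w)‖ₑ ∂μ
        ≤ ∫⁻ z, (ball y (T₀ * d)).indicator
            (fun z => ENNReal.ofReal (Sφ * (d ^ (m + 1))⁻¹) * ‖g z - w‖ₑ) z ∂μ := by
          apply lintegral_mono
          intro z
          by_cases hz : z ∈ ball y (T₀ * d)
          · rw [Set.indicator_of_mem hz]
            simp only [enorm_smul]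
            gcongr
            rw [← ofReal_norm]
            exact ENNReal.ofReal_le_ofReal (hkb z)
          · rw [Set.indicator_of_notMem hz]
            have hz0 : ker φ d (y - z) = 0 := by
              unfold ker
              rw [hφ0, mul_zero]
              rw [norm_smul, Real.norm_of_nonneg (by positivity)]
              rw [mem_ball, dist_eq_norm, not_lt, ← norm_neg, neg_sub] at hz
              rw [inv_mul_eq_div, le_div_iff₀ hd0]
              exact hz
            simp [hz0]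
      _ = ∫⁻ z in ball y (T₀ * d),
            ENNReal.ofReal (Sφ * (d ^ (m + 1))⁻¹) * ‖g z - w‖ₑ ∂μ := by
          rw [lintegral_indicator measurableSet_ball]
      _ = _ := by
          rw [lintegral_const_mul']
          exact ENNReal.ofReal_ne_top
  have hB1 : ‖∑ j, fderiv ℝ δ y (bs j) • (A j *ᵥ X)‖ ≤ ε₀ * SL * ‖X‖ := by
    refine (norm_sum_le _ _).trans ?_
    rw [hSL, Finset.mul_sum, Finset.sum_mul]
    apply Finset.sum_le_sum
    intro j _
    rw [norm_smul, hLjv]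
    have hb : ‖fderiv ℝ δ y (bs j)‖ ≤ ε₀ := by
      refine ((fderiv ℝ δ y).le_opNorm _).trans ?_
      have : ‖(bs j : E (m + 1))‖ = 1 := by
        unfold bs
        simp
      rw [this, mul_one]
      exact hδ' y
    calc ‖fderiv ℝ δ y (bs j)‖ * ‖Lj j X‖ ≤ ε₀ * (‖Lj j‖ * ‖X‖) := by
          apply mul_le_mul hb ((Lj j).le_opNorm X) (norm_nonneg _) hε
      _ = ε₀ * ‖Lj j‖ * ‖X‖ := by ring
  have hB2 : ‖d⁻¹ • ∑ j, fderiv ℝ δ y (bs j) • (A j *ᵥ X)‖ₑ ≤
      ENNReal.ofReal (d⁻¹ * (ε₀ * SL)) * ‖X‖ₑ := by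
    rw [← ofReal_norm, ← ofReal_norm, ← ENNReal.ofReal_mul (by positivity)]
    apply ENNReal.ofReal_le_ofReal
    rw [norm_smul, Real.norm_of_nonneg (by positivity)]
    calc d⁻¹ * ‖∑ j, fderiv ℝ δ y (bs j) • (A j *ᵥ X)‖ ≤ d⁻¹ * (ε₀ * SL * ‖X‖) := by
          gcongr
      _ = _ := by ring
  calc ‖(∫ z, ker φ d (y - z) • (g z - w) ∂μ) -
        d⁻¹ • ∑ j, fderiv ℝ δ y (bs j) • (A j *ᵥ X)‖ₑ
      ≤ ‖∫ z, ker φ d (y - z) • (g z - w) ∂μ‖ₑ +
        ‖d⁻¹ • ∑ j, fderiv ℝ δ y (bs j) • (A j *ᵥ X)‖ₑ := enorm_sub_le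
    _ ≤ ENNReal.ofReal (Sφ * (d ^ (m + 1))⁻¹) * (∫⁻ z in ball y (T₀ * d), ‖g z - w‖ₑ ∂μ) +
        ENNReal.ofReal (d⁻¹ * (ε₀ * SL)) * (ENNReal.ofReal (C₀ * M) *
          (ENNReal.ofReal ((d ^ m)⁻¹) * μ (closedBall y (T₀ * d)))) := by
        gcongr
        exact hB2.trans (by gcongr)
    _ = ENNReal.ofReal (Sφ) * ENNReal.ofReal ((d ^ (m + 1))⁻¹) *
          (∫⁻ z in ball y (T₀ * d), ‖g z - w‖ₑ ∂μ) +
        ENNReal.ofReal (SL * (C₀ * M)) * ENNReal.ofReal ((d ^ (m + 1))⁻¹) *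
          (ENNReal.ofReal ε₀ * μ (closedBall y (T₀ * d))) := by
        rw [ENNReal.ofReal_mul hSφ0]
        congr 1
        have e1 : ENNReal.ofReal (d⁻¹ * (ε₀ * SL)) * ENNReal.ofReal (C₀ * M) *
            ENNReal.ofReal ((d ^ m)⁻¹) =
            ENNReal.ofReal (SL * (C₀ * M)) * ENNReal.ofReal ((d ^ (m + 1))⁻¹) *
              ENNReal.ofReal ε₀ := by
          rw [← ENNReal.ofReal_mul (by positivity), ← ENNReal.ofReal_mul (by positivity),
            ← ENNReal.ofReal_mul (by positivity), ← ENNReal.ofReal_mul (by positivity)]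
          congr 1
          rw [pow_succ, mul_inv]
          ring
        calc ENNReal.ofReal (d⁻¹ * (ε₀ * SL)) * (ENNReal.ofReal (C₀ * M) *
              (ENNReal.ofReal ((d ^ m)⁻¹) * μ (closedBall y (T₀ * d))))
            = (ENNReal.ofReal (d⁻¹ * (ε₀ * SL)) * ENNReal.ofReal (C₀ * M) *
              ENNReal.ofReal ((d ^ m)⁻¹)) * μ (closedBall y (T₀ * d)) := by ring
          _ = _ := by
            rw [e1]
            ring
    _ ≤ ENNReal.ofReal (Sφ + SL * (C₀ * M)) * ENNReal.ofReal ((d ^ (m + 1))⁻¹) *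
          (∫⁻ z in ball y (T₀ * d), ‖g z - w‖ₑ ∂μ) +
        ENNReal.ofReal (Sφ + SL * (C₀ * M)) * ENNReal.ofReal ((d ^ (m + 1))⁻¹) *
          (ENNReal.ofReal ε₀ * μ (closedBall y (T₀ * d))) := by
        have hq : 0 ≤ SL * (C₀ * M) := by positivity
        gcongr
        · linarith
        · linarith
    _ = _ := by rw [mul_add]

end Pool.Agent.CEL
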