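import Pool.Agent.CEL.Stmts

/-!
# CEL, MNA: the lower bound for the mollified measure
-/

set_option autoImplicit false
open Topology Filter MeasureTheory Matrix Metric
open scoped ENNReal

namespace Pool.Agent.CEL
namespace MNA_

section
variable {α : Type*} [MeasurableSpace α] {ν : Measure α}

/-- The L2 norm of a nonnegative function. -/
noncomputable def N2 (ν : Measure α) (f : α → ℝ≥0∞) : ℝ≥0∞ := (∫⁻ p, (f p) ^ 2 ∂ν) ^ (1 / 2 : ℝ)

lemma N2_mono {f g : α → ℝ≥0∞} (h : ∀ᵐ p ∂ν, f p ≤ g p) : N2 ν f ≤ N2 ν g := by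
  unfold N2
  apply ENNReal.rpow_le_rpow _ (by norm_num)
  apply lintegral_mono_ae
  filter_upwards [h] with p hp
  gcongr

lemma N2_add {f g : α → ℝ≥0∞} (hf : AEMeasurable f ν) (hg : AEMeasurable g ν) :
    N2 ν (fun p => f p + g p) ≤ N2 ν f + N2 ν g := by
  have h := ENNReal.lintegral_Lp_add_le hf hg (by norm_num : (1 : ℝ) ≤ 2)
  unfold N2
  simpa only [ENNReal.rpow_two, Pi.add_apply] using h

lemma sq_rpow (c : ℝ≥0∞) : (c ^ 2) ^ (1 / 2 : ℝ) = c := by
  rw [← ENNReal.rpow_two, ← ENNReal.rpow_mul]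
  norm_num

lemma rpow_sq (c : ℝ≥0∞) : (c ^ (1 / 2 : ℝ)) ^ 2 = c := by
  rw [← ENNReal.rpow_two, ← ENNReal.rpow_mul]
  norm_num

lemma N2_mul (c : ℝ≥0∞) (hc : c ≠ ⊤) (f : α → ℝ≥0∞) :
    N2 ν (fun p => c * f p) = c * N2 ν f := by
  unfold N2
  simp_rw [mul_pow]
  rw [lintegral_const_mul' _ _ (ENNReal.pow_ne_top hc),
    ENNReal.mul_rpow_of_nonneg _ _ (by norm_num), sq_rpow]

lemma N2_zero : N2 ν (fun _ => 0) = 0 := by
  unfold N2
  simp

lemma N2_sum {ι : Type*} (s : Finset ι) (f : ι → α → ℝ≥0∞) (hf : ∀ i, Measurable (f i)) :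
    N2 ν (fun p => ∑ i ∈ s, f i p) ≤ ∑ i ∈ s, N2 ν (f i) := by
  classical
  induction s using Finset.induction_on with
  | empty => simp [N2_zero]
  | insert i s hi ih =>
    simp_rw [Finset.sum_insert hi]
    refine (N2_add (hf i).aemeasurable
      (Finset.measurable_sum s (fun j _ => hf j)).aemeasurable).trans ?_
    gcongr

end

variable {m : ℕ}

lemma ker_comb (ρ : E (m + 1) → ℝ) {k : ℕ} (a₀ : ℝ) (a t : Fin k → ℝ) (d : ℝ) (x : E (m + 1)) :
    ker (comb ρ a₀ a t) d x = a₀ * ker ρ d x + ∑ i, a i * ker ρ (t i * d) x := by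
  simp only [ker, comb, mul_add, Finset.mul_sum]
  congr 1
  · ring
  · apply Finset.sum_congr rfl
    intro i _
    rw [smul_smul, mul_pow, mul_inv, mul_inv]
    ring

lemma cont_ker {ρ : E (m + 1) → ℝ} (hρ : Continuous ρ) {δ : E (m + 1) → ℝ} (hδ : Continuous δ)
    (hp : ∀ y, 0 < δ y) :
    Continuous (fun q : E (m + 1) × E (m + 1) => ker ρ (δ q.1) (q.1 - q.2)) := by
  unfold ker
  have h1 : Continuous (fun q : E (m + 1) × E (m + 1) => δ q.1) := hδ.comp continuous_fst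
  exact ((h1.pow _).inv₀ (fun q => (pow_pos (hp _) _).ne')).mul
    (hρ.comp ((h1.inv₀ (fun q => (hp _).ne')).smul (continuous_fst.sub continuous_snd)))

lemma cont_ker1 {ρ : E (m + 1) → ℝ} (hρ : Continuous ρ) (d : ℝ) (y : E (m + 1)) :
    Continuous (fun z : E (m + 1) => ker ρ d (y - z)) := by
  unfold ker
  have h : Continuous (fun z : E (m + 1) => d⁻¹ • (y - z)) := by fun_prop
  exact continuous_const.mul (hρ.comp h)

lemma meas_vsm {ρ : E (m + 1) → ℝ} (hρ : Continuous ρ) {δ : E (m + 1) → ℝ} (hδ : Continuous δ)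
    (hp : ∀ y, 0 < δ y) (μ : Measure (E (m + 1))) [IsFiniteMeasure μ] :
    StronglyMeasurable (vsm ρ δ μ) := by
  unfold vsm
  exact (cont_ker hρ hδ hp).stronglyMeasurable.integral_prod_right'

lemma ker_nn {ρ : E (m + 1) → ℝ} {c C : ℝ} (hρ : IsBump ρ c C) {d : ℝ} (hd : 0 < d)
    (x : E (m + 1)) : 0 ≤ ker ρ d x := by
  unfold ker
  exact mul_nonneg (inv_nonneg.2 (pow_nonneg hd.le _)) (hρ.nn _)

lemma ker_le {ρ : E (m + 1) → ℝ} {c C : ℝ} (hρ : IsBump ρ c C) {d : ℝ} (hd : 0 < d)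
    (x : E (m + 1)) : ker ρ d x ≤ (d ^ (m + 1))⁻¹ * C := by
  unfold ker
  exact mul_le_mul_of_nonneg_left (hρ.le _) (inv_nonneg.2 (pow_nonneg hd.le _))

lemma int_ker {ρ : E (m + 1) → ℝ} {c C : ℝ} (hρ : IsBump ρ c C) {d : ℝ} (hd : 0 < d)
    (y : E (m + 1)) (μ : Measure (E (m + 1))) [IsFiniteMeasure μ] :
    Integrable (fun z => ker ρ d (y - z)) μ := by
  refine (integrable_const ((d ^ (m + 1))⁻¹ * C)).mono'
    (cont_ker1 hρ.tf.1.continuous d y).aestronglyMeasurable (Eventually.of_forall fun z => ?_)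
  rw [Real.norm_eq_abs, abs_of_nonneg (ker_nn hρ hd _)]
  exact ker_le hρ hd _

lemma vsm_comb {ρ : E (m + 1) → ℝ} {c C : ℝ} (hρ : IsBump ρ c C) {k : ℕ} (a₀ : ℝ)
    (a t : Fin k → ℝ) (ht : ∀ i, 0 < t i) {δ : E (m + 1) → ℝ} (hp : ∀ y, 0 < δ y)
    (μ : Measure (E (m + 1))) [IsFiniteMeasure μ] (y : E (m + 1)) :
    vsm (comb ρ a₀ a t) δ μ y =
      a₀ * vsm ρ δ μ y + ∑ i, a i * vsm ρ (fun y => t i * δ y) μ y := by
  unfold vsm
  simp_rw [ker_comb]
  rw [integral_add ((int_ker hρ (hp y) y μ).const_mul _)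
    (integrable_finsetSum _ fun i _ =>
      (int_ker hρ (mul_pos (ht i) (hp y)) y μ).const_mul _), integral_const_mul,
    integral_finsetSum _ fun i _ =>
      (int_ker hρ (mul_pos (ht i) (hp y)) y μ).const_mul _]
  simp_rw [integral_const_mul]

lemma vsm_nn {ρ : E (m + 1) → ℝ} {c C : ℝ} (hρ : IsBump ρ c C) {δ : E (m + 1) → ℝ}
    (hp : ∀ y, 0 < δ y) (μ : Measure (E (m + 1))) (y : E (m + 1)) : 0 ≤ vsm ρ δ μ y := by
  unfold vsm
  exact integral_nonneg fun z => ker_nn hρ (hp y) _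

lemma lower {ρ : E (m + 1) → ℝ} {c C : ℝ} (hρ : IsBump ρ c C) (μ : Measure (E (m + 1)))
    [IsFiniteMeasure μ] (y : E (m + 1)) (d e : ℝ) (he : 0 < e) (h1 : e ≤ d / 2) (h2 : d ≤ 6 * e) :
    ENNReal.ofReal (c * (6 ^ (m + 1))⁻¹) * (μ (ball y e) / ENNReal.ofReal (e ^ (m + 1))) ≤
      ENNReal.ofReal (∫ z, ker ρ d (y - z) ∂μ) := by
  have hd : 0 < d := by linarith
  rw [ofReal_integral_eq_lintegral_ofReal (int_ker hρ hd y μ)
    (Eventually.of_forall fun z => ker_nn hρ hd _)]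
  calc ENNReal.ofReal (c * (6 ^ (m + 1))⁻¹) * (μ (ball y e) / ENNReal.ofReal (e ^ (m + 1)))
      = ENNReal.ofReal (c * (6 ^ (m + 1))⁻¹ * (e ^ (m + 1))⁻¹) * μ (ball y e) := by
        rw [ENNReal.div_eq_inv_mul, ← ENNReal.ofReal_inv_of_pos (pow_pos he _),
          ← mul_assoc, ENNReal.ofReal_mul (p := c * (6 ^ (m + 1))⁻¹)
            (mul_nonneg hρ.pos.le (by positivity))]
    _ ≤ ENNReal.ofReal ((d ^ (m + 1))⁻¹ * c) * μ (ball y e) := by
        refine mul_le_mul' (ENNReal.ofReal_le_ofReal ?_) le_rfl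
        have h3 : d ^ (m + 1) ≤ 6 ^ (m + 1) * e ^ (m + 1) := by
          rw [← mul_pow]; gcongr
        rw [mul_assoc, ← mul_inv, mul_comm]
        exact mul_le_mul_of_nonneg_right
          (inv_anti₀ (pow_pos hd _) h3) hρ.pos.le
    _ = ∫⁻ _ in ball y e, ENNReal.ofReal ((d ^ (m + 1))⁻¹ * c) ∂μ := by
        rw [setLIntegral_const]
    _ ≤ ∫⁻ z in ball y e, ENNReal.ofReal (ker ρ d (y - z)) ∂μ := by
        apply setLIntegral_mono' measurableSet_ball
        intro z hz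
        apply ENNReal.ofReal_le_ofReal
        unfold ker
        apply mul_le_mul_of_nonneg_left _ (inv_nonneg.2 (pow_nonneg hd.le _))
        apply hρ.ge
        rw [norm_smul, norm_inv, Real.norm_eq_abs, abs_of_pos hd, ← dist_eq_norm, dist_comm]
        rw [mem_ball] at hz
        rw [inv_mul_le_iff₀ hd]
        linarith
    _ ≤ ∫⁻ z, ENNReal.ofReal (ker ρ d (y - z)) ∂μ := setLIntegral_le_lintegral _ _

lemma upper {ρ : E (m + 1) → ℝ} {c C : ℝ} (hρ : IsBump ρ c C) (hC : 0 < C)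
    (μ : Measure (E (m + 1)))
    [IsFiniteMeasure μ] (y : E (m + 1)) (d e : ℝ) (hd : 0 < d) (h1 : d ≤ e) (h2 : e ≤ 3 * d) :
    ENNReal.ofReal (∫ z, ker ρ d (y - z) ∂μ) ≤
      ENNReal.ofReal (C * 3 ^ (m + 1)) * (μ (ball y e) / ENNReal.ofReal (e ^ (m + 1))) := by
  have he : 0 < e := by linarith
  rw [ofReal_integral_eq_lintegral_ofReal (int_ker hρ hd y μ)
    (Eventually.of_forall fun z => ker_nn hρ hd _)]
  calc ∫⁻ z, ENNReal.ofReal (ker ρ d (y - z)) ∂μ
      ≤ ∫⁻ z, (ball y e).indicator (fun _ => ENNReal.ofReal ((d ^ (m + 1))⁻¹ * C)) z ∂μ := by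
        apply lintegral_mono
        intro z
        by_cases hz : z ∈ ball y e
        · rw [Set.indicator_of_mem hz]
          exact ENNReal.ofReal_le_ofReal (ker_le hρ hd _)
        · rw [Set.indicator_of_notMem hz]
          have h3 : ker ρ d (y - z) = 0 := by
            unfold ker
            rw [hρ.supp, mul_zero]
            rw [norm_smul, norm_inv, Real.norm_eq_abs, abs_of_pos hd, ← dist_eq_norm, dist_comm]
            rw [mem_ball, not_lt] at hz
            rw [le_inv_mul_iff₀ hd]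
            linarith
          simp only [h3, ENNReal.ofReal_zero, le_refl]
    _ = ENNReal.ofReal ((d ^ (m + 1))⁻¹ * C) * μ (ball y e) := by
        rw [lintegral_indicator measurableSet_ball, setLIntegral_const]
    _ ≤ ENNReal.ofReal (C * 3 ^ (m + 1) * (e ^ (m + 1))⁻¹) * μ (ball y e) := by
        refine mul_le_mul' (ENNReal.ofReal_le_ofReal ?_) le_rfl
        have h3 : e ^ (m + 1) ≤ 3 ^ (m + 1) * d ^ (m + 1) := by
          rw [← mul_pow]; gcongr
        rw [mul_comm, mul_assoc]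
        apply mul_le_mul_of_nonneg_left _ hC.le
        rw [← div_eq_mul_inv, inv_le_comm₀ (pow_pos hd _) (div_pos (by positivity) (pow_pos he _)),
          inv_div, div_le_iff₀ (by positivity), mul_comm]
        exact h3
    _ = ENNReal.ofReal (C * 3 ^ (m + 1)) * (μ (ball y e) / ENNReal.ofReal (e ^ (m + 1))) := by
        rw [ENNReal.div_eq_inv_mul, ← ENNReal.ofReal_inv_of_pos (pow_pos he _),
          ← mul_assoc, ENNReal.ofReal_mul (p := C * 3 ^ (m + 1))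
            (mul_nonneg hC.le (by positivity))]

/-- The pointwise inequality for the line integrals. -/
lemma line {k : ℕ} (a₀ : ℝ) (a : Fin k → ℝ) (ha : 0 ≤ a₀) (g0 : ℝ → ℝ) (g : Fin k → ℝ → ℝ)
    (h0 : ∀ s, 0 ≤ g0 s) (hg : ∀ i s, 0 ≤ g i s) (i0 : Integrable g0) (ig : ∀ i, Integrable (g i)) :
    ENNReal.ofReal a₀ * ∫⁻ s, ENNReal.ofReal (g0 s) ≤
      ‖∫ s, (a₀ * g0 s + ∑ i, a i * g i s)‖ₑ +
        ∑ i, ENNReal.ofReal |a i| * ∫⁻ s, ENNReal.ofReal (g i s) := by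
  rw [← ofReal_integral_eq_lintegral_ofReal i0 (Eventually.of_forall h0)]
  have h1 : ∀ i, ∫⁻ s, ENNReal.ofReal (g i s) = ENNReal.ofReal (∫ s, g i s) := fun i =>
    (ofReal_integral_eq_lintegral_ofReal (ig i) (Eventually.of_forall (hg i))).symm
  simp_rw [h1]
  have h2 : ∀ i, 0 ≤ ∫ s, g i s := fun i => integral_nonneg (hg i)
  rw [integral_add (i0.const_mul _) (integrable_finsetSum _ fun i _ => (ig i).const_mul _),
    integral_finsetSum _ fun i _ => (ig i).const_mul _, integral_const_mul]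
  simp_rw [integral_const_mul]
  rw [← ofReal_norm, ← ENNReal.ofReal_mul ha]
  have h3 : ∑ i, ENNReal.ofReal |a i| * ENNReal.ofReal (∫ s, g i s) =
      ENNReal.ofReal (∑ i, |a i| * ∫ s, g i s) := by
    rw [ENNReal.ofReal_sum_of_nonneg fun i _ => mul_nonneg (abs_nonneg _) (h2 i)]
    exact Finset.sum_congr rfl fun i _ => (ENNReal.ofReal_mul (abs_nonneg _)).symm
  rw [h3, ← ENNReal.ofReal_add (norm_nonneg _)
    (Finset.sum_nonneg fun i _ => mul_nonneg (abs_nonneg _) (h2 i))]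
  apply ENNReal.ofReal_le_ofReal
  have h4 : |∑ i, a i * ∫ s, g i s| ≤ ∑ i, |a i| * ∫ s, g i s := by
    refine (Finset.abs_sum_le_sum_abs _ _).trans (Finset.sum_le_sum fun i _ => ?_)
    rw [abs_mul, abs_of_nonneg (h2 i)]
  rw [Real.norm_eq_abs]
  have h5 := le_abs_self ((a₀ * ∫ s, g0 s) + ∑ i, a i * ∫ s, g i s)
  have h6 := (abs_le.1 h4).1
  linarith

/-- The final absorption. -/
lemma absorb {X Y : ℝ≥0∞} (hX : X ≠ ⊤) {b : ℝ} (hb : 0 < b) {q : ℝ≥0∞}
    (hq : q ≤ ENNReal.ofReal (b / 4))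
    (h : ENNReal.ofReal (b / 2) * X ≤ Y + q * X) : X ≤ ENNReal.ofReal (4 / b) * Y := by
  rcases eq_or_ne Y ⊤ with hY | hY
  · rw [hY, ENNReal.mul_top (ENNReal.ofReal_pos.2 (by positivity)).ne']
    exact le_top
  have h1 : ENNReal.ofReal (b / 2) * X ≤ Y + ENNReal.ofReal (b / 4) * X :=
    h.trans (by gcongr)
  have h2 : (b / 2) * X.toReal ≤ Y.toReal + (b / 4) * X.toReal := by
    have h3 := ENNReal.toReal_mono (ENNReal.add_ne_top.2
      ⟨hY, ENNReal.mul_ne_top ENNReal.ofReal_ne_top hX⟩) h1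
    rwa [ENNReal.toReal_add hY (ENNReal.mul_ne_top ENNReal.ofReal_ne_top hX),
      ENNReal.toReal_mul, ENNReal.toReal_mul, ENNReal.toReal_ofReal (by positivity),
      ENNReal.toReal_ofReal (by positivity)] at h3
  have h4 : X.toReal ≤ (4 / b) * Y.toReal := by
    rw [div_mul_eq_mul_div, le_div_iff₀ hb]
    linarith
  calc X = ENNReal.ofReal X.toReal := (ENNReal.ofReal_toReal hX).symm
    _ ≤ ENNReal.ofReal ((4 / b) * Y.toReal) := ENNReal.ofReal_le_ofReal h4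
    _ = ENNReal.ofReal (4 / b) * Y := by
      rw [ENNReal.ofReal_mul (by positivity), ENNReal.ofReal_toReal hY]

end MNA_

open MNA_

theorem mna_proof (h1 : Stmt_CPA) (h2 : Stmt_FAR) (_h3 : Stmt_BSJ) (h4 : Stmt_BSS)
    (_h5 : Stmt_BSM) (h6 : Stmt_BSA) : Stmt_MNA := by
  intro m ρ c₁ C₁ hρ
  obtain ⟨K, hK, hcpa⟩ := h1 m
  obtain ⟨-, hfar⟩ := h2 m
  have hc : 0 < c₁ := hρ.pos
  have hC : 0 < C₁ := by
    have h := hρ.ge 0 (by simp)
    exact hc.trans_le (h.trans (hρ.le 0))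
  have hρc : Continuous ρ := hρ.tf.1.continuous
  set κ : ℝ := (K ^ (1 / 2 : ℝ)).toReal with hκ
  have hκ0 : 0 ≤ κ := ENNReal.toReal_nonneg
  have hKt : K ^ (1 / 2 : ℝ) ≠ ⊤ := ENNReal.rpow_ne_top_of_nonneg (by norm_num) hK
  have hKe : K ^ (1 / 2 : ℝ) = ENNReal.ofReal κ := (ENNReal.ofReal_toReal hKt).symm
  set b : ℝ := c₁ * (6 ^ (m + 1))⁻¹ with hb
  have hb0 : 0 < b := by positivity
  refine ⟨b / (4 * C₁ * 3 ^ (m + 1) * (κ + 1)), by positivity,
    (ENNReal.ofReal (4 / b)) ^ 2, ENNReal.pow_ne_top ENNReal.ofReal_ne_top, ?_⟩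
  intro k a₀ a t T₀ ε₀ ha₀ ht1 htT hT₀ hsum hε₀ hTε S I D Ds hD hDs hDD μ _ Ru hμ
  obtain ⟨hDpos, -, hDcont, -⟩ := h6 _ I D hD
  have hDsc : Continuous Ds := hDs.continuous
  have hDspos : ∀ y, 0 < Ds y := fun y => by
    have := (hDD y).1; have := hDpos y; linarith
  set δ : E (m + 1) → ℝ := fun y => ε₀ * Ds y with hδ
  have hδc : Continuous δ := continuous_const.mul hDsc
  have hδp : ∀ y, 0 < δ y := fun y => mul_pos hε₀ (hDspos y)
  have htp : ∀ i, 0 < t i := fun i => by linarith [ht1 i]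
  have hTε' : T₀ * ε₀ ≤ 1 / 200 := by linarith
  have htε : ∀ i, t i * ε₀ ≤ 1 / 200 := fun i =>
    (mul_le_mul_of_nonneg_right (htT i) hε₀.le).trans hTε'
  have hε1 : ε₀ ≤ 1 / 200 := by
    have : 1 * ε₀ ≤ T₀ * ε₀ := mul_le_mul_of_nonneg_right hT₀ hε₀.le
    linarith
  -- the functions
  set f0 : E (m + 1) → ℝ≥0∞ := fun y => ENNReal.ofReal (vsm ρ δ μ y) with hf0
  set f : Fin k → E (m + 1) → ℝ≥0∞ := fun i y =>
    ENNReal.ofReal (vsm ρ (fun y => t i * δ y) μ y) with hf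
  have hδic : ∀ i, Continuous (fun y => t i * δ y) := fun i => continuous_const.mul hδc
  have hδip : ∀ i y, 0 < t i * δ y := fun i y => mul_pos (htp i) (hδp y)
  have sm0 : StronglyMeasurable (vsm ρ δ μ) := meas_vsm hρc hδc hδp μ
  have smi : ∀ i, StronglyMeasurable (vsm ρ (fun y => t i * δ y) μ) := fun i =>
    meas_vsm hρc (hδic i) (hδip i) μ
  have mf0 : Measurable f0 := sm0.measurable.ennreal_ofReal
  have mf : ∀ i, Measurable (f i) := fun i => (smi i).measurable.ennreal_ofReal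
  have hQm : Measurable S.Q := S.Q.continuous.measurable
  -- finiteness of J
  have hJfin : ∀ s : ℝ, 0 < s → s ≤ 1 / 4 → J S (Av D μ s) ≠ ⊤ := fun s hs hs' =>
    hfar S I D hD μ Ru s hs hs' hμ
  -- lower bound
  have hlow : ∀ y, ENNReal.ofReal b * Av D μ (ε₀ / 4) y ≤ f0 y := by
    intro y
    have := hDD y
    have hy := hDpos y
    refine lower hρ μ y (δ y) (ε₀ / 4 * D y) (by positivity) ?_ ?_
    · simp only [hδ]; nlinarith
    · simp only [hδ]; nlinarith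
  have hupp : ∀ i y, f i y ≤ ENNReal.ofReal (C₁ * 3 ^ (m + 1)) *
      Av D μ (3 / 2 * t i * ε₀) y := by
    intro i y
    have := hDD y
    have hy := hDpos y
    have h7 : 0 < t i * ε₀ := mul_pos (htp i) hε₀
    refine upper hρ hC μ y (t i * δ y) (3 / 2 * t i * ε₀ * D y) (hδip i y) ?_ ?_
    · simp only [hδ]; nlinarith
    · simp only [hδ]; nlinarith
  -- the L2 norms
  set X : ℝ≥0∞ := (J S (Av D μ (ε₀ / 4))) ^ (1 / 2 : ℝ) with hX
  have hXt : X ≠ ⊤ := ENNReal.rpow_ne_top_of_nonneg (by norm_num)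
    (hJfin _ (by linarith) (by linarith))
  have hN0 : ENNReal.ofReal b * X ≤ N2 volume (fun p => ∫⁻ s, f0 (S.Q (p, s))) := by
    have h7 : ENNReal.ofReal b * X =
        N2 volume (fun p => ENNReal.ofReal b * ∫⁻ s, Av D μ (ε₀ / 4) (S.Q (p, s))) := by
      rw [N2_mul _ ENNReal.ofReal_ne_top]
      rfl
    rw [h7]
    apply N2_mono
    refine Eventually.of_forall fun p => ?_
    rw [← lintegral_const_mul' _ _ ENNReal.ofReal_ne_top]
    exact lintegral_mono fun s => hlow _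
  have hNi : ∀ i, N2 volume (fun p => ∫⁻ s, f i (S.Q (p, s))) ≤
      ENNReal.ofReal (C₁ * 3 ^ (m + 1)) * (ENNReal.ofReal κ * X) := by
    intro i
    have h7 : N2 volume (fun p => ∫⁻ s, f i (S.Q (p, s))) ≤
        N2 volume (fun p => ENNReal.ofReal (C₁ * 3 ^ (m + 1)) *
          ∫⁻ s, Av D μ (3 / 2 * t i * ε₀) (S.Q (p, s))) := by
      apply N2_mono
      refine Eventually.of_forall fun p => ?_
      rw [← lintegral_const_mul' _ _ ENNReal.ofReal_ne_top]
      exact lintegral_mono fun s => hupp i _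
    refine h7.trans ?_
    rw [N2_mul _ ENNReal.ofReal_ne_top]
    gcongr
    have h8 : J S (Av D μ (3 / 2 * t i * ε₀)) ≤ K * J S (Av D μ (ε₀ / 4)) := by
      have h9 := htε i
      have h10 : 1 * ε₀ ≤ t i * ε₀ := mul_le_mul_of_nonneg_right (ht1 i) hε₀.le
      refine hcpa S I D hD μ (ε₀ / 4) (3 / 2 * t i * ε₀) (by linarith) ?_ ?_
      · nlinarith
      · nlinarith
    calc N2 volume (fun p => ∫⁻ s, Av D μ (3 / 2 * t i * ε₀) (S.Q (p, s)))
        = (J S (Av D μ (3 / 2 * t i * ε₀))) ^ (1 / 2 : ℝ) := rfl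
      _ ≤ (K * J S (Av D μ (ε₀ / 4))) ^ (1 / 2 : ℝ) :=
          ENNReal.rpow_le_rpow h8 (by norm_num)
      _ = ENNReal.ofReal κ * X := by
          rw [ENNReal.mul_rpow_of_nonneg _ _ (by norm_num), hKe]
  -- measurability of the line integrals
  have mL : ∀ i, Measurable (fun p => ∫⁻ s, f i (S.Q (p, s))) := fun i => (h4 m S (f i) (mf i)).1
  have mL0 : Measurable (fun p => ∫⁻ s, f0 (S.Q (p, s))) := (h4 m S f0 mf0).1
  have hcomb : ∀ y, vsm (comb ρ a₀ a t) δ μ y =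
      a₀ * vsm ρ δ μ y + ∑ i, a i * vsm ρ (fun y => t i * δ y) μ y :=
    fun y => vsm_comb hρ a₀ a t htp hδp μ y
  have smc : StronglyMeasurable (vsm (comb ρ a₀ a t) δ μ) := by
    have : vsm (comb ρ a₀ a t) δ μ = fun y => a₀ * vsm ρ δ μ y +
        ∑ i, a i * vsm ρ (fun y => t i * δ y) μ y := funext hcomb
    rw [this]
    exact (sm0.const_mul _).add (Finset.stronglyMeasurable_fun_sum _
      fun i _ => (smi i).const_mul _)
  set Y : E m → ℝ≥0∞ := fun p => ‖∫ s, vsm (comb ρ a₀ a t) δ μ (S.Q (p, s))‖ₑ with hY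
  have mY : Measurable Y := by
    have h7 : StronglyMeasurable (fun q : E m × ℝ => vsm (comb ρ a₀ a t) δ μ (S.Q q)) :=
      smc.comp_measurable hQm
    exact h7.integral_prod_right'.enorm
  -- finiteness of the line integrals
  have hae0 : ∀ᵐ p : E m, ∫⁻ s, f0 (S.Q (p, s)) ≠ ⊤ := by
    have h7 : ∀ y, f0 y ≤ ENNReal.ofReal (C₁ * 3 ^ (m + 1)) * Av D μ (3 / 2 * ε₀) y := by
      intro y
      have := hDD y
      have hy := hDpos y
      refine upper hρ hC μ y (δ y) (3 / 2 * ε₀ * D y) (hδp y) ?_ ?_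
      · simp only [hδ]; nlinarith
      · simp only [hδ]; nlinarith
    have h8 : ∫⁻ p, (∫⁻ s, f0 (S.Q (p, s))) ^ 2 ≠ ⊤ := by
      have h9 : N2 volume (fun p => ∫⁻ s, f0 (S.Q (p, s))) ≤
          ENNReal.ofReal (C₁ * 3 ^ (m + 1)) * (J S (Av D μ (3 / 2 * ε₀))) ^ (1 / 2 : ℝ) := by
        have h10 : N2 volume (fun p => ∫⁻ s, f0 (S.Q (p, s))) ≤
            N2 volume (fun p => ENNReal.ofReal (C₁ * 3 ^ (m + 1)) *
              ∫⁻ s, Av D μ (3 / 2 * ε₀) (S.Q (p, s))) := by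
          apply N2_mono
          refine Eventually.of_forall fun p => ?_
          rw [← lintegral_const_mul' _ _ ENNReal.ofReal_ne_top]
          exact lintegral_mono fun s => h7 _
        refine h10.trans ?_
        rw [N2_mul _ ENNReal.ofReal_ne_top]
        rfl
      have h10 : N2 volume (fun p => ∫⁻ s, f0 (S.Q (p, s))) ≠ ⊤ :=
        ne_top_of_le_ne_top (ENNReal.mul_ne_top ENNReal.ofReal_ne_top
          (ENNReal.rpow_ne_top_of_nonneg (by norm_num)
            (hJfin _ (by linarith) (by linarith)))) h9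
      have h11 : ∫⁻ p, (∫⁻ s, f0 (S.Q (p, s))) ^ 2 =
          (N2 volume (fun p => ∫⁻ s, f0 (S.Q (p, s)))) ^ 2 := by
        unfold N2; rw [rpow_sq]
      rw [h11]
      exact ENNReal.pow_ne_top h10
    filter_upwards [ae_lt_top (mL0.pow_const 2) h8] with p hp
    intro hp'
    rw [hp'] at hp
    simp at hp
  have haei : ∀ i, ∀ᵐ p : E m, ∫⁻ s, f i (S.Q (p, s)) ≠ ⊤ := by
    intro i
    have h8 : ∫⁻ p, (∫⁻ s, f i (S.Q (p, s))) ^ 2 ≠ ⊤ := by
      have h10 : N2 volume (fun p => ∫⁻ s, f i (S.Q (p, s))) ≠ ⊤ :=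
        ne_top_of_le_ne_top (ENNReal.mul_ne_top ENNReal.ofReal_ne_top
          (ENNReal.mul_ne_top ENNReal.ofReal_ne_top hXt)) (hNi i)
      have h11 : ∫⁻ p, (∫⁻ s, f i (S.Q (p, s))) ^ 2 =
          (N2 volume (fun p => ∫⁻ s, f i (S.Q (p, s)))) ^ 2 := by
        unfold N2; rw [rpow_sq]
      rw [h11]
      exact ENNReal.pow_ne_top h10
    filter_upwards [ae_lt_top ((mL i).pow_const 2) h8] with p hp
    intro hp'
    rw [hp'] at hp
    simp at hp
  -- integrability on lines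
  have hQp : ∀ p : E m, Measurable (fun s : ℝ => S.Q (p, s)) := fun p =>
    hQm.comp measurable_prodMk_left
  have hint : ∀ (F : E (m + 1) → ℝ), StronglyMeasurable F → (∀ y, 0 ≤ F y) → ∀ p : E m,
      ∫⁻ s, ENNReal.ofReal (F (S.Q (p, s))) ≠ ⊤ → Integrable (fun s : ℝ => F (S.Q (p, s))) := by
    intro F hF hF0 p hp
    refine ⟨(hF.comp_measurable (hQp p)).aestronglyMeasurable, ?_⟩
    rw [hasFiniteIntegral_iff_ofReal (Eventually.of_forall fun s => hF0 _)]
    exact lt_top_iff_ne_top.2 hp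
  have hline : ∀ᵐ p : E m, ENNReal.ofReal a₀ * ∫⁻ s, f0 (S.Q (p, s)) ≤
      Y p + ∑ i, ENNReal.ofReal |a i| * ∫⁻ s, f i (S.Q (p, s)) := by
    filter_upwards [hae0, ae_all_iff.2 haei] with p hp0 hpi
    have h7 := line a₀ a (by linarith) (fun s => vsm ρ δ μ (S.Q (p, s)))
      (fun i s => vsm ρ (fun y => t i * δ y) μ (S.Q (p, s)))
      (fun s => vsm_nn hρ hδp μ _) (fun i s => vsm_nn hρ (hδip i) μ _)
      (hint _ sm0 (fun y => vsm_nn hρ hδp μ _) p hp0)
      (fun i => hint _ (smi i) (fun y => vsm_nn hρ (hδip i) μ _) p (hpi i))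
    have h8 : ∀ s, a₀ * vsm ρ δ μ (S.Q (p, s)) +
        ∑ i, a i * vsm ρ (fun y => t i * δ y) μ (S.Q (p, s)) =
        vsm (comb ρ a₀ a t) δ μ (S.Q (p, s)) := fun s => (hcomb _).symm
    simp only [h8] at h7
    exact h7
  -- Minkowski
  have hmink : ENNReal.ofReal (b / 2) * X ≤ N2 volume Y +
      ENNReal.ofReal (b / (4 * C₁ * 3 ^ (m + 1) * (κ + 1))) *
        (ENNReal.ofReal (C₁ * 3 ^ (m + 1)) * ENNReal.ofReal κ) * X := by
    calc ENNReal.ofReal (b / 2) * X = ENNReal.ofReal (1 / 2) * (ENNReal.ofReal b * X) := by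
          rw [← mul_assoc, ← ENNReal.ofReal_mul (by norm_num)]
          congr 2
          ring
      _ ≤ ENNReal.ofReal a₀ * N2 volume (fun p => ∫⁻ s, f0 (S.Q (p, s))) := by
          gcongr
      _ = N2 volume (fun p => ENNReal.ofReal a₀ * ∫⁻ s, f0 (S.Q (p, s))) :=
          (N2_mul _ ENNReal.ofReal_ne_top _).symm
      _ ≤ N2 volume (fun p => Y p + ∑ i, ENNReal.ofReal |a i| * ∫⁻ s, f i (S.Q (p, s))) :=
          N2_mono hline
      _ ≤ N2 volume Y + N2 volume (fun p => ∑ i, ENNReal.ofReal |a i| *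
            ∫⁻ s, f i (S.Q (p, s))) :=
          N2_add mY.aemeasurable
            (Finset.measurable_sum _ fun i _ => (mL i).const_mul _).aemeasurable
      _ ≤ N2 volume Y + ∑ i, N2 volume (fun p => ENNReal.ofReal |a i| *
            ∫⁻ s, f i (S.Q (p, s))) := by
          gcongr
          exact N2_sum _ _ fun i => (mL i).const_mul _
      _ ≤ N2 volume Y + ∑ i, ENNReal.ofReal |a i| *
            (ENNReal.ofReal (C₁ * 3 ^ (m + 1)) * (ENNReal.ofReal κ * X)) := by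
          gcongr with i _
          rw [N2_mul _ ENNReal.ofReal_ne_top]
          gcongr
          exact hNi i
      _ = N2 volume Y + ENNReal.ofReal (∑ i, |a i|) *
            (ENNReal.ofReal (C₁ * 3 ^ (m + 1)) * (ENNReal.ofReal κ * X)) := by
          rw [← Finset.sum_mul, ENNReal.ofReal_sum_of_nonneg fun i _ => abs_nonneg _]
      _ ≤ _ := by
          rw [← mul_assoc (ENNReal.ofReal (C₁ * 3 ^ (m + 1))), ← mul_assoc]
          gcongr
  have hq : ENNReal.ofReal (b / (4 * C₁ * 3 ^ (m + 1) * (κ + 1))) *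
        (ENNReal.ofReal (C₁ * 3 ^ (m + 1)) * ENNReal.ofReal κ) ≤ ENNReal.ofReal (b / 4) := by
    rw [← ENNReal.ofReal_mul (by positivity), ← ENNReal.ofReal_mul (by positivity)]
    apply ENNReal.ofReal_le_ofReal
    have h7 : b / (4 * C₁ * 3 ^ (m + 1) * (κ + 1)) * (C₁ * 3 ^ (m + 1) * κ) =
        b / 4 * (κ / (κ + 1)) := by
      field_simp
    rw [h7]
    have h8 : κ / (κ + 1) ≤ 1 := by
      rw [div_le_one (by linarith)]; linarith
    have h9 : 0 < b / 4 := by linarith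
    nlinarith
  have hfin := absorb hXt hb0 hq hmink
  calc J S (Av D μ (ε₀ / 4)) = X ^ 2 := by rw [hX, rpow_sq]
    _ ≤ (ENNReal.ofReal (4 / b) * N2 volume Y) ^ 2 := by gcongr
    _ = (ENNReal.ofReal (4 / b)) ^ 2 * ∫⁻ p, Y p ^ 2 := by
      rw [mul_pow]
      unfold N2
      rw [rpow_sq]

end Pool.Agent.CEL
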