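import Pool.Agent.CEL.Stmts

/-!
# CEL: module MNB, the upper bound
-/

set_option autoImplicit false
open Topology Filter MeasureTheory Matrix Metric
open scoped ENNReal

namespace Pool.Agent.CEL

namespace MNB_

lemma sq3 (a b c : ℝ≥0∞) : (a + b + c) ^ 2 ≤ 3 * (a ^ 2 + b ^ 2 + c ^ 2) := by
  rcases eq_or_ne a ⊤ with rfl | ha
  · simp
  rcases eq_or_ne b ⊤ with rfl | hb
  · simp
  rcases eq_or_ne c ⊤ with rfl | hc
  · simp
  lift a to NNReal using ha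
  lift b to NNReal using hb
  lift c to NNReal using hc
  have h : (a + b + c) ^ 2 ≤ 3 * (a ^ 2 + b ^ 2 + c ^ 2) := by
    rw [← NNReal.coe_le_coe]
    push_cast
    nlinarith [sq_nonneg ((a : ℝ) - b), sq_nonneg ((b : ℝ) - c), sq_nonneg ((a : ℝ) - c)]
  exact_mod_cast h

lemma half_sq (x : ℝ≥0∞) : (x ^ (1 / 2 : ℝ)) ^ 2 = x := by
  rw [← ENNReal.rpow_natCast, ← ENNReal.rpow_mul]
  norm_num

lemma J3 {m : ℕ} (hJ : Stmt_BSJ) (S : Slice m) (f g h : E (m + 1) → ℝ≥0∞) (hf : Measurable f)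
    (hg : Measurable g) (hh : Measurable h) :
    J S (fun y => f y + g y + h y) ≤ 3 * (J S f + J S g + J S h) := by
  have h1 := (hJ m S (fun y => f y + g y) h (hf.add hg) hh).1
  have h2 := (hJ m S f g hf hg).1
  have h3 : (J S (fun y => f y + g y + h y)) ^ (1 / 2 : ℝ) ≤
      (J S f) ^ (1 / 2 : ℝ) + (J S g) ^ (1 / 2 : ℝ) + (J S h) ^ (1 / 2 : ℝ) :=
    h1.trans (add_le_add_left h2 _)
  calc J S (fun y => f y + g y + h y)
      = ((J S (fun y => f y + g y + h y)) ^ (1 / 2 : ℝ)) ^ 2 := (half_sq _).symm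
    _ ≤ ((J S f) ^ (1 / 2 : ℝ) + (J S g) ^ (1 / 2 : ℝ) + (J S h) ^ (1 / 2 : ℝ)) ^ 2 :=
        pow_le_pow_left' h3 2
    _ ≤ _ := by
        refine (sq3 _ _ _).trans ?_
        rw [half_sq, half_sq, half_sq]

lemma Av_meas {m : ℕ} (hM : Stmt_BSM) {D : E (m + 1) → ℝ} (hD : Continuous D)
    (ν : Measure (E (m + 1))) [IsFiniteMeasure ν] (s : ℝ) : Measurable (Av D ν s) := by
  unfold Av
  refine Measurable.div ?_ ?_
  · exact (hM (m + 1) ν (fun y => s * D y) (continuous_const.mul hD)).1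
  · exact (((continuous_const.mul hD).pow (m + 1)).measurable).ennreal_ofReal

end MNB_

open MNB_

theorem mnb_proof (h1 : Stmt_CPA) (h2 : Stmt_CPB) (h3 : Stmt_FAR) (h4 : Stmt_BSJ)
    (h5 : Stmt_BSM) (h6 : Stmt_BSA) : Stmt_MNB := by
  intro m T₀ C₂ hT hC₂
  obtain ⟨CA, hCA, hcpa⟩ := h1 m
  set c : ℝ≥0∞ := ENNReal.ofReal C₂ * ENNReal.ofReal ((4 * T₀) ^ (m + 1)) with hc
  have hctop : c ^ 2 ≠ ⊤ :=
    ENNReal.pow_ne_top (ENNReal.mul_ne_top ENNReal.ofReal_ne_top ENNReal.ofReal_ne_top)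
  refine ⟨c ^ 2 * 3 * CA, ENNReal.mul_ne_top (ENNReal.mul_ne_top hctop (by simp)) hCA, ?_⟩
  intro ε₀ hε₀ hTε
  have hT0 : 0 < T₀ := by linarith
  have ha : 0 < ε₀ / 4 := by positivity
  have hTe : ε₀ ≤ T₀ * ε₀ := by nlinarith
  have hb : 0 < 2 * T₀ * ε₀ := by positivity
  have hab : ε₀ / 4 ≤ 2 * T₀ * ε₀ := by nlinarith
  obtain ⟨CB, hCB, hcpb⟩ := h2 m (ε₀ / 4) ha
  refine ⟨c ^ 2 * 3 * CB, ENNReal.mul_ne_top (ENNReal.mul_ne_top hctop (by simp)) hCB, ?_⟩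
  intro Ru R M hR
  obtain ⟨CF, hCF, hfar⟩ := (h3 m).1 Ru R (2 * T₀ * ε₀) M hR hb hTε
  refine ⟨c ^ 2 * 3 * CF, ENNReal.mul_ne_top (ENNReal.mul_ne_top hctop (by simp)) hCF, ?_⟩
  intro S I D Ds hD hI hDs μ τ _ _ hμM hτM hτR η hη hball F hF hFle
  obtain ⟨hDpos, -, hDc, -⟩ := h6 (m + 1) I D hD
  set G1 : E (m + 1) → ℝ≥0∞ := Av D (τ.restrict {y | D y ≤ R / 200}) (2 * T₀ * ε₀) with hG1
  set G2 : E (m + 1) → ℝ≥0∞ := Av D (τ.restrict {y | R / 200 < D y}) (2 * T₀ * ε₀) with hG2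
  set G3 : E (m + 1) → ℝ≥0∞ := Av D μ (2 * T₀ * ε₀) with hG3
  have m1 : Measurable G1 := Av_meas h5 hDc _ _
  have m2 : Measurable G2 := Av_meas h5 hDc _ _
  have m3 : Measurable G3 := Av_meas h5 hDc _ _
  have m3' : Measurable (fun y => ENNReal.ofReal ε₀ * G3 y) := m3.const_mul _
  -- the pointwise bound
  have hpt : ∀ y, F y ≤ c * (G1 y + G2 y + ENNReal.ofReal ε₀ * G3 y) := by
    intro y
    have hDy := hDpos y
    obtain ⟨hd1, hd2⟩ := hDs y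
    have hDsp : 0 < Ds y := by linarith
    have hsub : T₀ * (ε₀ * Ds y) < 2 * T₀ * ε₀ * D y := by
      have : T₀ * (ε₀ * Ds y) = (T₀ * ε₀) * Ds y := by ring
      rw [this, show 2 * T₀ * ε₀ * D y = (T₀ * ε₀) * (2 * D y) by ring]
      exact mul_lt_mul_of_pos_left (by linarith) (by positivity)
    have e1 : τ (ball y (T₀ * (ε₀ * Ds y))) ≤ τ (ball y (2 * T₀ * ε₀ * D y)) :=
      measure_mono (ball_subset_ball hsub.le)
    have e2 : μ (closedBall y (T₀ * (ε₀ * Ds y))) ≤ μ (ball y (2 * T₀ * ε₀ * D y)) :=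
      measure_mono (closedBall_subset_ball hsub)
    have hbD : 0 < 2 * T₀ * ε₀ * D y := by positivity
    have e3 : ENNReal.ofReal (((ε₀ * Ds y) ^ (m + 1))⁻¹) ≤
        ENNReal.ofReal ((4 * T₀) ^ (m + 1)) *
          (ENNReal.ofReal ((2 * T₀ * ε₀ * D y) ^ (m + 1)))⁻¹ := by
      rw [← ENNReal.ofReal_inv_of_pos (pow_pos hbD _), ← ENNReal.ofReal_mul (by positivity)]
      refine ENNReal.ofReal_le_ofReal ?_
      rw [← div_eq_mul_inv, ← div_pow, ← inv_pow]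
      refine pow_le_pow_left₀ (by positivity) ?_ _
      rw [inv_eq_one_div, div_le_div_iff₀ (by positivity) hbD]
      nlinarith [mul_pos hT0 hε₀, mul_le_mul_of_nonneg_left hd1 (mul_pos hT0 hε₀).le]
    have e4 : τ (ball y (2 * T₀ * ε₀ * D y)) =
        (τ.restrict {y | D y ≤ R / 200}) (ball y (2 * T₀ * ε₀ * D y)) +
          (τ.restrict {y | R / 200 < D y}) (ball y (2 * T₀ * ε₀ * D y)) := by
      rw [Measure.restrict_apply measurableSet_ball, Measure.restrict_apply measurableSet_ball]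
      have hms : MeasurableSet {y | D y ≤ R / 200} := measurableSet_le hDc.measurable
        measurable_const
      have hcompl : {y | R / 200 < D y} = {y | D y ≤ R / 200}ᶜ := by
        ext z
        simp
      rw [hcompl, ← Set.diff_eq]
      exact (measure_inter_add_diff _ hms).symm
    have hsum : G1 y + G2 y + ENNReal.ofReal ε₀ * G3 y =
        (ENNReal.ofReal ((2 * T₀ * ε₀ * D y) ^ (m + 1)))⁻¹ *
          (τ (ball y (2 * T₀ * ε₀ * D y)) +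
            ENNReal.ofReal ε₀ * μ (ball y (2 * T₀ * ε₀ * D y))) := by
      rw [e4, hG1, hG2, hG3]
      unfold Av
      simp only [ENNReal.div_eq_inv_mul]
      ring
    calc F y ≤ _ := hFle y
      _ ≤ ENNReal.ofReal C₂ * (ENNReal.ofReal ((4 * T₀) ^ (m + 1)) *
          (ENNReal.ofReal ((2 * T₀ * ε₀ * D y) ^ (m + 1)))⁻¹) *
          (τ (ball y (2 * T₀ * ε₀ * D y)) +
            ENNReal.ofReal ε₀ * μ (ball y (2 * T₀ * ε₀ * D y))) := by
          refine mul_le_mul' (mul_le_mul' le_rfl e3) (add_le_add e1 (mul_le_mul' le_rfl e2))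
      _ = _ := by
          rw [hsum, hc]
          ring
  have hG : Measurable (fun y => G1 y + G2 y + ENNReal.ofReal ε₀ * G3 y) :=
    (m1.add m2).add m3'
  have hJF : J S F ≤ c ^ 2 * J S (fun y => G1 y + G2 y + ENNReal.ofReal ε₀ * G3 y) := by
    have k1 := (h4 m S F (fun y => c * (G1 y + G2 y + ENNReal.ofReal ε₀ * G3 y)) hF
      (hG.const_mul c)).2.2 hpt
    have k2 := (h4 m S (fun y => G1 y + G2 y + ENNReal.ofReal ε₀ * G3 y) F hG hF).2.1 c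
    rw [k2] at k1
    exact k1
  have hJ3 := J3 h4 S G1 G2 (fun y => ENNReal.ofReal ε₀ * G3 y) m1 m2 m3'
  have k1 : J S G1 ≤ CB * ENNReal.ofReal η ^ 2 * J S (Av D μ (ε₀ / 4)) :=
    hcpb S I D hD μ τ R η hR hη hball (2 * T₀ * ε₀) hab hTε
  have k2 : J S G2 ≤ CF := hfar S I D hD hI τ hτM hτR
  have k3 : J S (fun y => ENNReal.ofReal ε₀ * G3 y) ≤
      ENNReal.ofReal ε₀ ^ 2 * (CA * J S (Av D μ (ε₀ / 4))) := by
    rw [(h4 m S G3 F m3 hF).2.1 (ENNReal.ofReal ε₀)]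
    exact mul_le_mul' le_rfl (hcpa S I D hD μ (ε₀ / 4) (2 * T₀ * ε₀) ha hab (by linarith))
  calc J S F ≤ _ := hJF
    _ ≤ c ^ 2 * (3 * (CB * ENNReal.ofReal η ^ 2 * J S (Av D μ (ε₀ / 4)) + CF +
        ENNReal.ofReal ε₀ ^ 2 * (CA * J S (Av D μ (ε₀ / 4))))) := by
        refine mul_le_mul' le_rfl (hJ3.trans (mul_le_mul' le_rfl ?_))
        exact add_le_add (add_le_add k1 k2) k3
    _ = _ := by ring

end Pool.Agent.CEL
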