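import Pool.Agent.CEL.Stmts

/-!
# MOL: mollifiers with vanishing moments
-/

set_option autoImplicit false
open Topology Filter MeasureTheory Matrix Metric
open scoped ENNReal

namespace Pool.Agent.CEL

namespace MOL_

/-- The numbers lemma (Richardson extrapolation). -/
theorem numbers (ℓ : ℕ) : ∀ ε : ℝ, 0 < ε → ε ≤ 1 →
    ∃ (ι : Type) (_ : Fintype ι) (a₀ : ℝ) (a t : ι → ℝ), (∀ i, 1 ≤ t i) ∧ ∑ i, |a i| ≤ ε ∧
      a₀ + ∑ i, a i = 1 ∧ ∀ j : ℕ, 1 ≤ j → j < ℓ → a₀ + ∑ i, a i * t i ^ j = 0 := by
  induction ℓ with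
  | zero =>
    intro ε hε _
    refine ⟨Fin 0, inferInstance, 1, fun _ => 0, fun _ => 1, fun _ => le_refl _, ?_, ?_, ?_⟩
    · simpa using hε.le
    · simp
    · intro j _ hj
      omega
  | succ ℓ ih =>
    intro ε hε hε1
    obtain ⟨ι, hι, a₀, a, t, ht, hs, h1, hm⟩ := ih (ε / 4) (by linarith) (by linarith)
    rcases Nat.eq_zero_or_pos ℓ with h0 | hpos
    · refine ⟨ι, hι, a₀, a, t, ht, by linarith, h1, ?_⟩
      intro j hj1 hj2
      omega
    · set K : ℝ := 8 / ε + 2 with hK
      have hKpos : 0 < K := by positivity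
      set T : ℝ := 1 + K with hT
      have hT1 : 1 ≤ T := by linarith
      have hTl : T ≤ T ^ ℓ := by
        calc T = T ^ 1 := (pow_one T).symm
          _ ≤ T ^ ℓ := pow_le_pow_right₀ hT1 hpos
      have hTK : K ≤ T ^ ℓ - 1 := by linarith
      have hTp : 0 < T ^ ℓ - 1 := by linarith
      set lam : ℝ := 1 / (T ^ ℓ - 1) with hlam
      have hlampos : 0 < lam := by positivity
      have hlamK : lam ≤ 1 / K := by
        rw [hlam]
        exact one_div_le_one_div_of_le hKpos hTK
      have hK8 : 1 / K ≤ ε / 8 := by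
        rw [div_le_div_iff₀ hKpos (by norm_num)]
        have : ε * K = 8 + 2 * ε := by
          rw [hK]
          field_simp
        linarith
      have hlam8 : lam ≤ ε / 8 := hlamK.trans hK8
      have hlameq : lam * (T ^ ℓ - 1) = 1 := by
        rw [hlam]
        field_simp
      refine ⟨Option (ι ⊕ ι), inferInstance, (1 + lam) * a₀,
        fun o => match o with
          | none => -lam * a₀
          | some (Sum.inl i) => (1 + lam) * a i
          | some (Sum.inr i) => -lam * a i,
        fun o => match o with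
          | none => T
          | some (Sum.inl i) => t i
          | some (Sum.inr i) => T * t i, ?_, ?_, ?_, ?_⟩
      · rintro (_ | (i | i))
        · exact hT1
        · exact ht i
        · exact one_le_mul_of_one_le_of_one_le hT1 (ht i)
      · rw [Fintype.sum_option, Fintype.sum_sum_type]
        have e1 : ∑ i, |(1 + lam) * a i| = (1 + lam) * ∑ i, |a i| := by
          rw [Finset.mul_sum]
          refine Finset.sum_congr rfl fun i _ => ?_
          rw [abs_mul, abs_of_pos (by linarith)]
        have e2 : ∑ i, |-lam * a i| = lam * ∑ i, |a i| := by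
          rw [Finset.mul_sum]
          refine Finset.sum_congr rfl fun i _ => ?_
          rw [abs_mul, abs_neg, abs_of_pos hlampos]
        have e3 : |-lam * a₀| = lam * |a₀| := by
          rw [abs_mul, abs_neg, abs_of_pos hlampos]
        have ha0 : |a₀| ≤ 1 + ε / 4 := by
          have h2 : a₀ = 1 - ∑ i, a i := by linarith
          have h3 : |∑ i, a i| ≤ ∑ i, |a i| := Finset.abs_sum_le_sum_abs _ _
          rw [h2]
          calc |1 - ∑ i, a i| ≤ |(1 : ℝ)| + |∑ i, a i| := abs_sub _ _
            _ ≤ 1 + ε / 4 := by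
              rw [abs_one]
              linarith
        have hsn : 0 ≤ ∑ i, |a i| := Finset.sum_nonneg fun i _ => abs_nonneg _
        show |-lam * a₀| + (∑ i, |(1 + lam) * a i| + ∑ i, |-lam * a i|) ≤ ε
        rw [e1, e2, e3]
        have f1 : lam * |a₀| ≤ (ε / 8) * (1 + ε / 4) :=
          mul_le_mul hlam8 ha0 (abs_nonneg _) (by linarith)
        have f2 : (1 + lam) * ∑ i, |a i| ≤ (1 + ε / 8) * (ε / 4) :=
          mul_le_mul (by linarith) hs hsn (by linarith)
        have f3 : lam * ∑ i, |a i| ≤ (ε / 8) * (ε / 4) :=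
          mul_le_mul hlam8 hs hsn (by linarith)
        nlinarith [mul_nonneg hε.le hε.le]
      · rw [Fintype.sum_option, Fintype.sum_sum_type]
        have e1 : ∑ i, (1 + lam) * a i = (1 + lam) * ∑ i, a i := (Finset.mul_sum _ _ _).symm
        have e2 : ∑ i, -lam * a i = -lam * ∑ i, a i := (Finset.mul_sum _ _ _).symm
        show (1 + lam) * a₀ + (-lam * a₀ + (∑ i, (1 + lam) * a i + ∑ i, -lam * a i)) = 1
        rw [e1, e2]
        linear_combination h1
      · intro j hj1 hj2
        rw [Fintype.sum_option, Fintype.sum_sum_type]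
        have e1 : ∑ i, (1 + lam) * a i * t i ^ j = (1 + lam) * ∑ i, a i * t i ^ j := by
          rw [Finset.mul_sum]
          exact Finset.sum_congr rfl fun i _ => by ring
        have e2 : ∑ i, -lam * a i * (T * t i) ^ j = -lam * T ^ j * ∑ i, a i * t i ^ j := by
          rw [Finset.mul_sum]
          refine Finset.sum_congr rfl fun i _ => ?_
          rw [mul_pow]
          ring
        show (1 + lam) * a₀ + (-lam * a₀ * T ^ j +
          (∑ i, (1 + lam) * a i * t i ^ j + ∑ i, -lam * a i * (T * t i) ^ j)) = 0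
        rw [e1, e2]
        rcases Nat.lt_or_ge j ℓ with hlt | hge
        · linear_combination (1 + lam - lam * T ^ j) * hm j hj1 hlt
        · have hj : j = ℓ := by omega
          subst hj
          linear_combination (-(a₀ + ∑ i, a i * t i ^ j)) * hlameq

variable {m : ℕ}

theorem mono_smul {n : ℕ} (β : Fin n → ℕ) (s : ℝ) (z : E n) :
    mono β (s • z) = s ^ (∑ i, β i) * mono β z := by
  unfold mono
  rw [← Finset.prod_pow_eq_pow_sum, ← Finset.prod_mul_distrib]
  refine Finset.prod_congr rfl fun i _ => ?_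
  rw [PiLp.smul_apply, smul_eq_mul, mul_pow]

theorem mono_cont {n : ℕ} (β : Fin n → ℕ) : Continuous (mono β : E n → ℝ) := by
  unfold mono
  refine continuous_finsetProd _ fun i _ => ?_
  exact (EuclideanSpace.proj (𝕜 := ℝ) i).continuous.pow _

theorem bump_exists (m : ℕ) : ∃ (ρ : E (m + 1) → ℝ) (c : ℝ), IsBump ρ c c := by
  let f : ContDiffBump (0 : E (m + 1)) := ⟨1 / 2, 1, by norm_num, by norm_num⟩
  have hpos : 0 < ∫ x, f x := f.integral_pos
  refine ⟨f.normed volume, 1 / ∫ x, f x, ?_⟩
  refine ⟨⟨f.contDiff_normed, f.hasCompactSupport_normed⟩, by positivity,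
    fun z => f.nonneg_normed z, ?_, ?_, ?_, f.integral_normed⟩
  · intro z
    rw [f.normed_def]
    exact div_le_div_of_nonneg_right f.le_one hpos.le
  · intro z hz
    rw [f.normed_def, f.one_of_mem_closedBall]
    rw [mem_closedBall, dist_zero_right]
    exact hz
  · intro z hz
    rw [f.normed_def, f.zero_of_le_dist, zero_div]
    rw [dist_zero_right]
    exact hz

theorem moment {ρ : E (m + 1) → ℝ} (hρ : TF ρ) {k : ℕ} (a₀ : ℝ) (a t : Fin k → ℝ)
    (ht : ∀ i, 1 ≤ t i) (β : Fin (m + 1) → ℕ) :
    ∫ z, comb ρ a₀ a t z * mono β z =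
      (a₀ + ∑ i, a i * t i ^ (∑ j, β j)) * ∫ z, ρ z * mono β z := by
  set g : E (m + 1) → ℝ := fun z => ρ z * mono β z with hg
  have hgi : Integrable g := by
    refine Continuous.integrable_of_hasCompactSupport ?_ ?_
    · exact hρ.1.continuous.mul (mono_cont β)
    · exact hρ.2.mul_right
  have hterm : ∀ i z, (a i * (((t i) ^ (m + 1))⁻¹ * ρ ((t i)⁻¹ • z))) * mono β z =
      (a i * (((t i) ^ (m + 1))⁻¹ * t i ^ (∑ j, β j))) * g ((t i)⁻¹ • z) := by
    intro i z
    have hti : t i ≠ 0 := by
      have := ht i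
      positivity
    have : mono β z = t i ^ (∑ j, β j) * mono β ((t i)⁻¹ • z) := by
      rw [← mono_smul, smul_inv_smul₀ hti]
    rw [hg]
    simp only
    rw [this]
    ring
  have hcomb : ∀ z, comb ρ a₀ a t z * mono β z = a₀ * g z +
      ∑ i, (a i * (((t i) ^ (m + 1))⁻¹ * t i ^ (∑ j, β j))) * g ((t i)⁻¹ • z) := by
    intro z
    unfold comb
    rw [add_mul, Finset.sum_mul]
    congr 1
    · rw [hg]
      ring
    · exact Finset.sum_congr rfl fun i _ => hterm i z
  have hgt : ∀ i, Integrable (fun z => g ((t i)⁻¹ • z)) := by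
    intro i
    have hti : (t i)⁻¹ ≠ 0 := by
      have := ht i
      positivity
    exact hgi.comp_smul hti
  have hint : ∀ i, ∫ z, g ((t i)⁻¹ • z) = t i ^ (m + 1) * ∫ z, g z := by
    intro i
    have hti : 0 < t i := lt_of_lt_of_le one_pos (ht i)
    rw [Measure.integral_comp_inv_smul, finrank_euclideanSpace, Fintype.card_fin,
      abs_of_pos (by positivity), smul_eq_mul]
  calc ∫ z, comb ρ a₀ a t z * mono β z
      = ∫ z, (a₀ * g z +
        ∑ i, (a i * (((t i) ^ (m + 1))⁻¹ * t i ^ (∑ j, β j))) * g ((t i)⁻¹ • z)) := by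
        exact integral_congr_ae (Filter.Eventually.of_forall hcomb)
    _ = a₀ * (∫ z, g z) + ∑ i, (a i * (((t i) ^ (m + 1))⁻¹ * t i ^ (∑ j, β j))) *
          (∫ z, g ((t i)⁻¹ • z)) := by
        rw [integral_add (hgi.const_mul _) (integrable_finsetSum _ fun i _ => (hgt i).const_mul _),
          integral_const_mul, integral_finsetSum _ fun i _ => (hgt i).const_mul _]
        refine congrArg₂ (· + ·) rfl (Finset.sum_congr rfl fun i _ => ?_)
        exact integral_const_mul (a i * (((t i) ^ (m + 1))⁻¹ * t i ^ (∑ j, β j)))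
          (fun z => g ((t i)⁻¹ • z))
    _ = _ := by
        rw [add_mul, Finset.sum_mul]
        refine congrArg₂ (· + ·) rfl (Finset.sum_congr rfl fun i _ => ?_)
        have hti : (t i) ^ (m + 1) ≠ 0 := by
          have := ht i
          positivity
        rw [hint i]
        field_simp

end MOL_

open MOL_ in
theorem mol_proof : Stmt_MOL := by
  intro m
  obtain ⟨ρ, c, hρ⟩ := bump_exists m
  refine ⟨ρ, c, c, hρ, ?_⟩
  intro ℓ ε hε
  obtain ⟨ι, hι, a₀, a, t, ht, hs, h1, hm⟩ := numbers ℓ (min ε (1 / 2))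
    (lt_min hε (by norm_num)) ((min_le_right _ _).trans (by norm_num))
  let e := Fintype.equivFin ι
  have hsum : ∀ f : ι → ℝ, ∑ i, f (e.symm i) = ∑ i, f i := fun f => Equiv.sum_comp e.symm f
  refine ⟨Fintype.card ι, a₀, fun i => a (e.symm i), fun i => t (e.symm i), ?_,
    fun i => ht _, ?_, ?_⟩
  · have h3 : |∑ i, a i| ≤ ∑ i, |a i| := Finset.abs_sum_le_sum_abs _ _
    have h4 := (abs_le.mp (h3.trans (hs.trans (min_le_right _ _)))).2
    linarith
  · rw [hsum (fun i => |a i|)]
    exact hs.trans (min_le_left _ _)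
  · intro β hβ
    rw [moment hρ.tf a₀ _ _ (fun i => ht _) β, hsum (fun i => a i * t i ^ (∑ j, β j))]
    by_cases hb : β = 0
    · subst hb
      have : ∑ j, (0 : Fin (m + 1) → ℕ) j = 0 := by simp
      rw [this, if_pos rfl]
      have hmono : ∀ z : E (m + 1), mono (0 : Fin (m + 1) → ℕ) z = 1 := by
        intro z
        simp [mono]
      simp only [pow_zero, mul_one, hmono]
      rw [h1, hρ.int, one_mul]
    · rw [if_neg hb]
      have hj : 1 ≤ ∑ j, β j := by
        rw [Nat.one_le_iff_ne_zero]
        intro h0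
        apply hb
        funext j
        exact (Finset.sum_eq_zero_iff.mp h0) j (Finset.mem_univ j)
      rw [hm _ hj hβ, zero_mul]

end Pool.Agent.CEL
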