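import Pool.Agent.CEL.Stmts

/-!
# CEL: NIC, the Nullstellensatz identity
-/

set_option autoImplicit false
open Topology Filter MeasureTheory Matrix Metric
open scoped ENNReal

namespace Pool.Agent.CEL

namespace NIC_

open MvPolynomial

variable {n : ℕ}

/-- real part of the homogeneous component of degree `d`. -/
noncomputable def rp (d : ℕ) (p : MvPolynomial (Fin n) ℂ) : MvPolynomial (Fin n) ℝ :=
  ∑ m ∈ p.support.filter (fun m => m.degree = d), monomial m (coeff m p).re

theorem coeff_rp (d : ℕ) (p : MvPolynomial (Fin n) ℂ) (m : Fin n →₀ ℕ) :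
    coeff m (rp d p) = if m.degree = d then (coeff m p).re else 0 := by
  classical
  rw [rp, coeff_sum]
  simp only [coeff_monomial]
  rw [Finset.sum_ite_eq']
  by_cases h1 : m.degree = d
  · by_cases h2 : coeff m p = 0
    · simp [h1, h2]
    · simp [h1, h2]
  · simp [h1]

theorem hom_rp (d : ℕ) (p : MvPolynomial (Fin n) ℂ) : (rp d p).IsHomogeneous d := by
  rw [rp]
  apply IsHomogeneous.sum
  intro m hm
  rw [Finset.mem_filter] at hm
  exact isHomogeneous_monomial _ hm.2

theorem rp_add (d : ℕ) (p q : MvPolynomial (Fin n) ℂ) : rp d (p + q) = rp d p + rp d q := by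
  ext m
  rw [coeff_add, coeff_rp, coeff_rp, coeff_rp, coeff_add]
  split_ifs
  · rw [Complex.add_re]
  · rw [add_zero]

theorem rp_zero (d : ℕ) : rp d (0 : MvPolynomial (Fin n) ℂ) = 0 := by
  ext m
  rw [coeff_rp]
  simp

theorem rp_sum {ι : Type*} (d : ℕ) (s : Finset ι) (f : ι → MvPolynomial (Fin n) ℂ) :
    rp d (∑ i ∈ s, f i) = ∑ i ∈ s, rp d (f i) := by
  classical
  induction s using Finset.induction_on with
  | empty => simp [rp_zero]
  | insert a s ha ih => rw [Finset.sum_insert ha, Finset.sum_insert ha, rp_add, ih]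

theorem rp_mul (d : ℕ) (p : MvPolynomial (Fin n) ℂ) (j : Fin n) (a : ℝ) :
    rp (d + 1) (p * (X j * C (a : ℂ))) = rp d p * (X j * C a) := by
  ext m
  have e1 : p * (X j * C (a : ℂ)) = C (a : ℂ) * (p * X j) := by ring
  have e2 : rp d p * (X j * C a) = C a * (rp d p * X j) := by ring
  rw [coeff_rp, e1, e2, coeff_C_mul, coeff_C_mul, coeff_mul_X', coeff_mul_X', coeff_rp]
  by_cases hj : j ∈ m.support
  · simp only [hj, if_true]
    have hj' : 1 ≤ m j := Nat.one_le_iff_ne_zero.2 (Finsupp.mem_support_iff.1 hj)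
    have h1 : (m - Finsupp.single j 1).degree + 1 = m.degree := by
      have h2 : (m - Finsupp.single j 1) + Finsupp.single j 1 = m :=
        tsub_add_cancel_of_le (Finsupp.single_le_iff.2 hj')
      conv_rhs => rw [← h2]
      rw [map_add, Finsupp.degree_single]
    by_cases hd : m.degree = d + 1
    · have : (m - Finsupp.single j 1).degree = d := by omega
      simp [hd, this]
    · have : (m - Finsupp.single j 1).degree ≠ d := by omega
      simp [hd, this]
  · simp [hj]

/-- the complex symbol as a matrix of polynomials. -/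
noncomputable def BC {N K : ℕ} (A : Op n N K) :
    Matrix (Fin K) (Fin N) (MvPolynomial (Fin n) ℂ) :=
  fun k i => ∑ j, X j * C ((A j k i : ℝ) : ℂ)

/-- the ideal. -/
noncomputable def JI {N K : ℕ} (A : Op n N K) : Ideal (MvPolynomial (Fin n) ℂ) where
  carrier := {p | ∃ L : Matrix (Fin N) (Fin K) (MvPolynomial (Fin n) ℂ),
    L * BC A = p • (1 : Matrix (Fin N) (Fin N) (MvPolynomial (Fin n) ℂ))}
  zero_mem' := ⟨0, by simp⟩
  add_mem' := by
    rintro p q ⟨L, hL⟩ ⟨L', hL'⟩
    exact ⟨L + L', by rw [Matrix.add_mul, hL, hL', add_smul]⟩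
  smul_mem' := by
    rintro c p ⟨L, hL⟩
    exact ⟨c • L, by rw [Matrix.smul_mul, hL, smul_smul]; rfl⟩

theorem exists_mem {N K : ℕ} (A : Op n N K) (hA : CEll A) (ξ : Fin n → ℂ) (hξ : ξ ≠ 0) :
    ∃ p ∈ JI A, eval ξ p = 1 := by
  set Bx : Matrix (Fin K) (Fin N) ℂ := ∑ j, ξ j • (A j).map (fun t : ℝ => (t : ℂ)) with hBx
  have hinj : LinearMap.ker (Matrix.mulVecLin Bx) = ⊥ := by
    rw [LinearMap.ker_eq_bot']
    intro v hv
    exact hA ξ hξ v hv
  obtain ⟨g, hg⟩ := LinearMap.exists_leftInverse_of_injective _ hinj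
  set M : Matrix (Fin N) (Fin K) ℂ := LinearMap.toMatrix' g with hM
  have hMB : M * Bx = 1 := by
    have h1 : LinearMap.toMatrix' (Matrix.mulVecLin Bx) = Bx := LinearMap.toMatrix'_toLin' Bx
    rw [hM, ← h1, ← LinearMap.toMatrix'_comp, hg, LinearMap.toMatrix'_id]
  obtain ⟨MC, hMC⟩ : ∃ MC : Matrix (Fin N) (Fin K) (MvPolynomial (Fin n) ℂ),
      ∀ i k, MC i k = C (M i k) := ⟨fun i k => C (M i k), fun i k => rfl⟩
  set Y : Matrix (Fin N) (Fin N) (MvPolynomial (Fin n) ℂ) := MC * BC A with hY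
  refine ⟨Y.det, ⟨Y.adjugate * MC, ?_⟩, ?_⟩
  · rw [Matrix.mul_assoc, ← hY, Matrix.adjugate_mul]
  · rw [RingHom.map_det]
    have h2 : (eval ξ).mapMatrix Y = M * Bx := by
      ext i i'
      rw [RingHom.mapMatrix_apply, Matrix.map_apply, hY, Matrix.mul_apply, Matrix.mul_apply,
        map_sum]
      refine Finset.sum_congr rfl fun k _ => ?_
      rw [hMC, map_mul, eval_C, hBx, Matrix.sum_apply, BC, map_sum]
      congr 1
      refine Finset.sum_congr rfl fun j _ => ?_
      rw [map_mul, eval_X, eval_C, Matrix.smul_apply, smul_eq_mul, Matrix.map_apply]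
    rw [h2, hMB, Matrix.det_one]

theorem real_id {N K : ℕ} (A : Op n N K) (d : ℕ) (β : Fin n → ℕ) (hβ : ∑ i, β i = d + 1)
    (L : Matrix (Fin N) (Fin K) (MvPolynomial (Fin n) ℂ))
    (hL : L * BC A = (∏ i, X i ^ β i : MvPolynomial (Fin n) ℂ) •
      (1 : Matrix (Fin N) (Fin N) (MvPolynomial (Fin n) ℂ)))
    (LR : Matrix (Fin N) (Fin K) (MvPolynomial (Fin n) ℝ)) (hLR : ∀ i k, LR i k = rp d (L i k)) :
    LR * (∑ j, (MvPolynomial.X j : MvPolynomial (Fin n) ℝ) •
        (A j).map MvPolynomial.C) =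
        (∏ i, (MvPolynomial.X i : MvPolynomial (Fin n) ℝ) ^ β i) •
          (1 : Matrix (Fin N) (Fin N) (MvPolynomial (Fin n) ℝ)) := by
  ext1 i i'
  have h1 := congrFun (congrFun hL i) i'
  rw [Matrix.mul_apply] at h1
  change ∑ k, LR i k * (∑ j, (MvPolynomial.X j : MvPolynomial (Fin n) ℝ) •
        (A j).map MvPolynomial.C : Matrix (Fin K) (Fin N) (MvPolynomial (Fin n) ℝ)) k i' = _
  have h2 := congrArg (rp (d + 1)) h1
  rw [rp_sum] at h2
  have h3 : ∀ k, rp (d + 1) (L i k * BC A k i') =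
      LR i k * (∑ j, (MvPolynomial.X j : MvPolynomial (Fin n) ℝ) •
        (A j).map MvPolynomial.C : Matrix (Fin K) (Fin N) (MvPolynomial (Fin n) ℝ)) k i' := by
    intro k
    rw [hLR, BC, Finset.mul_sum, rp_sum, Matrix.sum_apply, Finset.mul_sum]
    refine Finset.sum_congr rfl fun j _ => ?_
    rw [rp_mul, Matrix.smul_apply, Matrix.map_apply, smul_eq_mul]
  rw [Finset.sum_congr rfl fun k _ => h3 k] at h2
  rw [h2]
  -- the right hand side
  have hprod : ∀ (R : Type) [CommSemiring R], (∏ i, (X i : MvPolynomial (Fin n) R) ^ β i) =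
      monomial (Finsupp.equivFunOnFinite.symm β) 1 := by
    intro R _
    rw [monomial_eq, Finsupp.prod_fintype _ _ (fun i => pow_zero _)]
    simp
  rw [Matrix.smul_apply, Matrix.smul_apply, smul_eq_mul, smul_eq_mul, Matrix.one_apply,
    Matrix.one_apply, hprod ℂ, hprod ℝ]
  split_ifs with hii
  · rw [mul_one, mul_one]
    ext m
    rw [coeff_rp, coeff_monomial, coeff_monomial]
    by_cases hm : Finsupp.equivFunOnFinite.symm β = m
    · have hdeg : m.degree = d + 1 := by
        rw [← hm, Finsupp.degree_eq_sum]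
        simpa using hβ
      simp [hm, hdeg]
    · simp [hm]
  · rw [mul_zero, mul_zero, rp_zero]

end NIC_

open NIC_ MvPolynomial in
theorem nic_proof : Stmt_NIC := by
  intro n N K A hA
  have hX : ∀ k : Fin n, ∃ a : ℕ, (X k : MvPolynomial (Fin n) ℂ) ^ a ∈ JI A := by
    intro k
    have h1 : (X k : MvPolynomial (Fin n) ℂ) ∈ (JI A).radical := by
      rw [← vanishingIdeal_zeroLocus_eq_radical (K := ℂ), mem_vanishingIdeal_iff]
      intro x hx
      have hx0 : x = 0 := by
        by_contra hne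
        obtain ⟨p, hp, hpe⟩ := exists_mem A hA x hne
        have h2 := (mem_zeroLocus_iff.1 hx) p hp
        have h3 : eval x p = 0 := by
          rw [← h2, aeval_eq_eval]
        rw [hpe] at h3
        exact one_ne_zero h3
      simp [hx0]
    exact h1
  choose a ha using hX
  set b : ℕ := ∑ k, a k with hb
  have hXb : ∀ k : Fin n, (X k : MvPolynomial (Fin n) ℂ) ^ b ∈ JI A := by
    intro k
    exact Ideal.pow_mem_of_pow_mem (JI A) (ha k) (Finset.single_le_sum (fun i _ => Nat.zero_le _) (Finset.mem_univ k))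
  refine ⟨n * b + 1, Nat.le_add_left _ _, ?_⟩
  intro β hβ
  have hk : ∃ k, b ≤ β k := by
    by_contra hcon
    push Not at hcon
    have : ∑ i, β i ≤ ∑ _i : Fin n, b := Finset.sum_le_sum fun i _ => (hcon i).le
    rw [Finset.sum_const, Finset.card_univ, Fintype.card_fin, smul_eq_mul] at this
    omega
  obtain ⟨k, hk⟩ := hk
  have hmem : (∏ i, (X i : MvPolynomial (Fin n) ℂ) ^ β i) ∈ JI A := by
    refine (JI A).mem_of_dvd ?_ (hXb k)
    exact (pow_dvd_pow _ hk).trans (Finset.dvd_prod_of_mem (fun i => X i ^ β i) (Finset.mem_univ k))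
  obtain ⟨L, hL⟩ := hmem
  refine ⟨Matrix.of fun i k => rp (n * b) (L i k), fun i k => hom_rp _ _, ?_⟩
  exact real_id A (n * b) β hβ L hL _ fun i k => rfl

end Pool.Agent.CEL
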