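import Pool.Agent.CEL.Stmts

/-!
# CEL: PLA, the Plancherel inequality on slices
-/

set_option autoImplicit false
open Topology Filter MeasureTheory Matrix Metric
open scoped ENNReal FourierTransform

namespace Pool.Agent.CEL

namespace PLA_

/-! ### The slice integral -/

/-- The slice integral. -/
noncomputable def fQ {m : ℕ} (S : Slice m) (f : E (m + 1) → ℝ) (p : E m) : ℝ :=
  ∫ t, f (S.Q (p, t))

theorem fQ_contDiff {m : ℕ} (S : Slice m) (f : E (m + 1) → ℝ) (hf : TF f) :
    ContDiff ℝ (⊤ : ℕ∞) (fQ S f) := by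
  set k : Set ℝ := (fun z : E (m + 1) => -(S.Q.symm z).2) '' tsupport f with hk
  have hkc : IsCompact k := by
    apply IsCompact.image hf.2
    have : Continuous (fun z : E (m + 1) => S.Q.symm z) := S.Q.symm.continuous
    fun_prop
  set g : E m → ℝ → ℝ := fun p t => f (S.Q (p, -t)) with hg
  have hgs : ∀ p : E m, ∀ x : ℝ, p ∈ (Set.univ : Set (E m)) → x ∉ k → g p x = 0 := by
    intro p x _ hx
    by_contra hne
    apply hx
    refine ⟨S.Q (p, -x), subset_tsupport _ hne, ?_⟩
    simp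
  have hgc : ContDiffOn ℝ (⊤ : ℕ∞) (Function.uncurry g) (Set.univ ×ˢ Set.univ) := by
    rw [Set.univ_prod_univ, contDiffOn_univ]
    have h1 : ContDiff ℝ (⊤ : ℕ∞) (fun q : E m × ℝ => S.Q (q.1, -q.2)) := by
      have h2 : ContDiff ℝ (⊤ : ℕ∞) (fun q : E m × ℝ => (q.1, -q.2)) :=
        contDiff_fst.prodMk contDiff_snd.neg
      exact S.Q.contDiff.comp h2
    exact hf.1.comp h1
  have h := contDiffOn_convolution_right_with_param_comp (ContinuousLinearMap.mul ℝ ℝ)
    (μ := (volume : Measure ℝ)) (s := (Set.univ : Set (E m))) (v := fun _ => (0 : ℝ))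
    (f := fun _ => (1 : ℝ)) (g := g) (k := k) contDiffOn_const isOpen_univ hkc hgs
    (continuous_const.locallyIntegrable) hgc
  rw [contDiffOn_univ] at h
  have he : fQ S f = fun x => convolution (fun _ => (1 : ℝ)) (g x)
      (ContinuousLinearMap.mul ℝ ℝ) volume 0 := by
    funext x
    simp [convolution, fQ, hg]
  rw [he]
  exact h

theorem fQ_supp {m : ℕ} (S : Slice m) (f : E (m + 1) → ℝ) (hf : TF f) :
    HasCompactSupport (fQ S f) := by
  have hkc : IsCompact ((fun z : E (m + 1) => (S.Q.symm z).1) '' tsupport f) := by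
    apply IsCompact.image hf.2
    have : Continuous (fun z : E (m + 1) => S.Q.symm z) := S.Q.symm.continuous
    fun_prop
  apply HasCompactSupport.intro hkc
  intro p hp
  unfold fQ
  have : ∀ t : ℝ, f (S.Q (p, t)) = 0 := by
    intro t
    by_contra hne
    apply hp
    refine ⟨S.Q (p, t), subset_tsupport _ hne, ?_⟩
    simp
  simp [this]

/-- The complexification. -/
noncomputable def cx {m : ℕ} (h : E m → ℝ) (p : E m) : ℂ := (h p : ℂ)

/-! ### Plancherel -/

theorem plancherel {m : ℕ} (h : E m → ℝ) (h1 : ContDiff ℝ (⊤ : ℕ∞) h) (h2 : HasCompactSupport h) :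
    ∫⁻ x, ‖𝓕 (cx h) x‖ₑ ^ 2 = ∫⁻ p, ‖h p‖ₑ ^ 2 := by
  have c1 : ContDiff ℝ (⊤ : ℕ∞) (cx h) := Complex.ofRealCLM.contDiff.comp h1
  have c2 : HasCompactSupport (cx h) := h2.comp_left (g := fun t : ℝ => (t : ℂ)) (by simp)
  set F : SchwartzMap (E m) ℂ := c2.toSchwartzMap c1 with hF
  have hFc : (F : E m → ℂ) = cx h := rfl
  have key : ∀ G : SchwartzMap (E m) ℂ,
      ∫⁻ x, ‖G x‖ₑ ^ 2 = ENNReal.ofReal (∫ x, ‖G x‖ ^ 2) := by
    intro G
    rw [ofReal_integral_eq_lintegral_ofReal
      ((G.memLp 2 volume).integrable_norm_pow (p := 2) (by norm_num))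
      (ae_of_all _ fun x => by positivity)]
    apply lintegral_congr
    intro x
    rw [ENNReal.ofReal_pow (norm_nonneg _), ofReal_norm]
  have e1 := key (𝓕 F)
  have e2 := key F
  rw [SchwartzMap.integral_norm_sq_fourier] at e1
  rw [← e2] at e1
  have e3 : ∀ x, (𝓕 F) x = 𝓕 (cx h) x := by
    intro x
    rw [SchwartzMap.fourier_coe, hFc]
  simp only [e3] at e1
  rw [e1]
  apply lintegral_congr
  intro p
  have : F p = cx h p := by rw [← hFc]
  rw [this]
  unfold cx
  rw [← ofReal_norm, ← ofReal_norm, Complex.norm_real]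

/-! ### The Fourier transform of a slice integral -/

theorem meas_emb {m : ℕ} (S : Slice m) : MeasurableEmbedding S.Q :=
  S.Q.toHomeomorph.measurableEmbedding

theorem fourier_slice {m : ℕ} (S : Slice m) (f : E (m + 1) → ℝ) (hf : TF f) (x : E m) (α : ℝ) :
    (Complex.exp ((α : ℂ) * Complex.I) * 𝓕 (cx (fQ S f)) x).re =
      ∫ z, Real.cos (α - 2 * Real.pi * inner ℝ (S.Q.symm z).1 x) * f z := by
  set G : E (m + 1) → ℂ := fun z =>
    Complex.exp (((-2 * Real.pi * inner ℝ (S.Q.symm z).1 x : ℝ) : ℂ) * Complex.I) * (f z : ℂ)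
    with hG
  have hcont : Continuous (fun z : E (m + 1) => S.Q.symm z) := S.Q.symm.continuous
  have hfc : Continuous f := hf.1.continuous
  have hGc : Continuous G := by
    rw [hG]
    have h1 : Continuous (fun z : E (m + 1) => (inner ℝ (S.Q.symm z).1 x : ℝ)) := by fun_prop
    fun_prop
  have hGs : HasCompactSupport G := by
    have h1 : HasCompactSupport (fun z => (f z : ℂ)) :=
      hf.2.comp_left (g := fun t : ℝ => (t : ℂ)) (by simp)
    exact h1.mul_left
  have hGi : Integrable G := hGc.integrable_of_hasCompactSupport hGs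
  have hGQ : Integrable (fun q : E m × ℝ => G (S.Q q)) :=
    (S.mp.integrable_comp_emb (meas_emb S)).2 hGi
  have e1 : 𝓕 (cx (fQ S f)) x = ∫ z, G z := by
    rw [Real.fourier_eq', ← S.mp.integral_comp (meas_emb S) G]
    rw [Measure.volume_eq_prod] at hGQ ⊢
    rw [integral_prod _ hGQ]
    apply integral_congr_ae
    refine ae_of_all _ fun p => ?_
    simp only [cx, fQ, smul_eq_mul]
    rw [← integral_complex_ofReal, ← integral_const_mul]
    apply integral_congr_ae
    refine ae_of_all _ fun t => ?_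
    simp only [hG, ContinuousLinearEquiv.symm_apply_apply]
  rw [e1, ← integral_const_mul]
  have e2 := Complex.reCLM.integral_comp_comm (μ := (volume : Measure (E (m + 1))))
    (φ := fun z => Complex.exp ((α : ℂ) * Complex.I) * G z) (hGi.const_mul _)
  simp only [Complex.reCLM_apply] at e2
  rw [← e2]
  apply integral_congr_ae
  refine ae_of_all _ fun z => ?_
  simp only [hG]
  rw [← mul_assoc, ← Complex.exp_add]
  have e3 : (α : ℂ) * Complex.I + ((-2 * Real.pi * inner ℝ (S.Q.symm z).1 x : ℝ) : ℂ) * Complex.I =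
      ((α - 2 * Real.pi * inner ℝ (S.Q.symm z).1 x : ℝ) : ℂ) * Complex.I := by
    push_cast; ring
  rw [e3, Complex.re_mul_ofReal, Complex.exp_ofReal_mul_I_re]

/-! ### Integration by parts -/

/-- The frequency. -/
noncomputable def fr {m : ℕ} (S : Slice m) (x : E m) : E (m + 1) →L[ℝ] ℝ :=
  (innerSL ℝ x).comp ((ContinuousLinearMap.fst ℝ (E m) ℝ).comp
    (S.Q.symm : E (m + 1) →L[ℝ] (E m × ℝ)))

theorem fr_apply {m : ℕ} (S : Slice m) (x : E m) (z : E (m + 1)) :
    fr S x z = inner ℝ (S.Q.symm z).1 x := by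
  rw [real_inner_comm]
  rfl

/-- The frequency as a vector. -/
noncomputable def xi {m : ℕ} (S : Slice m) (x : E m) : E (m + 1) :=
  (InnerProductSpace.toDual ℝ (E (m + 1))).symm (fr S x)

theorem xi_inner {m : ℕ} (S : Slice m) (x : E m) (z : E (m + 1)) :
    inner ℝ (xi S x) z = fr S x z := by
  unfold xi
  rw [InnerProductSpace.toDual_symm_apply]

theorem xi_coord {m : ℕ} (S : Slice m) (x : E m) (j : Fin (m + 1)) :
    (xi S x) j = fr S x (bs j) := by
  rw [← xi_inner]
  simp [bs, EuclideanSpace.inner_single_right]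

theorem xi_dir {m : ℕ} (S : Slice m) (x : E m) : inner ℝ (xi S x) S.dir = 0 := by
  rw [xi_inner, fr_apply]
  simp [Slice.dir]

theorem parts {m : ℕ} (S : Slice m) (x : E m) (α : ℝ) (f : E (m + 1) → ℝ) (hf : TF f)
    (j : Fin (m + 1)) :
    ∫ z, Real.cos (α - 2 * Real.pi * fr S x z) * fderiv ℝ f z (bs j) =
      (xi S x) j * (-(2 * Real.pi) * ∫ z, Real.sin (α - 2 * Real.pi * fr S x z) * f z) := by
  set g : E (m + 1) → ℝ := fun z => Real.cos (α - 2 * Real.pi * fr S x z) with hg
  have hgd : ∀ z, HasFDerivAt g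
      ((-Real.sin (α - 2 * Real.pi * fr S x z)) • (-((2 * Real.pi) • fr S x))) z := by
    intro z
    have h1 : HasFDerivAt (fun z => α - 2 * Real.pi * fr S x z) (-((2 * Real.pi) • fr S x)) z := by
      have h2 : HasFDerivAt (fun z => 2 * Real.pi * fr S x z) ((2 * Real.pi) • fr S x) z :=
        (fr S x).hasFDerivAt.const_mul (2 * Real.pi)
      exact h2.const_sub α
    exact h1.cos
  have hgf : ∀ z, fderiv ℝ g z (bs j) =
      2 * Real.pi * (xi S x) j * Real.sin (α - 2 * Real.pi * fr S x z) := by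
    intro z
    rw [(hgd z).fderiv, xi_coord]
    simp only [_root_.smul_apply, _root_.neg_apply, smul_eq_mul]
    ring
  have hfd : Differentiable ℝ f := hf.1.differentiable (by simp)
  have hfc : Continuous f := hf.1.continuous
  have hfc' : Continuous (fun z => fderiv ℝ f z (bs j)) :=
    (hf.1.continuous_fderiv (by simp)).clm_apply continuous_const
  have hfs' : HasCompactSupport (fun z => fderiv ℝ f z (bs j)) := hf.2.fderiv_apply ℝ (bs j)
  have hgc : Continuous g := by rw [hg]; fun_prop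
  have hsc : Continuous (fun z => Real.sin (α - 2 * Real.pi * fr S x z)) := by fun_prop
  have h := integral_mul_fderiv_eq_neg_fderiv_mul_of_integrable
    (μ := (volume : Measure (E (m + 1)))) (f := g) (g := f) (v := bs j)
    (by
      simp only [hgf]
      exact ((continuous_const.mul hsc).mul hfc).integrable_of_hasCompactSupport hf.2.mul_left)
    ((hgc.mul hfc').integrable_of_hasCompactSupport hfs'.mul_left)
    ((hgc.mul hfc).integrable_of_hasCompactSupport hf.2.mul_left)
    (fun z _ => (hgd z).differentiableAt) (fun z _ => hfd z)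
  rw [h]
  simp only [hgf]
  rw [← integral_neg, ← integral_const_mul, ← integral_const_mul]
  apply integral_congr_ae
  refine ae_of_all _ fun z => ?_
  simp only
  ring

theorem fourier_meas {m : ℕ} (h : E m → ℝ) (h1 : ContDiff ℝ (⊤ : ℕ∞) h)
    (h2 : HasCompactSupport h) : Measurable (fun x => ‖𝓕 (cx h) x‖ₑ ^ 2) := by
  have c1 : ContDiff ℝ (⊤ : ℕ∞) (cx h) := Complex.ofRealCLM.contDiff.comp h1
  have c2 : HasCompactSupport (cx h) := h2.comp_left (g := fun t : ℝ => (t : ℂ)) (by simp)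
  set F : SchwartzMap (E m) ℂ := c2.toSchwartzMap c1 with hF
  have hFc : (F : E m → ℂ) = cx h := rfl
  have e3 : (fun x => 𝓕 (cx h) x) = fun x => (𝓕 F) x := by
    funext x
    rw [SchwartzMap.fourier_coe, hFc]
  have e4 : Continuous (fun x => 𝓕 (cx h) x) := by
    rw [e3]; exact (𝓕 F).continuous
  exact (e4.measurable.enorm).pow_const 2

/-! ### The pointwise inequality -/

theorem tf_comp {n N : ℕ} (v : E n → (Fin N → ℝ)) (h1 : ContDiff ℝ (⊤ : ℕ∞) v)
    (h2 : HasCompactSupport v) (k : Fin N) : TF (fun z => v z k) :=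
  ⟨contDiff_pi.1 h1 k, h2.comp_left (g := fun u : Fin N → ℝ => u k) (by simp)⟩

theorem tf_deriv {n : ℕ} (f : E n → ℝ) (hf : TF f) (e : E n) : TF (fun z => fderiv ℝ f z e) :=
  ⟨(hf.1.fderiv_right (m := (⊤ : ℕ∞)) (by simp)).clm_apply contDiff_const,
    hf.2.fderiv_apply ℝ e⟩

theorem fderiv_comp {n N : ℕ} (v : E n → (Fin N → ℝ)) (h1 : ContDiff ℝ (⊤ : ℕ∞) v) (z e : E n)
    (k : Fin N) : (fderiv ℝ v z e) k = fderiv ℝ (fun z => v z k) z e := by
  have hd : DifferentiableAt ℝ v z := h1.differentiable (by simp) z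
  have h := hasFDerivAt_pi'.1 hd.hasFDerivAt k
  rw [h.fderiv]
  rfl

section
variable {m N K : ℕ}

/-- The right side. -/
noncomputable def bb (A : Op (m + 1) N K) (w : Fin K → ℝ) (v : E (m + 1) → (Fin N → ℝ))
    (a : E (m + 1) → ℝ) (i : Fin K) (y : E (m + 1)) : ℝ := (BD A v y - a y • w) i

theorem bb_eq (A : Op (m + 1) N K) (w : Fin K → ℝ) (v : E (m + 1) → (Fin N → ℝ))
    (h1 : ContDiff ℝ (⊤ : ℕ∞) v) (a : E (m + 1) → ℝ) (i : Fin K) (y : E (m + 1)) :
    bb A w v a i y = (∑ j, ∑ k, A j i k * fderiv ℝ (fun z => v z k) y (bs j)) - w i * a y := by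
  unfold bb BD
  rw [Pi.sub_apply, Finset.sum_apply, Pi.smul_apply, smul_eq_mul, mul_comm (a y)]
  congr 1
  apply Finset.sum_congr rfl
  intro j _
  rw [Matrix.mulVec, dotProduct]
  apply Finset.sum_congr rfl
  intro k _
  rw [fderiv_comp v h1]

theorem bb_tf (A : Op (m + 1) N K) (w : Fin K → ℝ) (v : E (m + 1) → (Fin N → ℝ))
    (h1 : ContDiff ℝ (⊤ : ℕ∞) v) (h2 : HasCompactSupport v) (a : E (m + 1) → ℝ) (ha : TF a)
    (i : Fin K) : TF (bb A w v a i) := by
  have he : bb A w v a i = fun y =>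
      (∑ j, ∑ k, A j i k * fderiv ℝ (fun z => v z k) y (bs j)) - w i * a y := by
    funext y
    exact bb_eq A w v h1 a i y
  constructor
  · rw [he]
    apply ContDiff.sub
    · apply ContDiff.sum
      intro j _
      apply ContDiff.sum
      intro k _
      exact contDiff_const.mul (tf_deriv _ (tf_comp v h1 h2 k) (bs j)).1
    · exact contDiff_const.mul ha.1
  · apply HasCompactSupport.intro (K := tsupport v ∪ tsupport a)
      (IsCompact.union h2 ha.2)
    intro y hy
    rw [Set.mem_union, not_or] at hy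
    rw [bb_eq A w v h1 a i y]
    have ha0 : a y = 0 := image_eq_zero_of_notMem_tsupport hy.2
    have hv0 : ∀ (j : Fin (m + 1)) (k : Fin N), fderiv ℝ (fun z => v z k) y (bs j) = 0 := by
      intro j k
      have h3 : y ∉ tsupport (fun z => v z k) := by
        intro h4
        apply hy.1
        exact closure_mono (fun z hz => by
          intro h5
          apply hz
          show v z k = 0
          rw [h5]; rfl) h4
      have h5 : fderiv ℝ (fun z => v z k) y = 0 := by
        have h6 : y ∉ tsupport (fderiv ℝ (fun z => v z k)) := fun h7 =>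
          h3 (tsupport_fderiv_subset ℝ h7)
        exact image_eq_zero_of_notMem_tsupport h6
      rw [h5]; rfl
    simp [hv0, ha0]

theorem pointwise (A : Op (m + 1) N K) (S : Slice m) (w : Fin K → ℝ) (c : ℝ) (hc : 0 < c)
    (hE : Ell A w S.dir c) (v : E (m + 1) → (Fin N → ℝ)) (a : E (m + 1) → ℝ)
    (h1 : ContDiff ℝ (⊤ : ℕ∞) v) (h2 : HasCompactSupport v) (ha : TF a) (x : E m) :
    c ^ 2 * ‖𝓕 (cx (fQ S a)) x‖ ^ 2 ≤ ∑ i, ‖𝓕 (cx (fQ S (bb A w v a i))) x‖ ^ 2 := by
  set A0 : ℂ := 𝓕 (cx (fQ S a)) x with hA0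
  rcases eq_or_ne A0 0 with h0 | h0
  · rw [h0, norm_zero]
    have : 0 ≤ ∑ i, ‖𝓕 (cx (fQ S (bb A w v a i))) x‖ ^ 2 :=
      Finset.sum_nonneg fun i _ => sq_nonneg _
    nlinarith
  have hn : 0 < ‖A0‖ := norm_pos_iff.2 h0
  set α : ℝ := -Complex.arg A0 with hα
  have hexp : Complex.exp ((α : ℂ) * Complex.I) * A0 = (‖A0‖ : ℂ) := by
    have h3 := Complex.norm_mul_exp_arg_mul_I A0
    have h4 : Complex.exp ((α : ℂ) * Complex.I) * A0 =
        Complex.exp ((α : ℂ) * Complex.I) * ((‖A0‖ : ℂ) * Complex.exp (Complex.arg A0 * Complex.I)) := by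
      rw [h3]
    rw [h4, mul_comm (‖A0‖ : ℂ), ← mul_assoc, ← Complex.exp_add, hα]
    push_cast
    rw [neg_mul, neg_add_cancel, Complex.exp_zero, one_mul]
  set I : (E (m + 1) → ℝ) → ℝ := fun f => ∫ z, Real.cos (α - 2 * Real.pi * fr S x z) * f z with hI
  have hIf : ∀ f : E (m + 1) → ℝ, TF f →
      (Complex.exp ((α : ℂ) * Complex.I) * 𝓕 (cx (fQ S f)) x).re = I f := by
    intro f hf
    rw [fourier_slice S f hf x α, hI]
    simp only [fr_apply]
  have hIa : I a = ‖A0‖ := by
    rw [← hIf a ha, ← hA0, hexp, Complex.ofReal_re]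
  have hIb : ∀ i, |I (bb A w v a i)| ≤ ‖𝓕 (cx (fQ S (bb A w v a i))) x‖ := by
    intro i
    rw [← hIf _ (bb_tf A w v h1 h2 a ha i)]
    refine (Complex.abs_re_le_norm _).trans ?_
    rw [norm_mul, Complex.norm_exp_ofReal_mul_I, one_mul]
  set V : Fin N → ℝ := fun k =>
    -(2 * Real.pi) * ∫ z, Real.sin (α - 2 * Real.pi * fr S x z) * v z k with hV
  have hcc : Continuous (fun z => Real.cos (α - 2 * Real.pi * fr S x z)) := by fun_prop
  have hint : ∀ f : E (m + 1) → ℝ, TF f →
      Integrable (fun z => Real.cos (α - 2 * Real.pi * fr S x z) * f z) := fun f hf =>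
    (hcc.mul hf.1.continuous).integrable_of_hasCompactSupport hf.2.mul_left
  have hIbv : ∀ i, I (bb A w v a i) = (sym A (xi S x) *ᵥ V) i - ‖A0‖ * w i := by
    intro i
    have h3 : I (bb A w v a i) = (∑ j, ∑ k, A j i k *
        I (fun z => fderiv ℝ (fun z => v z k) z (bs j))) - w i * I a := by
      rw [hI]
      simp only [bb_eq A w v h1 a i]
      have h4 : (fun z => Real.cos (α - 2 * Real.pi * fr S x z) *
          ((∑ j, ∑ k, A j i k * fderiv ℝ (fun z => v z k) z (bs j)) - w i * a z)) =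
          fun z => (∑ j, ∑ k, A j i k * (Real.cos (α - 2 * Real.pi * fr S x z) *
            fderiv ℝ (fun z => v z k) z (bs j))) -
            w i * (Real.cos (α - 2 * Real.pi * fr S x z) * a z) := by
        funext z
        rw [mul_sub, Finset.mul_sum]
        congr 1
        · apply Finset.sum_congr rfl
          intro j _
          rw [Finset.mul_sum]
          apply Finset.sum_congr rfl
          intro k _
          ring
        · ring
      rw [h4, integral_sub, integral_finsetSum, integral_const_mul]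
      · congr 1
        apply Finset.sum_congr rfl
        intro j _
        rw [integral_finsetSum]
        · apply Finset.sum_congr rfl
          intro k _
          rw [integral_const_mul]
        · intro k _
          exact (hint _ (tf_deriv _ (tf_comp v h1 h2 k) (bs j))).const_mul _
      · intro j _
        apply integrable_finsetSum
        intro k _
        exact (hint _ (tf_deriv _ (tf_comp v h1 h2 k) (bs j))).const_mul _
      · apply integrable_finsetSum
        intro j _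
        apply integrable_finsetSum
        intro k _
        exact (hint _ (tf_deriv _ (tf_comp v h1 h2 k) (bs j))).const_mul _
      · exact (hint _ ha).const_mul _
    rw [h3, hIa]
    have h5 : ∀ (j : Fin (m + 1)) (k : Fin N),
        I (fun z => fderiv ℝ (fun z => v z k) z (bs j)) = (xi S x) j * V k := by
      intro j k
      rw [hI, hV]
      exact parts S x α (fun z => v z k) (tf_comp v h1 h2 k) j
    simp only [h5]
    have h6 : (sym A (xi S x) *ᵥ V) i = ∑ j, ∑ k, A j i k * ((xi S x) j * V k) := by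
      unfold sym
      rw [Matrix.mulVec, dotProduct, Finset.sum_comm]
      apply Finset.sum_congr rfl
      intro k _
      rw [Matrix.sum_apply, Finset.sum_mul]
      apply Finset.sum_congr rfl
      intro j _
      rw [Matrix.smul_apply, smul_eq_mul]
      ring
    rw [h6]
    ring
  have hEl := hE (xi S x) (xi_dir S x) (‖A0‖⁻¹ • V)
  set Bv : Fin K → ℝ := fun i => I (bb A w v a i) with hBv
  have hvec : w - sym A (xi S x) *ᵥ (‖A0‖⁻¹ • V) = (-‖A0‖⁻¹) • Bv := by
    funext i
    rw [Matrix.mulVec_smul, Pi.sub_apply, Pi.smul_apply, Pi.smul_apply, hBv]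
    simp only [hIbv, smul_eq_mul]
    field_simp
    ring
  rw [hvec, norm_smul, norm_neg, norm_inv, norm_norm] at hEl
  have h7 : c * ‖A0‖ ≤ ‖Bv‖ := by
    have := mul_le_mul_of_nonneg_right hEl hn.le
    rwa [mul_comm (‖A0‖⁻¹), mul_assoc, inv_mul_cancel₀ hn.ne', mul_one] at this
  have hsum0 : 0 ≤ ∑ i, Bv i ^ 2 := Finset.sum_nonneg fun i _ => sq_nonneg _
  have h8 : ‖Bv‖ ≤ Real.sqrt (∑ i, Bv i ^ 2) := by
    rw [pi_norm_le_iff_of_nonneg (Real.sqrt_nonneg _)]
    intro i
    rw [Real.norm_eq_abs]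
    apply Real.abs_le_sqrt
    exact Finset.single_le_sum (f := fun i => Bv i ^ 2) (fun i _ => sq_nonneg _)
      (Finset.mem_univ i)
  have h9 : (c * ‖A0‖) ^ 2 ≤ ∑ i, Bv i ^ 2 := by
    have h10 : (c * ‖A0‖) ^ 2 ≤ (Real.sqrt (∑ i, Bv i ^ 2)) ^ 2 :=
      pow_le_pow_left₀ (by positivity) (h7.trans h8) 2
    rwa [Real.sq_sqrt hsum0] at h10
  calc c ^ 2 * ‖A0‖ ^ 2 = (c * ‖A0‖) ^ 2 := by ring
    _ ≤ ∑ i, Bv i ^ 2 := h9
    _ ≤ ∑ i, ‖𝓕 (cx (fQ S (bb A w v a i))) x‖ ^ 2 := by
        apply Finset.sum_le_sum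
        intro i _
        rw [← sq_abs]
        exact pow_le_pow_left₀ (abs_nonneg _) (hIb i) 2

end

end PLA_

open PLA_

theorem pla_proof : Stmt_PLA := by
  intro m N K A S w c hc hE v a h1 h2 ha
  set b : Fin K → E (m + 1) → ℝ := bb A w v a with hb
  have hbt : ∀ i, TF (b i) := fun i => bb_tf A w v h1 h2 a ha i
  have hbJ : ∀ i, ∫⁻ p, ‖fQ S (b i) p‖ₑ ^ 2 ≤ J S (fun y => ‖BD A v y - a y • w‖ₑ) := by
    intro i
    unfold J
    apply lintegral_mono
    intro p
    have h3 : ‖fQ S (b i) p‖ₑ ≤ ∫⁻ t, ‖BD A v (S.Q (p, t)) - a (S.Q (p, t)) • w‖ₑ := by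
      unfold fQ
      refine (enorm_integral_le_lintegral_enorm _).trans ?_
      apply lintegral_mono
      intro t
      simp only [hb, bb]
      rw [← ofReal_norm, ← ofReal_norm]
      exact ENNReal.ofReal_le_ofReal (norm_le_pi_norm _ i)
    exact pow_le_pow_left₀ (zero_le) h3 2
  have hmain : ENNReal.ofReal (c ^ 2) * ∫⁻ p, ‖fQ S a p‖ₑ ^ 2 ≤
      (K : ℝ≥0∞) * J S (fun y => ‖BD A v y - a y • w‖ₑ) := by
    rw [← plancherel (fQ S a) (fQ_contDiff S a ha) (fQ_supp S a ha),
      ← lintegral_const_mul _ (fourier_meas _ (fQ_contDiff S a ha) (fQ_supp S a ha))]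
    have h4 : ∀ x : E m, ENNReal.ofReal (c ^ 2) * ‖𝓕 (cx (fQ S a)) x‖ₑ ^ 2 ≤
        ∑ i, ‖𝓕 (cx (fQ S (b i))) x‖ₑ ^ 2 := by
      intro x
      have h5 := pointwise A S w c hc hE v a h1 h2 ha x
      have h6 : ∀ z : ℂ, ‖z‖ₑ ^ 2 = ENNReal.ofReal (‖z‖ ^ 2) := by
        intro z
        rw [ENNReal.ofReal_pow (norm_nonneg _), ofReal_norm]
      simp only [h6]
      rw [← ENNReal.ofReal_mul (by positivity),
        ← ENNReal.ofReal_sum_of_nonneg (fun i _ => by positivity)]
      exact ENNReal.ofReal_le_ofReal h5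
    refine (lintegral_mono h4).trans ?_
    rw [lintegral_finsetSum]
    · have h7 : ∀ i ∈ (Finset.univ : Finset (Fin K)),
          ∫⁻ x, ‖𝓕 (cx (fQ S (b i))) x‖ₑ ^ 2 ≤ J S (fun y => ‖BD A v y - a y • w‖ₑ) := by
        intro i _
        rw [plancherel _ (fQ_contDiff S _ (hbt i)) (fQ_supp S _ (hbt i))]
        exact hbJ i
      refine (Finset.sum_le_sum h7).trans ?_
      rw [Finset.sum_const, Finset.card_univ, Fintype.card_fin, nsmul_eq_mul]
    · intro i _
      exact fourier_meas _ (fQ_contDiff S _ (hbt i)) (fQ_supp S _ (hbt i))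
  have hc2 : 0 < c ^ 2 := by positivity
  have he : ENNReal.ofReal ((K : ℝ) / c ^ 2) = ENNReal.ofReal ((c ^ 2)⁻¹) * (K : ℝ≥0∞) := by
    rw [div_eq_inv_mul, ENNReal.ofReal_mul (by positivity), ENNReal.ofReal_natCast]
  rw [he, mul_assoc]
  have h8 : ∫⁻ p, ‖fQ S a p‖ₑ ^ 2 =
      ENNReal.ofReal ((c ^ 2)⁻¹) * (ENNReal.ofReal (c ^ 2) * ∫⁻ p, ‖fQ S a p‖ₑ ^ 2) := by
    rw [← mul_assoc, ← ENNReal.ofReal_mul (by positivity), inv_mul_cancel₀ hc2.ne',
      ENNReal.ofReal_one, one_mul]
  have h9 : ∫⁻ p, ‖∫ t, a (S.Q (p, t))‖ₑ ^ 2 = ∫⁻ p, ‖fQ S a p‖ₑ ^ 2 := rfl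
  rw [h9, h8]
  gcongr

end Pool.Agent.CEL
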