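import Pool.Agent.CEL.Stmts

/-!
# CEL, module PRE: the principle of Preiss
-/

set_option autoImplicit false
open Topology Filter MeasureTheory Matrix Metric
open scoped ENNReal

namespace Pool.Agent.CEL

namespace PRE_

variable {m : ℕ}

/-- The rescaled integral. -/
noncomputable def G (μ : Measure (E (m + 1))) (ψ : E (m + 1) → ℝ) (r : ℝ) (y : E (m + 1)) : ℝ :=
  (r ^ m)⁻¹ * ∫ z, ψ (r⁻¹ • (z - y)) ∂μ

theorem T_iff (μ : Measure (E (m + 1))) (x : E (m + 1)) (ψ : E (m + 1) → ℝ) (L : ℝ) :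
    T μ x ψ L ↔ Tendsto (fun r => G μ ψ r x) (𝓝[>] 0) (𝓝 L) := Iff.rfl

theorem bdd_int (μ : Measure (E (m + 1))) [IsFiniteMeasure μ] {f : E (m + 1) → ℝ}
    (hf : Continuous f) {e : ℝ} (he : ∀ z, |f z| ≤ e) : Integrable f μ :=
  (integrable_const e).mono' hf.aestronglyMeasurable (Eventually.of_forall he)

/-- Continuous with compact support. -/
def CC (ψ : E (m + 1) → ℝ) : Prop := Continuous ψ ∧ ∃ C, ∀ z, |ψ z| ≤ C

theorem TF_cc {ψ : E (m + 1) → ℝ} (h : TF ψ) : CC ψ := by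
  obtain ⟨C, hC⟩ := h.1.continuous.bounded_above_of_compact_support h.2
  exact ⟨h.1.continuous, C, hC⟩

theorem cc_sub {f g : E (m + 1) → ℝ} (hf : CC f) (hg : CC g) : CC (fun z => f z - g z) := by
  obtain ⟨hf, C, hC⟩ := hf
  obtain ⟨hg, D, hD⟩ := hg
  exact ⟨hf.sub hg, C + D, fun z => (abs_sub _ _).trans (add_le_add (hC z) (hD z))⟩

theorem cc_shift {f : E (m + 1) → ℝ} (hf : CC f) (h : E (m + 1)) : CC (fun z => f (z - h)) := by
  obtain ⟨hf, C, hC⟩ := hf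
  exact ⟨hf.comp (continuous_id.sub continuous_const), C, fun z => hC _⟩

theorem cc_int (μ : Measure (E (m + 1))) [IsFiniteMeasure μ] {f : E (m + 1) → ℝ} (hf : CC f)
    (r : ℝ) (y : E (m + 1)) : Integrable (fun z => f (r⁻¹ • (z - y))) μ := by
  obtain ⟨hf, C, hC⟩ := hf
  exact bdd_int μ (hf.comp (by fun_prop)) (fun z => hC _)

theorem G_sub (μ : Measure (E (m + 1))) [IsFiniteMeasure μ] {f g : E (m + 1) → ℝ} (hf : CC f)
    (hg : CC g) (r : ℝ) (y : E (m + 1)) :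
    G μ (fun z => f z - g z) r y = G μ f r y - G μ g r y := by
  unfold G
  rw [integral_sub (cc_int μ hf r y) (cc_int μ hg r y)]
  ring

theorem G_bound (μ : Measure (E (m + 1))) [IsFiniteMeasure μ] (x : E (m + 1)) (F : ℝ)
    (hP : ∀ r : ℝ, 0 < r → r ≤ 1 → μ (closedBall x r) ≤ ENNReal.ofReal (F * r ^ m))
    (hF : 0 ≤ F) (f : E (m + 1) → ℝ) (e : ℝ) (he : 0 ≤ e) (hfe : ∀ z, |f z| ≤ e)
    (S : ℝ) (hS : 0 < S) (hf0 : ∀ z, S < ‖z‖ → f z = 0) (r : ℝ) (hr : 0 < r) (hrS : r * S ≤ 1) :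
    |G μ f r x| ≤ e * F * S ^ m := by
  have hrS0 : 0 < r * S := mul_pos hr hS
  have h1 : ‖∫ z, f (r⁻¹ • (z - x)) ∂μ‖ ≤
      ∫ z, (closedBall x (r * S)).indicator (fun _ => e) z ∂μ := by
    refine norm_integral_le_of_norm_le ?_ (Eventually.of_forall fun z => ?_)
    · exact (integrable_const e).indicator measurableSet_closedBall
    · by_cases hz : z ∈ closedBall x (r * S)
      · rw [Set.indicator_of_mem hz]
        exact hfe _
      · rw [Set.indicator_of_notMem hz, hf0, norm_zero]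
        rw [mem_closedBall, dist_eq_norm, not_le] at hz
        rw [norm_smul, norm_inv, Real.norm_of_nonneg hr.le, inv_mul_eq_div, lt_div_iff₀ hr,
          mul_comm]
        exact hz
  rw [integral_indicator_const _ measurableSet_closedBall, smul_eq_mul] at h1
  have h2 : μ.real (closedBall x (r * S)) ≤ F * (r * S) ^ m := by
    have h3 := hP (r * S) hrS0 hrS
    have h4 := ENNReal.toReal_mono ENNReal.ofReal_ne_top h3
    rw [ENNReal.toReal_ofReal (mul_nonneg hF (pow_nonneg hrS0.le _))] at h4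
    exact h4
  have hrm : 0 < r ^ m := pow_pos hr m
  unfold G
  rw [abs_mul, abs_of_pos (inv_pos.2 hrm)]
  have h5 : |∫ z, f (r⁻¹ • (z - x)) ∂μ| ≤ F * (r * S) ^ m * e :=
    h1.trans (mul_le_mul_of_nonneg_right h2 he)
  calc (r ^ m)⁻¹ * |∫ z, f (r⁻¹ • (z - x)) ∂μ| ≤ (r ^ m)⁻¹ * (F * (r * S) ^ m * e) :=
        mul_le_mul_of_nonneg_left h5 (inv_pos.2 hrm).le
    _ = e * F * S ^ m := by
        rw [mul_pow]
        field_simp

theorem G_meas (μ : Measure (E (m + 1))) [IsFiniteMeasure μ] {ψ : E (m + 1) → ℝ}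
    (hψ : Continuous ψ) (r : ℝ) : Measurable (G μ ψ r) := by
  have h1 : StronglyMeasurable (fun p : E (m + 1) × E (m + 1) => ψ (r⁻¹ • (p.2 - p.1))) :=
    (hψ.comp (by fun_prop)).stronglyMeasurable
  have h2 : StronglyMeasurable (fun y : E (m + 1) => ∫ z, ψ (r⁻¹ • (z - y)) ∂μ) :=
    h1.integral_prod_right
  exact h2.measurable.const_mul _

/-- The dyadic radii. -/
noncomputable def rk (k : ℕ) : ℝ := (1 / 2 : ℝ) ^ k

theorem rk_pos (k : ℕ) : 0 < rk k := pow_pos (by norm_num) k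

theorem rk_tend : Tendsto rk atTop (𝓝[>] 0) :=
  tendsto_nhdsWithin_iff.2 ⟨tendsto_pow_atTop_nhds_zero_of_lt_one (by norm_num) (by norm_num),
    Eventually.of_forall rk_pos⟩

/-- The sets of points with almost constant averages. -/
def MM (μ : Measure (E (m + 1))) (ψ : E (m + 1) → ℝ) (q : ℚ) (k₀ p : ℕ) : Set (E (m + 1)) :=
  {y | ∀ k, k₀ ≤ k → |G μ ψ (rk k) y - q| ≤ 1 / ((p : ℝ) + 1)}

theorem MM_meas (μ : Measure (E (m + 1))) [IsFiniteMeasure μ] {ψ : E (m + 1) → ℝ}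
    (hψ : Continuous ψ) (q : ℚ) (k₀ p : ℕ) : MeasurableSet (MM μ ψ q k₀ p) := by
  have : MM μ ψ q k₀ p = ⋂ k, ⋂ _ : k₀ ≤ k,
      {y | |G μ ψ (rk k) y - q| ≤ 1 / ((p : ℝ) + 1)} := by
    ext y
    simp [MM]
  rw [this]
  refine MeasurableSet.iInter fun k => MeasurableSet.iInter fun _ => ?_
  exact measurableSet_le ((G_meas μ hψ _).sub_const _).abs measurable_const

/-- difference of two limits -/
theorem lim_close (μ : Measure (E (m + 1))) [IsFiniteMeasure μ] (x : E (m + 1)) (F : ℝ)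
    (hP : ∀ r : ℝ, 0 < r → r ≤ 1 → μ (closedBall x r) ≤ ENNReal.ofReal (F * r ^ m))
    (hF : 0 ≤ F) {f g : E (m + 1) → ℝ} (hf : CC f) (hg : CC g) (e : ℝ) (he : 0 ≤ e)
    (hfe : ∀ z, |f z - g z| ≤ e) (S : ℝ) (hS : 0 < S) (hf0 : ∀ z, S < ‖z‖ → f z - g z = 0)
    {L L' : ℝ} (hL : T μ x f L) (hL' : T μ x g L') : |L - L'| ≤ e * F * S ^ m := by
  rw [T_iff] at hL hL'
  have h1 := (hL.sub hL').abs
  refine le_of_tendsto h1 ?_
  have h2 : ∀ᶠ r : ℝ in 𝓝[>] 0, r < 1 / S :=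
    mem_nhdsWithin_of_mem_nhds (Iio_mem_nhds (by positivity))
  filter_upwards [h2, self_mem_nhdsWithin] with r hr hr0
  have hr0' : (0 : ℝ) < r := hr0
  have h3 : r * S ≤ 1 := by
    rw [lt_div_iff₀ hS] at hr
    exact hr.le
  rw [← G_sub μ hf hg]
  exact G_bound μ x F hP hF _ e he hfe S hS hf0 r hr0' h3

/-- the shift identity -/
theorem G_shift (μ : Measure (E (m + 1))) (ψ : E (m + 1) → ℝ) (r : ℝ) (x y : E (m + 1)) :
    G μ ψ r y = G μ (fun z => ψ (z - r⁻¹ • (y - x))) r x := by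
  unfold G
  congr 1
  refine integral_congr_ae (Eventually.of_forall fun z => ?_)
  have h : r⁻¹ • (z - y) = r⁻¹ • (z - x) - r⁻¹ • (y - x) := by
    rw [← smul_sub]
    congr 1
    abel
  simp only [h]

theorem exists_pt (μ : Measure (E (m + 1))) [IsFiniteMeasure μ] (x : E (m + 1)) (F : ℝ)
    (hP : ∀ r : ℝ, 0 < r → r ≤ 1 → μ (closedBall x r) ≤ ENNReal.ofReal (F * r ^ m))
    (hF : 0 ≤ F) (M : Set (E (m + 1)))
    (hdens : Tendsto (fun r => μ (Mᶜ ∩ closedBall x r) / μ (closedBall x r)) (𝓝[>] 0) (𝓝 0))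
    (z₀ : E (m + 1)) (ε : ℝ) (hε : 0 < ε) (hε1 : ε ≤ 1)
    (hlim : ∀ ψ : E (m + 1) → ℝ, TF ψ → ∃ L : ℝ, T μ x ψ L)
    (hz : ∀ ψ : E (m + 1) → ℝ, TF ψ → (∀ z, 0 ≤ ψ z) → 0 < ψ z₀ → ¬ T μ x ψ 0) :
    ∀ᶠ r : ℝ in 𝓝[>] 0, ∃ y ∈ M, ‖y - (x + r • z₀)‖ < ε * r := by
  obtain ⟨χ, hχi, hχo⟩ : ∃ χ : ContDiffBump z₀, χ.rIn = ε / 2 ∧ χ.rOut = ε :=
    ⟨⟨ε / 2, ε, by linarith, by linarith⟩, rfl, rfl⟩
  have hχtf : TF (χ : E (m + 1) → ℝ) := ⟨χ.contDiff, χ.hasCompactSupport⟩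
  have hχ0 : ∀ z, 0 ≤ χ z := fun z => χ.nonneg
  have hχ1 : ∀ z, χ z ≤ 1 := fun z => χ.le_one
  have hχz : χ z₀ = 1 := χ.one_of_mem_closedBall (mem_closedBall_self (by rw [hχi]; linarith))
  have hχs : ∀ z, ε ≤ ‖z - z₀‖ → χ z = 0 := fun z hz' =>
    χ.zero_of_le_dist (by rw [hχo, dist_eq_norm]; exact hz')
  obtain ⟨L, hL⟩ := hlim _ hχtf
  have hL0 : 0 ≤ L := by
    rw [T_iff] at hL
    refine ge_of_tendsto hL ?_
    filter_upwards [self_mem_nhdsWithin] with r hr0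
    have hr0' : (0 : ℝ) < r := hr0
    exact mul_nonneg (inv_nonneg.2 (pow_nonneg hr0'.le m)) (integral_nonneg fun z => hχ0 _)
  have hLne : L ≠ 0 := by
    rintro rfl
    exact hz _ hχtf hχ0 (by rw [hχz]; exact one_pos) hL
  have hLpos : 0 < L := lt_of_le_of_ne hL0 hLne.symm
  obtain ⟨S, hSd⟩ : ∃ S : ℝ, S = ‖z₀‖ + 1 := ⟨_, rfl⟩
  have hS : 0 < S := by
    rw [hSd]
    have := norm_nonneg z₀
    linarith
  -- density
  have hratio : Tendsto (fun r => (μ (Mᶜ ∩ closedBall x (r * S)) /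
      μ (closedBall x (r * S))).toReal * (F * S ^ m)) (𝓝[>] 0) (𝓝 0) := by
    have h1 : Tendsto (fun r : ℝ => r * S) (𝓝[>] 0) (𝓝[>] 0) := by
      refine tendsto_nhdsWithin_iff.2 ⟨?_, ?_⟩
      · have : Tendsto (fun r : ℝ => r * S) (𝓝 0) (𝓝 (0 * S)) := tendsto_id.mul_const S
        rw [zero_mul] at this
        exact this.mono_left nhdsWithin_le_nhds
      · filter_upwards [self_mem_nhdsWithin] with r hr0
        exact mul_pos hr0 hS
    have h2 := hdens.comp h1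
    have h3 := (ENNReal.tendsto_toReal ENNReal.zero_ne_top).comp h2
    have h4 := h3.mul_const (F * S ^ m)
    rw [ENNReal.toReal_zero, zero_mul] at h4
    exact h4
  rw [T_iff] at hL
  have e1 := hL.eventually_const_lt (show L / 2 < L by linarith)
  have e2 := hratio.eventually_lt_const (show (0 : ℝ) < L / 2 by linarith)
  have e3 : ∀ᶠ r : ℝ in 𝓝[>] 0, r < 1 / S :=
    mem_nhdsWithin_of_mem_nhds (Iio_mem_nhds (by positivity))
  filter_upwards [e1, e2, e3, self_mem_nhdsWithin] with r h1 h2 h3 hr0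
  have hr : (0 : ℝ) < r := hr0
  have hrS : r * S ≤ 1 := by
    rw [lt_div_iff₀ hS] at h3
    exact h3.le
  have hrS0 : 0 < r * S := mul_pos hr hS
  by_contra hcon
  push Not at hcon
  have hrm : 0 < r ^ m := pow_pos hr m
  -- the ball
  have hball : ∀ z, ‖r⁻¹ • (z - x) - z₀‖ < ε ↔ z ∈ ball (x + r • z₀) (ε * r) := by
    intro z
    have : r⁻¹ • (z - x) - z₀ = r⁻¹ • (z - (x + r • z₀)) := by
      rw [← sub_sub, smul_sub r⁻¹ (z - x), smul_smul, inv_mul_cancel₀ hr.ne', one_smul]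
    rw [this, norm_smul, norm_inv, Real.norm_of_nonneg hr.le, inv_mul_eq_div, div_lt_iff₀ hr,
      mem_ball, dist_eq_norm]
  have hsub : ball (x + r • z₀) (ε * r) ⊆ Mᶜ ∩ closedBall x (r * S) := by
    intro z hz'
    refine ⟨fun hzM => ?_, ?_⟩
    · have := hcon z hzM
      rw [mem_ball, dist_eq_norm] at hz'
      linarith
    · rw [mem_ball, dist_eq_norm] at hz'
      rw [mem_closedBall, dist_eq_norm]
      have e5 : z - x = (z - (x + r • z₀)) + r • z₀ := by abel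
      rw [e5]
      refine (norm_add_le _ _).trans ?_
      rw [norm_smul, Real.norm_of_nonneg hr.le, hSd]
      nlinarith
  have hG : G μ χ r x ≤ (r ^ m)⁻¹ * μ.real (ball (x + r • z₀) (ε * r)) := by
    unfold G
    refine mul_le_mul_of_nonneg_left ?_ (inv_pos.2 hrm).le
    have h5 : ∫ z, χ (r⁻¹ • (z - x)) ∂μ ≤
        ∫ z, (ball (x + r • z₀) (ε * r)).indicator (fun _ => (1 : ℝ)) z ∂μ := by
      refine integral_mono (cc_int μ (TF_cc hχtf) r x)
        ((integrable_const _).indicator measurableSet_ball) fun z => ?_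
      by_cases hz' : z ∈ ball (x + r • z₀) (ε * r)
      · simp only [Set.indicator_of_mem hz']
        exact hχ1 _
      · simp only [Set.indicator_of_notMem hz']
        rw [← hball, not_lt] at hz'
        exact (hχs _ hz').le
    rw [integral_indicator_const _ measurableSet_ball, smul_eq_mul, mul_one] at h5
    exact h5
  have hm1 : μ.real (ball (x + r • z₀) (ε * r)) ≤ μ.real (Mᶜ ∩ closedBall x (r * S)) :=
    measureReal_mono hsub
  have hm2 : μ.real (Mᶜ ∩ closedBall x (r * S)) =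
      (μ (Mᶜ ∩ closedBall x (r * S)) / μ (closedBall x (r * S))).toReal *
        μ.real (closedBall x (r * S)) := by
    rw [Measure.real, Measure.real, ← ENNReal.toReal_mul]
    by_cases h0 : μ (closedBall x (r * S)) = 0
    · have h6 : μ (Mᶜ ∩ closedBall x (r * S)) = 0 :=
        measure_mono_null Set.inter_subset_right h0
      rw [h6, h0]
      simp
    · rw [ENNReal.div_mul_cancel h0 (measure_ne_top _ _)]
  have hm3 : μ.real (closedBall x (r * S)) ≤ F * (r * S) ^ m := by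
    have h4 := ENNReal.toReal_mono ENNReal.ofReal_ne_top (hP (r * S) hrS0 hrS)
    rw [ENNReal.toReal_ofReal (mul_nonneg hF (pow_nonneg hrS0.le _))] at h4
    exact h4
  obtain ⟨ρ, hρ⟩ : ∃ ρ : ℝ, ρ = (μ (Mᶜ ∩ closedBall x (r * S)) /
    μ (closedBall x (r * S))).toReal := ⟨_, rfl⟩
  rw [← hρ] at h2 hm2
  have hρ0 : 0 ≤ ρ := by
    rw [hρ]
    exact ENNReal.toReal_nonneg
  have h7 : (r ^ m)⁻¹ * μ.real (ball (x + r • z₀) (ε * r)) ≤ ρ * (F * S ^ m) := by
    calc (r ^ m)⁻¹ * μ.real (ball (x + r • z₀) (ε * r)) ≤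
          (r ^ m)⁻¹ * (ρ * (F * (r * S) ^ m)) := by
          refine mul_le_mul_of_nonneg_left ?_ (inv_pos.2 hrm).le
          rw [hm2] at hm1
          exact hm1.trans (mul_le_mul_of_nonneg_left hm3 hρ0)
      _ = ρ * (F * S ^ m) := by
          rw [mul_pow]
          field_simp
  linarith

/-- the main estimate -/
theorem main (μ : Measure (E (m + 1))) [IsFiniteMeasure μ] (x : E (m + 1))
    (c : ℕ → E (m + 1) → ℝ) (hc : ∀ i, TF (c i))
    (hsep : ∀ ψ : E (m + 1) → ℝ, TF ψ → ∃ R : ℝ, (∀ z, R ≤ ‖z‖ → ψ z = 0) ∧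
      ∀ ε : ℝ, 0 < ε → ∃ i, (∀ z, R ≤ ‖z‖ → c i z = 0) ∧ ∀ z, |c i z - ψ z| ≤ ε)
    (hx : ∀ (i : ℕ) (q : ℚ) (k₀ p : ℕ), x ∈ MM μ (c i) q k₀ p →
      Tendsto (fun r => μ ((MM μ (c i) q k₀ p)ᶜ ∩ closedBall x r) / μ (closedBall x r))
        (𝓝[>] 0) (𝓝 0))
    (hP1 : P1 μ x) (hlim : ∀ ψ : E (m + 1) → ℝ, TF ψ → ∃ L : ℝ, T μ x ψ L)
    (z₀ : E (m + 1))
    (hz : ∀ ψ : E (m + 1) → ℝ, TF ψ → (∀ z, 0 ≤ ψ z) → 0 < ψ z₀ → ¬ T μ x ψ 0)
    (ψ : E (m + 1) → ℝ) (L : ℝ) (hψ : TF ψ) (hL : T μ x ψ L) :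
    T μ x (fun z => ψ (z - z₀)) L := by
  obtain ⟨F₀, hF₀⟩ := hP1
  obtain ⟨F, hFd⟩ : ∃ F : ℝ, F = max F₀ 0 := ⟨_, rfl⟩
  have hF : 0 ≤ F := by
    rw [hFd]
    exact le_max_right _ _
  have hP : ∀ r : ℝ, 0 < r → r ≤ 1 → μ (closedBall x r) ≤ ENNReal.ofReal (F * r ^ m) := by
    intro r hr hr1
    refine (hF₀ r hr hr1).trans (ENNReal.ofReal_le_ofReal ?_)
    rw [hFd]
    exact mul_le_mul_of_nonneg_right (le_max_left _ _) (pow_nonneg hr.le m)
  have tf_shift : ∀ {f : E (m + 1) → ℝ}, TF f → ∀ a : E (m + 1), TF (fun z => f (z - a)) := by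
    intro f hf a
    refine ⟨hf.1.comp (contDiff_id.sub contDiff_const), ?_⟩
    exact hf.2.comp_homeomorph (Homeomorph.subRight a)
  obtain ⟨L', hL'⟩ := hlim _ (tf_shift hψ z₀)
  obtain ⟨R₀, hR₀, hdense⟩ := hsep ψ hψ
  obtain ⟨S, hSd⟩ : ∃ S : ℝ, S = max R₀ 1 + ‖z₀‖ + 1 := ⟨_, rfl⟩
  have hSR : R₀ + ‖z₀‖ + 1 ≤ S := by
    rw [hSd]
    have := le_max_left R₀ 1
    linarith
  have hS : 0 < S := by
    rw [hSd]
    have := le_max_right R₀ 1
    have := norm_nonneg z₀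
    linarith
  have key : ∀ ε : ℝ, 0 < ε → |L - L'| ≤ ε * (3 + 3 * (F * S ^ m)) := by
    intro ε hε
    obtain ⟨i, hi0, hiε⟩ := hdense ε hε
    have hci := hc i
    obtain ⟨Lc, hLc⟩ := hlim _ hci
    obtain ⟨Lc', hLc'⟩ := hlim _ (tf_shift hci z₀)
    have hn0 := norm_nonneg z₀
    have a1 : |L - Lc| ≤ ε * F * S ^ m := by
      refine lim_close μ x F hP hF (TF_cc hψ) (TF_cc hci) ε hε.le ?_ S hS ?_ hL hLc
      · intro z
        rw [abs_sub_comm]
        exact hiε z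
      · intro z hz'
        rw [hR₀ z (by linarith), hi0 z (by linarith), sub_zero]
    have a2 : |L' - Lc'| ≤ ε * F * S ^ m := by
      refine lim_close μ x F hP hF (cc_shift (TF_cc hψ) z₀) (cc_shift (TF_cc hci) z₀) ε hε.le ?_
        S hS ?_ hL' hLc'
      · intro z
        rw [abs_sub_comm]
        exact hiε _
      · intro z hz'
        have e1 : ‖z‖ - ‖z₀‖ ≤ ‖z - z₀‖ := norm_sub_norm_le z z₀
        rw [hR₀ _ (by linarith), hi0 _ (by linarith), sub_zero]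
    -- the rational number
    obtain ⟨p, hp⟩ := exists_nat_one_div_lt hε
    have hp0 : (0 : ℝ) < 1 / ((p : ℝ) + 1) := by positivity
    obtain ⟨q, hq⟩ := exists_rat_near Lc (show (0 : ℝ) < 1 / ((p : ℝ) + 1) / 2 by linarith)
    have hev : ∀ᶠ k in atTop, |G μ (c i) (rk k) x - q| ≤ 1 / ((p : ℝ) + 1) := by
      have e1 := ((T_iff _ _ _ _).1 hLc).comp rk_tend
      have e2 := ((e1.sub_const (q : ℝ)).abs).eventually_lt_const
        (show |Lc - q| < 1 / ((p : ℝ) + 1) by linarith)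
      filter_upwards [e2] with k hk
      exact hk.le
    obtain ⟨k₀, hk₀⟩ := eventually_atTop.1 hev
    have hxM : x ∈ MM μ (c i) q k₀ p := fun k hk => hk₀ k hk
    have hdens := hx i q k₀ p hxM
    -- uniform continuity
    have huc : UniformContinuous (c i) :=
      hci.2.uniformContinuous_of_continuous hci.1.continuous
    obtain ⟨δ, hδ, hδu⟩ := Metric.uniformContinuous_iff.1 huc ε hε
    have hδ' : 0 < min δ 1 := lt_min hδ one_pos
    have hpt := exists_pt μ x F hP hF _ hdens z₀ (min δ 1) hδ' (min_le_right _ _) hlim hz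
    have e1 := rk_tend.eventually hpt
    have e2 : ∀ᶠ k in atTop, |G μ (fun z => c i (z - z₀)) (rk k) x - Lc'| < ε := by
      have e3 := ((T_iff _ _ _ _).1 hLc').comp rk_tend
      have e4 := ((e3.sub_const Lc').abs)
      rw [sub_self, abs_zero] at e4
      exact e4.eventually_lt_const hε
    have e3 : ∀ᶠ k in atTop, rk k < 1 / S := by
      have e5 : ∀ᶠ r : ℝ in 𝓝[>] 0, r < 1 / S :=
        mem_nhdsWithin_of_mem_nhds (Iio_mem_nhds (by positivity))
      exact rk_tend.eventually e5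
    obtain ⟨k, ⟨y, hyM, hy⟩, hk2, hk3, hkk⟩ :=
      (e1.and (e2.and (e3.and (eventually_ge_atTop k₀)))).exists
    have hr := rk_pos k
    have hrS : rk k * S ≤ 1 := by
      rw [lt_div_iff₀ hS] at hk3
      exact hk3.le
    have b1 : |G μ (c i) (rk k) y - q| ≤ 1 / ((p : ℝ) + 1) := hyM k hkk
    have b2 : |G μ (c i) (rk k) y - G μ (fun z => c i (z - z₀)) (rk k) x| ≤ ε * F * S ^ m := by
      rw [G_shift μ (c i) (rk k) x y,
        ← G_sub μ (cc_shift (TF_cc hci) _) (cc_shift (TF_cc hci) _)]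
      have hh : ‖(rk k)⁻¹ • (y - x) - z₀‖ < min δ 1 := by
        have : (rk k)⁻¹ • (y - x) - z₀ = (rk k)⁻¹ • (y - (x + rk k • z₀)) := by
          rw [← sub_sub, smul_sub (rk k)⁻¹ (y - x), smul_smul, inv_mul_cancel₀ hr.ne', one_smul]
        rw [this, norm_smul, norm_inv, Real.norm_of_nonneg hr.le, inv_mul_eq_div, div_lt_iff₀ hr]
        exact hy
      refine G_bound μ x F hP hF _ ε hε.le ?_ S hS ?_ (rk k) hr hrS
      · intro z
        have e5 : dist (z - (rk k)⁻¹ • (y - x)) (z - z₀) < δ := by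
          rw [dist_eq_norm]
          have e6 : z - (rk k)⁻¹ • (y - x) - (z - z₀) = -((rk k)⁻¹ • (y - x) - z₀) := by abel
          rw [e6, norm_neg]
          exact lt_of_lt_of_le hh (min_le_left _ _)
        have e7 := hδu e5
        rw [Real.dist_eq] at e7
        exact e7.le
      · intro z hz'
        have e5 : ‖z‖ - ‖z₀‖ ≤ ‖z - z₀‖ := norm_sub_norm_le z z₀
        have e6 : ‖z - z₀‖ - ‖(rk k)⁻¹ • (y - x) - z₀‖ ≤ ‖z - (rk k)⁻¹ • (y - x)‖ := by
          have e7 : z - (rk k)⁻¹ • (y - x) = (z - z₀) - ((rk k)⁻¹ • (y - x) - z₀) := by abel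
          rw [e7]
          exact norm_sub_norm_le _ _
        have e8 : ‖(rk k)⁻¹ • (y - x) - z₀‖ < 1 := lt_of_lt_of_le hh (min_le_right _ _)
        rw [hi0 _ (by linarith), hi0 _ (by linarith), sub_zero]
    have t1 : |L - L'| ≤ |L - Lc| + |Lc - q| + |G μ (c i) (rk k) y - q| +
        |G μ (c i) (rk k) y - G μ (fun z => c i (z - z₀)) (rk k) x| +
        |G μ (fun z => c i (z - z₀)) (rk k) x - Lc'| + |L' - Lc'| := by
      have u1 := abs_le.1 (le_refl |L - Lc|)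
      have u2 := abs_le.1 (le_refl |Lc - (q : ℝ)|)
      have u3 := abs_le.1 (le_refl |G μ (c i) (rk k) y - q|)
      have u4 := abs_le.1 (le_refl |G μ (c i) (rk k) y - G μ (fun z => c i (z - z₀)) (rk k) x|)
      have u5 := abs_le.1 (le_refl |G μ (fun z => c i (z - z₀)) (rk k) x - Lc'|)
      have u6 := abs_le.1 (le_refl |L' - Lc'|)
      rw [abs_le]
      constructor <;> linarith [u1.1, u1.2, u2.1, u2.2, u3.1, u3.2, u4.1, u4.2, u5.1, u5.2,
        u6.1, u6.2]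
    have t2 : ε * (3 + 3 * (F * S ^ m)) = 3 * ε + 3 * (ε * F * S ^ m) := by ring
    rw [t2]
    linarith
  have hLL : L = L' := by
    by_contra hne
    have hpos : 0 < |L - L'| := abs_pos.2 (sub_ne_zero.2 hne)
    have hD : 0 < 3 + 3 * (F * S ^ m) := by
      have := mul_nonneg hF (pow_nonneg hS.le m)
      linarith
    have := key (|L - L'| / (2 * (3 + 3 * (F * S ^ m)))) (by positivity)
    have e1 : |L - L'| / (2 * (3 + 3 * (F * S ^ m))) * (3 + 3 * (F * S ^ m)) = |L - L'| / 2 := by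
      field_simp
    rw [e1] at this
    linarith
  rw [hLL]
  exact hL'

end PRE_

open PRE_ in
theorem pre_proof (h1 : Stmt_SEP) : Stmt_PRE := by
  intro m μ _
  obtain ⟨c, hc, hsep⟩ := h1 (m + 1)
  have hae : ∀ᵐ x ∂μ, ∀ (i : ℕ) (q : ℚ) (k₀ p : ℕ), x ∈ MM μ (c i) q k₀ p →
      Tendsto (fun r => μ ((MM μ (c i) q k₀ p)ᶜ ∩ closedBall x r) / μ (closedBall x r))
        (𝓝[>] 0) (𝓝 0) := by
    refine ae_all_iff.2 fun i => ae_all_iff.2 fun q => ae_all_iff.2 fun k₀ =>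
      ae_all_iff.2 fun p => ?_
    have hM := MM_meas μ (hc i).1.continuous q k₀ p
    filter_upwards [Besicovitch.ae_tendsto_measure_inter_div_of_measurableSet μ hM.compl]
      with x hx hxM
    rw [Set.indicator_of_notMem (by simpa using hxM)] at hx
    exact hx
  filter_upwards [hae] with x hx
  rintro ⟨hP1, hlim⟩ z₀ hz ψ L hψ hL
  exact main μ x c hc hsep hx hP1 hlim z₀ hz ψ L hψ hL

end Pool.Agent.CEL
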