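import Pool.Agent.CEL.Stmts

/-!
# CEL, module PWC: Poincaré inequality with equi-integrability
-/

set_option autoImplicit false
open Topology Filter MeasureTheory Matrix Metric
open scoped ENNReal

namespace Pool.Agent.CEL

namespace PWC_

section
variable {n N : ℕ}

lemma tf_cont {f : E n → ℝ} (h : TF f) : Continuous f := h.1.continuous

lemma tf_bound {f : E n → ℝ} (h : TF f) (j : ℕ) :
    ∃ M : ℝ, ∀ z, ‖iteratedFDeriv ℝ j f z‖ ≤ M := by
  have hc : Continuous (iteratedFDeriv ℝ j f) :=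
    h.1.continuous_iteratedFDeriv (by exact_mod_cast le_top)
  have hs : HasCompactSupport (iteratedFDeriv ℝ j f) := h.2.iteratedFDeriv j
  exact hs.exists_bound_of_continuous hc

lemma tf_cb {f : E n → ℝ} (h : TF f) (ℓ : ℕ) : ∃ M : ℝ, 0 ≤ M ∧ CB ℓ M f := by
  choose M hM using tf_bound h
  have h0 : ∀ j, 0 ≤ |M j| := fun j => abs_nonneg _
  refine ⟨∑ j ∈ Finset.range (ℓ + 1), |M j|, Finset.sum_nonneg fun j _ => h0 j, ?_⟩
  intro j hj z
  calc ‖iteratedFDeriv ℝ j f z‖ ≤ |M j| := (hM j z).trans (le_abs_self _)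
    _ ≤ ∑ j ∈ Finset.range (ℓ + 1), |M j| :=
      Finset.single_le_sum (f := fun j => |M j|) (fun j _ => h0 j)
        (Finset.mem_range.2 (by omega))

lemma tf_add {f g : E n → ℝ} (hf : TF f) (hg : TF g) : TF (fun z => f z + g z) :=
  ⟨hf.1.add hg.1, hf.2.add hg.2⟩

lemma tf_mul {f : E n → ℝ} (hf : TF f) (c : ℝ) : TF (fun z => c * f z) :=
  ⟨contDiff_const.mul hf.1, hf.2.mul_left⟩

lemma tf_sub {f g : E n → ℝ} (hf : TF f) (hg : TF g) : TF (fun z => f z - g z) := by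
  have h := tf_add hf (tf_mul hg (-1))
  have e : (fun z => f z - g z) = fun z => f z + -1 * g z := by
    funext z; ring
  rw [e]; exact h

lemma tf_zero : TF (fun _ : E n => (0 : ℝ)) := by
  refine ⟨contDiff_const, ?_⟩
  exact HasCompactSupport.zero

lemma tf_sum {ι : Type*} (s : Finset ι) (f : ι → E n → ℝ) (h : ∀ i ∈ s, TF (f i)) :
    TF (fun z => ∑ i ∈ s, f i z) := by
  classical
  induction s using Finset.induction_on with
  | empty => simpa using (tf_zero (n := n))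
  | insert a s ha ih =>
    have e : (fun z => ∑ i ∈ insert a s, f i z) = fun z => f a z + ∑ i ∈ s, f i z := by
      funext z; rw [Finset.sum_insert ha]
    rw [e]
    exact tf_add (h a (Finset.mem_insert_self a s))
      (ih fun i hi => h i (Finset.mem_insert_of_mem hi))

/-- Affine substitution. -/
lemma tf_comp {f : E n → ℝ} (hf : TF f) {s : ℝ} (hs : s ≠ 0) (z : E n) :
    TF (fun y => f (s • (y - z))) := by
  have hc : ContDiff ℝ (⊤ : ℕ∞) (fun y : E n => s • (y - z)) := by fun_prop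
  refine ⟨hf.1.comp hc, ?_⟩
  have e : (fun y => f (s • (y - z))) =
      f ∘ ((Homeomorph.subRight z).trans (Homeomorph.smulOfNeZero s hs)) := by
    funext y; rfl
  rw [e]
  exact hf.2.comp_homeomorph _

lemma tf_of_zero {f : E n → ℝ} (h1 : ContDiff ℝ (⊤ : ℕ∞) f) {T : ℝ}
    (h2 : ∀ z, T ≤ ‖z‖ → f z = 0) : TF f := by
  refine ⟨h1, HasCompactSupport.intro (isCompact_closedBall (0 : E n) T) ?_⟩
  intro z hz
  apply h2
  rw [mem_closedBall_zero_iff] at hz
  linarith [not_le.1 hz]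

end

/-- The kernel. -/
lemma exists_phi (h2 : Stmt_MOL) (m ℓ : ℕ) : ∃ (φ : E (m + 1) → ℝ) (T : ℝ), 1 ≤ T ∧ TF φ ∧
    (∀ z, T ≤ ‖z‖ → φ z = 0) ∧ Repr ℓ φ := by
  obtain ⟨ρ, c₁, C₁, hρ, H⟩ := h2 m
  obtain ⟨k, a₀, a, t, -, ht, -, hr⟩ := H ℓ 1 one_pos
  have hsum : 0 ≤ ∑ i, t i := Finset.sum_nonneg fun i _ => by linarith [ht i]
  have hle : ∀ i, t i ≤ ∑ i, t i := fun i =>
    Finset.single_le_sum (f := t) (fun i _ => by linarith [ht i]) (Finset.mem_univ i)
  have hz : ∀ z : E (m + 1), 1 + ∑ i, t i ≤ ‖z‖ → comb ρ a₀ a t z = 0 := by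
    intro z hz
    unfold comb
    rw [hρ.supp z (by linarith)]
    have : ∀ i, ρ ((t i)⁻¹ • z) = 0 := by
      intro i
      apply hρ.supp
      have hti : 0 < t i := by linarith [ht i]
      rw [norm_smul, norm_inv, Real.norm_eq_abs, abs_of_pos hti, le_inv_mul_iff₀ hti]
      linarith [hle i]
    simp [this]
  refine ⟨comb ρ a₀ a t, 1 + ∑ i, t i, by linarith, ?_, hz, hr⟩
  refine tf_of_zero ?_ hz
  unfold comb
  refine (contDiff_const.mul hρ.tf.1).add (ContDiff.sum fun i _ => ?_)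
  have hc : ContDiff ℝ (⊤ : ℕ∞) (fun y : E (m + 1) => (t i)⁻¹ • y) := by fun_prop
  exact contDiff_const.mul (contDiff_const.mul (hρ.tf.1.comp hc))

section
variable {n N : ℕ}

lemma mono_cont (β : Fin n → ℕ) : Continuous (mono β) := by
  unfold mono
  fun_prop

lemma tf_int_mono {f : E n → ℝ} (hf : TF f) (β : Fin n → ℕ) :
    Integrable (fun z => f z * mono β z) :=
  ((tf_cont hf).mul (mono_cont β)).integrable_of_hasCompactSupport hf.2.mul_right

/-- Binomial expansion. -/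
lemma mono_add (γ : Fin n → ℕ) (z ζ : E n) (t : ℝ) :
    mono γ (z + t • ζ) = ∑ δ ∈ Fintype.piFinset (fun i => Finset.range (γ i + 1)),
      (∏ i, ((z i) ^ (γ i - δ i) * t ^ (δ i) * ((γ i).choose (δ i) : ℝ))) * mono δ ζ := by
  have h1 : ∀ i, (z + t • ζ) i = z i + t * ζ i := by intro i; simp
  unfold mono
  simp_rw [h1]
  have h2 : ∀ i, (z i + t * ζ i) ^ γ i = ∑ j ∈ Finset.range (γ i + 1),
      (z i) ^ (γ i - j) * t ^ j * ((γ i).choose j : ℝ) * (ζ i) ^ j := by
    intro i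
    rw [add_comm, add_pow]
    refine Finset.sum_congr rfl fun j _ => ?_
    rw [mul_pow]; ring
  simp_rw [h2]
  rw [Finset.prod_univ_sum]
  refine Finset.sum_congr rfl fun δ _ => ?_
  rw [← Finset.prod_mul_distrib]

/-- A reproducing kernel reproduces monomials. -/
lemma repr_mono {ℓ : ℕ} {φ : E n → ℝ} (hφ : TF φ) (hr : Repr ℓ φ) (γ : Fin n → ℕ)
    (hγ : ∑ i, γ i < ℓ) (z : E n) (t : ℝ) :
    ∫ ζ, φ ζ * mono γ (z + t • ζ) = mono γ z := by
  simp_rw [mono_add γ z _ t, Finset.mul_sum]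
  rw [integral_finsetSum]
  · have h1 : ∀ δ ∈ Fintype.piFinset (fun i => Finset.range (γ i + 1)),
        ∫ ζ, φ ζ * ((∏ i, ((z i) ^ (γ i - δ i) * t ^ (δ i) * ((γ i).choose (δ i) : ℝ))) *
          mono δ ζ) = if δ = 0 then mono γ z else 0 := by
      intro δ hδ
      have e : (fun ζ => φ ζ * ((∏ i, ((z i) ^ (γ i - δ i) * t ^ (δ i) *
          ((γ i).choose (δ i) : ℝ))) * mono δ ζ)) = fun ζ => (∏ i, ((z i) ^ (γ i - δ i) *
          t ^ (δ i) * ((γ i).choose (δ i) : ℝ))) * (φ ζ * mono δ ζ) := by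
        funext ζ; ring
      rw [e, integral_const_mul, hr δ]
      · by_cases h : δ = 0
        · subst h
          simp [mono]
        · simp [h]
      · refine lt_of_le_of_lt (Finset.sum_le_sum fun i _ => ?_) hγ
        have := Finset.mem_range.1 (Fintype.mem_piFinset.1 hδ i)
        omega
    rw [Finset.sum_congr rfl h1, Finset.sum_ite_eq']
    rw [if_pos]
    rw [Fintype.mem_piFinset]
    intro i
    simp
  · intro δ _
    have e : (fun ζ => φ ζ * ((∏ i, ((z i) ^ (γ i - δ i) * t ^ (δ i) *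
        ((γ i).choose (δ i) : ℝ))) * mono δ ζ)) = fun ζ => (∏ i, ((z i) ^ (γ i - δ i) *
        t ^ (δ i) * ((γ i).choose (δ i) : ℝ))) * (φ ζ * mono δ ζ) := by
      funext ζ; ring
    rw [e]
    exact (tf_int_mono hφ δ).const_mul _

end

section
variable {n N : ℕ}

lemma mem_idx {ℓ : ℕ} {γ : Fin n → ℕ} : γ ∈ idx n ℓ ↔ ∑ i, γ i < ℓ := by
  unfold idx
  rw [Finset.mem_filter, Fintype.mem_piFinset]
  refine ⟨fun h => h.2, fun h => ⟨fun i => ?_, h⟩⟩
  rw [Finset.mem_range]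
  exact lt_of_le_of_lt (Finset.single_le_sum (f := γ) (fun i _ => Nat.zero_le _)
    (Finset.mem_univ i)) h

/-- Substitution `y = z + t ζ`. -/
lemma subst {V : Type*} [NormedAddCommGroup V] [NormedSpace ℝ V] (φ : E n → ℝ) (G : E n → V)
    (z : E n) {t : ℝ} (ht : 0 < t) :
    ∫ y, ((t ^ n)⁻¹ * φ (t⁻¹ • (y - z))) • G y = ∫ ζ, φ ζ • G (z + t • ζ) := by
  have h1 := Measure.integral_comp_smul (volume : Measure (E n))
    (fun y => φ (t⁻¹ • y) • G (z + y)) t
  have h2 : (fun ζ => φ ζ • G (z + t • ζ)) = fun ζ => φ (t⁻¹ • (t • ζ)) • G (z + t • ζ) := by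
    funext ζ
    rw [smul_smul, inv_mul_cancel₀ ht.ne', one_smul]
  have h3 := integral_add_left_eq_self (μ := (volume : Measure (E n)))
    (fun y => φ (t⁻¹ • (y - z)) • G y) z
  have h4 : |(t ^ n)⁻¹| = (t ^ n)⁻¹ := abs_of_pos (by positivity)
  rw [h2, h1, finrank_euclideanSpace_fin, h4]
  rw [← integral_smul]
  have h5 : (fun y => φ (t⁻¹ • y) • G (z + y)) =
      fun y => φ (t⁻¹ • (z + y - z)) • G (z + y) := by
    funext y; rw [add_sub_cancel_left]
  rw [integral_smul, h5, h3, ← integral_smul]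
  refine integral_congr_ae (Eventually.of_forall fun y => ?_)
  simp only [mul_smul]

/-- The kernel of step (iii). -/
noncomputable def kap (ℓ : ℕ) (φ : E n → ℝ) (t : ℝ) (lam : (Fin n → ℕ) → E n → ℝ) (z y : E n) :
    ℝ := (t ^ n)⁻¹ * φ (t⁻¹ • (y - z)) - ∑ β ∈ idx n ℓ, mono β z * lam β y

lemma kap_tf1 {φ : E n → ℝ} (hφ : TF φ) {t : ℝ} (ht : 0 < t) (z : E n) :
    TF (fun y => (t ^ n)⁻¹ * φ (t⁻¹ • (y - z))) :=
  tf_mul (tf_comp hφ (inv_ne_zero ht.ne') z) _

lemma kap_tf {ℓ : ℕ} {φ : E n → ℝ} (hφ : TF φ) {t : ℝ} (ht : 0 < t) {C : Set (E n)}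
    {lam : (Fin n → ℕ) → E n → ℝ} (hl : Dual ℓ C lam) (z : E n) : TF (kap ℓ φ t lam z) :=
  tf_sub (kap_tf1 hφ ht z) (tf_sum _ _ fun β hβ => tf_mul (hl β hβ).1 _)

lemma kap_supp {ℓ : ℕ} {φ : E n → ℝ} {T : ℝ} (hT : ∀ z, T ≤ ‖z‖ → φ z = 0) {t : ℝ} (ht : 0 < t)
    {C : Set (E n)} (hC : IsClosed C) {lam : (Fin n → ℕ) → E n → ℝ} (hl : Dual ℓ C lam) (z : E n)
    (hz : closedBall z (t * T) ⊆ C) : tsupport (kap ℓ φ t lam z) ⊆ C := by
  refine closure_minimal ?_ hC
  intro y hy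
  by_contra hyC
  apply hy
  unfold kap
  have h1 : φ (t⁻¹ • (y - z)) = 0 := by
    apply hT
    rw [norm_smul, norm_inv, Real.norm_eq_abs, abs_of_pos ht, le_inv_mul_iff₀ ht]
    by_contra h
    exact hyC (hz (by rw [mem_closedBall_iff_norm]; exact (not_le.1 h).le))
  have h2 : ∀ β ∈ idx n ℓ, mono β z * lam β y = 0 := by
    intro β hβ
    have : lam β y = 0 := image_eq_zero_of_notMem_tsupport fun h => hyC ((hl β hβ).2.1 h)
    rw [this, mul_zero]
  rw [h1, Finset.sum_eq_zero h2]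
  simp

lemma kap_orth {ℓ : ℕ} {φ : E n → ℝ} (hφ : TF φ) (hr : Repr ℓ φ) {t : ℝ} (ht : 0 < t)
    {C : Set (E n)} {lam : (Fin n → ℕ) → E n → ℝ} (hl : Dual ℓ C lam) (z : E n) :
    OrthP ℓ (kap ℓ φ t lam z) := by
  intro γ hγ
  have e : (fun y => kap ℓ φ t lam z y * mono γ y) = fun y =>
      ((t ^ n)⁻¹ * φ (t⁻¹ • (y - z))) * mono γ y -
        ∑ β ∈ idx n ℓ, mono β z * (lam β y * mono γ y) := by
    funext y
    unfold kap
    rw [sub_mul, Finset.sum_mul]
    congr 1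
    exact Finset.sum_congr rfl fun β _ => by ring
  have hi : ∀ β ∈ idx n ℓ, Integrable (fun y => mono β z * (lam β y * mono γ y)) :=
    fun β hβ => (tf_int_mono (hl β hβ).1 γ).const_mul _
  rw [e, integral_sub (tf_int_mono (kap_tf1 hφ ht z) γ) (integrable_finsetSum _ hi),
    integral_finsetSum _ hi]
  have h1 := subst φ (mono γ) z ht
  simp only [smul_eq_mul] at h1
  rw [h1, repr_mono hφ hr γ hγ z t]
  have h2 : ∀ β ∈ idx n ℓ, ∫ y, mono β z * (lam β y * mono γ y) =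
      if β = γ then mono γ z else 0 := by
    intro β hβ
    rw [integral_const_mul, (hl β hβ).2.2 γ (mem_idx.2 hγ)]
    by_cases h : β = γ
    · simp [h]
    · simp [h]
  rw [Finset.sum_congr rfl h2, Finset.sum_ite_eq', if_pos (mem_idx.2 hγ), sub_self]

lemma cb_iter {f : E n → ℝ} {ℓ : ℕ} {M : ℝ} (h : CB ℓ M f) (z : E n) :
    CB ℓ M (fun y => f (y - z)) := by
  intro j hj y
  rw [iteratedFDeriv_comp_sub]
  exact h j hj _

lemma cb_sub {f g : E n → ℝ} (hf : TF f) (hg : TF g) {ℓ : ℕ} {M M' : ℝ} (h : CB ℓ M f)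
    (h' : CB ℓ M' g) : CB ℓ (M + M') (fun y => f y - g y) := by
  intro j hj y
  have hf' : ContDiff ℝ (j : ℕ∞) f := hf.1.of_le (by exact_mod_cast le_top)
  have hg' : ContDiff ℝ (j : ℕ∞) g := hg.1.of_le (by exact_mod_cast le_top)
  have e : (fun y => f y - g y) = f - g := rfl
  rw [e, iteratedFDeriv_sub (by exact_mod_cast hf') (by exact_mod_cast hg')]
  exact (norm_sub_le _ _).trans (add_le_add (h j hj y) (h' j hj y))

lemma cb_add {f g : E n → ℝ} (hf : TF f) (hg : TF g) {ℓ : ℕ} {M M' : ℝ} (h : CB ℓ M f)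
    (h' : CB ℓ M' g) : CB ℓ (M + M') (fun y => f y + g y) := by
  intro j hj y
  have hf' : ContDiff ℝ (j : ℕ∞) f := hf.1.of_le (by exact_mod_cast le_top)
  have hg' : ContDiff ℝ (j : ℕ∞) g := hg.1.of_le (by exact_mod_cast le_top)
  have e : (fun y => f y + g y) = f + g := rfl
  rw [e, iteratedFDeriv_add (by exact_mod_cast hf') (by exact_mod_cast hg')]
  exact (norm_add_le _ _).trans (add_le_add (h j hj y) (h' j hj y))

lemma cb_mul {f : E n → ℝ} (hf : TF f) {ℓ : ℕ} {M : ℝ} (h : CB ℓ M f) (c : ℝ) :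
    CB ℓ (|c| * M) (fun y => c * f y) := by
  intro j hj y
  have hf' : ContDiff ℝ (j : ℕ∞) f := hf.1.of_le (by exact_mod_cast le_top)
  have e : (fun y => c * f y) = c • f := rfl
  rw [e, iteratedFDeriv_const_smul_apply (by exact_mod_cast hf'.contDiffAt), norm_smul,
    Real.norm_eq_abs]
  exact mul_le_mul_of_nonneg_left (h j hj y) (abs_nonneg _)

lemma cb_zero (ℓ : ℕ) : CB ℓ 0 (fun _ : E n => (0 : ℝ)) := by
  intro j _ y
  have : iteratedFDeriv ℝ j (fun _ : E n => (0 : ℝ)) = 0 := by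
    exact iteratedFDeriv_fun_zero
  rw [this]
  simp

lemma cb_sum {ι : Type*} (s : Finset ι) (f : ι → E n → ℝ) (h : ∀ i ∈ s, TF (f i)) {ℓ : ℕ}
    (M : ι → ℝ) (hM : ∀ i ∈ s, CB ℓ (M i) (f i)) :
    CB ℓ (∑ i ∈ s, M i) (fun z => ∑ i ∈ s, f i z) := by
  classical
  induction s using Finset.induction_on with
  | empty => simpa using (cb_zero (n := n) ℓ)
  | insert a s ha ih =>
    have e : (fun z => ∑ i ∈ insert a s, f i z) = fun z => f a z + ∑ i ∈ s, f i z := by
      funext z; rw [Finset.sum_insert ha]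
    rw [e, Finset.sum_insert ha]
    exact cb_add (h a (Finset.mem_insert_self a s))
      (tf_sum s f fun i hi => h i (Finset.mem_insert_of_mem hi))
      (hM a (Finset.mem_insert_self a s))
      (ih (fun i hi => h i (Finset.mem_insert_of_mem hi))
        (fun i hi => hM i (Finset.mem_insert_of_mem hi)))

lemma cb_mono {f : E n → ℝ} {ℓ : ℕ} {M M' : ℝ} (h : CB ℓ M f) (hM : M ≤ M') : CB ℓ M' f :=
  fun j hj y => (h j hj y).trans hM

lemma kap_cb (ℓ : ℕ) {φ : E n → ℝ} (hφ : TF φ) {t : ℝ} (ht : 0 < t)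
    {C C' : Set (E n)} (hC' : IsCompact C') {lam : (Fin n → ℕ) → E n → ℝ} (hl : Dual ℓ C lam) :
    ∃ M : ℝ, 0 ≤ M ∧ ∀ z ∈ C', CB ℓ M (kap ℓ φ t lam z) := by
  have hF : TF (fun y => (t ^ n)⁻¹ * φ (t⁻¹ • y)) := by
    have := kap_tf1 hφ ht 0
    simpa using this
  obtain ⟨M₁, hM₁, h₁⟩ := tf_cb hF ℓ
  have h2 : ∀ β : Fin n → ℕ, ∃ M : ℝ, 0 ≤ M ∧ (β ∈ idx n ℓ → CB ℓ M (lam β)) := by
    intro β
    by_cases hβ : β ∈ idx n ℓ
    · obtain ⟨M, hM, h⟩ := tf_cb (hl β hβ).1 ℓ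
      exact ⟨M, hM, fun _ => h⟩
    · exact ⟨0, le_rfl, fun h => absurd h hβ⟩
  choose M hM h2 using h2
  have h3 : ∀ β : Fin n → ℕ, ∃ B : ℝ, 0 ≤ B ∧ ∀ z ∈ C', |mono β z| ≤ B := by
    intro β
    obtain ⟨B, hB⟩ := hC'.exists_bound_of_continuousOn (mono_cont β).continuousOn
    refine ⟨|B|, abs_nonneg _, fun z hz => ?_⟩
    exact (hB z hz).trans (le_abs_self _)
  choose B hB h3 using h3
  refine ⟨M₁ + ∑ β ∈ idx n ℓ, B β * M β,
    add_nonneg hM₁ (Finset.sum_nonneg fun β _ => mul_nonneg (hB β) (hM β)), ?_⟩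
  intro z hz
  refine cb_sub (kap_tf1 hφ ht z) (tf_sum _ _ fun β hβ => tf_mul (hl β hβ).1 _)
    (cb_iter h₁ z) ?_
  refine cb_sum _ _ (fun β hβ => tf_mul (hl β hβ).1 _) _ fun β hβ => ?_
  refine cb_mono (cb_mul (hl β hβ).1 (h2 β hβ) (mono β z)) ?_
  exact mul_le_mul_of_nonneg_right (h3 β z hz) (hM β)

end

section
variable {n N : ℕ}

lemma int_smul {f : E n → ℝ} (hf : TF f) {v : E n → (Fin N → ℝ)} (hv : Integrable v) :
    Integrable (fun y => f y • v y) := by
  obtain ⟨M, hM⟩ := hf.2.exists_bound_of_continuous (tf_cont hf)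
  exact hv.bdd_smul M (tf_cont hf).aestronglyMeasurable (Eventually.of_forall hM)

lemma int_comp {u : E n → (Fin N → ℝ)} (hu : Integrable u) (x : E n) {r : ℝ} (hr : r ≠ 0) :
    Integrable (fun y => u (x + r • y)) :=
  Integrable.comp_smul (f := fun y => u (x + y)) (hu.comp_add_left x) hr

lemma lr_kap {ℓ : ℕ} {φ : E n → ℝ} (hφ : TF φ) {t : ℝ} (ht : 0 < t)
    {C : Set (E n)} {lam : (Fin n → ℕ) → E n → ℝ} (hl : Dual ℓ C lam)
    {u : E n → (Fin N → ℝ)} (hu : Integrable u) (x : E n) {r : ℝ} (hr : 0 < r) (z : E n) :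
    Lr u (x + r • z) φ (r * t) - ∑ β ∈ idx n ℓ, mono β z • Lr u x (lam β) r =
      Lr u x (kap ℓ φ t lam z) r := by
  have hv := int_comp hu x hr.ne'
  have e1 : Lr u (x + r • z) φ (r * t) =
      ∫ y, ((t ^ n)⁻¹ * φ (t⁻¹ • (y - z))) • u (x + r • y) := by
    rw [subst φ (fun y => u (x + r • y)) z ht]
    unfold Lr
    refine integral_congr_ae (Eventually.of_forall fun ζ => ?_)
    simp only [smul_add, smul_smul, add_assoc]
  have e2 : ∀ β ∈ idx n ℓ, mono β z • Lr u x (lam β) r =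
      ∫ y, (mono β z * lam β y) • u (x + r • y) := by
    intro β _
    unfold Lr
    rw [← integral_smul]
    refine integral_congr_ae (Eventually.of_forall fun ζ => ?_)
    simp only [smul_smul]
  have hi : ∀ β ∈ idx n ℓ, Integrable (fun y => (mono β z * lam β y) • u (x + r • y)) :=
    fun β hβ => int_smul (tf_mul (hl β hβ).1 _) hv
  rw [e1, Finset.sum_congr rfl e2, ← integral_finsetSum _ hi,
    ← integral_sub (int_smul (kap_tf1 hφ ht z) hv) (integrable_finsetSum _ hi)]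
  unfold Lr
  refine integral_congr_ae (Eventually.of_forall fun y => ?_)
  unfold kap
  simp only [sub_smul, Finset.sum_smul]

/-- The kernel of step (ii). -/
noncomputable def hh (φ : E n → ℝ) (ζ : E n) : ℝ :=
  (((1 / 2 : ℝ)) ^ n)⁻¹ * φ (((1 / 2 : ℝ))⁻¹ • (ζ - 0)) - φ ζ

lemma hh_tf {φ : E n → ℝ} (hφ : TF φ) : TF (hh φ) :=
  tf_sub (kap_tf1 hφ (by norm_num) 0) hφ

lemma hh_zero {φ : E n → ℝ} {T : ℝ} (hT0 : 0 ≤ T) (hT : ∀ z, T ≤ ‖z‖ → φ z = 0) (z : E n)
    (hz : T ≤ ‖z‖) : hh φ z = 0 := by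
  unfold hh
  rw [hT z hz, hT]
  · simp
  · rw [sub_zero, norm_smul]
    norm_num
    linarith

lemma hh_supp {φ : E n → ℝ} {T : ℝ} (hT0 : 0 ≤ T) (hT : ∀ z, T ≤ ‖z‖ → φ z = 0) :
    tsupport (hh φ) ⊆ closedBall 0 T := by
  refine closure_minimal ?_ isClosed_closedBall
  intro y hy
  by_contra h
  apply hy
  apply hh_zero hT0 hT
  rw [mem_closedBall_zero_iff] at h
  exact (not_le.1 h).le

lemma hh_orth {ℓ : ℕ} {φ : E n → ℝ} (hφ : TF φ) (hr : Repr ℓ φ) : OrthP ℓ (hh φ) := by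
  intro γ hγ
  have e : (fun y => hh φ y * mono γ y) = fun y =>
      (((1 / 2 : ℝ) ^ n)⁻¹ * φ ((1 / 2 : ℝ)⁻¹ • (y - 0))) * mono γ y - φ y * mono γ y := by
    funext y
    unfold hh
    ring
  rw [e, integral_sub (tf_int_mono (kap_tf1 hφ (by norm_num) 0) γ) (tf_int_mono hφ γ)]
  have h1 := subst φ (mono γ) 0 (t := 1 / 2) (by norm_num)
  simp only [smul_eq_mul] at h1
  rw [h1, repr_mono hφ hr γ hγ 0 (1 / 2)]
  have h2 := repr_mono hφ hr γ hγ 0 1
  simp only [one_smul, zero_add] at h2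
  rw [h2, sub_self]

lemma lr_hh {φ : E n → ℝ} (hφ : TF φ) {t : ℝ} (ht : 0 < t)
    {u : E n → (Fin N → ℝ)} (hu : Integrable u) (x : E n) {r : ℝ} (hr : 0 < r) :
    Lr u x φ (r * (t * (1 / 2))) - Lr u x φ (r * t) = Lr u x (hh φ) (r * t) := by
  have hv := int_comp hu x (mul_pos hr ht).ne'
  have e1 : Lr u x φ (r * (t * (1 / 2))) = ∫ y, (((1 / 2 : ℝ) ^ n)⁻¹ *
      φ ((1 / 2 : ℝ)⁻¹ • (y - 0))) • u (x + (r * t) • y) := by
    rw [subst φ (fun y => u (x + (r * t) • y)) 0 (t := 1 / 2) (by norm_num)]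
    unfold Lr
    refine integral_congr_ae (Eventually.of_forall fun ζ => ?_)
    simp only [zero_add, smul_smul, mul_assoc]
  have e2 : Lr u x φ (r * t) = ∫ y, φ y • u (x + (r * t) • y) := rfl
  rw [e1, e2, ← integral_sub (int_smul (kap_tf1 hφ (by norm_num) 0) hv) (int_smul hφ hv)]
  unfold Lr
  refine integral_congr_ae (Eventually.of_forall fun y => ?_)
  unfold hh
  simp only [sub_smul]

/-- Lebesgue points. -/
lemma ae_conv {v : E n → (Fin N → ℝ)} (hv : Integrable v) {φ : E n → ℝ} (hφ : TF φ) {T : ℝ}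
    (hT0 : 0 < T) (hT : ∀ z, T ≤ ‖z‖ → φ z = 0) (hint : ∫ z, φ z = 1) :
    ∀ᵐ z, Tendsto (fun t : ℝ => ∫ ζ, φ ζ • v (z + t • ζ)) (𝓝[>] 0) (𝓝 (v z)) := by
  obtain ⟨M, hM⟩ := hφ.2.exists_bound_of_continuous (tf_cont hφ)
  have hM0 : 0 ≤ M := (norm_nonneg _).trans (hM 0)
  filter_upwards [(Besicovitch.vitaliFamily (volume :
    Measure (E n))).ae_tendsto_lintegral_enorm_sub_div hv.locallyIntegrable] with z hz
  have h1 := hz.comp (Besicovitch.tendsto_filterAt volume z)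
  have h2 : Tendsto (fun t : ℝ => t * T) (𝓝[>] 0) (𝓝[>] 0) := by
    rw [tendsto_nhdsWithin_iff]
    refine ⟨?_, ?_⟩
    · have : Tendsto (fun t : ℝ => t * T) (𝓝 0) (𝓝 (0 * T)) :=
        (continuous_id.mul continuous_const).tendsto 0
      rw [zero_mul] at this
      exact this.mono_left nhdsWithin_le_nhds
    · filter_upwards [self_mem_nhdsWithin] with t ht
      exact mul_pos ht hT0
  have h3 := h1.comp h2
  set W : ℝ≥0∞ := volume (closedBall (0 : E n) T) with hW
  have hWt : W ≠ ⊤ := (measure_closedBall_lt_top).ne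
  have hW0 : W ≠ 0 := (measure_closedBall_pos _ _ hT0).ne'
  have h4 : Tendsto (fun t : ℝ => (ENNReal.ofReal M * W) *
      ((∫⁻ y in closedBall z (t * T), ‖v y - v z‖ₑ) / volume (closedBall z (t * T))))
      (𝓝[>] 0) (𝓝 0) := by
    have := ENNReal.Tendsto.const_mul (a := ENNReal.ofReal M * W) h3
      (Or.inr (ENNReal.mul_ne_top ENNReal.ofReal_ne_top hWt))
    rw [mul_zero] at this
    exact this
  rw [tendsto_iff_edist_tendsto_0]
  refine tendsto_of_tendsto_of_tendsto_of_le_of_le' tendsto_const_nhds h4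
    (Eventually.of_forall fun _ => zero_le) ?_
  filter_upwards [self_mem_nhdsWithin] with t ht
  have ht' : (0 : ℝ) < t := ht
  have hvt : Integrable (fun ζ => v (z + t • ζ)) := int_comp hv z ht'.ne'
  have hφi : Integrable φ := (tf_cont hφ).integrable_of_hasCompactSupport hφ.2
  have e1 : (∫ ζ, φ ζ • v (z + t • ζ)) - v z = ∫ ζ, φ ζ • (v (z + t • ζ) - v z) := by
    simp only [smul_sub]
    rw [integral_sub (int_smul hφ hvt) (hφi.smul_const _), integral_smul_const, hint, one_smul]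
  rw [edist_eq_enorm_sub, e1, ← subst φ (fun y => v y - v z) z ht']
  refine (enorm_integral_le_lintegral_enorm _).trans ?_
  have hvol : volume (closedBall z (t * T)) = ENNReal.ofReal (t ^ n) * W := by
    rw [Measure.addHaar_closedBall_mul_of_pos volume z ht' T, finrank_euclideanSpace_fin]
  have hV0 : volume (closedBall z (t * T)) ≠ 0 :=
    (measure_closedBall_pos _ _ (mul_pos ht' hT0)).ne'
  have hVt : volume (closedBall z (t * T)) ≠ ⊤ := (measure_closedBall_lt_top).ne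
  have e2 : ENNReal.ofReal ((t ^ n)⁻¹ * M) =
      ENNReal.ofReal M * W * (volume (closedBall z (t * T)))⁻¹ := by
    rw [← div_eq_mul_inv, ENNReal.eq_div_iff hV0 hVt, hvol, mul_right_comm,
      ← ENNReal.ofReal_mul (by positivity)]
    congr 2
    have : t ^ n ≠ 0 := pow_ne_zero _ ht'.ne'
    field_simp
  calc ∫⁻ y, ‖((t ^ n)⁻¹ * φ (t⁻¹ • (y - z))) • (v y - v z)‖ₑ
      ≤ ∫⁻ y, (closedBall z (t * T)).indicator
        (fun y => ENNReal.ofReal ((t ^ n)⁻¹ * M) * ‖v y - v z‖ₑ) y := by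
        refine lintegral_mono fun y => ?_
        by_cases hy : y ∈ closedBall z (t * T)
        · rw [Set.indicator_of_mem hy, enorm_smul]
          refine mul_le_mul_left ?_ _
          rw [← ofReal_norm]
          apply ENNReal.ofReal_le_ofReal
          rw [norm_mul, Real.norm_eq_abs, abs_of_pos (by positivity)]
          exact mul_le_mul_of_nonneg_left (hM _) (by positivity)
        · have : φ (t⁻¹ • (y - z)) = 0 := by
            apply hT
            rw [norm_smul, norm_inv, Real.norm_eq_abs, abs_of_pos ht', le_inv_mul_iff₀ ht']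
            rw [mem_closedBall_iff_norm] at hy
            exact (not_le.1 hy).le
          rw [this]
          simp
    _ = ENNReal.ofReal ((t ^ n)⁻¹ * M) * ∫⁻ y in closedBall z (t * T), ‖v y - v z‖ₑ := by
        rw [lintegral_indicator measurableSet_closedBall, lintegral_const_mul' _ _
          ENNReal.ofReal_ne_top]
    _ = _ := by
        rw [e2, div_eq_mul_inv, mul_assoc (ENNReal.ofReal M * W), mul_comm _⁻¹]

end

section
variable {n N : ℕ}

/-- Tonelli. -/
lemma tonelli (μ : Measure (E n)) [IsFiniteMeasure μ] {C C' : Set (E n)} (hC : IsCompact C)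
    (hC' : IsCompact C') (x : E n) {r : ℝ} (hr : 0 < r) {T : ℝ} {t : ℝ} (ht : 0 < t)
    (hz : ∀ z ∈ C', closedBall z (t * T) ⊆ C) :
    ∫⁻ z in C', μ (closedBall (x + r • z) (r * t * T)) ≤
      ENNReal.ofReal (t ^ n) * volume (closedBall (0 : E n) T) *
        μ ((fun z => x + r • z) '' C) := by
  set P : Set (E n × E n) := {p | ‖p.2 - (x + r • p.1)‖ ≤ r * t * T} with hP
  have hPc : IsClosed P := isClosed_le (by fun_prop) continuous_const
  have hPm : MeasurableSet P := hPc.measurableSet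
  have e1 : ∀ z, μ (closedBall (x + r • z) (r * t * T)) = μ (Prod.mk z ⁻¹' P) := by
    intro z
    rfl
  have e2 : ∫⁻ z in C', μ (closedBall (x + r • z) (r * t * T)) =
      ∫⁻ y, (volume.restrict C') ((fun z => (z, y)) ⁻¹' P) ∂μ := by
    simp_rw [e1]
    rw [← Measure.prod_apply hPm, ← Measure.prod_apply_symm hPm]
  have hXm : MeasurableSet ((fun z => x + r • z) '' C) :=
    (hC.image (by fun_prop)).measurableSet
  rw [e2]
  calc ∫⁻ y, (volume.restrict C') ((fun z => (z, y)) ⁻¹' P) ∂μ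
      ≤ ∫⁻ y, ((fun z => x + r • z) '' C).indicator
        (fun _ => ENNReal.ofReal (t ^ n) * volume (closedBall (0 : E n) T)) y ∂μ := by
        refine lintegral_mono fun y => ?_
        have hy' : x + r • (r⁻¹ • (y - x)) = y := by
          rw [smul_smul, mul_inv_cancel₀ hr.ne', one_smul, add_sub_cancel]
        have key : ∀ z, (z, y) ∈ P → r⁻¹ • (y - x) ∈ closedBall z (t * T) := by
          intro z hzP
          rw [mem_closedBall_iff_norm]
          have : r⁻¹ • (y - x) - z = r⁻¹ • (y - (x + r • z)) := by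
            rw [← sub_sub, smul_sub r⁻¹ (y - x), smul_smul, inv_mul_cancel₀ hr.ne', one_smul]
          rw [this, norm_smul, norm_inv, Real.norm_eq_abs, abs_of_pos hr,
            inv_mul_le_iff₀ hr, ← mul_assoc]
          exact hzP
        by_cases hy : y ∈ (fun z => x + r • z) '' C
        · rw [Set.indicator_of_mem hy]
          calc (volume.restrict C') ((fun z => (z, y)) ⁻¹' P)
              ≤ volume ((fun z => (z, y)) ⁻¹' P) := Measure.restrict_apply_le _ _
            _ ≤ volume (closedBall (r⁻¹ • (y - x)) (t * T)) := by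
              refine measure_mono fun z hzP => ?_
              rw [mem_closedBall_comm]
              exact key z hzP
            _ = _ := by
              rw [Measure.addHaar_closedBall_mul_of_pos volume _ ht T,
                finrank_euclideanSpace_fin]
        · rw [Set.indicator_of_notMem hy]
          have hm : MeasurableSet ((fun z => (z, y)) ⁻¹' P) := measurable_prodMk_right hPm
          rw [Measure.restrict_apply hm]
          have : ((fun z => (z, y)) ⁻¹' P) ∩ C' = ∅ := by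
            rw [Set.eq_empty_iff_forall_notMem]
            rintro z ⟨h1, h2⟩
            exact hy ⟨r⁻¹ • (y - x), hz z h2 (key z h1), hy'⟩
          rw [this, measure_empty]
    _ = _ := by
        rw [lintegral_indicator_const hXm]

end

section
variable {m N K : ℕ}

lemma dens_ball (μ : Measure (E (m + 1))) (x z : E (m + 1)) {r : ℝ} (hr : 0 < r) {T : ℝ}
    {t : ℝ} (ht : 0 < t) : dens μ (x + r • z) (r * t) (closedBall 0 T) ≤
      ENNReal.ofReal (((r * t) ^ m)⁻¹) * μ (closedBall (x + r • z) (r * t * T)) := by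
  unfold dens
  gcongr
  rintro _ ⟨ζ, hζ, rfl⟩
  have hζ' : ‖ζ‖ ≤ T := by simpa using hζ
  show x + r • z + (r * t) • ζ ∈ closedBall (x + r • z) (r * t * T)
  rw [mem_closedBall_iff_norm, add_sub_cancel_left, norm_smul, Real.norm_eq_abs,
    abs_of_pos (mul_pos hr ht)]
  exact mul_le_mul_of_nonneg_left hζ' (mul_pos hr ht).le

lemma meas_U {u : E (m + 1) → (Fin N → ℝ)} (hu : Measurable u) {φ : E (m + 1) → ℝ}
    (hφ : TF φ) (x : E (m + 1)) (r t : ℝ) :
    Measurable (fun z => Lr u (x + r • z) φ (r * t)) := by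
  unfold Lr
  have h : StronglyMeasurable (fun p : E (m + 1) × E (m + 1) =>
      φ p.2 • u (x + r • p.1 + (r * t) • p.2)) := by
    have h1 : Measurable (fun p : E (m + 1) × E (m + 1) => φ p.2) :=
      (tf_cont hφ).measurable.comp measurable_snd
    have h2 : Measurable (fun p : E (m + 1) × E (m + 1) => u (x + r • p.1 + (r * t) • p.2)) :=
      hu.comp (by fun_prop)
    exact (h1.smul h2).stronglyMeasurable
  exact (h.integral_prod_right (ν := volume)).measurable

/-- Step (ii), integrated over `C'`. -/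
lemma step2 (h1 : Stmt_LMA) {ℓ : ℕ} {A : Op (m + 1) N K} (hA : NIprop A ℓ)
    {φ : E (m + 1) → ℝ} (hφ : TF φ) {T : ℝ} (hT0 : 0 < T) (hT : ∀ z, T ≤ ‖z‖ → φ z = 0)
    (hr : Repr ℓ φ) : ∃ C₂ : ℝ, 0 ≤ C₂ ∧ ∀ (C C' : Set (E (m + 1))), IsCompact C → IsCompact C' →
      ∀ (Ru : ℝ) (u : E (m + 1) → (Fin N → ℝ)) (μ : Measure (E (m + 1)))
        (g : E (m + 1) → (Fin K → ℝ)), IsPair A Ru u μ g → ∀ (x : E (m + 1)) (r : ℝ), 0 < r →
      ∀ t : ℝ, 0 < t → (∀ z ∈ C', closedBall z (t * T) ⊆ C) →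
      ∫⁻ z in C', ‖Lr u (x + r • z) φ (r * (t * (1 / 2))) - Lr u (x + r • z) φ (r * t)‖ₑ ≤
        ENNReal.ofReal (C₂ * t) * dens μ x r C := by
  have hne : (interior (closedBall (0 : E (m + 1)) T)).Nonempty :=
    ⟨0, ball_subset_interior_closedBall (mem_ball_self hT0)⟩
  obtain ⟨C₀, hC₀, H⟩ := h1 m N K ℓ A hA (closedBall 0 T) (isCompact_closedBall _ _)
    (convex_closedBall _ _) hne
  obtain ⟨M, hM, hcb⟩ := tf_cb (hh_tf hφ) ℓ
  set W : ℝ≥0∞ := volume (closedBall (0 : E (m + 1)) T) with hW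
  have hWt : W ≠ ⊤ := (measure_closedBall_lt_top).ne
  refine ⟨C₀ * M * W.toReal, by positivity, ?_⟩
  intro C C' hC hC' Ru u μ g hp x r hr0 t ht hz
  have := hp.fin
  have hrt : 0 < r * t := mul_pos hr0 ht
  calc ∫⁻ z in C', ‖Lr u (x + r • z) φ (r * (t * (1 / 2))) - Lr u (x + r • z) φ (r * t)‖ₑ
      ≤ ∫⁻ z in C', ENNReal.ofReal (C₀ * M) * (ENNReal.ofReal (((r * t) ^ m)⁻¹) *
          μ (closedBall (x + r • z) (r * t * T))) := by
        refine lintegral_mono fun z => ?_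
        show ‖Lr u (x + r • z) φ (r * (t * (1 / 2))) - Lr u (x + r • z) φ (r * t)‖ₑ ≤ _
        rw [lr_hh hφ ht hp.int_u (x + r • z) hr0]
        refine (H (hh φ) (hh_tf hφ) (hh_supp hT0.le hT) (hh_orth hφ hr) M hcb Ru u μ g hp
          (x + r • z) (r * t) hrt).trans ?_
        gcongr
        exact dens_ball μ x z hr0 ht
    _ = ENNReal.ofReal (C₀ * M) * (ENNReal.ofReal (((r * t) ^ m)⁻¹) *
          ∫⁻ z in C', μ (closedBall (x + r • z) (r * t * T))) := by
        rw [lintegral_const_mul' _ _ ENNReal.ofReal_ne_top,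
          lintegral_const_mul' _ _ ENNReal.ofReal_ne_top]
    _ ≤ ENNReal.ofReal (C₀ * M) * (ENNReal.ofReal (((r * t) ^ m)⁻¹) *
          (ENNReal.ofReal (t ^ (m + 1)) * W * μ ((fun z => x + r • z) '' C))) := by
        gcongr
        exact tonelli μ hC hC' x hr0 ht hz
    _ = ENNReal.ofReal (C₀ * M * W.toReal * t) * dens μ x r C := by
        unfold dens
        have e1 : ENNReal.ofReal (((r * t) ^ m)⁻¹) * ENNReal.ofReal (t ^ (m + 1)) =
            ENNReal.ofReal t * ENNReal.ofReal ((r ^ m)⁻¹) := by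
          rw [← ENNReal.ofReal_mul (by positivity), ← ENNReal.ofReal_mul ht.le]
          congr 1
          have h1 : t ^ m ≠ 0 := pow_ne_zero _ ht.ne'
          have h2 : r ^ m ≠ 0 := pow_ne_zero _ hr0.ne'
          rw [mul_pow, pow_succ]
          field_simp
        have e2 : ENNReal.ofReal (C₀ * M * W.toReal * t) =
            ENNReal.ofReal (C₀ * M) * W * ENNReal.ofReal t := by
          rw [ENNReal.ofReal_mul (by positivity), ENNReal.ofReal_mul (by positivity),
            ENNReal.ofReal_toReal hWt]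
        rw [e2]
        calc _ = ENNReal.ofReal (C₀ * M) * W * (ENNReal.ofReal (((r * t) ^ m)⁻¹) *
              ENNReal.ofReal (t ^ (m + 1))) * μ ((fun z => x + r • z) '' C) := by ring
          _ = _ := by rw [e1]; ring

end

end PWC_

open PWC_ in
/-- (1.2) Poincaré inequality with equi-integrability. -/
theorem pwc_proof (h1 : Stmt_LMA) (h2 : Stmt_MOL) : Stmt_PWC := by
  intro m N K ℓ A hA C C' lam hC hCc hC' hCC' hl ε hε
  by_cases hne : (interior C).Nonempty
  swap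
  · refine ⟨0, le_rfl, ?_⟩
    intro Ru u μ g hp x r hr S hS hSC
    rw [Set.not_nonempty_iff_eq_empty] at hne
    have : S = ∅ := by
      rw [Set.eq_empty_iff_forall_notMem]
      intro z hz
      have := hCC' (hSC hz)
      rw [hne] at this
      exact this
    rw [this]
    simp
  obtain ⟨φ, T, hT1, hφ, hT, hrep⟩ := exists_phi h2 m ℓ
  have hT0 : 0 < T := by linarith
  have hℓ : 1 ≤ ℓ := hA.1
  have hint : ∫ z, φ z = 1 := by
    have := hrep 0 (by simp; omega)
    simpa [mono] using this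
  obtain ⟨δ, hδ, hδC⟩ := hC'.exists_cthickening_subset_open isOpen_interior hCC'
  obtain ⟨C₂, hC₂, H2⟩ := step2 h1 hA hφ hT0 hT hrep
  obtain ⟨C₀, hC₀, H1⟩ := h1 m N K ℓ A hA C hC hCc hne
  set t₀ : ℝ := min (δ / T) (ε / (2 * (C₂ + 1))) with ht₀def
  have ht₀ : 0 < t₀ := lt_min (by positivity) (by positivity)
  have ht₀a : t₀ * T ≤ δ := by
    have := min_le_left (δ / T) (ε / (2 * (C₂ + 1)))
    rwa [← ht₀def, le_div_iff₀ hT0] at this
  have ht₀b : 2 * (C₂ * t₀) ≤ ε := by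
    have := min_le_right (δ / T) (ε / (2 * (C₂ + 1)))
    rw [← ht₀def, le_div_iff₀ (by positivity)] at this
    nlinarith
  have hball : ∀ t, t ≤ t₀ → ∀ z ∈ C', closedBall z (t * T) ⊆ C := by
    intro t ht z hz y hy
    apply interior_subset
    apply hδC
    refine mem_cthickening_of_dist_le y z δ C' hz ?_
    rw [mem_closedBall] at hy
    exact hy.trans ((mul_le_mul_of_nonneg_right ht hT0.le).trans ht₀a)
  obtain ⟨M, hM, hcb⟩ := kap_cb ℓ hφ ht₀ hC' hl
  refine ⟨C₀ * M, by positivity, ?_⟩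
  intro Ru u μ g hp x r hr S hS hSC
  -- the mollified functions
  set U : ℕ → E (m + 1) → (Fin N → ℝ) :=
    fun k z => Lr u (x + r • z) φ (r * (t₀ * (1 / 2) ^ k)) with hU
  have hUm : ∀ k, Measurable (U k) := fun k => meas_U hp.meas_u hφ x r _
  have hum : Measurable (fun z => u (x + r • z)) := hp.meas_u.comp (by fun_prop)
  have hUd : ∀ k, ∫⁻ z in C', ‖U (k + 1) z - U k z‖ₑ ≤
      ENNReal.ofReal (C₂ * t₀) * (2⁻¹) ^ k * dens μ x r C := by
    intro k
    have hk : t₀ * (1 / 2 : ℝ) ^ k ≤ t₀ := by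
      have : (1 / 2 : ℝ) ^ k ≤ 1 := pow_le_one₀ (by norm_num) (by norm_num)
      nlinarith
    have := H2 C C' hC hC' Ru u μ g hp x r hr (t₀ * (1 / 2) ^ k) (by positivity) (hball _ hk)
    have e1 : ENNReal.ofReal (C₂ * (t₀ * (1 / 2) ^ k)) =
        ENNReal.ofReal (C₂ * t₀) * (2⁻¹) ^ k := by
      rw [← mul_assoc, ENNReal.ofReal_mul (by positivity), ENNReal.ofReal_pow (by norm_num)]
      congr 2
      rw [one_div, ENNReal.ofReal_inv_of_pos (by norm_num)]
      simp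
    rw [e1] at this
    refine le_trans (le_of_eq ?_) this
    refine lintegral_congr fun z => ?_
    show ‖Lr u (x + r • z) φ (r * (t₀ * (1 / 2) ^ (k + 1))) -
      Lr u (x + r • z) φ (r * (t₀ * (1 / 2) ^ k))‖ₑ = _
    rw [pow_succ, ← mul_assoc t₀]
  -- almost everywhere convergence
  have hae : ∀ᵐ z, Tendsto (fun k => U k z) atTop (𝓝 (u (x + r • z))) := by
    filter_upwards [ae_conv (int_comp hp.int_u x hr.ne') hφ hT0 hT hint] with z hz
    have ht : Tendsto (fun k : ℕ => t₀ * (1 / 2 : ℝ) ^ k) atTop (𝓝[>] 0) := by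
      rw [tendsto_nhdsWithin_iff]
      refine ⟨?_, Eventually.of_forall fun k => ?_⟩
      · have := (tendsto_pow_atTop_nhds_zero_of_lt_one (r := (1 / 2 : ℝ)) (by norm_num)
          (by norm_num)).const_mul t₀
        rwa [mul_zero] at this
      · show 0 < t₀ * (1 / 2 : ℝ) ^ k
        positivity
    have := hz.comp ht
    refine this.congr fun k => ?_
    show ∫ ζ, φ ζ • u (x + r • (z + (t₀ * (1 / 2) ^ k) • ζ)) = _
    rw [hU]
    unfold Lr
    refine integral_congr_ae (Eventually.of_forall fun ζ => ?_)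
    simp only [smul_add, smul_smul, add_assoc]
  have hpt : ∀ᵐ z, ‖u (x + r • z) - U 0 z‖ₑ ≤ ∑' k, ‖U (k + 1) z - U k z‖ₑ := by
    filter_upwards [hae] with z hz
    have := edist_le_tsum_of_edist_le_of_tendsto₀ (f := fun k => U k z)
      (fun k => ‖U (k + 1) z - U k z‖ₑ)
      (fun k => by rw [edist_comm, edist_eq_enorm_sub]) hz
    rwa [edist_comm, edist_eq_enorm_sub] at this
  have hA1 : ∫⁻ z in C', ‖u (x + r • z) - U 0 z‖ₑ ≤ ENNReal.ofReal ε * dens μ x r C := by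
    calc ∫⁻ z in C', ‖u (x + r • z) - U 0 z‖ₑ
        ≤ ∫⁻ z in C', ∑' k, ‖U (k + 1) z - U k z‖ₑ :=
          lintegral_mono_ae (ae_restrict_of_ae hpt)
      _ = ∑' k, ∫⁻ z in C', ‖U (k + 1) z - U k z‖ₑ :=
          lintegral_tsum fun k => ((hUm (k + 1)).sub (hUm k)).enorm.aemeasurable
      _ ≤ ∑' k : ℕ, ENNReal.ofReal (C₂ * t₀) * (2⁻¹) ^ k * dens μ x r C :=
          ENNReal.tsum_le_tsum hUd
      _ = ENNReal.ofReal (C₂ * t₀) * 2 * dens μ x r C := by
          rw [ENNReal.tsum_mul_right, ENNReal.tsum_mul_left, ENNReal.tsum_geometric,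
            ENNReal.one_sub_inv_two, inv_inv]
      _ ≤ ENNReal.ofReal ε * dens μ x r C := by
          gcongr
          have e0 : ENNReal.ofReal 2 = 2 := by simp
          have e : ENNReal.ofReal (C₂ * t₀) * 2 = ENNReal.ofReal (2 * (C₂ * t₀)) := by
            rw [ENNReal.ofReal_mul (p := 2) (by norm_num), mul_comm, e0]
          rw [e]
          exact ENNReal.ofReal_le_ofReal ht₀b
  have hA2 : ∀ z ∈ C', ‖U 0 z - ∑ β ∈ idx (m + 1) ℓ, mono β z • Lr u x (lam β) r‖ₑ ≤
      ENNReal.ofReal (C₀ * M) * dens μ x r C := by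
    intro z hz
    have e0 : U 0 z = Lr u (x + r • z) φ (r * t₀) := by
      rw [hU]
      simp
    rw [e0, lr_kap hφ ht₀ hl hp.int_u x hr z]
    exact H1 _ (kap_tf hφ ht₀ hl z) (kap_supp hT ht₀ hC.isClosed hl z (hball _ le_rfl z hz))
      (kap_orth hφ hrep ht₀ hl z) M (hcb z hz) Ru u μ g hp x r hr
  calc ∫⁻ z in S, ‖u (x + r • z) - ∑ β ∈ idx (m + 1) ℓ, mono β z • Lr u x (lam β) r‖ₑ
      ≤ ∫⁻ z in S, (‖u (x + r • z) - U 0 z‖ₑ + ENNReal.ofReal (C₀ * M) * dens μ x r C) := by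
        refine setLIntegral_mono' hS fun z hz => ?_
        calc ‖u (x + r • z) - ∑ β ∈ idx (m + 1) ℓ, mono β z • Lr u x (lam β) r‖ₑ
            = ‖(u (x + r • z) - U 0 z) +
              (U 0 z - ∑ β ∈ idx (m + 1) ℓ, mono β z • Lr u x (lam β) r)‖ₑ := by
              rw [sub_add_sub_cancel]
          _ ≤ ‖u (x + r • z) - U 0 z‖ₑ +
              ‖U 0 z - ∑ β ∈ idx (m + 1) ℓ, mono β z • Lr u x (lam β) r‖ₑ := enorm_add_le _ _
          _ ≤ _ := by
              gcongr
              exact hA2 z (hSC hz)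
    _ = (∫⁻ z in S, ‖u (x + r • z) - U 0 z‖ₑ) +
          ENNReal.ofReal (C₀ * M) * dens μ x r C * volume S := by
        rw [lintegral_add_right _ measurable_const, setLIntegral_const]
    _ ≤ (∫⁻ z in C', ‖u (x + r • z) - U 0 z‖ₑ) +
          ENNReal.ofReal (C₀ * M) * dens μ x r C * volume S := by
        exact add_le_add_left (lintegral_mono_set hSC) _
    _ ≤ ENNReal.ofReal ε * dens μ x r C +
          ENNReal.ofReal (C₀ * M) * dens μ x r C * volume S := by
        exact add_le_add_left hA1 _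
    _ = (ENNReal.ofReal ε + ENNReal.ofReal (C₀ * M) * volume S) * dens μ x r C := by
        ring

end Pool.Agent.CEL
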