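import Pool.Agent.CEL.Stmts

/-!
# CEL, SEP: a countable dense set of test functions
-/

set_option autoImplicit false
open Topology Filter MeasureTheory Matrix Metric
open scoped ENNReal

namespace Pool.Agent.CEL

namespace SEP_

/-- test functions vanishing outside the ball of radius `R` -/
def D (n R : ℕ) : Set C(E n, ℝ) := {f | TF (f : E n → ℝ) ∧ ∀ z : E n, (R : ℝ) ≤ ‖z‖ → f z = 0}

theorem zero_mem (n R : ℕ) : (0 : C(E n, ℝ)) ∈ D n R := by
  refine ⟨⟨?_, ?_⟩, fun z _ => rfl⟩
  · exact contDiff_const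
  · exact HasCompactSupport.zero

instance (n R : ℕ) : Nonempty (D n R) := ⟨⟨0, zero_mem n R⟩⟩

end SEP_

open SEP_ in
theorem sep_proof : Stmt_SEP := by
  intro n
  refine ⟨fun k => ((TopologicalSpace.denseSeq (D n (Nat.unpair k).1) (Nat.unpair k).2 :
    D n (Nat.unpair k).1) : C(E n, ℝ)), ?_, ?_⟩
  · intro k
    exact (TopologicalSpace.denseSeq (D n (Nat.unpair k).1) (Nat.unpair k).2).2.1
  · intro ψ hψ
    obtain ⟨r, hr⟩ := hψ.2.isBounded.subset_closedBall (0 : E n)
    obtain ⟨R, hR⟩ := exists_nat_gt r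
    have hz : ∀ z : E n, (R : ℝ) ≤ ‖z‖ → ψ z = 0 := by
      intro z hz
      apply image_eq_zero_of_notMem_tsupport
      intro h
      have h1 := hr h
      rw [mem_closedBall, dist_zero_right] at h1
      linarith
    refine ⟨R, hz, ?_⟩
    intro ε hε
    set K : Set (E n) := closedBall (0 : E n) R with hK
    have : CompactSpace K := isCompact_iff_compactSpace.1 (isCompact_closedBall _ _)
    let ψ' : C(E n, ℝ) := ⟨ψ, hψ.1.continuous⟩
    let x : D n R := ⟨ψ', hψ, hz⟩
    let U : Set (D n R) := {f | dist ((f : C(E n, ℝ)).restrict K) (ψ'.restrict K) < ε}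
    have hU : IsOpen U := by
      apply isOpen_lt _ continuous_const
      exact ((ContinuousMap.continuous_restrict K).comp continuous_subtype_val).dist
        continuous_const
    have hxU : U.Nonempty := ⟨x, by
      change dist (ψ'.restrict K) (ψ'.restrict K) < ε
      rw [dist_self]; exact hε⟩
    obtain ⟨i, hi⟩ := (TopologicalSpace.denseRange_denseSeq (D n R)).exists_mem_open hU hxU
    refine ⟨Nat.pair R i, ?_⟩
    have hun : Nat.unpair (Nat.pair R i) = (R, i) := Nat.unpair_pair R i
    beta_reduce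
    rw [hun]
    set f : D n R := TopologicalSpace.denseSeq (D n R) i with hf
    refine ⟨fun z hz => f.2.2 z hz, ?_⟩
    intro z
    by_cases h : (R : ℝ) ≤ ‖z‖
    · change |(f : C(E n, ℝ)) z - ψ z| ≤ ε
      rw [f.2.2 z h, hz z h, sub_zero, abs_zero]
      exact hε.le
    · have hzK : z ∈ K := by
        rw [hK, mem_closedBall, dist_zero_right]
        exact (not_le.1 h).le
      have h1 := ContinuousMap.dist_apply_le_dist (f := (f : C(E n, ℝ)).restrict K)
        (g := ψ'.restrict K) ⟨z, hzK⟩
      have h2 : dist ((f : C(E n, ℝ)) z) (ψ z) ≤ ε := h1.trans (le_of_lt hi)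
      rwa [Real.dist_eq] at h2

end Pool.Agent.CEL
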