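import Pool.Agent.CEL.Stmts

/-!
# CEL: slices with prescribed direction
-/

set_option autoImplicit false
open Topology Filter MeasureTheory Matrix Metric
open scoped ENNReal

namespace Pool.Agent.CEL

namespace SLI_

/-- the splitting of the last coordinate, as a linear equivalence -/
noncomputable def spl (m : ℕ) : (E m × ℝ) ≃ₗ[ℝ] E (m + 1) where
  toFun z := WithLp.toLp 2 (Fin.snoc (α := fun _ => ℝ) (fun i => z.1 i) z.2)
  invFun w := (WithLp.toLp 2 (fun i => w (Fin.castSucc i)), w (Fin.last m))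
  map_add' z w := by
    ext i
    refine Fin.lastCases ?_ (fun j => ?_) i
    · simp
    · simp
  map_smul' c z := by
    ext i
    refine Fin.lastCases ?_ (fun j => ?_) i
    · simp
    · simp
  left_inv z := by
    ext i
    · simp
    · simp
  right_inv w := by
    ext i
    refine Fin.lastCases ?_ (fun j => ?_) i
    · simp
    · simp

theorem spl_last (m : ℕ) (z : E m × ℝ) : spl m z (Fin.last m) = z.2 := by
  simp [spl]

theorem spl_castSucc (m : ℕ) (z : E m × ℝ) (i : Fin m) : spl m z (Fin.castSucc i) = z.1 i := by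
  simp [spl]

theorem spl_norm (m : ℕ) (p : E m) (t : ℝ) : ‖spl m (p, t)‖ ^ 2 = ‖p‖ ^ 2 + t ^ 2 := by
  rw [EuclideanSpace.real_norm_sq_eq, EuclideanSpace.real_norm_sq_eq, Fin.sum_univ_castSucc]
  simp only [spl_last, spl_castSucc]

theorem spl_mp (m : ℕ) : MeasurePreserving (spl m) (volume : Measure (E m × ℝ))
    (volume : Measure (E (m + 1))) := by
  -- the inverse direction
  have h1 : MeasurePreserving (WithLp.ofLp : E (m + 1) → (Fin (m + 1) → ℝ)) :=
    PiLp.volume_preserving_ofLp (Fin (m + 1))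
  have h2 := volume_preserving_piFinSuccAbove (fun _ : Fin (m + 1) => ℝ) (Fin.last m)
  have h3 : MeasurePreserving (WithLp.toLp 2 : (Fin m → ℝ) → E m) :=
    PiLp.volume_preserving_toLp (Fin m)
  have h4 : MeasurePreserving (Prod.swap : ℝ × (Fin m → ℝ) → (Fin m → ℝ) × ℝ)
      (volume.prod volume) (volume.prod volume) := Measure.measurePreserving_swap
  have h5 : MeasurePreserving (Prod.map (WithLp.toLp 2 : (Fin m → ℝ) → E m) (id : ℝ → ℝ))
      (volume.prod volume) (volume.prod volume) := h3.prod (MeasurePreserving.id volume)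
  have h6 := h5.comp (h4.comp (h2.comp h1))
  let e : E (m + 1) ≃ᵐ (E m × ℝ) := (spl m).symm.toContinuousLinearEquiv.toHomeomorph.toMeasurableEquiv
  have h7 : MeasurePreserving e (volume : Measure (E (m + 1))) (volume : Measure (E m × ℝ)) := by
    have : (e : E (m + 1) → E m × ℝ) = (Prod.map (WithLp.toLp 2 : (Fin m → ℝ) → E m) (id : ℝ → ℝ)) ∘
        (Prod.swap ∘ ((MeasurableEquiv.piFinSuccAbove (fun _ : Fin (m + 1) => ℝ) (Fin.last m)) ∘
          (WithLp.ofLp : E (m + 1) → (Fin (m + 1) → ℝ)))) := by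
      funext w
      refine Prod.ext ?_ rfl
      ext i
      show w (Fin.castSucc i) = w ((Fin.last m).succAbove i)
      rw [Fin.succAbove_last]
    rw [this]
    exact h6
  exact h7.symm e

/-- the shear -/
noncomputable def shr (m : ℕ) (θ : E m) : (E m × ℝ) ≃ₗ[ℝ] (E m × ℝ) where
  toFun z := (z.1 + z.2 • θ, z.2)
  invFun z := (z.1 - z.2 • θ, z.2)
  map_add' z w := by
    refine Prod.ext ?_ rfl
    show z.1 + w.1 + (z.2 + w.2) • θ = (z.1 + z.2 • θ) + (w.1 + w.2 • θ)
    rw [add_smul]; abel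
  map_smul' c z := by
    refine Prod.ext ?_ rfl
    show c • z.1 + (c * z.2) • θ = c • (z.1 + z.2 • θ)
    rw [smul_add, smul_smul]
  left_inv z := by
    refine Prod.ext ?_ rfl
    show z.1 + z.2 • θ - z.2 • θ = z.1
    abel
  right_inv z := by
    refine Prod.ext ?_ rfl
    show z.1 - z.2 • θ + z.2 • θ = z.1
    abel

theorem shr_mp (m : ℕ) (θ : E m) : MeasurePreserving (shr m θ) (volume : Measure (E m × ℝ))
    (volume : Measure (E m × ℝ)) := by
  have h1 : MeasurePreserving (fun p : ℝ × E m => (id p.1, (fun (t : ℝ) (q : E m) => q + t • θ) p.1 p.2))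
      ((volume : Measure ℝ).prod (volume : Measure (E m)))
      ((volume : Measure ℝ).prod (volume : Measure (E m))) := by
    have hgm : Measurable (Function.uncurry (fun (t : ℝ) (q : E m) => q + t • θ)) :=
      measurable_snd.add (measurable_fst.smul_const θ)
    have hg : ∀ᵐ t ∂(volume : Measure ℝ),
        Measure.map ((fun (t : ℝ) (q : E m) => q + t • θ) t) (volume : Measure (E m)) =
          (volume : Measure (E m)) :=
      Filter.Eventually.of_forall fun t =>
        (measurePreserving_add_right (volume : Measure (E m)) (t • θ)).map_eq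
    exact MeasurePreserving.skew_product (MeasurePreserving.id (volume : Measure ℝ)) hgm hg
  have h2 : MeasurePreserving (Prod.swap : ℝ × E m → E m × ℝ)
      (volume.prod volume) (volume.prod volume) := Measure.measurePreserving_swap
  have h3 : MeasurePreserving (Prod.swap : E m × ℝ → ℝ × E m)
      (volume.prod volume) (volume.prod volume) := Measure.measurePreserving_swap
  exact h2.comp (h1.comp h3)

end SLI_

open SLI_

theorem sli_proof : Stmt_SLI := by
  classical
  intro m d hd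
  -- the orthonormal basis
  obtain ⟨b, hb⟩ : ∃ b : OrthonormalBasis (Fin (m + 1)) ℝ (E (m + 1)),
      ∀ i ∈ ({Fin.last m} : Set (Fin (m + 1))), b i = (fun _ => d) i := by
    refine Orthonormal.exists_orthonormalBasis_extension_of_card_eq (by simp) ?_
    constructor
    · intro i
      exact hd
    · intro i j hij
      exfalso
      apply hij
      exact Subsingleton.elim (α := ({Fin.last m} : Set (Fin (m + 1)))) i j
  have hbd : b (Fin.last m) = d := hb _ rfl
  let U : E (m + 1) ≃ₗᵢ[ℝ] E (m + 1) := b.repr.symm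
  have hU : U (EuclideanSpace.single (Fin.last m) (1 : ℝ)) = d := by
    rw [← hbd]
    exact b.repr_symm_single (Fin.last m)
  let Φ : (E m × ℝ) ≃L[ℝ] E (m + 1) :=
    (spl m).toContinuousLinearEquiv.trans U.toContinuousLinearEquiv
  have hΦ : ∀ z, Φ z = U (spl m z) := fun z => rfl
  have hspl1 : spl m (0, 1) = EuclideanSpace.single (Fin.last m) (1 : ℝ) := by
    ext i
    refine Fin.lastCases ?_ (fun j => ?_) i
    · rw [spl_last]; simp
    · rw [spl_castSucc]; simp
  have hnorm : ∀ p t, ‖Φ (p, t)‖ ^ 2 = ‖p‖ ^ 2 + t ^ 2 := by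
    intro p t
    rw [hΦ, U.norm_map, spl_norm]
  have hinner : ∀ p t, inner ℝ (Φ (p, t)) d = t := by
    intro p t
    rw [hΦ, ← hU, U.inner_map_map, EuclideanSpace.inner_single_right]
    simp [spl_last]
  have hmp : MeasurePreserving Φ (volume : Measure (E m × ℝ)) (volume : Measure (E (m + 1))) :=
    (U.measurePreserving).comp (spl_mp m)
  refine ⟨Φ, by rw [hΦ, hspl1, hU], hnorm, hinner, hmp, ?_⟩
  intro θ hθ
  have key : ∀ p t, ‖p‖ ≤ 2 * ‖Φ (p + t • θ, t)‖ ∧ |t| ≤ ‖Φ (p + t • θ, t)‖ := by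
    intro p t
    have h1 := hnorm (p + t • θ) t
    have h2 : |t| ≤ ‖Φ (p + t • θ, t)‖ := by
      refine abs_le_of_sq_le_sq ?_ (norm_nonneg _)
      rw [h1]
      nlinarith [sq_nonneg ‖p + t • θ‖]
    have h3 : ‖p + t • θ‖ ≤ ‖Φ (p + t • θ, t)‖ := by
      have h31 : ‖p + t • θ‖ ^ 2 ≤ ‖Φ (p + t • θ, t)‖ ^ 2 := by
        rw [h1]
        nlinarith [sq_nonneg t]
      exact (sq_le_sq₀ (norm_nonneg _) (norm_nonneg _)).1 h31
    have h4 : ‖p‖ ≤ ‖p + t • θ‖ + ‖t • θ‖ := by
      calc ‖p‖ = ‖(p + t • θ) - t • θ‖ := by rw [add_sub_cancel_right]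
        _ ≤ _ := norm_sub_le _ _
    have h5 : ‖t • θ‖ ≤ |t| := by
      rw [norm_smul, Real.norm_eq_abs]
      exact mul_le_of_le_one_right (abs_nonneg t) hθ
    exact ⟨by linarith, h2⟩
  let Q : (E m × ℝ) ≃L[ℝ] E (m + 1) := (shr m θ).toContinuousLinearEquiv.trans Φ
  have hQ : ∀ z : E m × ℝ, Q z = Φ (z.1 + z.2 • θ, z.2) := fun z => rfl
  refine ⟨⟨Q, hmp.comp (shr_mp m θ), ?_, ?_⟩, fun p t => rfl⟩
  · intro z
    have h1 := (key (Q.symm z).1 (Q.symm z).2).1
    have h2 : Φ ((Q.symm z).1 + (Q.symm z).2 • θ, (Q.symm z).2) = z := by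
      rw [← hQ, Q.apply_symm_apply]
    rwa [h2] at h1
  · intro z
    have h1 := (key (Q.symm z).1 (Q.symm z).2).2
    have h2 : Φ ((Q.symm z).1 + (Q.symm z).2 • θ, (Q.symm z).2) = z := by
      rw [← hQ, Q.apply_symm_apply]
    rwa [h2] at h1

end Pool.Agent.CEL
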