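import Pool.Agent.CEL.Stmts

/-!
# CEL, module SMB: Lemma A for smooth functions
-/

set_option autoImplicit false
open Topology Filter MeasureTheory Matrix Metric
open scoped ENNReal

namespace Pool.Agent.CEL

namespace SMB_

variable {n N K : ℕ}

theorem natle (j : ℕ) : (j : WithTop ℕ∞) ≤ ((⊤ : ℕ∞) : WithTop ℕ∞) := by
  exact_mod_cast le_top

theorem norm_bs (j : Fin n) : ‖(bs j : E n)‖ = 1 := by
  simp [bs]

/-- Integration by parts of order `k`. -/
theorem ibp (k : ℕ) : ∀ (H : E n → ℝ) (v : E n → (Fin K → ℝ)), ContDiff ℝ (⊤ : ℕ∞) H →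
    HasCompactSupport H → ContDiff ℝ (⊤ : ℕ∞) v → ∀ m : Fin k → E n,
    ∃ H' : E n → ℝ, (∀ q, |H' q| ≤ ‖iteratedFDeriv ℝ k H q‖ * ∏ i, ‖m i‖) ∧
      ∫ q, H q • iteratedFDeriv ℝ k v q m = ∫ q, H' q • v q := by
  induction k with
  | zero =>
    intro H v hH hHc hv m
    refine ⟨H, fun q => ?_, ?_⟩
    · simp
    · simp
  | succ k ih =>
    intro H v hH hHc hv m
    set g : E n → (Fin K → ℝ) := fun q => iteratedFDeriv ℝ k v q (Fin.tail m) with hg
    have hvk : ContDiff ℝ (⊤ : ℕ∞) (iteratedFDeriv ℝ k v) := by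
      apply hv.iteratedFDeriv_right
      exact_mod_cast le_top
    have hdk : Differentiable ℝ (iteratedFDeriv ℝ k v) := hvk.differentiable (by simp)
    have hgs : ContDiff ℝ (⊤ : ℕ∞) g := by
      have : g = (ContinuousMultilinearMap.apply ℝ (fun _ : Fin k => E n) (Fin K → ℝ)
        (Fin.tail m)) ∘ (iteratedFDeriv ℝ k v) := rfl
      rw [this]
      exact (ContinuousLinearMap.contDiff _).comp hvk
    have hgd : Differentiable ℝ g := hgs.differentiable (by simp)
    have hHd : Differentiable ℝ H := hH.differentiable (by simp)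
    have h1 : ∀ q, iteratedFDeriv ℝ (k + 1) v q m = fderiv ℝ g q (m 0) := fun q =>
      DifferentiableAt.iteratedFDeriv_succ_apply_left' (hdk q)
    have hHf : Continuous (fun q => fderiv ℝ H q (m 0)) :=
      (hH.continuous_fderiv (by simp)).clm_apply continuous_const
    have hgf : Continuous (fun q => fderiv ℝ g q (m 0)) :=
      (hgs.continuous_fderiv (by simp)).clm_apply continuous_const
    have hHfc : HasCompactSupport (fun q => fderiv ℝ H q (m 0)) :=
      hHc.fderiv_apply (𝕜 := ℝ) (m 0)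
    have h2 : ∫ q, H q • fderiv ℝ g q (m 0) = - ∫ q, fderiv ℝ H q (m 0) • g q := by
      apply integral_smul_fderiv_eq_neg_fderiv_smul_of_integrable
      · exact (hHf.smul hgs.continuous).integrable_of_hasCompactSupport hHfc.smul_right
      · exact (hH.continuous.smul hgf).integrable_of_hasCompactSupport hHc.smul_right
      · exact (hH.continuous.smul hgs.continuous).integrable_of_hasCompactSupport hHc.smul_right
      · exact fun x _ => hHd x
      · exact fun x _ => hgd x
    set L : (E n →L[ℝ] ℝ) →L[ℝ] ℝ := -(ContinuousLinearMap.apply ℝ ℝ (m 0)) with hL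
    set H1 : E n → ℝ := L ∘ (fderiv ℝ H) with hH1
    have hH1e : ∀ q, H1 q = -(fderiv ℝ H q (m 0)) := fun q => rfl
    have hfd : ContDiff ℝ (⊤ : ℕ∞) (fderiv ℝ H) := hH.fderiv_right (by exact_mod_cast le_top)
    have hH1s : ContDiff ℝ (⊤ : ℕ∞) H1 := L.contDiff.comp hfd
    have hH1c : HasCompactSupport H1 := by
      apply (hHc.fderiv (𝕜 := ℝ)).comp_left
      simp
    obtain ⟨H', hb, he⟩ := ih H1 v hH1s hH1c hv (Fin.tail m)
    refine ⟨H', fun q => ?_, ?_⟩
    · have hLn : ‖L‖ ≤ ‖m 0‖ := by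
        refine ContinuousLinearMap.opNorm_le_bound _ (norm_nonneg _) (fun y => ?_)
        have hy : L y = -(y (m 0)) := rfl
        rw [hy, norm_neg, mul_comm]
        exact y.le_opNorm (m 0)
      have h3 : ‖iteratedFDeriv ℝ k H1 q‖ ≤ ‖m 0‖ * ‖iteratedFDeriv ℝ (k + 1) H q‖ := by
        have := L.norm_iteratedFDeriv_comp_left (x := q) (n := k) (N := ((⊤ : ℕ∞) : WithTop ℕ∞))
          hfd.contDiffAt (by exact_mod_cast le_top)
        rw [norm_iteratedFDeriv_fderiv] at this
        exact this.trans (mul_le_mul_of_nonneg_right hLn (norm_nonneg _))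
      calc |H' q| ≤ ‖iteratedFDeriv ℝ k H1 q‖ * ∏ i, ‖Fin.tail m i‖ := hb q
        _ ≤ (‖m 0‖ * ‖iteratedFDeriv ℝ (k + 1) H q‖) * ∏ i, ‖Fin.tail m i‖ :=
            mul_le_mul_of_nonneg_right h3 (Finset.prod_nonneg fun i _ => norm_nonneg _)
        _ = ‖iteratedFDeriv ℝ (k + 1) H q‖ * ∏ i, ‖m i‖ := by
            rw [Fin.prod_univ_succ]
            unfold Fin.tail
            ring
    · rw [← he]
      have h4 : ∫ q, H q • iteratedFDeriv ℝ (k + 1) v q m = ∫ q, H q • fderiv ℝ g q (m 0) := by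
        refine integral_congr_ae (Filter.Eventually.of_forall fun q => ?_)
        simp only [h1 q]
      rw [h4, h2, ← integral_neg]
      refine integral_congr_ae (Filter.Eventually.of_forall fun q => ?_)
      simp only [hH1e, neg_smul, hg]

/-- The bounds of the derivatives of a test function. -/
theorem exists_CB (ℓ : ℕ) (χ : E n → ℝ) (h : TF χ) : ∃ M : ℝ, 0 ≤ M ∧ CB ℓ M χ := by
  have h1 : ∀ j : ℕ, ∃ M : ℝ, ∀ z, ‖iteratedFDeriv ℝ j χ z‖ ≤ M := by
    intro j
    have hc : Continuous (iteratedFDeriv ℝ j χ) :=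
      h.1.continuous_iteratedFDeriv (by exact_mod_cast le_top)
    have hs : HasCompactSupport (iteratedFDeriv ℝ j χ) := h.2.iteratedFDeriv j
    obtain ⟨M, hM⟩ := hs.exists_bound_of_continuous hc
    exact ⟨M, hM⟩
  choose M hM using h1
  refine ⟨∑ j ∈ Finset.range (ℓ + 1), |M j|, Finset.sum_nonneg fun _ _ => abs_nonneg _, ?_⟩
  intro j hj z
  calc ‖iteratedFDeriv ℝ j χ z‖ ≤ M j := hM j z
    _ ≤ |M j| := le_abs_self _
    _ ≤ ∑ j ∈ Finset.range (ℓ + 1), |M j| :=
        Finset.single_le_sum (f := fun j => |M j|) (fun _ _ => abs_nonneg _)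
          (Finset.mem_range.2 (by omega))

theorem BD_smooth (A : Op n N K) (w : E n → (Fin N → ℝ)) (hw : ContDiff ℝ (⊤ : ℕ∞) w)
    (hc : HasCompactSupport w) : ContDiff ℝ (⊤ : ℕ∞) (BD A w) ∧ HasCompactSupport (BD A w) := by
  set Φ : (E n →L[ℝ] (Fin N → ℝ)) →L[ℝ] (Fin K → ℝ) :=
    ∑ j, ((A j).mulVecLin.toContinuousLinearMap).comp
      (ContinuousLinearMap.apply ℝ (Fin N → ℝ) (bs j : E n)) with hΦ
  have h : BD A w = Φ ∘ (fderiv ℝ w) := by
    funext x
    simp only [BD, hΦ, Function.comp_apply, _root_.sum_apply,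
      ContinuousLinearMap.comp_apply, ContinuousLinearMap.apply_apply]
    rfl
  rw [h]
  exact ⟨Φ.contDiff.comp (hw.fderiv_right (by exact_mod_cast le_top)),
    (hc.fderiv (𝕜 := ℝ)).comp_left (map_zero Φ)⟩

/-- Expansion of a multilinear map in the standard basis. -/
theorem expand {ℓ : ℕ} (f : ContinuousMultilinearMap ℝ (fun _ : Fin ℓ => E n) (Fin N → ℝ))
    (p : E n) : f (fun _ => p) = ∑ a : Fin ℓ → Fin n, (∏ i, p (a i)) • f (fun i => bs (a i)) := by
  have hp : p = ∑ j, p j • (bs j : E n) := by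
    ext i
    simp [bs, Finset.sum_apply, Pi.single_apply]
  have h1 : f (fun _ => p) = f (fun _ => ∑ j, p j • (bs j : E n)) := by
    rw [← hp]
  rw [h1]
  have h2 := f.toMultilinearMap.map_sum (fun (_ : Fin ℓ) (j : Fin n) => p j • (bs j : E n))
  have h3 : f (fun _ => ∑ j, p j • (bs j : E n)) =
      ∑ r : Fin ℓ → Fin n, f (fun i => p (r i) • (bs (r i) : E n)) := h2
  rw [h3]
  refine Finset.sum_congr rfl fun r _ => ?_
  exact f.toMultilinearMap.map_smul_univ (fun i => p (r i)) (fun i => bs (r i))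

/-- The key estimate for a fixed `b`. -/
theorem est (C : Set (E n)) (hC : IsCompact C) (hconv : Convex ℝ C) (ℓ : ℕ)
    (h χ : E n → ℝ) (hh : TF h) (hχ : TF χ) (hhC : tsupport h ⊆ C) (hχC : tsupport χ ⊆ C)
    (M Mχ : ℝ) (hM : CB ℓ M h) (hMχ : CB ℓ Mχ χ) (k : ℕ) (hk : k ≤ ℓ)
    (v : E n → (Fin K → ℝ)) (hv : ContDiff ℝ (⊤ : ℕ∞) v)
    (s : ℝ) (hs0 : 0 ≤ s) (hs1 : s ≤ 1) (p : E n) (b : Fin k → Fin n) :
    ‖∫ q, (h (q + (1 - s) • p) * χ (q - s • p)) • iteratedFDeriv ℝ k v q (fun i => bs (b i))‖ ≤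
      2 ^ k * M * Mχ * ∫ q in C, ‖v q‖ := by
  have hM0 : 0 ≤ M := (norm_nonneg _).trans (hM 0 (Nat.zero_le _) 0)
  have hMχ0 : 0 ≤ Mχ := (norm_nonneg _).trans (hMχ 0 (Nat.zero_le _) 0)
  set H : E n → ℝ := fun q => h (q + (1 - s) • p) * χ (q - s • p) with hH
  have hH1 : ContDiff ℝ (⊤ : ℕ∞) (fun q => h (q + (1 - s) • p)) :=
    hh.1.comp (contDiff_id.add contDiff_const)
  have hH2 : ContDiff ℝ (⊤ : ℕ∞) (fun q => χ (q + (-(s • p)))) :=
    hχ.1.comp (contDiff_id.add contDiff_const)
  have hHe : H = fun q => h (q + (1 - s) • p) * χ (q + (-(s • p))) := by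
    funext q
    simp only [hH, sub_eq_add_neg]
  have hHs : ContDiff ℝ (⊤ : ℕ∞) H := by
    rw [hHe]
    exact hH1.mul hH2
  have hsup : tsupport H ⊆ C := by
    have h1 : Function.support H ⊆ C := by
      intro q hq
      have hq' : h (q + (1 - s) • p) * χ (q - s • p) ≠ 0 := hq
      have a1 : q + (1 - s) • p ∈ C := hhC (subset_tsupport _ (left_ne_zero_of_mul hq'))
      have a2 : q - s • p ∈ C := hχC (subset_tsupport _ (right_ne_zero_of_mul hq'))
      have a3 : s • (q + (1 - s) • p) + (1 - s) • (q - s • p) = q := by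
        rw [smul_add, smul_sub, smul_smul, smul_smul, sub_smul, one_smul, mul_comm (1 - s) s]
        abel
      rw [← a3]
      exact hconv a1 a2 hs0 (by linarith) (by ring)
    exact closure_minimal h1 hC.isClosed
  have hHc : HasCompactSupport H := hC.of_isClosed_subset (isClosed_tsupport _) hsup
  have hnorm : ∀ q, ‖iteratedFDeriv ℝ k H q‖ ≤ 2 ^ k * M * Mχ := by
    intro q
    rw [hHe]
    refine (norm_iteratedFDeriv_mul_le (N := ((⊤ : ℕ∞) : WithTop ℕ∞)) hH1 hH2 q
      (by exact_mod_cast le_top)).trans ?_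
    have h2 : ∀ i ∈ Finset.range (k + 1),
        (k.choose i : ℝ) * ‖iteratedFDeriv ℝ i (fun q => h (q + (1 - s) • p)) q‖ *
          ‖iteratedFDeriv ℝ (k - i) (fun q => χ (q + (-(s • p)))) q‖ ≤
        (k.choose i : ℝ) * (M * Mχ) := by
      intro i hi
      rw [Finset.mem_range] at hi
      rw [iteratedFDeriv_comp_add_right, iteratedFDeriv_comp_add_right, mul_assoc]
      apply mul_le_mul_of_nonneg_left _ (Nat.cast_nonneg _)
      exact mul_le_mul (hM i (by omega) _) (hMχ (k - i) (by omega) _) (norm_nonneg _) hM0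
    refine (Finset.sum_le_sum h2).trans (le_of_eq ?_)
    rw [← Finset.sum_mul]
    have h3 : (∑ i ∈ Finset.range (k + 1), (k.choose i : ℝ)) = 2 ^ k := by
      exact_mod_cast Nat.sum_range_choose k
    rw [h3]
    ring
  obtain ⟨H', hb, he⟩ := ibp k H v hHs hHc hv (fun i => bs (b i))
  rw [he]
  have hprod : ∏ i, ‖(bs (b i) : E n)‖ = 1 := by
    apply Finset.prod_eq_one
    intro i _
    exact norm_bs _
  have hb' : ∀ q, |H' q| ≤ 2 ^ k * M * Mχ := by
    intro q
    have := hb q
    rw [hprod, mul_one] at this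
    exact this.trans (hnorm q)
  have hz : ∀ q, q ∉ C → H' q • v q = 0 := by
    intro q hq
    have h1 : iteratedFDeriv ℝ k H q = 0 := by
      by_contra hne
      exact hq (hsup (support_iteratedFDeriv_subset k hne))
    have := hb q
    rw [h1, norm_zero, zero_mul] at this
    have h2 : H' q = 0 := abs_eq_zero.1 (le_antisymm this (abs_nonneg _))
    rw [h2, zero_smul]
  rw [← setIntegral_eq_integral_of_forall_compl_eq_zero hz, ← integral_const_mul]
  apply norm_integral_le_of_norm_le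
  · apply Integrable.const_mul
    exact (hv.continuous.norm.continuousOn).integrableOn_compact hC
  · refine Filter.Eventually.of_forall fun q => ?_
    rw [norm_smul, Real.norm_eq_abs]
    exact mul_le_mul_of_nonneg_right (hb' q) (norm_nonneg _)

end SMB_

open SMB_ in
theorem smb_proof (h1 : Stmt_DID) (h2 : Stmt_TAY) : Stmt_SMB := by
  intro n N K ℓ A hA C hC hconv hint
  have hℓ : 1 ≤ ℓ := hA.1
  -- the reference bump
  obtain ⟨c, hc⟩ := hint
  obtain ⟨r, hr, hball⟩ := Metric.isOpen_iff.1 isOpen_interior c hc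
  let χb : ContDiffBump c := ⟨r / 4, r / 2, by positivity, by linarith⟩
  set χ : E n → ℝ := χb.normed volume with hχdef
  have hχ : TF χ := ⟨χb.contDiff_normed, χb.hasCompactSupport_normed⟩
  have hχ1 : ∫ x, χ x = 1 := χb.integral_normed
  have hχC : tsupport χ ⊆ C := by
    rw [hχdef, χb.tsupport_normed_eq]
    refine Set.Subset.trans ?_ (Set.Subset.trans hball interior_subset)
    exact closedBall_subset_ball (by change r / 2 < r; linarith)
  obtain ⟨Mχ, hMχ0, hMχ⟩ := exists_CB ℓ χ hχ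
  choose Lb hLb using h1 n N K ℓ A hA
  obtain ⟨D, hD⟩ := hC.isBounded.subset_closedBall 0
  have hD0 : 0 ≤ D := by
    have := hD (interior_subset hc)
    rw [mem_closedBall, dist_zero_right] at this
    exact (norm_nonneg _).trans this
  set T : (Fin ℓ → Fin n) → (Fin (ℓ - 1) → Fin n) → ((Fin K → ℝ) →L[ℝ] (Fin N → ℝ)) :=
    fun a b => (Lb a b).mulVecLin.toContinuousLinearMap with hT
  have hTe : ∀ a b y, T a b y = Lb a b *ᵥ y := fun a b y => rfl
  set C₁ : ℝ := ∑ a : Fin ℓ → Fin n, ∑ b : Fin (ℓ - 1) → Fin n,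
    (2 * D) ^ ℓ * (‖T a b‖ * (2 ^ (ℓ - 1) * Mχ)) with hC₁
  have hC₁0 : 0 ≤ C₁ := by positivity
  set V : ℝ := (volume (closedBall (0 : E n) (2 * D))).toReal with hV
  refine ⟨C₁ * V, by positivity, ?_⟩
  intro h hh hhC horth M hM w hw hwc
  have hM0 : 0 ≤ M := (norm_nonneg _).trans (hM 0 (Nat.zero_le _) 0)
  rw [h2 n N ℓ hℓ h χ hh hχ hχ1 horth w hw hwc]
  obtain ⟨hvs, hvc⟩ := BD_smooth A w hw hwc
  set v := BD A w with hv
  set I : ℝ := ∫ q in C, ‖v q‖ with hI
  have hI0 : 0 ≤ I := integral_nonneg fun _ => norm_nonneg _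
  have hC2 : IsCompact C := hC
  -- the inner integral
  have hF : ∀ s : ℝ, 0 ≤ s → s ≤ 1 → ∀ p : E n,
      ‖∫ q, (h (q + (1 - s) • p) * χ (q - s • p)) • iteratedFDeriv ℝ ℓ w q (fun _ => p)‖ ≤
        (closedBall (0 : E n) (2 * D)).indicator (fun _ => C₁ * M * I) p := by
    intro s hs0 hs1 p
    by_cases hp : p ∈ closedBall (0 : E n) (2 * D)
    · rw [Set.indicator_of_mem hp]
      rw [mem_closedBall, dist_zero_right] at hp
      have hint0 : ∀ b : Fin (ℓ - 1) → Fin n, Integrable (fun q =>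
          (h (q + (1 - s) • p) * χ (q - s • p)) •
            iteratedFDeriv ℝ (ℓ - 1) v q (fun i => bs (b i))) := by
        intro b
        have c1 : Continuous (fun q => h (q + (1 - s) • p)) :=
          hh.1.continuous.comp (continuous_id.add continuous_const)
        have c2 : Continuous (fun q => χ (q - s • p)) :=
          hχ.1.continuous.comp (continuous_id.sub continuous_const)
        have c3 : Continuous (fun q => iteratedFDeriv ℝ (ℓ - 1) v q (fun i => bs (b i))) := by
          have : (fun q => iteratedFDeriv ℝ (ℓ - 1) v q (fun i => bs (b i))) =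
              (ContinuousMultilinearMap.apply ℝ (fun _ : Fin (ℓ - 1) => E n) (Fin K → ℝ)
                (fun i => bs (b i))) ∘ (iteratedFDeriv ℝ (ℓ - 1) v) := rfl
          rw [this]
          have hcv : Continuous (iteratedFDeriv ℝ (ℓ - 1) v) :=
            hvs.continuous_iteratedFDeriv (natle (ℓ - 1))
          exact (ContinuousLinearMap.continuous _).comp hcv
        have c4 : HasCompactSupport (fun q => h (q + (1 - s) • p)) :=
          hh.2.comp_homeomorph (Homeomorph.addRight ((1 - s) • p))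
        exact ((c1.mul c2).smul c3).integrable_of_hasCompactSupport (c4.mul_right).smul_right
      have hint1 : ∀ a b, Integrable (fun q => (∏ i, p (a i)) • T a b
          ((h (q + (1 - s) • p) * χ (q - s • p)) •
            iteratedFDeriv ℝ (ℓ - 1) v q (fun i => bs (b i)))) := by
        intro a b
        exact Integrable.smul (∏ i, p (a i)) ((T a b).integrable_comp (hint0 b))
      have hexp : ∀ q, (h (q + (1 - s) • p) * χ (q - s • p)) •
          iteratedFDeriv ℝ ℓ w q (fun _ => p) =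
          ∑ a, ∑ b, (∏ i, p (a i)) • T a b ((h (q + (1 - s) • p) * χ (q - s • p)) •
            iteratedFDeriv ℝ (ℓ - 1) v q (fun i => bs (b i))) := by
        intro q
        rw [expand, Finset.smul_sum]
        refine Finset.sum_congr rfl fun a _ => ?_
        rw [hLb a w hw hwc q, Finset.smul_sum, Finset.smul_sum]
        refine Finset.sum_congr rfl fun b _ => ?_
        rw [map_smul, hTe, smul_comm]
      have hI1 : ∫ q, (h (q + (1 - s) • p) * χ (q - s • p)) •
          iteratedFDeriv ℝ ℓ w q (fun _ => p) =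
          ∑ a, ∑ b, (∏ i, p (a i)) • T a b (∫ q, (h (q + (1 - s) • p) * χ (q - s • p)) •
            iteratedFDeriv ℝ (ℓ - 1) v q (fun i => bs (b i))) := by
        rw [integral_congr_ae (Filter.Eventually.of_forall hexp)]
        rw [integral_finsetSum _ (fun a _ => integrable_finsetSum _ fun b _ => hint1 a b)]
        refine Finset.sum_congr rfl fun a _ => ?_
        rw [integral_finsetSum _ (fun b _ => hint1 a b)]
        refine Finset.sum_congr rfl fun b _ => ?_
        rw [integral_smul, ContinuousLinearMap.integral_comp_comm _ (hint0 b)]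
      rw [hI1]
      have hterm : ∀ (a : Fin ℓ → Fin n) (b : Fin (ℓ - 1) → Fin n),
          ‖(∏ i, p (a i)) • T a b (∫ q, (h (q + (1 - s) • p) * χ (q - s • p)) •
            iteratedFDeriv ℝ (ℓ - 1) v q (fun i => bs (b i)))‖ ≤
          (2 * D) ^ ℓ * (‖T a b‖ * (2 ^ (ℓ - 1) * Mχ)) * (M * I) := by
        intro a b
        rw [norm_smul]
        have e1 : ‖∏ i, p (a i)‖ ≤ (2 * D) ^ ℓ := by
          rw [norm_prod]
          calc ∏ i, ‖p (a i)‖ ≤ ∏ _i : Fin ℓ, (2 * D) :=
                Finset.prod_le_prod (fun _ _ => norm_nonneg _)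
                  (fun i _ => (PiLp.norm_apply_le p (a i)).trans hp)
            _ = (2 * D) ^ ℓ := by simp
        have e2 := est C hC hconv ℓ h χ hh hχ hhC hχC M Mχ hM hMχ (ℓ - 1) (by omega) v hvs s
          hs0 hs1 p b
        have e3 := ((T a b).le_opNorm (∫ q, (h (q + (1 - s) • p) * χ (q - s • p)) •
            iteratedFDeriv ℝ (ℓ - 1) v q (fun i => bs (b i)))).trans
              (mul_le_mul_of_nonneg_left e2 (norm_nonneg _))
        calc ‖∏ i, p (a i)‖ * ‖T a b (∫ q, (h (q + (1 - s) • p) * χ (q - s • p)) •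
            iteratedFDeriv ℝ (ℓ - 1) v q (fun i => bs (b i)))‖
            ≤ (2 * D) ^ ℓ * (‖T a b‖ * (2 ^ (ℓ - 1) * M * Mχ * I)) :=
              mul_le_mul e1 e3 (norm_nonneg _) (by positivity)
          _ = _ := by ring
      calc ‖∑ a, ∑ b, (∏ i, p (a i)) • T a b (∫ q, (h (q + (1 - s) • p) * χ (q - s • p)) •
            iteratedFDeriv ℝ (ℓ - 1) v q (fun i => bs (b i)))‖
          ≤ ∑ a, ∑ b, (2 * D) ^ ℓ * (‖T a b‖ * (2 ^ (ℓ - 1) * Mχ)) * (M * I) :=
            norm_sum_le_of_le _ fun a _ => norm_sum_le_of_le _ fun b _ => hterm a b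
        _ = C₁ * M * I := by
            rw [hC₁, mul_assoc, Finset.sum_mul]
            refine Finset.sum_congr rfl fun a _ => ?_
            rw [Finset.sum_mul]
    · rw [Set.indicator_of_notMem hp]
      have hz : ∀ q, h (q + (1 - s) • p) * χ (q - s • p) = 0 := by
        intro q
        by_contra hne
        apply hp
        have a1 : q + (1 - s) • p ∈ C := hhC (subset_tsupport _ (left_ne_zero_of_mul hne))
        have a2 : q - s • p ∈ C := hχC (subset_tsupport _ (right_ne_zero_of_mul hne))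
        have a3 := hD a1
        have a4 := hD a2
        rw [mem_closedBall, dist_zero_right] at a3 a4 ⊢
        have a5 : p = (q + (1 - s) • p) - (q - s • p) := by
          rw [sub_smul, one_smul]
          abel
        rw [a5]
        exact (norm_sub_le _ _).trans (by linarith)
      simp only [hz, zero_smul, integral_zero, norm_zero]
      exact le_rfl
  have hG : ∀ s : ℝ, 0 ≤ s → s ≤ 1 →
      ‖∫ p, ∫ q, (h (q + (1 - s) • p) * χ (q - s • p)) • iteratedFDeriv ℝ ℓ w q (fun _ => p)‖ ≤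
        C₁ * M * I * V := by
    intro s hs0 hs1
    refine (norm_integral_le_of_norm_le ?_
      (Filter.Eventually.of_forall (hF s hs0 hs1))).trans (le_of_eq ?_)
    · exact (integrable_indicator_iff measurableSet_closedBall).2
        (integrableOn_const (measure_closedBall_lt_top).ne)
    · rw [integral_indicator measurableSet_closedBall, setIntegral_const, smul_eq_mul, mul_comm]
      rfl
  have hfin := intervalIntegral.norm_integral_le_of_norm_le_const (a := (0 : ℝ)) (b := 1)
    (C := C₁ * M * I * V) (f := fun s => ((1 - s) ^ (ℓ - 1) / (Nat.factorial (ℓ - 1) : ℝ)) •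
        ∫ p, ∫ q, (h (q + (1 - s) • p) * χ (q - s • p)) • iteratedFDeriv ℝ ℓ w q (fun _ => p)) ?_
  · refine hfin.trans (le_of_eq ?_)
    rw [sub_zero, abs_one, mul_one]
    ring
  · intro s hs
    rw [Set.uIoc_of_le zero_le_one] at hs
    rw [norm_smul]
    have e1 : ‖(1 - s) ^ (ℓ - 1) / (Nat.factorial (ℓ - 1) : ℝ)‖ ≤ 1 := by
      have e2 : 0 ≤ 1 - s := by linarith [hs.2]
      have e3 : (1 - s) ^ (ℓ - 1) ≤ 1 := pow_le_one₀ e2 (by linarith [hs.1])
      have e4 : (1 : ℝ) ≤ Nat.factorial (ℓ - 1) := by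
        exact_mod_cast Nat.succ_le_of_lt (Nat.factorial_pos _)
      rw [Real.norm_eq_abs, abs_of_nonneg (by positivity), div_le_one (by linarith)]
      linarith
    calc ‖(1 - s) ^ (ℓ - 1) / (Nat.factorial (ℓ - 1) : ℝ)‖ *
        ‖∫ p, ∫ q, (h (q + (1 - s) • p) * χ (q - s • p)) • iteratedFDeriv ℝ ℓ w q (fun _ => p)‖
        ≤ 1 * (C₁ * M * I * V) :=
          mul_le_mul e1 (hG s hs.1.le hs.2) (norm_nonneg _) zero_le_one
      _ = C₁ * M * I * V := one_mul _

end Pool.Agent.CEL
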