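import Pool.Agent.CEL.Stmts

/-!
# CEL.SUP: the support of the tangent measures is contained in a hyperplane
-/

set_option autoImplicit false
open Topology Filter MeasureTheory Matrix Metric
open scoped ENNReal

namespace Pool.Agent.CEL

namespace SUP_

/-! ### test functions -/

section
variable {n : ℕ}

theorem tf_zero : TF (fun _ : E n => (0 : ℝ)) :=
  ⟨contDiff_const, HasCompactSupport.zero⟩

theorem tf_add {ψ φ : E n → ℝ} (h : TF ψ) (h' : TF φ) : TF (fun z => ψ z + φ z) :=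
  ⟨h.1.add h'.1, h.2.add h'.2⟩

theorem tf_mul {ψ : E n → ℝ} (h : TF ψ) (c : ℝ) : TF (fun z => c * ψ z) :=
  ⟨contDiff_const.mul h.1, h.2.mul_left⟩

theorem tf_sub {ψ : E n → ℝ} (h : TF ψ) (z₀ : E n) : TF (fun z => ψ (z - z₀)) :=
  ⟨h.1.comp (contDiff_id.sub contDiff_const), h.2.comp_homeomorph (Homeomorph.subRight z₀)⟩

theorem tf_smul {ψ : E n → ℝ} (h : TF ψ) {θ : ℝ} (hθ : θ ≠ 0) : TF (fun z => ψ (θ • z)) :=
  ⟨h.1.comp (contDiff_const_smul θ), h.2.comp_smul hθ⟩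

theorem tf_cont {ψ : E n → ℝ} (h : TF ψ) : Continuous ψ := h.1.continuous

theorem tf_bdd {ψ : E n → ℝ} (h : TF ψ) : ∃ C : ℝ, 0 ≤ C ∧ ∀ z, |ψ z| ≤ C := by
  obtain ⟨C, hC⟩ := h.2.exists_bound_of_continuous (tf_cont h)
  exact ⟨C, (norm_nonneg _).trans (hC 0), hC⟩

end

section
variable {m : ℕ} {μ : Measure (E (m + 1))} [IsFiniteMeasure μ] {x : E (m + 1)}

theorem integ {ψ : E (m + 1) → ℝ} (h : TF ψ) (r : ℝ) :
    Integrable (fun y => ψ (r⁻¹ • (y - x))) μ := by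
  obtain ⟨C, -, hC⟩ := tf_bdd h
  have hc : Continuous (fun y : E (m + 1) => ψ (r⁻¹ • (y - x))) := by
    have := tf_cont h
    fun_prop
  exact Integrable.of_bound hc.aestronglyMeasurable C (Eventually.of_forall fun y => hC _)

theorem t_uniq {ψ : E (m + 1) → ℝ} {L L' : ℝ} (h : T μ x ψ L) (h' : T μ x ψ L') : L = L' :=
  tendsto_nhds_unique h h'

theorem t_zero : T μ x (fun _ => (0 : ℝ)) 0 := by
  unfold T
  simp

theorem t_add {ψ φ : E (m + 1) → ℝ} {L M : ℝ} (hψ : TF ψ) (hφ : TF φ) (h : T μ x ψ L)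
    (h' : T μ x φ M) : T μ x (fun z => ψ z + φ z) (L + M) := by
  unfold T at *
  refine (h.add h').congr fun r => ?_
  rw [integral_add (integ hψ r) (integ hφ r)]
  ring

theorem t_mul {ψ : E (m + 1) → ℝ} {L : ℝ} (c : ℝ) (h : T μ x ψ L) :
    T μ x (fun z => c * ψ z) (c * L) := by
  unfold T at *
  refine (h.const_mul c).congr fun r => ?_
  rw [integral_const_mul]
  ring

theorem t_le {ψ φ : E (m + 1) → ℝ} (hφ : TF φ) (h : T μ x φ 0)
    (hle : ∀ z, |ψ z| ≤ φ z) : T μ x ψ 0 := by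
  unfold T at *
  refine squeeze_zero_norm' ?_ h
  filter_upwards [self_mem_nhdsWithin] with r hr
  have hr0 : 0 < r := hr
  have h1 : 0 < (r ^ m)⁻¹ := by positivity
  rw [norm_mul, Real.norm_eq_abs, abs_of_pos h1]
  refine mul_le_mul_of_nonneg_left ?_ h1.le
  exact norm_integral_le_of_norm_le (integ hφ r) (Eventually.of_forall fun y => hle _)

theorem t_dil {ψ : E (m + 1) → ℝ} (h : T μ x ψ 0) {θ : ℝ} (hθ : 0 < θ) :
    T μ x (fun z => ψ (θ • z)) 0 := by
  unfold T at *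
  have h1 : Tendsto (fun r : ℝ => r / θ) (𝓝[>] 0) (𝓝[>] 0) := by
    refine tendsto_nhdsWithin_iff.2 ⟨?_, ?_⟩
    · have : Tendsto (fun r : ℝ => r / θ) (𝓝 0) (𝓝 (0 / θ)) :=
        (continuous_id.div_const θ).tendsto 0
      rw [zero_div] at this
      exact this.mono_left nhdsWithin_le_nhds
    · filter_upwards [self_mem_nhdsWithin] with r hr
      exact div_pos hr hθ
  have h2 := (h.comp h1).const_mul ((θ ^ m)⁻¹)
  rw [mul_zero] at h2
  refine h2.congr' ?_
  filter_upwards [self_mem_nhdsWithin] with r hr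
  have hr0 : 0 < r := hr
  simp only [Function.comp]
  have e1 : ∀ y : E (m + 1), (r / θ)⁻¹ • (y - x) = θ • r⁻¹ • (y - x) := fun y => by
    rw [smul_smul, inv_div, div_eq_mul_inv]
  simp_rw [e1]
  rw [← mul_assoc]
  congr 1
  rw [div_pow, inv_div, ← mul_div_assoc, inv_mul_cancel₀ (by positivity), one_div]

/-- the points of the support -/
def Sig (μ : Measure (E (m + 1))) (x : E (m + 1)) : Set (E (m + 1)) :=
  {z₀ | ∀ ψ : E (m + 1) → ℝ, TF ψ → (∀ z, 0 ≤ ψ z) → 0 < ψ z₀ → ¬ T μ x ψ 0}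

/-- no mass away from the support -/
theorem cover {K : Set (E (m + 1))} (hK : IsCompact K) (hd : ∀ z ∈ K, z ∉ Sig μ x) :
    ∃ φ : E (m + 1) → ℝ, TF φ ∧ (∀ z, 0 ≤ φ z) ∧ (∀ z ∈ K, 1 ≤ φ z) ∧ T μ x φ 0 := by
  refine hK.induction_on
    (p := fun K => ∃ φ : E (m + 1) → ℝ, TF φ ∧ (∀ z, 0 ≤ φ z) ∧ (∀ z ∈ K, 1 ≤ φ z) ∧ T μ x φ 0)
    ?_ ?_ ?_ ?_
  · exact ⟨fun _ => 0, tf_zero, fun _ => le_rfl, fun z hz => absurd hz (Set.notMem_empty z), t_zero⟩
  · rintro s t hst ⟨φ, h1, h2, h3, h4⟩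
    exact ⟨φ, h1, h2, fun z hz => h3 z (hst hz), h4⟩
  · rintro s t ⟨φ, h1, h2, h3, h4⟩ ⟨φ', h1', h2', h3', h4'⟩
    refine ⟨fun z => φ z + φ' z, tf_add h1 h1', fun z => add_nonneg (h2 z) (h2' z), ?_, ?_⟩
    · rintro z (hz | hz)
      · have := h3 z hz
        have := h2' z
        linarith
      · have := h3' z hz
        have := h2 z
        linarith
    · have := t_add h1 h1' h4 h4'
      rwa [add_zero] at this
  · intro z hz
    have h := hd z hz
    unfold Sig at h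
    simp only [Set.mem_setOf_eq, not_forall, not_not] at h
    obtain ⟨χ, h1, h2, h3, h4⟩ := h
    refine ⟨{w | χ z / 2 < χ w}, ?_, fun w => (2 / χ z) * χ w, tf_mul h1 _, fun w => ?_, ?_, ?_⟩
    · apply mem_nhdsWithin_of_mem_nhds
      exact (isOpen_lt continuous_const (tf_cont h1)).mem_nhds (by
        simp only [Set.mem_setOf_eq]
        linarith)
    · exact mul_nonneg (by positivity) (h2 w)
    · intro w hw
      simp only [Set.mem_setOf_eq] at hw
      show 1 ≤ 2 / χ z * χ w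
      rw [div_mul_eq_mul_div, le_div_iff₀ h3]
      linarith
    · have := t_mul (2 / χ z) h4
      rwa [mul_zero] at this

theorem no_mass {ψ : E (m + 1) → ℝ} (hψ : TF ψ) (hd : ∀ z ∈ tsupport ψ, z ∉ Sig μ x) :
    T μ x ψ 0 := by
  obtain ⟨φ, h1, h2, h3, h4⟩ := cover hψ.2 hd
  obtain ⟨C, hC0, hC⟩ := tf_bdd hψ
  have h5 := t_mul C h4
  rw [mul_zero] at h5
  refine t_le (tf_mul h1 C) h5 fun z => ?_
  by_cases hz : z ∈ tsupport ψ
  · have := mul_le_mul_of_nonneg_left (h3 z hz) hC0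
    have := hC z
    linarith
  · rw [image_eq_zero_of_notMem_tsupport hz, abs_zero]
    exact mul_nonneg hC0 (h2 z)

end

end SUP_

open SUP_ in
theorem sup_proof : Stmt_SUP := by
  intro m μ _ x h1 h2 h3
  have add : ∀ z₁ ∈ Sig μ x, ∀ z₀ ∈ Sig μ x, z₁ + z₀ ∈ Sig μ x := by
    intro z₁ hz₁ z₀ hz₀ ψ hψ hn hp hT
    have e0 : TF (fun z => ψ (z - -z₀)) := tf_sub hψ (-z₀)
    obtain ⟨L, hL⟩ := h1 _ e0
    have e1 := h2 z₀ hz₀ _ L e0 hL
    have e2 : (fun z => (fun z => ψ (z - -z₀)) (z - z₀)) = ψ := by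
      funext z
      simp
    rw [e2] at e1
    have e3 : L = 0 := t_uniq e1 hT
    rw [e3] at hL
    refine hz₁ _ e0 (fun z => hn _) ?_ hL
    simpa using hp
  have sub : ∀ z₁ ∈ Sig μ x, ∀ z₀ ∈ Sig μ x, z₁ - z₀ ∈ Sig μ x := by
    intro z₁ hz₁ z₀ hz₀ ψ hψ hn hp hT
    exact hz₁ _ (tf_sub hψ z₀) (fun z => hn _) hp (h2 z₀ hz₀ ψ 0 hψ hT)
  have dil : ∀ z₁ ∈ Sig μ x, ∀ θ : ℝ, 0 < θ → θ • z₁ ∈ Sig μ x := by
    intro z₁ hz₁ θ hθ ψ hψ hn hp hT
    exact hz₁ _ (tf_smul hψ hθ.ne') (fun z => hn _) hp (t_dil hT hθ)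
  obtain ⟨s, hs, hgood⟩ := h3
  have unit : ∀ d ∈ Sig μ x, ‖d‖ = 1 → ∃ ζ ∈ s, inner ℝ ζ d = 0 := by
    intro d hd hd1
    by_contra hcon
    push Not at hcon
    obtain ⟨ρ, hρ, hT⟩ := hgood d hd1 hcon
    obtain ⟨f, hf⟩ : ∃ f : ContDiffBump d, f.rOut < ρ :=
      ⟨⟨ρ / 4, ρ / 2, by positivity, by linarith⟩, by
        show ρ / 2 < ρ
        linarith⟩
    have g1 : TF (fun z => f z) := ⟨f.contDiff, f.hasCompactSupport⟩
    refine hd _ g1 (fun z => f.nonneg) ?_ (hT _ g1 ?_)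
    · rw [f.one_of_mem_closedBall (mem_closedBall_self f.rIn_pos.le)]
      exact one_pos
    · show tsupport f ⊆ ball d ρ
      rw [f.tsupport_eq]
      exact closedBall_subset_ball hf
  -- it is enough to find a hyperplane containing the support
  suffices hν : ∃ ν : E (m + 1), ‖ν‖ = 1 ∧ ∀ z ∈ Sig μ x, inner ℝ z ν = 0 by
    obtain ⟨ν, hν1, hν2⟩ := hν
    refine ⟨ν, hν1, fun ψ hψ hd => no_mass hψ fun z hz hzS => ?_⟩
    exact hd z hz (hν2 z hzS)
  by_cases hW : ∃ w ∈ Sig μ x, w ≠ 0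
  · obtain ⟨w, hwS, hw⟩ := hW
    have zero : (0 : E (m + 1)) ∈ Sig μ x := by
      have := sub w hwS w hwS
      rwa [sub_self] at this
    let W : Submodule ℝ (E (m + 1)) :=
      { carrier := Sig μ x
        add_mem' := fun {a b} ha hb => add a ha b hb
        zero_mem' := zero
        smul_mem' := by
          intro c z hz
          rcases lt_trichotomy c 0 with hc | hc | hc
          · have k1 := dil z hz (-c) (by linarith)
            have k2 := sub 0 zero _ k1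
            rw [neg_smul, sub_neg_eq_add, zero_add] at k2
            exact k2
          · rw [hc, zero_smul]
            exact zero
          · exact dil z hz c hc }
    have hnot : ¬ ∀ i : Option {ζ // ζ ∈ s}, ∃ z ∈ W,
        (i.elim (innerₛₗ ℝ w) (fun ζ => innerₛₗ ℝ ζ.1) : Module.Dual ℝ (E (m + 1))) z ≠ 0 := by
      intro hall
      obtain ⟨z, hz, hzz⟩ := Module.Dual.exists_forall_mem_ne_zero_of_forall_exists W
        (fun i : Option {ζ // ζ ∈ s} =>
          (i.elim (innerₛₗ ℝ w) (fun ζ => innerₛₗ ℝ ζ.1) : Module.Dual ℝ (E (m + 1)))) hall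
      have hz0 : z ≠ 0 := by
        rintro rfl
        exact hzz none (by simp)
      have hn : 0 < ‖z‖ := norm_pos_iff.2 hz0
      obtain ⟨ζ, hζ, hζz⟩ := unit (‖z‖⁻¹ • z) (W.smul_mem _ hz) (by
        rw [norm_smul, norm_inv, norm_norm, inv_mul_cancel₀ hn.ne'])
      rw [inner_smul_right] at hζz
      have : inner ℝ ζ z = 0 := by
        rcases mul_eq_zero.1 hζz with h | h
        · exact absurd h (inv_ne_zero hn.ne')
        · exact h
      exact hzz (some ⟨ζ, hζ⟩) this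
    push Not at hnot
    obtain ⟨i, hi⟩ := hnot
    cases i with
    | none =>
      have := hi w hwS
      simp only [Option.elim_none, innerₛₗ_apply_apply] at this
      exact absurd (inner_self_eq_zero.1 this) hw
    | some ζ =>
      have hζ0 : ζ.1 ≠ 0 := hs ζ.1 ζ.2
      have hn : 0 < ‖ζ.1‖ := norm_pos_iff.2 hζ0
      refine ⟨‖ζ.1‖⁻¹ • ζ.1, ?_, fun z hz => ?_⟩
      · rw [norm_smul, norm_inv, norm_norm, inv_mul_cancel₀ hn.ne']
      · have := hi z hz
        simp only [Option.elim_some, innerₛₗ_apply_apply] at this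
        rw [inner_smul_right, real_inner_comm, this, mul_zero]
  · push Not at hW
    refine ⟨EuclideanSpace.single 0 1, by simp, fun z hz => ?_⟩
    rw [hW z hz, inner_zero_left]

end Pool.Agent.CEL
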