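import Pool.Agent.CEL.Stmts

/-!
# CEL, module TAY : the integrated Taylor formula
-/

set_option autoImplicit false
namespace Pool.Agent.CEL
open MeasureTheory
open scoped Pointwise
namespace TAY_

variable {n : ℕ} {F : Type*} [NormedAddCommGroup F] [NormedSpace ℝ F]

theorem iter_line (w : E n → F) (hw : ContDiff ℝ (⊤ : ℕ∞) w) (y v : E n) (j : ℕ) :
    iteratedDeriv j (fun s : ℝ => w (y + s • v)) =
      fun s => iteratedFDeriv ℝ j w (y + s • v) (fun _ => v) := by
  induction j with
  | zero =>
    funext s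
    rw [iteratedDeriv_zero, iteratedFDeriv_zero_apply]
  | succ j ih =>
    rw [iteratedDeriv_succ, ih]
    funext s
    have hj : ((j : ℕ) : WithTop ℕ∞) < ((⊤ : ℕ∞) : WithTop ℕ∞) := by
      exact_mod_cast WithTop.coe_lt_top j
    have hd := ((hw.differentiable_iteratedFDeriv hj) (y + s • v)).hasFDerivAt
    have hl : HasDerivAt (fun s : ℝ => y + s • v) v s := by
      have h1 := ((hasDerivAt_id s).smul_const v).const_add y
      simpa using h1
    have h1 := hd.comp_hasDerivAt s hl
    have h2 := (ContinuousMultilinearMap.apply ℝ (fun _ : Fin j => E n) F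
      (fun _ => v)).hasFDerivAt.comp_hasDerivAt s h1
    have h3 := h2.deriv
    rw [iteratedFDeriv_succ_apply_left]
    exact h3

theorem taylor_line [CompleteSpace F] (φ : ℝ → F) (hφ : ContDiff ℝ (⊤ : ℕ∞) φ) (k : ℕ) :
    φ 1 = ∑ j ∈ Finset.range (k + 1), ((Nat.factorial j : ℝ)⁻¹) • iteratedDeriv j φ 0 +
      ∫ s in (0 : ℝ)..1, ((1 - s) ^ k / (Nat.factorial k : ℝ)) • iteratedDeriv (k + 1) φ s := by
  have hu : UniqueDiffOn ℝ (Set.uIcc (0 : ℝ) 1) := uniqueDiffOn_uIcc zero_ne_one
  have hc : ∀ j : ℕ, ∀ s ∈ Set.uIcc (0 : ℝ) 1,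
      iteratedDerivWithin j φ (Set.uIcc (0 : ℝ) 1) s = iteratedDeriv j φ s := by
    intro j s hs
    refine iteratedDerivWithin_eq_iteratedDeriv hu ?_ hs
    exact (hφ.of_le (by exact_mod_cast le_top)).contDiffAt
  have h1 := taylor_integral_remainder (f := φ) (x := 1) (x₀ := 0) (n := k)
    (hφ.of_le (by exact_mod_cast le_top)).contDiffOn
  rw [taylor_within_apply] at h1
  have h2 : ∫ t in (0 : ℝ)..1, ((1 - t) ^ k / (Nat.factorial k : ℝ)) •
      iteratedDerivWithin (k + 1) φ (Set.uIcc (0 : ℝ) 1) t =
      ∫ s in (0 : ℝ)..1, ((1 - s) ^ k / (Nat.factorial k : ℝ)) • iteratedDeriv (k + 1) φ s := by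
    apply intervalIntegral.integral_congr
    intro s hs
    simp only
    rw [hc _ _ hs]
  rw [h2, sub_eq_iff_eq_add] at h1
  rw [h1, add_comm]
  refine congrArg₂ _ (Finset.sum_congr rfl fun j _ => ?_) rfl
  rw [hc j 0 Set.left_mem_uIcc]
  simp

/-- functions which are polynomials of degree at most `d` -/
def PD (n d : ℕ) : Submodule ℝ (E n → ℝ) :=
  Submodule.span ℝ {p | ∃ β : Fin n → ℕ, ∑ i, β i ≤ d ∧ p = mono β}

theorem PD_one : (fun _ => 1 : E n → ℝ) ∈ PD n 0 := by
  apply Submodule.subset_span
  refine ⟨0, by simp, ?_⟩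
  funext z
  simp [mono]

theorem PD_mul (d : ℕ) (p : E n → ℝ) (hp : p ∈ PD n d) (i : Fin n) (c : ℝ) :
    (fun z : E n => (z i - c) * p z) ∈ PD n (d + 1) := by
  classical
  induction hp using Submodule.span_induction with
  | mem p hp =>
    obtain ⟨β, hβ, rfl⟩ := hp
    have h1 : (fun z : E n => (z i - c) * mono β z) =
        mono (β + Pi.single i 1) - c • mono β := by
      funext z
      simp only [Pi.sub_apply, Pi.smul_apply, smul_eq_mul, mono, Pi.add_apply, pow_add,
        Finset.prod_mul_distrib]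
      have h2 : ∏ x : Fin n, z x ^ (Pi.single i 1 : Fin n → ℕ) x = z i := by
        rw [Finset.prod_eq_single i]
        · simp
        · intro b _ hb
          simp [Pi.single_eq_of_ne hb]
        · intro h
          exact absurd (Finset.mem_univ i) h
      rw [h2]
      ring
    rw [h1]
    refine Submodule.sub_mem _ (Submodule.subset_span ⟨_, ?_, rfl⟩)
      (Submodule.smul_mem _ _ (Submodule.subset_span ⟨β, by omega, rfl⟩))
    simp only [Pi.add_apply, Finset.sum_add_distrib]
    have : ∑ x : Fin n, (Pi.single i 1 : Fin n → ℕ) x = 1 := by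
      rw [Finset.sum_pi_single']
      simp
    omega
  | zero =>
    have h1 : (fun z : E n => (z i - c) * (0 : E n → ℝ) z) = 0 := by
      funext z
      simp
    rw [h1]
    exact Submodule.zero_mem _
  | add p q _ _ hp hq =>
    have h1 : (fun z : E n => (z i - c) * (p + q) z) =
        (fun z : E n => (z i - c) * p z) + (fun z : E n => (z i - c) * q z) := by
      funext z
      simp only [Pi.add_apply]
      ring
    rw [h1]
    exact Submodule.add_mem _ hp hq
  | smul a p _ hp =>
    have h1 : (fun z : E n => (z i - c) * (a • p) z) =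
        a • (fun z : E n => (z i - c) * p z) := by
      funext z
      simp only [Pi.smul_apply, smul_eq_mul]
      ring
    rw [h1]
    exact Submodule.smul_mem _ _ hp

theorem PD_prod (j : ℕ) (a : Fin j → Fin n) (y : E n) :
    (fun x : E n => ∏ k, (x (a k) - y (a k))) ∈ PD n j := by
  induction j with
  | zero =>
    simpa using PD_one (n := n)
  | succ j ih =>
    have h1 := PD_mul j _ (ih (fun k => a k.succ)) (a 0) (y (a 0))
    have h2 : (fun x : E n => ∏ k, (x (a k) - y (a k))) =
        fun z : E n => (z (a 0) - y (a 0)) * ∏ k : Fin j, (z (a k.succ) - y (a k.succ)) := by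
      funext x
      rw [Fin.prod_univ_succ]
    rw [h2]
    exact h1

theorem PD_cont (d : ℕ) (p : E n → ℝ) (hp : p ∈ PD n d) : Continuous p := by
  induction hp using Submodule.span_induction with
  | mem p hp =>
    obtain ⟨β, hβ, rfl⟩ := hp
    unfold mono
    fun_prop
  | zero => exact continuous_zero
  | add p q _ _ hp hq => exact hp.add hq
  | smul a p _ hp => exact hp.const_smul a

theorem PD_int (ℓ d : ℕ) (hd : d < ℓ) (h : E n → ℝ) (hc : Continuous h)
    (hs : HasCompactSupport h) (ho : OrthP ℓ h) (p : E n → ℝ) (hp : p ∈ PD n d) :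
    ∫ x, h x * p x = 0 := by
  have hi : ∀ q : E n → ℝ, Continuous q → Integrable (fun x => h x * q x) := by
    intro q hq
    exact (hc.mul hq).integrable_of_hasCompactSupport hs.mul_right
  induction hp using Submodule.span_induction with
  | mem p hp =>
    obtain ⟨β, hβ, rfl⟩ := hp
    exact ho β (by omega)
  | zero => simp
  | add p q hp hq ihp ihq =>
    have h1 : (fun x => h x * (p + q) x) = fun x => h x * p x + h x * q x := by
      funext x
      simp only [Pi.add_apply]
      ring
    rw [h1, integral_add (hi p (PD_cont d p hp)) (hi q (PD_cont d q hq)), ihp, ihq, add_zero]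
  | smul a p _ ihp =>
    have h1 : (fun x => h x * (a • p) x) = fun x => a * (h x * p x) := by
      funext x
      simp only [Pi.smul_apply, smul_eq_mul]
      ring
    rw [h1, integral_const_mul, ihp, mul_zero]

/-- Taylor monomials integrate to zero -/
theorem taylor_zero [CompleteSpace F] (ℓ j : ℕ) (hj : j < ℓ) (h : E n → ℝ) (hc : Continuous h)
    (hs : HasCompactSupport h) (ho : OrthP ℓ h) (y : E n)
    (f : ContinuousMultilinearMap ℝ (fun _ : Fin j => E n) F) :
    ∫ x, h x • f (fun _ => x - y) = 0 := by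
  classical
  have h1 : ∀ x : E n, f (fun _ => x - y) =
      ∑ a : Fin j → Fin n, (∏ k, (x (a k) - y (a k))) • f (fun k => bs (a k)) := by
    intro x
    have h2 : x - y = ∑ i, (x i - y i) • (bs i : E n) := by
      ext k
      simp [bs, Finset.sum_apply, Pi.single_apply]
    have h3 : (fun _ : Fin j => x - y) = fun _ : Fin j => ∑ i, (x i - y i) • (bs i : E n) := by
      funext _
      exact h2
    rw [h3]
    have h4 := f.toMultilinearMap.map_sum (fun (_ : Fin j) (i : Fin n) => (x i - y i) • (bs i : E n))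
    have h5 : ∀ a : Fin j → Fin n, f.toMultilinearMap (fun k => (x (a k) - y (a k)) • (bs (a k) : E n)) =
        (∏ k, (x (a k) - y (a k))) • f (fun k => bs (a k)) := by
      intro a
      exact f.toMultilinearMap.map_smul_univ _ _
    rw [← Finset.sum_congr rfl (fun a _ => h5 a)]
    exact h4
  have h6 : (fun x : E n => h x • f (fun _ => x - y)) =
      fun x => ∑ a : Fin j → Fin n, (h x * ∏ k, (x (a k) - y (a k))) • f (fun k => bs (a k)) := by
    funext x
    rw [h1 x, Finset.smul_sum]
    exact Finset.sum_congr rfl fun a _ => by rw [smul_smul]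
  rw [h6, integral_finsetSum]
  · apply Finset.sum_eq_zero
    intro a _
    rw [integral_smul_const]
    have := PD_int ℓ j hj h hc hs ho _ (PD_prod j a y)
    rw [this, zero_smul]
  · intro a _
    apply Integrable.smul_const
    exact (hc.mul (PD_cont j _ (PD_prod j a y))).integrable_of_hasCompactSupport hs.mul_right


/-- the integrand -/
noncomputable def Gf (w : E n → F) (ℓ : ℕ) (s : ℝ) (x y : E n) : F :=
  iteratedFDeriv ℝ ℓ w (y + s • (x - y)) (fun _ => x - y)

theorem Gf_cont (w : E n → F) (hw : ContDiff ℝ (⊤ : ℕ∞) w) (ℓ : ℕ) {X : Type*}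
    [TopologicalSpace X] (a : X → ℝ) (b c : X → E n) (ha : Continuous a) (hb : Continuous b)
    (hc : Continuous c) : Continuous (fun z => Gf w ℓ (a z) (b z) (c z)) := by
  have h1 : Continuous (iteratedFDeriv ℝ ℓ w) :=
    hw.continuous_iteratedFDeriv (by exact_mod_cast le_top)
  unfold Gf
  have h2 : Continuous fun z => iteratedFDeriv ℝ ℓ w (c z + a z • (b z - c z)) :=
    h1.comp (hc.add (ha.smul (hb.sub hc)))
  have h3 : Continuous fun z => (fun _ : Fin ℓ => b z - c z) :=
    continuous_pi fun _ => hb.sub hc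
  exact h2.eval h3

/-- the Taylor formula at a pair of points -/
theorem taylor_pair [CompleteSpace F] (w : E n → F) (hw : ContDiff ℝ (⊤ : ℕ∞) w) (k : ℕ)
    (x y : E n) :
    w x = ∑ j ∈ Finset.range (k + 1), ((Nat.factorial j : ℝ)⁻¹) •
        iteratedFDeriv ℝ j w y (fun _ => x - y) +
      ∫ s in (0 : ℝ)..1, ((1 - s) ^ k / (Nat.factorial k : ℝ)) • Gf w (k + 1) s x y := by
  have hφ : ContDiff ℝ (⊤ : ℕ∞) (fun s : ℝ => w (y + s • (x - y))) := by
    apply hw.comp
    fun_prop
  have h1 := taylor_line _ hφ k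
  simp only [iter_line w hw] at h1
  simpa [Gf] using h1


/-- inner integral for fixed `s` -/
theorem inner [CompleteSpace F] (h χ : E n → ℝ) (hh : TF h) (hχ : TF χ) (w : E n → F)
    (hw : ContDiff ℝ (⊤ : ℕ∞) w) (ℓ : ℕ) (s : ℝ) :
    ∫ z : E n × E n, (h z.2 * χ z.1) • Gf w ℓ s z.2 z.1 =
      ∫ p, ∫ q, (h (q + (1 - s) • p) * χ (q - s • p)) • iteratedFDeriv ℝ ℓ w q (fun _ => p) := by
  have hc : Continuous h := hh.1.continuous
  have hcχ : Continuous χ := hχ.1.continuous
  have hG : Continuous fun z : E n × E n => Gf w ℓ s z.2 z.1 :=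
    Gf_cont w hw ℓ _ _ _ continuous_const continuous_snd continuous_fst
  have hK : IsCompact (tsupport χ ×ˢ tsupport h) := hχ.2.isCompact.prod hh.2.isCompact
  have hi1 : Integrable (fun z : E n × E n => (h z.2 * χ z.1) • Gf w ℓ s z.2 z.1)
      (volume.prod volume) := by
    apply Continuous.integrable_of_hasCompactSupport
    · exact ((hc.comp continuous_snd).mul (hcχ.comp continuous_fst)).smul hG
    · refine HasCompactSupport.intro hK fun z hz => ?_
      rw [Set.mem_prod, not_and_or] at hz
      rcases hz with hz | hz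
      · rw [image_eq_zero_of_notMem_tsupport hz, mul_zero, zero_smul]
      · rw [image_eq_zero_of_notMem_tsupport hz, zero_mul, zero_smul]
  have h1 : ∫ z : E n × E n, (h z.2 * χ z.1) • Gf w ℓ s z.2 z.1 =
      ∫ y, ∫ x, (h x * χ y) • Gf w ℓ s x y := integral_prod _ hi1
  rw [h1]
  have h2 : ∀ y : E n, ∫ x, (h x * χ y) • Gf w ℓ s x y =
      ∫ p, (h (y + p) * χ y) • iteratedFDeriv ℝ ℓ w (y + s • p) (fun _ => p) := by
    intro y
    rw [← integral_add_left_eq_self (fun x => (h x * χ y) • Gf w ℓ s x y) y]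
    apply integral_congr_ae
    refine Filter.Eventually.of_forall fun p => ?_
    simp only [Gf, add_sub_cancel_left]
  simp_rw [h2]
  have hG2 : Continuous fun z : E n × E n =>
      iteratedFDeriv ℝ ℓ w (z.1 + s • z.2) (fun _ => z.2) := by
    have := Gf_cont w hw ℓ (fun _ : E n × E n => s) (fun z => z.1 + z.2) (fun z => z.1)
      continuous_const (by fun_prop) continuous_fst
    simpa [Gf] using this
  have hK2 : IsCompact (tsupport χ ×ˢ
      ((fun z : E n × E n => z.1 - z.2) '' (tsupport h ×ˢ tsupport χ))) :=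
    hχ.2.isCompact.prod ((hh.2.isCompact.prod hχ.2.isCompact).image (by fun_prop))
  have hi2 : Integrable (Function.uncurry fun y p : E n => (h (y + p) * χ y) •
      iteratedFDeriv ℝ ℓ w (y + s • p) (fun _ => p)) (volume.prod volume) := by
    apply Continuous.integrable_of_hasCompactSupport
    · exact ((hc.comp (continuous_fst.add continuous_snd)).mul
        (hcχ.comp continuous_fst)).smul hG2
    · refine HasCompactSupport.intro hK2 fun z hz => ?_
      obtain ⟨y, p⟩ := z
      simp only [Function.uncurry_apply_pair]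
      by_cases hy : y ∈ tsupport χ
      · by_cases hyp : y + p ∈ tsupport h
        · exfalso
          apply hz
          refine ⟨hy, ?_⟩
          refine ⟨(y + p, y), ⟨hyp, hy⟩, ?_⟩
          simp
        · rw [image_eq_zero_of_notMem_tsupport hyp, zero_mul, zero_smul]
      · rw [image_eq_zero_of_notMem_tsupport hy, mul_zero, zero_smul]
  rw [integral_integral_swap hi2]
  apply integral_congr_ae
  refine Filter.Eventually.of_forall fun p => ?_
  simp only
  rw [← integral_sub_right_eq_self (fun y => (h (y + p) * χ y) •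
    iteratedFDeriv ℝ ℓ w (y + s • p) (fun _ => p)) (s • p)]
  apply integral_congr_ae
  refine Filter.Eventually.of_forall fun q => ?_
  simp only
  have h3 : q - s • p + p = q + (1 - s) • p := by
    rw [sub_smul, one_smul]
    abel
  rw [h3, sub_add_cancel]

theorem main [CompleteSpace F] (k : ℕ) (h χ : E n → ℝ) (hh : TF h) (hχ : TF χ)
    (hint : ∫ x, χ x = 1) (ho : OrthP (k + 1) h) (w : E n → F)
    (hw : ContDiff ℝ (⊤ : ℕ∞) w) :
    ∫ x, h x • w x =
      ∫ s in (0 : ℝ)..1, ((1 - s) ^ k / (Nat.factorial k : ℝ)) •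
        ∫ p, ∫ q, (h (q + (1 - s) • p) * χ (q - s • p)) •
          iteratedFDeriv ℝ (k + 1) w q (fun _ => p) := by
  have hc : Continuous h := hh.1.continuous
  have hcχ : Continuous χ := hχ.1.continuous
  have hK : IsCompact (tsupport χ ×ˢ tsupport h) := hχ.2.isCompact.prod hh.2.isCompact
  set c : ℝ → ℝ := fun s => (1 - s) ^ k / (Nat.factorial k : ℝ) with hcdef
  have hcc : Continuous c := by
    rw [hcdef]
    fun_prop
  set Φ : ℝ → E n × E n → F := fun s z => (h z.2 * χ z.1) • (c s • Gf w (k + 1) s z.2 z.1)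
    with hΦ
  have hΦc : Continuous (Function.uncurry Φ) := by
    have hG : Continuous fun z : ℝ × (E n × E n) => Gf w (k + 1) z.1 z.2.2 z.2.1 :=
      Gf_cont w hw _ _ _ _ continuous_fst (by fun_prop) (by fun_prop)
    have h1 : Function.uncurry Φ = fun z : ℝ × (E n × E n) =>
        (h z.2.2 * χ z.2.1) • (c z.1 • Gf w (k + 1) z.1 z.2.2 z.2.1) := by
      funext z
      rfl
    rw [h1]
    exact ((hc.comp (by fun_prop)).mul (hcχ.comp (by fun_prop))).smul
      ((hcc.comp continuous_fst).smul hG)
  have hzero : ∀ (s : ℝ) (z : E n × E n), z ∉ tsupport χ ×ˢ tsupport h → Φ s z = 0 := by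
    intro s z hz
    simp only [hΦ]
    rw [Set.mem_prod, not_and_or] at hz
    rcases hz with hz | hz
    · rw [image_eq_zero_of_notMem_tsupport hz, mul_zero, zero_smul]
    · rw [image_eq_zero_of_notMem_tsupport hz, zero_mul, zero_smul]
  have hΦi : Integrable (Function.uncurry Φ)
      ((volume.restrict (Set.Ioc (0 : ℝ) 1)).prod (volume : Measure (E n × E n))) := by
    have h1 : (volume.restrict (Set.Ioc (0 : ℝ) 1)).prod (volume : Measure (E n × E n)) =
        ((volume : Measure ℝ).prod (volume : Measure (E n × E n))).restrict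
          (Set.Ioc (0 : ℝ) 1 ×ˢ Set.univ) := by
      rw [← Measure.prod_restrict, Measure.restrict_univ]
    rw [h1]
    have h2 : IntegrableOn (Function.uncurry Φ)
        (Set.Icc (0 : ℝ) 1 ×ˢ (tsupport χ ×ˢ tsupport h))
        ((volume : Measure ℝ).prod (volume : Measure (E n × E n))) :=
      hΦc.continuousOn.integrableOn_compact (isCompact_Icc.prod hK)
    refine IntegrableOn.of_forall_sdiff_eq_zero h2 (measurableSet_Ioc.prod MeasurableSet.univ) ?_
    rintro ⟨s, z⟩ ⟨hs1, hs2⟩
    apply hzero
    intro hz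
    exact hs2 ⟨Set.Ioc_subset_Icc_self hs1.1, hz⟩
  have hswap := integral_integral_swap hΦi
  have hL : ∫ s in (0 : ℝ)..1, c s •
        ∫ p, ∫ q, (h (q + (1 - s) • p) * χ (q - s • p)) •
          iteratedFDeriv ℝ (k + 1) w q (fun _ => p) =
      ∫ s in Set.Ioc (0 : ℝ) 1, ∫ z, Φ s z := by
    rw [intervalIntegral.integral_of_le zero_le_one]
    apply integral_congr_ae
    refine Filter.Eventually.of_forall fun s => ?_
    simp only
    rw [← inner h χ hh hχ w hw (k + 1) s, ← integral_smul]
    apply integral_congr_ae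
    refine Filter.Eventually.of_forall fun z => ?_
    simp only [hΦ]
    rw [smul_comm]
  rw [hL, hswap]
  have hR : ∀ z : E n × E n, ∫ s in Set.Ioc (0 : ℝ) 1, Φ s z =
      χ z.1 • (h z.2 • w z.2) - ∑ j ∈ Finset.range (k + 1), ((Nat.factorial j : ℝ)⁻¹) •
        (χ z.1 • (h z.2 • iteratedFDeriv ℝ j w z.1 (fun _ => z.2 - z.1))) := by
    intro z
    have h1 := taylor_pair w hw k z.2 z.1
    have h2 : ∫ s in Set.Ioc (0 : ℝ) 1, Φ s z =
        (h z.2 * χ z.1) • ∫ s in (0 : ℝ)..1, c s • Gf w (k + 1) s z.2 z.1 := by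
      rw [intervalIntegral.integral_of_le zero_le_one, ← integral_smul]
    rw [h2]
    have h3 : ∫ s in (0 : ℝ)..1, c s • Gf w (k + 1) s z.2 z.1 =
        w z.2 - ∑ j ∈ Finset.range (k + 1), ((Nat.factorial j : ℝ)⁻¹) •
          iteratedFDeriv ℝ j w z.1 (fun _ => z.2 - z.1) := by
      rw [eq_sub_iff_add_eq, add_comm]
      exact h1.symm
    rw [h3, smul_sub, Finset.smul_sum, mul_comm, mul_smul]
    refine congrArg₂ _ rfl (Finset.sum_congr rfl fun j _ => ?_)
    rw [smul_comm, mul_smul]
  simp_rw [hR]
  have hT : ∀ j : ℕ, Continuous fun z : E n × E n =>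
      χ z.1 • (h z.2 • iteratedFDeriv ℝ j w z.1 (fun _ => z.2 - z.1)) := by
    intro j
    have hG : Continuous fun z : E n × E n =>
        iteratedFDeriv ℝ j w z.1 (fun _ => z.2 - z.1) := by
      have := Gf_cont w hw j (fun _ : E n × E n => (0 : ℝ)) (fun z => z.2) (fun z => z.1)
        continuous_const continuous_snd continuous_fst
      simpa [Gf] using this
    exact (hcχ.comp continuous_fst).smul ((hc.comp continuous_snd).smul hG)
  have hTi : ∀ j : ℕ, Integrable (fun z : E n × E n =>
      χ z.1 • (h z.2 • iteratedFDeriv ℝ j w z.1 (fun _ => z.2 - z.1)))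
      (volume.prod volume) := by
    intro j
    apply (hT j).integrable_of_hasCompactSupport
    refine HasCompactSupport.intro hK fun z hz => ?_
    rw [Set.mem_prod, not_and_or] at hz
    rcases hz with hz | hz
    · rw [image_eq_zero_of_notMem_tsupport hz, zero_smul]
    · rw [image_eq_zero_of_notMem_tsupport hz, zero_smul, smul_zero]
  have hT0 : ∀ j ∈ Finset.range (k + 1), ∫ z : E n × E n,
      χ z.1 • (h z.2 • iteratedFDeriv ℝ j w z.1 (fun _ => z.2 - z.1)) = 0 := by
    intro j hj
    have h1 : ∫ z : E n × E n,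
        χ z.1 • (h z.2 • iteratedFDeriv ℝ j w z.1 (fun _ => z.2 - z.1)) =
        ∫ y, ∫ x, χ y • (h x • iteratedFDeriv ℝ j w y (fun _ => x - y)) :=
      integral_prod _ (hTi j)
    rw [h1]
    have h2 : ∀ y : E n, ∫ x, χ y • (h x • iteratedFDeriv ℝ j w y (fun _ => x - y)) = 0 := by
      intro y
      rw [integral_smul, taylor_zero (k + 1) j (Finset.mem_range.1 hj) h hc hh.2 ho y _,
        smul_zero]
    simp_rw [h2]
    exact integral_zero _ _
  have hwi : Integrable (fun z : E n × E n => χ z.1 • (h z.2 • w z.2)) (volume.prod volume) := by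
    apply Continuous.integrable_of_hasCompactSupport
    · exact (hcχ.comp continuous_fst).smul ((hc.comp continuous_snd).smul
        (hw.continuous.comp continuous_snd))
    · refine HasCompactSupport.intro hK fun z hz => ?_
      rw [Set.mem_prod, not_and_or] at hz
      rcases hz with hz | hz
      · rw [image_eq_zero_of_notMem_tsupport hz, zero_smul]
      · rw [image_eq_zero_of_notMem_tsupport hz, zero_smul, smul_zero]
  have hsum : Integrable (fun z : E n × E n => ∑ j ∈ Finset.range (k + 1),
      ((Nat.factorial j : ℝ)⁻¹) •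
        (χ z.1 • (h z.2 • iteratedFDeriv ℝ j w z.1 (fun _ => z.2 - z.1))))
      (volume.prod volume) := by
    apply integrable_finsetSum
    intro j _
    exact (hTi j).smul _
  have hfin := integral_sub hwi hsum
  have h5 : ∫ z : E n × E n, χ z.1 • (h z.2 • w z.2) ∂(volume.prod volume) =
      (∫ y, χ y) • ∫ x, h x • w x :=
    integral_prod_smul (fun y => χ y) (fun x => h x • w x)
  have h6 : ∫ z : E n × E n, ∑ j ∈ Finset.range (k + 1), ((Nat.factorial j : ℝ)⁻¹) •
        (χ z.1 • (h z.2 • iteratedFDeriv ℝ j w z.1 (fun _ => z.2 - z.1)))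
        ∂(volume.prod volume) = 0 := by
    rw [integral_finsetSum]
    · apply Finset.sum_eq_zero
      intro j hj
      rw [integral_smul]
      have := hT0 j hj
      rw [Measure.volume_eq_prod] at this
      rw [this, smul_zero]
    · intro j _
      exact (hTi j).smul _
  rw [h5, h6, hint, one_smul, sub_zero] at hfin
  rw [Measure.volume_eq_prod]
  exact hfin.symm

end TAY_

open TAY_

theorem tay_proof : Stmt_TAY := by
  intro n N ℓ hℓ h χ hh hχ hint ho w hw _
  obtain ⟨k, rfl⟩ : ∃ k, ℓ = k + 1 := ⟨ℓ - 1, by omega⟩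
  exact main k h χ hh hχ hint ho w hw

end Pool.Agent.CEL
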