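import Pool.Agent.CEL.Stmts

/-!
# CEL: module UDN (3.1), finite upper density almost everywhere
-/

set_option autoImplicit false
open Topology Filter MeasureTheory Matrix Metric
open scoped ENNReal

namespace Pool.Agent.CEL

namespace UDN_

/-- Existence of the distance function of a finite family. -/
lemma exists_D {n : ℕ} (I : Finset (E n × ℝ)) (hI : I.Nonempty) (hpos : ∀ q ∈ I, 0 < q.2) :
    ∃ D : E n → ℝ, IsD I D := by
  refine ⟨fun y => I.inf' hI (fun q => ‖y - q.1‖ + q.2), hpos, ?_, ?_⟩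
  · intro q hq y
    exact Finset.inf'_le (fun q : E n × ℝ => ‖y - q.1‖ + q.2) hq
  · intro y
    obtain ⟨q, hq, h⟩ := Finset.exists_mem_eq_inf' hI (fun q : E n × ℝ => ‖y - q.1‖ + q.2)
    exact ⟨q, hq, h⟩

lemma D_bounds {n : ℕ} {I : Finset (E n × ℝ)} {D : E n → ℝ} (hD : IsD I D)
    (hdis : ∀ q ∈ I, ∀ q' ∈ I, q ≠ q' →
      Disjoint (closedBall q.1 (2 * q.2)) (closedBall q'.1 (2 * q'.2)))
    {q : E n × ℝ} (hq : q ∈ I) {y : E n} (hy : y ∈ closedBall q.1 q.2) :
    q.2 ≤ D y ∧ D y ≤ 2 * q.2 := by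
  have hy' : ‖y - q.1‖ ≤ q.2 := by rwa [mem_closedBall, dist_eq_norm] at hy
  have h0 := hD.pos q hq
  constructor
  · obtain ⟨q', hq', h⟩ := hD.ex y
    rw [h]
    by_cases hqq : q = q'
    · subst hqq
      linarith [norm_nonneg (y - q.1)]
    · have h1 := hdis q hq q' hq' hqq
      have h0' := hD.pos q' hq'
      rw [disjoint_closedBall_closedBall_iff (by linarith) (by linarith), dist_eq_norm] at h1
      have h2 : ‖q.1 - q'.1‖ ≤ ‖y - q.1‖ + ‖y - q'.1‖ := by
        have : q.1 - q'.1 = (y - q'.1) - (y - q.1) := by abel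
        rw [this]
        calc _ ≤ ‖y - q'.1‖ + ‖y - q.1‖ := norm_sub_le _ _
          _ = _ := add_comm _ _
      linarith
  · have := hD.le q hq y
    linarith

lemma cs {α : Type*} [MeasurableSpace α] (ν : Measure α) (f : α → ℝ≥0∞) (hf : Measurable f)
    (T : Set α) (hT : MeasurableSet T) (h0 : ∀ p, p ∉ T → f p = 0) :
    (∫⁻ p, f p ∂ν) ^ 2 ≤ (∫⁻ p, f p ^ 2 ∂ν) * ν T := by
  have h1 : ∫⁻ p, f p ∂ν = ∫⁻ p, (f * T.indicator (fun _ => (1 : ℝ≥0∞))) p ∂ν := by
    refine lintegral_congr fun p => ?_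
    by_cases hp : p ∈ T
    · simp [hp]
    · simp [hp, h0 p hp]
  have h2 := ENNReal.lintegral_mul_le_Lp_mul_Lq ν Real.HolderConjugate.two_two
    hf.aemeasurable (g := T.indicator (fun _ => (1 : ℝ≥0∞)))
    (measurable_const.indicator hT).aemeasurable
  have h3 : ∫⁻ a, (T.indicator (fun _ => (1 : ℝ≥0∞)) a) ^ (2 : ℝ) ∂ν = ν T := by
    have : (fun a => (T.indicator (fun _ => (1 : ℝ≥0∞)) a) ^ (2 : ℝ)) =
        T.indicator (fun _ => (1 : ℝ≥0∞)) := by
      funext a
      by_cases ha : a ∈ T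
      · simp [ha]
      · simp [ha]
    rw [this, lintegral_indicator hT]
    simp
  rw [h3] at h2
  rw [h1]
  calc _ ≤ ((∫⁻ a, f a ^ (2 : ℝ) ∂ν) ^ (1 / 2 : ℝ) * (ν T) ^ (1 / 2 : ℝ)) ^ 2 := by
        gcongr
    _ = (∫⁻ p, f p ^ 2 ∂ν) * ν T := by
        rw [mul_pow, ← ENNReal.rpow_natCast, ← ENNReal.rpow_mul, ← ENNReal.rpow_natCast,
          ← ENNReal.rpow_mul]
        norm_num

lemma sum_sq {ι : Type*} (I : Finset ι) (a : ι → ℝ≥0∞) : ∑ i ∈ I, a i ^ 2 ≤ (∑ i ∈ I, a i) ^ 2 := by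
  rw [sq, Finset.sum_mul]
  refine Finset.sum_le_sum fun i hi => ?_
  rw [sq]
  gcongr
  exact Finset.single_le_sum (f := a) (fun _ _ => zero_le) hi

/-- The main lower bound: for the averages. -/
lemma lower_int (h3 : Stmt_BSA) {m : ℕ} {v : ℝ≥0∞}
    (hv : ∀ (x : E (m + 1)) (r : ℝ), 0 < r →
      volume (ball x r) = ENNReal.ofReal (r ^ (m + 1)) * v)
    {I : Finset (E (m + 1) × ℝ)} {D : E (m + 1) → ℝ} (hD : IsD I D)
    (μ : Measure (E (m + 1))) [IsFiniteMeasure μ] {ε : ℝ} (hε : 0 < ε) (hε4 : ε ≤ 1 / 4)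
    (B B' : Set (E (m + 1))) (hB' : MeasurableSet B')
    (h : ∀ z ∈ B', ball z (ε * D z / 2) ⊆ B) :
    ENNReal.ofReal ((4 / 9) ^ (m + 1)) * v * μ B' ≤ ∫⁻ y in B, Av D μ ε y := by
  obtain ⟨hDp, hDl, hDc, -⟩ := h3 (m + 1) I D hD
  -- the kernel
  set k : E (m + 1) → E (m + 1) → ℝ≥0∞ := fun y z =>
    (ball y (ε * D y)).indicator (fun _ => (ENNReal.ofReal ((ε * D y) ^ (m + 1)))⁻¹) z with hk
  have hAv : ∀ y, Av D μ ε y = ∫⁻ z, k y z ∂μ := by
    intro y
    rw [hk]
    simp only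
    rw [lintegral_indicator measurableSet_ball, setLIntegral_const, Av, ENNReal.div_eq_inv_mul]
  have hkm : Measurable (Function.uncurry k) := by
    have : Function.uncurry k = {p : E (m + 1) × E (m + 1) | dist p.2 p.1 < ε * D p.1}.indicator
        (fun p => (ENNReal.ofReal ((ε * D p.1) ^ (m + 1)))⁻¹) := by
      funext p
      obtain ⟨y, z⟩ := p
      simp only [Function.uncurry, hk, Set.indicator, mem_ball, Set.mem_ofPred_eq]
    rw [this]
    refine Measurable.indicator ?_ ?_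
    · refine Measurable.inv ?_
      refine ENNReal.measurable_ofReal.comp ?_
      exact (((hDc.comp continuous_fst).const_mul ε).pow (m + 1)).measurable
    · refine IsOpen.measurableSet ?_
      exact isOpen_lt (continuous_snd.dist continuous_fst)
        ((hDc.comp continuous_fst).const_mul ε)
  have h1 : ∫⁻ y in B, Av D μ ε y = ∫⁻ z, (∫⁻ y in B, k y z) ∂μ := by
    simp_rw [hAv]
    rw [lintegral_lintegral_swap]
    exact hkm.aemeasurable
  rw [h1]
  have h2 : ∀ z ∈ B', ENNReal.ofReal ((4 / 9) ^ (m + 1)) * v ≤ ∫⁻ y in B, k y z := by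
    intro z hz
    have hDz := hDp z
    have hr : 0 < ε * D z / 2 := by positivity
    have h3' : ∀ y ∈ ball z (ε * D z / 2),
        (ENNReal.ofReal ((9 / 8 * (ε * D z)) ^ (m + 1)))⁻¹ ≤ k y z := by
      intro y hy
      have hyz : ‖y - z‖ < ε * D z / 2 := by rwa [mem_ball, dist_eq_norm] at hy
      have hl := hDl y z
      rw [abs_le] at hl
      have hb1 : D z / 2 < D y := by nlinarith
      have hb2 : D y ≤ 9 / 8 * D z := by nlinarith
      have hmem : z ∈ ball y (ε * D y) := by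
        rw [mem_ball, dist_eq_norm, norm_sub_rev]
        nlinarith
      rw [hk]
      simp only
      rw [Set.indicator_of_mem hmem]
      refine ENNReal.inv_le_inv.2 ?_
      refine ENNReal.ofReal_le_ofReal ?_
      refine pow_le_pow_left₀ (mul_nonneg hε.le (hDp y).le) ?_ _
      nlinarith
    calc ENNReal.ofReal ((4 / 9) ^ (m + 1)) * v
        = (ENNReal.ofReal ((9 / 8 * (ε * D z)) ^ (m + 1)))⁻¹ *
            (ENNReal.ofReal ((ε * D z / 2) ^ (m + 1)) * v) := by
          rw [← mul_assoc]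
          congr 1
          rw [← ENNReal.ofReal_inv_of_pos (by positivity), ← ENNReal.ofReal_mul (by positivity)]
          congr 1
          rw [← inv_pow, ← mul_pow]
          congr 1
          field_simp
          norm_num
      _ = ∫⁻ y in ball z (ε * D z / 2), (ENNReal.ofReal ((9 / 8 * (ε * D z)) ^ (m + 1)))⁻¹ := by
          rw [setLIntegral_const, hv _ _ hr]
      _ ≤ ∫⁻ y in ball z (ε * D z / 2), k y z := setLIntegral_mono' measurableSet_ball h3'
      _ ≤ ∫⁻ y in B, k y z := lintegral_mono_set (h z hz)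
  calc ENNReal.ofReal ((4 / 9) ^ (m + 1)) * v * μ B'
      = ∫⁻ z in B', ENNReal.ofReal ((4 / 9) ^ (m + 1)) * v ∂μ := by rw [setLIntegral_const]
    _ ≤ ∫⁻ z in B', (∫⁻ y in B, k y z) ∂μ := setLIntegral_mono' hB' h2
    _ ≤ ∫⁻ z, (∫⁻ y in B, k y z) ∂μ := setLIntegral_le_lintegral _ _

/-- The estimate for a finite disjoint family. -/
lemma key (h2 : Stmt_BSS) (h3 : Stmt_BSA) (h5 : Stmt_BSM) {m : ℕ} {v v' : ℝ≥0∞}
    (hv : ∀ (x : E (m + 1)) (r : ℝ), 0 < r →
      volume (ball x r) = ENNReal.ofReal (r ^ (m + 1)) * v)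
    (hv' : ∀ (x : E m) (r : ℝ), 0 < r →
      volume (closedBall x r) = ENNReal.ofReal (r ^ m) * v')
    (S : Slice m)
    {I : Finset (E (m + 1) × ℝ)} {D : E (m + 1) → ℝ} (hD : IsD I D)
    (hdis : ∀ q ∈ I, ∀ q' ∈ I, q ≠ q' →
      Disjoint (closedBall q.1 (2 * q.2)) (closedBall q'.1 (2 * q'.2)))
    (μ : Measure (E (m + 1))) [IsFiniteMeasure μ] {ε : ℝ} (hε : 0 < ε) (hε4 : ε ≤ 1 / 4)
    (Λ : ℝ≥0∞) (hΛ : ∀ q ∈ I, Λ * ENNReal.ofReal (q.2 ^ m) ≤ μ (closedBall q.1 q.2)) :
    (ENNReal.ofReal ((4 / 9) ^ (m + 1)) * v * Λ) ^ 2 * ∑ q ∈ I, ENNReal.ofReal (q.2 ^ m) ≤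
      ENNReal.ofReal (4 ^ m) * v' * J S (Av D μ ε) := by
  classical
  obtain ⟨hDp, hDl, hDc, -⟩ := h3 (m + 1) I D hD
  set G := Av D μ ε with hG
  have hGm : Measurable G := by
    rw [hG]
    unfold Av
    refine Measurable.div ?_ ?_
    · exact (h5 (m + 1) μ (fun y => ε * D y) (hDc.const_mul ε)).1
    · refine ENNReal.measurable_ofReal.comp ?_
      exact ((hDc.const_mul ε).pow (m + 1)).measurable
  set F : E (m + 1) × ℝ → E (m + 1) → ℝ≥0∞ := fun q => (closedBall q.1 (2 * q.2)).indicator G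
    with hF
  have hFm : ∀ q, Measurable (F q) := fun q => hGm.indicator measurableSet_closedBall
  set f : E (m + 1) × ℝ → E m → ℝ≥0∞ := fun q p => ∫⁻ t, F q (S.Q (p, t)) with hf
  have hfm : ∀ q, Measurable (f q) := fun q => (h2 m S (F q) (hFm q)).1
  have hfi : ∀ q, ∫⁻ p, f q p = ∫⁻ z in closedBall q.1 (2 * q.2), G z := by
    intro q
    rw [hf]
    simp only
    rw [(h2 m S (F q) (hFm q)).2.1, hF]
    simp only
    rw [lintegral_indicator measurableSet_closedBall]
  -- the sum of the pieces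
  have hsumF : ∀ z, ∑ q ∈ I, F q z ≤ G z := by
    intro z
    by_cases hz : ∃ q ∈ I, z ∈ closedBall q.1 (2 * q.2)
    · obtain ⟨q, hq, hzq⟩ := hz
      rw [Finset.sum_eq_single q]
      · rw [hF]
        simp only
        rw [Set.indicator_of_mem hzq]
      · intro q' hq' hne
        rw [hF]
        simp only
        refine Set.indicator_of_notMem ?_ _
        intro hzq'
        exact Set.disjoint_left.1 (hdis q hq q' hq' (Ne.symm hne)) hzq hzq'
      · intro hh
        exact absurd hq hh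
    · push Not at hz
      rw [Finset.sum_eq_zero]
      · exact zero_le
      · intro q hq
        rw [hF]
        simp only
        exact Set.indicator_of_notMem (hz q hq) _
  have hsumf : ∀ p, ∑ q ∈ I, f q p ≤ ∫⁻ t, G (S.Q (p, t)) := by
    intro p
    rw [hf]
    simp only
    rw [← lintegral_finsetSum]
    · exact lintegral_mono fun t => hsumF _
    · intro q _
      exact (hFm q).comp (S.Q.continuous.measurable.comp measurable_prodMk_left)
  have hJ : ∑ q ∈ I, ∫⁻ p, f q p ^ 2 ≤ J S G := by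
    rw [← lintegral_finsetSum]
    · rw [J]
      refine lintegral_mono fun p => ?_
      calc ∑ q ∈ I, f q p ^ 2 ≤ (∑ q ∈ I, f q p) ^ 2 := sum_sq I _
        _ ≤ _ := by
          gcongr
          exact hsumf p
    · intro q _
      exact (hfm q).pow_const 2
  -- each piece
  have hpiece : ∀ q ∈ I, (ENNReal.ofReal ((4 / 9) ^ (m + 1)) * v * Λ) ^ 2 *
      ENNReal.ofReal (q.2 ^ m) ≤ ENNReal.ofReal (4 ^ m) * v' * ∫⁻ p, f q p ^ 2 := by
    intro q hq
    have hq0 := hD.pos q hq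
    have hqm : 0 < q.2 ^ m := by positivity
    have hlow : ENNReal.ofReal ((4 / 9) ^ (m + 1)) * v * μ (closedBall q.1 q.2) ≤
        ∫⁻ y in closedBall q.1 (2 * q.2), Av D μ ε y := by
      refine lower_int h3 hv hD μ hε hε4 _ _ measurableSet_closedBall ?_
      intro z hz
      have hb := D_bounds hD hdis hq hz
      intro y hy
      rw [mem_closedBall] at hz ⊢
      rw [mem_ball] at hy
      have := dist_triangle y z q.1
      nlinarith
    have hsupp : ∀ p, p ∉ closedBall (S.Q.symm q.1).1 (4 * q.2) → f q p = 0 := by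
      intro p hp
      rw [hf]
      simp only
      rw [lintegral_eq_zero_iff']
      · refine Filter.Eventually.of_forall fun t => ?_
        rw [hF]
        simp only [Pi.zero_apply]
        refine Set.indicator_of_notMem ?_ _
        intro hmem
        apply hp
        rw [mem_closedBall, dist_eq_norm] at hmem ⊢
        have h4 := S.lip1 (S.Q (p, t) - q.1)
        rw [map_sub, Prod.fst_sub, ContinuousLinearEquiv.symm_apply_apply] at h4
        simp only at h4
        linarith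
      · exact ((hFm q).comp (S.Q.continuous.measurable.comp
          measurable_prodMk_left)).aemeasurable
    have hcs := cs volume (f q) (hfm q) _ measurableSet_closedBall hsupp
    rw [hfi q, hv' _ _ (by linarith : 0 < 4 * q.2)] at hcs
    have hl2 : ENNReal.ofReal ((4 / 9) ^ (m + 1)) * v * (Λ * ENNReal.ofReal (q.2 ^ m)) ≤
        ∫⁻ y in closedBall q.1 (2 * q.2), G y := by
      refine le_trans ?_ hlow
      gcongr
      exact hΛ q hq
    have h6 : (ENNReal.ofReal ((4 / 9) ^ (m + 1)) * v * (Λ * ENNReal.ofReal (q.2 ^ m))) ^ 2 ≤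
        (∫⁻ p, f q p ^ 2) * (ENNReal.ofReal ((4 * q.2) ^ m) * v') := by
      refine le_trans ?_ hcs
      gcongr
    have hne0 : ENNReal.ofReal (q.2 ^ m) ≠ 0 := by
      rw [Ne, ENNReal.ofReal_eq_zero]
      linarith
    have hnet : ENNReal.ofReal (q.2 ^ m) ≠ ⊤ := ENNReal.ofReal_ne_top
    rw [mul_pow 4 q.2 m, ENNReal.ofReal_mul (by positivity)] at h6
    have h7 : ENNReal.ofReal (q.2 ^ m) * ((ENNReal.ofReal ((4 / 9) ^ (m + 1)) * v * Λ) ^ 2 *
      ENNReal.ofReal (q.2 ^ m)) ≤ ENNReal.ofReal (q.2 ^ m) *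
        (ENNReal.ofReal (4 ^ m) * v' * ∫⁻ p, f q p ^ 2) := by
      calc _ = (ENNReal.ofReal ((4 / 9) ^ (m + 1)) * v * (Λ * ENNReal.ofReal (q.2 ^ m))) ^ 2 := by
            ring
        _ ≤ _ := h6
        _ = _ := by ring
    exact (ENNReal.mul_le_mul_iff_right hne0 hnet).1 h7
  calc _ = ∑ q ∈ I, (ENNReal.ofReal ((4 / 9) ^ (m + 1)) * v * Λ) ^ 2 *
        ENNReal.ofReal (q.2 ^ m) := by rw [Finset.mul_sum]
    _ ≤ ∑ q ∈ I, ENNReal.ofReal (4 ^ m) * v' * ∫⁻ p, f q p ^ 2 := Finset.sum_le_sum hpiece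
    _ = ENNReal.ofReal (4 ^ m) * v' * ∑ q ∈ I, ∫⁻ p, f q p ^ 2 := by rw [Finset.mul_sum]
    _ ≤ _ := by gcongr

/-- The choice of the radii. -/
lemma radius {m : ℕ} (μ : Measure (E (m + 1))) (R0 Λ : ℝ) (hR0 : 0 < R0)
    (hΛ : 0 < Λ) (hΛR : μ Set.univ < ENNReal.ofReal (Λ * R0 ^ m)) (x : E (m + 1))
    (hx : ¬ P1 μ x) :
    ∃ r : ℝ, 0 < r ∧ r < R0 ∧ ENNReal.ofReal (Λ * r ^ m) ≤ μ (closedBall x r) ∧
      μ (closedBall x (10 * r)) ≤ ENNReal.ofReal (Λ * (10 * r) ^ m) := by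
  set A : Set ℝ := {r | 0 < r ∧ r < R0 ∧ ENNReal.ofReal (Λ * r ^ m) ≤ μ (closedBall x r)} with hA
  have hbig : ∀ r, R0 ≤ r → μ (closedBall x r) ≤ ENNReal.ofReal (Λ * r ^ m) := by
    intro r hr
    calc μ (closedBall x r) ≤ μ Set.univ := measure_mono (Set.subset_univ _)
      _ ≤ ENNReal.ofReal (Λ * R0 ^ m) := hΛR.le
      _ ≤ _ := by
        refine ENNReal.ofReal_le_ofReal ?_
        gcongr
  have hne : A.Nonempty := by
    by_contra hcon
    rw [Set.not_nonempty_iff_eq_empty] at hcon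
    apply hx
    refine ⟨Λ, fun r hr _ => ?_⟩
    by_cases hrR : r < R0
    · by_contra hlt
      push Not at hlt
      have : r ∈ A := ⟨hr, hrR, hlt.le⟩
      rw [hcon] at this
      exact this
    · exact hbig r (not_lt.1 hrR)
  have hbdd : BddAbove A := ⟨R0, fun r hr => hr.2.1.le⟩
  obtain ⟨r1, hr1⟩ := hne
  have hs0 : 0 < sSup A := lt_of_lt_of_le hr1.1 (le_csSup hbdd hr1)
  obtain ⟨r, hr, hlt⟩ := exists_lt_of_lt_csSup ⟨r1, hr1⟩ (by linarith : sSup A / 2 < sSup A)
  refine ⟨r, hr.1, hr.2.1, hr.2.2, ?_⟩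
  by_cases h10 : 10 * r < R0
  · by_contra hcon
    push Not at hcon
    have : 10 * r ∈ A := ⟨by linarith [hr.1], h10, hcon.le⟩
    have := le_csSup hbdd this
    linarith
  · exact hbig _ (not_lt.1 h10)

lemma final (h2 : Stmt_BSS) (h3 : Stmt_BSA) (h4 : Stmt_BSV) (h5 : Stmt_BSM) {m : ℕ}
    (S : Slice m) (μ : Measure (E (m + 1))) [IsFiniteMeasure μ] {ε : ℝ} (hε : 0 < ε)
    (hε4 : ε ≤ 1 / 4) (C : ℝ≥0∞) (hC : C ≠ ⊤) (R : ℝ) (hR : 0 < R) (X' : Set (E (m + 1)))
    (hX' : ∀ x ∈ X', ¬ P1 μ x)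
    (hJ : ∀ (I : Finset (E (m + 1) × ℝ)) (D : E (m + 1) → ℝ), IsD I D →
      (∀ q ∈ I, q.1 ∈ X' ∧ q.2 < R) → J S (Av D μ ε) ≤ C) : μ X' = 0 := by
  classical
  obtain ⟨v, hv0, hvt, hv⟩ := h4 (m + 1)
  obtain ⟨v', hv0', hvt', hv'⟩ := h4 m
  set a : ℝ≥0∞ := ENNReal.ofReal ((4 / 9) ^ (m + 1)) * v with ha
  have ha0 : a ≠ 0 := by
    rw [ha]
    refine mul_ne_zero ?_ hv0
    rw [Ne, ENNReal.ofReal_eq_zero, not_le]
    positivity
  have hat : a ≠ ⊤ := ENNReal.mul_ne_top ENNReal.ofReal_ne_top hvt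
  set C' : ℝ≥0∞ := ENNReal.ofReal (4 ^ m) * v' * C with hC'
  have hC't : C' ≠ ⊤ := ENNReal.mul_ne_top (ENNReal.mul_ne_top ENNReal.ofReal_ne_top hvt') hC
  -- the estimate for one Lambda
  have main : ∀ Λ : ℝ, 0 < Λ → μ Set.univ < ENNReal.ofReal (Λ * R ^ m) →
      ENNReal.ofReal Λ * (a ^ 2 * μ X') ≤ ENNReal.ofReal (10 ^ m) * C' := by
    intro Λ hΛ hΛR
    have hrad : ∀ x ∈ X', ∃ r : ℝ, 0 < r ∧ r < R ∧
        ENNReal.ofReal (Λ * r ^ m) ≤ μ (closedBall x r) ∧
        μ (closedBall x (10 * r)) ≤ ENNReal.ofReal (Λ * (10 * r) ^ m) := fun x hx =>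
      radius μ R Λ hR hΛ hΛR x (hX' x hx)
    choose! r hr0 hrR hrlow hrup using hrad
    obtain ⟨t, htX, htd, htc⟩ := Vitali.exists_disjoint_subfamily_covering_enlargement_closedBall
      X' (fun x : E (m + 1) => x) (fun x => 2 * r x) (2 * R)
      (fun x hx => by linarith [hrR x hx]) 5 (by norm_num)
    have htcount : t.Countable := by
      refine htd.countable_of_nonempty_interior ?_
      intro x hx
      refine ⟨x, ?_⟩
      have : ball x (2 * r x) ⊆ interior (closedBall x (2 * r x)) :=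
        interior_maximal ball_subset_closedBall isOpen_ball
      exact this (mem_ball_self (by linarith [hr0 x (htX hx)]))
    -- finite subfamilies
    have hfin : ∀ s : Finset t, ∑ b ∈ s, (a * ENNReal.ofReal Λ) ^ 2 *
        ENNReal.ofReal (r b ^ m) ≤ C' := by
      intro s
      by_cases hs : s.Nonempty
      · set I : Finset (E (m + 1) × ℝ) := s.image (fun b : t => ((b : E (m + 1)), r b)) with hI
        have hInon : I.Nonempty := hs.image _
        have hImem : ∀ q ∈ I, q.1 ∈ t ∧ q.2 = r q.1 := by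
          intro q hq
          rw [hI, Finset.mem_image] at hq
          obtain ⟨b, -, rfl⟩ := hq
          exact ⟨b.2, rfl⟩
        have hIpos : ∀ q ∈ I, 0 < q.2 := by
          intro q hq
          rw [(hImem q hq).2]
          exact hr0 _ (htX (hImem q hq).1)
        obtain ⟨D, hD⟩ := exists_D I hInon hIpos
        have hdis : ∀ q ∈ I, ∀ q' ∈ I, q ≠ q' →
            Disjoint (closedBall q.1 (2 * q.2)) (closedBall q'.1 (2 * q'.2)) := by
          intro q hq q' hq' hne
          have h1 := hImem q hq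
          have h1' := hImem q' hq'
          have hne1 : q.1 ≠ q'.1 := by
            intro h
            apply hne
            refine Prod.ext h ?_
            rw [h1.2, h1'.2, h]
          have := htd h1.1 h1'.1 hne1
          simp only [Function.onFun] at this
          rw [h1.2, h1'.2]
          exact this
        have hΛI : ∀ q ∈ I, ENNReal.ofReal Λ * ENNReal.ofReal (q.2 ^ m) ≤
            μ (closedBall q.1 q.2) := by
          intro q hq
          have h1 := hImem q hq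
          rw [← ENNReal.ofReal_mul hΛ.le, h1.2]
          exact hrlow _ (htX h1.1)
        have hk := key h2 h3 h5 (fun x r hr => (hv x r hr).1) (fun x r hr => (hv' x r hr).2) S hD
          hdis μ hε hε4 (ENNReal.ofReal Λ) hΛI
        have hJ' : J S (Av D μ ε) ≤ C := by
          refine hJ I D hD ?_
          intro q hq
          have h1 := hImem q hq
          refine ⟨htX h1.1, ?_⟩
          rw [h1.2]
          exact hrR _ (htX h1.1)
        rw [← Finset.mul_sum]
        have hsum : ∑ b ∈ s, ENNReal.ofReal (r b ^ m) = ∑ q ∈ I, ENNReal.ofReal (q.2 ^ m) := by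
          rw [hI, Finset.sum_image]
          intro b _ b' _ hbb
          have := congrArg Prod.fst hbb
          exact Subtype.ext this
        rw [hsum]
        refine hk.trans ?_
        rw [hC']
        gcongr
      · rw [Finset.not_nonempty_iff_eq_empty] at hs
        rw [hs]
        simp
    have htsum : (a * ENNReal.ofReal Λ) ^ 2 * ∑' b : t, ENNReal.ofReal (r b ^ m) ≤ C' := by
      rw [← ENNReal.tsum_mul_left, ENNReal.tsum_eq_iSup_sum]
      exact iSup_le hfin
    have hcov : X' ⊆ ⋃ b ∈ t, closedBall b (10 * r b) := by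
      intro x hx
      obtain ⟨b, hb, hsub⟩ := htc x hx
      have hxm : x ∈ closedBall b (5 * (2 * r b)) :=
        hsub (mem_closedBall_self (by linarith [hr0 x hx]))
      have he : 5 * (2 * r b) = 10 * r b := by ring
      rw [he] at hxm
      exact Set.mem_biUnion hb hxm
    have hμ : μ X' ≤ ENNReal.ofReal (Λ * 10 ^ m) * ∑' b : t, ENNReal.ofReal (r b ^ m) := by
      calc μ X' ≤ μ (⋃ b ∈ t, closedBall b (10 * r b)) := measure_mono hcov
        _ ≤ ∑' b : t, μ (closedBall (b : E (m + 1)) (10 * r b)) := measure_biUnion_le μ htcount _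
        _ ≤ ∑' b : t, ENNReal.ofReal (Λ * 10 ^ m) * ENNReal.ofReal (r b ^ m) := by
          refine ENNReal.tsum_le_tsum fun b => ?_
          refine (hrup b (htX b.2)).trans ?_
          rw [← ENNReal.ofReal_mul (by positivity)]
          refine le_of_eq ?_
          congr 1
          rw [mul_pow]
          ring
        _ = _ := ENNReal.tsum_mul_left
    have hΛ0 : ENNReal.ofReal Λ ≠ 0 := by
      rw [Ne, ENNReal.ofReal_eq_zero, not_le]
      exact hΛ
    have hfinal : ENNReal.ofReal Λ * (ENNReal.ofReal Λ * (a ^ 2 * μ X')) ≤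
        ENNReal.ofReal Λ * (ENNReal.ofReal (10 ^ m) * C') := by
      calc ENNReal.ofReal Λ * (ENNReal.ofReal Λ * (a ^ 2 * μ X'))
          = (a * ENNReal.ofReal Λ) ^ 2 * μ X' := by ring
        _ ≤ (a * ENNReal.ofReal Λ) ^ 2 * (ENNReal.ofReal (Λ * 10 ^ m) *
            ∑' b : t, ENNReal.ofReal (r b ^ m)) := by gcongr
        _ = ENNReal.ofReal (Λ * 10 ^ m) * ((a * ENNReal.ofReal Λ) ^ 2 *
            ∑' b : t, ENNReal.ofReal (r b ^ m)) := by ring
        _ ≤ ENNReal.ofReal (Λ * 10 ^ m) * C' := by gcongr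
        _ = _ := by
          rw [ENNReal.ofReal_mul hΛ.le]
          ring
    exact (ENNReal.mul_le_mul_iff_right hΛ0 ENNReal.ofReal_ne_top).1 hfinal
  -- let Lambda tend to infinity
  by_contra hne
  have hb0 : a ^ 2 * μ X' ≠ 0 := mul_ne_zero (pow_ne_zero 2 ha0) hne
  have hbt : ENNReal.ofReal (10 ^ m) * C' ≠ ⊤ := ENNReal.mul_ne_top ENNReal.ofReal_ne_top hC't
  obtain ⟨n, hn⟩ := ENNReal.exists_nat_mul_gt hb0 hbt
  have hRm : 0 < R ^ m := by positivity
  set N : ℝ := max (max 1 (n : ℝ)) ((μ Set.univ).toReal / R ^ m + 1) with hN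
  have hN1 : (n : ℝ) ≤ N := (le_max_right _ _).trans (le_max_left _ _)
  have hN0 : 0 < N := lt_of_lt_of_le one_pos ((le_max_left _ _).trans (le_max_left _ _))
  have hN2 : (μ Set.univ).toReal / R ^ m < N := by
    have : (μ Set.univ).toReal / R ^ m + 1 ≤ N := le_max_right _ _
    linarith
  have hN3 : μ Set.univ < ENNReal.ofReal (N * R ^ m) := by
    rw [div_lt_iff₀ hRm] at hN2
    rw [← ENNReal.ofReal_toReal (measure_ne_top μ Set.univ)]
    exact (ENNReal.ofReal_lt_ofReal_iff (by positivity)).2 hN2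
  have h6 := main N hN0 hN3
  have h7 : (n : ℝ≥0∞) * (a ^ 2 * μ X') ≤ ENNReal.ofReal N * (a ^ 2 * μ X') := by
    gcongr
    rw [← ENNReal.ofReal_natCast]
    exact ENNReal.ofReal_le_ofReal hN1
  exact absurd (h7.trans h6) (not_le.2 hn)

end UDN_

theorem udn_proof (h1 : Stmt_MAI) (h2 : Stmt_BSS) (h3 : Stmt_BSA) (h4 : Stmt_BSV)
    (h5 : Stmt_BSM) : Stmt_UDN := by
  intro m N K ℓ A hA c hc
  obtain ⟨ε, hε, -, hε4, η, hη, hmai⟩ := h1 m N K ℓ A hA c 1 hc one_pos
  refine ⟨η, hη, ?_⟩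
  intro Ru u μ g hpair w hw hS R hR X hX
  obtain ⟨S, hSE⟩ := hS
  obtain ⟨C, hC, hCS⟩ := hmai Ru u μ g hpair w hw R hR
  have := hpair.fin
  refine UDN_.final h2 h3 h4 h5 S μ hε (by linarith) C hC R hR _ (fun x hx => hx.2) ?_
  intro I D hD hq
  refine hCS S hSE I D hD ?_
  intro q hqI
  obtain ⟨⟨hqX, -⟩, hqR⟩ := hq q hqI
  refine ⟨(hX _ hqX).1, hqR, ?_⟩
  intro r hr _ hrR
  exact (hX _ hqX).2 r hr hr.le hrR

end Pool.Agent.CEL
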