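import Pool.Agent.CEL.Stmts

/-!
# CEL, module VSF: the formula for `B v`, `v` the variable radius mollification
-/

set_option autoImplicit false
open Topology Filter MeasureTheory Matrix Metric
open scoped ENNReal

namespace Pool.Agent.CEL

namespace VSF_

variable {m N K : ℕ}

/-- The derivative of the kernel in `y`. -/
noncomputable def G (φ δ : E (m + 1) → ℝ) (y z : E (m + 1)) : E (m + 1) →L[ℝ] ℝ :=
  ((δ y)⁻¹ ^ (m + 2)) • fderiv ℝ φ ((δ y)⁻¹ • (y - z)) -
    ((δ y)⁻¹ * ker (dvg φ) (δ y) (y - z)) • fderiv ℝ δ y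

theorem hasF (φ δ : E (m + 1) → ℝ) (hφ : TF φ) (hδ : ContDiff ℝ (⊤ : ℕ∞) δ)
    (hp : ∀ y, 0 < δ y) (y z : E (m + 1)) :
    HasFDerivAt (fun y => ker φ (δ y) (y - z)) (G φ δ y z) y := by
  have hd : HasFDerivAt δ (fderiv ℝ δ y) y :=
    (hδ.differentiable (by simp) y).hasFDerivAt
  have hne : δ y ≠ 0 := (hp y).ne'
  have ha : HasFDerivAt (fun y => (δ y)⁻¹) (-((δ y)⁻¹ ^ 2) • fderiv ℝ δ y) y := by
    have := (hasDerivAt_inv hne).comp_hasFDerivAt y hd
    have e : (-(δ y ^ 2)⁻¹) • fderiv ℝ δ y = (-((δ y)⁻¹ ^ 2)) • fderiv ℝ δ y := by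
      rw [inv_pow]
    rw [e] at this
    exact this
  have hy : HasFDerivAt (fun y => y - z) (ContinuousLinearMap.id ℝ (E (m + 1))) y :=
    (hasFDerivAt_id y).sub_const z
  have hs := ha.smul hy
  have hφ' : HasFDerivAt φ (fderiv ℝ φ ((δ y)⁻¹ • (y - z))) ((δ y)⁻¹ • (y - z)) :=
    (hφ.1.differentiable (by simp) _).hasFDerivAt
  have hc := hφ'.comp y hs
  have hpw := ha.pow (m + 1)
  have hm := hpw.mul hc
  have e1 : (fun y => ker φ (δ y) (y - z)) =
      fun y => (δ y)⁻¹ ^ (m + 1) * (φ ∘ fun y => (δ y)⁻¹ • (y - z)) y := by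
    funext y
    simp [ker, inv_pow]
  rw [e1]
  refine hm.congr_fderiv ?_
  ext v
  simp only [G, ker, dvg, ContinuousLinearMap.add_apply, ContinuousLinearMap.smul_apply,
    ContinuousLinearMap.sub_apply, ContinuousLinearMap.comp_apply, smul_eq_mul,
    ContinuousLinearMap.smulRight_apply, ContinuousLinearMap.id_apply, Function.comp,
    map_add, map_smul, ContinuousLinearMap.coe_smul', Pi.smul_apply, nsmul_eq_mul,
    Nat.add_sub_cancel, Nat.cast_add, Nat.cast_one, ContinuousLinearMap.neg_apply, neg_smul,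
    map_neg, Pi.smul_apply']
  rw [← inv_pow]
  ring

theorem contG (φ δ : E (m + 1) → ℝ) (hφ : TF φ) (y : E (m + 1)) :
    Continuous (G φ δ y) := by
  have h1 : Continuous (fderiv ℝ φ) := hφ.1.continuous_fderiv (by simp)
  have h0 : Continuous φ := hφ.1.continuous
  have h2 : Continuous (fun z : E (m + 1) => (δ y)⁻¹ • (y - z)) := by fun_prop
  have h3 : Continuous (fun z => fderiv ℝ φ ((δ y)⁻¹ • (y - z))) := h1.comp h2
  have h4 : Continuous (fun z => φ ((δ y)⁻¹ • (y - z))) := h0.comp h2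
  have h5 : Continuous (fun z => fderiv ℝ φ ((δ y)⁻¹ • (y - z)) ((δ y)⁻¹ • (y - z))) :=
    h3.clm_apply h2
  unfold G ker dvg
  fun_prop

theorem cont_ker (φ δ : E (m + 1) → ℝ) (hφ : TF φ) (y : E (m + 1)) :
    Continuous (fun z => ker φ (δ y) (y - z)) := by
  have h0 : Continuous φ := hφ.1.continuous
  have h2 : Continuous (fun z : E (m + 1) => (δ y)⁻¹ • (y - z)) := by fun_prop
  have h4 : Continuous (fun z => φ ((δ y)⁻¹ • (y - z))) := h0.comp h2
  unfold ker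
  fun_prop

theorem cont_kerd (φ δ : E (m + 1) → ℝ) (hφ : TF φ) (y : E (m + 1)) :
    Continuous (fun z => ker (dvg φ) (δ y) (y - z)) := by
  have h1 : Continuous (fderiv ℝ φ) := hφ.1.continuous_fderiv (by simp)
  have h0 : Continuous φ := hφ.1.continuous
  have h2 : Continuous (fun z : E (m + 1) => (δ y)⁻¹ • (y - z)) := by fun_prop
  have h3 : Continuous (fun z => fderiv ℝ φ ((δ y)⁻¹ • (y - z))) := h1.comp h2
  have h4 : Continuous (fun z => φ ((δ y)⁻¹ • (y - z))) := h0.comp h2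
  have h5 : Continuous (fun z => fderiv ℝ φ ((δ y)⁻¹ • (y - z)) ((δ y)⁻¹ • (y - z))) :=
    h3.clm_apply h2
  unfold ker dvg
  fun_prop

theorem bdd_phi (φ : E (m + 1) → ℝ) (hφ : TF φ) : ∃ C : ℝ, 0 ≤ C ∧ (∀ z, |φ z| ≤ C) ∧
    (∀ z, ‖fderiv ℝ φ z‖ ≤ C) ∧ ∀ z, |dvg φ z| ≤ C := by
  have h1 : Continuous (fderiv ℝ φ) := hφ.1.continuous_fderiv (by simp)
  have h0 : Continuous φ := hφ.1.continuous
  obtain ⟨C1, hC1⟩ := h0.bounded_above_of_compact_support hφ.2
  obtain ⟨C2, hC2⟩ := h1.bounded_above_of_compact_support (hφ.2.fderiv ℝ)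
  have h5 : Continuous (dvg φ) := by
    have : Continuous (fun z => fderiv ℝ φ z z) := h1.clm_apply continuous_id
    unfold dvg
    fun_prop
  have h6 : HasCompactSupport (dvg φ) := by
    refine HasCompactSupport.intro hφ.2 (fun z hz => ?_)
    have e1 : φ z = 0 := image_eq_zero_of_notMem_tsupport hz
    have e2 : fderiv ℝ φ z = 0 := by
      have : z ∉ tsupport (fderiv ℝ φ) := fun h => hz (tsupport_fderiv_subset ℝ h)
      exact image_eq_zero_of_notMem_tsupport this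
    simp [dvg, e1, e2]
  obtain ⟨C3, hC3⟩ := h5.bounded_above_of_compact_support h6
  refine ⟨max (max C1 C2) C3, ?_, fun z => ?_, fun z => ?_, fun z => ?_⟩
  · exact le_trans (norm_nonneg _) (le_trans (hC3 0) (le_max_right _ _))
  · exact le_trans (hC1 z) (le_trans (le_max_left _ _) (le_max_left _ _))
  · exact le_trans (hC2 z) (le_trans (le_max_right _ _) (le_max_left _ _))
  · exact le_trans (hC3 z) (le_max_right _ _)

theorem bdd_G (φ δ : E (m + 1) → ℝ) (hφ : TF φ) (hδ : ContDiff ℝ (⊤ : ℕ∞) δ)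
    (hp : ∀ y, 0 < δ y) (y : E (m + 1)) :
    ∃ M : ℝ, ∀ y' ∈ closedBall y 1, ∀ z, ‖G φ δ y' z‖ ≤ M := by
  obtain ⟨C, hC, hC1, hC2, hC3⟩ := bdd_phi φ hφ
  have hcδ : Continuous δ := hδ.continuous
  have hinv : ContinuousOn (fun y => (δ y)⁻¹) (closedBall y 1) :=
    (hcδ.continuousOn).inv₀ (fun x _ => (hp x).ne')
  have hder : ContinuousOn (fderiv ℝ δ) (closedBall y 1) :=
    (hδ.continuous_fderiv (by simp)).continuousOn
  obtain ⟨b, hb⟩ := (isCompact_closedBall y 1).exists_bound_of_continuousOn hinv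
  obtain ⟨c, hc⟩ := (isCompact_closedBall y 1).exists_bound_of_continuousOn hder
  refine ⟨b ^ (m + 2) * C + (b * (b ^ (m + 1) * C)) * c, fun y' hy' z => ?_⟩
  have hb' := hb y' hy'
  have hc' := hc y' hy'
  have hpos : 0 ≤ (δ y')⁻¹ := (inv_pos.mpr (hp y')).le
  rw [Real.norm_of_nonneg hpos] at hb'
  have hb0 : 0 ≤ b := hpos.trans hb'
  unfold G
  refine (norm_sub_le _ _).trans (add_le_add ?_ ?_)
  · rw [norm_smul, Real.norm_of_nonneg (pow_nonneg hpos _)]
    exact mul_le_mul (pow_le_pow_left₀ hpos hb' _) (hC2 _) (norm_nonneg _) (pow_nonneg hb0 _)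
  · rw [norm_smul, norm_mul, Real.norm_of_nonneg hpos]
    refine mul_le_mul ?_ hc' (norm_nonneg _) (by positivity)
    refine mul_le_mul hb' ?_ (norm_nonneg _) hb0
    unfold ker
    rw [← inv_pow, norm_mul, Real.norm_of_nonneg (pow_nonneg hpos _)]
    exact mul_le_mul (pow_le_pow_left₀ hpos hb' _) (hC3 _) (norm_nonneg _) (pow_nonneg hb0 _)

theorem bdd_ker (φ : E (m + 1) → ℝ) (C : ℝ) (hC : ∀ z, |φ z| ≤ C) (d : ℝ) (hd : 0 < d)
    (z : E (m + 1)) : ‖ker φ d z‖ ≤ (d ^ (m + 1))⁻¹ * C := by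
  unfold ker
  rw [norm_mul, Real.norm_of_nonneg (by positivity)]
  exact mul_le_mul_of_nonneg_left (hC _) (by positivity)

theorem int_smul (u : E (m + 1) → (Fin N → ℝ)) (hu : Integrable u) (k : E (m + 1) → ℝ)
    (hk : Continuous k) (M : ℝ) (hM : ∀ z, ‖k z‖ ≤ M) : Integrable (fun z => k z • u z) := by
  refine (hu.norm.const_mul M).mono' (hk.aestronglyMeasurable.smul hu.1) ?_
  refine Eventually.of_forall (fun z => ?_)
  rw [norm_smul]
  exact mul_le_mul_of_nonneg_right (hM z) (norm_nonneg _)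

theorem fder (φ δ : E (m + 1) → ℝ) (hφ : TF φ) (hδ : ContDiff ℝ (⊤ : ℕ∞) δ)
    (hp : ∀ y, 0 < δ y) (u : E (m + 1) → (Fin N → ℝ)) (hu : Integrable u) (y v : E (m + 1)) :
    fderiv ℝ (vs φ δ u) y v = ∫ z, (G φ δ y z v) • u z := by
  obtain ⟨M, hM⟩ := bdd_G φ δ hφ hδ hp y
  obtain ⟨C, hC, hC1, hC2, hC3⟩ := bdd_phi φ hφ
  have hmeas : AEStronglyMeasurable (fun z => (G φ δ y z).smulRight (u z)) volume :=
    (ContinuousLinearMap.smulRightL ℝ (E (m + 1)) (Fin N → ℝ)).aestronglyMeasurable_comp₂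
      (contG φ δ hφ y).aestronglyMeasurable hu.1
  have hbd : ∀ y' ∈ closedBall y 1, ∀ z, ‖(G φ δ y' z).smulRight (u z)‖ ≤ M * ‖u z‖ := by
    intro y' hy' z
    rw [ContinuousLinearMap.norm_smulRight_apply]
    exact mul_le_mul_of_nonneg_right (hM y' hy' z) (norm_nonneg _)
  have hint : Integrable (fun z => (G φ δ y z).smulRight (u z)) :=
    (hu.norm.const_mul M).mono' hmeas
      (Eventually.of_forall (fun z => hbd y (mem_closedBall_self zero_le_one) z))
  have key : HasFDerivAt (fun y => ∫ z, ker φ (δ y) (y - z) • u z)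
      (∫ z, (G φ δ y z).smulRight (u z)) y := by
    refine hasFDerivAt_integral_of_dominated_of_fderiv_le
      (F := fun y z => ker φ (δ y) (y - z) • u z)
      (F' := fun y z => (G φ δ y z).smulRight (u z)) (bound := fun z => M * ‖u z‖)
      (s := closedBall y 1) (closedBall_mem_nhds y zero_lt_one) ?_ ?_ hmeas ?_ ?_ ?_
    · exact Eventually.of_forall (fun y' =>
        ((cont_ker φ δ hφ y').aestronglyMeasurable.smul hu.1))
    · exact int_smul u hu _ (cont_ker φ δ hφ y) _ (fun z => bdd_ker φ C hC1 _ (hp y) _)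
    · exact Eventually.of_forall (fun z y' hy' => hbd y' hy' z)
    · exact hu.norm.const_mul M
    · exact Eventually.of_forall (fun z y' _ => (hasF φ δ hφ hδ hp y' z).smul_const (u z))
  have e : fderiv ℝ (vs φ δ u) y = ∫ z, (G φ δ y z).smulRight (u z) := key.fderiv
  rw [e, ContinuousLinearMap.integral_apply hint]
  rfl

/-- The functional `v ↦ (A *ᵥ v) i`. -/
noncomputable def Lf (A : Matrix (Fin K) (Fin N) ℝ) (i : Fin K) : (Fin N → ℝ) →L[ℝ] ℝ :=
  ((LinearMap.proj i).comp A.mulVecLin).toContinuousLinearMap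

theorem Lf_apply (A : Matrix (Fin K) (Fin N) ℝ) (i : Fin K) (v : Fin N → ℝ) :
    Lf A i v = (A *ᵥ v) i := rfl

theorem dot_single (A : Matrix (Fin K) (Fin N) ℝ) (v : Fin N → ℝ) (c : ℝ) (i : Fin K) :
    v ⬝ᵥ (A.transpose *ᵥ (c • (Pi.single i (1 : ℝ) : Fin K → ℝ))) = c * (A *ᵥ v) i := by
  rw [Matrix.mulVec_smul, dotProduct_smul, Matrix.dotProduct_mulVec, Matrix.vecMul_transpose,
    dotProduct_single]
  simp

theorem weakk (A : Op (m + 1) N K) (Ru : ℝ)
    (u : E (m + 1) → (Fin N → ℝ)) (μ : Measure (E (m + 1))) (g : E (m + 1) → (Fin K → ℝ))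
    (H : IsPair A Ru u μ g) (φ δ : E (m + 1) → ℝ) (hφ : TF φ)
    (hp : ∀ y, 0 < δ y) (y : E (m + 1)) (i : Fin K) :
    ∑ j, (A j *ᵥ ∫ z, ((δ y)⁻¹ ^ (m + 2) * fderiv ℝ φ ((δ y)⁻¹ • (y - z)) (bs j)) • u z) i =
      ∫ z, ker φ (δ y) (y - z) * g z i ∂μ := by
  obtain ⟨C, hC, hC1, hC2, hC3⟩ := bdd_phi φ hφ
  have hne : δ y ≠ 0 := (hp y).ne'
  have hder : ∀ z, HasFDerivAt (fun z => ker φ (δ y) (y - z))
      (-((δ y)⁻¹ ^ (m + 2)) • fderiv ℝ φ ((δ y)⁻¹ • (y - z))) z := by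
    intro z
    have h0 : HasFDerivAt (fun z : E (m + 1) => y - z)
        (-(ContinuousLinearMap.id ℝ (E (m + 1)))) z := (hasFDerivAt_id z).const_sub y
    have h1 : HasFDerivAt (fun z : E (m + 1) => (δ y)⁻¹ • (y - z))
        ((δ y)⁻¹ • (-(ContinuousLinearMap.id ℝ (E (m + 1))))) z :=
      h0.const_smul ((δ y)⁻¹)
    have hφ' : HasFDerivAt φ (fderiv ℝ φ ((δ y)⁻¹ • (y - z))) ((δ y)⁻¹ • (y - z)) :=
      (hφ.1.differentiable (by simp) _).hasFDerivAt
    have h2 := (hφ'.comp z h1).const_mul ((δ y ^ (m + 1))⁻¹)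
    refine h2.congr_fderiv ?_
    ext v
    simp only [ContinuousLinearMap.smul_apply, ContinuousLinearMap.comp_apply, smul_eq_mul,
      ContinuousLinearMap.neg_apply, ContinuousLinearMap.id_apply, map_neg, map_smul,
      ContinuousLinearMap.coe_smul', Pi.smul_apply]
    rw [← inv_pow]
    ring
  have hsm : ContDiff ℝ (⊤ : ℕ∞) (fun z => ker φ (δ y) (y - z)) := by
    unfold ker
    have : ContDiff ℝ (⊤ : ℕ∞) (fun z : E (m + 1) => (δ y)⁻¹ • (y - z)) := by fun_prop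
    exact contDiff_const.mul (hφ.1.comp this)
  have hcs : HasCompactSupport (fun z => ker φ (δ y) (y - z)) := by
    obtain ⟨R, hR⟩ := hφ.2.isCompact.isBounded.subset_closedBall (0 : E (m + 1))
    refine HasCompactSupport.intro (isCompact_closedBall y (δ y * R)) (fun z hz => ?_)
    have h1 : (δ y)⁻¹ • (y - z) ∉ tsupport φ := by
      intro h
      have h2 := hR h
      rw [mem_closedBall, dist_zero_right, norm_smul, Real.norm_of_nonneg
        (inv_pos.mpr (hp y)).le, inv_mul_le_iff₀ (hp y)] at h2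
      apply hz
      rw [mem_closedBall, dist_comm, dist_eq_norm]
      exact h2
    simp [ker, image_eq_zero_of_notMem_tsupport h1]
  have hw := H.weak (fun z => ker φ (δ y) (y - z) • (Pi.single i (1 : ℝ) : Fin K → ℝ))
    (hsm.smul contDiff_const) (hcs.smul_right)
  have e1 : ∀ x : E (m + 1), ∀ j, fderiv ℝ (fun z => ker φ (δ y) (y - z) •
      (Pi.single i (1 : ℝ) : Fin K → ℝ)) x (bs j) =
      (-((δ y)⁻¹ ^ (m + 2) * fderiv ℝ φ ((δ y)⁻¹ • (y - x)) (bs j))) •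
        (Pi.single i (1 : ℝ) : Fin K → ℝ) := by
    intro x j
    rw [((hder x).smul_const (Pi.single i (1 : ℝ) : Fin K → ℝ)).fderiv]
    simp only [ContinuousLinearMap.smulRight_apply, ContinuousLinearMap.smul_apply, smul_eq_mul,
      neg_smul, ContinuousLinearMap.neg_apply]
  simp only [e1, dot_single] at hw
  have e2 : ∀ x : E (m + 1), g x ⬝ᵥ (ker φ (δ y) (y - x) • (Pi.single i (1 : ℝ) : Fin K → ℝ)) =
      ker φ (δ y) (y - x) * g x i := by
    intro x
    rw [dotProduct_smul, dotProduct_single]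
    simp
  simp only [e2] at hw
  have hcf : ∀ j : Fin (m + 1), Continuous (fun z =>
      (δ y)⁻¹ ^ (m + 2) * fderiv ℝ φ ((δ y)⁻¹ • (y - z)) (bs j)) := by
    intro j
    have h1 : Continuous (fderiv ℝ φ) := hφ.1.continuous_fderiv (by simp)
    have h2 : Continuous (fun z : E (m + 1) => (δ y)⁻¹ • (y - z)) := by fun_prop
    have h3 : Continuous (fun z => fderiv ℝ φ ((δ y)⁻¹ • (y - z))) := h1.comp h2
    exact continuous_const.mul (h3.clm_apply continuous_const)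
  have hbf : ∀ j : Fin (m + 1), ∀ z, ‖(δ y)⁻¹ ^ (m + 2) *
      fderiv ℝ φ ((δ y)⁻¹ • (y - z)) (bs j)‖ ≤ (δ y)⁻¹ ^ (m + 2) * (C * ‖(bs j : E (m + 1))‖) := by
    intro j z
    have hpos : 0 ≤ (δ y)⁻¹ := (inv_pos.mpr (hp y)).le
    rw [norm_mul, Real.norm_of_nonneg (pow_nonneg hpos _)]
    exact mul_le_mul_of_nonneg_left (ContinuousLinearMap.le_of_opNorm_le _ (hC2 _) _)
      (pow_nonneg hpos _)
  have hi : ∀ j : Fin (m + 1), Integrable (fun z =>
      ((δ y)⁻¹ ^ (m + 2) * fderiv ℝ φ ((δ y)⁻¹ • (y - z)) (bs j)) • u z) := fun j =>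
    int_smul u H.int_u _ (hcf j) _ (hbf j)
  have e3 : ∀ j : Fin (m + 1),
      (A j *ᵥ ∫ z, ((δ y)⁻¹ ^ (m + 2) * fderiv ℝ φ ((δ y)⁻¹ • (y - z)) (bs j)) • u z) i =
      ∫ z, ((δ y)⁻¹ ^ (m + 2) * fderiv ℝ φ ((δ y)⁻¹ • (y - z)) (bs j)) * (A j *ᵥ u z) i := by
    intro j
    rw [← Lf_apply, ← ContinuousLinearMap.integral_comp_comm _ (hi j)]
    refine integral_congr_ae (Eventually.of_forall (fun z => ?_))
    simp only [map_smul, smul_eq_mul, Lf_apply]
  have hi2 : ∀ j ∈ (Finset.univ : Finset (Fin (m + 1))), Integrable (fun z =>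
      ((δ y)⁻¹ ^ (m + 2) * fderiv ℝ φ ((δ y)⁻¹ • (y - z)) (bs j)) * (A j *ᵥ u z) i) := by
    intro j _
    have := (Lf (A j) i).integrable_comp (hi j)
    refine this.congr (Eventually.of_forall (fun z => ?_))
    simp only [map_smul, smul_eq_mul, Lf_apply]
  simp only [e3]
  rw [← integral_finset_sum _ hi2]
  have e4 : ∫ x, ∑ j, -((δ y)⁻¹ ^ (m + 2) * fderiv ℝ φ ((δ y)⁻¹ • (y - x)) (bs j)) *
      (A j *ᵥ u x) i = -∫ x, ∑ j, ((δ y)⁻¹ ^ (m + 2) *
      fderiv ℝ φ ((δ y)⁻¹ • (y - x)) (bs j)) * (A j *ᵥ u x) i := by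
    rw [← integral_neg]
    refine integral_congr_ae (Eventually.of_forall (fun z => ?_))
    simp only [neg_mul, Finset.sum_neg_distrib]
  rw [e4] at hw
  exact neg_injective hw

end VSF_

open VSF_ in
theorem vsf_proof : Stmt_VSF := by
  intro m N K A Ru u μ g H φ δ hφ hδ hp y
  obtain ⟨C, hC, hC1, hC2, hC3⟩ := bdd_phi φ hφ
  haveI := H.fin
  have hcf : ∀ j : Fin (m + 1), Continuous (fun z =>
      (δ y)⁻¹ ^ (m + 2) * fderiv ℝ φ ((δ y)⁻¹ • (y - z)) (bs j)) := by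
    intro j
    have h1 : Continuous (fderiv ℝ φ) := hφ.1.continuous_fderiv (by simp)
    have h2 : Continuous (fun z : E (m + 1) => (δ y)⁻¹ • (y - z)) := by fun_prop
    have h3 : Continuous (fun z => fderiv ℝ φ ((δ y)⁻¹ • (y - z))) := h1.comp h2
    exact continuous_const.mul (h3.clm_apply continuous_const)
  have hbf : ∀ j : Fin (m + 1), ∀ z, ‖(δ y)⁻¹ ^ (m + 2) *
      fderiv ℝ φ ((δ y)⁻¹ • (y - z)) (bs j)‖ ≤ (δ y)⁻¹ ^ (m + 2) * (C * ‖(bs j : E (m + 1))‖) := by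
    intro j z
    have hpos : 0 ≤ (δ y)⁻¹ := (inv_pos.mpr (hp y)).le
    rw [norm_mul, Real.norm_of_nonneg (pow_nonneg hpos _)]
    exact mul_le_mul_of_nonneg_left (ContinuousLinearMap.le_of_opNorm_le _ (hC2 _) _)
      (pow_nonneg hpos _)
  have hi : ∀ j : Fin (m + 1), Integrable (fun z =>
      ((δ y)⁻¹ ^ (m + 2) * fderiv ℝ φ ((δ y)⁻¹ • (y - z)) (bs j)) • u z) := fun j =>
    int_smul u H.int_u _ (hcf j) _ (hbf j)
  have hk : Integrable (fun z => ker (dvg φ) (δ y) (y - z) • u z) :=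
    int_smul u H.int_u _ (cont_kerd φ δ hφ y) _ (fun z => bdd_ker (dvg φ) C hC3 _ (hp y) _)
  have e1 : ∀ j : Fin (m + 1), fderiv ℝ (vs φ δ u) y (bs j) =
      (∫ z, ((δ y)⁻¹ ^ (m + 2) * fderiv ℝ φ ((δ y)⁻¹ • (y - z)) (bs j)) • u z) -
        ((δ y)⁻¹ * fderiv ℝ δ y (bs j)) • ∫ z, ker (dvg φ) (δ y) (y - z) • u z := by
    intro j
    have hk' : Integrable (fun z => ((δ y)⁻¹ * fderiv ℝ δ y (bs j)) •
        ker (dvg φ) (δ y) (y - z) • u z) := hk.smul ((δ y)⁻¹ * fderiv ℝ δ y (bs j))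
    rw [fder φ δ hφ hδ hp u H.int_u y (bs j), ← integral_smul, ← integral_sub (hi j) hk']
    refine integral_congr_ae (Eventually.of_forall (fun z => ?_))
    simp only [G, ContinuousLinearMap.sub_apply, ContinuousLinearMap.smul_apply, smul_eq_mul,
      smul_smul, ← sub_smul, ContinuousLinearMap.coe_smul', Pi.smul_apply]
    congr 1
    ring
  funext i
  have hg : Integrable (fun z => ker φ (δ y) (y - z) • g z) μ := by
    have hgi : Integrable g μ := by
      refine (integrable_const (1 : ℝ)).mono' H.meas_g.aestronglyMeasurable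
        (Eventually.of_forall H.norm_g)
    refine (hgi.norm.const_mul ((δ y ^ (m + 1))⁻¹ * C)).mono'
      ((cont_ker φ δ hφ y).aestronglyMeasurable.smul hgi.1)
      (Eventually.of_forall (fun z => ?_))
    rw [norm_smul]
    exact mul_le_mul_of_nonneg_right (bdd_ker φ C hC1 _ (hp y) _) (norm_nonneg _)
  have e2 : (∫ z, ker φ (δ y) (y - z) • g z ∂μ) i = ∫ z, ker φ (δ y) (y - z) * g z i ∂μ := by
    have := ContinuousLinearMap.integral_comp_comm
      (ContinuousLinearMap.proj (R := ℝ) (φ := fun _ : Fin K => ℝ) i) hg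
    simp only [ContinuousLinearMap.proj_apply, Pi.smul_apply, smul_eq_mul] at this
    exact this.symm
  have hw := weakk A Ru u μ g H φ δ hφ hp y i
  unfold BD
  simp only [e1, Matrix.mulVec_sub, Finset.sum_sub_distrib, Pi.sub_apply, Finset.sum_apply,
    Pi.smul_apply, smul_eq_mul, Matrix.mulVec_smul]
  rw [e2, ← hw]
  congr 1
  rw [Finset.mul_sum]
  refine Finset.sum_congr rfl (fun j _ => ?_)
  ring

end Pool.Agent.CEL
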