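import Pool.Agent.CEL.Stmts

set_option autoImplicit false
open Topology Filter MeasureTheory Matrix Metric
open scoped ENNReal Convolution

namespace Pool.Agent.CEL
namespace VSS_

lemma smooth_param {n : ℕ} {V : Type*} [NormedAddCommGroup V] [NormedSpace ℝ V]
    (ν : Measure (E n)) (f : E n → V) (hf : Integrable f ν) (R : ℝ)
    (hfR : ∀ᵐ z ∂ν, R < ‖z‖ → f z = 0) (k : E n → E n → ℝ)
    (hk : ContDiff ℝ (⊤ : ℕ∞) (fun p : E n × E n => k p.1 p.2)) :
    ContDiff ℝ (⊤ : ℕ∞) (fun y => ∫ z, k y z • f z ∂ν) := by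
  let χ : ContDiffBump (0 : E n) := ⟨max R 1, max R 1 + 1, by positivity, by linarith⟩
  have hχ1 : ∀ z : E n, ‖z‖ ≤ R → χ (-z) = 1 := by
    intro z hz
    apply χ.one_of_mem_closedBall
    rw [mem_closedBall_zero_iff, norm_neg]
    exact hz.trans (le_max_left _ _)
  have hχ0 : ∀ z : E n, z ∉ closedBall (0 : E n) (max R 1 + 1) → χ z = 0 := by
    intro z hz
    apply χ.zero_of_le_dist
    rw [mem_closedBall, not_le] at hz
    exact hz.le
  have hχs : ContDiff ℝ (⊤ : ℕ∞) (χ : E n → ℝ) := χ.contDiff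
  let g : E n → E n → ℝ := fun y x => χ x * k y (-x)
  have key := contDiffOn_convolution_right_with_param_comp (𝕜 := ℝ) (μ := ν)
    (n := (⊤ : ℕ∞)) ((ContinuousLinearMap.lsmul ℝ ℝ : ℝ →L[ℝ] V →L[ℝ] V).flip)
    (s := (Set.univ : Set (E n))) (v := fun _ : E n => (0 : E n)) contDiffOn_const
    (f := f) (g := g) (k := closedBall (0 : E n) (max R 1 + 1)) isOpen_univ
    (isCompact_closedBall _ _) (fun p x _ hx => by simp only [g, hχ0 x hx, zero_mul])
    hf.locallyIntegrable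
    (by
      apply ContDiff.contDiffOn
      have h1 : ContDiff ℝ (⊤ : ℕ∞) (fun p : E n × E n => χ p.2) := hχs.comp contDiff_snd
      have h2 : ContDiff ℝ (⊤ : ℕ∞) (fun p : E n × E n => k p.1 (-p.2)) :=
        hk.comp (contDiff_fst.prodMk contDiff_snd.neg)
      exact h1.mul h2)
  rw [contDiffOn_univ] at key
  have heq : (fun y => ∫ z, k y z • f z ∂ν) = fun x =>
      (convolution f (g x) ((ContinuousLinearMap.lsmul ℝ ℝ : ℝ →L[ℝ] V →L[ℝ] V).flip) ν) 0 := by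
    funext y
    unfold convolution
    apply integral_congr_ae
    filter_upwards [hfR] with z hz
    simp only [ContinuousLinearMap.flip_apply, ContinuousLinearMap.lsmul_apply, g, zero_sub,
      neg_neg]
    rcases le_or_gt ‖z‖ R with h | h
    · rw [hχ1 z h, one_mul]
    · rw [hz h, smul_zero, smul_zero]
  rw [heq]
  exact key

lemma ker_smooth {m : ℕ} (φ δ : E (m + 1) → ℝ) (hφ : ContDiff ℝ (⊤ : ℕ∞) φ)
    (hδ : ContDiff ℝ (⊤ : ℕ∞) δ) (hpos : ∀ y, 0 < δ y) :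
    ContDiff ℝ (⊤ : ℕ∞) (fun p : E (m + 1) × E (m + 1) => ker φ (δ p.1) (p.1 - p.2)) := by
  unfold ker
  have h1 : ContDiff ℝ (⊤ : ℕ∞) (fun p : E (m + 1) × E (m + 1) => δ p.1) :=
    hδ.comp contDiff_fst
  have h2 : ContDiff ℝ (⊤ : ℕ∞) (fun p : E (m + 1) × E (m + 1) => (δ p.1 ^ (m + 1))⁻¹) :=
    (h1.pow (m + 1)).inv (fun p => (pow_pos (hpos p.1) _).ne')
  have h3 : ContDiff ℝ (⊤ : ℕ∞) (fun p : E (m + 1) × E (m + 1) => (δ p.1)⁻¹) :=
    h1.inv (fun p => (hpos p.1).ne')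
  have h4 : ContDiff ℝ (⊤ : ℕ∞) (fun p : E (m + 1) × E (m + 1) => (δ p.1)⁻¹ • (p.1 - p.2)) :=
    h3.smul (contDiff_fst.sub contDiff_snd)
  exact h2.mul (hφ.comp h4)

lemma ker_zero {m : ℕ} (φ δ : E (m + 1) → ℝ) (T₀ B Ru : ℝ) (hT : ∀ z, T₀ ≤ ‖z‖ → φ z = 0)
    (hpos : ∀ y, 0 < δ y) (hB : ∀ y, T₀ * δ y ≤ (‖y‖ + B) / 2) (y z : E (m + 1))
    (hy : 2 * Ru + B < ‖y‖) (hz : ‖z‖ ≤ Ru) : ker φ (δ y) (y - z) = 0 := by
  unfold ker
  have h1 : ‖y‖ - ‖z‖ ≤ ‖y - z‖ := norm_sub_norm_le y z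
  have h2 := hB y
  rw [hT, mul_zero]
  rw [norm_smul, norm_inv, Real.norm_eq_abs, abs_of_pos (hpos y), le_inv_mul_iff₀ (hpos y)]
  nlinarith

end VSS_

open VSS_ in
theorem vss_proof : Stmt_VSS := by
  intro m N K A Ru u μ g hP φ T₀ B δ hφ hT hδ hpos hB
  have := hP.fin
  have hμ : ∀ᵐ z ∂μ, ‖z‖ ≤ Ru := by
    rw [ae_iff]
    refine measure_mono_null ?_ hP.supp_m
    intro z hz
    rw [Set.mem_compl_iff, mem_closedBall_zero_iff]
    exact hz
  have hks := ker_smooth φ δ hφ.1 hδ hpos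
  refine ⟨?_, ?_, ?_, ?_⟩
  · exact smooth_param volume u hP.int_u Ru (Eventually.of_forall hP.supp_u)
      (fun y z => ker φ (δ y) (y - z)) hks
  · refine HasCompactSupport.intro (isCompact_closedBall (0 : E (m + 1)) (2 * Ru + B)) ?_
    intro y hy
    rw [mem_closedBall_zero_iff, not_le] at hy
    unfold vs
    rw [integral_eq_zero_of_ae]
    refine Eventually.of_forall (fun z => ?_)
    simp only [Pi.zero_apply]
    rcases le_or_gt ‖z‖ Ru with h | h
    · rw [ker_zero φ δ T₀ B Ru hT hpos hB y z hy h, zero_smul]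
    · rw [hP.supp_u z h, smul_zero]
  · have h := smooth_param μ (fun _ => (1 : ℝ)) (integrable_const 1) Ru
      (by
        filter_upwards [hμ] with z hz hz2
        exact absurd hz2 (not_lt.mpr hz))
      (fun y z => ker φ (δ y) (y - z)) hks
    simp only [smul_eq_mul, mul_one] at h
    exact h
  · refine HasCompactSupport.intro (isCompact_closedBall (0 : E (m + 1)) (2 * Ru + B)) ?_
    intro y hy
    rw [mem_closedBall_zero_iff, not_le] at hy
    unfold vsm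
    rw [integral_eq_zero_of_ae]
    filter_upwards [hμ] with z hz
    exact ker_zero φ δ T₀ B Ru hT hpos hB y z hy hz

end Pool.Agent.CEL
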