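import Pool.Agent.CEL.ASM
import Pool.Agent.CEL.BES
import Pool.Agent.CEL.BSA
import Pool.Agent.CEL.BSJ
import Pool.Agent.CEL.BSM
import Pool.Agent.CEL.BSS
import Pool.Agent.CEL.BSV
import Pool.Agent.CEL.CHR
import Pool.Agent.CEL.CNC
import Pool.Agent.CEL.CPA
import Pool.Agent.CEL.CPB
import Pool.Agent.CEL.CPZ
import Pool.Agent.CEL.CVA
import Pool.Agent.CEL.CVB
import Pool.Agent.CEL.DID
import Pool.Agent.CEL.DSM
import Pool.Agent.CEL.DUA
import Pool.Agent.CEL.DUF
import Pool.Agent.CEL.EXD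
import Pool.Agent.CEL.FAR
import Pool.Agent.CEL.FIN
import Pool.Agent.CEL.GOD
import Pool.Agent.CEL.HAF
import Pool.Agent.CEL.HDV
import Pool.Agent.CEL.HLM
import Pool.Agent.CEL.LIA
import Pool.Agent.CEL.LIB
import Pool.Agent.CEL.LIC
import Pool.Agent.CEL.LMA
import Pool.Agent.CEL.LOC
import Pool.Agent.CEL.MAI
import Pool.Agent.CEL.MAP
import Pool.Agent.CEL.MNA
import Pool.Agent.CEL.MNB
import Pool.Agent.CEL.MOL
import Pool.Agent.CEL.NIC
import Pool.Agent.CEL.OUT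
import Pool.Agent.CEL.PLA
import Pool.Agent.CEL.PRE
import Pool.Agent.CEL.PWC
import Pool.Agent.CEL.SEP
import Pool.Agent.CEL.SLI
import Pool.Agent.CEL.SMB
import Pool.Agent.CEL.SUP
import Pool.Agent.CEL.TAY
import Pool.Agent.CEL.UDN
import Pool.Agent.CEL.VSF
import Pool.Agent.CEL.VSS

set_option autoImplicit false

namespace Pool.Agent.CEL

theorem t_nic : Stmt_NIC := nic_proof
theorem t_pla : Stmt_PLA := pla_proof
theorem t_mol : Stmt_MOL := mol_proof
theorem t_hdv : Stmt_HDV := hdv_proof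
theorem t_bsa : Stmt_BSA := bsa_proof
theorem t_dsm : Stmt_DSM := dsm_proof t_bsa
theorem t_vss : Stmt_VSS := vss_proof
theorem t_vsf : Stmt_VSF := vsf_proof
theorem t_did : Stmt_DID := did_proof
theorem t_tay : Stmt_TAY := tay_proof
theorem t_smb : Stmt_SMB := smb_proof t_did t_tay
theorem t_lma : Stmt_LMA := lma_proof t_smb
theorem t_map : Stmt_MAP := map_proof t_vsf t_lma t_hdv
theorem t_bsv : Stmt_BSV := bsv_proof
theorem t_hlm : Stmt_HLM := hlm_proof t_bsv
theorem t_bss : Stmt_BSS := bss_proof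
theorem t_dua : Stmt_DUA := dua_proof t_hlm t_bss
theorem t_bsm : Stmt_BSM := bsm_proof
theorem t_cpa : Stmt_CPA := cpa_proof t_hlm t_dua t_bss t_bsa t_bsm t_bsv
theorem t_far : Stmt_FAR := far_proof t_bss t_bsa t_bsv
theorem t_bsj : Stmt_BSJ := bsj_proof
theorem t_mna : Stmt_MNA := mna_proof t_cpa t_far t_bsj t_bss t_bsm t_bsa
theorem t_cpb : Stmt_CPB := cpb_proof t_hlm t_dua t_bss t_bsa t_bsm t_bsv
theorem t_mnb : Stmt_MNB := mnb_proof t_cpa t_cpb t_far t_bsj t_bsm t_bsa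
theorem t_mai : Stmt_MAI := mai_proof t_pla t_mol t_hdv t_dsm t_vss t_map t_mna t_mnb t_far t_bsa
theorem t_udn : Stmt_UDN := udn_proof t_mai t_bss t_bsa t_bsv t_bsm
theorem t_sli : Stmt_SLI := sli_proof
theorem t_cva : Stmt_CVA := cva_proof
theorem t_cvb : Stmt_CVB := cvb_proof t_mai t_sli t_cva t_bsa t_bsv t_bsm
theorem t_chr : Stmt_CHR := chr_proof
theorem t_god : Stmt_GOD := god_proof t_chr
theorem t_exd : Stmt_EXD := exd_proof
theorem t_bes : Stmt_BES := bes_proof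
theorem t_out : Stmt_OUT := out_proof t_udn t_cvb t_sli t_god t_exd t_bes t_bsm
theorem t_duf : Stmt_DUF := duf_proof
theorem t_lia : Stmt_LIA := lia_proof t_lma t_duf
theorem t_pwc : Stmt_PWC := pwc_proof t_lma t_mol
theorem t_lib : Stmt_LIB := lib_proof t_god t_exd t_lia t_pwc t_duf
theorem t_lic : Stmt_LIC := lic_proof
theorem t_sep : Stmt_SEP := sep_proof
theorem t_pre : Stmt_PRE := pre_proof t_sep
theorem t_sup : Stmt_SUP := sup_proof
theorem t_cpz : Stmt_CPZ := cpz_proof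
theorem t_haf : Stmt_HAF := haf_proof t_lia t_pwc t_duf
theorem t_cnc : Stmt_CNC := cnc_proof t_out t_lib t_lic t_pre t_sup t_cpz t_haf t_god t_exd
theorem t_fin : Stmt_FIN := fin_proof
theorem t_loc : Stmt_LOC := loc_proof
theorem t_asm : Stmt_ASM := asm_proof t_nic t_cnc t_fin t_loc

end Pool.Agent.CEL
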