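import Pool.Agent.CEL.Stmts

/-!
# CEL, module OUT: consequences for almost every point (countable choices)
-/

set_option autoImplicit false
open Topology Filter MeasureTheory Matrix Metric
open scoped ENNReal

namespace Pool.Agent.CEL

namespace OUT_

/-- balls are the union of the rational smaller ones -/
lemma ball_le {n : ℕ} (μ ν : Measure (E n)) (x : E n) (r : ℝ) (hr : 0 < r) (a : ℝ≥0∞)
    (h : ∀ q : ℚ, 0 < (q : ℝ) → (q : ℝ) < r → ν (ball x q) ≤ a * μ (ball x q)) :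
    ν (ball x r) ≤ a * μ (ball x r) := by
  have hU : ball x r = ⋃ q : {q : ℚ // 0 < (q : ℝ) ∧ (q : ℝ) < r}, ball x (q.1 : ℝ) := by
    ext y
    rw [Set.mem_iUnion]
    constructor
    · intro hy
      rw [mem_ball] at hy
      obtain ⟨q, h1, h2⟩ := exists_rat_btwn (max_lt hy hr)
      exact ⟨⟨q, (le_max_right _ _).trans_lt h1, h2⟩, mem_ball.2 ((le_max_left _ _).trans_lt h1)⟩
    · rintro ⟨q, hq⟩
      exact ball_subset_ball q.2.2.le hq
  have hd : Directed (· ⊆ ·)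
      (fun q : {q : ℚ // 0 < (q : ℝ) ∧ (q : ℝ) < r} => ball x (q.1 : ℝ)) := by
    intro p q
    rcases le_total (p.1 : ℝ) (q.1 : ℝ) with h' | h'
    · exact ⟨q, ball_subset_ball h', Set.Subset.refl _⟩
    · exact ⟨p, Set.Subset.refl _, ball_subset_ball h'⟩
  calc ν (ball x r) = ν (⋃ q : {q : ℚ // 0 < (q : ℝ) ∧ (q : ℝ) < r}, ball x (q.1 : ℝ)) := by
        rw [← hU]
    _ = ⨆ q : {q : ℚ // 0 < (q : ℝ) ∧ (q : ℝ) < r}, ν (ball x (q.1 : ℝ)) := hd.measure_iUnion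
    _ ≤ a * μ (ball x r) := by
        refine iSup_le fun q => (h q.1 q.2.1 q.2.2).trans ?_
        exact mul_le_mul_right (measure_mono (ball_subset_ball q.2.2.le)) a

lemma cball_le {n : ℕ} (μ ν : Measure (E n)) (x : E n) (r : ℝ) (hr : 0 < r) (a : ℝ≥0∞)
    (h : ∀ q : ℚ, 0 < (q : ℝ) → (q : ℝ) < r → ν (closedBall x q) ≤ a * μ (closedBall x q)) :
    ν (ball x r) ≤ a * μ (ball x r) := by
  have hU : ball x r = ⋃ q : {q : ℚ // 0 < (q : ℝ) ∧ (q : ℝ) < r}, closedBall x (q.1 : ℝ) := by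
    ext y
    rw [Set.mem_iUnion]
    constructor
    · intro hy
      rw [mem_ball] at hy
      obtain ⟨q, h1, h2⟩ := exists_rat_btwn (max_lt hy hr)
      exact ⟨⟨q, (le_max_right _ _).trans_lt h1, h2⟩,
        mem_closedBall.2 ((le_max_left _ _).trans_lt h1).le⟩
    · rintro ⟨q, hq⟩
      exact closedBall_subset_ball q.2.2 hq
  have hd : Directed (· ⊆ ·)
      (fun q : {q : ℚ // 0 < (q : ℝ) ∧ (q : ℝ) < r} => closedBall x (q.1 : ℝ)) := by
    intro p q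
    rcases le_total (p.1 : ℝ) (q.1 : ℝ) with h' | h'
    · exact ⟨q, closedBall_subset_closedBall h', Set.Subset.refl _⟩
    · exact ⟨p, Set.Subset.refl _, closedBall_subset_closedBall h'⟩
  calc ν (ball x r)
      = ν (⋃ q : {q : ℚ // 0 < (q : ℝ) ∧ (q : ℝ) < r}, closedBall x (q.1 : ℝ)) := by
        rw [← hU]
    _ = ⨆ q : {q : ℚ // 0 < (q : ℝ) ∧ (q : ℝ) < r}, ν (closedBall x (q.1 : ℝ)) :=
        hd.measure_iUnion
    _ ≤ a * μ (ball x r) := by
        refine iSup_le fun q => (h q.1 q.2.1 q.2.2).trans ?_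
        exact mul_le_mul_right (measure_mono (closedBall_subset_ball q.2.2)) a

/-- the measurable version of the sets `X` -/
def XX {n K : ℕ} (μ : Measure (E n)) (g : E n → (Fin K → ℝ)) (w : Fin K → ℝ) (η R Ru : ℝ) :
    Set (E n) :=
  {x | ‖x‖ ≤ Ru ∧ ∀ q : ℚ, 0 < (q : ℝ) → (q : ℝ) < R →
    ∫⁻ y in ball x q, ‖g y - w‖ₑ ∂μ ≤ ENNReal.ofReal η * μ (ball x q)}

lemma fin_wd {n K : ℕ} (μ : Measure (E n)) [IsFiniteMeasure μ] (g : E n → (Fin K → ℝ))
    (hg1 : ∀ x, ‖g x‖ ≤ 1) (w : Fin K → ℝ) :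
    IsFiniteMeasure (μ.withDensity fun y => ‖g y - w‖ₑ) := by
  refine isFiniteMeasure_withDensity ?_
  have hle : ∀ y, ‖g y - w‖ₑ ≤ 1 + ‖w‖ₑ := by
    intro y
    have h1 : ‖g y‖ₑ ≤ 1 := by
      rw [← ofReal_norm_eq_enorm, ← ENNReal.ofReal_one]
      exact ENNReal.ofReal_le_ofReal (hg1 y)
    have h2 : ‖g y - w‖ₑ ≤ ‖g y‖ₑ + ‖w‖ₑ := by
      rw [sub_eq_add_neg]
      have := enorm_add_le (g y) (-w)
      rwa [enorm_neg] at this
    exact h2.trans (by gcongr)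
  refine ((lintegral_mono hle).trans_lt ?_).ne
  rw [lintegral_const]
  exact ENNReal.mul_lt_top (ENNReal.add_lt_top.2 ⟨ENNReal.one_lt_top, enorm_lt_top⟩)
    (measure_lt_top μ _)

lemma meas_XX (hBSM : Stmt_BSM) {n K : ℕ} (μ : Measure (E n)) [IsFiniteMeasure μ]
    (g : E n → (Fin K → ℝ)) (hg1 : ∀ x, ‖g x‖ ≤ 1) (w : Fin K → ℝ)
    (η R Ru : ℝ) : MeasurableSet (XX μ g w η R Ru) := by
  have hfin := fin_wd μ g hg1 w
  have hset : XX μ g w η R Ru = {x | ‖x‖ ≤ Ru} ∩ ⋂ q : ℚ,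
      {x | 0 < (q : ℝ) → (q : ℝ) < R →
        ∫⁻ y in ball x q, ‖g y - w‖ₑ ∂μ ≤ ENNReal.ofReal η * μ (ball x q)} := by
    ext x
    simp only [XX, Set.mem_setOf_eq, Set.mem_inter_iff, Set.mem_iInter]
  rw [hset]
  refine (measurableSet_le measurable_norm measurable_const).inter
    (MeasurableSet.iInter fun q => ?_)
  by_cases h1 : 0 < (q : ℝ)
  · by_cases h2 : (q : ℝ) < R
    · have e : {x : E n | 0 < (q : ℝ) → (q : ℝ) < R →
          ∫⁻ y in ball x q, ‖g y - w‖ₑ ∂μ ≤ ENNReal.ofReal η * μ (ball x q)} =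
          {x | (μ.withDensity fun y => ‖g y - w‖ₑ) (ball x q) ≤
            ENNReal.ofReal η * μ (ball x q)} := by
        ext x
        simp only [Set.mem_setOf_eq]
        rw [withDensity_apply _ measurableSet_ball]
        exact ⟨fun h => h h1 h2, fun h _ _ => h⟩
      rw [e]
      exact measurableSet_le (hBSM n _ (fun _ => (q : ℝ)) continuous_const).1
        ((hBSM n μ (fun _ => (q : ℝ)) continuous_const).1.const_mul _)
    · have e : {x : E n | 0 < (q : ℝ) → (q : ℝ) < R →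
          ∫⁻ y in ball x q, ‖g y - w‖ₑ ∂μ ≤ ENNReal.ofReal η * μ (ball x q)} = Set.univ := by
        ext x; simp only [Set.mem_setOf_eq, Set.mem_univ, iff_true]
        exact fun _ h => absurd h h2
      rw [e]; exact MeasurableSet.univ
  · have e : {x : E n | 0 < (q : ℝ) → (q : ℝ) < R →
        ∫⁻ y in ball x q, ‖g y - w‖ₑ ∂μ ≤ ENNReal.ofReal η * μ (ball x q)} = Set.univ := by
      ext x; simp only [Set.mem_setOf_eq, Set.mem_univ, iff_true]
      exact fun h => absurd h h1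
    rw [e]; exact MeasurableSet.univ

lemma K1_of_XX {n K : ℕ} (μ : Measure (E n)) (g : E n → (Fin K → ℝ)) (w : Fin K → ℝ)
    (η R Ru : ℝ) (x : E n) (hx : x ∈ XX μ g w η R Ru) : ‖x‖ ≤ Ru ∧ K1 μ g w η 0 R x := by
  refine ⟨hx.1, fun r hr _ hrR => ?_⟩
  have := ball_le μ (μ.withDensity fun y => ‖g y - w‖ₑ) x r hr (ENNReal.ofReal η)
    (fun q h1 h2 => by
      rw [withDensity_apply _ measurableSet_ball]
      exact hx.2 q h1 (h2.trans hrR))
  rwa [withDensity_apply _ measurableSet_ball] at this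

lemma meas_cone {n : ℕ} (d : E n) (ρ : ℝ) : MeasurableSet (cone d ρ) := by
  have e : cone d ρ = {z : E n | z ≠ 0} ∩ {z | ‖z - ‖z‖ • d‖ ≤ ρ * ‖z‖} := rfl
  rw [e]
  refine (isOpen_ne.measurableSet).inter (IsClosed.measurableSet ?_)
  exact isClosed_le (by fun_prop) (by fun_prop)

lemma meas_pot {m : ℕ} (μ : Measure (E (m + 1))) [IsFiniteMeasure μ] (d : E (m + 1)) (ρ : ℝ) :
    Measurable fun x => ∫⁻ y in {y | y - x ∈ cone d ρ}, ENNReal.ofReal ((‖y - x‖ ^ m)⁻¹) ∂μ := by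
  have hS : MeasurableSet {p : E (m + 1) × E (m + 1) | p.2 - p.1 ∈ cone d ρ} :=
    (meas_cone d ρ).preimage (measurable_snd.sub measurable_fst)
  have hF : Measurable ({p : E (m + 1) × E (m + 1) | p.2 - p.1 ∈ cone d ρ}.indicator
      (fun p : E (m + 1) × E (m + 1) => ENNReal.ofReal ((‖p.2 - p.1‖ ^ m)⁻¹))) := by
    refine Measurable.indicator ?_ hS
    exact (((measurable_snd.sub measurable_fst).norm.pow_const m).inv).ennreal_ofReal
  have h := hF.lintegral_prod_right' (ν := μ)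
  have e : (fun x => ∫⁻ y in {y | y - x ∈ cone d ρ}, ENNReal.ofReal ((‖y - x‖ ^ m)⁻¹) ∂μ) =
      fun x => ∫⁻ y, {p : E (m + 1) × E (m + 1) | p.2 - p.1 ∈ cone d ρ}.indicator
        (fun p : E (m + 1) × E (m + 1) => ENNReal.ofReal ((‖p.2 - p.1‖ ^ m)⁻¹)) (x, y) ∂μ := by
    funext x
    have hSx : MeasurableSet {y : E (m + 1) | y - x ∈ cone d ρ} :=
      (meas_cone d ρ).preimage (measurable_id.sub measurable_const)
    rw [← lintegral_indicator hSx]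
    rfl
  rw [e]
  exact h

/-- `P3` at `x` gives `K1` with a nearby vector -/
lemma K1_of_P3 {n K : ℕ} (μ : Measure (E n)) (g : E n → (Fin K → ℝ))
    (x : E n) (h : P3 μ g x) (w : Fin K → ℝ) (η : ℝ) (hη : 0 < η) (hw : ‖w - g x‖ ≤ η / 2) :
    ∃ j : ℕ, K1 μ g w η 0 (1 / ((j : ℝ) + 1)) x := by
  have h1 := h (η / 2) (by positivity)
  rw [eventually_nhdsWithin_iff, Metric.eventually_nhds_iff] at h1
  obtain ⟨δ, hδ, h1⟩ := h1
  obtain ⟨j, hj⟩ := exists_nat_one_div_lt hδ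
  refine ⟨j, fun r hr _ hrR => ?_⟩
  have hrδ : r < δ := hrR.trans hj
  have h2 := cball_le μ (μ.withDensity fun y => ‖g y - g x‖ₑ) x r hr (ENNReal.ofReal (η / 2))
    (fun q hq1 hq2 => by
      rw [withDensity_apply _ measurableSet_closedBall]
      refine h1 ?_ hq1
      rw [Real.dist_eq, sub_zero, abs_of_pos hq1]
      exact hq2.trans hrδ)
  rw [withDensity_apply _ measurableSet_ball] at h2
  have h3 : ∀ y, ‖g y - w‖ₑ ≤ ‖g y - g x‖ₑ + ENNReal.ofReal (η / 2) := by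
    intro y
    have e : g y - w = (g y - g x) + (g x - w) := by abel
    rw [e]
    refine (enorm_add_le _ _).trans ?_
    gcongr
    rw [← ofReal_norm_eq_enorm, norm_sub_rev]
    exact ENNReal.ofReal_le_ofReal hw
  calc ∫⁻ y in ball x r, ‖g y - w‖ₑ ∂μ
      ≤ ∫⁻ y in ball x r, (‖g y - g x‖ₑ + ENNReal.ofReal (η / 2)) ∂μ := lintegral_mono h3
    _ = (∫⁻ y in ball x r, ‖g y - g x‖ₑ ∂μ) + ENNReal.ofReal (η / 2) * μ (ball x r) := by
        rw [lintegral_add_right _ measurable_const, lintegral_const,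
          Measure.restrict_apply_univ]
    _ ≤ ENNReal.ofReal (η / 2) * μ (ball x r) + ENNReal.ofReal (η / 2) * μ (ball x r) := by
        gcongr
    _ = ENNReal.ofReal η * μ (ball x r) := by
        rw [← add_mul, ← ENNReal.ofReal_add (by positivity) (by positivity), add_halves]

lemma ell_near {n N K : ℕ} (A : Op n N K) (w w' : Fin K → ℝ) (ω : E n) (c c' : ℝ)
    (h : Ell A w ω c) (hw : ‖w' - w‖ ≤ c - c') : Ell A w' ω c' := by
  intro ξ hξ v
  have h1 := h ξ hξ v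
  have e : w - sym A ξ *ᵥ v = (w' - sym A ξ *ᵥ v) - (w' - w) := by abel
  have h2 : ‖w - sym A ξ *ᵥ v‖ ≤ ‖w' - sym A ξ *ᵥ v‖ + ‖w' - w‖ := by
    rw [e]; exact norm_sub_le _ _
  linarith

lemma cp_mono {m : ℕ} (μ : Measure (E (m + 1))) (x d d' : E (m + 1)) (ρ ρ' : ℝ)
    (hd : ρ + ‖d - d'‖ ≤ ρ') (h : CP μ x d' ρ') : CP μ x d ρ := by
  unfold CP at h ⊢
  refine ne_top_of_le_ne_top h (lintegral_mono_set ?_)
  rintro y ⟨hy0, hy⟩
  refine ⟨hy0, ?_⟩
  have e : (y - x) - ‖y - x‖ • d' = ((y - x) - ‖y - x‖ • d) + ‖y - x‖ • (d - d') := by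
    rw [smul_sub]; abel
  calc ‖(y - x) - ‖y - x‖ • d'‖ ≤ ‖(y - x) - ‖y - x‖ • d‖ + ‖‖y - x‖ • (d - d')‖ := by
        rw [e]; exact norm_add_le _ _
    _ ≤ ρ * ‖y - x‖ + ‖y - x‖ * ‖d - d'‖ := by
        rw [norm_smul, norm_norm]
        exact add_le_add hy le_rfl
    _ = (ρ + ‖d - d'‖) * ‖y - x‖ := by ring
    _ ≤ ρ' * ‖y - x‖ := mul_le_mul_of_nonneg_right hd (norm_nonneg _)

end OUT_

open OUT_ in
theorem out_proof (h1 : Stmt_UDN) (h2 : Stmt_CVB) (h3 : Stmt_SLI) (h4 : Stmt_GOD)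
    (h5 : Stmt_EXD) (h6 : Stmt_BES) (h7 : Stmt_BSM) : Stmt_OUT := by
  intro m N K ℓ A hA Ru u μ g hP
  have hfin := hP.fin
  have hU := h1 m N K ℓ A hA
  have hC := h2 m N K ℓ A hA
  choose ηU hηU hU using hU
  choose ηC hηC hC using hC
  have hneS : Nonempty (sphere (0 : E (m + 1)) 1) := ⟨⟨bs 0, by simp [bs]⟩⟩
  have hneB : Nonempty (closedBall (0 : Fin K → ℝ) 1) := ⟨⟨0, by simp⟩⟩
  set D : ℕ → sphere (0 : E (m + 1)) 1 := TopologicalSpace.denseSeq _ with hD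
  set W : ℕ → closedBall (0 : Fin K → ℝ) 1 := TopologicalSpace.denseSeq _ with hW
  have hDd : DenseRange D := TopologicalSpace.denseRange_denseSeq _
  have hWd : DenseRange W := TopologicalSpace.denseRange_denseSeq _
  have hDn : ∀ i, ‖(D i : E (m + 1))‖ = 1 := fun i => by
    have := (D i).2
    rwa [mem_sphere_zero_iff_norm] at this
  have hWn : ∀ i, ‖(W i : Fin K → ℝ)‖ ≤ 1 := fun i => by
    have := (W i).2
    rwa [mem_closedBall_zero_iff] at this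
  -- the exceptional null sets
  have aC : ∀ᵐ x ∂μ, ∀ (c ρ : ℚ) (hc : 0 < (c : ℝ)) (hρ : 0 < (ρ : ℝ)) (hρ1 : (ρ : ℝ) ≤ 1)
      (i k j : ℕ), (∀ ω : E (m + 1), ‖ω - D i‖ ≤ ρ → Ell A (W k) ω c) → ‖x‖ ≤ Ru →
      K1 μ g (W k) (ηC c ρ hc hρ hρ1) 0 (1 / ((j : ℝ) + 1)) x → CP μ x (D i) (ρ / 20) := by
    rw [ae_all_iff]; intro c
    rw [ae_all_iff]; intro ρ
    by_cases hc : 0 < (c : ℝ)
    swap
    · exact Eventually.of_forall fun x h => absurd h hc
    by_cases hρ : 0 < (ρ : ℝ)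
    swap
    · exact Eventually.of_forall fun x _ h => absurd h hρ
    by_cases hρ1 : (ρ : ℝ) ≤ 1
    swap
    · exact Eventually.of_forall fun x _ _ h => absurd h hρ1
    have key : ∀ᵐ x ∂μ, ∀ (i k j : ℕ), (∀ ω : E (m + 1), ‖ω - D i‖ ≤ ρ → Ell A (W k) ω c) →
        ‖x‖ ≤ Ru →
        K1 μ g (W k) (ηC c ρ hc hρ hρ1) 0 (1 / ((j : ℝ) + 1)) x → CP μ x (D i) (ρ / 20) := by
      rw [ae_all_iff]; intro i
      rw [ae_all_iff]; intro k
      rw [ae_all_iff]; intro j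
      by_cases hE : ∀ ω : E (m + 1), ‖ω - D i‖ ≤ ρ → Ell A (W k) ω c
      swap
      · exact Eventually.of_forall fun x h => absurd h hE
      have hj : (0 : ℝ) < 1 / ((j : ℝ) + 1) := by positivity
      have hX := meas_XX h7 μ g hP.norm_g (W k) (ηC c ρ hc hρ hρ1) (1 / ((j : ℝ) + 1)) Ru
      have hne := hC c ρ hc hρ hρ1 Ru u μ g hP (W k) (hWn k) (D i) (hDn i) hE
        (1 / ((j : ℝ) + 1)) hj _ hX (fun x hx => K1_of_XX _ _ _ _ _ _ x hx)
      have hlt := ae_lt_top (meas_pot μ (D i : E (m + 1)) ((ρ : ℝ) / 20)) hne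
      rw [ae_restrict_iff' hX] at hlt
      filter_upwards [hlt] with x hx _ hxR hK
      refine (hx ⟨hxR, fun q hq1 hq2 => hK q hq1 hq1.le hq2⟩).ne
    filter_upwards [key] with x hx _ _ _ using hx
  have aU : ∀ᵐ x ∂μ, ∀ (c : ℚ) (hc : 0 < (c : ℝ)) (k j : ℕ),
      (∃ S : Slice m, Ell A (W k) S.dir c) → ‖x‖ ≤ Ru →
      K1 μ g (W k) (ηU c hc) 0 (1 / ((j : ℝ) + 1)) x → P1 μ x := by
    rw [ae_all_iff]; intro c
    by_cases hc : 0 < (c : ℝ)
    swap
    · exact Eventually.of_forall fun x h => absurd h hc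
    have key : ∀ᵐ x ∂μ, ∀ (k j : ℕ),
        (∃ S : Slice m, Ell A (W k) S.dir c) → ‖x‖ ≤ Ru →
        K1 μ g (W k) (ηU c hc) 0 (1 / ((j : ℝ) + 1)) x → P1 μ x := by
      rw [ae_all_iff]; intro k
      rw [ae_all_iff]; intro j
      by_cases hE : ∃ S : Slice m, Ell A (W k) S.dir c
      swap
      · exact Eventually.of_forall fun x h => absurd h hE
      have hj : (0 : ℝ) < 1 / ((j : ℝ) + 1) := by positivity
      have h0 := hU c hc Ru u μ g hP (W k) (hWn k) hE (1 / ((j : ℝ) + 1)) hj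
        {x | ‖x‖ ≤ Ru ∧ K1 μ g (W k) (ηU c hc) 0 (1 / ((j : ℝ) + 1)) x} (fun x hx => hx)
      rw [ae_iff]
      refine measure_mono_null ?_ h0
      intro x hx
      simp only [Set.mem_setOf_eq] at hx ⊢
      push Not at hx
      obtain ⟨_, hx1, hx2, hx3⟩ := hx
      exact ⟨⟨hx1, hx2⟩, hx3⟩
    filter_upwards [key] with x hx _ using hx
  have aR : ∀ᵐ x ∂μ, ‖x‖ ≤ Ru := by
    rw [ae_iff]
    refine measure_mono_null ?_ hP.supp_m
    intro x hx
    simpa using hx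
  have a3 := h6 (m + 1) K μ g hP.meas_g hP.norm_g
  filter_upwards [aC, aU, aR, a3] with x hxC hxU hxR hx3 hx0
  -- the choices for a good direction
  have main : ∀ d : E (m + 1), ‖d‖ = 1 → Good A (g x) d →
      P1 μ x ∧ ∃ ρ : ℝ, 0 < ρ ∧ CP μ x d ρ := by
    rintro d hd ⟨ρ₀, hρ₀, c₀, hc₀, hE⟩
    obtain ⟨ρ, hρa, hρb⟩ := exists_rat_btwn (lt_min (half_pos hρ₀) one_pos)
    obtain ⟨c, hca, hcb⟩ := exists_rat_btwn (half_pos hc₀)
    have hρ1 : (ρ : ℝ) ≤ 1 := (hρb.trans_le (min_le_right _ _)).le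
    have hρ2 : (ρ : ℝ) < ρ₀ / 2 := hρb.trans_le (min_le_left _ _)
    set η1 := ηC c ρ hca hρa hρ1 with hη1
    set η2 := ηU c hca with hη2
    have hη1p : 0 < η1 := hηC _ _ _ _ _
    have hη2p : 0 < η2 := hηU _ _
    obtain ⟨i, hi⟩ := hDd.exists_dist_lt ⟨d, by simpa using hd⟩
      (by positivity : (0 : ℝ) < (ρ : ℝ) / 40)
    have hi' : ‖d - D i‖ < (ρ : ℝ) / 40 := by
      rw [Subtype.dist_eq, dist_eq_norm] at hi; exact hi
    obtain ⟨k, hk⟩ := hWd.exists_dist_lt ⟨g x, by simpa using hP.norm_g x⟩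
      (lt_min (half_pos hc₀) (lt_min (half_pos hη1p) (half_pos hη2p)))
    have hk' : ‖(W k : Fin K → ℝ) - g x‖ < min (c₀ / 2) (min (η1 / 2) (η2 / 2)) := by
      rw [Subtype.dist_eq, dist_eq_norm, norm_sub_rev] at hk; exact hk
    have hkc : ‖(W k : Fin K → ℝ) - g x‖ ≤ c₀ / 2 := (hk'.trans_le (min_le_left _ _)).le
    have hk1 : ‖(W k : Fin K → ℝ) - g x‖ ≤ η1 / 2 :=
      (hk'.trans_le ((min_le_right _ _).trans (min_le_left _ _))).le
    have hk2 : ‖(W k : Fin K → ℝ) - g x‖ ≤ η2 / 2 :=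
      (hk'.trans_le ((min_le_right _ _).trans (min_le_right _ _))).le
    have hEll : ∀ ω : E (m + 1), ‖ω - D i‖ ≤ ρ → Ell A (W k) ω c := by
      intro ω hω
      refine ell_near A (g x) (W k) ω c₀ c (hE ω ?_) (hkc.trans (by linarith))
      have e : ω - d = (ω - D i) - (d - D i) := by abel
      rw [e]
      refine (norm_sub_le _ _).trans ?_
      linarith
    obtain ⟨j1, hj1⟩ := K1_of_P3 μ g x hx3 (W k) η1 hη1p hk1
    obtain ⟨j2, hj2⟩ := K1_of_P3 μ g x hx3 (W k) η2 hη2p hk2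
    refine ⟨?_, (ρ : ℝ) / 40, by positivity, ?_⟩
    · refine hxU c hca k j2 ?_ hxR hj2
      obtain ⟨Φ, hΦ, -, -, -, hS⟩ := h3 m (D i) (hDn i)
      obtain ⟨S, hS⟩ := hS 0 (by simp)
      refine ⟨S, ?_⟩
      have e : S.dir = D i := by
        unfold Slice.dir
        rw [hS, smul_zero, add_zero, hΦ]
      rw [e]
      exact hEll _ (by rw [sub_self, norm_zero]; exact hρa.le)
    · refine cp_mono μ x d (D i) _ ((ρ : ℝ) / 20) ?_ (hxC c ρ hca hρa hρ1 i k j1 hEll hxR hj1)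
      linarith
  obtain ⟨s, hs0, hs⟩ := h4 (m + 1) N K ℓ A hA (g x) hx0
  obtain ⟨d, hd1, -, hd2⟩ := h5 m s hs0 (bs 0) (by simp [bs])
  exact ⟨(main d hd1 (hs d hd1 hd2)).1, fun d' hd' hG => (main d' hd' hG).2, hx3⟩

end Pool.Agent.CEL
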