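import Pool.Agent.CEL.Defs

/-!
# CEL: statements of the modules (MP_12ff24_an)
-/

set_option autoImplicit false
open Topology Filter MeasureTheory Matrix Metric
open scoped ENNReal

namespace Pool.Agent.CEL

/-! ## Algebra -/

/-- (0.1) Nullstellensatz identity. -/
def Stmt_NIC : Prop := ∀ (n N K : ℕ) (A : Op n N K), CEll A → ∃ ℓ, NIprop A ℓ

/-- (0.2b) finitely many characteristic directions. -/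
def Stmt_CHR : Prop := ∀ (n N K ℓ : ℕ) (A : Op n N K), NIprop A ℓ → ∀ w : Fin K → ℝ, w ≠ 0 →
  ∃ s : Finset (E n), (∀ ζ ∈ s, ζ ≠ 0) ∧
    ∀ ξ : E n, ξ ≠ 0 → ∀ v : Fin N → ℝ, sym A ξ *ᵥ v = w → ∃ ζ ∈ s, ∃ c : ℝ, ξ = c • ζ

/-- (0.2c) good directions. -/
def Stmt_GOD : Prop := ∀ (n N K ℓ : ℕ) (A : Op n N K), NIprop A ℓ → ∀ w : Fin K → ℝ, w ≠ 0 →
  ∃ s : Finset (E n), (∀ ζ ∈ s, ζ ≠ 0) ∧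
    ∀ d : E n, ‖d‖ = 1 → (∀ ζ ∈ s, inner ℝ ζ d ≠ 0) → Good A w d

/-- Directions avoiding finitely many hyperplanes. -/
def Stmt_EXD : Prop := ∀ (m : ℕ) (s : Finset (E (m + 1))), (∀ ζ ∈ s, ζ ≠ 0) →
  ∀ ν : E (m + 1), ‖ν‖ = 1 →
    ∃ d : E (m + 1), ‖d‖ = 1 ∧ 0 < inner ℝ d ν ∧ ∀ ζ ∈ s, inner ℝ ζ d ≠ 0

/-! ## Lemma A -/

/-- Derivatives of order `ℓ` of `w` are combinations of derivatives of order `ℓ-1` of `B w`. -/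
def Stmt_DID : Prop := ∀ (n N K ℓ : ℕ) (A : Op n N K), NIprop A ℓ → ∀ a : Fin ℓ → Fin n,
  ∃ Lb : (Fin (ℓ - 1) → Fin n) → Matrix (Fin N) (Fin K) ℝ,
    ∀ w : E n → (Fin N → ℝ), ContDiff ℝ (⊤ : ℕ∞) w → HasCompactSupport w → ∀ x,
      iteratedFDeriv ℝ ℓ w x (fun i => bs (a i)) =
        ∑ b, Lb b *ᵥ (iteratedFDeriv ℝ (ℓ - 1) (BD A w) x (fun i => bs (b i)))

/-- Integrated Taylor formula. -/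
def Stmt_TAY : Prop := ∀ (n N ℓ : ℕ), 1 ≤ ℓ → ∀ h χ : E n → ℝ, TF h → TF χ → ∫ x, χ x = 1 →
  OrthP ℓ h → ∀ w : E n → (Fin N → ℝ), ContDiff ℝ (⊤ : ℕ∞) w → HasCompactSupport w →
    ∫ x, h x • w x =
      ∫ s in (0 : ℝ)..1, ((1 - s) ^ (ℓ - 1) / (Nat.factorial (ℓ - 1) : ℝ)) •
        ∫ p, ∫ q, (h (q + (1 - s) • p) * χ (q - s • p)) • iteratedFDeriv ℝ ℓ w q (fun _ => p)

/-- Lemma A for smooth functions. -/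
def Stmt_SMB : Prop := ∀ (n N K ℓ : ℕ) (A : Op n N K), NIprop A ℓ → ∀ C : Set (E n),
  IsCompact C → Convex ℝ C → (interior C).Nonempty → ∃ C₀ : ℝ, 0 ≤ C₀ ∧
    ∀ h : E n → ℝ, TF h → tsupport h ⊆ C → OrthP ℓ h → ∀ M : ℝ, CB ℓ M h →
      ∀ w : E n → (Fin N → ℝ), ContDiff ℝ (⊤ : ℕ∞) w → HasCompactSupport w →
        ‖∫ x, h x • w x‖ ≤ C₀ * M * ∫ x in C, ‖BD A w x‖

/-- Lemma A. -/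
def Stmt_LMA : Prop := ∀ (m N K ℓ : ℕ) (A : Op (m + 1) N K), NIprop A ℓ →
  ∀ C : Set (E (m + 1)), IsCompact C → Convex ℝ C → (interior C).Nonempty → ∃ C₀ : ℝ, 0 ≤ C₀ ∧
    ∀ h : E (m + 1) → ℝ, TF h → tsupport h ⊆ C → OrthP ℓ h → ∀ M : ℝ, CB ℓ M h →
      ∀ (Ru : ℝ) (u : E (m + 1) → (Fin N → ℝ)) (μ : Measure (E (m + 1)))
        (g : E (m + 1) → (Fin K → ℝ)), IsPair A Ru u μ g → ∀ (x : E (m + 1)) (r : ℝ), 0 < r →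
          ‖Lr u x h r‖ₑ ≤ ENNReal.ofReal (C₀ * M) * dens μ x r C

/-- Dual families. -/
def Stmt_DUF : Prop := ∀ (n ℓ : ℕ) (O : Set (E n)), IsOpen O → O.Nonempty →
  ∃ lam : (Fin n → ℕ) → E n → ℝ, Dual ℓ O lam

/-- (1.2) Poincaré inequality with equi-integrability. -/
def Stmt_PWC : Prop := ∀ (m N K ℓ : ℕ) (A : Op (m + 1) N K), NIprop A ℓ →
  ∀ (C C' : Set (E (m + 1))) (lam : (Fin (m + 1) → ℕ) → E (m + 1) → ℝ),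
    IsCompact C → Convex ℝ C → IsCompact C' → C' ⊆ interior C → Dual ℓ C lam →
    ∀ ε : ℝ, 0 < ε → ∃ Cε : ℝ, 0 ≤ Cε ∧
      ∀ (Ru : ℝ) (u : E (m + 1) → (Fin N → ℝ)) (μ : Measure (E (m + 1)))
        (g : E (m + 1) → (Fin K → ℝ)), IsPair A Ru u μ g → ∀ (x : E (m + 1)) (r : ℝ), 0 < r →
        ∀ S : Set (E (m + 1)), MeasurableSet S → S ⊆ C' →
          ∫⁻ z in S, ‖u (x + r • z) - ∑ β ∈ idx (m + 1) ℓ, mono β z • Lr u x (lam β) r‖ₑ ≤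
            (ENNReal.ofReal ε + ENNReal.ofReal Cε * volume S) * dens μ x r C

/-! ## Basic facts -/

/-- Volume of balls. -/
def Stmt_BSV : Prop := ∀ n : ℕ, ∃ v : ℝ≥0∞, v ≠ 0 ∧ v ≠ ⊤ ∧ ∀ (x : E n) (r : ℝ), 0 < r →
  volume (ball x r) = ENNReal.ofReal (r ^ n) * v ∧
    volume (closedBall x r) = ENNReal.ofReal (r ^ n) * v

/-- Distance functions. -/
def Stmt_BSA : Prop := ∀ (n : ℕ) (I : Finset (E n × ℝ)) (D : E n → ℝ), IsD I D →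
  (∀ y, 0 < D y) ∧ (∀ x y, |D x - D y| ≤ ‖x - y‖) ∧ Continuous D ∧ ∃ s : ℝ, 0 < s ∧ ∀ y, s ≤ D y

/-- Measurability of `y ↦ ν(B(y, δ(y)))`. -/
def Stmt_BSM : Prop := ∀ (n : ℕ) (ν : Measure (E n)) [IsFiniteMeasure ν] (δ : E n → ℝ),
  Continuous δ → Measurable (fun y => ν (ball y (δ y))) ∧
    Measurable (fun y => ν (closedBall y (δ y)))

/-- Slices. -/
def Stmt_BSS : Prop := ∀ (m : ℕ) (S : Slice m) (f : E (m + 1) → ℝ≥0∞), Measurable f →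
  Measurable (fun p => ∫⁻ t, f (S.Q (p, t))) ∧
  (∫⁻ p, ∫⁻ t, f (S.Q (p, t)) = ∫⁻ z, f z) ∧
  ∀ ψ : E m → ℝ≥0∞, Measurable ψ →
    (∫⁻ p, (∫⁻ t, f (S.Q (p, t))) * ψ p = ∫⁻ z, f z * ψ (S.Q.symm z).1) ∧
    ∀ (z : E (m + 1)) (r : ℝ), 0 < r → ∫⁻ y in ball z r, ψ (S.Q.symm y).1 ≤
      ENNReal.ofReal (2 * r) * ∫⁻ q in ball (S.Q.symm z).1 (2 * r), ψ q

/-- `J^{1/2}` is a seminorm. -/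
def Stmt_BSJ : Prop := ∀ (m : ℕ) (S : Slice m) (f g : E (m + 1) → ℝ≥0∞), Measurable f →
  Measurable g →
  (J S (fun y => f y + g y)) ^ (1 / 2 : ℝ) ≤ (J S f) ^ (1 / 2 : ℝ) + (J S g) ^ (1 / 2 : ℝ) ∧
  (∀ c : ℝ≥0∞, J S (fun y => c * f y) = c ^ 2 * J S f) ∧
  ((∀ y, f y ≤ g y) → J S f ≤ J S g)

/-- Slices with prescribed direction. -/
def Stmt_SLI : Prop := ∀ (m : ℕ) (d : E (m + 1)), ‖d‖ = 1 →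
  ∃ Φ : (E m × ℝ) ≃L[ℝ] E (m + 1), Φ (0, 1) = d ∧
    (∀ p t, ‖Φ (p, t)‖ ^ 2 = ‖p‖ ^ 2 + t ^ 2) ∧ (∀ p t, inner ℝ (Φ (p, t)) d = t) ∧
    MeasurePreserving Φ (volume : Measure (E m × ℝ)) (volume : Measure (E (m + 1))) ∧
    ∀ θ : E m, ‖θ‖ ≤ 1 → ∃ S : Slice m, ∀ p t, S.Q (p, t) = Φ (p + t • θ, t)

/-! ## The main estimate -/

/-- (2.1) -/
def Stmt_PLA : Prop := ∀ (m N K : ℕ) (A : Op (m + 1) N K) (S : Slice m) (w : Fin K → ℝ) (c : ℝ),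
  0 < c → Ell A w S.dir c → ∀ (v : E (m + 1) → (Fin N → ℝ)) (a : E (m + 1) → ℝ),
    ContDiff ℝ (⊤ : ℕ∞) v → HasCompactSupport v → TF a →
      ∫⁻ p, ‖∫ t, a (S.Q (p, t))‖ₑ ^ 2 ≤
        ENNReal.ofReal (K / c ^ 2) * J S (fun y => ‖BD A v y - a y • w‖ₑ)

/-- (2.2) -/
def Stmt_HLM : Prop := ∀ m : ℕ, ∃ C : ℝ≥0∞, C ≠ ⊤ ∧ ∀ ψ : E m → ℝ≥0∞, Measurable ψ →
  (∀ t : ℝ≥0∞, IsOpen {p | t < MX ψ p}) ∧ Measurable (MX ψ) ∧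
    ∫⁻ p, (MX ψ p) ^ 2 ≤ C * ∫⁻ p, (ψ p) ^ 2

/-- (2.3) -/
def Stmt_DUA : Prop := ∀ m : ℕ, ∃ C : ℝ≥0∞, C ≠ ⊤ ∧ ∀ (S : Slice m) (F G : E (m + 1) → ℝ≥0∞)
  (B : ℝ≥0∞), Measurable F → Measurable G → B ≠ ⊤ →
  (∀ ψ : E m → ℝ≥0∞, Measurable ψ → ∫⁻ p, (∫⁻ t, F (S.Q (p, t))) * ψ p ≤
    B * ∫⁻ p, (∫⁻ t, G (S.Q (p, t))) * MX ψ p) → J S F ≤ C * B ^ 2 * J S G

/-- (2.4) -/
def Stmt_CPA : Prop := ∀ m : ℕ, ∃ C : ℝ≥0∞, C ≠ ⊤ ∧ ∀ (S : Slice m) (I : Finset (E (m + 1) × ℝ))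
  (D : E (m + 1) → ℝ), IsD I D → ∀ (ν : Measure (E (m + 1))) [IsFiniteMeasure ν] (a b : ℝ),
    0 < a → a ≤ b → b ≤ 1 / 4 → J S (Av D ν b) ≤ C * J S (Av D ν a)

/-- (2.5) -/
def Stmt_CPB : Prop := ∀ (m : ℕ) (a : ℝ), 0 < a → ∃ C : ℝ≥0∞, C ≠ ⊤ ∧ ∀ (S : Slice m)
  (I : Finset (E (m + 1) × ℝ)) (D : E (m + 1) → ℝ), IsD I D →
  ∀ (ν τ : Measure (E (m + 1))) [IsFiniteMeasure ν] [IsFiniteMeasure τ] (R η : ℝ), 0 < R → 0 ≤ η →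
    (∀ q ∈ I, ∀ r, q.2 ≤ r → r < R → τ (ball q.1 r) ≤ ENNReal.ofReal η * ν (ball q.1 r)) →
    ∀ b, a ≤ b → b ≤ 1 / 100 →
      J S (Av D (τ.restrict {y | D y ≤ R / 200}) b) ≤
        C * ENNReal.ofReal η ^ 2 * J S (Av D ν a)

/-- (2.6) -/
def Stmt_FAR : Prop := ∀ (m : ℕ),
  (∀ Ru R b M : ℝ, 0 < R → 0 < b → b ≤ 1 / 100 → ∃ C : ℝ≥0∞, C ≠ ⊤ ∧ ∀ (S : Slice m)
    (I : Finset (E (m + 1) × ℝ)) (D : E (m + 1) → ℝ), IsD I D →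
    (∀ q ∈ I, ‖q.1‖ ≤ Ru ∧ q.2 ≤ R) → ∀ τ : Measure (E (m + 1)), τ Set.univ ≤ ENNReal.ofReal M →
    τ (closedBall (0 : E (m + 1)) Ru)ᶜ = 0 →
      J S (Av D (τ.restrict {y | R / 200 < D y}) b) ≤ C) ∧
  (∀ (S : Slice m) (I : Finset (E (m + 1) × ℝ)) (D : E (m + 1) → ℝ), IsD I D →
    ∀ (ν : Measure (E (m + 1))) [IsFiniteMeasure ν] (Ru a : ℝ), 0 < a → a ≤ 1 / 4 →
    ν (closedBall (0 : E (m + 1)) Ru)ᶜ = 0 → J S (Av D ν a) ≠ ⊤)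

/-- (2.7) -/
def Stmt_MOL : Prop := ∀ m : ℕ, ∃ (ρ : E (m + 1) → ℝ) (c₁ C₁ : ℝ), IsBump ρ c₁ C₁ ∧
  ∀ (ℓ : ℕ) (ε : ℝ), 0 < ε → ∃ (k : ℕ) (a₀ : ℝ) (a t : Fin k → ℝ), 1 / 2 ≤ a₀ ∧ (∀ i, 1 ≤ t i) ∧
    ∑ i, |a i| ≤ ε ∧ Repr ℓ (comb ρ a₀ a t)

/-- `div(ζφ)` is orthogonal to polynomials. -/
def Stmt_HDV : Prop := ∀ (m ℓ : ℕ) (φ : E (m + 1) → ℝ), TF φ → Repr ℓ φ →
  TF (dvg φ) ∧ OrthP ℓ (dvg φ)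

/-- (2.8) smooth distance function. -/
def Stmt_DSM : Prop := ∀ (n : ℕ) (I : Finset (E n × ℝ)) (D : E n → ℝ), IsD I D →
  ∃ Ds : E n → ℝ, ContDiff ℝ (⊤ : ℕ∞) Ds ∧ (∀ y, D y / 2 ≤ Ds y ∧ Ds y ≤ 3 / 2 * D y) ∧
    ∀ y, ‖fderiv ℝ Ds y‖ ≤ 1

/-- (2.8) smoothness and compact support. -/
def Stmt_VSS : Prop := ∀ (m N K : ℕ) (A : Op (m + 1) N K) (Ru : ℝ)
  (u : E (m + 1) → (Fin N → ℝ)) (μ : Measure (E (m + 1))) (g : E (m + 1) → (Fin K → ℝ)),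
  IsPair A Ru u μ g → ∀ (φ : E (m + 1) → ℝ) (T₀ B : ℝ) (δ : E (m + 1) → ℝ), TF φ →
    (∀ z, T₀ ≤ ‖z‖ → φ z = 0) → ContDiff ℝ (⊤ : ℕ∞) δ → (∀ y, 0 < δ y) →
    (∀ y, T₀ * δ y ≤ (‖y‖ + B) / 2) →
    ContDiff ℝ (⊤ : ℕ∞) (vs φ δ u) ∧ HasCompactSupport (vs φ δ u) ∧ TF (vsm φ δ μ)

/-- (2.8) the formula for `B v`. -/
def Stmt_VSF : Prop := ∀ (m N K : ℕ) (A : Op (m + 1) N K) (Ru : ℝ)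
  (u : E (m + 1) → (Fin N → ℝ)) (μ : Measure (E (m + 1))) (g : E (m + 1) → (Fin K → ℝ)),
  IsPair A Ru u μ g → ∀ (φ : E (m + 1) → ℝ) (δ : E (m + 1) → ℝ), TF φ →
    ContDiff ℝ (⊤ : ℕ∞) δ → (∀ y, 0 < δ y) → ∀ y,
    BD A (vs φ δ u) y = (∫ z, ker φ (δ y) (y - z) • g z ∂μ) -
      (δ y)⁻¹ • ∑ j, fderiv ℝ δ y (bs j) • (A j *ᵥ ∫ z, ker (dvg φ) (δ y) (y - z) • u z)

/-- (2.8) the pointwise bound. -/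
def Stmt_MAP : Prop := ∀ (m N K ℓ : ℕ) (A : Op (m + 1) N K), NIprop A ℓ →
  ∀ (φ : E (m + 1) → ℝ) (T₀ : ℝ), TF φ → Repr ℓ φ → 1 ≤ T₀ → (∀ z, T₀ ≤ ‖z‖ → φ z = 0) →
  ∃ C₂ : ℝ, 0 ≤ C₂ ∧ ∀ (Ru : ℝ) (u : E (m + 1) → (Fin N → ℝ)) (μ : Measure (E (m + 1)))
    (g : E (m + 1) → (Fin K → ℝ)), IsPair A Ru u μ g → ∀ (δ : E (m + 1) → ℝ) (ε₀ : ℝ),
    ContDiff ℝ (⊤ : ℕ∞) δ → (∀ y, 0 < δ y) → 0 ≤ ε₀ → (∀ y, ‖fderiv ℝ δ y‖ ≤ ε₀) →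
    ∀ (w : Fin K → ℝ) (y : E (m + 1)),
      ‖BD A (vs φ δ u) y - vsm φ δ μ y • w‖ₑ ≤
        ENNReal.ofReal C₂ * ENNReal.ofReal ((δ y ^ (m + 1))⁻¹) *
          ((∫⁻ z in ball y (T₀ * δ y), ‖g z - w‖ₑ ∂μ) +
            ENNReal.ofReal ε₀ * μ (closedBall y (T₀ * δ y)))

/-- (2.9) lower bound. -/
def Stmt_MNA : Prop := ∀ (m : ℕ) (ρ : E (m + 1) → ℝ) (c₁ C₁ : ℝ), IsBump ρ c₁ C₁ →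
  ∃ εs : ℝ, 0 < εs ∧ ∃ C : ℝ≥0∞, C ≠ ⊤ ∧ ∀ (k : ℕ) (a₀ : ℝ) (a t : Fin k → ℝ) (T₀ ε₀ : ℝ),
    1 / 2 ≤ a₀ → (∀ i, 1 ≤ t i) → (∀ i, t i ≤ T₀) → 1 ≤ T₀ → ∑ i, |a i| ≤ εs → 0 < ε₀ →
    2 * T₀ * ε₀ ≤ 1 / 100 →
    ∀ (S : Slice m) (I : Finset (E (m + 1) × ℝ)) (D Ds : E (m + 1) → ℝ), IsD I D →
      ContDiff ℝ (⊤ : ℕ∞) Ds → (∀ y, D y / 2 ≤ Ds y ∧ Ds y ≤ 3 / 2 * D y) →
      ∀ (μ : Measure (E (m + 1))) [IsFiniteMeasure μ] (Ru : ℝ),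
        μ (closedBall (0 : E (m + 1)) Ru)ᶜ = 0 →
        J S (Av D μ (ε₀ / 4)) ≤
          C * ∫⁻ p, ‖∫ s, vsm (comb ρ a₀ a t) (fun y => ε₀ * Ds y) μ (S.Q (p, s))‖ₑ ^ 2

/-- (2.9) upper bound. -/
def Stmt_MNB : Prop := ∀ (m : ℕ) (T₀ C₂ : ℝ), 1 ≤ T₀ → 0 ≤ C₂ → ∃ C₃ : ℝ≥0∞, C₃ ≠ ⊤ ∧
  ∀ ε₀ : ℝ, 0 < ε₀ → 2 * T₀ * ε₀ ≤ 1 / 100 → ∃ C₄ : ℝ≥0∞, C₄ ≠ ⊤ ∧
  ∀ Ru R M : ℝ, 0 < R → ∃ C₅ : ℝ≥0∞, C₅ ≠ ⊤ ∧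
  ∀ (S : Slice m) (I : Finset (E (m + 1) × ℝ)) (D Ds : E (m + 1) → ℝ), IsD I D →
    (∀ q ∈ I, ‖q.1‖ ≤ Ru ∧ q.2 ≤ R) → (∀ y, D y / 2 ≤ Ds y ∧ Ds y ≤ 3 / 2 * D y) →
    ∀ (μ τ : Measure (E (m + 1))) [IsFiniteMeasure μ] [IsFiniteMeasure τ],
      μ Set.univ ≤ ENNReal.ofReal M → τ Set.univ ≤ ENNReal.ofReal M →
      τ (closedBall (0 : E (m + 1)) Ru)ᶜ = 0 →
      ∀ η : ℝ, 0 ≤ η →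
        (∀ q ∈ I, ∀ r, q.2 ≤ r → r < R → τ (ball q.1 r) ≤ ENNReal.ofReal η * μ (ball q.1 r)) →
        ∀ F : E (m + 1) → ℝ≥0∞, Measurable F →
          (∀ y, F y ≤ ENNReal.ofReal C₂ * ENNReal.ofReal (((ε₀ * Ds y) ^ (m + 1))⁻¹) *
            (τ (ball y (T₀ * (ε₀ * Ds y))) +
              ENNReal.ofReal ε₀ * μ (closedBall y (T₀ * (ε₀ * Ds y))))) →
          J S F ≤ (C₃ * ENNReal.ofReal ε₀ ^ 2 + C₄ * ENNReal.ofReal η ^ 2) *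
            J S (Av D μ (ε₀ / 4)) + C₅

/-- (2.9) the main estimate. -/
def Stmt_MAI : Prop := ∀ (m N K ℓ : ℕ) (A : Op (m + 1) N K), NIprop A ℓ → ∀ c εm : ℝ, 0 < c →
  0 < εm → ∃ ε : ℝ, 0 < ε ∧ ε ≤ εm ∧ ε ≤ 1 / 400 ∧ ∃ η : ℝ, 0 < η ∧
  ∀ (Ru : ℝ) (u : E (m + 1) → (Fin N → ℝ)) (μ : Measure (E (m + 1)))
    (g : E (m + 1) → (Fin K → ℝ)), IsPair A Ru u μ g → ∀ w : Fin K → ℝ, ‖w‖ ≤ 1 →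
    ∀ R : ℝ, 0 < R → ∃ C : ℝ≥0∞, C ≠ ⊤ ∧ ∀ S : Slice m, Ell A w S.dir c →
      ∀ (I : Finset (E (m + 1) × ℝ)) (D : E (m + 1) → ℝ), IsD I D →
        (∀ q ∈ I, ‖q.1‖ ≤ Ru ∧ q.2 < R ∧ K1 μ g w η q.2 R q.1) → J S (Av D μ ε) ≤ C

/-! ## Almost everywhere consequences -/

/-- (3.1) -/
def Stmt_UDN : Prop := ∀ (m N K ℓ : ℕ) (A : Op (m + 1) N K), NIprop A ℓ → ∀ c : ℝ, 0 < c →
  ∃ η : ℝ, 0 < η ∧ ∀ (Ru : ℝ) (u : E (m + 1) → (Fin N → ℝ)) (μ : Measure (E (m + 1)))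
    (g : E (m + 1) → (Fin K → ℝ)), IsPair A Ru u μ g → ∀ w : Fin K → ℝ, ‖w‖ ≤ 1 →
    (∃ S : Slice m, Ell A w S.dir c) → ∀ R : ℝ, 0 < R → ∀ X : Set (E (m + 1)),
      (∀ x ∈ X, ‖x‖ ≤ Ru ∧ K1 μ g w η 0 R x) → μ {x | x ∈ X ∧ ¬ P1 μ x} = 0

/-- (3.2) integration over the directions. -/
def Stmt_CVA : Prop := ∀ (m : ℕ) (d : E (m + 1)) (Φ : (E m × ℝ) ≃L[ℝ] E (m + 1)), ‖d‖ = 1 →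
  Φ (0, 1) = d → (∀ p t, ‖Φ (p, t)‖ ^ 2 = ‖p‖ ^ 2 + t ^ 2) → (∀ p t, inner ℝ (Φ (p, t)) d = t) →
  MeasurePreserving Φ (volume : Measure (E m × ℝ)) (volume : Measure (E (m + 1))) →
  ∀ (ρ : ℝ) (G : E (m + 1) → ℝ≥0∞), 0 ≤ ρ → Measurable G →
    ∫⁻ z, ∫⁻ z' in {z' | ‖(z' - z) - (inner ℝ (z' - z) d : ℝ) • d‖ ≤
        ρ * |(inner ℝ (z' - z) d : ℝ)|},
        G z * G z' * ENNReal.ofReal ((|(inner ℝ (z' - z) d : ℝ)| ^ m)⁻¹) ≤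
      ∫⁻ θ in closedBall (0 : E m) ρ, ∫⁻ p, (∫⁻ t, G (Φ (p + t • θ, t))) ^ 2

/-- (3.2) -/
def Stmt_CVB : Prop := ∀ (m N K ℓ : ℕ) (A : Op (m + 1) N K), NIprop A ℓ → ∀ c ρ : ℝ, 0 < c →
  0 < ρ → ρ ≤ 1 → ∃ η : ℝ, 0 < η ∧ ∀ (Ru : ℝ) (u : E (m + 1) → (Fin N → ℝ))
    (μ : Measure (E (m + 1))) (g : E (m + 1) → (Fin K → ℝ)), IsPair A Ru u μ g →
    ∀ w : Fin K → ℝ, ‖w‖ ≤ 1 → ∀ d : E (m + 1), ‖d‖ = 1 →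
    (∀ ω : E (m + 1), ‖ω - d‖ ≤ ρ → Ell A w ω c) → ∀ R : ℝ, 0 < R →
    ∀ X : Set (E (m + 1)), MeasurableSet X → (∀ x ∈ X, ‖x‖ ≤ Ru ∧ K1 μ g w η 0 R x) →
      ∫⁻ x in X, (∫⁻ y in {y | y - x ∈ cone d (ρ / 20)},
        ENNReal.ofReal ((‖y - x‖ ^ m)⁻¹) ∂μ) ∂μ ≠ ⊤

/-- Lebesgue points (Besicovitch). -/
def Stmt_BES : Prop := ∀ (n K : ℕ) (μ : Measure (E n)) [IsFiniteMeasure μ]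
  (g : E n → (Fin K → ℝ)), Measurable g → (∀ x, ‖g x‖ ≤ 1) → ∀ᵐ x ∂μ, P3 μ g x

/-- (3.3) -/
def Stmt_OUT : Prop := ∀ (m N K ℓ : ℕ) (A : Op (m + 1) N K), NIprop A ℓ →
  ∀ (Ru : ℝ) (u : E (m + 1) → (Fin N → ℝ)) (μ : Measure (E (m + 1)))
    (g : E (m + 1) → (Fin K → ℝ)), IsPair A Ru u μ g →
    ∀ᵐ x ∂μ, g x ≠ 0 → P1 μ x ∧ P2 A μ g x ∧ P3 μ g x

/-! ## The deterministic part -/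

/-- A finite cone potential implies that the cone is asymptotically empty. -/
def Stmt_CPZ : Prop := ∀ (m : ℕ) (μ : Measure (E (m + 1))) [IsFiniteMeasure μ]
  (x d : E (m + 1)) (ρ : ℝ), ‖d‖ = 1 → 0 < ρ → CP μ x d ρ → ∃ ρ' : ℝ, 0 < ρ' ∧
    ∀ ψ : E (m + 1) → ℝ, TF ψ → tsupport ψ ⊆ ball d ρ' → T μ x ψ 0

/-- (4.1) -/
def Stmt_LIA : Prop := ∀ (m N K ℓ : ℕ) (A : Op (m + 1) N K), NIprop A ℓ →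
  ∀ (Ru : ℝ) (u : E (m + 1) → (Fin N → ℝ)) (μ : Measure (E (m + 1)))
    (g : E (m + 1) → (Fin K → ℝ)), IsPair A Ru u μ g → ∀ (x d : E (m + 1)) (ρ : ℝ), ‖d‖ = 1 →
    0 < ρ → CP μ x d ρ → ∃ (a : Fin N → ℝ) (ρ' : ℝ), 0 < ρ' ∧
      ∀ κ : E (m + 1) → ℝ, TF κ → tsupport κ ⊆ ball d ρ' →
        Tendsto (Lr u x κ) (𝓝[>] 0) (𝓝 ((∫ z, κ z) • a))

/-- (4.2) -/
def Stmt_LIB : Prop := ∀ (m N K ℓ : ℕ) (A : Op (m + 1) N K), NIprop A ℓ →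
  ∀ (Ru : ℝ) (u : E (m + 1) → (Fin N → ℝ)) (μ : Measure (E (m + 1)))
    (g : E (m + 1) → (Fin K → ℝ)), IsPair A Ru u μ g → ∀ x : E (m + 1), g x ≠ 0 → P1 μ x →
    P2 A μ g x → ∀ κ : E (m + 1) → ℝ, TF κ → ∃ b : Fin N → ℝ, Tendsto (Lr u x κ) (𝓝[>] 0) (𝓝 b)

/-- (4.3) -/
def Stmt_LIC : Prop := ∀ (m N K : ℕ) (A : Op (m + 1) N K)
  (Ru : ℝ) (u : E (m + 1) → (Fin N → ℝ)) (μ : Measure (E (m + 1)))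
    (g : E (m + 1) → (Fin K → ℝ)), IsPair A Ru u μ g → ∀ x : E (m + 1), g x ≠ 0 → P1 μ x →
    P3 μ g x → (∀ κ : E (m + 1) → ℝ, TF κ → ∃ b : Fin N → ℝ, Tendsto (Lr u x κ) (𝓝[>] 0) (𝓝 b)) →
    ∀ ψ : E (m + 1) → ℝ, TF ψ → ∃ L : ℝ, T μ x ψ L

/-- A countable dense set of test functions. -/
def Stmt_SEP : Prop := ∀ n : ℕ, ∃ c : ℕ → E n → ℝ, (∀ i, TF (c i)) ∧ ∀ ψ : E n → ℝ, TF ψ →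
  ∃ R : ℝ, (∀ z, R ≤ ‖z‖ → ψ z = 0) ∧ ∀ ε : ℝ, 0 < ε → ∃ i, (∀ z, R ≤ ‖z‖ → c i z = 0) ∧
    ∀ z, |c i z - ψ z| ≤ ε

/-- (4.4) -/
def Stmt_PRE : Prop := ∀ (m : ℕ) (μ : Measure (E (m + 1))) [IsFiniteMeasure μ], ∀ᵐ x ∂μ,
  (P1 μ x ∧ ∀ ψ : E (m + 1) → ℝ, TF ψ → ∃ L : ℝ, T μ x ψ L) →
  ∀ z₀ : E (m + 1), (∀ ψ : E (m + 1) → ℝ, TF ψ → (∀ z, 0 ≤ ψ z) → 0 < ψ z₀ → ¬ T μ x ψ 0) →
    ∀ (ψ : E (m + 1) → ℝ) (L : ℝ), TF ψ → T μ x ψ L → T μ x (fun z => ψ (z - z₀)) L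

/-- (4.5) -/
def Stmt_SUP : Prop := ∀ (m : ℕ) (μ : Measure (E (m + 1))) [IsFiniteMeasure μ] (x : E (m + 1)),
  (∀ ψ : E (m + 1) → ℝ, TF ψ → ∃ L : ℝ, T μ x ψ L) →
  (∀ z₀ : E (m + 1), (∀ ψ : E (m + 1) → ℝ, TF ψ → (∀ z, 0 ≤ ψ z) → 0 < ψ z₀ → ¬ T μ x ψ 0) →
    ∀ (ψ : E (m + 1) → ℝ) (L : ℝ), TF ψ → T μ x ψ L → T μ x (fun z => ψ (z - z₀)) L) →
  (∃ s : Finset (E (m + 1)), (∀ ζ ∈ s, ζ ≠ 0) ∧ ∀ d : E (m + 1), ‖d‖ = 1 →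
    (∀ ζ ∈ s, inner ℝ ζ d ≠ 0) → ∃ ρ : ℝ, 0 < ρ ∧
      ∀ ψ : E (m + 1) → ℝ, TF ψ → tsupport ψ ⊆ ball d ρ → T μ x ψ 0) →
  ∃ ν : E (m + 1), ‖ν‖ = 1 ∧
    ∀ ψ : E (m + 1) → ℝ, TF ψ → (∀ z ∈ tsupport ψ, inner ℝ z ν ≠ 0) → T μ x ψ 0

/-- (4.6) -/
def Stmt_HAF : Prop := ∀ (m N K ℓ : ℕ) (A : Op (m + 1) N K), NIprop A ℓ →
  ∀ (Ru : ℝ) (u : E (m + 1) → (Fin N → ℝ)) (μ : Measure (E (m + 1)))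
    (g : E (m + 1) → (Fin K → ℝ)), IsPair A Ru u μ g → ∀ x ν : E (m + 1), ‖ν‖ = 1 → P1 μ x →
    (∀ ψ : E (m + 1) → ℝ, TF ψ → (∀ z ∈ tsupport ψ, 0 < inner ℝ z ν) → T μ x ψ 0) →
    ∀ (d : E (m + 1)) (ρ : ℝ), ‖d‖ = 1 → 0 < inner ℝ d ν → 0 < ρ → CP μ x d ρ →
      ∃ a : Fin N → ℝ, HalfLim u x ν a

/-- Half-space limits almost everywhere. -/
def Stmt_CNC : Prop := ∀ (m N K ℓ : ℕ) (A : Op (m + 1) N K), NIprop A ℓ →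
  ∀ (Ru : ℝ) (u : E (m + 1) → (Fin N → ℝ)) (μ : Measure (E (m + 1)))
    (g : E (m + 1) → (Fin K → ℝ)), IsPair A Ru u μ g → ∀ᵐ x ∂μ, g x ≠ 0 →
      ∃ (ν : E (m + 1)) (a b : Fin N → ℝ), ‖ν‖ = 1 ∧ HalfLim u x ν a ∧ HalfLim u x (-ν) b

/-- (4.7) from half-space limits to Lebesgue points or jump points. -/
def Stmt_FIN : Prop := ∀ (m N : ℕ) (u : E (m + 1) → (Fin N → ℝ)) (x ν : E (m + 1))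
  (a b : Fin N → ℝ), Measurable u → ‖ν‖ = 1 → HalfLim u x ν a → HalfLim u x (-ν) b →
    (∃ z : Fin N → ℝ, Tendsto (fun r : ℝ => (volume (ball x r))⁻¹ *
      ∫⁻ y in ball x r, ‖u y - z‖ₑ) (𝓝[>] 0) (𝓝 0)) ∨
    (∃ (a b : Fin N → ℝ) (ν : E (m + 1)), a ≠ b ∧ ‖ν‖ = 1 ∧
      Tendsto (fun r : ℝ => (volume (ball x r))⁻¹ *
        ∫⁻ y in ball x r ∩ {y | 0 < inner ℝ (y - x) ν}, ‖u y - a‖ₑ) (𝓝[>] 0) (𝓝 0) ∧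
      Tendsto (fun r : ℝ => (volume (ball x r))⁻¹ *
        ∫⁻ y in ball x r ∩ {y | inner ℝ (y - x) ν < 0}, ‖u y - b‖ₑ) (𝓝[>] 0) (𝓝 0))

/-- (5) localization. -/
def Stmt_LOC : Prop := ∀ (n N K : ℕ) (A : Op n N K) (Ω : Set (E n)), IsOpen Ω →
  ∀ (u : E n → (Fin N → ℝ)), Measurable u → IntegrableOn u Ω →
  ∀ (μ : Measure (E n)) (g : E n → (Fin K → ℝ)), IsFiniteMeasure μ → μ Ωᶜ = 0 → Measurable g →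
    (∀ᵐ x ∂μ, ‖g x‖ = 1) →
    (∀ φ : E n → (Fin K → ℝ), ContDiff ℝ (⊤ : ℕ∞) φ → HasCompactSupport φ → tsupport φ ⊆ Ω →
      ∫ x in Ω, ∑ j, u x ⬝ᵥ ((A j).transpose *ᵥ (fderiv ℝ φ x (EuclideanSpace.single j 1))) =
        - ∫ x, g x ⬝ᵥ φ x ∂μ) →
    ∀ x₀ ∈ Ω, ∃ (s Ru : ℝ) (u' : E n → (Fin N → ℝ)) (μ' : Measure (E n))
      (g' : E n → (Fin K → ℝ)), 0 < s ∧ IsPair A Ru u' μ' g' ∧ (∀ x ∈ ball x₀ s, u' x = u x) ∧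
      μ'.restrict (ball x₀ s) = μ.restrict (ball x₀ s) ∧
      ∀ᵐ x ∂(μ.restrict (ball x₀ s)), g' x = g x

/-- The frozen statement S03869 (word for word). -/
def Stmt_ASM : Prop :=
  ∀ (n N K : ℕ) (A : Fin n → Matrix (Fin K) (Fin N) ℝ),
    (∀ ξ : Fin n → ℂ, ξ ≠ 0 → ∀ v : Fin N → ℂ,
      (∑ j, ξ j • (A j).map (fun t : ℝ => (t : ℂ))) *ᵥ v = 0 → v = 0) →
    ∀ (Ω : Set (EuclideanSpace ℝ (Fin n))), IsOpen Ω →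
    ∀ (u : EuclideanSpace ℝ (Fin n) → (Fin N → ℝ)), Measurable u → IntegrableOn u Ω →
    ∀ (μ : Measure (EuclideanSpace ℝ (Fin n))) (g : EuclideanSpace ℝ (Fin n) → (Fin K → ℝ)),
      IsFiniteMeasure μ → μ Ωᶜ = 0 → Measurable g → (∀ᵐ x ∂μ, ‖g x‖ = 1) →
      (∀ φ : EuclideanSpace ℝ (Fin n) → (Fin K → ℝ), ContDiff ℝ (⊤ : ℕ∞) φ →
        HasCompactSupport φ → tsupport φ ⊆ Ω →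
        ∫ x in Ω, ∑ j, u x ⬝ᵥ ((A j).transpose *ᵥ (fderiv ℝ φ x (EuclideanSpace.single j 1))) =
          - ∫ x, g x ⬝ᵥ φ x ∂μ) →
      μ {x | x ∈ Ω ∧
        (¬ ∃ z : Fin N → ℝ,
          Tendsto (fun r : ℝ => (volume (Metric.ball x r))⁻¹ *
            ∫⁻ y in Metric.ball x r, ‖u y - z‖ₑ) (𝓝[>] 0) (𝓝 0)) ∧
        (¬ ∃ (a b : Fin N → ℝ) (ν : EuclideanSpace ℝ (Fin n)), a ≠ b ∧ ‖ν‖ = 1 ∧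
          Tendsto (fun r : ℝ => (volume (Metric.ball x r))⁻¹ *
            ∫⁻ y in Metric.ball x r ∩ {y | 0 < inner ℝ (y - x) ν}, ‖u y - a‖ₑ)
            (𝓝[>] 0) (𝓝 0) ∧
          Tendsto (fun r : ℝ => (volume (Metric.ball x r))⁻¹ *
            ∫⁻ y in Metric.ball x r ∩ {y | inner ℝ (y - x) ν < 0}, ‖u y - b‖ₑ)
            (𝓝[>] 0) (𝓝 0))} = 0

end Pool.Agent.CEL
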